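import Pool.Agent.PWM.Blk

/-!
# Swaps and permutations of the handles (paper, 3: sigma, pi)

`Sw i j` for `j = i + 1`: `T_i ↦ δ_i T_j δ_i⁻¹`, `T_j ↦ T_i`; inverse `T_i ↦ T_j`, `T_j ↦ δ_j⁻¹ T_i δ_j`.
`perm_exists`: products of `Sw`'s (every permutation is a product of transpositions of neighbours).
-/

namespace Pool.Agent.PWM

open Pool.Agent.PW

variable {g n : ℕ}

/-- `T_i ↦ δ_i T_j δ_i⁻¹`, `T_j ↦ T_i` -/
def swh (i j : Fin g) : F g n →* F g n :=
  FreeGroup.lift fun x =>
    if x = Gen.a i then dl i * ga j * (dl i)⁻¹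
    else if x = Gen.b i then dl i * gb j * (dl i)⁻¹
    else if x = Gen.a j then ga i
    else if x = Gen.b j then gb i
    else FreeGroup.of x

/-- the inverse -/
def swi (i j : Fin g) : F g n →* F g n :=
  FreeGroup.lift fun x =>
    if x = Gen.a i then ga j
    else if x = Gen.b i then gb j
    else if x = Gen.a j then (dl j)⁻¹ * ga i * dl j
    else if x = Gen.b j then (dl j)⁻¹ * gb i * dl j
    else FreeGroup.of x

theorem swh_ai (i j : Fin g) : swh (n := n) i j (ga i) = dl i * ga j * (dl i)⁻¹ := by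
  simp [swh, ga]

theorem swh_bi (i j : Fin g) : swh (n := n) i j (gb i) = dl i * gb j * (dl i)⁻¹ := by
  simp [swh, gb]

theorem swh_aj {i j : Fin g} (hji : j ≠ i) : swh (n := n) i j (ga j) = ga i := by
  simp [swh, ga, hji]

theorem swh_bj {i j : Fin g} (hji : j ≠ i) : swh (n := n) i j (gb j) = gb i := by
  simp [swh, gb, hji]

theorem swh_a' {i j l : Fin g} (h1 : l ≠ i) (h2 : l ≠ j) : swh (n := n) i j (ga l) = ga l := by
  simp [swh, ga, h1, h2]

theorem swh_b' {i j l : Fin g} (h1 : l ≠ i) (h2 : l ≠ j) : swh (n := n) i j (gb l) = gb l := by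
  simp [swh, gb, h1, h2]

theorem swh_c (i j : Fin g) (l : Fin n) : swh i j (gc l) = gc l := by
  simp [swh, gc]

theorem swi_ai (i j : Fin g) : swi (n := n) i j (ga i) = ga j := by
  simp [swi, ga]

theorem swi_bi (i j : Fin g) : swi (n := n) i j (gb i) = gb j := by
  simp [swi, gb]

theorem swi_aj {i j : Fin g} (hji : j ≠ i) :
    swi (n := n) i j (ga j) = (dl j)⁻¹ * ga i * dl j := by
  simp [swi, ga, hji]

theorem swi_bj {i j : Fin g} (hji : j ≠ i) :
    swi (n := n) i j (gb j) = (dl j)⁻¹ * gb i * dl j := by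
  simp [swi, gb, hji]

theorem swi_a' {i j l : Fin g} (h1 : l ≠ i) (h2 : l ≠ j) : swi (n := n) i j (ga l) = ga l := by
  simp [swi, ga, h1, h2]

theorem swi_b' {i j l : Fin g} (h1 : l ≠ i) (h2 : l ≠ j) : swi (n := n) i j (gb l) = gb l := by
  simp [swi, gb, h1, h2]

theorem swi_c (i j : Fin g) (l : Fin n) : swi i j (gc l) = gc l := by
  simp [swi, gc]

theorem swh_dli (i j : Fin g) : swh (n := n) i j (dl i) = dl i * dl j * (dl i)⁻¹ := by
  rw [map_dl, swh_ai, swh_bi]
  generalize (dl i : F g n) = d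
  unfold dl cm
  group

theorem swh_dlj {i j : Fin g} (hji : j ≠ i) : swh (n := n) i j (dl j) = dl i := by
  rw [map_dl, swh_aj hji, swh_bj hji]
  rfl

theorem swi_dli (i j : Fin g) : swi (n := n) i j (dl i) = dl j := by
  rw [map_dl, swi_ai, swi_bi]
  rfl

theorem swi_comp {i j : Fin g} (hji : j ≠ i) :
    (swi (n := n) i j).comp (swh i j) = MonoidHom.id _ := by
  apply hom_ext
  · intro m
    rw [MonoidHom.comp_apply, MonoidHom.id_apply]
    by_cases hm : m = i
    · subst hm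
      rw [swh_ai, map_mul, map_mul, map_inv, swi_dli, swi_aj hji]
      group
    · by_cases hm' : m = j
      · subst hm'
        rw [swh_aj hji, swi_ai]
      · rw [swh_a' hm hm', swi_a' hm hm']
  · intro m
    rw [MonoidHom.comp_apply, MonoidHom.id_apply]
    by_cases hm : m = i
    · subst hm
      rw [swh_bi, map_mul, map_mul, map_inv, swi_dli, swi_bj hji]
      group
    · by_cases hm' : m = j
      · subst hm'
        rw [swh_bj hji, swi_bi]
      · rw [swh_b' hm hm', swi_b' hm hm']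
  · intro m
    rw [MonoidHom.comp_apply, MonoidHom.id_apply, swh_c, swi_c]

theorem swh_comp {i j : Fin g} (hji : j ≠ i) :
    (swh (n := n) i j).comp (swi i j) = MonoidHom.id _ := by
  apply hom_ext
  · intro m
    rw [MonoidHom.comp_apply, MonoidHom.id_apply]
    by_cases hm : m = i
    · subst hm
      rw [swi_ai, swh_aj hji]
    · by_cases hm' : m = j
      · subst hm'
        rw [swi_aj hji, map_mul, map_mul, map_inv, swh_dlj hji, swh_ai]
        group
      · rw [swi_a' hm hm', swh_a' hm hm']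
  · intro m
    rw [MonoidHom.comp_apply, MonoidHom.id_apply]
    by_cases hm : m = i
    · subst hm
      rw [swi_bi, swh_bj hji]
    · by_cases hm' : m = j
      · subst hm'
        rw [swi_bj hji, map_mul, map_mul, map_inv, swh_dlj hji, swh_bi]
        group
      · rw [swi_b' hm hm', swh_b' hm hm']
  · intro m
    rw [MonoidHom.comp_apply, MonoidHom.id_apply, swi_c, swh_c]

theorem swp_ne {i j : Fin g} (h : (j : ℕ) = i + 1) : j ≠ i := by
  rintro rfl
  omega

/-- The swap of the neighbouring handles `i` and `j = i + 1`. -/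
def Sw (i j : Fin g) (h : (j : ℕ) = i + 1) : MulAut (F g n) := mkAut (swh i j) (swi i j)
  (swi_comp (swp_ne h)) (swh_comp (swp_ne h))

section

variable {i j : Fin g} (h : (j : ℕ) = i + 1)

theorem swp_apply (x : F g n) : Sw i j h x = swh i j x := rfl

theorem swp_inv_apply (x : F g n) : (Sw i j h)⁻¹ x = swi i j x := rfl

theorem Sw_ai : Sw (n := n) i j h (ga i) = dl i * ga j * (dl i)⁻¹ := by
  rw [swp_apply, swh_ai]

theorem Sw_bi : Sw (n := n) i j h (gb i) = dl i * gb j * (dl i)⁻¹ := by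
  rw [swp_apply, swh_bi]

theorem Sw_aj : Sw (n := n) i j h (ga j) = ga i := by
  rw [swp_apply, swh_aj (swp_ne h)]

theorem Sw_bj : Sw (n := n) i j h (gb j) = gb i := by
  rw [swp_apply, swh_bj (swp_ne h)]

theorem Sw_a' {l : Fin g} (h1 : l ≠ i) (h2 : l ≠ j) : Sw (n := n) i j h (ga l) = ga l := by
  rw [swp_apply, swh_a' h1 h2]

theorem Sw_b' {l : Fin g} (h1 : l ≠ i) (h2 : l ≠ j) : Sw (n := n) i j h (gb l) = gb l := by
  rw [swp_apply, swh_b' h1 h2]

theorem Sw_c (l : Fin n) : Sw i j h (gc l) = gc l := by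
  rw [swp_apply, swh_c]

theorem Sw_dli : Sw (n := n) i j h (dl i) = dl i * dl j * (dl i)⁻¹ := by
  rw [swp_apply, swh_dli]

theorem Sw_dlj : Sw (n := n) i j h (dl j) = dl i := by
  rw [swp_apply, swh_dlj (swp_ne h)]

theorem Sw_inv_ai : (Sw (n := n) i j h)⁻¹ (ga i) = ga j := by
  rw [swp_inv_apply, swi_ai]

theorem Sw_inv_bi : (Sw (n := n) i j h)⁻¹ (gb i) = gb j := by
  rw [swp_inv_apply, swi_bi]

theorem Sw_inv_aj : (Sw (n := n) i j h)⁻¹ (ga j) = (dl j)⁻¹ * ga i * dl j := by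
  rw [swp_inv_apply, swi_aj (swp_ne h)]

theorem Sw_inv_bj : (Sw (n := n) i j h)⁻¹ (gb j) = (dl j)⁻¹ * gb i * dl j := by
  rw [swp_inv_apply, swi_bj (swp_ne h)]

theorem Sw_bdry : Sw i j h (bdry g n) = bdry g n := by
  have hij : (i : ℕ) < j := by omega
  rw [swp_apply, bdry_split2 i j hij]
  simp only [map_mul]
  have h1 : swh i j (seg g n 0 i) = seg g n 0 i := by
    apply seg_congr (ψ := MonoidHom.id _)
    intro l _ hl
    have hli : l ≠ i := by
      rintro rfl
      omega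
    have hlj : l ≠ j := by
      rintro rfl
      omega
    exact ⟨swh_a' hli hlj, swh_b' hli hlj⟩
  have h2 : swh i j (seg g n (j + 1) (g - j - 1)) = seg g n (j + 1) (g - j - 1) := by
    apply seg_congr (ψ := MonoidHom.id _)
    intro l hl _
    have hli : l ≠ i := by
      rintro rfl
      omega
    have hlj : l ≠ j := by
      rintro rfl
      omega
    exact ⟨swh_a' hli hlj, swh_b' hli hlj⟩
  have h3 : swh i j (cseg g n 0 n) = cseg g n 0 n := by
    apply cseg_congr (ψ := MonoidHom.id _)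
    intro l _ _
    exact swh_c _ _ _
  have h4 : seg g n (i + 1) (j - i - 1) = 1 := by
    have h5 : (j : ℕ) - i - 1 = 0 := by omega
    rw [h5, seg_zero]
  have h6 : swh i j (cm (ga i) (gb i) : F g n) = dl i * dl j * (dl i)⁻¹ := swh_dli i j
  have h7 : swh i j (cm (ga j) (gb j) : F g n) = dl i := swh_dlj (swp_ne h)
  have h8 : (cm (ga i) (gb i) : F g n) = dl i := rfl
  have h9 : (cm (ga j) (gb j) : F g n) = dl j := rfl
  rw [h1, h2, h3, h4, map_one, h6, h7, h8, h9]
  group

theorem Sw_mem : Sw i j h ∈ MCG g n :=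
  mem_MCG_of_fix (Sw_bdry h) fun l => by rw [Sw_c]

end

/-- Some mapping class moves the first handle to a conjugate of the handle `i`. -/
theorem st_Move : St_Move := by
  intro g n z i hz
  obtain ⟨m, hm⟩ := i
  induction m with
  | zero =>
    refine ⟨1, (MCG g n).one_mem, 1, ?_⟩
    have e : z = ⟨0, hm⟩ := Fin.ext hz
    rw [e]
    simp
  | succ m ih =>
    obtain ⟨φ, hφ, w, h1, h2⟩ := ih (by omega)
    have h : ((⟨m + 1, hm⟩ : Fin g) : ℕ) = ((⟨m, by omega⟩ : Fin g) : ℕ) + 1 := rfl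
    refine ⟨Sw ⟨m, by omega⟩ ⟨m + 1, hm⟩ h * φ, (MCG g n).mul_mem (Sw_mem h) hφ,
      Sw ⟨m, by omega⟩ ⟨m + 1, hm⟩ h w * dl ⟨m, by omega⟩, ?_, ?_⟩
    · rw [MulAut.mul_apply, h1, map_mul, map_mul, map_inv, Sw_ai h]
      group
    · rw [MulAut.mul_apply, h2, map_mul, map_mul, map_inv, Sw_bi h]
      group

theorem swp_dn_map {h : ℕ} {φ : MulAut (F h 0)} {s : Equiv.Perm (Fin h)}
    (hφ : ∀ i, ∃ w ∈ Dn h, φ (ga i) = w * ga (s i) * w⁻¹ ∧ φ (gb i) = w * gb (s i) * w⁻¹)
    {x : F h 0} (hx : x ∈ Dn h) : φ x ∈ Dn h := by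
  have key : Dn h ≤ (Dn h).comap φ.toMonoidHom := by
    apply Subgroup.normalClosure_le_normal
    rintro _ ⟨i, rfl⟩
    obtain ⟨w, -, h1, h2⟩ := hφ i
    have h3 : φ (dl i) = w * dl (s i) * w⁻¹ := by
      rw [aut_dl, h1, h2]
      unfold dl cm
      group
    have h4 : φ (dl i) ∈ Dn h := by
      rw [h3]
      exact (Subgroup.normalClosure_normal (s := Set.range fun i : Fin h => (dl i : F h 0))).conj_mem
        _ (Subgroup.subset_normalClosure ⟨s i, rfl⟩) w
    exact h4
  exact key hx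

/-- Permutations of the handles, up to conjugation by elements of `Dn`. -/
theorem perm_exists {h : ℕ} (s : Equiv.Perm (Fin h)) : ∃ φ ∈ MCGd h, ∀ i, ∃ w ∈ Dn h,
    φ (ga i) = w * ga (s i) * w⁻¹ ∧ φ (gb i) = w * gb (s i) * w⁻¹ := by
  cases h with
  | zero => exact ⟨1, (MCGd 0).one_mem, fun i => i.elim0⟩
  | succ h =>
    have hs : s ∈ Submonoid.closure
        (Set.range fun i : Fin h => Equiv.swap i.castSucc i.succ) := by
      rw [Equiv.Perm.mclosure_swap_castSucc_succ]
      trivial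
    induction hs using Submonoid.closure_induction with
    | mem x hx =>
      obtain ⟨k, rfl⟩ := hx
      have hk : ((k.succ : Fin (h + 1)) : ℕ) = (k.castSucc : Fin (h + 1)) + 1 := by simp
      refine ⟨Sw k.castSucc k.succ hk, Sw_bdry hk, fun i => ?_⟩
      by_cases h1 : i = k.castSucc
      · subst h1
        refine ⟨dl k.castSucc, Subgroup.subset_normalClosure ⟨_, rfl⟩, ?_, ?_⟩
        · rw [Sw_ai hk]
          simp only [Equiv.swap_apply_left]
        · rw [Sw_bi hk]
          simp only [Equiv.swap_apply_left]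
      · by_cases h2 : i = k.succ
        · subst h2
          refine ⟨1, Subgroup.one_mem _, ?_, ?_⟩
          · rw [Sw_aj hk]
            simp only [Equiv.swap_apply_right]
            group
          · rw [Sw_bj hk]
            simp only [Equiv.swap_apply_right]
            group
        · refine ⟨1, Subgroup.one_mem _, ?_, ?_⟩
          · rw [Sw_a' hk h1 h2]
            simp only [Equiv.swap_apply_of_ne_of_ne h1 h2]
            group
          · rw [Sw_b' hk h1 h2]
            simp only [Equiv.swap_apply_of_ne_of_ne h1 h2]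
            group
    | one =>
      refine ⟨1, (MCGd (h + 1)).one_mem, fun i => ⟨1, Subgroup.one_mem _, ?_, ?_⟩⟩
      · simp
      · simp
    | mul s1 s2 _ _ ih1 ih2 =>
      obtain ⟨φ1, hφ1, h1⟩ := ih1
      obtain ⟨φ2, hφ2, h2⟩ := ih2
      refine ⟨φ1 * φ2, (MCGd (h + 1)).mul_mem hφ1 hφ2, fun i => ?_⟩
      obtain ⟨w2, hw2, ha2, hb2⟩ := h2 i
      obtain ⟨w1, hw1, ha1, hb1⟩ := h1 (s2 i)
      refine ⟨φ1 w2 * w1, Subgroup.mul_mem _ (swp_dn_map h1 hw2) hw1, ?_, ?_⟩
      · rw [MulAut.mul_apply, ha2, map_mul, map_mul, map_inv, ha1, Equiv.Perm.mul_apply]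
        group
      · rw [MulAut.mul_apply, hb2, map_mul, map_mul, map_inv, hb1, Equiv.Perm.mul_apply]
        group

/-- Permutations which keep the first handle (it is fixed exactly). -/
theorem perm_exists' {h : ℕ} {z : Fin h} (hz : (z : ℕ) = 0) (s : Equiv.Perm (Fin h)) (hs : s z = z) :
    ∃ φ ∈ MCGd h, φ (ga z) = ga z ∧ φ (gb z) = gb z ∧ ∀ i, i ≠ z → ∃ w ∈ D1 h,
      φ (ga i) = w * ga (s i) * w⁻¹ ∧ φ (gb i) = w * gb (s i) * w⁻¹ := by
  cases h with
  | zero => exact z.elim0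
  | succ h =>
    have hz0 : z = 0 := Fin.ext (by simpa using hz)
    subst hz0
    obtain ⟨⟨p, e⟩, he⟩ : ∃ q : Fin h.succ × Equiv.Perm (Fin h),
        Equiv.Perm.decomposeFin.symm q = s := ⟨Equiv.Perm.decomposeFin s, by simp⟩
    have hp : p = 0 := by
      have h1 := Equiv.Perm.decomposeFin_symm_apply_zero p e
      rw [he, hs] at h1
      exact h1.symm
    have hse : ∀ x : Fin h, s x.succ = (e x).succ := by
      intro x
      rw [← he, Equiv.Perm.decomposeFin_symm_apply_succ, hp, Equiv.swap_self]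
      rfl
    obtain ⟨φ, hφ, h1⟩ := perm_exists e
    have hm : 1 + h ≤ h + 1 := by omega
    obtain ⟨Ψ, -, h3, h4, h5, -⟩ := st_Blk (n := 0) hm φ hφ
    refine ⟨Ψ, h3, (h5 0 (Or.inl (by simp))).1, (h5 0 (Or.inl (by simp))).2, ?_⟩
    intro i hi
    obtain ⟨x, rfl⟩ := Fin.exists_succ_eq.mpr hi
    obtain ⟨w, hw, ha, hb⟩ := h1 x
    have hfa : ∀ y : Fin h, blk h (h + 1) 0 1 hm (ga y) = ga y.succ := by
      intro y
      rw [blk_a]
      congr 1
      apply Fin.ext
      show 1 + (y : ℕ) = y + 1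
      omega
    have hfb : ∀ y : Fin h, blk h (h + 1) 0 1 hm (gb y) = gb y.succ := by
      intro y
      rw [blk_b]
      congr 1
      apply Fin.ext
      show 1 + (y : ℕ) = y + 1
      omega
    refine ⟨blk h (h + 1) 0 1 hm w, ?_, ?_, ?_⟩
    · have h6 : blk h (h + 1) 0 1 hm w ∈ ⁅Bk (h + 1) 0 1 h, Bk (h + 1) 0 1 h⁆ :=
        (mem_blk_DD hm).mpr ⟨w, Dn_le h hw, rfl⟩
      rw [Bk_eq_Fge (by omega : 1 + h = h + 1)] at h6
      exact h6
    · rw [← hfa x, h4, ha, map_mul, map_mul, map_inv, hfa, hse]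
    · rw [← hfb x, h4, hb, map_mul, map_mul, map_inv, hfb, hse]

/-- A cyclic move: the handle `m + k` goes to the place `m`. -/
theorem swp_cycle (m k : ℕ) (hk : m + k < g) : ∃ C ∈ MCG g n,
    (C (ga ⟨m + k, hk⟩) = ga ⟨m, by omega⟩ ∧ C (gb ⟨m + k, hk⟩) = gb ⟨m, by omega⟩) ∧
    (∀ l : Fin g, ((l : ℕ) < m ∨ m + k < (l : ℕ)) → C (ga l) = ga l ∧ C (gb l) = gb l) ∧
    ∀ j, C (gc j) = gc j := by
  induction k with
  | zero =>
    exact ⟨1, (MCG g n).one_mem, ⟨rfl, rfl⟩, fun l _ => ⟨rfl, rfl⟩, fun j => rfl⟩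
  | succ k ih =>
    obtain ⟨C, hC, ⟨h1, h2⟩, h3, h4⟩ := ih (by omega)
    have h : ((⟨m + (k + 1), hk⟩ : Fin g) : ℕ) = ((⟨m + k, by omega⟩ : Fin g) : ℕ) + 1 := rfl
    refine ⟨C * Sw ⟨m + k, by omega⟩ ⟨m + (k + 1), hk⟩ h, (MCG g n).mul_mem hC (Sw_mem h),
      ⟨?_, ?_⟩, ?_, ?_⟩
    · rw [MulAut.mul_apply, Sw_aj h, h1]
    · rw [MulAut.mul_apply, Sw_bj h, h2]
    · intro l hl
      have hl1 : l ≠ ⟨m + k, by omega⟩ := by
        intro e
        rw [e] at hl
        simp only at hl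
        omega
      have hl2 : l ≠ ⟨m + (k + 1), hk⟩ := by
        intro e
        rw [e] at hl
        simp only at hl
        omega
      have hl3 : (l : ℕ) < m ∨ m + k < (l : ℕ) := by omega
      rw [MulAut.mul_apply, MulAut.mul_apply, Sw_a' h hl1 hl2, Sw_b' h hl1 hl2]
      exact h3 l hl3
    · intro j
      rw [MulAut.mul_apply, Sw_c h, h4]

/-- The first `r` steps of the block swap. -/
theorem swp_steps (hg : 8 ≤ g) (r : ℕ) (hr : r ≤ 4) : ∃ π ∈ MCG g n,
    (∀ i j : Fin g, (i : ℕ) < r → (j : ℕ) = i + 4 → π (ga j) = ga i ∧ π (gb j) = gb i) ∧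
    (∀ l : Fin g, r + 4 ≤ (l : ℕ) → π (ga l) = ga l ∧ π (gb l) = gb l) ∧
    ∀ j, π (gc j) = gc j := by
  induction r with
  | zero =>
    exact ⟨1, (MCG g n).one_mem, fun i j h => absurd h (Nat.not_lt_zero _), fun l _ => ⟨rfl, rfl⟩,
      fun j => rfl⟩
  | succ r ih =>
    obtain ⟨π, hπ, h1, h2, h3⟩ := ih (by omega)
    obtain ⟨C, hC, ⟨h4, h5⟩, h6, h7⟩ := swp_cycle (g := g) (n := n) r 4 (by omega)
    refine ⟨C * π, (MCG g n).mul_mem hC hπ, ?_, ?_, ?_⟩
    · intro i j hi hj
      rw [MulAut.mul_apply, MulAut.mul_apply]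
      by_cases hir : (i : ℕ) < r
      · obtain ⟨h8, h9⟩ := h1 i j hir hj
        rw [h8, h9]
        exact h6 i (Or.inl hir)
      · have hir' : (i : ℕ) = r := by omega
        obtain ⟨h8, h9⟩ := h2 j (by omega)
        rw [h8, h9]
        have ej : j = ⟨r + 4, by omega⟩ := Fin.ext (by simp only; omega)
        have ei : i = ⟨r, by omega⟩ := Fin.ext hir'
        have e1 : (ga j : F g n) = ga ⟨r + 4, by omega⟩ := congrArg ga ej
        have e2 : (gb j : F g n) = gb ⟨r + 4, by omega⟩ := congrArg gb ej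
        have e3 : (ga i : F g n) = ga ⟨r, by omega⟩ := congrArg ga ei
        have e4 : (gb i : F g n) = gb ⟨r, by omega⟩ := congrArg gb ei
        rw [e1, e2, e3, e4]
        exact ⟨h4, h5⟩
    · intro l hl
      rw [MulAut.mul_apply, MulAut.mul_apply]
      obtain ⟨h8, h9⟩ := h2 l (by omega)
      rw [h8, h9]
      exact h6 l (Or.inr (by omega))
    · intro j
      rw [MulAut.mul_apply, h3, h7]

/-- The block swap of the handles `0..3` and `4..7` (a product of `Sw`'s, moving the handle 4 to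
the first place, then 5 to the second, 6 to the third and 7 to the fourth; on the moved handles the identity up to
nothing: `T_j ↦ T_i` exactly). -/
theorem st_Swap : St_Swap := by
  intro g n hg
  obtain ⟨π, hπ, h1, h2, h3⟩ := swp_steps (n := n) hg 4 le_rfl
  exact ⟨π, hπ, h1, fun i hi => h2 i (by omega), h3⟩

end Pool.Agent.PWM
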