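import Pool.Agent.PWM.StB

/-!
# A : Lemma A (paper, 9.1)
-/

namespace Pool.Agent.PWM

open Pool.Agent.PW

theorem A_comm_le {G : Type*} [Group G] (A : Subgroup G) : ⁅A, A⁆ ≤ A :=
  Subgroup.commutator_le.mpr (fun _ hu _ hv =>
    A.mul_mem (A.mul_mem (A.mul_mem hu hv) (A.inv_mem hu)) (A.inv_mem hv))

theorem st_A (hB : St_Blk) (hN : St_N) (hC : St_Claim) : St_A := by
  intro g n k _ _ V _ _ S l χ hg hl h1
  have hm : 0 + 4 ≤ g := by omega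
  obtain ⟨Ψ, hΨ, h2, h3⟩ := NBx (n := n) hB hN hm le_rfl
    (fun x hx => hl.ne_zero (comm_le _ hx))
    (fun x hx y hy => hl.mul (comm_le _ hx) (comm_le _ hy)) h1
  have hl' : Eig (S.comp hΨ.1) l (fun x => χ (Ψ x)) := hl.comp hΨ.1
  obtain ⟨κ, h4, -, h6⟩ := hC (S.comp hΨ.1) l (fun x => χ (Ψ x)) ⟨0, by omega⟩ ⟨1, by omega⟩ hg
    rfl rfl hl' (h2 _ rfl) (h3 _ rfl)
  refine ⟨κ, ⟨Ψ (dl ⟨0, by omega⟩), ?_, h2 _ rfl, h4⟩, ?_⟩
  · rw [aut_dl]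
    apply Subgroup.commutator_mem_commutator
    · exact hΨ.map_bk (Bk_a (Nat.zero_le _) (by show 0 < 0 + 4; norm_num))
    · exact hΨ.map_bk (Bk_b (Nat.zero_le _) (by show 0 < 0 + 4; norm_num))
  · intro d hd
    have h7 : Ψ d = d := hΨ.fix_ge (k := 4) (by norm_num) (A_comm_le _ hd)
    have h8 : d ∈ DG g n 2 :=
      Subgroup.commutator_mono (Fge_anti (by norm_num)) (Fge_anti (by norm_num)) hd
    have h9 : Fx S l χ κ (Ψ d) := h6 d h8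
    rwa [h7] at h9

end Pool.Agent.PWM
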