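import Pool.Agent.PWM.StB

/-!
# B0 : the commutators of all handles in case B (paper, 9.4)
-/

namespace Pool.Agent.PWM

open Pool.Agent.PW

variable {g n : ℕ}

/-- Inner automorphisms are mapping classes. -/
theorem B0_conj_mem (x : F g n) : MulAut.conj x ∈ MCG g n := by
  refine ⟨?_, fun j => ?_⟩
  · exact (isConj_iff.mpr ⟨x, by rw [MulAut.conj_apply]⟩).symm
  · exact (isConj_iff.mpr ⟨x, by rw [MulAut.conj_apply]⟩).symm

theorem st_B0 (hB : St_Blk) (hJ : St_J) : St_B0 := by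
  intro g n k _ _ V _ _ S l χ hg hl h x
  have hm : 0 + g ≤ g := by omega
  have hle : ∀ d ∈ DB g n 0 g, d ∈ DD g n := fun d hd => comm_le _ hd
  have h1 : ∀ d ∈ DB g n 0 g, χ (x * d * x⁻¹) = 1 := by
    intro d hd
    refine JBx hB hJ hm (by omega) (X := fun d => χ (x * d * x⁻¹))
      (fun y hy => (hl.cj x).ne_zero (hle y hy))
      (fun y hy z hz => (hl.cj x).mul (hle y hy) (hle z hz)) ?_ hd
    intro Ψ hΨ i hi
    refine h Ψ hΨ.1 x (dl i) ?_
    exact Subgroup.commutator_mem_commutator (Bk_a (Nat.zero_le _) (by omega))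
      (Bk_b (Nat.zero_le _) (by omega))
  intro d hd
  refine ⟨h1 d hd, ?_⟩
  refine JB hB hJ hm (by omega) (L := fun d => l (S.v (x * d * x⁻¹))) ?_ ?_ hd
  · intro y hy z hz
    have e : x * (y * z) * x⁻¹ = (x * y * x⁻¹) * (x * z * x⁻¹) := by group
    show l (S.v (x * (y * z) * x⁻¹)) = l (S.v (x * y * x⁻¹)) + l (S.v (x * z * x⁻¹))
    rw [e, hl.c_mul (cj_mem (hle y hy) x), h1 y hy, one_mul]
  · intro Ψ hΨ i hi
    have hdl : dl i ∈ DB g n 0 4 :=
      Subgroup.commutator_mem_commutator (Bk_a (Nat.zero_le _) (by omega))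
        (Bk_b (Nat.zero_le _) (by omega))
    have h2 := (S.kill (MulAut.conj x * Ψ) ((MCG g n).mul_mem (B0_conj_mem x) hΨ.1) i).2.2
    have h3 : (MulAut.conj x * Ψ) (dl i) = x * Ψ (dl i) * x⁻¹ := by
      rw [MulAut.mul_apply, MulAut.conj_apply]
    rw [h3] at h2
    exact hl.zero_of_finOrd (cj_mem (map_aut_mem Ψ (dl_mem i)) x) h2 (h Ψ hΨ.1 x (dl i) hdl)

end Pool.Agent.PWM
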