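import Pool.Agent.PWM.Block
import Pool.Agent.PW.Central

/-!
# Blocks of handles (paper, conventions: block extension)

`blk h g n m hm` (Defs) puts `F h 0` on the handles `m, ..., m + h - 1`; basic facts are in Block.  An automorphism of `F h 0`
which fixes the boundary word extends by the identity on all the other letters.
-/

namespace Pool.Agent.PWM

open Pool.Agent.PW

variable {g n : ℕ}

theorem blk_hd {h m : ℕ} (hm : m + h ≤ g) {k : ℕ} (hk : k < h) :
    blk h g n m hm (hd h 0 k) = hd g n (m + k) := by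
  have h1 : hd h 0 k = dl ⟨k, hk⟩ := by
    simp [hd, hk, dl]
  have h2 : hd g n (m + k) = dl ⟨m + k, by omega⟩ := by
    simp [hd, dl, show m + k < g by omega]
  rw [h1, h2, blk_dl]

theorem blk_seg {h m : ℕ} (hm : m + h ≤ g) {s t : ℕ} (hst : s + t ≤ h) :
    blk h g n m hm (seg h 0 s t) = seg g n (m + s) t := by
  unfold seg
  rw [map_list_prod, List.map_map]
  have e : List.range' (m + s) t = (List.range' s t).map (fun k => m + k) := by
    rw [List.map_add_range']
  rw [e, List.map_map]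
  congr 1
  apply List.map_congr_left
  intro k hk
  rw [List.mem_range'_1] at hk
  simp only [Function.comp]
  exact blk_hd hm (by omega)

theorem cseg_none (h s : ℕ) : cseg h 0 s 0 = 1 := cseg_zero s

theorem blk_bdry {h m : ℕ} (hm : m + h ≤ g) : blk h g n m hm (bdry h 0) = seg g n m h := by
  rw [bdry_eq, cseg_zero, mul_one, blk_seg hm (by omega), Nat.add_zero]

/-- The extension of an endomorphism of a block. -/
def exh (h g n m : ℕ) (hm : m + h ≤ g) (ψ : F h 0 →* F h 0) : F g n →* F g n :=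
  FreeGroup.lift fun x => match x with
    | Gen.a i => if hi : m ≤ (i : ℕ) ∧ (i : ℕ) < m + h then
        blk h g n m hm (ψ (ga ⟨(i : ℕ) - m, by omega⟩)) else ga i
    | Gen.b i => if hi : m ≤ (i : ℕ) ∧ (i : ℕ) < m + h then
        blk h g n m hm (ψ (gb ⟨(i : ℕ) - m, by omega⟩)) else gb i
    | Gen.c j => gc j

section

variable {h m : ℕ} (hm : m + h ≤ g)

theorem exh_a (ψ : F h 0 →* F h 0) {i : Fin g} (h1 : m ≤ (i : ℕ)) (h2 : (i : ℕ) < m + h) :
    exh h g n m hm ψ (ga i) = blk h g n m hm (ψ (ga ⟨(i : ℕ) - m, by omega⟩)) := by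
  simp [exh, ga, h1, h2]

theorem exh_b (ψ : F h 0 →* F h 0) {i : Fin g} (h1 : m ≤ (i : ℕ)) (h2 : (i : ℕ) < m + h) :
    exh h g n m hm ψ (gb i) = blk h g n m hm (ψ (gb ⟨(i : ℕ) - m, by omega⟩)) := by
  simp [exh, gb, h1, h2]

theorem exh_a' (ψ : F h 0 →* F h 0) {i : Fin g} (h1 : (i : ℕ) < m ∨ m + h ≤ (i : ℕ)) :
    exh h g n m hm ψ (ga i) = ga i := by
  have h2 : ¬ (m ≤ (i : ℕ) ∧ (i : ℕ) < m + h) := by omega
  have h3 : exh h g n m hm ψ (FreeGroup.of (Gen.a i)) = ga i := by
    unfold exh
    rw [FreeGroup.lift_apply_of]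
    simp only [dif_neg h2]
  exact h3

theorem exh_b' (ψ : F h 0 →* F h 0) {i : Fin g} (h1 : (i : ℕ) < m ∨ m + h ≤ (i : ℕ)) :
    exh h g n m hm ψ (gb i) = gb i := by
  have h2 : ¬ (m ≤ (i : ℕ) ∧ (i : ℕ) < m + h) := by omega
  have h3 : exh h g n m hm ψ (FreeGroup.of (Gen.b i)) = gb i := by
    unfold exh
    rw [FreeGroup.lift_apply_of]
    simp only [dif_neg h2]
  exact h3

theorem exh_c (ψ : F h 0 →* F h 0) (j : Fin n) : exh h g n m hm ψ (gc j) = gc j := by
  simp [exh, gc]

theorem exh_blk (ψ : F h 0 →* F h 0) (x : F h 0) :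
    exh h g n m hm ψ (blk h g n m hm x) = blk h g n m hm (ψ x) := by
  have e : (exh h g n m hm ψ).comp (blk h g n m hm) = (blk h g n m hm).comp ψ := by
    apply hom_ext
    · intro i
      rw [MonoidHom.comp_apply, MonoidHom.comp_apply, blk_a, exh_a hm ψ (by simp) (by simp)]
      congr 3
      apply Fin.ext
      simp
    · intro i
      rw [MonoidHom.comp_apply, MonoidHom.comp_apply, blk_b, exh_b hm ψ (by simp) (by simp)]
      congr 3
      apply Fin.ext
      simp
    · intro j
      exact j.elim0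
  exact DFunLike.congr_fun e x

theorem exh_comp (ψ ψ' : F h 0 →* F h 0) :
    (exh h g n m hm ψ).comp (exh h g n m hm ψ') = exh h g n m hm (ψ.comp ψ') := by
  apply hom_ext
  · intro i
    by_cases hi : m ≤ (i : ℕ) ∧ (i : ℕ) < m + h
    · rw [MonoidHom.comp_apply, exh_a hm ψ' hi.1 hi.2, exh_blk, exh_a hm _ hi.1 hi.2]
      rfl
    · have h1 : (i : ℕ) < m ∨ m + h ≤ (i : ℕ) := by omega
      rw [MonoidHom.comp_apply, exh_a' hm _ h1, exh_a' hm _ h1, exh_a' hm _ h1]
  · intro i
    by_cases hi : m ≤ (i : ℕ) ∧ (i : ℕ) < m + h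
    · rw [MonoidHom.comp_apply, exh_b hm ψ' hi.1 hi.2, exh_blk, exh_b hm _ hi.1 hi.2]
      rfl
    · have h1 : (i : ℕ) < m ∨ m + h ≤ (i : ℕ) := by omega
      rw [MonoidHom.comp_apply, exh_b' hm _ h1, exh_b' hm _ h1, exh_b' hm _ h1]
  · intro j
    rw [MonoidHom.comp_apply, exh_c, exh_c, exh_c]

theorem exh_id : exh h g n m hm (MonoidHom.id _) = MonoidHom.id _ := by
  apply hom_ext
  · intro i
    by_cases hi : m ≤ (i : ℕ) ∧ (i : ℕ) < m + h
    · rw [exh_a hm _ hi.1 hi.2, MonoidHom.id_apply, MonoidHom.id_apply, blk_a]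
      congr 1
      apply Fin.ext
      show m + ((i : ℕ) - m) = i
      omega
    · have h1 : (i : ℕ) < m ∨ m + h ≤ (i : ℕ) := by omega
      rw [exh_a' hm _ h1]
      rfl
  · intro i
    by_cases hi : m ≤ (i : ℕ) ∧ (i : ℕ) < m + h
    · rw [exh_b hm _ hi.1 hi.2, MonoidHom.id_apply, MonoidHom.id_apply, blk_b]
      congr 1
      apply Fin.ext
      show m + ((i : ℕ) - m) = i
      omega
    · have h1 : (i : ℕ) < m ∨ m + h ≤ (i : ℕ) := by omega
      rw [exh_b' hm _ h1]
      rfl
  · intro j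
    rw [exh_c]
    rfl

/-- The extension of an automorphism of a block. -/
def exA (ψ : MulAut (F h 0)) : MulAut (F g n) :=
  mkAut (exh h g n m hm ψ.toMonoidHom) (exh h g n m hm ψ⁻¹.toMonoidHom)
    (by
      rw [exh_comp]
      have e : (ψ⁻¹.toMonoidHom).comp ψ.toMonoidHom = MonoidHom.id (F h 0) := by
        ext x
        show ψ⁻¹ (ψ _) = _
        simp
      rw [e, exh_id])
    (by
      rw [exh_comp]
      have e : (ψ.toMonoidHom).comp ψ⁻¹.toMonoidHom = MonoidHom.id (F h 0) := by
        ext x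
        show ψ (ψ⁻¹ _) = _
        simp
      rw [e, exh_id])

theorem exA_apply (ψ : MulAut (F h 0)) (x : F g n) :
    exA hm ψ x = exh h g n m hm ψ.toMonoidHom x := rfl

end

/-- The block extension. -/
theorem st_Blk : St_Blk := by
  intro h g n m hm ψ hψ
  have hR : exA (n := n) hm ψ (bdry g n) = bdry g n := by
    have e1 : g = m + (h + (g - m - h)) := by omega
    have e2 : seg g n 0 g = seg g n 0 (m + (h + (g - m - h))) := by rw [← e1]
    have e3 : bdry g n = seg g n 0 m * blk h g n m hm (bdry h 0) *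
        (seg g n (m + h) (g - m - h) * cseg g n 0 n) := by
      rw [bdry_eq, e2, seg_add, seg_add, blk_bdry, Nat.zero_add]
      group
    have h1 : exh h g n m hm ψ.toMonoidHom (seg g n 0 m) = seg g n 0 m := by
      apply seg_congr (ψ := MonoidHom.id _)
      intro i _ hi
      exact ⟨exh_a' hm _ (Or.inl (by omega)), exh_b' hm _ (Or.inl (by omega))⟩
    have h2 : exh h g n m hm ψ.toMonoidHom (seg g n (m + h) (g - m - h)) =
        seg g n (m + h) (g - m - h) := by
      apply seg_congr (ψ := MonoidHom.id _)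
      intro i hi _
      exact ⟨exh_a' hm _ (Or.inr (by omega)), exh_b' hm _ (Or.inr (by omega))⟩
    have h3 : exh h g n m hm ψ.toMonoidHom (cseg g n 0 n) = cseg g n 0 n := by
      apply cseg_congr (ψ := MonoidHom.id _)
      intro i _ _
      exact exh_c hm _ _
    have h4 : ψ.toMonoidHom (bdry h 0) = bdry h 0 := hψ
    rw [exA_apply, e3, map_mul, map_mul, map_mul, h1, h2, h3, exh_blk, h4]
  refine ⟨exA hm ψ, mem_MCG_of_fix hR fun j => ?_, hR, fun x => exh_blk hm _ x, ?_,
    fun j => exh_c hm ψ.toMonoidHom j⟩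
  · rw [exA_apply, exh_c]
  intro i hi
  exact ⟨exh_a' hm _ hi, exh_b' hm _ hi⟩

/-- The last block (no marked points). -/
theorem Bk_eq_Fge {h m : ℕ} (hm : m + h = g) : Bk g 0 m h = Fge g 0 m := by
  unfold Bk Fge
  congr 1
  ext x
  constructor
  · rintro ⟨i, h1, _, h3⟩
    exact Or.inl ⟨i, h1, h3⟩
  · rintro (⟨i, h1, h3⟩ | ⟨j, _⟩)
    · exact ⟨i, h1, by omega, h3⟩
    · exact j.elim0

/-- Every element is a product of an element of the handle `z`, of an element away from it, and of an
element of the commutator subgroup. -/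
theorem split_mod (z : Fin g) (w : F g n) :
    ∃ t ∈ Subgroup.closure {(ga z : F g n), gb z}, ∃ u ∈ away (n := n) z, (t * u)⁻¹ * w ∈ DD g n := by
  have key : ∀ {x y : F g n}, x⁻¹ * y ∈ DD g n ↔ Abelianization.of x = Abelianization.of y := by
    intro x y
    exact ⟨fun h => QuotientGroup.eq.mpr h, fun h => QuotientGroup.eq.mp h⟩
  let E : Subgroup (F g n) :=
    { carrier := {w | ∃ t ∈ Subgroup.closure {(ga z : F g n), gb z}, ∃ u ∈ away (n := n) z,
        Abelianization.of (t * u) = Abelianization.of w}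
      one_mem' := ⟨1, Subgroup.one_mem _, 1, Subgroup.one_mem _, by rw [mul_one]⟩
      mul_mem' := by
        rintro x y ⟨t, ht, u, hu, h1⟩ ⟨t', ht', u', hu', h2⟩
        refine ⟨t * t', Subgroup.mul_mem _ ht ht', u * u', Subgroup.mul_mem _ hu hu', ?_⟩
        rw [map_mul _ x y, ← h1, ← h2]
        simp only [map_mul]
        exact mul_mul_mul_comm _ _ _ _
      inv_mem' := by
        rintro x ⟨t, ht, u, hu, h1⟩
        refine ⟨t⁻¹, Subgroup.inv_mem _ ht, u⁻¹, Subgroup.inv_mem _ hu, ?_⟩
        rw [map_inv, ← h1]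
        simp only [map_mul, map_inv]
        rw [mul_inv] }
  have hE : E = ⊤ := by
    apply eq_top_of_gens
    · intro i
      by_cases hi : i = z
      · subst hi
        exact ⟨ga i, Subgroup.subset_closure (by simp), 1, Subgroup.one_mem _, by rw [mul_one]⟩
      · exact ⟨1, Subgroup.one_mem _, ga i, away_a hi, by rw [one_mul]⟩
    · intro i
      by_cases hi : i = z
      · subst hi
        exact ⟨gb i, Subgroup.subset_closure (by simp), 1, Subgroup.one_mem _, by rw [mul_one]⟩
      · exact ⟨1, Subgroup.one_mem _, gb i, away_b hi, by rw [one_mul]⟩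
    · intro j
      exact ⟨1, Subgroup.one_mem _, gc j, away_c z j, by rw [one_mul]⟩
  have hw : w ∈ E := by
    rw [hE]
    exact Subgroup.mem_top w
  obtain ⟨t, ht, u, hu, h1⟩ := hw
  exact ⟨t, ht, u, hu, key.mpr h1⟩

/-- The normal closure of the `dl i`. -/
abbrev Dn (h : ℕ) : Subgroup (F h 0) := Subgroup.normalClosure (Set.range fun i : Fin h => (dl i : F h 0))

theorem Dn_le (h : ℕ) : Dn h ≤ DD h 0 := by
  apply Subgroup.normalClosure_le_normal
  rintro _ ⟨i, rfl⟩
  exact dl_mem i

/-- The commutator subgroup of the subgroup of the handles after the first one. -/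
abbrev D1 (h : ℕ) : Subgroup (F h 0) := ⁅Fge h 0 1, Fge h 0 1⁆

theorem Fge_eq_away {z : Fin g} (hz : (z : ℕ) = 0) : Fge g n 1 = away z := by
  unfold Fge away
  congr 1
  ext x
  constructor
  · rintro (⟨i, h1, h2⟩ | h)
    · refine Or.inl ⟨i, ?_, h2⟩
      rintro rfl
      omega
    · exact Or.inr h
  · rintro (⟨i, h1, h2⟩ | h)
    · refine Or.inl ⟨i, ?_, h2⟩
      have := pos_of_ne hz h1
      omega
    · exact Or.inr h

/-- The subgroup `Fge` is a retract: its commutator subgroup is its intersection with `DD`. -/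
theorem mem_comm_of_mem {k : ℕ} {x : F g n} (hx : x ∈ Fge g n k) (hd : x ∈ DD g n) :
    x ∈ ⁅Fge g n k, Fge g n k⁆ := by
  let r : F g n →* F g n := FreeGroup.lift fun y => match y with
    | Gen.a i => if k ≤ (i : ℕ) then ga i else 1
    | Gen.b i => if k ≤ (i : ℕ) then gb i else 1
    | Gen.c j => gc j
  have ra : ∀ i : Fin g, r (ga i) = if k ≤ (i : ℕ) then ga i else 1 := by
    intro i
    simp [r, ga]
  have rb : ∀ i : Fin g, r (gb i) = if k ≤ (i : ℕ) then gb i else 1 := by
    intro i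
    simp [r, gb]
  have rc : ∀ j : Fin n, r (gc j) = gc j := by
    intro j
    simp [r, gc]
  have h1 : r x = x := by
    have : Fge g n k ≤ r.eqLocus (MonoidHom.id _) := by
      unfold Fge
      rw [Subgroup.closure_le]
      rintro x (⟨i, h1, rfl | rfl⟩ | ⟨j, rfl⟩)
      · show r (ga i) = ga i
        rw [ra, if_pos h1]
      · show r (gb i) = gb i
        rw [rb, if_pos h1]
      · exact rc j
    exact this hx
  have h2 : r.range ≤ Fge g n k := by
    rintro _ ⟨y, rfl⟩
    have : (⊤ : Subgroup (F g n)) ≤ (Fge g n k).comap r := by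
      rw [← FreeGroup.closure_range_of, Subgroup.closure_le]
      rintro _ ⟨y, rfl⟩
      cases y with
      | a i =>
        show r (ga i) ∈ Fge g n k
        rw [ra]
        by_cases hi : k ≤ (i : ℕ)
        · rw [if_pos hi]
          exact Fge_a hi
        · rw [if_neg hi]
          exact Subgroup.one_mem _
      | b i =>
        show r (gb i) ∈ Fge g n k
        rw [rb]
        by_cases hi : k ≤ (i : ℕ)
        · rw [if_pos hi]
          exact Fge_b hi
        · rw [if_neg hi]
          exact Subgroup.one_mem _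
      | c j =>
        show r (gc j) ∈ Fge g n k
        rw [rc]
        exact Fge_c j
    exact this (Subgroup.mem_top y)
  have h3 : (DD g n).map r ≤ ⁅Fge g n k, Fge g n k⁆ := by
    have e : DD g n = ⁅(⊤ : Subgroup (F g n)), ⊤⁆ := commutator_def _
    rw [e, Subgroup.map_commutator, ← MonoidHom.range_eq_map]
    exact Subgroup.commutator_mono h2 h2
  rw [← h1]
  exact h3 ⟨x, hd, rfl⟩

end Pool.Agent.PWM
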