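import Pool.Agent.PWM.StB

/-!
# C : Lemma C (paper, section 7)
-/

namespace Pool.Agent.PWM

open Pool.Agent.PW

open scoped commutatorElement

variable {g n : ℕ} {k : Type} [Field k] {V : Type} [AddCommGroup V] [Module k V]

theorem C_ρ_inv {S : Sys g n k V} {x y : F g n} (h : S.ρ x = S.ρ y) : S.ρ x⁻¹ = S.ρ y⁻¹ := by
  have h1 : S.ρ x⁻¹ * S.ρ x = 1 := by rw [← map_mul, inv_mul_cancel, map_one]
  have h2 : S.ρ y * S.ρ y⁻¹ = 1 := by rw [← map_mul, mul_inv_cancel, map_one]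
  calc S.ρ x⁻¹ = S.ρ x⁻¹ * (S.ρ y * S.ρ y⁻¹) := by rw [h2, mul_one]
    _ = S.ρ x⁻¹ * (S.ρ x * S.ρ y⁻¹) := by rw [h]
    _ = S.ρ y⁻¹ := by rw [← mul_assoc, h1, one_mul]

/-- The elements whose operator is the one of an element of `A D`. -/
def C_sub (S : Sys g n k V) (A : Subgroup (F g n)) : Subgroup (F g n) where
  carrier := {x | ∃ f ∈ A, ∃ e ∈ DD g n, S.ρ x = S.ρ (f * e)}
  one_mem' := ⟨1, A.one_mem, 1, (DD g n).one_mem, by rw [mul_one]⟩
  mul_mem' := by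
    rintro x y ⟨f, hf, e, he, h1⟩ ⟨f', hf', e', he', h2⟩
    refine ⟨f * f', A.mul_mem hf hf', (f'⁻¹ * e * f') * e', (DD g n).mul_mem (cj_mem' he f') he', ?_⟩
    have e1 : f * f' * ((f'⁻¹ * e * f') * e') = (f * e) * (f' * e') := by group
    rw [map_mul, h1, h2, ← map_mul, e1]
  inv_mem' := by
    rintro x ⟨f, hf, e, he, h1⟩
    refine ⟨f⁻¹, A.inv_mem hf, f * e⁻¹ * f⁻¹, cj_mem ((DD g n).inv_mem he) f, ?_⟩
    have e1 : f⁻¹ * (f * e⁻¹ * f⁻¹) = (f * e)⁻¹ := by group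
    rw [e1, C_ρ_inv h1]

theorem C_sub_A (S : Sys g n k V) {A : Subgroup (F g n)} {f : F g n} (hf : f ∈ A) :
    f ∈ C_sub S A := ⟨f, hf, 1, (DD g n).one_mem, by rw [mul_one]⟩

theorem C_sub_D (S : Sys g n k V) {A : Subgroup (F g n)} {e : F g n} (he : e ∈ DD g n) :
    e ∈ C_sub S A := ⟨1, A.one_mem, e, he, by rw [one_mul]⟩

theorem C_comm_le {G : Type*} [Group G] (A : Subgroup G) : ⁅A, A⁆ ≤ A :=
  Subgroup.commutator_le.mpr (fun _ hu _ hv =>
    A.mul_mem (A.mul_mem (A.mul_mem hu hv) (A.inv_mem hu)) (A.inv_mem hv))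

theorem C_norm {G : Type*} [Group G] {A : Subgroup G} {a x : G} (ha : a ∈ A) (hx : x ∈ ⁅A, A⁆) :
    a * x * a⁻¹ ∈ ⁅A, A⁆ := by
  have h3 : a * x * a⁻¹ = ⁅a, x⁆ * x := by
    rw [commutatorElement_def]
    group
  rw [h3]
  exact Subgroup.mul_mem _ (Subgroup.commutator_mem_commutator ha (C_comm_le A hx)) hx

theorem C_conj {S : Sys g n k V} {l : V →ₗ[k] k} {χ : F g n → k} (hl : Eig S l χ)
    {A : Subgroup (F g n)} (h1 : ∀ d ∈ ⁅A, A⁆, χ d = 1) {y d : F g n} (hy : y ∈ C_sub S A)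
    (hd : d ∈ ⁅A, A⁆) : χ (y * d * y⁻¹) = 1 := by
  obtain ⟨f, hf, e, he, hr⟩ := hy
  have hdD : d ∈ DD g n := comm_le A hd
  have e1 : S.ρ (y * d * y⁻¹) = S.ρ (f * (e * d * e⁻¹) * f⁻¹) := by
    have e2 : f * (e * d * e⁻¹) * f⁻¹ = (f * e) * d * (f * e)⁻¹ := by group
    rw [e2, map_mul, map_mul, map_mul, map_mul, hr, C_ρ_inv hr]
  rw [hl.of_ρ (cj_mem hdD y) (cj_mem (cj_mem hdD e) f) e1, (hl.cj f).cj_D he hdD]
  exact h1 _ (C_norm hf hd)

/-- The case of a flat block. -/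
theorem C_flat [CharZero k] (hG : St_GFl) (hC : St_GrpC) {S : Sys g n k V} {l : V →ₗ[k] k}
    {χ : F g n → k} (hl : Eig S l χ) {m : ℕ} (h2 : 2 ≤ m) (hm : m + 2 ≤ g)
    (h1 : ∀ d ∈ DB g n m 2, χ d = 1) {z o : Fin g} (hz : (z : ℕ) = 0) (ho : (o : ℕ) = 1) :
    ∃ κ, Fx S l χ κ (dl z) ∧ Fx S l χ κ (dl o) := by
  obtain ⟨G, e0, e1, c0, c1, c2, c3⟩ := hC (g := g) (n := n) h2 hm
  have c1 := c1 z hz
  have c2 := c2 o ho
  have hseg : ∀ s t, seg g n s t ∈ DD g n := fun s t => seg_mem' (fun i _ _ => dl_mem i)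
  have hrest : seg g n (m + 2) (g - (m + 2)) * cseg g n 0 n ∈ C_sub S (Bk g n m 2) := by
    refine ⟨1, Subgroup.one_mem _, (seg g n 0 (m + 2))⁻¹, (DD g n).inv_mem (hseg _ _), ?_⟩
    have e2 : bdry g n = seg g n 0 (m + 2) *
        (seg g n (m + 2) (g - (m + 2)) * cseg g n 0 n) := by
      rw [bdry_eq, ← mul_assoc]
      congr 1
      have h : g = (m + 2) + (g - (m + 2)) := by omega
      have h' : seg g n 0 g = seg g n 0 ((m + 2) + (g - (m + 2))) := by rw [← h]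
      rw [h', seg_add, Nat.zero_add]
    have e3 := S.bd
    rw [e2, map_mul] at e3
    have e4 : S.ρ (seg g n 0 (m + 2))⁻¹ * S.ρ (seg g n 0 (m + 2)) = 1 := by
      rw [← map_mul, inv_mul_cancel, map_one]
    rw [one_mul]
    calc S.ρ (seg g n (m + 2) (g - (m + 2)) * cseg g n 0 n) =
        (S.ρ (seg g n 0 (m + 2))⁻¹ * S.ρ (seg g n 0 (m + 2))) *
          S.ρ (seg g n (m + 2) (g - (m + 2)) * cseg g n 0 n) := by rw [e4, one_mul]
      _ = S.ρ (seg g n 0 (m + 2))⁻¹ := by rw [mul_assoc, e3, mul_one]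
  have htop : (C_sub S (Bk g n m 2)).comap G.ι = ⊤ := by
    apply eq_top_of_gens
    · intro i
      show G.ι (ga i) ∈ C_sub S (Bk g n m 2)
      rw [G.ιa]
      apply C_sub_A
      fin_cases i
      · exact Bk_a (by show m ≤ (G.e 0 : ℕ); omega) (by show (G.e 0 : ℕ) < m + 2; omega)
      · exact Bk_a (by show m ≤ (G.e 1 : ℕ); omega) (by show (G.e 1 : ℕ) < m + 2; omega)
    · intro i
      show G.ι (gb i) ∈ C_sub S (Bk g n m 2)
      rw [G.ιb]
      apply C_sub_A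
      fin_cases i
      · exact Bk_b (by show m ≤ (G.e 0 : ℕ); omega) (by show (G.e 0 : ℕ) < m + 2; omega)
      · exact Bk_b (by show m ≤ (G.e 1 : ℕ); omega) (by show (G.e 1 : ℕ) < m + 2; omega)
    · intro j
      show G.ι (gc j) ∈ C_sub S (Bk g n m 2)
      fin_cases j
      · show G.ι (gc 0) ∈ _
        rw [c0]
        exact hrest
      · show G.ι (gc 1) ∈ _
        rw [c1]
        exact C_sub_D S (dl_mem _)
      · show G.ι (gc 2) ∈ _
        rw [c2]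
        exact C_sub_D S (dl_mem _)
      · show G.ι (gc 3) ∈ _
        rw [c3]
        exact C_sub_D S (hseg _ _)
  have hall : ∀ x, G.ι x ∈ C_sub S (Bk g n m 2) := by
    intro x
    have : x ∈ (C_sub S (Bk g n m 2)).comap G.ι := by
      rw [htop]
      exact Subgroup.mem_top x
    exact this
  have hmap : ∀ d ∈ DB 2 4 0 2, G.ι d ∈ DB g n m 2 := by
    have h3 : (Bk 2 4 0 2).map G.ι ≤ Bk g n m 2 := by
      unfold Bk
      rw [Subgroup.map_le_iff_le_comap, Subgroup.closure_le]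
      rintro x ⟨i, -, -, rfl | rfl⟩
      · show G.ι (ga i) ∈ Bk g n m 2
        rw [G.ιa]
        fin_cases i
        · exact Bk_a (by show m ≤ (G.e 0 : ℕ); omega) (by show (G.e 0 : ℕ) < m + 2; omega)
        · exact Bk_a (by show m ≤ (G.e 1 : ℕ); omega) (by show (G.e 1 : ℕ) < m + 2; omega)
      · show G.ι (gb i) ∈ Bk g n m 2
        rw [G.ιb]
        fin_cases i
        · exact Bk_b (by show m ≤ (G.e 0 : ℕ); omega) (by show (G.e 0 : ℕ) < m + 2; omega)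
        · exact Bk_b (by show m ≤ (G.e 1 : ℕ); omega) (by show (G.e 1 : ℕ) < m + 2; omega)
    intro d hd
    have h4 : (DB 2 4 0 2).map G.ι ≤ DB g n m 2 := by
      rw [Subgroup.map_commutator]
      exact Subgroup.commutator_mono h3 h3
    exact h4 ⟨d, hd, rfl⟩
  obtain ⟨⟨u, hu⟩, -⟩ := hG (S.pull G) l (fun x => χ (G.ι x)) le_rfl (hl.pull G) (by
    intro x d hd
    show χ (G.ι (x * d * x⁻¹)) = 1
    rw [map_mul, map_mul, map_inv]
    exact C_conj hl h1 (hall x) (hmap d hd))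
  have key : ∀ (j : Fin 4) (i : Fin g), G.ι (gc j) = dl i → Fx S l χ (l u) (dl i) := by
    intro j i hij
    have h3 := hu (gc j) (Fge_c j)
    rw [S.pull_v, S.pull_ρ, hij, hl.eig _ (dl_mem i)] at h3
    unfold Fx
    rw [h3]
    ring
  exact ⟨l u, key 1 z c1, key 2 o c2⟩

theorem C_step [CharZero k] (hB : St_Blk) (hJ : St_J) (hG : St_GFl) (hC : St_GrpC)
    {S : Sys g n k V} {l : V →ₗ[k] k} {χ : F g n → k} (hl : Eig S l χ) (hg : 9 ≤ g)
    {z o : Fin g} (hz : (z : ℕ) = 0) (ho : (o : ℕ) = 1) (hz1 : χ (dl z) ≠ 1)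
    (ho1 : χ (dl o) ≠ 1) (m : ℕ) (h2 : 2 ≤ m) : m ≤ 8 →
    (∃ κ, Fx S l χ κ (dl z) ∧ Fx S l χ κ (dl o)) ∨
      ∃ ψ ∈ MCG g n, ψ (dl z) = dl z ∧ ψ (dl o) = dl o ∧
        ∀ i : Fin g, (i : ℕ) < m → χ (ψ (dl i)) ≠ 1 := by
  induction m, h2 using Nat.le_induction with
  | base =>
    intro _
    refine Or.inr ⟨1, (MCG g n).one_mem, rfl, rfl, fun i hi => ?_⟩
    show χ (dl i) ≠ 1
    by_cases h0 : (i : ℕ) = 0
    · have : i = z := Fin.ext (by omega)
      rw [this]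
      exact hz1
    · have : i = o := Fin.ext (by omega)
      rw [this]
      exact ho1
  | succ m h2 ih =>
    intro hm
    rcases ih (by omega) with h | ⟨ψ, hψ, hψz, hψo, hψm⟩
    · exact Or.inl h
    have hl' : Eig (S.comp hψ) l (fun x => χ (ψ x)) := hl.comp hψ
    have hm2 : m + 2 ≤ g := by omega
    by_cases hflat : ∀ d ∈ DB g n m 2, χ (ψ d) = 1
    · left
      obtain ⟨κ, h3, h4⟩ := C_flat hG hC hl' h2 hm2 hflat hz ho
      refine ⟨κ, ?_, ?_⟩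
      · have h5 : Fx S l χ κ (ψ (dl z)) := h3
        rwa [hψz] at h5
      · have h5 : Fx S l χ κ (ψ (dl o)) := h4
        rwa [hψo] at h5
    · right
      have hex : ∃ Ψ, BlkExt 2 g n m hm2 Ψ ∧ ∃ i : Fin g, (i : ℕ) = m ∧ χ (ψ (Ψ (dl i))) ≠ 1 := by
        by_contra hc
        push Not at hc
        apply hflat
        intro d hd
        exact JBx hB hJ hm2 le_rfl (X := fun x => χ (ψ x))
          (fun x hx => hl'.ne_zero (comm_le _ hx))
          (fun x hx y hy => hl'.mul (comm_le _ hx) (comm_le _ hy)) (fun Ψ hΨ i hi => hc Ψ hΨ i hi)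
          hd
      obtain ⟨Ψ, hΨ, j, hj, hj1⟩ := hex
      have hfix : ∀ i : Fin g, (i : ℕ) < m → Ψ (dl i) = dl i := by
        intro i hi
        rw [aut_dl, (hΨ.2.2.2.1 i (Or.inl hi)).1, (hΨ.2.2.2.1 i (Or.inl hi)).2]
        rfl
      refine ⟨ψ * Ψ, (MCG g n).mul_mem hψ hΨ.1, ?_, ?_, ?_⟩
      · rw [MulAut.mul_apply, hfix z (by omega), hψz]
      · rw [MulAut.mul_apply, hfix o (by omega), hψo]
      · intro i hi
        rw [MulAut.mul_apply]
        by_cases him : (i : ℕ) < m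
        · rw [hfix i him]
          exact hψm i him
        · have : i = j := Fin.ext (by omega)
          rw [this]
          exact hj1

theorem st_C (hB : St_Blk) (hJ : St_J) (hG : St_GFl) (hR : St_Rot) (hC : St_GrpC) : St_C := by
  intro g n k _ _ V _ _ S l χ z o hg hz ho hl hz1 ho1
  rcases C_step hB hJ hG hC hl hg hz ho hz1 ho1 8 (by norm_num) le_rfl with
    h | ⟨ψ, hψ, hψz, hψo, hψm⟩
  · exact h
  have hl' : Eig (S.comp hψ) l (fun x => χ (ψ x)) := hl.comp hψ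
  have hseg : ∀ s t, seg g n s t ∈ DD g n := fun s t => seg_mem' (fun i _ _ => dl_mem i)
  have fin : ∀ q, 7 ≤ q → q ≤ 8 → χ (ψ (seg g n 0 q)) ≠ 1 →
      ∃ κ, Fx S l χ κ (dl z) ∧ Fx S l χ κ (dl o) := by
    intro q h7 h8 hq
    obtain ⟨κ, hκ⟩ := hR (S.comp hψ) l (fun x => χ (ψ x)) q h7 (by omega) hl'
      (fun i hi => hψm i (by omega)) hq
    refine ⟨κ, ?_, ?_⟩
    · have h5 : Fx S l χ κ (ψ (dl z)) := hκ z (by omega)
      rwa [hψz] at h5
    · have h5 : Fx S l χ κ (ψ (dl o)) := hκ o (by omega)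
      rwa [hψo] at h5
  by_cases h8 : χ (ψ (seg g n 0 8)) = 1
  · refine fin 7 le_rfl (by norm_num) ?_
    intro h7
    have e1 : seg g n 0 8 = seg g n 0 7 * dl ⟨7, by omega⟩ := by
      have h := seg_add (g := g) (n := n) 0 7 1
      rw [seg_one] at h
      rw [h]
      congr 1
      exact hd_fin (n := n) (⟨7, by omega⟩ : Fin g)
    have h9 := hl'.mul (hseg 0 7) (dl_mem ⟨7, by omega⟩)
    rw [← e1] at h9
    have h10 : χ (ψ (seg g n 0 8)) = χ (ψ (seg g n 0 7)) * χ (ψ (dl ⟨7, by omega⟩)) := h9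
    rw [h8, h7, one_mul] at h10
    exact hψm ⟨7, by omega⟩ (by show 7 < 8; norm_num) h10.symm
  · exact fin 8 (by norm_num) le_rfl h8

end Pool.Agent.PWM
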