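import Pool.Agent.PWM.StB

/-!
# CaseA : Theorem F, case A

Proof (paper 9.4, case A).  J = Bk g n 0 4, B = Fge g n 4.  π from hW.  A1: hS for S.comp π: κ with Fx S l χ κ (π d) for d ∈ DG g n 4; J ≤ π (Fge g n 4) (ga i = π (ga (i+4))), so DB g n 0 4 ≤ π (DG g n 4) and Fx S l χ κ on DB g n 0 4.
A2: u ∈ J, d ∈ DG g n 4: Fx S l χ κ (u d u⁻¹).  χ^u ≠ 1 somewhere on DB g n 0 4 (u normalises DB); hA for Eig.cj u: κ', y ∈ DB with χ^u y ≠ 1, Fx (l∘ρ u) χ^u κ' y and on DG g n 4.  By A1 and Eig.transport Fx (l∘ρ u) χ^u (κ - l (v u)) y; Fx.unique: κ' = κ - l (v u); Eig.transport back.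
A3: u ∈ J, c ∈ B: Fx κ (cm u c).  c = d * (Ψ (ga i8) ^ r) * z with d ∈ DG g n 4, Ψ BlkExt (g-4) g n 4, i8 = handle 8, z ∈ closure of the gc j: [write c modulo ⁅B,B⁆ as b z with b ∈ Bk g n 4 (g-4), z ∈ closure (gc): B = Bk ⊔ closure(gc), quotient by ⁅B,B⁆ is commutative; then EB (PWM/Block.lean) for b].  c' = Ψ (ga i8)^r * z.
cm u (d c') = (u d u⁻¹) d⁻¹ * (d * cm u c' * d⁻¹).  hS for S.comp (Ψ π): κ1; u ∈ Ψ π (Fge g n 4) (π (handles 4-7) = handles 0-3, fixed by Ψ), Ψ (ga i8) = Ψ (π (ga i8)), z = Ψ π z; so cm u c' and DB g n 0 4 are in Ψ π (DG g n 4), Fx κ1; κ1 = κ by Fx.unique at d0 ∈ DB with χ d0 ≠ 1.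
End: hGen J B (Eig.fix κ as C) (Flt_sup_Fge, Flt_eq).
-/

namespace Pool.Agent.PWM

open Pool.Agent.PW
open scoped commutatorElement

variable {g n : ℕ}

/-- A subgroup normalises its commutator subgroup. -/
private theorem caseA_norm {G : Type*} [Group G] {B : Subgroup G} {x d : G} (hx : x ∈ B)
    (hd : d ∈ ⁅B, B⁆) : x * d * x⁻¹ ∈ ⁅B, B⁆ := by
  have hd' : d ∈ B := by
    have : ⁅B, B⁆ ≤ B := by
      rw [Subgroup.commutator_le]
      intro a ha b hb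
      rw [commutatorElement_def]
      exact B.mul_mem (B.mul_mem (B.mul_mem ha hb) (B.inv_mem ha)) (B.inv_mem hb)
    exact this hd
  have e : x * d * x⁻¹ = ⁅x, d⁆ * d := by
    rw [commutatorElement_def]
    group
  rw [e]
  exact Subgroup.mul_mem _ (Subgroup.commutator_mem_commutator hx hd') hd

private theorem caseA_decomp {G : Type*} [Group G] {B P Q : Subgroup G} (hP : P ≤ B) (hQ : Q ≤ B)
    {s : Set G} (hs : B = Subgroup.closure s) (h : ∀ x ∈ s, x ∈ P ∨ x ∈ Q) :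
    ∀ c ∈ B, ∃ b ∈ P, ∃ z ∈ Q, c * (b * z)⁻¹ ∈ ⁅B, B⁆ := by
  intro c hc
  have hc' : c ∈ Subgroup.closure s := hs ▸ hc
  induction hc' using Subgroup.closure_induction with
  | mem x hx =>
    rcases h x hx with h1 | h1
    · refine ⟨x, h1, 1, Q.one_mem, ?_⟩
      rw [mul_one, mul_inv_cancel]
      exact Subgroup.one_mem _
    · refine ⟨1, P.one_mem, x, h1, ?_⟩
      rw [one_mul, mul_inv_cancel]
      exact Subgroup.one_mem _
  | one =>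
    refine ⟨1, P.one_mem, 1, Q.one_mem, ?_⟩
    rw [one_mul, one_mul, inv_one]
    exact Subgroup.one_mem _
  | mul x y hx hy ihx ihy =>
    obtain ⟨b1, hb1, z1, hz1, h1⟩ := ihx (hs ▸ hx)
    obtain ⟨b2, hb2, z2, hz2, h2⟩ := ihy (hs ▸ hy)
    refine ⟨b1 * b2, P.mul_mem hb1 hb2, z1 * z2, Q.mul_mem hz1 hz2, ?_⟩
    have e : x * y * (b1 * b2 * (z1 * z2))⁻¹ = (x * (b1 * z1)⁻¹) *
        ((b1 * z1) * (y * (b2 * z2)⁻¹) * (b1 * z1)⁻¹) * (b1 * ⁅z1, b2⁆ * b1⁻¹) := by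
      rw [commutatorElement_def]
      group
    rw [e]
    exact Subgroup.mul_mem _ (Subgroup.mul_mem _ h1
      (caseA_norm (B.mul_mem (hP hb1) (hQ hz1)) h2))
      (caseA_norm (hP hb1) (Subgroup.commutator_mem_commutator (hQ hz1) (hP hb2)))
  | inv x hx ihx =>
    obtain ⟨b, hb, z, hz, h1⟩ := ihx (hs ▸ hx)
    refine ⟨b⁻¹, P.inv_mem hb, z⁻¹, Q.inv_mem hz, ?_⟩
    have e : x⁻¹ * (b⁻¹ * z⁻¹)⁻¹ = ((b * z)⁻¹ * (x * (b * z)⁻¹)⁻¹ * (b * z)⁻¹⁻¹) *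
        ⁅z⁻¹, b⁻¹⁆ := by
      rw [commutatorElement_def]
      group
    rw [e]
    exact Subgroup.mul_mem _ (caseA_norm (B.inv_mem (B.mul_mem (hP hb) (hQ hz)))
      (Subgroup.inv_mem _ h1)) (Subgroup.commutator_mem_commutator (B.inv_mem (hQ hz))
      (B.inv_mem (hP hb)))

/-- The subgroup of the punctures. -/
private def caseA_cc (g n : ℕ) : Subgroup (F g n) := Subgroup.closure {x | ∃ j, x = gc j}

private theorem caseA_cc_le {m : ℕ} : caseA_cc g n ≤ Fge g n m := by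
  unfold caseA_cc
  rw [Subgroup.closure_le]
  rintro x ⟨j, rfl⟩
  exact Fge_c j

private theorem caseA_cc_fix {Φ : MulAut (F g n)} (h : ∀ j, Φ (gc j) = gc j) {z : F g n}
    (hz : z ∈ caseA_cc g n) : Φ z = z := by
  have : caseA_cc g n ≤ Φ.toMonoidHom.eqLocus (MonoidHom.id _) := by
    unfold caseA_cc
    rw [Subgroup.closure_le]
    rintro x ⟨j, rfl⟩
    exact h j
  exact this hz

/-- Modulo the commutator subgroup, the elements away from the first block. -/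
private theorem caseA_dec (hB : St_Blk) (hE : St_Euc) (hg : 9 ≤ g) {c : F g n}
    (hc : c ∈ Fge g n 4) : ∃ d ∈ DG g n 4, ∃ Ψ, BlkExt (g - 4) g n 4 (by omega) Ψ ∧
      ∃ r : ℤ, ∃ z ∈ caseA_cc g n, c = d * (Ψ (ga ⟨8, by omega⟩) ^ r * z) := by
  obtain ⟨b, hb, z, hz, h1⟩ := caseA_decomp (B := Fge g n 4) (P := Bk g n 4 (g - 4))
    (Q := caseA_cc g n) (Bk_le_Fge le_rfl) caseA_cc_le
    (s := {x | ∃ i : Fin g, 4 ≤ (i : ℕ) ∧ (x = ga i ∨ x = gb i)} ∪ {x | ∃ j, x = gc j}) rfl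
    (by
      rintro x (⟨i, h1, rfl | rfl⟩ | ⟨j, rfl⟩)
      · exact Or.inl (Bk_a h1 (by omega))
      · exact Or.inl (Bk_b h1 (by omega))
      · exact Or.inr (Subgroup.subset_closure ⟨j, rfl⟩)) c hc
  obtain ⟨Ψ, hΨ, r, hr⟩ := EB hB hE (g := g) (n := n) (h := g - 4) (m := 4) (by omega) hb
    (i := ⟨8, by omega⟩) (by simp) (by simp; omega)
  refine ⟨c * (b * z)⁻¹ * (b * (Ψ (ga ⟨8, by omega⟩) ^ r)⁻¹), ?_, Ψ, hΨ, r, z, hz, ?_⟩
  · exact Subgroup.mul_mem _ h1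
      (Subgroup.commutator_mono (Bk_le_Fge le_rfl) (Bk_le_Fge le_rfl) hr)
  · group

section

variable {π : MulAut (F g n)}

/-- The first block is in the image of the swap. -/
private theorem caseA_bk_le {Φ : MulAut (F g n)} (hg : 9 ≤ g)
    (h1 : ∀ i j : Fin g, (i : ℕ) < 4 → (j : ℕ) = i + 4 → Φ (ga j) = ga i ∧ Φ (gb j) = gb i) :
    Bk g n 0 4 ≤ (Fge g n 4).map Φ.toMonoidHom := by
  unfold Bk
  rw [Subgroup.closure_le]
  rintro x ⟨i, -, h2, rfl | rfl⟩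
  · exact ⟨ga ⟨(i : ℕ) + 4, by omega⟩, Fge_a (by simp), (h1 i ⟨(i : ℕ) + 4, by omega⟩
      (by omega) rfl).1⟩
  · exact ⟨gb ⟨(i : ℕ) + 4, by omega⟩, Fge_b (by simp), (h1 i ⟨(i : ℕ) + 4, by omega⟩
      (by omega) rfl).2⟩

end

private theorem caseA_cm {G : Type*} [Group G] (x y : G) : cm x y = ⁅x, y⁆ := by
  rw [commutatorElement_def]
  rfl

theorem st_CaseA (hB : St_Blk) (hE : St_Euc) (hW : St_Swap) (hGen : St_Gen) (hA : St_A) (hS : St_Star) : St_CaseA := by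
  intro g n k _ _ V _ _ S l χ hg hl hd0
  obtain ⟨d0, hd0, hd01⟩ := hd0
  obtain ⟨π, hπ, hπ1, hπ2, hπ3⟩ := hW (g := g) (n := n) (by omega)
  -- the images of `Fge g n 4`
  have star : ∀ Φ : MulAut (F g n), Φ ∈ MCG g n → ∃ κ, ∀ d ∈ (DG g n 4).map Φ.toMonoidHom,
      Fx S l χ κ d := by
    intro Φ hΦ
    obtain ⟨κ, hκ⟩ := hS (S.comp hΦ) l (fun x => χ (Φ x)) hg (hl.comp hΦ)
    refine ⟨κ, ?_⟩
    rintro _ ⟨d, hd, rfl⟩
    exact hκ d hd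
  have hmap : ∀ Φ : MulAut (F g n), (DG g n 4).map Φ.toMonoidHom =
      ⁅(Fge g n 4).map Φ.toMonoidHom, (Fge g n 4).map Φ.toMonoidHom⁆ := fun Φ =>
    Subgroup.map_commutator _ _ _
  -- A1
  obtain ⟨κ, hκ⟩ := star π hπ
  have hJ := caseA_bk_le (n := n) hg hπ1
  have A1 : ∀ d ∈ DB g n 0 4, Fx S l χ κ d := by
    intro d hd
    apply hκ
    rw [hmap]
    exact Subgroup.commutator_mono hJ hJ hd
  -- A2
  have A2 : ∀ u ∈ Bk g n 0 4, ∀ d ∈ DG g n 4, Fx S l χ κ (u * d * u⁻¹) := by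
    intro u hu d hd
    have hlu := hl.cj u
    obtain ⟨κ', ⟨y, hy, hy1, hyF⟩, h4⟩ := hA S (l ∘ₗ S.ρ u) (fun d => χ (u * d * u⁻¹)) hg hlu
      ⟨u⁻¹ * d0 * u⁻¹⁻¹, caseA_norm (Subgroup.inv_mem _ hu) hd0, by
        have e : u * (u⁻¹ * d0 * u⁻¹⁻¹) * u⁻¹ = d0 := by group
        show χ (u * (u⁻¹ * d0 * u⁻¹⁻¹) * u⁻¹) ≠ 1
        rw [e]
        exact hd01⟩
    have h5 := (hl.transport u (comm_le _ hy) κ).mp (A1 _ (caseA_norm hu hy))
    have h6 : κ - l (S.v u) = κ' := h5.unique hyF hy1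
    rw [hl.transport u (comm_le _ hd) κ, h6]
    exact h4 d hd
  have A2' : ∀ d ∈ DG g n 4, Fx S l χ κ d := by
    intro d hd
    have h := A2 1 (Subgroup.one_mem _) d hd
    rwa [one_mul, inv_one, mul_one] at h
  -- A3
  have A3 : ∀ u ∈ Bk g n 0 4, ∀ c ∈ Fge g n 4, cm u c ∈ hl.fix κ := by
    intro u hu c hc
    obtain ⟨d, hd, Ψ, hΨ, r, z, hz, rfl⟩ := caseA_dec hB hE hg hc
    have hdf : d ∈ hl.fix κ := ⟨comm_le _ hd, A2' d hd⟩
    have hudf : u * d * u⁻¹ ∈ hl.fix κ := ⟨cj_mem (comm_le _ hd) u, A2 u hu d hd⟩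
    have hΦ : Ψ * π ∈ MCG g n := (MCG g n).mul_mem hΨ.1 hπ
    obtain ⟨κ1, hκ1⟩ := star (Ψ * π) hΦ
    have hJ1 : Bk g n 0 4 ≤ (Fge g n 4).map (Ψ * π).toMonoidHom := by
      apply caseA_bk_le hg
      intro i j hi hj
      have h1 := hπ1 i j hi hj
      have h2 := hΨ.2.2.2.1 i (Or.inl hi)
      constructor
      · show Ψ (π (ga j)) = ga i
        rw [h1.1, h2.1]
      · show Ψ (π (gb j)) = gb i
        rw [h1.2, h2.2]
    have hc' : Ψ (ga ⟨8, by omega⟩) ^ r * z ∈ (Fge g n 4).map (Ψ * π).toMonoidHom := by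
      refine ⟨ga ⟨8, by omega⟩ ^ r * z, Subgroup.mul_mem _ (Subgroup.zpow_mem _
        (Fge_a (by simp)) r) (caseA_cc_le hz), ?_⟩
      show Ψ (π (ga ⟨8, by omega⟩ ^ r * z)) = Ψ (ga ⟨8, by omega⟩) ^ r * z
      rw [map_mul, map_mul, map_zpow, map_zpow, (hπ2 ⟨8, by omega⟩ (by simp)).1,
        caseA_cc_fix hπ3 hz, caseA_cc_fix hΨ.2.2.2.2 hz]
    have h1 : Fx S l χ κ1 (cm u (Ψ (ga ⟨8, by omega⟩) ^ r * z)) := by
      apply hκ1
      rw [hmap, caseA_cm]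
      exact Subgroup.commutator_mem_commutator (hJ1 hu) hc'
    have h2 : Fx S l χ κ1 d0 := by
      apply hκ1
      rw [hmap]
      exact Subgroup.commutator_mono hJ1 hJ1 hd0
    have h3 : κ1 = κ := h2.unique (A1 d0 hd0) hd01
    rw [h3] at h1
    have hcf : cm u (Ψ (ga ⟨8, by omega⟩) ^ r * z) ∈ hl.fix κ := ⟨cm_mem _ _, h1⟩
    have e : cm u (d * (Ψ (ga ⟨8, by omega⟩) ^ r * z)) = (u * d * u⁻¹) * d⁻¹ *
        (d * cm u (Ψ (ga ⟨8, by omega⟩) ^ r * z) * d⁻¹) := by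
      unfold cm
      group
    rw [e]
    exact Subgroup.mul_mem _ (Subgroup.mul_mem _ hudf (Subgroup.inv_mem _ hdf))
      (Subgroup.mul_mem _ (Subgroup.mul_mem _ hdf hcf) (Subgroup.inv_mem _ hdf))
  refine ⟨κ, fun d hd => ?_⟩
  have := hGen (Bk g n 0 4) (Fge g n 4) (hl.fix κ) (by rw [← Flt_eq]; exact Flt_sup_Fge 4)
    (fun x hx => ⟨comm_le _ hx, A1 x hx⟩) (fun x hx => ⟨comm_le _ hx, A2' x hx⟩) A3
  exact (this hd).2

end Pool.Agent.PWM
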