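import Pool.Agent.PWM.StB

/-!
# CaseB : Theorem F, case B (paper 9.4)
-/

namespace Pool.Agent.PWM

open Pool.Agent.PW

namespace CaseB

variable {g n : ℕ}

/-- the subgroup of the letters `c j` -/
def PP (g n : ℕ) : Subgroup (F g n) := Subgroup.closure {x | ∃ j, x = gc j}

theorem PP_le (k : ℕ) : PP g n ≤ Fge g n k := by
  unfold PP
  rw [Subgroup.closure_le]
  rintro x ⟨j, rfl⟩
  exact Fge_c j

theorem sup_top : Bk g n 0 g ⊔ PP g n = ⊤ := by
  apply eq_top_of_gens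
  · intro i
    exact (le_sup_left : Bk g n 0 g ≤ _) (Bk_a (by omega) (by omega))
  · intro i
    exact (le_sup_left : Bk g n 0 g ≤ _) (Bk_b (by omega) (by omega))
  · intro j
    exact (le_sup_right : PP g n ≤ _) (Subgroup.subset_closure ⟨j, rfl⟩)

theorem comm_le_self (E : Subgroup (F g n)) : ⁅E, E⁆ ≤ E := by
  rw [Subgroup.commutator_le]
  intro x hx y hy
  exact E.mul_mem (E.mul_mem (E.mul_mem hx hy) (E.inv_mem hx)) (E.inv_mem hy)

theorem comm_conj {E : Subgroup (F g n)} {x e : F g n} (hx : x ∈ E) (he : e ∈ ⁅E, E⁆) :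
    x * e * x⁻¹ ∈ ⁅E, E⁆ := by
  have h1 : cm x e ∈ ⁅E, E⁆ := Subgroup.commutator_mem_commutator hx (comm_le_self E he)
  have h2 : x * e * x⁻¹ = cm x e * e := by
    unfold cm
    group
  rw [h2]
  exact Subgroup.mul_mem _ h1 he

/-- decomposition modulo commutators -/
theorem decomp {E A B : Subgroup (F g n)} (hA : A ≤ E) (hB : B ≤ E) {T : Set (F g n)}
    (hT : E = Subgroup.closure T) (h : ∀ x ∈ T, x ∈ A ∨ x ∈ B) {u : F g n} (hu : u ∈ E) :
    ∃ w ∈ A, ∃ t ∈ B, ∃ e ∈ ⁅E, E⁆, u = e * (w * t) := by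
  have key : ∀ u ∈ Subgroup.closure T, ∃ w ∈ A, ∃ t ∈ B, ∃ e ∈ ⁅E, E⁆, u = e * (w * t) := by
    intro u hu
    induction hu using Subgroup.closure_induction with
    | mem x hx =>
      rcases h x hx with h1 | h1
      · exact ⟨x, h1, 1, B.one_mem, 1, Subgroup.one_mem _, by group⟩
      · exact ⟨1, A.one_mem, x, h1, 1, Subgroup.one_mem _, by group⟩
    | one => exact ⟨1, A.one_mem, 1, B.one_mem, 1, Subgroup.one_mem _, by group⟩
    | mul x y hx hy ihx ihy =>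
      obtain ⟨w1, hw1, t1, ht1, e1, he1, rfl⟩ := ihx
      obtain ⟨w2, hw2, t2, ht2, e2, he2, rfl⟩ := ihy
      refine ⟨w1 * w2, A.mul_mem hw1 hw2, t1 * t2, B.mul_mem ht1 ht2,
        e1 * ((w1 * t1) * e2 * (w1 * t1)⁻¹) * (w1 * cm t1 w2 * w1⁻¹), ?_, ?_⟩
      · refine Subgroup.mul_mem _ (Subgroup.mul_mem _ he1 ?_) ?_
        · exact comm_conj (E.mul_mem (hA hw1) (hB ht1)) he2
        · exact comm_conj (hA hw1) (Subgroup.commutator_mem_commutator (hB ht1) (hA hw2))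
      · unfold cm
        group
    | inv x hx ih =>
      obtain ⟨w, hw, t, ht, e, he, rfl⟩ := ih
      refine ⟨w⁻¹, A.inv_mem hw, t⁻¹, B.inv_mem ht,
        ((w * t)⁻¹ * e⁻¹ * (w * t)⁻¹⁻¹) * cm t⁻¹ w⁻¹, ?_, ?_⟩
      · refine Subgroup.mul_mem _ ?_ ?_
        · exact comm_conj (E.inv_mem (E.mul_mem (hA hw) (hB ht))) (Subgroup.inv_mem _ he)
        · exact Subgroup.commutator_mem_commutator (hB (B.inv_mem ht)) (hA (A.inv_mem hw))
      · unfold cm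
        group
  exact key u (hT ▸ hu)

section

variable {k : Type} [Field k] {V : Type} [AddCommGroup V] [Module k V]
  {S : Sys g n k V} {l : V →ₗ[k] k} {χ : F g n → k}

/-- elements of the commutator subgroup of the handles fix every `κ` -/
theorem mem_fix_E (hl : Eig S l χ)
    (hE0 : ∀ x, ∀ d ∈ DB g n 0 g, χ (x * d * x⁻¹) = 1 ∧ l (S.v (x * d * x⁻¹)) = 0) (κ : k)
    (x : F g n) {d : F g n} (hd : d ∈ DB g n 0 g) : x * d * x⁻¹ ∈ hl.fix κ := by
  rw [hl.mem_fix]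
  refine ⟨cj_mem (comm_le _ hd) x, ?_⟩
  unfold Fx
  rw [(hE0 x d hd).1, (hE0 x d hd).2]
  ring

theorem mem_fix_E' (hl : Eig S l χ)
    (hE0 : ∀ x, ∀ d ∈ DB g n 0 g, χ (x * d * x⁻¹) = 1 ∧ l (S.v (x * d * x⁻¹)) = 0) (κ : k)
    {d : F g n} (hd : d ∈ DB g n 0 g) : d ∈ hl.fix κ := by
  have h := mem_fix_E hl hE0 κ 1 hd
  have e : 1 * d * 1⁻¹ = d := by group
  rwa [e] at h

/-- the commutator of a product -/
theorem cm_fix (hl : Eig S l χ)
    (hE0 : ∀ x, ∀ d ∈ DB g n 0 g, χ (x * d * x⁻¹) = 1 ∧ l (S.v (x * d * x⁻¹)) = 0) {κ : k}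
    {d u c : F g n} (hd : d ∈ DB g n 0 g) (hu : cm u c ∈ hl.fix κ) :
    cm (d * u) c ∈ hl.fix κ := by
  have e : cm (d * u) c = (d * cm u c * d⁻¹) * (d * (c * d * c⁻¹)⁻¹) := by
    unfold cm
    group
  have h1 := mem_fix_E' hl hE0 κ hd
  have h2 := mem_fix_E hl hE0 κ c hd
  rw [e]
  exact Subgroup.mul_mem _ (Subgroup.mul_mem _ (Subgroup.mul_mem _ h1 hu)
    (Subgroup.inv_mem _ h1)) (Subgroup.mul_mem _ h1 (Subgroup.inv_mem _ h2))

end

variable {k : Type} [Field k] [NumberField k] {V : Type} [AddCommGroup V] [Module k V]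
  {S : Sys g n k V} {l : V →ₗ[k] k} {χ : F g n → k}

theorem exists_κ (hG : St_GFl) (hg : 9 ≤ g) (hl : Eig S l χ)
    (hyp : ∀ φ ∈ MCG g n, ∀ x, ∀ d ∈ DB g n 0 4, χ (x * φ d * x⁻¹) = 1)
    {φ : MulAut (F g n)} (hφ : φ ∈ MCG g n) :
    ∃ κ, ∀ d ∈ DG g n 2, Fx S l χ κ (φ d) := by
  have hle : Bk g n 0 2 ≤ Bk g n 0 4 := by
    rw [← Flt_eq, ← Flt_eq]
    exact Flt_mono (by norm_num)
  obtain ⟨⟨u, hu⟩, -⟩ := hG (S.comp hφ) l (fun x => χ (φ x)) (by omega) (hl.comp hφ) (by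
    intro x d hd
    show χ (φ (x * d * x⁻¹)) = 1
    rw [map_mul, map_mul, map_inv]
    exact hyp φ hφ (φ x) d (Subgroup.commutator_mono hle hle hd))
  refine ⟨l u, fun d hd => ?_⟩
  have h1 : l (S.v (φ d)) = l u - l (S.ρ (φ d) u) := hu d (comm_le_self _ hd)
  unfold Fx
  rw [h1, hl.eig _ (map_aut_mem φ (comm_le _ hd))]
  ring

/-- the case B1 -/
theorem case1 (hB : St_Blk) (hE : St_Euc) (hGen : St_Gen) (h0 : St_B0) (hG : St_GFl)
    (hg : 9 ≤ g) (hl : Eig S l χ)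
    (hyp : ∀ φ ∈ MCG g n, ∀ x, ∀ d ∈ DB g n 0 4, χ (x * φ d * x⁻¹) = 1)
    (hne : ∃ d ∈ DG g n (g - 1), χ d ≠ 1) : ∃ κ, ∀ d ∈ DD g n, Fx S l χ κ d := by
  have hE0 := h0 S l χ hg hl hyp
  obtain ⟨κ, hκ⟩ := exists_κ hG hg hl hyp (MCG g n).one_mem
  obtain ⟨d0, hd0, hχ0⟩ := hne
  have hF2 : Fge g n (g - 1) ≤ Fge g n 2 := Fge_anti (by omega)
  have hd02 : d0 ∈ DG g n 2 := Subgroup.commutator_mono hF2 hF2 hd0
  refine ⟨κ, fun d hd => ?_⟩
  have key : commutator (F g n) ≤ hl.fix κ := by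
    apply hGen (Bk g n 0 g) (PP g n) (hl.fix κ) sup_top
    · intro d hd
      exact mem_fix_E' hl hE0 κ hd
    · intro d hd
      rw [hl.mem_fix]
      refine ⟨comm_le _ hd, ?_⟩
      exact hκ d (Subgroup.commutator_mono (PP_le 2) (PP_le 2) hd)
    · intro u hu c hc
      have hA : Bk g n 0 (g - 1) ≤ Bk g n 0 g := by
        rw [← Flt_eq, ← Flt_eq]
        exact Flt_mono (by omega)
      have hBl : Bk g n (g - 1) 1 ≤ Bk g n 0 g := by
        unfold Bk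
        apply Subgroup.closure_mono
        rintro x ⟨i, h1, h2, h3⟩
        exact ⟨i, by omega, by omega, h3⟩
      obtain ⟨w, hw, t, ht, e, he, rfl⟩ := decomp hA hBl (T := {x | ∃ i : Fin g, 0 ≤ (i : ℕ) ∧
        (i : ℕ) < 0 + g ∧ (x = ga i ∨ x = gb i)}) rfl (by
          rintro x ⟨i, h1, h2, h3⟩
          by_cases h4 : (i : ℕ) < g - 1
          · left
            exact Subgroup.subset_closure ⟨i, h1, by omega, h3⟩
          · right
            exact Subgroup.subset_closure ⟨i, by omega, by omega, h3⟩) hu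
      obtain ⟨Ψ, hΨ, r, hr⟩ := EB hB hE (h := g - 1) (m := 0) (n := n) (by omega) hw
        (i := ⟨g - 2, by omega⟩) (by simp) (by simp; omega)
      have ht' : t ∈ Fge g n (g - 1) := Bk_le_Fge (le_refl _) ht
      have hΨt : Ψ t = t := hΨ.fix_ge (k := g - 1) (by omega) ht'
      have hΨc : Ψ c = c := hΨ.fix_ge (k := g - 1) (by omega) (PP_le _ hc)
      have hΨd : Ψ d0 = d0 := hΨ.fix_ge (k := g - 1) (by omega) (comm_le_self _ hd0)
      obtain ⟨κ', hκ'⟩ := exists_κ hG hg hl hyp hΨ.1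
      have hκκ : κ' = κ := by
        have h1 := hκ' d0 hd02
        have h2 := hκ d0 hd02
        rw [hΨd] at h1
        exact h1.unique h2 hχ0
      have e1 : e * (w * t) = (e * (w * (Ψ (ga ⟨g - 2, by omega⟩) ^ r)⁻¹)) *
          Ψ (ga ⟨g - 2, by omega⟩ ^ r * t) := by
        rw [map_mul, map_zpow, hΨt]
        group
      rw [e1]
      apply cm_fix hl hE0
      · exact Subgroup.mul_mem _ he (Subgroup.commutator_mono hA hA hr)
      · have e2 : cm (Ψ (ga ⟨g - 2, by omega⟩ ^ r * t)) c =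
            Ψ (cm (ga ⟨g - 2, by omega⟩ ^ r * t) c) := by
          have := map_cm Ψ.toMonoidHom (ga ⟨g - 2, by omega⟩ ^ r * t) c
          have h3 : Ψ (cm (ga ⟨g - 2, by omega⟩ ^ r * t) c) =
            cm (Ψ (ga ⟨g - 2, by omega⟩ ^ r * t)) (Ψ c) := this
          rw [h3, hΨc]
        rw [e2, hl.mem_fix]
        refine ⟨map_aut_mem Ψ (cm_mem _ _), ?_⟩
        rw [← hκκ]
        apply hκ'
        apply Subgroup.commutator_mem_commutator
        · apply Subgroup.mul_mem _ _ (hF2 ht')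
          apply Subgroup.zpow_mem
          exact Fge_a (by simp; omega)
        · exact PP_le 2 hc
  exact (hl.mem_fix.1 (key hd)).2

/-- the case B2 -/
theorem case2 (hB : St_Blk) (hE : St_Euc) (hGen : St_Gen) (h0 : St_B0) (hG : St_GFl)
    (hg : 9 ≤ g) (hl : Eig S l χ)
    (hyp : ∀ φ ∈ MCG g n, ∀ x, ∀ d ∈ DB g n 0 4, χ (x * φ d * x⁻¹) = 1)
    (hall : ∀ φ ∈ MCG g n, ∀ d ∈ DG g n (g - 1), χ (φ d) = 1) :
    ∃ κ, ∀ d ∈ DD g n, Fx S l χ κ d := by
  have hE0 := h0 S l χ hg hl hyp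
  have hF2 : Fge g n (g - 1) ≤ Fge g n 2 := Fge_anti (by omega)
  have hz : ∀ φ ∈ MCG g n, ∀ d ∈ DG g n (g - 1), Fx S l χ 0 (φ d) := by
    intro φ hφ d hd
    obtain ⟨κ, hκ⟩ := exists_κ hG hg hl hyp hφ
    have h1 := hκ d (Subgroup.commutator_mono hF2 hF2 hd)
    unfold Fx at h1 ⊢
    rw [h1, hall φ hφ d hd]
    ring
  refine ⟨0, fun d hd => ?_⟩
  have key : commutator (F g n) ≤ hl.fix 0 := by
    apply hGen (Bk g n 0 g) (PP g n) (hl.fix 0) sup_top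
    · intro d hd
      exact mem_fix_E' hl hE0 0 hd
    · intro d hd
      rw [hl.mem_fix]
      refine ⟨comm_le _ hd, ?_⟩
      exact hz 1 (MCG g n).one_mem d (Subgroup.commutator_mono (PP_le _) (PP_le _) hd)
    · intro u hu c hc
      obtain ⟨Ψ, hΨ, r, hr⟩ := EB hB hE (h := g) (m := 0) (n := n) (by omega) hu
        (i := ⟨g - 1, by omega⟩) (by simp) (by simp; omega)
      have hΨc : Ψ c = c := hΨ.fix_ge (k := g) (by omega) (PP_le _ hc)
      have e1 : u = (u * (Ψ (ga ⟨g - 1, by omega⟩) ^ r)⁻¹) * Ψ (ga ⟨g - 1, by omega⟩ ^ r) := by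
        rw [map_zpow]
        group
      rw [e1]
      apply cm_fix hl hE0 hr
      have e2 : cm (Ψ (ga ⟨g - 1, by omega⟩ ^ r)) c = Ψ (cm (ga ⟨g - 1, by omega⟩ ^ r) c) := by
        have := map_cm Ψ.toMonoidHom (ga ⟨g - 1, by omega⟩ ^ r) c
        have h3 : Ψ (cm (ga ⟨g - 1, by omega⟩ ^ r) c) =
          cm (Ψ (ga ⟨g - 1, by omega⟩ ^ r)) (Ψ c) := this
        rw [h3, hΨc]
      rw [e2, hl.mem_fix]
      refine ⟨map_aut_mem Ψ (cm_mem _ _), ?_⟩
      apply hz Ψ hΨ.1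
      apply Subgroup.commutator_mem_commutator
      · apply Subgroup.zpow_mem
        exact Fge_a (by simp)
      · exact PP_le _ hc
  exact (hl.mem_fix.1 (key hd)).2

end CaseB

theorem st_CaseB (hB : St_Blk) (hE : St_Euc) (hGen : St_Gen) (h0 : St_B0) (hG : St_GFl) :
    St_CaseB := by
  intro g n k _ _ V _ _ S l χ hg hl hyp
  by_cases hcase : ∀ φ ∈ MCG g n, ∀ d ∈ DG g n (g - 1), χ (φ d) = 1
  · exact CaseB.case2 hB hE hGen h0 hG hg hl hyp hcase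
  · push Not at hcase
    obtain ⟨φ, hφ, d, hd, hχ⟩ := hcase
    obtain ⟨κ, hκ⟩ := CaseB.case1 hB hE hGen h0 hG hg (hl.comp hφ) (by
      intro ψ hψ x d hd
      show χ (φ (x * ψ d * x⁻¹)) = 1
      rw [map_mul, map_mul, map_inv]
      exact hyp (φ * ψ) ((MCG g n).mul_mem hφ hψ) (φ x) d hd) ⟨d, hd, hχ⟩
    refine ⟨κ, fun d hd => ?_⟩
    have h1 := hκ (φ⁻¹ d) (map_aut_mem φ⁻¹ hd)
    rw [Fx.comp_iff] at h1
    have e : φ (φ⁻¹ d) = d := by simp
    rwa [e] at h1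

end Pool.Agent.PWM
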