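import Pool.Agent.PWM.Ops
import Pool.Agent.PW.Central

/-!
# The system of a class: definitions (paper, 1.5)
-/

namespace Pool.Agent.PWM

open Pool.Agent.PW

variable {g n : ℕ} (N : Subgroup (F g n)) [hN : N.Normal] (k : Type) [Field k]

/-- Translation of the functions on `F ⧸ N`. -/
def indρ : F g n →* Module.End k ((F g n ⧸ N) → k) where
  toFun x := LinearMap.funLeft k k (fun q => q * (x : F g n ⧸ N))
  map_one' := by
    apply LinearMap.ext
    intro H
    funext q
    show H (q * ((1 : F g n) : F g n ⧸ N)) = H q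
    rw [QuotientGroup.mk_one, mul_one]
  map_mul' := by
    intro x y
    apply LinearMap.ext
    intro H
    funext q
    show H (q * ((x * y : F g n) : F g n ⧸ N)) = H (q * (x : F g n ⧸ N) * (y : F g n ⧸ N))
    rw [QuotientGroup.mk_mul, mul_assoc]

/-- The cocycle of a function `f`. -/
noncomputable def indv (f : F g n → ℚ) (x : F g n) : (F g n ⧸ N) → k :=
  fun q => ((f (q.out * x * (q * (x : F g n ⧸ N)).out⁻¹) : ℚ) : k)

theorem indρ_apply (x : F g n) (H : (F g n ⧸ N) → k) (q : F g n ⧸ N) :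
    indρ N k x H q = H (q * (x : F g n ⧸ N)) := rfl

theorem indv_apply (f : F g n → ℚ) (x : F g n) (q : F g n ⧸ N) :
    indv N k f x q = ((f (q.out * x * (q * (x : F g n ⧸ N)).out⁻¹) : ℚ) : k) := rfl

variable {N}

theorem indρ_mem {x : F g n} (hx : x ∈ N) : indρ N k x = 1 := by
  apply LinearMap.ext
  intro H
  funext q
  rw [indρ_apply, (QuotientGroup.eq_one_iff x).mpr hx, mul_one]
  rfl

theorem indv_mem {f : F g n → ℚ} {x : F g n} (hx : x ∈ N) (q : F g n ⧸ N) :
    indv N k f x q = ((f (q.out * x * q.out⁻¹) : ℚ) : k) := by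
  rw [indv_apply, (QuotientGroup.eq_one_iff x).mpr hx, mul_one]

theorem out_mem' (q : F g n ⧸ N) (x : F g n) : q.out * x * (q * (x : F g n ⧸ N)).out⁻¹ ∈ N := by
  rw [← QuotientGroup.eq_one_iff, QuotientGroup.mk_mul, QuotientGroup.mk_mul, QuotientGroup.mk_inv,
    QuotientGroup.out_eq', QuotientGroup.out_eq', mul_inv_cancel]

theorem indv_coc [CharZero k] {f : F g n → ℚ} (h : AddOn N f) (x y : F g n) :
    indv N k f (x * y) = indv N k f x + indρ N k x (indv N k f y) := by
  funext q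
  rw [Pi.add_apply, indρ_apply, indv_apply, indv_apply, indv_apply, QuotientGroup.mk_mul,
    ← mul_assoc, ← mul_assoc, ← Rat.cast_add,
    ← h _ (out_mem' q x) _ (out_mem' (q * (x : F g n ⧸ N)) y)]
  congr 2
  group

/-- The cocycle vanishes at `x ∈ N` only if `f` does. -/
theorem indv_zero [CharZero k] {f : F g n → ℚ} (h : AddOn N f) {x : F g n} (hx : x ∈ N)
    (h0 : indv N k f x = 0) : f x = 0 := by
  have h1 := congrFun h0 (1 : F g n ⧸ N)
  rw [indv_mem k hx, Pi.zero_apply] at h1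
  have h2 : f ((1 : F g n ⧸ N).out * x * (1 : F g n ⧸ N).out⁻¹) = 0 := by exact_mod_cast h1
  have h3 : (1 : F g n ⧸ N).out ∈ N := by
    rw [← QuotientGroup.eq_one_iff, QuotientGroup.out_eq']
  rwa [h.conj h3 hx] at h2

/-- Finite order of the affine map of `y`. -/
theorem indv_fin {f : F g n → ℚ} {y : F g n} {m : ℕ} (hm : 0 < m) (hy : y ^ m ∈ N)
    (h : ∀ w, f (w * y ^ m * w⁻¹) = 0) : FinOrd (indρ N k) (indv N k f) y := by
  refine ⟨m, hm, indρ_mem k hy, ?_⟩
  funext q
  rw [indv_mem k hy, h, Rat.cast_zero]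
  rfl

end Pool.Agent.PWM
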