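import Pool.Agent.PWM.Block
import Pool.Agent.PWM.Ind

/-!
# Frozen statements, part B
(paper: /team-store/PW_metabelian_paper.md, sections 1, 2, 6, 7, 8, 9)
-/

namespace Pool.Agent.PWM

open Pool.Agent.PW

/-- The commutator subgroup of the block of the handles `i`, `m ≤ i < m + h`. -/
abbrev DB (g n m h : ℕ) : Subgroup (F g n) := ⁅Bk g n m h, Bk g n m h⁆

/-- The commutator subgroup of the subgroup of the handles `i`, `m ≤ i`, and all `c j`. -/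
abbrev DG (g n m : ℕ) : Subgroup (F g n) := ⁅Fge g n m, Fge g n m⁆

/-! ### General facts -/

/-- (Sep) Eigenfunctionals of commuting operators separate the points. -/
def St_Sep : Prop := ∀ {G : Type} [Group G] {k : Type} [Field k] [CharZero k] {V : Type}
  [AddCommGroup V] [Module k V] (ρ : G →* Module.End k V) (H : Subgroup G),
  (Set.range ρ).Finite → (∀ x ∈ H, ∀ y ∈ H, ρ x * ρ y = ρ y * ρ x) →
  (∃ (N : ℕ) (ζ : k), 0 < N ∧ (∀ x, ρ x ^ N = 1) ∧ IsPrimitiveRoot ζ N) →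
  ∀ u : V, u ≠ 0 → ∃ (l : V →ₗ[k] k) (ν : G → k),
    (∀ x ∈ H, ∀ w, l (ρ x w) = ν x * l w) ∧ l u ≠ 0

/-- (Fix) Finite groups of affine maps have fixed points. -/
def St_Fix : Prop := ∀ {G : Type} [Group G] {k : Type} [Field k] [CharZero k] {V : Type}
  [AddCommGroup V] [Module k V] (ρ : G →* Module.End k V) (v : G → V),
  (∀ x y, v (x * y) = v x + ρ x (v y)) → ∀ H Q : Subgroup G, Q ≤ H → Q.relIndex H ≠ 0 →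
  (∀ x ∈ Q, v x = 0) → ∃ u, ∀ x ∈ H, v x = u - ρ x u

/-- (Gen, 9.3) Generators of the commutator subgroup. -/
def St_Gen : Prop := ∀ {G : Type} [Group G] (A B C : Subgroup G), A ⊔ B = ⊤ → ⁅A, A⁆ ≤ C →
  ⁅B, B⁆ ≤ C → (∀ u ∈ A, ∀ c ∈ B, cm u c ∈ C) → commutator G ≤ C

/-! ### Section 1: from classes to systems -/

/-- (1.5, kill) -/
def St_IndKill : Prop := ∀ {g n : ℕ} (N : Subgroup (F g n)) [N.Normal] (f : F g n → ℚ)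
  (k : Type) [Field k] [CharZero k], Good N f → ∀ φ ∈ MCG g n, ∀ i : Fin g,
  FinOrd (indρ N k) (indv N k f) (φ (ga i)) ∧ FinOrd (indρ N k) (indv N k f) (φ (gb i)) ∧
    FinOrd (indρ N k) (indv N k f) (φ (dl i))

/-- (1.5, orb) -/
def St_IndOrb : Prop := ∀ {g n : ℕ} (K : Subgroup (F g n)) [K.FiniteIndex] (f : K → ℚ)
  (k : Type) [Field k] [CharZero k], IsClass K f → bdry g n ∈ K.normalCore →
  (orbit K f).Finite → ∃ T : Set (F g n → ((F g n ⧸ K.normalCore) → k)), T.Finite ∧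
    ∀ φ ∈ MCG g n, ∃ s ∈ T, ∃ u, ∀ x, indv K.normalCore k (ext0 K f) (φ x) =
      s x + (indρ K.normalCore k (φ x) u - u)

/-- (1.5) -/
def St_Ind : Prop := ∀ {g n : ℕ} (K : Subgroup (F g n)) [K.FiniteIndex] (f : K → ℚ),
  IsClass K f → bdry g n ∈ K.normalCore → (orbit K f).Finite →
  (∀ d ∈ DD g n, ∀ e ∈ DD g n, cm d e ∈ K.normalCore) →
  ∃ (k : Type) (_ : Field k) (_ : NumberField k) (V : Type) (_ : AddCommGroup V)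
    (_ : Module k V) (S : Sys g n k V), (∀ j, FinOrd S.ρ S.v (gc j)) ∧
    (∀ x ∈ K.normalCore, S.ρ x = 1) ∧ ∀ x ∈ K.normalCore, S.v x = 0 → ext0 K f x = 0

/-- (Theorem F) -/
def St_ThmF : Prop := ∀ {g n : ℕ} {k : Type} [Field k] [NumberField k] {V : Type}
  [AddCommGroup V] [Module k V] (S : Sys g n k V) (l : V →ₗ[k] k) (χ : F g n → k), 9 ≤ g →
  Eig S l χ → ∃ κ, ∀ d ∈ DD g n, Fx S l χ κ d

/-- (1.6) -/
def St_Van : Prop := ∀ {g n : ℕ} {k : Type} [Field k] [CharZero k] {V : Type}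
  [AddCommGroup V] [Module k V] (S : Sys g n k V),
  (∀ (l : V →ₗ[k] k) (χ : F g n → k), Eig S l χ → ∃ κ, ∀ d ∈ DD g n, Fx S l χ κ d) →
  (∀ j, FinOrd S.ρ S.v (gc j)) → ∀ x, S.ρ x = 1 → S.v x = 0

/-! ### Section 2: rotations -/

/-- The action of a full twist. -/
def twist {K : Type} [Field K] (χ : ℕ → K) (i : ℕ) (p : ℕ → K) : ℕ → K :=
  Function.update p (i + 1)
    (χ i * χ (i + 1) * p (i + 1) + χ i * (1 - χ (i + 1)) * p i + (1 - χ i) * p (i + 2))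

/-- The invariant skew hermitian form. -/
noncomputable def hform (χ : ℕ → ℂ) (q : ℕ) (x y : ℕ → ℂ) : ℂ :=
  ∑ j ∈ Finset.range q, (starRingEnd ℂ (y j) * x (j + 1) - x j * starRingEnd ℂ (y (j + 1)) +
    (χ j + 1) / (χ j - 1) * ((x (j + 1) - x j) * starRingEnd ℂ (y (j + 1) - y j)))

/-- The test vectors. -/
noncomputable def tvec (χ : ℕ → ℂ) (t : ℕ) : ℕ → ℂ :=
  fun i => if i ≤ t then 1 - ∏ j ∈ Finset.range i, χ j else 0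

/-- (RC1) The form is skew hermitian and invariant; its values at the test vectors. -/
def St_RC1 : Prop := ∀ (q : ℕ) (χ : ℕ → ℂ), (∀ i < q, ‖χ i‖ = 1 ∧ χ i ≠ 1) →
  (∀ x y, hform χ q y x = -starRingEnd ℂ (hform χ q x y)) ∧
  (∀ i, i + 1 < q → ∀ x y, hform χ q (twist χ i x) (twist χ i y) = hform χ q x y) ∧
  ∀ t, t < q → hform χ q (tvec χ t) (tvec χ t) =
    2 * (1 - starRingEnd ℂ (∏ j ∈ Finset.range t, χ j)) *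
      (1 - ∏ j ∈ Finset.range (t + 1), χ j) / (χ t - 1)

/-- (RC2) The form is definite. -/
def St_RC2 : Prop := ∀ (q : ℕ) (χ : ℕ → ℂ) (O : Set (ℕ → ℂ)), 2 ≤ q →
  (∀ i < q, ‖χ i‖ = 1 ∧ χ i ≠ 1) → ∏ i ∈ Finset.range q, χ i ≠ 1 → O.Finite →
  (∀ p ∈ O, p 0 = 0 ∧ ∀ j, q ≤ j → p j = 0) →
  (∀ p ∈ O, ∀ i, i + 1 < q → twist χ i p ∈ O) → (∃ p ∈ O, p ≠ 0) →
  ∃ ε : ℝ, (ε = 1 ∨ ε = -1) ∧ ∀ x : ℕ → ℂ, x ≠ 0 → x 0 = 0 → (∀ j, q ≤ j → x j = 0) →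
    0 < ε * (hform χ q x x).im

/-- (RC3) Trigonometry. -/
def St_RC3 : Prop := ∀ (q : ℕ) (χ : ℕ → ℂ) (ε : ℝ), (ε = 1 ∨ ε = -1) →
  (∀ i < q, ‖χ i‖ = 1 ∧ χ i ≠ 1) →
  (∀ t, 1 ≤ t → t < q → 0 < ε * (2 * (1 - starRingEnd ℂ (∏ j ∈ Finset.range t, χ j)) *
      (1 - ∏ j ∈ Finset.range (t + 1), χ j) / (χ t - 1)).im) →
  ∑ i ∈ Finset.range q, ‖1 - χ i‖ < 2 * Real.pi

/-- (RN) The arithmetic of `1 - χ`. -/
def St_RN : Prop := ∀ {K : Type} [Field K] [NumberField K] (q : ℕ) (χ : ℕ → K),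
  (∀ i < q, χ i ≠ 1 ∧ ∃ m : ℕ, 0 < m ∧ χ i ^ m = 1) →
  ∃ σ : K →+* ℂ, (q : ℝ) ≤ ∑ i ∈ Finset.range q, ‖1 - σ (χ i)‖

/-- (R, 2.1) Lemma R. -/
def St_R : Prop := ∀ {K : Type} [Field K] [NumberField K] (q : ℕ) (χ : ℕ → K)
  (O : Set (ℕ → K)), 7 ≤ q → (∀ i < q, χ i ≠ 1 ∧ ∃ m : ℕ, 0 < m ∧ χ i ^ m = 1) →
  ∏ i ∈ Finset.range q, χ i ≠ 1 → O.Finite → (∀ p ∈ O, p 0 = 0 ∧ ∀ j, q ≤ j → p j = 0) →
  (∀ p ∈ O, ∀ i, i + 1 < q → twist χ i p ∈ O) → ∀ p ∈ O, p = 0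

/-- (Rot0, 2.2) The corollary in genus zero. -/
def St_Rot0 : Prop := ∀ {q : ℕ} {k : Type} [Field k] [NumberField k] {V : Type}
  [AddCommGroup V] [Module k V] (S : Sys 0 (q + 1) k V) (l : V →ₗ[k] k)
  (χ : F 0 (q + 1) → k), 7 ≤ q → l ≠ 0 → (∀ x u, l (S.ρ x u) = χ x * l u) →
  (∀ j : Fin (q + 1), (j : ℕ) < q → χ (gc j) ≠ 1) → χ (cseg 0 (q + 1) 0 q) ≠ 1 →
  ∃ κ, ∀ j : Fin (q + 1), (j : ℕ) < q → Fx S l χ κ (gc j)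

/-- (GrpR, 2.2) The grouping. -/
def St_GrpR : Prop := ∀ {g n q : ℕ}, q ≤ g → ∃ G : Grp 0 (q + 1) g n,
  (∀ (j : Fin (q + 1)) (i : Fin g), (j : ℕ) < q → (i : ℕ) = j → G.ι (gc j) = dl i) ∧
  G.ι (gc (Fin.last q)) = seg g n q (g - q) * cseg g n 0 n

/-- (Rot, 2.2) -/
def St_Rot : Prop := ∀ {g n : ℕ} {k : Type} [Field k] [NumberField k] {V : Type}
  [AddCommGroup V] [Module k V] (S : Sys g n k V) (l : V →ₗ[k] k) (χ : F g n → k) (q : ℕ),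
  7 ≤ q → q ≤ g → Eig S l χ → (∀ i : Fin g, (i : ℕ) < q → χ (dl i) ≠ 1) →
  χ (seg g n 0 q) ≠ 1 → ∃ κ, ∀ i : Fin g, (i : ℕ) < q → Fx S l χ κ (dl i)

/-! ### Section 6: flat blocks -/

/-- (G1) -/
def St_G1 : Prop := ∀ {g n : ℕ} {k : Type} [Field k] [CharZero k] {V : Type}
  [AddCommGroup V] [Module k V] (S : Sys g n k V), 2 ≤ g → (∀ d ∈ DB g n 0 2, S.ρ d = 1) →
  ∀ x ∈ Subgroup.normalClosure (DB g n 0 2 : Set (F g n)), S.ρ x = 1 ∧ S.v x = 0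

/-- (G2) -/
def St_G2 : Prop := ∀ {g n : ℕ} {k : Type} [Field k] [CharZero k] {V : Type}
  [AddCommGroup V] [Module k V] (S : Sys g n k V), 2 ≤ g → (∀ d ∈ DB g n 0 2, S.ρ d = 1) →
  ∃ u, ∀ x ∈ Bk g n 0 2, S.v x = u - S.ρ x u

/-- (G4) -/
def St_G4 : Prop := ∀ {g n : ℕ} {k : Type} [Field k] [CharZero k] {V : Type}
  [AddCommGroup V] [Module k V] (S : Sys g n k V), 2 ≤ g → (∀ d ∈ DB g n 0 2, S.ρ d = 1) →
  ∀ y ∈ Fge g n 2, S.ρ y = 1 → ∃ w0 w1 : V, S.v y = w0 + w1 ∧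
    (∀ i : Fin g, (i : ℕ) = 0 → S.ρ (ga i) w0 = w0 ∧ S.ρ (gb i) w0 = w0) ∧
    ∀ i : Fin g, (i : ℕ) = 1 → S.ρ (ga i) w1 = w1 ∧ S.ρ (gb i) w1 = w1

/-- (G5) -/
def St_G5 : Prop := ∀ {g n : ℕ} {k : Type} [Field k] [CharZero k] {V : Type}
  [AddCommGroup V] [Module k V] (S : Sys g n k V), 2 ≤ g → (∀ d ∈ DB g n 0 2, S.ρ d = 1) →
  ∀ y ∈ Fge g n 2, S.ρ y = 1 → ∀ t ∈ Bk g n 0 2, S.ρ t (S.v y) = S.v y

/-- (G7) -/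
def St_G7 : Prop := ∀ {g n : ℕ} {k : Type} [Field k] [CharZero k] {V : Type}
  [AddCommGroup V] [Module k V] (S : Sys g n k V), 2 ≤ g → (∀ d ∈ DB g n 0 2, S.ρ d = 1) →
  (∀ t ∈ Bk g n 0 2, S.v t = 0) → ∀ y ∈ Fge g n 2, S.ρ y = 1 → S.v y = 0

/-- (GF) -/
def St_GF : Prop := ∀ {g n : ℕ} {k : Type} [Field k] [CharZero k] {V : Type}
  [AddCommGroup V] [Module k V] (S : Sys g n k V), 2 ≤ g → (∀ d ∈ DB g n 0 2, S.ρ d = 1) →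
  ∃ u, ∀ y ∈ Fge g n 2, S.v y = u - S.ρ y u

/-- (GFl, 6.1) -/
def St_GFl : Prop := ∀ {g n : ℕ} {k : Type} [Field k] [CharZero k] {V : Type}
  [AddCommGroup V] [Module k V] (S : Sys g n k V) (l : V →ₗ[k] k) (χ : F g n → k), 2 ≤ g →
  Eig S l χ → (∀ x, ∀ d ∈ DB g n 0 2, χ (x * d * x⁻¹) = 1) →
  (∃ u, ∀ y ∈ Fge g n 2, l (S.v y) = l u - l (S.ρ y u)) ∧
  ∀ x, ∀ d ∈ DB g n 0 2, l (S.v (x * d * x⁻¹)) = 0

/-! ### Sections 7 and 8 -/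

/-- (GrpC, 7) The grouping. -/
def St_GrpC : Prop := ∀ {g n m : ℕ}, 2 ≤ m → m + 2 ≤ g → ∃ G : Grp 2 4 g n,
  (G.e 0 : ℕ) = m ∧ (G.e 1 : ℕ) = m + 1 ∧
  G.ι (gc 0) = seg g n (m + 2) (g - (m + 2)) * cseg g n 0 n ∧
  (∀ i : Fin g, (i : ℕ) = 0 → G.ι (gc 1) = dl i) ∧
  (∀ i : Fin g, (i : ℕ) = 1 → G.ι (gc 2) = dl i) ∧
  G.ι (gc 3) = seg g n 2 (m - 2)

/-- (Lemma C, 7) -/
def St_C : Prop := ∀ {g n : ℕ} {k : Type} [Field k] [NumberField k] {V : Type}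
  [AddCommGroup V] [Module k V] (S : Sys g n k V) (l : V →ₗ[k] k) (χ : F g n → k)
  (z o : Fin g), 9 ≤ g → (z : ℕ) = 0 → (o : ℕ) = 1 → Eig S l χ → χ (dl z) ≠ 1 →
  χ (dl o) ≠ 1 → ∃ κ, Fx S l χ κ (dl z) ∧ Fx S l χ κ (dl o)

/-- (Claim, 8) -/
def St_Claim : Prop := ∀ {g n : ℕ} {k : Type} [Field k] [NumberField k] {V : Type}
  [AddCommGroup V] [Module k V] (S : Sys g n k V) (l : V →ₗ[k] k) (χ : F g n → k)
  (z o : Fin g), 9 ≤ g → (z : ℕ) = 0 → (o : ℕ) = 1 → Eig S l χ → χ (dl z) ≠ 1 →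
  χ (dl o) ≠ 1 → ∃ κ, Fx S l χ κ (dl z) ∧ Fx S l χ κ (dl o) ∧ ∀ d ∈ DG g n 2, Fx S l χ κ d

/-! ### Section 9 -/

/-- (Lemma A, 9.1) -/
def St_A : Prop := ∀ {g n : ℕ} {k : Type} [Field k] [NumberField k] {V : Type}
  [AddCommGroup V] [Module k V] (S : Sys g n k V) (l : V →ₗ[k] k) (χ : F g n → k), 9 ≤ g →
  Eig S l χ → (∃ d ∈ DB g n 0 4, χ d ≠ 1) →
  ∃ κ, (∃ y ∈ DB g n 0 4, χ y ≠ 1 ∧ Fx S l χ κ y) ∧ ∀ d ∈ DG g n 4, Fx S l χ κ d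

/-- (STAR, 9.2) -/
def St_Star : Prop := ∀ {g n : ℕ} {k : Type} [Field k] [NumberField k] {V : Type}
  [AddCommGroup V] [Module k V] (S : Sys g n k V) (l : V →ₗ[k] k) (χ : F g n → k), 9 ≤ g →
  Eig S l χ → ∃ κ, ∀ d ∈ DG g n 4, Fx S l χ κ d

/-- (Case A, 9.4) -/
def St_CaseA : Prop := ∀ {g n : ℕ} {k : Type} [Field k] [NumberField k] {V : Type}
  [AddCommGroup V] [Module k V] (S : Sys g n k V) (l : V →ₗ[k] k) (χ : F g n → k), 9 ≤ g →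
  Eig S l χ → (∃ d ∈ DB g n 0 4, χ d ≠ 1) → ∃ κ, ∀ d ∈ DD g n, Fx S l χ κ d

/-- (Case B, first part, 9.4) -/
def St_B0 : Prop := ∀ {g n : ℕ} {k : Type} [Field k] [NumberField k] {V : Type}
  [AddCommGroup V] [Module k V] (S : Sys g n k V) (l : V →ₗ[k] k) (χ : F g n → k), 9 ≤ g →
  Eig S l χ → (∀ φ ∈ MCG g n, ∀ x, ∀ d ∈ DB g n 0 4, χ (x * φ d * x⁻¹) = 1) →
  ∀ x, ∀ d ∈ DB g n 0 g, χ (x * d * x⁻¹) = 1 ∧ l (S.v (x * d * x⁻¹)) = 0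

/-- (Case B, 9.4) -/
def St_CaseB : Prop := ∀ {g n : ℕ} {k : Type} [Field k] [NumberField k] {V : Type}
  [AddCommGroup V] [Module k V] (S : Sys g n k V) (l : V →ₗ[k] k) (χ : F g n → k), 9 ≤ g →
  Eig S l χ → (∀ φ ∈ MCG g n, ∀ x, ∀ d ∈ DB g n 0 4, χ (x * φ d * x⁻¹) = 1) →
  ∃ κ, ∀ d ∈ DD g n, Fx S l χ κ d

end Pool.Agent.PWM
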