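import Pool.Agent.PWM.Cla
import Pool.Agent.PWM.StB

/-!
# The Claim from Lemma C (paper, section 8)
-/

namespace Pool.Agent.PWM

open Pool.Agent.PW

theorem st_Claim (hC : St_C) : St_Claim := by
  intro g n k _ _ V _ _ S l χ z o hg hz ho h h0 h1
  obtain ⟨κ, hz1, ho1⟩ := hC S l χ z o hg hz ho h h0 h1
  refine ⟨κ, hz1, ho1, fun d hd => claim_of h hz ho h1 (κ := κ) ?_ hd⟩
  intro φ hφ ha hb
  by_cases hχ : χ (φ (dl o)) = 1
  · unfold Fx
    rw [h.zero_of_finOrd (map_aut_mem φ (dl_mem o)) (S.kill φ hφ o).2.2 hχ, hχ]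
    ring
  · have hdz : φ (dl z) = dl z := by
      rw [aut_dl, ha, hb]
      rfl
    have h2 : χ (φ (dl z)) ≠ 1 := by
      rw [hdz]
      exact h0
    obtain ⟨κ', h3, h4⟩ := hC (S.comp hφ) l (fun x => χ (φ x)) z o hg hz ho (h.comp hφ) h2 hχ
    rw [Fx.comp_iff] at h3 h4
    rw [hdz] at h3
    rw [hz1.unique h3 h0]
    exact h4

end Pool.Agent.PWM
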