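import Pool.Agent.PWM.LpDef
import Pool.Agent.PWM.Swp
import Pool.Agent.PWM.Blk

/-!
# Every class is a multiple of a primitive one (paper, 3.1)

Proof: the exponents of the letters give homs `F h 0 →* Multiplicative ℤ`; an element all of whose
exponents vanish is in `DD h 0`.  One handle: `e1`, `e2` and `rr` (Euclid) reduce the exponents
`(α, β)` to `(d, 0)`.  Two handles `i < j` with classes `d_i a_i + d_j b_j`: powers of `Lp i j` (class
level: `Lp_cls_*`: `b_i ↦ b_i + a_j`, `b_j ↦ b_j + a_i`) change `d_i` by multiples of `d_j`; the same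
for `d_i b_i + d_j a_j` (changes `d_j` by multiples of `d_i`); Euclid again.  At the end everything is
in one handle, `perm_exists` moves it to the handle `i`.
-/

namespace Pool.Agent.PWM

open Pool.Agent.PW

/-- an element with vanishing exponents is in the commutator subgroup -/
theorem mem_DD_iff {g n : ℕ} (x : F g n) : x ∈ DD g n ↔ ∀ φ : F g n →* Multiplicative ℤ, φ x = 1 := by
  constructor
  · intro hx φ
    exact Abelianization.commutator_subset_ker φ hx
  · intro h
    let φ : Gen g n → (F g n →* Multiplicative ℤ) := fun y =>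
      { toFun := fun z => Multiplicative.ofAdd (FreeAbelianGroup.coeff y
          (Additive.ofMul (Abelianization.of z) : Additive (Abelianization (F g n))))
        map_one' := by
          rw [map_one, ofMul_one]
          exact congrArg Multiplicative.ofAdd (map_zero (FreeAbelianGroup.coeff y))
        map_mul' := by
          intro z w
          rw [map_mul, ofMul_mul]
          rw [← ofAdd_add]
          exact congrArg Multiplicative.ofAdd (map_add (FreeAbelianGroup.coeff y) _ _) }
    have h1 : ∀ y, FreeAbelianGroup.coeff y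
        (Additive.ofMul (Abelianization.of x) : Additive (Abelianization (F g n))) = 0 := by
      intro y
      exact h (φ y)
    have h2 : (Additive.ofMul (Abelianization.of x) : Additive (Abelianization (F g n))) = 0 := by
      have h4 : FreeAbelianGroup.toFinsupp
          (Additive.ofMul (Abelianization.of x) : Additive (Abelianization (F g n))) = 0 := by
        ext y
        exact h1 y
      have h5 := Finsupp.toFreeAbelianGroup_toFinsupp
        (Additive.ofMul (Abelianization.of x) : Additive (Abelianization (F g n)))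
      rw [h4, map_zero] at h5
      exact h5.symm
    have h6 : Abelianization.of x = 1 := h2
    exact (QuotientGroup.eq_one_iff x).mp h6

theorem euc_cls {g n : ℕ} (ψ : MulAut (F g n)) {x y : F g n}
    (h : Abelianization.of x = Abelianization.of y) :
    Abelianization.of (ψ x) = Abelianization.of (ψ y) := by
  rw [← cls_iff] at h ⊢
  have h1 := map_aut_mem ψ h
  rwa [map_mul, map_inv] at h1

/-- `y` is, modulo the commutator subgroup, a power of the image of an element of `X` under `Γ` -/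
def EucC {g n : ℕ} (Γ : Subgroup (MulAut (F g n))) (X : Set (F g n)) (y : F g n) : Prop :=
  ∃ χ ∈ Γ, ∃ x ∈ X, ∃ m : ℤ, Abelianization.of (χ x ^ m) = Abelianization.of y

section

variable {g n : ℕ} {Γ : Subgroup (MulAut (F g n))} {X : Set (F g n)}

theorem EucC.congr {y y' : F g n} (h : EucC Γ X y)
    (e : Abelianization.of y = Abelianization.of y') : EucC Γ X y' := by
  obtain ⟨χ, hχ, x, hx, m, h1⟩ := h
  exact ⟨χ, hχ, x, hx, m, h1.trans e⟩

theorem EucC.apply {y : F g n} (h : EucC Γ X y) {φ : MulAut (F g n)} (hφ : φ ∈ Γ) :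
    EucC Γ X (φ y) := by
  obtain ⟨χ, hχ, x, hx, m, h1⟩ := h
  refine ⟨φ * χ, Γ.mul_mem hφ hχ, x, hx, m, ?_⟩
  rw [MulAut.mul_apply, ← map_zpow]
  exact euc_cls φ h1

theorem EucC.of_apply {y : F g n} {φ : MulAut (F g n)} (hφ : φ ∈ Γ) (h : EucC Γ X (φ y)) :
    EucC Γ X y := by
  have h1 := h.apply (Γ.inv_mem hφ)
  simpa using h1

theorem EucC.of_apply' {y y' : F g n} {φ : MulAut (F g n)} (hφ : φ ∈ Γ)
    (e : Abelianization.of (φ y) = Abelianization.of y') (h : EucC Γ X y') : EucC Γ X y :=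
  (h.congr e.symm).of_apply hφ

theorem EucC.mono {Γ' : Subgroup (MulAut (F g n))} {X' : Set (F g n)} {y : F g n}
    (h : EucC Γ X y) (h1 : Γ ≤ Γ') (h2 : X ⊆ X') : EucC Γ' X' y := by
  obtain ⟨χ, hχ, x, hx, m, h3⟩ := h
  exact ⟨χ, h1 hχ, x, h2 hx, m, h3⟩

theorem EucC.self {x : F g n} (hx : x ∈ X) (m : ℤ) : EucC Γ X (x ^ m) :=
  ⟨1, Γ.one_mem, x, hx, m, rfl⟩

end

/-- the automorphisms which fix the boundary word, all the `dl j` and the other handles -/
def euG1 {h : ℕ} (i : Fin h) : Subgroup (MulAut (F h 0)) where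
  carrier := {ψ | ψ ∈ MCGd h ∧ (∀ j, ψ (dl j) = dl j) ∧
    ∀ j, j ≠ i → ψ (ga j) = ga j ∧ ψ (gb j) = gb j}
  one_mem' := ⟨(MCGd h).one_mem, fun _ => rfl, fun _ _ => ⟨rfl, rfl⟩⟩
  mul_mem' := by
    rintro φ ψ ⟨h1, h2, h3⟩ ⟨h4, h5, h6⟩
    refine ⟨(MCGd h).mul_mem h1 h4, fun j => ?_, fun j hj => ⟨?_, ?_⟩⟩
    · rw [MulAut.mul_apply, h5, h2]
    · rw [MulAut.mul_apply, (h6 j hj).1, (h3 j hj).1]
    · rw [MulAut.mul_apply, (h6 j hj).2, (h3 j hj).2]
  inv_mem' := by
    rintro φ ⟨h1, h2, h3⟩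
    exact ⟨(MCGd h).inv_mem h1, fun j => inv_of_fix φ (h2 j),
      fun j hj => ⟨inv_of_fix φ (h3 j hj).1, inv_of_fix φ (h3 j hj).2⟩⟩

/-- the automorphisms which fix the boundary word and the handles outside `J` -/
def euG {h : ℕ} (J : Finset (Fin h)) : Subgroup (MulAut (F h 0)) where
  carrier := {ψ | ψ ∈ MCGd h ∧ ∀ j, j ∉ J → ψ (ga j) = ga j ∧ ψ (gb j) = gb j}
  one_mem' := ⟨(MCGd h).one_mem, fun _ _ => ⟨rfl, rfl⟩⟩
  mul_mem' := by
    rintro φ ψ ⟨h1, h3⟩ ⟨h4, h6⟩
    refine ⟨(MCGd h).mul_mem h1 h4, fun j hj => ⟨?_, ?_⟩⟩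
    · rw [MulAut.mul_apply, (h6 j hj).1, (h3 j hj).1]
    · rw [MulAut.mul_apply, (h6 j hj).2, (h3 j hj).2]
  inv_mem' := by
    rintro φ ⟨h1, h3⟩
    exact ⟨(MCGd h).inv_mem h1,
      fun j hj => ⟨inv_of_fix φ (h3 j hj).1, inv_of_fix φ (h3 j hj).2⟩⟩

theorem euG1_le {h : ℕ} {i : Fin h} {J : Finset (Fin h)} (hi : i ∈ J) : euG1 i ≤ euG J := by
  rintro ψ ⟨h1, _, h3⟩
  refine ⟨h1, fun j hj => h3 j ?_⟩
  rintro rfl
  exact hj hi

theorem euG_mono {h : ℕ} {I J : Finset (Fin h)} (hI : I ⊆ J) : euG I ≤ euG J := by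
  rintro ψ ⟨h1, h3⟩
  exact ⟨h1, fun j hj => h3 j fun h4 => hj (hI h4)⟩

theorem euc_e1 {h : ℕ} (i : Fin h) (k : ℤ) : e1 i k ∈ euG1 i :=
  ⟨e1_bdry i k, fun j => e1_dl i j k, fun j hj => ⟨e1_a i j k, e1_b' hj k⟩⟩

theorem euc_e2 {h : ℕ} (i : Fin h) (k : ℤ) : e2 i k ∈ euG1 i :=
  ⟨e2_bdry i k, fun j => e2_dl i j k, fun j hj => ⟨e2_a' hj k, e2_b i j k⟩⟩

theorem euc_rr {h : ℕ} (i : Fin h) : rr i ∈ euG1 i :=
  (euG1 i).mul_mem ((euG1 i).mul_mem (euc_e1 i _) (euc_e2 i _)) (euc_e1 i _)

/-- Euclid in one handle -/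
theorem euc_one {h : ℕ} (i : Fin h) (N : ℕ) : ∀ (α β : ℤ), α.natAbs ≤ N →
    EucC (euG1 i) {(ga i : F h 0)} (ga i ^ α * gb i ^ β) := by
  induction N with
  | zero =>
    intro α β hα
    have h0 : α = 0 := by omega
    subst h0
    refine EucC.of_apply' (φ := (rr i)⁻¹) ((euG1 i).inv_mem (euc_rr i)) ?_
      (EucC.self (Set.mem_singleton _) β)
    rw [map_mul, map_zpow, map_zpow, rri_b, rri_a]
    simp only [map_mul, map_zpow, map_inv]
    apply Additive.ofMul.injective
    simp only [ofMul_mul, ofMul_inv, ofMul_zpow]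
    simp
  | succ N ih =>
    intro α β hα
    by_cases h0 : α = 0
    · exact ih α β (by omega)
    · -- apply `e2 i (-(β / α))`
      have h1 : EucC (euG1 i) {(ga i : F h 0)} (ga i ^ (-(β % α)) * gb i ^ α) := by
        apply ih
        have h2 := Int.emod_nonneg β h0
        have h3 := Int.emod_lt_abs β h0
        rw [Int.abs_eq_natAbs] at h3
        omega
      refine EucC.of_apply' (φ := rr i * e2 i (-(β / α)))
        ((euG1 i).mul_mem (euc_rr i) (euc_e2 i _)) ?_ h1
      have h4 : β = α * (β / α) + β % α := (Int.mul_ediv_add_emod β α).symm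
      simp only [MulAut.mul_apply, map_mul, map_zpow, e2_a, e2_b, rr_a, rr_b, map_inv]
      apply Additive.ofMul.injective
      simp only [ofMul_mul, ofMul_inv, ofMul_zpow]
      generalize Additive.ofMul (Abelianization.of (ga i)) = A
      generalize Additive.ofMul (Abelianization.of (gb i)) = B
      have e1 : (α • (A + B + -A + -(β / α) • -A) + β • -A : Additive (Abelianization (F h 0))) =
          α • B + (α * (β / α)) • A - β • A := by
        module
      have e2 : (-(β % α)) = α * (β / α) - β := by linarith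
      rw [e2]
      module


/-- Euclid for one handle. -/
theorem euclid_one {h : ℕ} (i : Fin h) {t : F h 0} (ht : t ∈ Subgroup.closure {(ga i : F h 0), gb i}) :
    ∃ ψ ∈ MCGd h, ∃ m : ℤ, (ψ (ga i) ^ m)⁻¹ * t ∈ DD h 0 ∧
      (∀ j, ψ (dl j) = dl j) ∧ ∀ j, j ≠ i → ψ (ga j) = ga j ∧ ψ (gb j) = gb j := by
  have h1 : Abelianization.of t ∈
      Subgroup.closure {Abelianization.of (ga i : F h 0), Abelianization.of (gb i)} := by
    have h2 := Subgroup.mem_map_of_mem (Abelianization.of (G := F h 0)) ht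
    rwa [MonoidHom.map_closure, Set.image_pair] at h2
  obtain ⟨α, β, h3⟩ := Subgroup.mem_closure_pair.mp h1
  have h4 : Abelianization.of (ga i ^ α * gb i ^ β) = Abelianization.of t := by
    rw [map_mul, map_zpow, map_zpow, h3]
  obtain ⟨ψ, hψ, x, hx, m, h5⟩ := (euc_one i _ α β le_rfl).congr h4
  have hx' : x = ga i := hx
  subst hx'
  exact ⟨ψ, hψ.1, m, cls_iff.mpr h5, hψ.2.1, hψ.2.2⟩

theorem euc_zpow {g n : ℕ} {χ : MulAut (F g n)} {x y : F g n}
    (hx : Abelianization.of (χ x) = Abelianization.of x)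
    (hy : Abelianization.of (χ y) = Abelianization.of (y * x)) (k : ℤ) :
    Abelianization.of ((χ ^ k) x) = Abelianization.of x ∧
      Abelianization.of ((χ ^ k) y) = Abelianization.of (y * x ^ k) := by
  have hx' : Abelianization.of (χ⁻¹ x) = Abelianization.of x := by
    have h1 := euc_cls χ⁻¹ hx
    simpa using h1.symm
  have hy' : Abelianization.of (χ⁻¹ y) = Abelianization.of (y * x⁻¹) := by
    have h1 : Abelianization.of (χ (y * x⁻¹)) = Abelianization.of y := by
      simp only [map_mul, map_inv, hx, hy]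
      apply Additive.ofMul.injective
      simp only [ofMul_mul, ofMul_inv]
      abel
    have h2 := euc_cls χ⁻¹ h1
    simpa using h2.symm
  induction k using Int.induction_on with
  | zero => simp
  | succ k ih =>
    obtain ⟨h1, h2⟩ := ih
    have e : χ ^ ((k : ℤ) + 1) = χ * χ ^ (k : ℤ) := by rw [add_comm, zpow_add, zpow_one]
    rw [e]
    refine ⟨?_, ?_⟩
    · rw [MulAut.mul_apply]
      exact (euc_cls χ h1).trans hx
    · rw [MulAut.mul_apply]
      refine (euc_cls χ h2).trans ?_
      simp only [map_mul, map_zpow, hx, hy]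
      apply Additive.ofMul.injective
      simp only [ofMul_mul, ofMul_zpow]
      module
  | pred k ih =>
    obtain ⟨h1, h2⟩ := ih
    have e : χ ^ (-(k : ℤ) - 1) = χ⁻¹ * χ ^ (-(k : ℤ)) := by
      rw [sub_eq_neg_add, zpow_add, zpow_neg_one]
    rw [e]
    refine ⟨?_, ?_⟩
    · rw [MulAut.mul_apply]
      exact (euc_cls χ⁻¹ h1).trans hx'
    · rw [MulAut.mul_apply]
      refine (euc_cls χ⁻¹ h2).trans ?_
      simp only [map_mul, map_zpow, map_inv, hx', hy']
      apply Additive.ofMul.injective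
      simp only [ofMul_mul, ofMul_zpow, ofMul_inv]
      module

theorem euc_Lp {h : ℕ} {i j : Fin h} (hij : (i : ℕ) < j) : Lp i j hij ∈ euG {i, j} := by
  refine ⟨Lp_bdry hij, fun l hl => ?_⟩
  rw [Finset.mem_insert, Finset.mem_singleton, not_or] at hl
  exact ⟨Lp_a' hij hl.1 hl.2, Lp_b' hij hl.1 hl.2⟩

/-- two handles: change of the first exponent -/
theorem euc_step1 {h : ℕ} {i j : Fin h} (hij : (i : ℕ) < j) {X : Set (F h 0)} (p q k : ℤ)
    (hQ : EucC (euG {i, j}) X (ga i ^ (p + k * q) * gb j ^ q)) :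
    EucC (euG {i, j}) X (ga i ^ p * gb j ^ q) := by
  have h1 : Abelianization.of (Lp (n := 0) i j hij (ga i)) = Abelianization.of (ga i) := by
    rw [Lp_az]
  have h2 : Abelianization.of (Lp (n := 0) i j hij (gb j)) = Abelianization.of (gb j * ga i) :=
    (cls_iff.mp (Lp_cls_bo hij)).symm
  obtain ⟨h3, h4⟩ := euc_zpow h1 h2 k
  refine hQ.of_apply' (φ := Lp i j hij ^ k) ((euG {i, j}).zpow_mem (euc_Lp hij) k) ?_
  rw [map_mul, map_zpow, map_zpow, map_mul, map_zpow, map_zpow, h3, h4]
  simp only [map_mul, map_zpow]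
  apply Additive.ofMul.injective
  simp only [ofMul_mul, ofMul_zpow]
  module

theorem euc_rr_mem {h : ℕ} {i : Fin h} {J : Finset (Fin h)} (hi : i ∈ J) : rr i ∈ euG J :=
  euG1_le hi (euc_rr i)

theorem euc_rra {h : ℕ} (i : Fin h) :
    Abelianization.of (rr (n := 0) i (ga i)) = Abelianization.of (gb i) := by
  rw [rr_a]
  simp only [map_mul, map_inv]
  apply Additive.ofMul.injective
  simp only [ofMul_mul, ofMul_inv]
  abel

theorem euc_rrib {h : ℕ} (i : Fin h) :
    Abelianization.of ((rr (n := 0) i)⁻¹ (gb i)) = Abelianization.of (ga i) := by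
  rw [rri_b]
  simp only [map_mul, map_inv]
  apply Additive.ofMul.injective
  simp only [ofMul_mul, ofMul_inv]
  abel

/-- two handles: change of the second exponent -/
theorem euc_step2 {h : ℕ} {i j : Fin h} (hij : (i : ℕ) < j) {X : Set (F h 0)} (p q k : ℤ)
    (hQ : EucC (euG {i, j}) X (ga i ^ p * gb j ^ (q + k * p))) :
    EucC (euG {i, j}) X (ga i ^ p * gb j ^ q) := by
  have hne : i ≠ j := by
    rintro rfl
    omega
  have hi : i ∈ ({i, j} : Finset (Fin h)) := by simp
  have hj : j ∈ ({i, j} : Finset (Fin h)) := by simp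
  have h1 : Abelianization.of (Lp (n := 0) i j hij (ga j)) = Abelianization.of (ga j) :=
    (cls_iff.mp (Lp_cls_ao hij)).symm
  have h2 : Abelianization.of (Lp (n := 0) i j hij (gb i)) = Abelianization.of (gb i * ga j) :=
    (cls_iff.mp (Lp_cls_bz hij)).symm
  obtain ⟨h3, h4⟩ := euc_zpow h1 h2 k
  -- the target of the way back
  have hQ1 : EucC (euG {i, j}) X (gb i ^ p * ga j ^ (q + k * p)) := by
    refine hQ.of_apply' (φ := (rr i)⁻¹ * rr j)
      ((euG {i, j}).mul_mem ((euG {i, j}).inv_mem (euc_rr_mem hi)) (euc_rr_mem hj)) ?_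
    have e1 : Abelianization.of (((rr i)⁻¹ * rr j : MulAut (F h 0)) (gb i)) =
        Abelianization.of (ga i) := by
      rw [MulAut.mul_apply, rr_b' hne]
      exact euc_rrib i
    have e2 : Abelianization.of (((rr i)⁻¹ * rr j : MulAut (F h 0)) (ga j)) =
        Abelianization.of (gb j) := by
      rw [MulAut.mul_apply]
      refine (euc_cls _ (euc_rra j)).trans ?_
      rw [rri_b' hne.symm]
    rw [map_mul, map_zpow, map_zpow, map_mul, map_zpow, map_zpow, e1, e2, map_mul, map_zpow,
      map_zpow]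
  have hQ2 : EucC (euG {i, j}) X (gb i ^ p * ga j ^ q) := by
    refine hQ1.of_apply' (φ := Lp i j hij ^ k) ((euG {i, j}).zpow_mem (euc_Lp hij) k) ?_
    rw [map_mul, map_zpow, map_zpow, map_mul, map_zpow, map_zpow, h3, h4]
    simp only [map_mul, map_zpow]
    apply Additive.ofMul.injective
    simp only [ofMul_mul, ofMul_zpow]
    module
  refine hQ2.of_apply' (φ := rr i * (rr j)⁻¹)
    ((euG {i, j}).mul_mem (euc_rr_mem hi) ((euG {i, j}).inv_mem (euc_rr_mem hj))) ?_
  have e1 : Abelianization.of ((rr i * (rr j)⁻¹ : MulAut (F h 0)) (ga i)) =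
      Abelianization.of (gb i) := by
    rw [MulAut.mul_apply, rri_a' hne]
    exact euc_rra i
  have e2 : Abelianization.of ((rr i * (rr j)⁻¹ : MulAut (F h 0)) (gb j)) =
      Abelianization.of (ga j) := by
    rw [MulAut.mul_apply]
    refine (euc_cls _ (euc_rrib j)).trans ?_
    rw [rr_a' hne.symm]
  rw [map_mul, map_zpow, map_zpow, map_mul, map_zpow, map_zpow, e1, e2, map_mul, map_zpow,
    map_zpow]

/-- Euclid in two handles -/
theorem euc_two {h : ℕ} {i j : Fin h} (hij : (i : ℕ) < j) (N : ℕ) : ∀ (p q : ℤ), p.natAbs ≤ N →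
    EucC (euG {i, j}) {(ga i : F h 0), ga j} (ga i ^ p * gb j ^ q) := by
  have hj : j ∈ ({i, j} : Finset (Fin h)) := by simp
  induction N with
  | zero =>
    intro p q hp
    have h0 : p = 0 := by omega
    subst h0
    refine (EucC.self (x := ga j) (by simp) q).of_apply' (φ := (rr j)⁻¹)
      ((euG {i, j}).inv_mem (euc_rr_mem hj)) ?_
    rw [zpow_zero, one_mul, map_zpow, map_zpow, euc_rrib, map_zpow]
  | succ N ih =>
    intro p q hp
    by_cases h0 : p = 0
    · exact ih p q (by omega)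
    · apply euc_step2 hij p q (-(q / p))
      have e1 : q + -(q / p) * p = q % p := by
        have := Int.mul_ediv_add_emod q p
        linarith
      rw [e1]
      by_cases h1 : q % p = 0
      · rw [h1, zpow_zero, mul_one]
        exact EucC.self (by simp) p
      · apply euc_step1 hij p (q % p) (-(p / (q % p)))
        have e2 : p + -(p / (q % p)) * (q % p) = p % (q % p) := by
          have := Int.mul_ediv_add_emod p (q % p)
          linarith
        rw [e2]
        apply ih
        have h2 := Int.emod_nonneg q h0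
        have h3 := Int.emod_lt_abs q h0
        have h4 := Int.emod_nonneg p h1
        have h5 := Int.emod_lt_abs p h1
        rw [Int.abs_eq_natAbs] at h3 h5
        omega

theorem euc_pair {h : ℕ} {i j : Fin h} (hij : i ≠ j) (p q : ℤ) :
    EucC (euG {i, j}) {(ga i : F h 0), ga j} (ga i ^ p * ga j ^ q) := by
  have key : ∀ {i j : Fin h}, (i : ℕ) < j → ∀ p q : ℤ,
      EucC (euG {i, j}) {(ga i : F h 0), ga j} (ga i ^ p * ga j ^ q) := by
    intro i j h1 p q
    have hne : i ≠ j := by
      rintro rfl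
      omega
    refine (euc_two h1 _ p q le_rfl).of_apply' (φ := rr j) (euc_rr_mem (by simp)) ?_
    rw [map_mul, map_zpow, map_zpow, map_mul, map_zpow, map_zpow, euc_rra, rr_a' hne, map_mul,
      map_zpow, map_zpow]
  rcases Nat.lt_or_ge (i : ℕ) j with h1 | h1
  · exact key h1 p q
  · have h2 : (j : ℕ) < i := by
      rcases Nat.lt_or_ge (j : ℕ) i with h3 | h3
      · exact h3
      · exact absurd (Fin.ext (by omega)) hij
    refine ((key h2 q p).mono ?_ ?_).congr ?_
    · exact euG_mono (by rw [Finset.pair_comm])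
    · rw [Set.pair_comm]
    · rw [map_mul, map_mul, mul_comm]

/-- all handles of `J` -/
theorem euc_many {h : ℕ} (α β : Fin h → ℤ) {J : Finset (Fin h)} (hJ : J.Nonempty) :
    ∀ y : F h 0, Abelianization.of y = ∏ j ∈ J, (Abelianization.of (ga j : F h 0) ^ α j *
      Abelianization.of (gb j : F h 0) ^ β j) →
    EucC (euG J) {x | ∃ j ∈ J, x = ga j} y := by
  induction hJ using Finset.Nonempty.cons_induction with
  | singleton j =>
    intro y hy
    rw [Finset.prod_singleton] at hy
    refine ((euc_one j _ (α j) (β j) le_rfl).mono (euG1_le (by simp)) ?_).congr ?_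
    · rintro x rfl
      exact ⟨j, by simp, rfl⟩
    · rw [hy, map_mul, map_zpow, map_zpow]
  | cons j' J hj' hJ ih =>
    intro y hy
    rw [Finset.prod_cons] at hy
    obtain ⟨yJ, hyJ'⟩ : ∃ yJ : F h 0, Abelianization.of yJ = ∏ j ∈ J,
      (Abelianization.of (ga j : F h 0) ^ α j * Abelianization.of (gb j : F h 0) ^ β j) :=
      QuotientGroup.mk_surjective _
    obtain ⟨ψ, hψ, x, ⟨j, hj, rfl⟩, m, h1⟩ := ih yJ hyJ'
    have hne : j ≠ j' := by
      rintro rfl
      exact hj' hj
    obtain ⟨φ, hφ, x', hx', m', h2⟩ := euc_one j' _ (α j') (β j') le_rfl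
    have hx'' : x' = ga j' := hx'
    subst hx''
    have hsub : J ⊆ Finset.cons j' J hj' := Finset.subset_cons hj'
    have hmem : j' ∈ Finset.cons j' J hj' := Finset.mem_cons_self j' J
    have h3 : EucC (euG (Finset.cons j' J hj')) {x | ∃ j ∈ Finset.cons j' J hj', x = ga j}
        (ga j' ^ m' * ga j ^ m) := by
      refine (euc_pair hne.symm m' m).mono (euG_mono ?_) ?_
      · intro l hl
        rw [Finset.mem_insert, Finset.mem_singleton] at hl
        rcases hl with rfl | rfl
        · exact hmem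
        · exact hsub hj
      · rintro l (rfl | rfl)
        · exact ⟨j', hmem, rfl⟩
        · exact ⟨j, hsub hj, rfl⟩
    have h4 := h3.apply (euG1_le hmem hφ)
    have h5 := h4.apply (euG_mono hsub hψ)
    refine h5.congr ?_
    rw [hy, ← hyJ', ← h1]
    have e1 : φ (ga j) = ga j := (hφ.2.2 j hne).1
    have e2 : Abelianization.of (φ (ga j' ^ m' * ga j ^ m)) =
        Abelianization.of (ga j' ^ α j' * gb j' ^ β j' * ga j ^ m) := by
      rw [map_mul, map_zpow, map_zpow, e1, map_mul, h2, map_mul (Abelianization.of)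
        (ga j' ^ α j' * gb j' ^ β j')]
    refine (euc_cls ψ e2).trans ?_
    simp only [map_mul, map_zpow, (hψ.2 j' hj').1, (hψ.2 j' hj').2]

/-- the exponents of an element -/
theorem euc_exp {h : ℕ} (y : F h 0) : ∃ α β : Fin h → ℤ, Abelianization.of y =
    ∏ j, (Abelianization.of (ga j : F h 0) ^ α j * Abelianization.of (gb j : F h 0) ^ β j) := by
  let E : Subgroup (F h 0) :=
    { carrier := {y | ∃ α β : Fin h → ℤ, Abelianization.of y =
        ∏ j, (Abelianization.of (ga j : F h 0) ^ α j * Abelianization.of (gb j : F h 0) ^ β j)}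
      one_mem' := ⟨0, 0, by simp⟩
      mul_mem' := by
        rintro x y ⟨α, β, h1⟩ ⟨α', β', h2⟩
        refine ⟨α + α', β + β', ?_⟩
        rw [map_mul, h1, h2, ← Finset.prod_mul_distrib]
        refine Finset.prod_congr rfl fun j _ => ?_
        rw [Pi.add_apply, Pi.add_apply, zpow_add, zpow_add]
        exact mul_mul_mul_comm _ _ _ _
      inv_mem' := by
        rintro x ⟨α, β, h1⟩
        refine ⟨-α, -β, ?_⟩
        rw [map_inv, h1, ← Finset.prod_inv_distrib]
        refine Finset.prod_congr rfl fun j _ => ?_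
        rw [Pi.neg_apply, Pi.neg_apply, zpow_neg, zpow_neg, mul_inv] }
  have hE : E = ⊤ := by
    apply eq_top_of_gens
    · intro i
      refine ⟨Pi.single i 1, 0, ?_⟩
      rw [Finset.prod_eq_single i]
      · simp
      · intro j _ hj
        simp [hj]
      · intro hi
        exact absurd (Finset.mem_univ i) hi
    · intro i
      refine ⟨0, Pi.single i 1, ?_⟩
      rw [Finset.prod_eq_single i]
      · simp
      · intro j _ hj
        simp [hj]
      · intro hi
        exact absurd (Finset.mem_univ i) hi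
    · intro j
      exact j.elim0
  have hy : y ∈ E := by
    rw [hE]
    exact Subgroup.mem_top y
  exact hy

/-- Paper, 3.1. -/
theorem euclid {h : ℕ} (i : Fin h) (y : F h 0) :
    ∃ ψ ∈ MCGd h, ∃ m : ℤ, (ψ (ga i) ^ m)⁻¹ * y ∈ DD h 0 := by
  obtain ⟨α, β, h1⟩ := euc_exp y
  obtain ⟨ψ, hψ, x, ⟨j, _, rfl⟩, m, h2⟩ := euc_many α β (J := Finset.univ)
    ⟨i, Finset.mem_univ i⟩ y h1
  obtain ⟨φ, hφ, h3⟩ := perm_exists (Equiv.swap i j)
  obtain ⟨w, _, h4, _⟩ := h3 i
  rw [Equiv.swap_apply_left] at h4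
  refine ⟨ψ * φ, (MCGd h).mul_mem hψ.1 hφ, m, cls_iff.mpr ?_⟩
  rw [← h2, MulAut.mul_apply, map_zpow, map_zpow]
  congr 1
  apply euc_cls
  rw [h4]
  simp only [map_mul, map_inv]
  apply Additive.ofMul.injective
  simp only [ofMul_mul, ofMul_inv]
  abel

theorem st_Euc : St_Euc := by
  intro h y i
  obtain ⟨ψ, hψ, m, hm⟩ := euclid i y
  refine ⟨ψ, hψ, m, ?_⟩
  have e : y * (ψ (ga i) ^ m)⁻¹ = ψ (ga i) ^ m * ((ψ (ga i) ^ m)⁻¹ * y) * (ψ (ga i) ^ m)⁻¹ := by
    group
  rw [e]
  exact cj_mem hm _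

end Pool.Agent.PWM
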