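import Pool.Agent.PWM.StB

/-!
# Fix : fixed points of finite affine actions by averaging

Proof.  `Q' = Q.subgroupOf H` has finite index in `H`.  `w : H ⧸ Q' → V`, `w [h] = v h` is well
defined.  `s = ∑ c : H ⧸ Q', w c`, `m = card (H ⧸ Q')`; `s = m • v x + ρ x s`, `u = (m : k)⁻¹ • s`.
-/

namespace Pool.Agent.PWM

open Pool.Agent.PW

theorem st_Fix : St_Fix := by
  intro G _ k _ _ V _ _ ρ v hv H Q hQH hind h0
  have hind' : (Q.subgroupOf H).index ≠ 0 := hind
  have : (Q.subgroupOf H).FiniteIndex := ⟨hind'⟩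
  have : Fintype (H ⧸ Q.subgroupOf H) := Subgroup.fintypeQuotientOfFiniteIndex
  let w : (H ⧸ Q.subgroupOf H) → V := fun c => Quotient.liftOn' c (fun h => v (h : G)) (by
    intro a b hab
    have h1 : a⁻¹ * b ∈ Q.subgroupOf H := QuotientGroup.leftRel_apply.mp hab
    have h2 : ((a : G)⁻¹ * (b : G)) ∈ Q := h1
    have h3 : v (b : G) = v ((a : G) * ((a : G)⁻¹ * b)) := by
      congr 1
      group
    show v (a : G) = v (b : G)
    rw [h3, hv, h0 _ h2, map_zero, add_zero])
  have hw : ∀ h : H, w (QuotientGroup.mk h) = v (h : G) := fun h => rfl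
  have hwx : ∀ (x : H) (c : H ⧸ Q.subgroupOf H), w (x • c) = v (x : G) + ρ (x : G) (w c) := by
    intro x c
    obtain ⟨h, rfl⟩ := QuotientGroup.mk_surjective c
    show v ((x * h : H) : G) = v (x : G) + ρ (x : G) (v (h : G))
    rw [Subgroup.coe_mul, hv]
  set s : V := ∑ c : H ⧸ Q.subgroupOf H, w c with hs
  set m : ℕ := Fintype.card (H ⧸ Q.subgroupOf H) with hm
  have hm0 : (m : k) ≠ 0 := by
    have h1 : m ≠ 0 := Fintype.card_ne_zero
    exact_mod_cast h1
  have hsx : ∀ x : H, s = (m : k) • v (x : G) + ρ (x : G) s := by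
    intro x
    have h1 : ∑ c : H ⧸ Q.subgroupOf H, w (x • c) = s :=
      Fintype.sum_equiv (MulAction.toPerm x) _ _ fun c => rfl
    have h2 : ∑ c : H ⧸ Q.subgroupOf H, w (x • c) = (m : k) • v (x : G) + ρ (x : G) s := by
      rw [Finset.sum_congr rfl fun c _ => hwx x c, Finset.sum_add_distrib, Finset.sum_const,
        Finset.card_univ, ← map_sum, Nat.cast_smul_eq_nsmul]
    exact h1.symm.trans h2
  refine ⟨(m : k)⁻¹ • s, fun x hx => ?_⟩
  have h1 := hsx ⟨x, hx⟩
  have h2 : s - ρ x s = (m : k) • v x := by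
    rw [sub_eq_iff_eq_add]
    exact h1
  rw [map_smul, ← smul_sub, h2, smul_smul, inv_mul_cancel₀ hm0, one_smul]

end Pool.Agent.PWM
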