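import Pool.Agent.PWM.StB

/-!
# G1 : v vanishes on the normal closure of the commutators of a flat block (paper, 6)
-/

namespace Pool.Agent.PWM

open Pool.Agent.PW

variable {g n : ℕ} {k : Type} [Field k] {V : Type} [AddCommGroup V] [Module k V]

theorem G1_pow (S : Sys g n k V) {x : F g n} (hx : S.ρ x = 1) (m : ℕ) :
    S.v (x ^ m) = (m : k) • S.v x := by
  induction m with
  | zero => rw [pow_zero, S.v_one, Nat.cast_zero, zero_smul]
  | succ m ih =>
    rw [pow_succ, S.coc, ih, map_pow, hx, one_pow, Module.End.one_apply, Nat.cast_succ, add_smul,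
      one_smul]

/-- The elements with trivial affine map. -/
def G1_K (S : Sys g n k V) : Subgroup (F g n) where
  carrier := {x | S.ρ x = 1 ∧ S.v x = 0}
  one_mem' := ⟨map_one _, S.v_one⟩
  mul_mem' := by
    rintro x y ⟨h1, h2⟩ ⟨h3, h4⟩
    refine ⟨by rw [map_mul, h1, h3, one_mul], ?_⟩
    rw [S.coc, h2, h4, map_zero, add_zero]
  inv_mem' := by
    rintro x ⟨h1, h2⟩
    have h3 : S.ρ x⁻¹ * S.ρ x = 1 := by rw [← map_mul, inv_mul_cancel, map_one]
    rw [h1, mul_one] at h3
    exact ⟨h3, by rw [S.v_inv, h2, map_zero, neg_zero]⟩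

theorem G1_K_normal (S : Sys g n k V) : (G1_K S).Normal := by
  refine ⟨fun x hx w => ?_⟩
  obtain ⟨h1, h2⟩ := hx
  refine ⟨?_, ?_⟩
  · rw [map_mul, map_mul, h1, mul_one, ← map_mul, mul_inv_cancel, map_one]
  · rw [S.coc, S.coc, h2, map_zero, add_zero, map_mul, h1, mul_one, S.ρ_v_inv, add_neg_cancel]

theorem st_G1 (hB : St_Blk) (hJ : St_J) : St_G1 := by
  intro g n k _ _ V _ _ S hg hρ
  have hm : 0 + 2 ≤ g := by omega
  have hv : ∀ d ∈ DB g n 0 2, S.v d = 0 := by
    intro d hd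
    refine JB hB hJ hm le_rfl (L := S.v) ?_ ?_ hd
    · intro x hx y hy
      rw [S.coc, hρ x hx, Module.End.one_apply]
    · intro Ψ hΨ i hi
      have hmem : Ψ (dl i) ∈ DB g n 0 2 := by
        rw [aut_dl]
        apply Subgroup.commutator_mem_commutator
        · exact hΨ.map_bk (Bk_a (Nat.zero_le _) (by omega))
        · exact hΨ.map_bk (Bk_b (Nat.zero_le _) (by omega))
      obtain ⟨M, hM, -, h2⟩ := (S.kill Ψ hΨ.1 i).2.2
      rw [G1_pow S (hρ _ hmem)] at h2
      rcases smul_eq_zero.mp h2 with h3 | h3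
      · exact absurd (Nat.cast_eq_zero.mp h3) hM.ne'
      · exact h3
  have hK := G1_K_normal S
  have hle : Subgroup.normalClosure (DB g n 0 2 : Set (F g n)) ≤ G1_K S :=
    Subgroup.normalClosure_le_normal (fun d hd => ⟨hρ d hd, hv d hd⟩)
  exact fun x hx => hle hx

end Pool.Agent.PWM
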