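import Pool.Agent.PWM.StB

/-!
# G4 : flat block: v(y) in V^{T_0} + V^{T_1}

Proof (paper 6, G4).  h1: ρ = 1 and v = 0 on the normal closure of DB g n 0 2, which contains NN g n (dl of the handles 0, 1 are in DB).  φ from hP y.  By induction on m: φ^m (t) = y^m t y^-m n with n ∈ NN for t a letter of handle 0 [φ(y) = y n', z⁻¹ φ z ∈ NN for z ∈ Fge, φ(NN) ≤ NN], φ^m = id on the handle 1.
So ρ (φ^m t) = ρ t, and v (φ^m t) = v (y^m t y^-m) = v t + m • (v y - ρ t (v y)) (ρ y = 1: v (y^m) = m v y).  S.orb for φ^m, m ∈ ℕ: pigeonhole on the finite set T (`Set.Finite`, infinite ℕ: `Finite.exists_ne_map_eq_of_infinite`): m < m' with the same s: v (φ^m x) - ρ(φ^m x) u + u = v(φ^m' x) - ρ(φ^m' x) u' + u'.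
For x a letter of the handle 1: (ρ x - 1)(u - u') = 0, w := u - u'.  x = t: (m - m')(1 - ρ t)(v y) = (ρ t - 1) w, so (1 - ρ t)((m' - m) v y - w) = 0.  w1 = w/(m'-m), w0 = v y - w1.
-/

namespace Pool.Agent.PWM

open Pool.Agent.PW

section G4

variable {g n : ℕ} {k : Type} [Field k] {V : Type} [AddCommGroup V] [Module k V]

private theorem g4_NN_le :
    NN g n ≤ Subgroup.normalClosure (DB g n 0 2 : Set (F g n)) := by
  unfold NN
  apply Subgroup.normalClosure_mono
  rintro x ⟨i, hi, rfl⟩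
  exact Subgroup.commutator_mem_commutator (Bk_a (Nat.zero_le _) (by omega))
    (Bk_b (Nat.zero_le _) (by omega))

private theorem g4_eq (S : Sys g n k V) (hN : ∀ q ∈ NN g n, S.ρ q = 1 ∧ S.v q = 0)
    {x x' : F g n} (h : x⁻¹ * x' ∈ NN g n) : S.v x' = S.v x ∧ S.ρ x' = S.ρ x := by
  have e : x' = x * (x⁻¹ * x') := by group
  constructor
  · rw [e, S.coc, (hN _ h).2, map_zero, add_zero]
  · rw [e, map_mul, (hN _ h).1, mul_one]

/-- The powers of the push. -/
private theorem g4_pow {φ : MulAut (F g n)} {y t : F g n}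
    (hy : y⁻¹ * φ y ∈ NN g n) (ht : (y * t * y⁻¹)⁻¹ * φ t ∈ NN g n)
    (hN : ∀ x ∈ NN g n, φ x ∈ NN g n) (m : ℕ) :
    (y ^ m * t * (y ^ m)⁻¹)⁻¹ * (φ ^ m) t ∈ NN g n := by
  have : (NN g n).Normal := Subgroup.normalClosure_normal
  have key : ∀ {a b : F g n}, a⁻¹ * b ∈ NN g n ↔
      QuotientGroup.mk' (NN g n) a = QuotientGroup.mk' (NN g n) b := by
    intro a b
    rw [QuotientGroup.mk'_apply, QuotientGroup.mk'_apply, QuotientGroup.eq]
  have hφ : ∀ {a b : F g n}, a⁻¹ * b ∈ NN g n → (φ a)⁻¹ * φ b ∈ NN g n := by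
    intro a b h
    rw [← map_inv, ← map_mul]
    exact hN _ h
  induction m with
  | zero => simp
  | succ m ih =>
    have h1 := hφ ih
    have e1 : (φ ^ (m + 1)) t = φ ((φ ^ m) t) := by
      rw [pow_succ', MulAut.mul_apply]
    rw [e1]
    rw [key] at h1 hy ht ⊢
    rw [← h1]
    simp only [map_mul, map_inv, map_pow] at hy ht ⊢
    rw [← ht, ← hy, pow_succ]
    group

private theorem g4_vpow (S : Sys g n k V) {y : F g n} (hy : S.ρ y = 1) (m : ℕ) :
    S.v (y ^ m) = (m : k) • S.v y := by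
  induction m with
  | zero => simp [S.v_one]
  | succ m ih =>
    rw [pow_succ, S.coc, ih, map_pow, hy, one_pow, Module.End.one_apply]
    push_cast
    rw [add_smul, one_smul]

private theorem g4_val (S : Sys g n k V) {y : F g n} (hy : S.ρ y = 1) (t : F g n) (m : ℕ) :
    S.v (y ^ m * t * (y ^ m)⁻¹) = S.v t + (m : k) • (S.v y - S.ρ t (S.v y)) ∧
      S.ρ (y ^ m * t * (y ^ m)⁻¹) = S.ρ t := by
  have h1 : S.ρ (y ^ m) = 1 := by rw [map_pow, hy, one_pow]
  have h2 : S.ρ (y ^ m)⁻¹ = 1 := by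
    have h3 : S.ρ (y ^ m)⁻¹ * S.ρ (y ^ m) = 1 := by
      rw [← map_mul, inv_mul_cancel, map_one]
    rwa [h1, mul_one] at h3
  constructor
  · rw [S.coc, S.coc, map_mul, h1, one_mul, Module.End.one_apply, S.v_inv, h2,
      Module.End.one_apply, g4_vpow S hy, map_neg, map_smul, smul_sub]
    abel
  · rw [map_mul, map_mul, h1, h2, one_mul, mul_one]

end G4

theorem st_G4 (hP : St_Push) (h1 : St_G1) : St_G4 := by
  intro g n k _ _ V _ _ S hg hd y hy hρ
  have hN : ∀ q ∈ NN g n, S.ρ q = 1 ∧ S.v q = 0 := fun q hq => h1 S hg hd q (g4_NN_le hq)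
  obtain ⟨φ, hφ, hf1, hf0, hfz, hfN⟩ := hP y hg hy
  obtain ⟨T, hT, horb⟩ := S.orb
  have hM : ∀ m : ℕ, φ ^ m ∈ MCG g n := fun m => (MCG g n).pow_mem hφ m
  choose s hs u hu using fun m : ℕ => horb (φ ^ m) (hM m)
  have : Finite T := hT
  obtain ⟨m, m', hne, heq⟩ :=
    Finite.exists_ne_map_eq_of_infinite (fun m : ℕ => (⟨s m, hs m⟩ : T))
  have heq' : s m = s m' := congrArg Subtype.val heq
  have hmm : ((m : k) - (m' : k)) ≠ 0 := by
    intro h0
    apply hne
    exact_mod_cast sub_eq_zero.mp h0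
  -- the comparison
  have hcmp : ∀ x, S.v ((φ ^ m) x) - (S.ρ ((φ ^ m) x) (u m) - u m) =
      S.v ((φ ^ m') x) - (S.ρ ((φ ^ m') x) (u m') - u m') := by
    intro x
    rw [hu m x, hu m' x, heq']
    abel
  have hfix : ∀ x, φ x = x → ∀ j : ℕ, (φ ^ j) x = x := by
    intro x hx j
    induction j with
    | zero => rfl
    | succ j ih => rw [pow_succ', MulAut.mul_apply, ih, hx]
  -- the second handle
  have hw1 : ∀ x, φ x = x → S.ρ x (u m - u m') = u m - u m' := by
    intro x hx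
    have h2 := hcmp x
    rw [hfix x hx m, hfix x hx m'] at h2
    rw [map_sub]
    have h3 : S.ρ x (u m) - u m = S.ρ x (u m') - u m' := by
      have h4 : S.v x - (S.ρ x (u m) - u m) = S.v x - (S.ρ x (u m') - u m') := h2
      exact sub_right_injective h4
    have h5 : S.ρ x (u m) = S.ρ x (u m') - u m' + u m := by
      rw [← h3]
      abel
    rw [h5]
    abel
  -- the first handle
  have hw0 : ∀ t, (y * t * y⁻¹)⁻¹ * φ t ∈ NN g n →
      S.ρ t (((m : k) - (m' : k)) • S.v y + (u m - u m')) =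
        ((m : k) - (m' : k)) • S.v y + (u m - u m') := by
    intro t ht
    have h2 := hcmp t
    have a1 := g4_eq S hN (g4_pow (hfz y hy) ht hfN m)
    have a2 := g4_eq S hN (g4_pow (hfz y hy) ht hfN m')
    have b1 := g4_val S hρ t m
    have b2 := g4_val S hρ t m'
    rw [a1.1, a1.2, a2.1, a2.2, b1.1, b1.2, b2.1, b2.2] at h2
    rw [map_add, map_smul, map_sub, sub_smul, sub_smul]
    rw [smul_sub, smul_sub] at h2
    have h3 : (m : k) • S.ρ t (S.v y) - (m' : k) • S.ρ t (S.v y) +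
        (S.ρ t (u m) - S.ρ t (u m')) - ((m : k) • S.v y - (m' : k) • S.v y + (u m - u m')) =
        (S.v t + ((m' : k) • S.v y - (m' : k) • S.ρ t (S.v y)) - (S.ρ t (u m') - u m')) -
        (S.v t + ((m : k) • S.v y - (m : k) • S.ρ t (S.v y)) - (S.ρ t (u m) - u m)) := by
      abel
    rw [← sub_eq_zero, h3, h2, sub_self]
  refine ⟨((m : k) - (m' : k))⁻¹ • (((m : k) - (m' : k)) • S.v y + (u m - u m')),
    -(((m : k) - (m' : k))⁻¹ • (u m - u m')), ?_, ?_, ?_⟩
  · rw [smul_add, smul_smul, inv_mul_cancel₀ hmm, one_smul]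
    abel
  · intro i hi
    obtain ⟨ha, hb⟩ := hf0 i hi
    constructor
    · rw [map_smul, hw0 _ ha]
    · rw [map_smul, hw0 _ hb]
  · intro i hi
    obtain ⟨ha, hb⟩ := hf1 i hi
    constructor
    · rw [map_neg, map_smul, hw1 _ ha]
    · rw [map_neg, map_smul, hw1 _ hb]

end Pool.Agent.PWM
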