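import Pool.Agent.PWM.StB

/-!
# G5 : flat block: v(y) fixed by F_E

Proof (paper 6, G5).  Suppose z = ρ t (v y) - v y ≠ 0 for some t ∈ Bk g n 0 2.  hS S.ρ (Bk g n 0 2) (commuting on Bk because ρ = 1 on commutators): l, ν with l (ρ x w) = ν x l w (x ∈ Bk), l z ≠ 0; so (ν t - 1) l (v y) ≠ 0: ν t ≠ 1 and l (v y) ≠ 0.  ν ∘ blk 2 g n 0 is a hom F 2 0 →* kˣ (ν is multiplicative and nonzero on Bk
since l ≠ 0; build it: define it on letters by FreeGroup.lift or by MonoidHom.mk'), nontrivial (blk_range, t).  hT: ψ ∈ MCGd 2; exists_blkExt: Ψ with Ψ (blk x) = blk (ψ x), fixing Fge g n 2 (BlkExt.fix_ge).  h4 for S.comp Ψ (PWM/Ops; hypothesis: ρ (Ψ d) = 1 for d ∈ DB: Ψ maps Bk to Bk) and y (Ψ y = y): v y = w0 + w1,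
w0 fixed by ρ (Ψ (ga i)), ρ (Ψ (gb i)) (i = 0), w1 for i = 1.  l w0 = ν(..) l w0 for both letters, one ν(..) ≠ 1: l w0 = 0; same l w1 = 0.  So l (v y) = 0, contradiction.
-/

namespace Pool.Agent.PWM

open Pool.Agent.PW

theorem st_G5 (hB : St_Blk) (hT : St_Two) (hS : St_Sep) (h4 : St_G4) : St_G5 := by
  intro g n k _ _ V _ _ S hg hD y hy hy1 t ht
  by_contra hne
  have hz : S.ρ t (S.v y) - S.v y ≠ 0 := sub_ne_zero.mpr hne
  have hcomm : ∀ a ∈ Bk g n 0 2, ∀ b ∈ Bk g n 0 2, S.ρ a * S.ρ b = S.ρ b * S.ρ a := by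
    intro a ha b hb
    have h1 : S.ρ (cm a b) = 1 := hD _ (Subgroup.commutator_mem_commutator ha hb)
    have e : a * b = cm a b * (b * a) := by
      unfold cm
      group
    rw [← map_mul, e, map_mul, h1, one_mul, map_mul]
  obtain ⟨l, ν, hl, hlz⟩ := hS S.ρ (Bk g n 0 2) S.fin hcomm S.roots _ hz
  have hm : 0 + 2 ≤ g := by omega
  -- the functional does not vanish on `v y`
  have hly : (ν t - 1) * l (S.v y) ≠ 0 := by
    have e : l (S.ρ t (S.v y) - S.v y) = (ν t - 1) * l (S.v y) := by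
      rw [map_sub, hl t ht]
      ring
    rw [← e]
    exact hlz
  have hνt : ν t ≠ 1 := by
    intro h
    apply hly
    rw [h, sub_self, zero_mul]
  have hlv : l (S.v y) ≠ 0 := right_ne_zero_of_mul hly
  have hνmul : ∀ a ∈ Bk g n 0 2, ∀ b ∈ Bk g n 0 2, ν (a * b) = ν a * ν b := by
    intro a ha b hb
    have h1 := hl (a * b) (Subgroup.mul_mem _ ha hb) (S.v y)
    rw [map_mul, Module.End.mul_apply, hl a ha, hl b hb, ← mul_assoc] at h1
    exact (mul_right_cancel₀ hlv h1).symm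
  have hν1 : ν 1 = 1 := by
    have h1 := hl 1 (Subgroup.one_mem _) (S.v y)
    rw [map_one, Module.End.one_apply] at h1
    exact (mul_right_cancel₀ hlv (by rw [one_mul]; exact h1)).symm
  have hν0 : ∀ a ∈ Bk g n 0 2, ν a ≠ 0 := by
    intro a ha h0
    have h1 := hνmul a ha a⁻¹ (Subgroup.inv_mem _ ha)
    rw [mul_inv_cancel, hν1, h0, zero_mul] at h1
    exact one_ne_zero h1
  have hBm : ∀ x : F 2 0, blk 2 g n 0 hm x ∈ Bk g n 0 2 := by
    intro x
    rw [← blk_range hm]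
    exact ⟨x, rfl⟩
  let N : F 2 0 →* kˣ := MonoidHom.mk' (fun x => Units.mk0 (ν (blk 2 g n 0 hm x)) (hν0 _ (hBm x)))
    (by
      intro a b
      apply Units.ext
      show ν (blk 2 g n 0 hm (a * b)) = ν (blk 2 g n 0 hm a) * ν (blk 2 g n 0 hm b)
      rw [map_mul, hνmul _ (hBm a) _ (hBm b)])
  have hN : ∀ x, ((N x : kˣ) : k) = ν (blk 2 g n 0 hm x) := fun x => rfl
  have hN1 : ∀ x, N x ≠ 1 → ν (blk 2 g n 0 hm x) ≠ 1 := by
    intro x hx h
    apply hx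
    apply Units.ext
    rw [hN, h, Units.val_one]
  have hNne : N ≠ 1 := by
    intro h
    have ht' := ht
    rw [← blk_range hm] at ht'
    obtain ⟨x, hx⟩ := ht'
    apply hνt
    have h1 := hN x
    rw [h] at h1
    rw [← hx, ← h1]
    rfl
  obtain ⟨ψ, hψ, hψ0, hψ1⟩ := hT N hNne
  obtain ⟨Ψ, hΨ, hΨb⟩ := exists_blkExt (n := n) hB hm hψ
  have hΨy : Ψ y = y := hΨ.fix_ge (by omega) hy
  have hD' : ∀ d ∈ DB g n 0 2, (S.comp hΨ.1).ρ d = 1 := by
    intro d hd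
    show S.ρ (Ψ d) = 1
    obtain ⟨x, hx, rfl⟩ := (mem_blk_DD hm).mp hd
    rw [hΨb]
    exact hD _ ((mem_blk_DD hm).mpr ⟨ψ x, map_aut_mem ψ hx, rfl⟩)
  obtain ⟨w0, w1, hv, h0, h1⟩ := h4 (S.comp hΨ.1) hg hD' y hy (by
    show S.ρ (Ψ y) = 1
    rw [hΨy, hy1])
  have hv' : S.v y = w0 + w1 := by
    have : S.v (Ψ y) = w0 + w1 := hv
    rwa [hΨy] at this
  have key : ∀ (x : F 2 0) (w : V), N (ψ x) ≠ 1 → S.ρ (Ψ (blk 2 g n 0 hm x)) w = w → l w = 0 := by
    intro x w hx hw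
    rw [hΨb] at hw
    have h2 := hl _ (hBm (ψ x)) w
    rw [hw] at h2
    have h3 : (ν (blk 2 g n 0 hm (ψ x)) - 1) * l w = 0 := by
      rw [sub_mul, ← h2, one_mul, sub_self]
    rcases mul_eq_zero.mp h3 with h | h
    · exact absurd (sub_eq_zero.mp h) (hN1 _ hx)
    · exact h
  have hl0 : l w0 = 0 := by
    rcases hψ0 with h | h
    · refine key (ga 0) w0 h ?_
      rw [blk_a]
      exact (h0 _ (by simp)).1
    · refine key (gb 0) w0 h ?_
      rw [blk_b]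
      exact (h0 _ (by simp)).2
  have hl1 : l w1 = 0 := by
    rcases hψ1 with h | h
    · refine key (ga 1) w1 h ?_
      rw [blk_a]
      exact (h1 _ (by simp)).1
    · refine key (gb 1) w1 h ?_
      rw [blk_b]
      exact (h1 _ (by simp)).2
  apply hlv
  rw [hv', map_add, hl0, hl1, add_zero]

end Pool.Agent.PWM
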