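import Pool.Agent.PWM.StB

/-!
# G7 : flat block: v = 0 on the elements of F_Z with trivial operator

Proof (paper 6, G6, G7).  Let Y = {v y | y ∈ Fge g n 2, ρ y = 1}.  For every x : F g n, ρ x maps Y into Y: x ∈ Fge: ρ x (v y) = v (x y x⁻¹); x ∈ Bk g n 0 2: fixed (h5); Bk ⊔ Fge = ⊤ (Flt_sup_Fge, Flt_eq), closure induction with inverses.  So every v y ∈ Y is fixed by ρ (x t x⁻¹), t ∈ Bk: fixed by ρ of the normal closure Q of Bk g n 0 2.
Let m : V →ₗ[k] k be invariant under ρ(Q) (m (ρ q u) = m u).  m ∘ v is additive on Q and m (v (x t x⁻¹)) = m (v x + ρ x (v t) - ρ(x t x⁻¹) (v x)) = 0 (v t = 0); so m v = 0 on Q.  y ∈ Fge, ρ y = 1: `pushable_eq` (PW/Central.lean; y ∈ away z, z = handle 0) gives φ ∈ MCG (Mild) with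
qa (φ (gb z)) = qa (y * gb z), so φ (gb z) = y * q with q ∈ Q (normal closure of ga z is in Q; y gb z n = y q).  S.kill φ z: M > 0 with v ((y q)^M) = 0.  On the subgroup generated by y and Q, m is invariant (ρ y = 1), m v is additive: 0 = m (v ((yq)^M)) = M (m (v y) + m (v q)) = M m (v y).
So m (v y) = 0 for all invariant m.  If v y ≠ 0 take m0 with m0 (v y) ≠ 0 and m = Σ over the finite set R = ρ '' Q of m0 ∘ r (R is closed under multiplication by ρ q from the right, bijectively): m is invariant and m (v y) = card R * m0 (v y) ≠ 0.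
-/

namespace Pool.Agent.PWM

open Pool.Agent.PW

section G7

variable {g n : ℕ} {k : Type} [Field k] {V : Type} [AddCommGroup V] [Module k V]

private theorem g7_cj (S : Sys g n k V) (x : F g n) {y : F g n} (hy : S.ρ y = 1) :
    S.v (x * y * x⁻¹) = S.ρ x (S.v y) := by
  rw [S.coc, S.coc, map_mul, hy, mul_one, S.ρ_v_inv]
  abel

/-- The operators permute the values at the elements with trivial operator. -/
private theorem g7_perm (S : Sys g n k V)
    (h5 : ∀ y ∈ Fge g n 2, S.ρ y = 1 → ∀ t ∈ Bk g n 0 2, S.ρ t (S.v y) = S.v y) (x : F g n) :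
    ∀ y ∈ Fge g n 2, S.ρ y = 1 → ∃ y' ∈ Fge g n 2, S.ρ y' = 1 ∧ S.ρ x (S.v y) = S.v y' := by
  let P : Subgroup (F g n) :=
    { carrier := {x | (∀ y ∈ Fge g n 2, S.ρ y = 1 →
          ∃ y' ∈ Fge g n 2, S.ρ y' = 1 ∧ S.ρ x (S.v y) = S.v y') ∧
        (∀ y ∈ Fge g n 2, S.ρ y = 1 →
          ∃ y' ∈ Fge g n 2, S.ρ y' = 1 ∧ S.ρ x⁻¹ (S.v y) = S.v y')}
      one_mem' := by
        constructor
        · intro y hy h
          exact ⟨y, hy, h, by rw [map_one, Module.End.one_apply]⟩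
        · intro y hy h
          exact ⟨y, hy, h, by rw [inv_one, map_one, Module.End.one_apply]⟩
      mul_mem' := by
        rintro a b ⟨ha, ha'⟩ ⟨hb, hb'⟩
        constructor
        · intro y hy h
          obtain ⟨y1, h1, h2, h3⟩ := hb y hy h
          obtain ⟨y2, h4, h5, h6⟩ := ha y1 h1 h2
          exact ⟨y2, h4, h5, by rw [map_mul, Module.End.mul_apply, h3, h6]⟩
        · intro y hy h
          obtain ⟨y1, h1, h2, h3⟩ := ha' y hy h
          obtain ⟨y2, h4, h5, h6⟩ := hb' y1 h1 h2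
          exact ⟨y2, h4, h5, by rw [mul_inv_rev, map_mul, Module.End.mul_apply, h3, h6]⟩
      inv_mem' := by
        rintro a ⟨ha, ha'⟩
        refine ⟨ha', ?_⟩
        rw [inv_inv]
        exact ha }
  have hF : Fge g n 2 ≤ P := by
    have key : ∀ x ∈ Fge g n 2, ∀ y ∈ Fge g n 2, S.ρ y = 1 →
        ∃ y' ∈ Fge g n 2, S.ρ y' = 1 ∧ S.ρ x (S.v y) = S.v y' := by
      intro x hx y hy h
      refine ⟨x * y * x⁻¹, (Fge g n 2).mul_mem ((Fge g n 2).mul_mem hx hy)
        ((Fge g n 2).inv_mem hx), ?_, (g7_cj S x h).symm⟩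
      rw [map_mul, map_mul, h, mul_one, ← map_mul, mul_inv_cancel, map_one]
    intro x hx
    exact ⟨key x hx, key x⁻¹ ((Fge g n 2).inv_mem hx)⟩
  have hB : Flt g n 2 ≤ P := by
    rw [Flt_eq]
    intro x hx
    exact ⟨fun y hy h => ⟨y, hy, h, h5 y hy h x hx⟩,
      fun y hy h => ⟨y, hy, h, h5 y hy h x⁻¹ ((Bk g n 0 2).inv_mem hx)⟩⟩
  have htop : (⊤ : Subgroup (F g n)) ≤ P := by
    rw [← Flt_sup_Fge 2]
    exact sup_le hB hF
  exact (htop (Subgroup.mem_top x)).1

/-- The values are fixed by the normal closure of the block. -/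
private theorem g7_fixQ (S : Sys g n k V)
    (h5 : ∀ y ∈ Fge g n 2, S.ρ y = 1 → ∀ t ∈ Bk g n 0 2, S.ρ t (S.v y) = S.v y) :
    ∀ q ∈ Subgroup.normalClosure (Bk g n 0 2 : Set (F g n)), ∀ y ∈ Fge g n 2, S.ρ y = 1 →
      S.ρ q (S.v y) = S.v y := by
  intro q hq y hy h
  unfold Subgroup.normalClosure at hq
  induction hq using Subgroup.closure_induction with
  | mem z hz =>
    rw [Group.mem_conjugatesOfSet_iff] at hz
    obtain ⟨t, ht, hc⟩ := hz
    obtain ⟨c, hc⟩ := isConj_iff.mp hc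
    obtain ⟨y', h1, h2, h3⟩ := g7_perm S h5 c⁻¹ y hy h
    rw [← hc, map_mul, map_mul, Module.End.mul_apply, Module.End.mul_apply, h3,
      h5 y' h1 h2 t ht, ← h3, S.ρ_mul_inv]
  | one => rw [map_one, Module.End.one_apply]
  | mul a b _ _ ha hb => rw [map_mul, Module.End.mul_apply, hb, ha]
  | inv a _ ha =>
    have h1 := S.ρ_inv_mul a (S.v y)
    rwa [ha] at h1

/-- Invariant functionals vanish on the values at the normal closure. -/
private theorem g7_zeroQ (S : Sys g n k V) (hv : ∀ t ∈ Bk g n 0 2, S.v t = 0)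
    (m : V →ₗ[k] k)
    (hm : ∀ q ∈ Subgroup.normalClosure (Bk g n 0 2 : Set (F g n)), ∀ u, m (S.ρ q u) = m u) :
    ∀ q ∈ Subgroup.normalClosure (Bk g n 0 2 : Set (F g n)), m (S.v q) = 0 := by
  have key : Subgroup.normalClosure (Bk g n 0 2 : Set (F g n)) ≤
      ({ carrier := {q | q ∈ Subgroup.normalClosure (Bk g n 0 2 : Set (F g n)) ∧
            m (S.v q) = 0}
         one_mem' := ⟨Subgroup.one_mem _, by rw [S.v_one, map_zero]⟩
         mul_mem' := by
          rintro a b ⟨ha, ha'⟩ ⟨hb, hb'⟩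
          exact ⟨Subgroup.mul_mem _ ha hb, by rw [S.coc, map_add, hm a ha, ha', hb', add_zero]⟩
         inv_mem' := by
          rintro a ⟨ha, ha'⟩
          refine ⟨Subgroup.inv_mem _ ha, ?_⟩
          rw [S.v_inv, map_neg, hm _ (Subgroup.inv_mem _ ha), ha', neg_zero] } :
        Subgroup (F g n)) := by
    conv_lhs => rw [Subgroup.normalClosure]
    rw [Subgroup.closure_le]
    intro z hz
    have hz1 : z ∈ Subgroup.normalClosure (Bk g n 0 2 : Set (F g n)) :=
      Subgroup.conjugatesOfSet_subset_normalClosure hz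
    refine ⟨hz1, ?_⟩
    rw [Group.mem_conjugatesOfSet_iff] at hz
    obtain ⟨t, ht, hc⟩ := hz
    obtain ⟨c, hc⟩ := isConj_iff.mp hc
    have e1 : S.v z = S.v c - S.ρ z (S.v c) := by
      have e2 : S.ρ (c * t) (S.v c⁻¹) = -S.ρ z (S.v c) := by
        have e3 : c * t = z * c := by
          rw [← hc]
          group
        rw [e3, map_mul, Module.End.mul_apply, S.ρ_v_inv, map_neg]
      rw [← hc, S.coc, S.coc, hv t ht, map_zero, add_zero, e2, ← hc]
      abel
    rw [e1, map_sub, hm z hz1, sub_self]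
  exact fun q hq => (key hq).2

private theorem g7_away {z : Fin g} (hz : (z : ℕ) = 0) : Fge g n 2 ≤ away z := by
  unfold Fge
  rw [Subgroup.closure_le]
  rintro x (⟨i, hi, rfl | rfl⟩ | ⟨j, rfl⟩)
  · exact away_a (by rintro rfl; omega)
  · exact away_b (by rintro rfl; omega)
  · exact away_c z j

/-- Invariant functionals vanish at `v y`. -/
private theorem g7_inv [CharZero k] (S : Sys g n k V) (hg : 2 ≤ g)
    (hv : ∀ t ∈ Bk g n 0 2, S.v t = 0) (m : V →ₗ[k] k)
    (hm : ∀ q ∈ Subgroup.normalClosure (Bk g n 0 2 : Set (F g n)), ∀ u, m (S.ρ q u) = m u)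
    {y : F g n} (hy : y ∈ Fge g n 2) (hρ : S.ρ y = 1) : m (S.v y) = 0 := by
  have hQ := g7_zeroQ S hv m hm
  obtain ⟨-, φ, hφ, hqa⟩ := pushable_eq (n := n) (z := (⟨0, by omega⟩ : Fin g)) rfl
    (g7_away rfl hy)
  have hbk : ∀ x ∈ Bk g n 0 2, x ∈ Subgroup.normalClosure (Bk g n 0 2 : Set (F g n)) :=
    fun x hx => Subgroup.subset_normalClosure hx
  obtain ⟨q, hq, he⟩ : ∃ q ∈ Subgroup.normalClosure (Bk g n 0 2 : Set (F g n)),
      φ (gb ⟨0, by omega⟩) = y * q := by
    unfold qa at hqa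
    rw [QuotientGroup.mk'_apply, QuotientGroup.mk'_apply, QuotientGroup.eq] at hqa
    have hle : Subgroup.normalClosure {(ga ⟨0, by omega⟩ : F g n)} ≤
        Subgroup.normalClosure (Bk g n 0 2 : Set (F g n)) := by
      apply Subgroup.normalClosure_mono
      rintro _ rfl
      exact Bk_a (le_refl _) (by simp)
    have h1 := hle hqa
    refine ⟨y⁻¹ * φ (gb ⟨0, by omega⟩), ?_, by group⟩
    have e : y⁻¹ * φ (gb (⟨0, by omega⟩ : Fin g)) =
        gb ⟨0, by omega⟩ * ((φ (gb ⟨0, by omega⟩))⁻¹ * (y * gb ⟨0, by omega⟩))⁻¹ := by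
      group
    rw [e]
    exact Subgroup.mul_mem _ (hbk _ (Bk_b (le_refl _) (by simp))) (Subgroup.inv_mem _ h1)
  obtain ⟨M, hM, -, hvM⟩ := (S.kill φ hφ.1 ⟨0, by omega⟩).2.1
  rw [he] at hvM
  have key : ∀ j : ℕ, m (S.v ((y * q) ^ j)) = j * m (S.v y) := by
    intro j
    induction j with
    | zero => simp [S.v_one]
    | succ j ih =>
      have e1 : S.ρ ((y * q) ^ j) = S.ρ (q ^ j) := by
        rw [map_pow, map_mul, hρ, one_mul, ← map_pow]
      rw [pow_succ, S.coc, map_add, ih, e1, hm _ (Subgroup.pow_mem _ hq j), S.coc, map_add, hρ,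
        Module.End.one_apply, hQ q hq, add_zero]
      push_cast
      ring
  have h2 := key M
  rw [hvM, map_zero] at h2
  have h3 : (M : k) ≠ 0 := by exact_mod_cast hM.ne'
  rcases mul_eq_zero.mp h2.symm with h4 | h4
  · exact absurd h4 h3
  · exact h4

end G7

theorem st_G7 (h1 : St_G1) (h5 : St_G5) : St_G7 := by
  intro g n k _ _ V _ _ S hg hd hv y hy hρ
  have h5' := h5 S hg hd
  by_contra hne
  obtain ⟨m0, hm0⟩ : ∃ m0 : V →ₗ[k] k, m0 (S.v y) ≠ 0 := by
    by_contra hc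
    push Not at hc
    exact hne ((Module.forall_dual_apply_eq_zero_iff k (S.v y)).mp hc)
  have hfin : (S.ρ '' (Subgroup.normalClosure (Bk g n 0 2 : Set (F g n)) :
      Set (F g n))).Finite := S.fin.subset (Set.image_subset_range _ _)
  have hmem : ∀ r, r ∈ hfin.toFinset ↔
      ∃ q ∈ Subgroup.normalClosure (Bk g n 0 2 : Set (F g n)), S.ρ q = r := by
    intro r
    rw [Set.Finite.mem_toFinset]
    rfl
  let m : V →ₗ[k] k := ∑ r ∈ hfin.toFinset, m0 ∘ₗ r
  have hmval : ∀ u, m u = ∑ r ∈ hfin.toFinset, m0 (r u) := by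
    intro u
    show (∑ r ∈ hfin.toFinset, m0 ∘ₗ r) u = _
    rw [LinearMap.sum_apply]
    rfl
  have hm : ∀ q ∈ Subgroup.normalClosure (Bk g n 0 2 : Set (F g n)), ∀ u,
      m (S.ρ q u) = m u := by
    intro q hq u
    rw [hmval, hmval]
    apply Finset.sum_nbij' (fun r => r * S.ρ q) (fun r => r * S.ρ q⁻¹)
    · intro r hr
      obtain ⟨q', hq', rfl⟩ := (hmem r).mp hr
      exact (hmem _).mpr ⟨q' * q, Subgroup.mul_mem _ hq' hq, map_mul _ _ _⟩
    · intro r hr
      obtain ⟨q', hq', rfl⟩ := (hmem r).mp hr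
      exact (hmem _).mpr ⟨q' * q⁻¹, Subgroup.mul_mem _ hq' (Subgroup.inv_mem _ hq),
        map_mul _ _ _⟩
    · intro r _
      show r * S.ρ q * S.ρ q⁻¹ = r
      rw [mul_assoc, ← map_mul, mul_inv_cancel, map_one, mul_one]
    · intro r _
      show r * S.ρ q⁻¹ * S.ρ q = r
      rw [mul_assoc, ← map_mul, inv_mul_cancel, map_one, mul_one]
    · intro r _
      rfl
  have h0 := g7_inv S hg hv m hm hy hρ
  rw [hmval, Finset.sum_congr rfl (g := fun _ => m0 (S.v y)) (by
    intro r hr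
    obtain ⟨q, hq, rfl⟩ := (hmem r).mp hr
    rw [g7_fixQ S h5' q hq y hy hρ]), Finset.sum_const, nsmul_eq_mul] at h0
  have hcard : ((hfin.toFinset.card : ℕ) : k) ≠ 0 := by
    have : 0 < hfin.toFinset.card := Finset.card_pos.mpr
      ⟨1, (hmem 1).mpr ⟨1, Subgroup.one_mem _, map_one _⟩⟩
    exact_mod_cast this.ne'
  rcases mul_eq_zero.mp h0 with h | h
  · exact hcard h
  · exact hm0 h

end Pool.Agent.PWM
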