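import Pool.Agent.PWM.StB

/-!
# GF : Theorem GF from G2, G7, Fix (paper, 6)
-/

namespace Pool.Agent.PWM

open Pool.Agent.PW

variable {g n : ℕ} {k : Type} [Field k] {V : Type} [AddCommGroup V] [Module k V]

/-- The elements of `H` with trivial operator. -/
def GF_Q (S : Sys g n k V) (H : Subgroup (F g n)) : Subgroup (F g n) where
  carrier := {y | y ∈ H ∧ S.ρ y = 1}
  one_mem' := ⟨H.one_mem, map_one _⟩
  mul_mem' := by
    rintro x y ⟨hx, h1⟩ ⟨hy, h2⟩
    exact ⟨H.mul_mem hx hy, by rw [map_mul, h1, h2, one_mul]⟩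
  inv_mem' := by
    rintro x ⟨hx, h1⟩
    refine ⟨H.inv_mem hx, ?_⟩
    have h2 : S.ρ x⁻¹ * S.ρ x = 1 := by rw [← map_mul, inv_mul_cancel, map_one]
    rwa [h1, mul_one] at h2

theorem GF_index (S : Sys g n k V) (H : Subgroup (F g n)) : (GF_Q S H).relIndex H ≠ 0 := by
  have hfin : Finite (Set.range S.ρ) := S.fin
  have : Finite (H ⧸ (GF_Q S H).subgroupOf H) := by
    let F' : H ⧸ (GF_Q S H).subgroupOf H → Set.range S.ρ :=
      Quotient.lift (s := QuotientGroup.leftRel ((GF_Q S H).subgroupOf H))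
        (fun x : H => (⟨S.ρ x, x, rfl⟩ : Set.range S.ρ)) (by
          intro a b hab
          have h1 : a⁻¹ * b ∈ (GF_Q S H).subgroupOf H := QuotientGroup.leftRel_apply.mp hab
          have h2 : S.ρ ((a : F g n)⁻¹ * b) = 1 := (Subgroup.mem_subgroupOf.mp h1).2
          apply Subtype.ext
          show S.ρ (a : F g n) = S.ρ (b : F g n)
          have e : (b : F g n) = a * ((a : F g n)⁻¹ * b) := by group
          rw [e, map_mul, h2, mul_one])
    apply Finite.of_injective F'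
    intro x y hxy
    induction x using Quotient.inductionOn with
    | _ a =>
    induction y using Quotient.inductionOn with
    | _ b =>
    have h1 : S.ρ (a : F g n) = S.ρ (b : F g n) := congrArg Subtype.val hxy
    apply Quotient.sound
    show (QuotientGroup.leftRel ((GF_Q S H).subgroupOf H)).r a b
    rw [QuotientGroup.leftRel_apply, Subgroup.mem_subgroupOf]
    refine ⟨H.mul_mem (H.inv_mem a.2) b.2, ?_⟩
    show S.ρ ((a : F g n)⁻¹ * b) = 1
    rw [map_mul, ← h1, ← map_mul, inv_mul_cancel, map_one]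
  exact Subgroup.index_ne_zero_of_finite

theorem st_GF (hF : St_Fix) (h2 : St_G2) (h7 : St_G7) : St_GF := by
  intro g n k _ _ V _ _ S hg hρ
  obtain ⟨u0, hu0⟩ := h2 S hg hρ
  have hv : ∀ t ∈ Bk g n 0 2, (S.addCob u0).v t = 0 := by
    intro t ht
    show S.v t + (S.ρ t u0 - u0) = 0
    rw [hu0 t ht]
    abel
  have hQ : ∀ y ∈ GF_Q S (Fge g n 2), (S.addCob u0).v y = 0 := fun y hy =>
    h7 (S.addCob u0) hg hρ hv y hy.1 hy.2
  obtain ⟨u1, hu1⟩ := hF (S.addCob u0).ρ (S.addCob u0).v (S.addCob u0).coc (Fge g n 2)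
    (GF_Q S (Fge g n 2)) (fun y hy => hy.1) (GF_index S _) hQ
  refine ⟨u1 + u0, fun y hy => ?_⟩
  have h3 : S.v y + (S.ρ y u0 - u0) = u1 - S.ρ y u1 := hu1 y hy
  rw [map_add, ← sub_eq_zero] at *
  rw [← h3]
  abel

end Pool.Agent.PWM
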