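import Pool.Agent.PWM.StB

/-!
# GFl : Corollary 6.1 (GF for functionals)
-/

namespace Pool.Agent.PWM

open Pool.Agent.PW

variable {g n : ℕ} {k : Type} [Field k] {V : Type} [AddCommGroup V] [Module k V]

/-- The common kernel of the functionals `l ∘ ρ x`. -/
def GFl_W (S : Sys g n k V) (l : V →ₗ[k] k) : Submodule k V where
  carrier := {u | ∀ x, l (S.ρ x u) = 0}
  zero_mem' := fun x => by rw [map_zero, map_zero]
  add_mem' := by
    intro u w hu hw x
    rw [map_add, map_add, hu x, hw x, add_zero]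
  smul_mem' := by
    intro c u hu x
    rw [map_smul, map_smul, hu x, smul_zero]

theorem GFl_W_inv (S : Sys g n k V) (l : V →ₗ[k] k) (x : F g n) :
    ∀ u ∈ GFl_W S l, S.ρ x u ∈ GFl_W S l := by
  intro u hu y
  rw [← Module.End.mul_apply, ← map_mul]
  exact hu (y * x)

theorem GFl_l {S : Sys g n k V} {l : V →ₗ[k] k} {u : V} (hu : u ∈ GFl_W S l) : l u = 0 := by
  have h := hu 1
  rwa [map_one, Module.End.one_apply] at h

theorem st_GFl (h1 : St_G1) (hG : St_GF) : St_GFl := by
  intro g n k _ _ V _ _ S l χ hg hl hflat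
  have hρ : ∀ d ∈ DB g n 0 2, (S.quot (GFl_W S l) (GFl_W_inv S l)).ρ d = 1 := by
    intro d hd
    apply LinearMap.ext
    intro u
    obtain ⟨u, rfl⟩ := (GFl_W S l).mkQ_surjective u
    rw [S.quot_ρ, Module.End.one_apply, ← sub_eq_zero, ← map_sub, Submodule.mkQ_apply,
      Submodule.Quotient.mk_eq_zero]
    intro x
    have e : S.ρ x (S.ρ d u) = S.ρ (x * d * x⁻¹) (S.ρ x u) := by
      rw [← Module.End.mul_apply, ← Module.End.mul_apply, ← map_mul, ← map_mul]
      congr 2
      group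
    rw [map_sub, map_sub, e, hl.eig _ (cj_mem (comm_le _ hd) x), hflat x d hd, one_mul, sub_self]
  constructor
  · obtain ⟨u, hu⟩ := hG (S.quot (GFl_W S l) (GFl_W_inv S l)) hg hρ
    obtain ⟨u, rfl⟩ := (GFl_W S l).mkQ_surjective u
    refine ⟨u, fun y hy => ?_⟩
    have h2 := hu y hy
    rw [S.quot_v, S.quot_ρ, ← map_sub, ← sub_eq_zero, ← map_sub, Submodule.mkQ_apply,
      Submodule.Quotient.mk_eq_zero] at h2
    have h3 := GFl_l h2
    rw [map_sub, map_sub, sub_eq_zero] at h3
    exact h3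
  · intro x d hd
    have h2 := (h1 (S.quot (GFl_W S l) (GFl_W_inv S l)) hg hρ (x * d * x⁻¹)
      (Subgroup.normalClosure_normal.conj_mem d (Subgroup.subset_normalClosure hd) x)).2
    rw [S.quot_v, Submodule.mkQ_apply, Submodule.Quotient.mk_eq_zero] at h2
    exact GFl_l h2

end Pool.Agent.PWM
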