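import Pool.Agent.PWM.StB

/-!
# Gen : generators of the commutator subgroup of a group generated by two subgroups

Proof.  Let `P` be the subgroup generated by `⁅A,A⁆`, `⁅B,B⁆` and all `cm u c` (`u ∈ A`, `c ∈ B`);
`P ≤ C`.  `P` is normalised by `A` and `B`, so it is normal, and `G ⧸ P` is commutative.
-/

namespace Pool.Agent.PWM

open Pool.Agent.PW

private def genP {G : Type} [Group G] (A B : Subgroup G) : Subgroup G :=
  Subgroup.closure (((⁅A, A⁆ : Subgroup G) : Set G) ∪ ((⁅B, B⁆ : Subgroup G) : Set G) ∪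
    {x | ∃ u ∈ A, ∃ c ∈ B, x = cm u c})

private theorem gen_A {G : Type} [Group G] {A B : Subgroup G} {x : G} (hx : x ∈ ⁅A, A⁆) :
    x ∈ genP A B := Subgroup.subset_closure (Or.inl (Or.inl hx))

private theorem gen_B {G : Type} [Group G] {A B : Subgroup G} {x : G} (hx : x ∈ ⁅B, B⁆) :
    x ∈ genP A B := Subgroup.subset_closure (Or.inl (Or.inr hx))

private theorem gen_cm {G : Type} [Group G] {A B : Subgroup G} {u c : G} (hu : u ∈ A)
    (hc : c ∈ B) : cm u c ∈ genP A B := Subgroup.subset_closure (Or.inr ⟨u, hu, c, hc, rfl⟩)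

private theorem gen_le {G : Type} [Group G] (A : Subgroup G) : ⁅A, A⁆ ≤ A := by
  rw [Subgroup.commutator_le]
  intro x hx y hy
  exact A.mul_mem (A.mul_mem (A.mul_mem hx hy) (A.inv_mem hx)) (A.inv_mem hy)

private theorem gen_nA {G : Type} [Group G] {A B : Subgroup G} {u : G} (hu : u ∈ A) {x : G}
    (hx : x ∈ genP A B) : u * x * u⁻¹ ∈ genP A B := by
  have key : genP A B ≤ (genP A B).comap (MulAut.conj u).toMonoidHom := by
    conv_lhs => unfold genP
    rw [Subgroup.closure_le]
    rintro x ((hx | hx) | ⟨u', hu', c, hc, rfl⟩)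
    · show u * x * u⁻¹ ∈ genP A B
      have h1 : u * x * u⁻¹ = (u * x * u⁻¹ * x⁻¹) * x := by group
      have h2 : u * x * u⁻¹ * x⁻¹ ∈ ⁅A, A⁆ := Subgroup.commutator_mem_commutator hu (gen_le A hx)
      rw [h1]
      exact (genP A B).mul_mem (gen_A h2) (gen_A hx)
    · show u * x * u⁻¹ ∈ genP A B
      have h1 : u * x * u⁻¹ = cm u x * x := by
        unfold cm
        group
      rw [h1]
      exact (genP A B).mul_mem (gen_cm hu (gen_le B hx)) (gen_B hx)
    · show u * cm u' c * u⁻¹ ∈ genP A B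
      have h1 : u * cm u' c * u⁻¹ = cm (u * u') c * (cm u c)⁻¹ := by
        unfold cm
        group
      rw [h1]
      exact (genP A B).mul_mem (gen_cm (A.mul_mem hu hu') hc)
        ((genP A B).inv_mem (gen_cm hu hc))
  exact key hx

private theorem gen_nB {G : Type} [Group G] {A B : Subgroup G} {c : G} (hc : c ∈ B) {x : G}
    (hx : x ∈ genP A B) : c * x * c⁻¹ ∈ genP A B := by
  have key : genP A B ≤ (genP A B).comap (MulAut.conj c).toMonoidHom := by
    conv_lhs => unfold genP
    rw [Subgroup.closure_le]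
    rintro x ((hx | hx) | ⟨u, hu, c', hc', rfl⟩)
    · show c * x * c⁻¹ ∈ genP A B
      have h1 : c * x * c⁻¹ = (cm x c)⁻¹ * x := by
        unfold cm
        group
      rw [h1]
      exact (genP A B).mul_mem ((genP A B).inv_mem (gen_cm (gen_le A hx) hc)) (gen_A hx)
    · show c * x * c⁻¹ ∈ genP A B
      have h1 : c * x * c⁻¹ = (c * x * c⁻¹ * x⁻¹) * x := by group
      have h2 : c * x * c⁻¹ * x⁻¹ ∈ ⁅B, B⁆ := Subgroup.commutator_mem_commutator hc (gen_le B hx)
      rw [h1]
      exact (genP A B).mul_mem (gen_B h2) (gen_B hx)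
    · show c * cm u c' * c⁻¹ ∈ genP A B
      have h1 : c * cm u c' * c⁻¹ = (cm u c)⁻¹ * cm u (c * c') := by
        unfold cm
        group
      rw [h1]
      exact (genP A B).mul_mem ((genP A B).inv_mem (gen_cm hu hc)) (gen_cm hu (B.mul_mem hc hc'))
  exact key hx

private theorem gen_normal {G : Type} [Group G] {A B : Subgroup G} (h : A ⊔ B = ⊤) :
    (genP A B).Normal := by
  have key : ∀ (K : Subgroup G), (∀ u ∈ K, ∀ x ∈ genP A B, u * x * u⁻¹ ∈ genP A B) →
      K ≤ Subgroup.normalizer (genP A B) := by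
    intro K hK u hu
    rw [Subgroup.mem_normalizer_iff]
    intro x
    refine ⟨hK u hu x, fun hx => ?_⟩
    have h1 := hK u⁻¹ (K.inv_mem hu) _ hx
    have h2 : u⁻¹ * (u * x * u⁻¹) * u⁻¹⁻¹ = x := by group
    rwa [h2] at h1
  have h1 : Subgroup.normalizer (genP A B) = (⊤ : Subgroup G) := by
    rw [eq_top_iff, ← h]
    exact sup_le (key A fun u hu x hx => gen_nA hu hx) (key B fun u hu x hx => gen_nB hu hx)
  exact Subgroup.normalizer_eq_top_iff.mp h1

theorem st_Gen : St_Gen := by
  intro G _ A B C htop hA hB hAB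
  have hP : genP A B ≤ C := by
    unfold genP
    rw [Subgroup.closure_le]
    rintro x ((hx | hx) | ⟨u, hu, c, hc, rfl⟩)
    · exact hA hx
    · exact hB hx
    · exact hAB u hu c hc
  refine le_trans ?_ hP
  have : (genP A B).Normal := gen_normal htop
  set π := QuotientGroup.mk' (genP A B) with hπ
  have hcomm : ∀ x y : G, x * y * x⁻¹ * y⁻¹ ∈ genP A B → π x * π y = π y * π x := by
    intro x y h
    have h1 : π (x * y * x⁻¹ * y⁻¹) = 1 := (QuotientGroup.eq_one_iff _).mpr h
    rw [map_mul, map_mul, map_mul, map_inv, map_inv] at h1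
    have h2 : π x * π y * (π x)⁻¹ * (π y)⁻¹ = 1 := h1
    calc π x * π y = (π x * π y * (π x)⁻¹ * (π y)⁻¹) * (π y * π x) := by group
      _ = π y * π x := by rw [h2, one_mul]
  have hAA : ∀ x ∈ A, ∀ y ∈ A, π x * π y = π y * π x := fun x hx y hy =>
    hcomm x y (gen_A (Subgroup.commutator_mem_commutator hx hy))
  have hBB : ∀ x ∈ B, ∀ y ∈ B, π x * π y = π y * π x := fun x hx y hy =>
    hcomm x y (gen_B (Subgroup.commutator_mem_commutator hx hy))
  have hAB' : ∀ x ∈ A, ∀ y ∈ B, π x * π y = π y * π x := fun x hx y hy =>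
    hcomm x y (gen_cm hx hy)
  have h1 : ∀ y : G, (∀ x ∈ A, π x * π y = π y * π x) → (∀ x ∈ B, π x * π y = π y * π x) →
      ∀ x, π x * π y = π y * π x := by
    intro y ha hb x
    have h2 : (⊤ : Subgroup G) ≤ (Subgroup.centralizer {π y}).comap π := by
      rw [← htop]
      refine sup_le (fun x hx => ?_) (fun x hx => ?_)
      · rw [Subgroup.mem_comap, Subgroup.mem_centralizer_singleton_iff]
        exact ha x hx
      · rw [Subgroup.mem_comap, Subgroup.mem_centralizer_singleton_iff]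
        exact hb x hx
    have h3 := h2 (Subgroup.mem_top x)
    rw [Subgroup.mem_comap, Subgroup.mem_centralizer_singleton_iff] at h3
    exact h3
  have h2 : ∀ y ∈ A, ∀ x, π x * π y = π y * π x := fun y hy =>
    h1 y (fun x hx => hAA x hx y hy) (fun x hx => (hAB' y hy x hx).symm)
  have h3 : ∀ y ∈ B, ∀ x, π x * π y = π y * π x := fun y hy =>
    h1 y (fun x hx => hAB' x hx y hy) (fun x hx => hBB x hx y hy)
  have h4 : ∀ y x, π x * π y = π y * π x := fun y =>
    h1 y (fun x hx => (h2 x hx y).symm) (fun x hx => (h3 x hx y).symm)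
  rw [commutator_def, Subgroup.commutator_le]
  intro x _ y _
  show x * y * x⁻¹ * y⁻¹ ∈ genP A B
  rw [← QuotientGroup.eq_one_iff]
  show π (x * y * x⁻¹ * y⁻¹) = 1
  rw [map_mul, map_mul, map_mul, map_inv, map_inv, h4 y x]
  group

end Pool.Agent.PWM
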