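import Pool.Agent.PWM.StB

/-!
# GrpC : the grouping of Lemma C

Construction.  ι = lift: ga 0, ga 1 ↦ ga m, ga (m+1) (same gb);
gc 0 ↦ seg g n (m+2) (g-(m+2)) * cseg g n 0 n; gc 1 ↦ dl 0; gc 2 ↦ dl 1; gc 3 ↦ seg g n 2 (m-2).
-/

namespace Pool.Agent.PWM

open Pool.Agent.PW

/-- the number of the marked point of a handle -/
private def grpCk (m i : ℕ) : Fin 4 :=
  if i = 0 then 1 else if i = 1 then 2 else if i < m then 3 else 0

private def grpCf {g n : ℕ} (m : ℕ) : Gen g n → Gen 2 4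
  | Gen.a i => if (i : ℕ) = m then Gen.a 0 else if (i : ℕ) = m + 1 then Gen.a 1 else
      Gen.c (grpCk m i)
  | Gen.b i => if (i : ℕ) = m then Gen.b 0 else if (i : ℕ) = m + 1 then Gen.b 1 else
      Gen.c (grpCk m i)
  | Gen.c _ => Gen.c 0

private theorem grpCf_ga {g n : ℕ} (m : ℕ) (i : Fin g) :
    grpCf m (Gen.a i : Gen g n) = if (i : ℕ) = m then Gen.a 0 else
      if (i : ℕ) = m + 1 then Gen.a 1 else Gen.c (grpCk m i) := rfl

private theorem grpCf_gb {g n : ℕ} (m : ℕ) (i : Fin g) :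
    grpCf m (Gen.b i : Gen g n) = if (i : ℕ) = m then Gen.b 0 else
      if (i : ℕ) = m + 1 then Gen.b 1 else Gen.c (grpCk m i) := rfl

private theorem grpCf_gc {g n : ℕ} (m : ℕ) (i : Fin n) :
    grpCf m (Gen.c i : Gen g n) = Gen.c 0 := rfl

private def grpCe {g m : ℕ} (hm : m + 2 ≤ g) (i : Fin 2) : Fin g := ⟨m + i, by omega⟩

private def grpCc (g n m : ℕ) (j : Fin 4) : F g n :=
  if (j : ℕ) = 0 then seg g n (m + 2) (g - (m + 2)) * cseg g n 0 n
  else if (j : ℕ) = 1 then hd g n 0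
  else if (j : ℕ) = 2 then hd g n 1
  else seg g n 2 (m - 2)

private def grpCι {g n m : ℕ} (hm : m + 2 ≤ g) : F 2 4 →* F g n :=
  FreeGroup.lift fun x => match x with
    | Gen.a i => ga (grpCe hm i)
    | Gen.b i => gb (grpCe hm i)
    | Gen.c j => grpCc g n m j

section

variable {g n m : ℕ} (hm : m + 2 ≤ g)

private theorem grpCι_a (i : Fin 2) : grpCι (n := n) hm (ga i) = ga (grpCe hm i) := by
  unfold grpCι
  rw [ga, FreeGroup.lift_apply_of]

private theorem grpCι_b (i : Fin 2) : grpCι (n := n) hm (gb i) = gb (grpCe hm i) := by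
  unfold grpCι
  rw [gb, FreeGroup.lift_apply_of]

private theorem grpCι_c (j : Fin 4) : grpCι (n := n) hm (gc j) = grpCc g n m j := by
  unfold grpCι
  rw [gc, FreeGroup.lift_apply_of]

private theorem grpCf_a (h2 : 2 ≤ m) (y : Gen g n) (i : Fin 2) :
    grpCf m y = Gen.a i ↔ y = Gen.a (grpCe hm i) := by
  cases y with
  | a j =>
    rw [grpCf_ga]
    rcases Fin.exists_fin_two.mp ⟨i, rfl⟩ with rfl | rfl
    · split_ifs with h h'
      · refine ⟨fun _ => ?_, fun _ => rfl⟩
        congr 1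
        exact Fin.ext h
      · refine ⟨fun h3 => ?_, fun h3 => ?_⟩
        · simp at h3
        · have h4 := congrArg Fin.val (Gen.a.inj h3)
          exact absurd h4 h
      · refine ⟨fun h3 => ?_, fun h3 => ?_⟩
        · simp at h3
        · have h4 := congrArg Fin.val (Gen.a.inj h3)
          exact absurd h4 h
    · split_ifs with h h'
      · refine ⟨fun h3 => ?_, fun h3 => ?_⟩
        · simp at h3
        · have h4 : (j : ℕ) = m + 1 := congrArg Fin.val (Gen.a.inj h3)
          omega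
      · refine ⟨fun _ => ?_, fun _ => rfl⟩
        congr 1
        exact Fin.ext h'
      · refine ⟨fun h3 => ?_, fun h3 => ?_⟩
        · simp at h3
        · have h4 : (j : ℕ) = m + 1 := congrArg Fin.val (Gen.a.inj h3)
          exact absurd h4 h'
  | b j =>
    rw [grpCf_gb]
    refine ⟨fun h3 => ?_, fun h3 => ?_⟩
    · split_ifs at h3
    · simp at h3
  | c j =>
    rw [grpCf_gc]
    refine ⟨fun h3 => ?_, fun h3 => ?_⟩ <;> simp at h3

private theorem grpCf_b (h2 : 2 ≤ m) (y : Gen g n) (i : Fin 2) :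
    grpCf m y = Gen.b i ↔ y = Gen.b (grpCe hm i) := by
  cases y with
  | b j =>
    rw [grpCf_gb]
    rcases Fin.exists_fin_two.mp ⟨i, rfl⟩ with rfl | rfl
    · split_ifs with h h'
      · refine ⟨fun _ => ?_, fun _ => rfl⟩
        congr 1
        exact Fin.ext h
      · refine ⟨fun h3 => ?_, fun h3 => ?_⟩
        · simp at h3
        · have h4 := congrArg Fin.val (Gen.b.inj h3)
          exact absurd h4 h
      · refine ⟨fun h3 => ?_, fun h3 => ?_⟩
        · simp at h3
        · have h4 := congrArg Fin.val (Gen.b.inj h3)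
          exact absurd h4 h
    · split_ifs with h h'
      · refine ⟨fun h3 => ?_, fun h3 => ?_⟩
        · simp at h3
        · have h4 : (j : ℕ) = m + 1 := congrArg Fin.val (Gen.b.inj h3)
          omega
      · refine ⟨fun _ => ?_, fun _ => rfl⟩
        congr 1
        exact Fin.ext h'
      · refine ⟨fun h3 => ?_, fun h3 => ?_⟩
        · simp at h3
        · have h4 : (j : ℕ) = m + 1 := congrArg Fin.val (Gen.b.inj h3)
          exact absurd h4 h'
  | a j =>
    rw [grpCf_ga]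
    refine ⟨fun h3 => ?_, fun h3 => ?_⟩
    · split_ifs at h3
    · simp at h3
  | c j =>
    rw [grpCf_gc]
    refine ⟨fun h3 => ?_, fun h3 => ?_⟩ <;> simp at h3

/-- the letters which go to the marked point `j` -/
private def grpCS (g n m : ℕ) (j : Fin 4) : Subgroup (F g n) :=
  Subgroup.closure {x : F g n | ∃ y, grpCf m y = Gen.c j ∧ x = FreeGroup.of y}

private theorem grpC_ab {i : Fin g} {j : Fin 4} (h1 : (i : ℕ) ≠ m) (h2 : (i : ℕ) ≠ m + 1)
    (h3 : grpCk m i = j) : (ga i : F g n) ∈ grpCS g n m j ∧ (gb i : F g n) ∈ grpCS g n m j := by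
  constructor
  · refine Subgroup.subset_closure ⟨Gen.a i, ?_, rfl⟩
    rw [grpCf_ga, if_neg h1, if_neg h2, h3]
  · refine Subgroup.subset_closure ⟨Gen.b i, ?_, rfl⟩
    rw [grpCf_gb, if_neg h1, if_neg h2, h3]

private theorem grpC_hd {i : ℕ} {j : Fin 4} (h1 : i ≠ m) (h2 : i ≠ m + 1)
    (h3 : grpCk m i = j) : hd g n i ∈ grpCS g n m j := by
  unfold hd
  split_ifs with h
  · obtain ⟨ha, hb⟩ := grpC_ab (g := g) (n := n) (i := ⟨i, h⟩) h1 h2 h3
    exact Subgroup.mul_mem _ (Subgroup.mul_mem _ (Subgroup.mul_mem _ ha hb)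
      (Subgroup.inv_mem _ ha)) (Subgroup.inv_mem _ hb)
  · exact Subgroup.one_mem _

private theorem grpC_mem (h2 : 2 ≤ m) (j : Fin 4) : grpCc g n m j ∈ grpCS g n m j := by
  fin_cases j
  · show seg g n (m + 2) (g - (m + 2)) * cseg g n 0 n ∈ grpCS g n m 0
    refine Subgroup.mul_mem _ (seg_mem fun i hi _ => ?_) (cseg_mem fun i _ _ => ?_)
    · refine grpC_ab (by omega) (by omega) ?_
      unfold grpCk
      rw [if_neg (by omega), if_neg (by omega), if_neg (by omega)]
    · exact Subgroup.subset_closure ⟨Gen.c i, rfl, rfl⟩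
  · show hd g n 0 ∈ grpCS g n m 1
    refine grpC_hd (by omega) (by omega) ?_
    unfold grpCk
    rw [if_pos rfl]
  · show hd g n 1 ∈ grpCS g n m 2
    refine grpC_hd (by omega) (by omega) ?_
    unfold grpCk
    rw [if_neg (by omega), if_pos rfl]
  · show seg g n 2 (m - 2) ∈ grpCS g n m 3
    refine seg_mem fun i hi hi' => ?_
    refine grpC_ab (by omega) (by omega) ?_
    unfold grpCk
    rw [if_neg (by omega), if_neg (by omega), if_pos (by omega)]

private theorem grpC_bd (h2 : 2 ≤ m) : grpCι (n := n) hm (bdry 2 4) =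
    hd g n m * hd g n (m + 1) * (seg g n (m + 2) (g - (m + 2)) * cseg g n 0 n) * hd g n 0 *
      hd g n 1 * seg g n 2 (m - 2) := by
  have h3 : hd g n m = cm (ga (grpCe hm 0)) (gb (grpCe hm 0)) := hd_fin (grpCe hm 0)
  have h4 : hd g n (m + 1) = cm (ga (grpCe hm 1)) (gb (grpCe hm 1)) := hd_fin (grpCe hm 1)
  have h5 : bdry 2 4 = cm (ga 0) (gb 0) * cm (ga 1) (gb 1) * gc 0 * gc 1 * gc 2 * gc 3 := by
    unfold bdry cm
    simp only [List.ofFn_succ, List.ofFn_zero, List.prod_cons, List.prod_nil, mul_one]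
    simp only [mul_assoc]
    rfl
  rw [h5, map_mul, map_mul, map_mul, map_mul, map_mul, map_cm, map_cm, grpCι_a, grpCι_b, grpCι_a,
    grpCι_b, grpCι_c, grpCι_c, grpCι_c, grpCι_c, h3, h4]
  rfl

include hm in
private theorem grpC_bd' (h2 : 2 ≤ m) : bdry g n = hd g n 0 * hd g n 1 * seg g n 2 (m - 2) *
    (hd g n m * hd g n (m + 1) * (seg g n (m + 2) (g - (m + 2)) * cseg g n 0 n)) := by
  have h1 : seg g n 0 g = seg g n 0 (1 + (1 + ((m - 2) + (1 + (1 + (g - (m + 2))))))) := by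
    congr 1
    omega
  rw [bdry_eq, h1, seg_add, seg_add, seg_add, seg_add, seg_add, seg_one, seg_one, seg_one,
    seg_one]
  have e1 : 0 + 1 + 1 + (m - 2) = m := by omega
  rw [e1]
  simp only [mul_assoc, Nat.zero_add]

end

theorem st_GrpC : St_GrpC := by
  intro g n m h2 hm
  refine ⟨⟨grpCι hm, grpCe hm, grpCf m, grpCf_a hm h2, grpCf_b hm h2, grpCι_a hm, grpCι_b hm,
    fun j => ?_, ?_⟩, ?_, ?_, ?_, ?_, ?_, ?_⟩
  · rw [grpCι_c]
    exact grpC_mem h2 j
  · rw [grpC_bd hm h2, isConj_iff]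
    refine ⟨hd g n 0 * hd g n 1 * seg g n 2 (m - 2), ?_⟩
    rw [grpC_bd' hm h2]
    group
  · show m + ((0 : Fin 2) : ℕ) = m
    simp
  · show m + ((1 : Fin 2) : ℕ) = m + 1
    simp
  · show grpCι hm (gc 0) = _
    rw [grpCι_c]
    rfl
  · intro i hi
    show grpCι hm (gc 1) = dl i
    rw [grpCι_c]
    show hd g n 0 = dl i
    rw [← hi]
    exact hd_fin i
  · intro i hi
    show grpCι hm (gc 2) = dl i
    rw [grpCι_c]
    show hd g n 1 = dl i
    rw [← hi]
    exact hd_fin i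
  · show grpCι hm (gc 3) = _
    rw [grpCι_c]
    rfl

end Pool.Agent.PWM
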