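import Pool.Agent.PWM.StB

/-!
# GrpR : the grouping which turns the first q handles into marked points

Construction.  ι = FreeGroup.lift: gc j ↦ dl ⟨j,_⟩ for j < q, gc q ↦ seg g n q (g - q) * cseg g n 0 n.
f (Gen.a i) = f (Gen.b i) = Gen.c (min i q); f (Gen.c j) = Gen.c q.
-/

namespace Pool.Agent.PWM

open Pool.Agent.PW

/-- the images of the marked points -/
private def grpRc {g n q : ℕ} (hq : q ≤ g) (j : Fin (q + 1)) : F g n :=
  if h : (j : ℕ) < q then dl ⟨j, lt_of_lt_of_le h hq⟩ else seg g n q (g - q) * cseg g n 0 n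

private def grpRι {g n q : ℕ} (hq : q ≤ g) : F 0 (q + 1) →* F g n :=
  FreeGroup.lift fun x => match x with
    | Gen.a i => i.elim0
    | Gen.b i => i.elim0
    | Gen.c j => grpRc hq j

private def grpRf {g n : ℕ} (q : ℕ) : Gen g n → Gen 0 (q + 1)
  | Gen.a i => Gen.c ⟨min i q, by omega⟩
  | Gen.b i => Gen.c ⟨min i q, by omega⟩
  | Gen.c _ => Gen.c (Fin.last q)

private theorem grpRι_c {g n q : ℕ} (hq : q ≤ g) (j : Fin (q + 1)) :
    grpRι (n := n) hq (gc j) = grpRc hq j := by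
  unfold grpRι gc
  rw [FreeGroup.lift_apply_of]

private theorem grpRc_lt {g n q : ℕ} (hq : q ≤ g) {j : Fin (q + 1)} (h : (j : ℕ) < q) :
    grpRc (n := n) hq j = dl ⟨j, lt_of_lt_of_le h hq⟩ := by
  unfold grpRc
  rw [dif_pos h]

private theorem grpRc_last {g n q : ℕ} (hq : q ≤ g) {j : Fin (q + 1)} (h : ¬ (j : ℕ) < q) :
    grpRc (n := n) hq j = seg g n q (g - q) * cseg g n 0 n := by
  unfold grpRc
  rw [dif_neg h]

private theorem grpR_mem {g n q : ℕ} (hq : q ≤ g) (j : Fin (q + 1)) :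
    grpRc (n := n) hq j ∈ Subgroup.closure {x : F g n | ∃ y, grpRf q y = Gen.c j ∧
      x = FreeGroup.of y} := by
  by_cases h : (j : ℕ) < q
  · rw [grpRc_lt hq h]
    have ha : (ga ⟨j, lt_of_lt_of_le h hq⟩ : F g n) ∈ Subgroup.closure {x : F g n |
        ∃ y, grpRf q y = Gen.c j ∧ x = FreeGroup.of y} :=
      Subgroup.subset_closure ⟨Gen.a ⟨j, lt_of_lt_of_le h hq⟩, by
        show (Gen.c _ : Gen 0 (q + 1)) = Gen.c j
        congr 1
        exact Fin.ext (min_eq_left h.le), rfl⟩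
    have hb : (gb ⟨j, lt_of_lt_of_le h hq⟩ : F g n) ∈ Subgroup.closure {x : F g n |
        ∃ y, grpRf q y = Gen.c j ∧ x = FreeGroup.of y} :=
      Subgroup.subset_closure ⟨Gen.b ⟨j, lt_of_lt_of_le h hq⟩, by
        show (Gen.c _ : Gen 0 (q + 1)) = Gen.c j
        congr 1
        exact Fin.ext (min_eq_left h.le), rfl⟩
    unfold dl cm
    exact Subgroup.mul_mem _ (Subgroup.mul_mem _ (Subgroup.mul_mem _ ha hb)
      (Subgroup.inv_mem _ ha)) (Subgroup.inv_mem _ hb)
  · rw [grpRc_last hq h]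
    have hj : (j : ℕ) = q := by
      have := j.2
      omega
    refine Subgroup.mul_mem _ (seg_mem fun i hi _ => ⟨?_, ?_⟩) (cseg_mem fun i _ _ => ?_)
    · exact Subgroup.subset_closure ⟨Gen.a i, by
        show (Gen.c _ : Gen 0 (q + 1)) = Gen.c j
        congr 1
        exact Fin.ext ((min_eq_right hi).trans hj.symm), rfl⟩
    · exact Subgroup.subset_closure ⟨Gen.b i, by
        show (Gen.c _ : Gen 0 (q + 1)) = Gen.c j
        congr 1
        exact Fin.ext ((min_eq_right hi).trans hj.symm), rfl⟩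
    · exact Subgroup.subset_closure ⟨Gen.c i, by
        show (Gen.c _ : Gen 0 (q + 1)) = Gen.c j
        congr 1
        exact Fin.ext hj.symm, rfl⟩

private theorem grpR_cseg {g n q : ℕ} (hq : q ≤ g) (m : ℕ) (hm : m ≤ q) :
    grpRι (n := n) hq (cseg 0 (q + 1) 0 m) = seg g n 0 m := by
  induction m with
  | zero => rw [cseg_zero, seg_zero, map_one]
  | succ m ih =>
    have h1 : pc 0 (q + 1) m = gc ⟨m, by omega⟩ := pc_fin ⟨m, by omega⟩
    have h2 : hd g n m = dl ⟨m, by omega⟩ := hd_fin ⟨m, by omega⟩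
    rw [cseg_add, seg_add, map_mul, ih (by omega), Nat.zero_add, cseg_one, seg_one, h1, h2,
      grpRι_c, grpRc_lt hq (by exact hm)]

theorem st_GrpR : St_GrpR := by
  intro g n q hq
  refine ⟨⟨grpRι hq, Fin.elim0, grpRf q, fun y i => i.elim0, fun y i => i.elim0,
    fun i => i.elim0, fun i => i.elim0, fun j => ?_, ?_⟩, ?_, ?_⟩
  · rw [grpRι_c]
    exact grpR_mem hq j
  · have h1 : grpRι (n := n) hq (bdry 0 (q + 1)) = bdry g n := by
      have h2 : pc 0 (q + 1) q = gc ⟨q, by omega⟩ := pc_fin ⟨q, by omega⟩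
      have h3 : seg g n 0 g = seg g n 0 q * seg g n q (g - q) := by
        have h4 := seg_add (g := g) (n := n) 0 q (g - q)
        rw [Nat.add_sub_cancel' hq, Nat.zero_add] at h4
        exact h4
      rw [bdry_eq, seg_zero, one_mul, cseg_add, map_mul, grpR_cseg hq q le_rfl, Nat.zero_add,
        cseg_one, h2, grpRι_c, grpRc_last hq (by simp), bdry_eq, h3, mul_assoc]
    rw [h1]
  · intro j i hj hi
    show grpRι hq (gc j) = dl i
    rw [grpRι_c, grpRc_lt hq hj]
    congr 1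
    exact Fin.ext hi.symm
  · show grpRι hq (gc (Fin.last q)) = _
    rw [grpRι_c, grpRc_last hq (by simp)]

end Pool.Agent.PWM
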