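import Pool.Agent.PWM.StB

/-!
# IndA : assembly of the induced system (paper, 1.5)
-/

namespace Pool.Agent.PWM

open Pool.Agent.PW

theorem IndA_aux (hK : St_IndKill) (hO : St_IndOrb) {g n : ℕ} (K : Subgroup (F g n))
    [K.FiniteIndex] (f : K → ℚ) (hf : IsClass K f) (hR : bdry g n ∈ K.normalCore)
    (hfin : (orbit K f).Finite) (hcm : ∀ d ∈ DD g n, ∀ e ∈ DD g n, cm d e ∈ K.normalCore)
    (k : Type) [Field k] [NumberField k] (ζ : k) (hζ : IsPrimitiveRoot ζ K.normalCore.index) :
    ∃ (V : Type) (_ : AddCommGroup V)
    (_ : Module k V) (S : Sys g n k V), (∀ j, FinOrd S.ρ S.v (gc j)) ∧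
    (∀ x ∈ K.normalCore, S.ρ x = 1) ∧ ∀ x ∈ K.normalCore, S.v x = 0 → ext0 K f x = 0 := by
  have hg : Good K.normalCore (ext0 K f) := good_of_finite hR hf hfin
  have hNf : K.normalCore.FiniteIndex := hg.fin
  have hM : K.normalCore.index ≠ 0 := hNf.index_ne_zero
  have hfq : Finite (F g n ⧸ K.normalCore) := Subgroup.finite_quotient_of_finiteIndex
  have hpow : ∀ x : F g n, x ^ K.normalCore.index ∈ K.normalCore := fun x =>
    Subgroup.pow_index_mem _ x
  obtain ⟨T, hT, hT2⟩ := hO K f k hf hR hfin
  let S : Sys g n k ((F g n ⧸ K.normalCore) → k) :=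
    { ρ := indρ K.normalCore k
      v := indv K.normalCore k (ext0 K f)
      coc := fun x y => indv_coc k hg.add x y
      fin := by
        have hsub : Set.range (indρ K.normalCore k) ⊆
            Set.range (fun q : F g n ⧸ K.normalCore => indρ K.normalCore k q.out) := by
          rintro _ ⟨x, rfl⟩
          refine ⟨(x : F g n ⧸ K.normalCore), ?_⟩
          apply LinearMap.ext
          intro H
          funext q
          show indρ K.normalCore k _ H q = indρ K.normalCore k x H q
          rw [indρ_apply, indρ_apply, QuotientGroup.out_eq']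
        exact (Set.finite_range _).subset hsub
      roots := ⟨K.normalCore.index, ζ,
        Nat.pos_of_ne_zero hM, fun x => by
          rw [← map_pow]
          exact indρ_mem k (hpow x), hζ⟩
      comm := by
        intro d hd e he
        rw [← map_mul, ← map_mul]
        have h1 : d * e = cm d e * (e * d) := by
          unfold cm
          group
        rw [h1, map_mul (indρ K.normalCore k) (cm d e), indρ_mem k (hcm d hd e he), one_mul]
      bd := indρ_mem k hR
      kill := fun φ hφ i => hK K.normalCore (ext0 K f) k hg φ hφ i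
      orb := ⟨T, hT, hT2⟩ }
  refine ⟨_, inferInstance, inferInstance, S, ?_, ?_, ?_⟩
  · intro j
    exact indv_fin k (Nat.pos_of_ne_zero hM) (hpow (gc j)) (fun w => hg.marked w j _ (hpow (gc j)))
  · intro x hx
    exact indρ_mem k hx
  · intro x hx h0
    exact indv_zero k hg.add hx h0

theorem st_Ind (hK : St_IndKill) (hO : St_IndOrb) : St_Ind := by
  intro g n K _ f hf hR hfin hcm
  have hg : Good K.normalCore (ext0 K f) := good_of_finite hR hf hfin
  have hM : K.normalCore.index ≠ 0 := hg.fin.index_ne_zero
  have hne : NeZero K.normalCore.index := ⟨hM⟩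
  have hne2 : NeZero ((K.normalCore.index : ℕ) : ℚ) := ⟨by exact_mod_cast hM⟩
  have hcy : IsCyclotomicExtension {K.normalCore.index} ℚ (CyclotomicField K.normalCore.index ℚ) :=
    CyclotomicField.isCyclotomicExtension K.normalCore.index ℚ
  obtain ⟨V, h1, h2, S, h3, h4, h5⟩ := IndA_aux hK hO K f hf hR hfin hcm
    (CyclotomicField K.normalCore.index ℚ)
    (IsCyclotomicExtension.zeta K.normalCore.index ℚ (CyclotomicField K.normalCore.index ℚ))
    (IsCyclotomicExtension.zeta_spec K.normalCore.index ℚ (CyclotomicField K.normalCore.index ℚ))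
  exact ⟨CyclotomicField K.normalCore.index ℚ, inferInstance, inferInstance, V, h1, h2, S, h3, h4,
    h5⟩

end Pool.Agent.PWM
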