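import Pool.Agent.PWM.StB

/-!
# IndKill : the affine maps of the letters and handle boundaries have finite order, in the induced system

Proof.  For the handle `z` with `(z : ℕ) = 0`: `Good.kill_a` (PW/Central.lean), `Good.kill_b'`, `Good.kill_d'` (PW/Good.lean); `Good.comp` gives the
class `f ∘ φ` on `N.comap φ`; use it for `kill_a` with `φ` (as in the proof of `Good.kill_b'`).  With `m = N.index` (`exists_exp`) and `indv_fin` (PWM/Ind.lean) get FinOrd.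
Other handles `i`: by `hM z i` there are `θ ∈ MCG`, `w` with `θ (ga z) = w * ga i * w⁻¹`, `θ (gb z) = w * gb i * w⁻¹`; so `φ (ga i) = (φ w)⁻¹ * (φ * θ) (ga z) * φ w`,
same for `gb`, `dl`; `f (w' * (φ (ga i)) ^ m * w'⁻¹) = f (w'' * ((φ * θ) (ga z)) ^ m * w''⁻¹) = 0`, `w'' = w' * (φ w)⁻¹`.  (`dl i = cm (ga i) (gb i)`.)
-/

namespace Pool.Agent.PWM

open Pool.Agent.PW

variable {g n : ℕ}

private theorem indkill_a {N : Subgroup (F g n)} {f : F g n → ℚ} (h : Good N f) {z : Fin g}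
    (hz : (z : ℕ) = 0) {φ : MulAut (F g n)} (hφ : φ ∈ MCG g n) {m : ℕ} (hm : φ (ga z) ^ m ∈ N)
    (w : F g n) : f (w * φ (ga z) ^ m * w⁻¹) = 0 := by
  have := (h.comp hφ).kill_a hz (m := m) (by
    show φ (ga z ^ m) ∈ N
    rwa [map_pow]) (φ⁻¹ w)
  have e : φ (φ⁻¹ w * ga z ^ m * (φ⁻¹ w)⁻¹) = w * φ (ga z) ^ m * w⁻¹ := by
    simp
  rwa [e] at this

private theorem indkill_conj {f : F g n → ℚ} {x y v : F g n} {m : ℕ} (hx : x = v⁻¹ * y * v)
    (h : ∀ w, f (w * y ^ m * w⁻¹) = 0) (w : F g n) : f (w * x ^ m * w⁻¹) = 0 := by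
  have e : w * x ^ m * w⁻¹ = (w * v⁻¹) * y ^ m * (w * v⁻¹)⁻¹ := by
    have e1 : x = v⁻¹ * y * v⁻¹⁻¹ := by
      rw [hx, inv_inv]
    rw [e1, conj_pow]
    group
  rw [e]
  exact h _

theorem st_IndKill (hM : St_Move) : St_IndKill := by
  intro g n N hNn f k _ _ h φ hφ i
  have hg : 0 < g := by
    have := i.2
    omega
  obtain ⟨θ, hθ, w, hwa, hwb⟩ := hM (n := n) (⟨0, hg⟩ : Fin g) i rfl
  have hφθ : φ * θ ∈ MCG g n := (MCG g n).mul_mem hφ hθ
  obtain ⟨L, hL, hLN⟩ := exists_exp h.normal h.fin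
  have ea : φ (ga i) = (φ w)⁻¹ * (φ * θ) (ga ⟨0, hg⟩) * φ w := by
    rw [MulAut.mul_apply, hwa, map_mul, map_mul, map_inv]
    group
  have eb : φ (gb i) = (φ w)⁻¹ * (φ * θ) (gb ⟨0, hg⟩) * φ w := by
    rw [MulAut.mul_apply, hwb, map_mul, map_mul, map_inv]
    group
  have ed : φ (dl i) = (φ w)⁻¹ * cm ((φ * θ) (ga ⟨0, hg⟩)) ((φ * θ) (gb ⟨0, hg⟩)) * φ w := by
    have e : φ (dl i) = cm (φ (ga i)) (φ (gb i)) := by
      simp [dl, cm]
    rw [e, ea, eb]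
    unfold cm
    group
  refine ⟨?_, ?_, ?_⟩
  · exact indv_fin k hL (hLN _) (indkill_conj ea fun v => indkill_a h rfl hφθ (hLN _) v)
  · exact indv_fin k hL (hLN _) (indkill_conj eb fun v => h.kill_b' rfl hφθ (hLN _) v)
  · exact indv_fin k hL (hLN _) (indkill_conj ed fun v => h.kill_d' rfl hφθ (hLN _) v)

end Pool.Agent.PWM
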