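import Pool.Agent.PWM.StB

/-!
# IndOrb : the orbit of the induced cocycle is finite modulo coboundaries

Proof (paper 1.5).  N = K.normalCore, f0 = ext0 K f, `hg : Good N f0 := good_of_finite ..` (PW/Orbit.lean; `hg.add : AddOn N f0`), π : F → F ⧸ N.
(1) There are finitely many homs F → F ⧸ N (a hom is determined by its values at the generators; `F ⧸ N` finite).  So the set of `π ∘ φ`, φ ∈ MCG, is finite; choose a finite set
P ⊆ MCG of representatives: for all φ ∈ MCG there is φ₁ ∈ P with π (φ x) = π (φ₁ x) for all x.  (2) Let Ψ = {ψ ∈ MCG | ∀ x, ψ x * x⁻¹ ∈ N}.  For ψ ∈ Ψ: x ∈ K ↔ ψ x ∈ K (N ≤ K),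
so `f ∘ ψ` is in `orbit K f`, which is finite: choose a finite set P' ⊆ Ψ such that for all ψ ∈ Ψ there is ψ₁ ∈ P' with f0 (ψ x) = f0 (ψ₁ x) for x ∈ N (even for x ∈ K).
(3) φ ∈ MCG: take φ₁ ∈ P; ψ = φ φ₁⁻¹ is in Ψ (ψ y y⁻¹ with y = φ₁ x is φ x (φ₁ x)⁻¹ ∈ N); φ = ψ φ₁; take ψ₁ ∈ P' for ψ.  (4) The cocycles `x ↦ indv (ψ x)` and `x ↦ indv (ψ₁ x)` for `indρ`
(indρ (ψ x) = indρ x as ψ x x⁻¹ ∈ N: `indρ_mem`, `indv_coc`) agree on N: for x ∈ N, indv (ψ x) q = f0 (q.out * ψ x * q.out⁻¹) = f0 (ψ (q.out * x * q.out⁻¹)) because ψ q.out = q.out n' with n' ∈ N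
and f0 is invariant under conjugation by N (`AddOn.conj`, `AddOn.conj_eq`).  Their difference D is a cocycle which vanishes on N, so it factors through the finite group F ⧸ N, and averaging gives u with
D x = indρ x u - u:  D (x y) = D x + indρ x (D y); sum over y in F ⧸ N: Σ = m D x + indρ x Σ; u = -(1/m) Σ.  So indv (ψ x) = indv (ψ₁ x) + (indρ x u - u) for all x.
(5) Put x := φ₁ x: indv (φ x) = indv (ψ₁ (φ₁ x)) + (indρ (φ₁ x) u - u), and indρ (φ₁ x) = indρ (φ x).  T = { x ↦ indv (ψ₁ (φ₁ x)) | ψ₁ ∈ P', φ₁ ∈ P }.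
-/

namespace Pool.Agent.PWM

open Pool.Agent.PW

variable {g n : ℕ}

private theorem indorb_reps {α β : Type*} (S : Set α) (Φ : α → β) (h : (Φ '' S).Finite) :
    ∃ P : Set α, P ⊆ S ∧ P.Finite ∧ ∀ x ∈ S, ∃ y ∈ P, Φ y = Φ x := by
  have h1 : ∀ b : Φ '' S, ∃ a, a ∈ S ∧ Φ a = b := fun b => b.2
  choose r hr1 hr2 using h1
  have : Finite (Φ '' S) := h
  refine ⟨Set.range r, ?_, Set.finite_range r, ?_⟩
  · rintro _ ⟨b, rfl⟩
    exact hr1 b
  · intro x hx
    exact ⟨r ⟨Φ x, x, hx, rfl⟩, ⟨_, rfl⟩, hr2 _⟩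

private theorem indorb_finite_gen : Finite (Gen g n) := by
  have hs : Function.Surjective (fun x : Fin g ⊕ (Fin g ⊕ Fin n) =>
      (match x with
      | Sum.inl i => Gen.a i
      | Sum.inr (Sum.inl i) => Gen.b i
      | Sum.inr (Sum.inr j) => Gen.c j : Gen g n)) := by
    intro x
    cases x with
    | a i => exact ⟨Sum.inl i, rfl⟩
    | b i => exact ⟨Sum.inr (Sum.inl i), rfl⟩
    | c j => exact ⟨Sum.inr (Sum.inr j), rfl⟩
  exact Finite.of_surjective _ hs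

private theorem indorb_finite_hom (Q : Type*) [Group Q] [Finite Q] : Finite (F g n →* Q) := by
  have : Finite (Gen g n) := indorb_finite_gen
  have : Finite (Gen g n → Q) := inferInstance
  exact Finite.of_equiv _ (FreeGroup.lift (α := Gen g n) (β := Q))

variable (N : Subgroup (F g n)) [hN : N.Normal]

private theorem indorb_rho_eq (k : Type) [Field k] {x y : F g n} (h : x * y⁻¹ ∈ N) :
    indρ N k x = indρ N k y := by
  have e : x = (x * y⁻¹) * y := by group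
  rw [e, map_mul, indρ_mem k h, one_mul]

/-- A cocycle which vanishes on `N` is a coboundary. -/
private theorem indorb_cob [N.FiniteIndex] (k : Type) [Field k] [CharZero k]
    (D : F g n → ((F g n ⧸ N) → k)) (hD : ∀ x y, D (x * y) = D x + indρ N k x (D y))
    (h0 : ∀ x ∈ N, D x = 0) : ∃ u, ∀ x, D x = indρ N k x u - u := by
  classical
  have : Fintype (F g n ⧸ N) := Fintype.ofFinite _
  have hq : ∀ x y : F g n, (x : F g n ⧸ N) = y → D x = D y := by
    intro x y hxy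
    have h1 : x⁻¹ * y ∈ N := QuotientGroup.eq.mp hxy
    have e : y = x * (x⁻¹ * y) := by group
    rw [e, hD, h0 _ h1, map_zero, add_zero]
  set Sg : (F g n ⧸ N) → k := ∑ q : F g n ⧸ N, D q.out with hSg
  set m : k := (Fintype.card (F g n ⧸ N) : k) with hm
  have hm0 : m ≠ 0 := by
    rw [hm]
    exact_mod_cast Fintype.card_ne_zero
  have key : ∀ x, Sg = m • D x + indρ N k x Sg := by
    intro x
    have h1 : ∑ q : F g n ⧸ N, D (x * q.out) = Sg := by
      rw [hSg]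
      have h2 : ∀ q : F g n ⧸ N, D (x * q.out) = (fun q' : F g n ⧸ N => D q'.out) ((x : F g n ⧸ N) * q) := by
        intro q
        apply hq
        rw [QuotientGroup.mk_mul, QuotientGroup.out_eq', QuotientGroup.out_eq']
      rw [Finset.sum_congr rfl fun q _ => h2 q]
      exact Equiv.sum_comp (Equiv.mulLeft (x : F g n ⧸ N)) (fun q' : F g n ⧸ N => D q'.out)
    have h3 : ∑ q : F g n ⧸ N, D (x * q.out) = m • D x + indρ N k x Sg := by
      rw [Finset.sum_congr rfl fun q _ => hD x q.out, Finset.sum_add_distrib, Finset.sum_const,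
        Finset.card_univ, ← map_sum, ← Nat.cast_smul_eq_nsmul k]
    rw [← h3, h1]
  refine ⟨-(m⁻¹ • Sg), fun x => ?_⟩
  have h1 := key x
  have h2 : m • D x = Sg - indρ N k x Sg := by
    rw [eq_sub_iff_add_eq]
    exact h1.symm
  have h3 : D x = m⁻¹ • (m • D x) := by
    rw [smul_smul, inv_mul_cancel₀ hm0, one_smul]
  rw [h3, h2, map_neg, map_smul, smul_sub]
  abel

/-- Two automorphisms which are trivial modulo `N` and agree on `f`. -/
private theorem indorb_pair [N.FiniteIndex] (k : Type) [Field k] [CharZero k] {f : F g n → ℚ}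
    (hf : AddOn N f) (ψ ψ' : MulAut (F g n)) (h1 : ∀ x, ψ x * x⁻¹ ∈ N)
    (h2 : ∀ x, ψ' x * x⁻¹ ∈ N) (h : ∀ x ∈ N, f (ψ x) = f (ψ' x)) :
    ∃ u, ∀ x, indv N k f (ψ x) = indv N k f (ψ' x) + (indρ N k x u - u) := by
  have hin : ∀ (θ : MulAut (F g n)), (∀ x, θ x * x⁻¹ ∈ N) → ∀ x ∈ N, θ x ∈ N := by
    intro θ hθ x hx
    have := N.mul_mem (hθ x) hx
    rwa [inv_mul_cancel_right] at this
  have hc : ∀ (θ : MulAut (F g n)), (∀ x, θ x * x⁻¹ ∈ N) → ∀ x ∈ N, ∀ w,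
      f (w * θ x * w⁻¹) = f (θ (w * x * w⁻¹)) := by
    intro θ hθ x hx w
    have e : θ (w * x * w⁻¹) = (θ w * w⁻¹) * (w * θ x * w⁻¹) * (θ w * w⁻¹)⁻¹ := by
      rw [map_mul, map_mul, map_inv]
      group
    rw [e, hf.conj (hθ w) (hN.conj_mem _ (hin θ hθ x hx) w)]
  obtain ⟨u, hu⟩ := indorb_cob N k (fun x => indv N k f (ψ x) - indv N k f (ψ' x)) (by
    intro x y
    show indv N k f (ψ (x * y)) - indv N k f (ψ' (x * y)) =
      (indv N k f (ψ x) - indv N k f (ψ' x)) +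
        indρ N k x (indv N k f (ψ y) - indv N k f (ψ' y))
    rw [map_mul, map_mul, indv_coc k hf, indv_coc k hf, indorb_rho_eq N k (h1 x),
      indorb_rho_eq N k (h2 x), map_sub]
    abel) (by
    intro x hx
    show indv N k f (ψ x) - indv N k f (ψ' x) = 0
    rw [sub_eq_zero]
    funext q
    rw [indv_mem k (hin ψ h1 x hx), indv_mem k (hin ψ' h2 x hx), hc ψ h1 x hx, hc ψ' h2 x hx,
      h _ (hN.conj_mem _ hx _)])
  refine ⟨u, fun x => ?_⟩
  rw [← hu x]
  abel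

theorem st_IndOrb : St_IndOrb := by
  intro g n K _ f k _ _ hf hb hfin
  have hg : Good K.normalCore (ext0 K f) := good_of_finite hb hf hfin
  have hN : K.normalCore.Normal := K.normalCore_normal
  have hle : K.normalCore ≤ K := K.normalCore_le
  have hF : K.normalCore.FiniteIndex := hg.fin
  have hfq : Finite (F g n ⧸ K.normalCore) := inferInstance
  have hfh : Finite (F g n →* (F g n ⧸ K.normalCore)) := indorb_finite_hom _
  obtain ⟨P, hPS, hPf, hP⟩ := indorb_reps ((MCG g n : Subgroup (MulAut (F g n))) : Set (MulAut (F g n)))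
    (fun φ => (QuotientGroup.mk' K.normalCore).comp φ.toMonoidHom) (Set.toFinite _)
  obtain ⟨P', hPS', hPf', hP'⟩ := indorb_reps {ψ : MulAut (F g n) | ψ ∈ MCG g n ∧ ∀ x, ψ x * x⁻¹ ∈ K.normalCore}
    (fun ψ => fun x : K => ext0 K f (ψ x)) (by
      apply hfin.subset
      rintro _ ⟨ψ, ⟨h1, h2⟩, rfl⟩
      have hK : ∀ x, x ∈ K ↔ ψ x ∈ K := by
        intro x
        have h3 := hle (h2 x)
        constructor
        · intro h
          have := K.mul_mem h3 h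
          rwa [inv_mul_cancel_right] at this
        · intro h
          have := K.mul_mem (K.inv_mem h3) h
          have e : (ψ x * x⁻¹)⁻¹ * ψ x = x := by group
          rwa [e] at this
      exact ⟨ψ, h1, hK, fun x => ext0_mem ((hK x).1 x.2)⟩)
  refine ⟨(fun p : MulAut (F g n) × MulAut (F g n) =>
    fun x => indv K.normalCore k (ext0 K f) (p.1 (p.2 x))) '' (P' ×ˢ P),
    (hPf'.prod hPf).image _, ?_⟩
  intro φ hφ
  obtain ⟨φ₁, hφ₁, he⟩ := hP φ hφ
  have he' : ∀ x, φ x * (φ₁ x)⁻¹ ∈ K.normalCore := by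
    intro x
    have h1 : ((φ₁ x : F g n) : F g n ⧸ K.normalCore) = ((φ x : F g n) : F g n ⧸ K.normalCore) :=
      DFunLike.congr_fun he x
    have h2 := hN.conj_mem _ (QuotientGroup.eq.mp h1) (φ₁ x)
    have e : φ₁ x * ((φ₁ x)⁻¹ * φ x) * (φ₁ x)⁻¹ = φ x * (φ₁ x)⁻¹ := by group
    rwa [e] at h2
  have hψ : ∀ x, (φ * φ₁⁻¹ : MulAut (F g n)) x * x⁻¹ ∈ K.normalCore := by
    intro x
    have h1 := he' ((φ₁⁻¹ : MulAut (F g n)) x)
    have e : φ₁ ((φ₁⁻¹ : MulAut (F g n)) x) = x := by simp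
    rw [e] at h1
    exact h1
  obtain ⟨ψ₁, hψ₁, he1⟩ := hP' (φ * φ₁⁻¹)
    ⟨(MCG g n).mul_mem hφ ((MCG g n).inv_mem (hPS hφ₁)), hψ⟩
  obtain ⟨u, hu⟩ := indorb_pair K.normalCore k hg.add (φ * φ₁⁻¹) ψ₁ hψ (hPS' hψ₁).2 (by
    intro x hx
    exact (congrFun he1 ⟨x, hle hx⟩).symm)
  refine ⟨_, ⟨(ψ₁, φ₁), ⟨hψ₁, hφ₁⟩, rfl⟩, u, fun x => ?_⟩
  have h1 := hu (φ₁ x)
  have e : (φ * φ₁⁻¹ : MulAut (F g n)) (φ₁ x) = φ x := by simp
  rw [e] at h1
  rw [h1, indorb_rho_eq K.normalCore k (he' x)]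

end Pool.Agent.PWM
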