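import Pool.Agent.PWM.J3

/-!
# Theorem J, end (paper, section 4: J7, J8)

* `Kil.all`: `w ≡ t u` (`split_mod`), `t ≡ κ (ga z)^k` (`euclid_one`, `κ` fixes `dl z` and the other letters), so
  `L (w dl z w⁻¹) = (L ∘ κ) ((ga z^k u) dl z (..)⁻¹) = ek (L ∘ κ) z k = 0`.
* `Kil.all'`: any handle.
* `Kil.cj`: conjugates of `L` are in the set: `L (w φ(dl z) w⁻¹) = (L ∘ φ) (φ⁻¹ w dl z (φ⁻¹ w)⁻¹) = 0`.
* `Kil.cm_let`: `L (w cm (ga z) (ga o) w⁻¹) = 0` (`Kil.aa_let` with `k = 0`, `μ = 1` and `Kil.cj`); then any two letters of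
  different handles, by `rr` and permutations (conjugations by elements of `Dn`: `[w a w⁻¹, x] = [[w,a] a, x]`, `DHom.cm_dmul_left`, and `Kil.nc`).
* `J`: the commutator subgroup is the normal closure of the commutators of letters.
-/

namespace Pool.Agent.PWM

open Pool.Agent.PW

variable {h : ℕ} {A : Type*} [AddCommGroup A] {L : F h 0 → A}

/-- an automorphism which fixes the other letters fixes the words in them -/
private theorem j4_fix {z : Fin h} {ψ : MulAut (F h 0)}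
    (hψ : ∀ j, j ≠ z → ψ (ga j) = ga j ∧ ψ (gb j) = gb j) {u : F h 0}
    (hu : u ∈ away (n := 0) z) : ψ u = u := by
  unfold away at hu
  induction hu using Subgroup.closure_induction with
  | mem x hx =>
    rcases hx with ⟨j, hj, rfl | rfl⟩ | ⟨j, rfl⟩
    · exact (hψ j hj).1
    · exact (hψ j hj).2
    · exact j.elim0
  | one => exact map_one ψ
  | mul x y _ _ h1 h2 => rw [map_mul, h1, h2]
  | inv x _ h1 => rw [map_inv, h1]

/-- (J7) -/
theorem Kil.all {z : Fin h} (hL : Kil L) (hh : 2 ≤ h) (hz : (z : ℕ) = 0) (w : F h 0) :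
    L (w * dl z * w⁻¹) = 0 := by
  obtain ⟨t, ht, u, hu, hw⟩ := split_mod z w
  obtain ⟨ψ, hψ, m, hm, hd, hf⟩ := euclid_one z ht
  rw [← hL.hom.cj_eq hw (dl_mem z)]
  have h1 : (ψ (ga z) ^ m * u)⁻¹ * (t * u) ∈ DD h 0 := by
    have e : (ψ (ga z) ^ m * u)⁻¹ * (t * u) = u⁻¹ * ((ψ (ga z) ^ m)⁻¹ * t) * u := by group
    rw [e]
    exact cj_mem' hm u
  rw [← hL.hom.cj_eq h1 (dl_mem z)]
  have e : ψ (ga z) ^ m * u * dl z * (ψ (ga z) ^ m * u)⁻¹ =
      ψ ((ga z ^ m * u) * dl z * (ga z ^ m * u)⁻¹) := by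
    rw [map_mul, map_mul, map_inv, map_mul, map_zpow, j4_fix hf hu, hd z]
  rw [e]
  have h2 := (hL.aut hψ).tr hh z m hu
  have ho : (z : ℕ) + 1 < h := by omega
  have h3 := (hL.aut hψ).ek_zero (z := z) (o := ⟨z + 1, ho⟩) hz rfl m
  exact h2.trans h3

theorem Kil.all' (hL : Kil L) (hh : 2 ≤ h) (i : Fin h) (w : F h 0) : L (w * dl i * w⁻¹) = 0 := by
  have h0 : 0 < h := by omega
  obtain ⟨φ, hφ, h1⟩ := perm_exists (Equiv.swap (⟨0, h0⟩ : Fin h) i)
  obtain ⟨v, hv, ha, hb⟩ := h1 ⟨0, h0⟩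
  rw [Equiv.swap_apply_left] at ha hb
  have h2 : φ (dl ⟨0, h0⟩) = v * dl i * v⁻¹ := by
    rw [aut_dl, ha, hb]
    unfold dl cm
    group
  have h3 := (hL.aut hφ).all (z := ⟨0, h0⟩) hh rfl (φ⁻¹ (w * v⁻¹))
  have h4 : φ (φ⁻¹ (w * v⁻¹) * dl ⟨0, h0⟩ * (φ⁻¹ (w * v⁻¹))⁻¹) = w * dl i * w⁻¹ := by
    rw [map_mul, map_mul, map_inv, h2]
    have h5 : φ (φ⁻¹ (w * v⁻¹)) = w * v⁻¹ := by simp
    rw [h5]
    group
  have h3' : L (φ (φ⁻¹ (w * v⁻¹) * dl ⟨0, h0⟩ * (φ⁻¹ (w * v⁻¹))⁻¹)) = 0 := h3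
  rw [h4] at h3'
  exact h3'

theorem Kil.cj (hL : Kil L) (hh : 2 ≤ h) (w : F h 0) : Kil fun x => L (w * x * w⁻¹) := by
  refine ⟨hL.hom.cj w, fun φ hφ i => ?_⟩
  have h3 := (hL.aut hφ).all' hh i (φ⁻¹ w)
  have h3' : L (φ (φ⁻¹ w * dl i * (φ⁻¹ w)⁻¹)) = 0 := h3
  have h4 : φ (φ⁻¹ w * dl i * (φ⁻¹ w)⁻¹) = w * φ (dl i) * w⁻¹ := by
    have h5 : φ (φ⁻¹ w) = w := by simp
    rw [map_mul, map_mul, map_inv, h5]
  rw [h4] at h3'
  exact h3'

/-- conjugations by elements of `Dn` do not matter -/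
theorem Kil.nc (hL : Kil L) (hh : 2 ≤ h) {d : F h 0} (hd : d ∈ Dn h) (w : F h 0) :
    L (w * d * w⁻¹) = 0 := by
  have key : d ∈ DD h 0 ∧ ∀ w : F h 0, L (w * d * w⁻¹) = 0 := by
    have hd' : d ∈ Subgroup.closure (Group.conjugatesOfSet (Set.range fun i : Fin h => (dl i : F h 0))) :=
      hd
    induction hd' using Subgroup.closure_induction with
    | mem x hx =>
      obtain ⟨a, ⟨i, rfl⟩, hc⟩ := Group.mem_conjugatesOfSet_iff.mp hx
      obtain ⟨c, rfl⟩ := isConj_iff.mp hc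
      refine ⟨cj_mem (dl_mem i) c, fun w => ?_⟩
      have e : w * (c * dl i * c⁻¹) * w⁻¹ = (w * c) * dl i * (w * c)⁻¹ := by group
      show L (w * (c * dl i * c⁻¹) * w⁻¹) = 0
      rw [e]
      exact hL.all' hh i _
    | one =>
      refine ⟨Subgroup.one_mem _, fun w => ?_⟩
      rw [mul_one, mul_inv_cancel, hL.hom.map_one]
    | mul x y hx hy h1 h2 =>
      obtain ⟨a1, b1⟩ := h1 hx
      obtain ⟨a2, b2⟩ := h2 hy
      refine ⟨Subgroup.mul_mem _ a1 a2, fun w => ?_⟩
      rw [hL.hom.cj_mul w a1 a2, b1, b2, add_zero]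
    | inv x hx h1 =>
      obtain ⟨a1, b1⟩ := h1 hx
      refine ⟨Subgroup.inv_mem _ a1, fun w => ?_⟩
      rw [hL.hom.cj_inv w a1, b1, neg_zero]
  exact key.2 w

/-- elements of `Dn` do not matter in commutators -/
private theorem j4_move (hL : Kil L) (hh : 2 ≤ h) {e e' : F h 0} (he : e ∈ Dn h) (he' : e' ∈ Dn h)
    (c d : F h 0) : L (cm (e * c) (e' * d)) = L (cm c d) := by
  have h1 := hL.hom.cm_dmul_left 1 c (e' * d) (Dn_le h he)
  have h2 := hL.hom.cm_dmul_right 1 c d (Dn_le h he')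
  rw [hL.nc hh he, hL.nc hh he, sub_zero, zero_add] at h1
  rw [hL.nc hh he', hL.nc hh he', sub_zero, zero_add] at h2
  rw [h2] at h1
  simpa only [one_mul, inv_one, mul_one] using h1

private theorem j4_cj {v : F h 0} (hv : v ∈ Dn h) (c : F h 0) : cm v c ∈ Dn h := by
  have : (Dn h).Normal := Subgroup.normalClosure_normal
  have h1 : c * v⁻¹ * c⁻¹ ∈ Dn h := this.conj_mem v⁻¹ ((Dn h).inv_mem hv) c
  have e : cm v c = v * (c * v⁻¹ * c⁻¹) := by
    unfold cm
    group
  rw [e]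
  exact (Dn h).mul_mem hv h1

private theorem j4_map (φ : MulAut (F h 0)) (x y : F h 0) : φ (cm x y) = cm (φ x) (φ y) :=
  map_cm φ.toMonoidHom x y

/-- the letters of the first two handles -/
private theorem j4_base (hL : Kil L) (hh : 2 ≤ h) {z o : Fin h} (hz : (z : ℕ) = 0)
    (ho : (o : ℕ) = z + 1) {c d : F h 0} (hc : c = ga z ∨ c = gb z) (hd : d = ga o ∨ d = gb o) :
    L (cm c d) = 0 := by
  have hzo : o ≠ z := by
    rintro rfl
    omega
  have b1 : ∀ {L : F h 0 → A}, Kil L → L (cm (ga z) (ga o)) = 0 := by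
    intro L hL
    have h1 := hL.aa_let hz ho 0 (μ := 1) (Subgroup.one_mem _) rfl rfl
    simpa only [zpow_zero, one_mul, inv_one, mul_one, MulAut.one_apply] using h1
  have m1 : dl z ∈ Dn h := Subgroup.subset_normalClosure ⟨z, rfl⟩
  have m2 : dl o ∈ Dn h := Subgroup.subset_normalClosure ⟨o, rfl⟩
  have r1 : rr z ∈ MCGd h := rr_bdry z
  have r2 : rr o ∈ MCGd h := rr_bdry o
  have e1 : ∀ i : Fin h, (ga i * gb i * (ga i)⁻¹ : F h 0) = dl i * gb i := by
    intro i
    unfold dl cm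
    group
  have b2 : ∀ {L : F h 0 → A}, Kil L → L (cm (gb z) (ga o)) = 0 := by
    intro L hL
    have h1 := b1 (hL.aut r1)
    have h2 : L (rr z (cm (ga z) (ga o))) = 0 := h1
    have h3 : rr z (cm (ga z) (ga o) : F h 0) = cm (dl z * gb z) (1 * ga o) := by
      rw [j4_map, rr_a, rr_a' hzo, e1, one_mul]
    rw [h3, j4_move hL hh m1 (Subgroup.one_mem _)] at h2
    exact h2
  rcases hc with rfl | rfl <;> rcases hd with rfl | rfl
  · exact b1 hL
  · have h1 := b1 (hL.aut r2)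
    have h2 : L (rr o (cm (ga z) (ga o))) = 0 := h1
    have h3 : rr o (cm (ga z) (ga o) : F h 0) = cm (1 * ga z) (dl o * gb o) := by
      rw [j4_map, rr_a, rr_a' hzo.symm, e1, one_mul]
    rw [h3, j4_move hL hh (Subgroup.one_mem _) m2] at h2
    exact h2
  · exact b2 hL
  · have h1 := b2 (hL.aut r2)
    have h2 : L (rr o (cm (gb z) (ga o))) = 0 := h1
    have h3 : rr o (cm (gb z) (ga o) : F h 0) = cm (1 * gb z) (dl o * gb o) := by
      rw [j4_map, rr_a, rr_b' hzo.symm, e1, one_mul]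
    rw [h3, j4_move hL hh (Subgroup.one_mem _) m2] at h2
    exact h2

/-- letters of different handles -/
theorem Kil.cm_let (hL : Kil L) (hh : 2 ≤ h) {i j : Fin h} (hij : i ≠ j) {c d : F h 0}
    (hc : c = ga i ∨ c = gb i) (hd : d = ga j ∨ d = gb j) (w : F h 0) :
    L (w * cm c d * w⁻¹) = 0 := by
  have h0 : 0 < h := by omega
  have h1 : 1 < h := by omega
  set z : Fin h := ⟨0, h0⟩ with hzdef
  set o : Fin h := ⟨1, h1⟩ with hodef
  have hz : (z : ℕ) = 0 := rfl
  have ho : (o : ℕ) = z + 1 := rfl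
  have hzo : z ≠ o := by
    intro he
    have := congrArg (fun x : Fin h => (x : ℕ)) he
    simp [hzdef, hodef] at this
  -- the permutation
  obtain ⟨s, hsz, hso⟩ : ∃ s : Equiv.Perm (Fin h), s z = i ∧ s o = j := by
    have hne : Equiv.swap z i o ≠ i := by
      intro he
      have h2 : Equiv.swap z i z = i := Equiv.swap_apply_left z i
      exact hzo ((Equiv.swap z i).injective (h2.trans he.symm))
    refine ⟨(Equiv.swap z i).trans (Equiv.swap (Equiv.swap z i o) j), ?_, ?_⟩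
    · rw [Equiv.trans_apply, Equiv.swap_apply_left]
      exact Equiv.swap_apply_of_ne_of_ne hne.symm hij
    · rw [Equiv.trans_apply]
      exact Equiv.swap_apply_left _ _
  obtain ⟨φ, hφ, hp⟩ := perm_exists s
  obtain ⟨v, hv, va, vb⟩ := hp z
  obtain ⟨v', hv', va', vb'⟩ := hp o
  rw [hsz] at va vb
  rw [hso] at va' vb'
  have hK := hL.cj hh w
  -- the preimages of the letters
  obtain ⟨c0, hc0, hc1⟩ : ∃ c0 : F h 0, (c0 = ga z ∨ c0 = gb z) ∧ φ c0 = v * c * v⁻¹ := by
    rcases hc with rfl | rfl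
    · exact ⟨ga z, Or.inl rfl, va⟩
    · exact ⟨gb z, Or.inr rfl, vb⟩
  obtain ⟨d0, hd0, hd1⟩ : ∃ d0 : F h 0, (d0 = ga o ∨ d0 = gb o) ∧ φ d0 = v' * d * v'⁻¹ := by
    rcases hd with rfl | rfl
    · exact ⟨ga o, Or.inl rfl, va'⟩
    · exact ⟨gb o, Or.inr rfl, vb'⟩
  have h2 := j4_base (hK.aut hφ) hh hz ho hc0 hd0
  have h3 : φ (cm c0 d0) = cm (cm v c * c) (cm v' d * d) := by
    have h4 : φ (cm c0 d0) = cm (φ c0) (φ d0) := map_cm φ.toMonoidHom c0 d0
    rw [h4, hc1, hd1]
    congr 1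
    · unfold cm
      group
    · unfold cm
      group
  have h5 := j4_move hK hh (j4_cj hv c) (j4_cj hv' d) c d
  have h6 : L (w * φ (cm c0 d0) * w⁻¹) = 0 := h2
  rw [h3] at h6
  have h7 : L (w * cm (cm v c * c) (cm v' d * d) * w⁻¹) = L (w * cm c d * w⁻¹) := h5
  rw [← h7]
  exact h6

/-- a homomorphism on the commutator subgroup is determined by the conjugates of the commutators
of the letters -/
theorem DHom.zero_of_letters {g n : ℕ} {L : F g n → A} (hL : DHom L)
    (h : ∀ (x y : Gen g n) (w : F g n),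
      L (w * cm (FreeGroup.of x) (FreeGroup.of y) * w⁻¹) = 0) :
    ∀ d ∈ DD g n, L d = 0 := by
  have z1 : ∀ w : F g n, L (w * 1 * w⁻¹) = 0 := by
    intro w
    rw [mul_one, mul_inv_cancel, hL.map_one]
  have s1 : ∀ (x : Gen g n) (v w : F g n), L (w * cm (FreeGroup.of x) v * w⁻¹) = 0 := by
    intro x v
    induction v using FreeGroup.induction_on with
    | C1 =>
      intro w
      have e : cm (FreeGroup.of x) (1 : F g n) = 1 := by
        unfold cm
        group
      rw [e]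
      exact z1 w
    | of y => exact h x y
    | inv_of y ih =>
      intro w
      rw [hL.cm_inv_right, ih, neg_zero]
    | mul u v hu hv =>
      intro w
      rw [hL.cm_mul_right, hu, hv, add_zero]
  have s2 : ∀ (u v w : F g n), L (w * cm u v * w⁻¹) = 0 := by
    intro u v
    induction u using FreeGroup.induction_on with
    | C1 =>
      intro w
      have e : cm (1 : F g n) v = 1 := by
        unfold cm
        group
      rw [e]
      exact z1 w
    | of y => exact s1 y v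
    | inv_of y ih =>
      intro w
      rw [hL.cm_inv_left, ih, neg_zero]
    | mul u v hu hv =>
      intro w
      rw [hL.cm_mul_left, hu, hv, add_zero]
  intro d hd
  have hd' : d ∈ Subgroup.closure (commutatorSet (F g n)) := by
    rw [← commutator_eq_closure]
    exact hd
  have key : d ∈ DD g n ∧ L d = 0 := by
    induction hd' using Subgroup.closure_induction with
    | mem x hx =>
      obtain ⟨a, b, rfl⟩ := hx
      refine ⟨cm_mem a b, ?_⟩
      have h1 := s2 a b 1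
      rw [one_mul, inv_one, mul_one] at h1
      exact h1
    | one => exact ⟨Subgroup.one_mem _, hL.map_one⟩
    | mul x y hx hy h1 h2 =>
      have hx' : x ∈ DD g n := by
        show x ∈ commutator (F g n)
        rw [commutator_eq_closure]
        exact hx
      have hy' : y ∈ DD g n := by
        show y ∈ commutator (F g n)
        rw [commutator_eq_closure]
        exact hy
      obtain ⟨a1, b1⟩ := h1 hx'
      obtain ⟨a2, b2⟩ := h2 hy'
      exact ⟨Subgroup.mul_mem _ a1 a2, by rw [hL x a1 y a2, b1, b2, add_zero]⟩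
    | inv x hx h1 =>
      have hx' : x ∈ DD g n := by
        show x ∈ commutator (F g n)
        rw [commutator_eq_closure]
        exact hx
      obtain ⟨a1, b1⟩ := h1 hx'
      exact ⟨Subgroup.inv_mem _ a1, by rw [hL.map_inv a1, b1, neg_zero]⟩
  exact key.2

/-- Theorem J: the abelianised commutator subgroup is generated by the lassos of the first handle. -/
theorem J {z : Fin h} (hL : DHom L) (hh : 2 ≤ h) (hz : (z : ℕ) = 0)
    (hk : ∀ φ ∈ MCGd h, L (φ (dl z)) = 0) : ∀ d ∈ DD h 0, L d = 0 := by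
  have hK : Kil L := Kil.mk0 hL hz hk
  apply hL.zero_of_letters
  intro x y w
  have same : ∀ (u : F h 0), L (w * cm u u * w⁻¹) = 0 := by
    intro u
    have e : cm u u = 1 := by
      unfold cm
      group
    rw [e, mul_one, mul_inv_cancel, hL.map_one]
  match x, y with
  | Gen.a i, Gen.a j =>
    by_cases hij : i = j
    · subst hij
      exact same _
    · exact hK.cm_let hh hij (Or.inl rfl) (Or.inl rfl) w
  | Gen.a i, Gen.b j =>
    by_cases hij : i = j
    · subst hij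
      exact hK.all' hh i w
    · exact hK.cm_let hh hij (Or.inl rfl) (Or.inr rfl) w
  | Gen.b i, Gen.a j =>
    by_cases hij : i = j
    · subst hij
      have h1 := hL.cm_swap w (ga i) (gb i)
      have h2 : L (w * cm (gb i) (ga i) * w⁻¹) = 0 := by
        rw [h1]
        have h3 : L (w * cm (ga i) (gb i) * w⁻¹) = 0 := hK.all' hh i w
        rw [h3, neg_zero]
      exact h2
    · exact hK.cm_let hh hij (Or.inr rfl) (Or.inl rfl) w
  | Gen.b i, Gen.b j =>
    by_cases hij : i = j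
    · subst hij
      exact same _
    · exact hK.cm_let hh hij (Or.inr rfl) (Or.inr rfl) w
  | Gen.c j, _ => exact j.elim0
  | _, Gen.c j => exact j.elim0

theorem st_J : St_J := fun _ _ hh hz hL hk => J hL hh hz hk

end Pool.Agent.PWM
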