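import Pool.Agent.PWM.StA

/-!
# Blocks of handles
-/

namespace Pool.Agent.PWM

open Pool.Agent.PW

variable {g n : ℕ}

/-- The letters of the handles `i` with `m ≤ i < m + h`. -/
def Bk (g n m h : ℕ) : Subgroup (F g n) :=
  Subgroup.closure {x | ∃ i : Fin g, m ≤ (i : ℕ) ∧ (i : ℕ) < m + h ∧ (x = ga i ∨ x = gb i)}

theorem Bk_a {m h : ℕ} {i : Fin g} (h1 : m ≤ (i : ℕ)) (h2 : (i : ℕ) < m + h) :
    ga i ∈ Bk g n m h := Subgroup.subset_closure ⟨i, h1, h2, Or.inl rfl⟩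

theorem Bk_b {m h : ℕ} {i : Fin g} (h1 : m ≤ (i : ℕ)) (h2 : (i : ℕ) < m + h) :
    gb i ∈ Bk g n m h := Subgroup.subset_closure ⟨i, h1, h2, Or.inr rfl⟩

theorem Fge_a {m : ℕ} {i : Fin g} (h1 : m ≤ (i : ℕ)) : ga i ∈ Fge g n m :=
  Subgroup.subset_closure (Or.inl ⟨i, h1, Or.inl rfl⟩)

theorem Fge_b {m : ℕ} {i : Fin g} (h1 : m ≤ (i : ℕ)) : gb i ∈ Fge g n m :=
  Subgroup.subset_closure (Or.inl ⟨i, h1, Or.inr rfl⟩)

theorem Fge_c {m : ℕ} (j : Fin n) : gc j ∈ Fge g n m :=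
  Subgroup.subset_closure (Or.inr ⟨j, rfl⟩)

theorem Flt_a {m : ℕ} {i : Fin g} (h1 : (i : ℕ) < m) : ga i ∈ Flt g n m :=
  Subgroup.subset_closure ⟨i, h1, Or.inl rfl⟩

theorem Flt_b {m : ℕ} {i : Fin g} (h1 : (i : ℕ) < m) : gb i ∈ Flt g n m :=
  Subgroup.subset_closure ⟨i, h1, Or.inr rfl⟩

theorem Flt_eq (m : ℕ) : Flt g n m = Bk g n 0 m := by
  unfold Flt Bk
  congr 1
  ext x
  simp

theorem Bk_le_Fge {m h k : ℕ} (hk : k ≤ m) : Bk g n m h ≤ Fge g n k := by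
  unfold Bk
  rw [Subgroup.closure_le]
  rintro x ⟨i, h1, h2, rfl | rfl⟩
  · exact Fge_a (hk.trans h1)
  · exact Fge_b (hk.trans h1)

theorem Fge_anti {m k : ℕ} (hk : k ≤ m) : Fge g n m ≤ Fge g n k := by
  unfold Fge
  apply Subgroup.closure_mono
  rintro x (⟨i, h1, h2⟩ | h)
  · exact Or.inl ⟨i, hk.trans h1, h2⟩
  · exact Or.inr h

theorem Flt_mono {m k : ℕ} (hk : m ≤ k) : Flt g n m ≤ Flt g n k := by
  unfold Flt
  apply Subgroup.closure_mono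
  rintro x ⟨i, h1, h2⟩
  exact ⟨i, lt_of_lt_of_le h1 hk, h2⟩

theorem Flt_sup_Fge (m : ℕ) : Flt g n m ⊔ Fge g n m = ⊤ := by
  apply eq_top_of_gens
  · intro i
    by_cases h : (i : ℕ) < m
    · exact (le_sup_left : Flt g n m ≤ _) (Flt_a h)
    · exact (le_sup_right : Fge g n m ≤ _) (Fge_a (not_lt.mp h))
  · intro i
    by_cases h : (i : ℕ) < m
    · exact (le_sup_left : Flt g n m ≤ _) (Flt_b h)
    · exact (le_sup_right : Fge g n m ≤ _) (Fge_b (not_lt.mp h))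
  · intro j
    exact (le_sup_right : Fge g n m ≤ _) (Fge_c j)

section

variable {h m : ℕ} {hm : m + h ≤ g}

theorem blk_a (i : Fin h) : blk h g n m hm (ga i) = ga ⟨m + i, by omega⟩ := by
  simp [blk, ga]

theorem blk_b (i : Fin h) : blk h g n m hm (gb i) = gb ⟨m + i, by omega⟩ := by
  simp [blk, gb]

theorem blk_dl (i : Fin h) : blk h g n m hm (dl i) = dl ⟨m + i, by omega⟩ := by
  rw [map_dl, blk_a, blk_b]
  rfl

theorem blk_range (hm : m + h ≤ g) : (blk h g n m hm).range = Bk g n m h := by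
  apply le_antisymm
  · rintro _ ⟨x, rfl⟩
    have : (⊤ : Subgroup (F h 0)) ≤ (Bk g n m h).comap (blk h g n m hm) := by
      rw [← FreeGroup.closure_range_of, Subgroup.closure_le]
      rintro _ ⟨y, rfl⟩
      cases y with
      | a i =>
        show blk h g n m hm (ga i) ∈ Bk g n m h
        rw [blk_a]
        exact Bk_a (by simp) (by simp)
      | b i =>
        show blk h g n m hm (gb i) ∈ Bk g n m h
        rw [blk_b]
        exact Bk_b (by simp) (by simp)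
      | c j => exact j.elim0
    exact this (Subgroup.mem_top x)
  · unfold Bk
    rw [Subgroup.closure_le]
    rintro x ⟨i, h1, h2, rfl | rfl⟩
    · refine ⟨ga ⟨(i : ℕ) - m, by omega⟩, ?_⟩
      rw [blk_a]
      congr 1
      apply Fin.ext
      show m + ((i : ℕ) - m) = i
      omega
    · refine ⟨gb ⟨(i : ℕ) - m, by omega⟩, ?_⟩
      rw [blk_b]
      congr 1
      apply Fin.ext
      show m + ((i : ℕ) - m) = i
      omega

theorem blk_DD (hm : m + h ≤ g) :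
    (DD h 0).map (blk h g n m hm) = ⁅Bk g n m h, Bk g n m h⁆ := by
  have h2 : DD h 0 = ⁅(⊤ : Subgroup (F h 0)), ⊤⁆ := commutator_def _
  rw [h2, Subgroup.map_commutator, ← MonoidHom.range_eq_map, blk_range]

theorem mem_blk_DD {d : F g n} (hm : m + h ≤ g) :
    d ∈ ⁅Bk g n m h, Bk g n m h⁆ ↔ ∃ x ∈ DD h 0, blk h g n m hm x = d := by
  rw [← blk_DD hm]
  exact Subgroup.mem_map

end

/-- `Ψ` is the extension of an automorphism of the block of the handles `i`, `m ≤ i < m + h`. -/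
def BlkExt (h g n m : ℕ) (hm : m + h ≤ g) (Ψ : MulAut (F g n)) : Prop :=
  Ψ ∈ MCG g n ∧ Ψ (bdry g n) = bdry g n ∧
    (∃ ψ ∈ MCGd h, ∀ x, Ψ (blk h g n m hm x) = blk h g n m hm (ψ x)) ∧
    (∀ i : Fin g, ((i : ℕ) < m ∨ m + h ≤ (i : ℕ)) → Ψ (ga i) = ga i ∧ Ψ (gb i) = gb i) ∧
    ∀ j, Ψ (gc j) = gc j

section

variable {h m : ℕ} {hm : m + h ≤ g} {Ψ : MulAut (F g n)}

theorem BlkExt.fix_ge (hΨ : BlkExt h g n m hm Ψ) {k : ℕ} (hk : m + h ≤ k) {x : F g n}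
    (hx : x ∈ Fge g n k) : Ψ x = x := by
  have : Fge g n k ≤ Ψ.toMonoidHom.eqLocus (MonoidHom.id _) := by
    unfold Fge
    rw [Subgroup.closure_le]
    rintro x (⟨i, h1, rfl | rfl⟩ | ⟨j, rfl⟩)
    · exact (hΨ.2.2.2.1 i (Or.inr (hk.trans h1))).1
    · exact (hΨ.2.2.2.1 i (Or.inr (hk.trans h1))).2
    · exact hΨ.2.2.2.2 j
  exact this hx

theorem BlkExt.fix_lt (hΨ : BlkExt h g n m hm Ψ) {k : ℕ} (hk : k ≤ m) {x : F g n}
    (hx : x ∈ Flt g n k) : Ψ x = x := by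
  have : Flt g n k ≤ Ψ.toMonoidHom.eqLocus (MonoidHom.id _) := by
    unfold Flt
    rw [Subgroup.closure_le]
    rintro x ⟨i, h1, rfl | rfl⟩
    · exact (hΨ.2.2.2.1 i (Or.inl (lt_of_lt_of_le h1 hk))).1
    · exact (hΨ.2.2.2.1 i (Or.inl (lt_of_lt_of_le h1 hk))).2
  exact this hx

theorem BlkExt.map_bk (hΨ : BlkExt h g n m hm Ψ) {x : F g n} (hx : x ∈ Bk g n m h) :
    Ψ x ∈ Bk g n m h := by
  rw [← blk_range hm] at hx ⊢
  obtain ⟨y, rfl⟩ := hx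
  obtain ⟨ψ, -, h1⟩ := hΨ.2.2.1
  exact ⟨ψ y, (h1 y).symm⟩

end

/-- Block extensions exist. -/
theorem exists_blkExt (hB : St_Blk) {h m : ℕ} (hm : m + h ≤ g) {ψ : MulAut (F h 0)}
    (hψ : ψ ∈ MCGd h) : ∃ Ψ, BlkExt h g n m hm Ψ ∧
      ∀ x, Ψ (blk h g n m hm x) = blk h g n m hm (ψ x) := by
  obtain ⟨Ψ, h1, h2, h3, h4, h5⟩ := hB (n := n) hm ψ hψ
  exact ⟨Ψ, ⟨h1, h2, ⟨ψ, hψ, h3⟩, h4, h5⟩, h3⟩

/-- J for a block, additive. -/
theorem JB (hB : St_Blk) (hJ : St_J) {h m : ℕ} (hm : m + h ≤ g) (hh : 2 ≤ h) {A : Type}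
    [AddCommGroup A] {L : F g n → A}
    (hL : ∀ x ∈ ⁅Bk g n m h, Bk g n m h⁆, ∀ y ∈ ⁅Bk g n m h, Bk g n m h⁆, L (x * y) = L x + L y)
    (h0 : ∀ Ψ, BlkExt h g n m hm Ψ → ∀ i : Fin g, (i : ℕ) = m → L (Ψ (dl i)) = 0)
    {d : F g n} (hd : d ∈ ⁅Bk g n m h, Bk g n m h⁆) : L d = 0 := by
  obtain ⟨x, hx, rfl⟩ := (mem_blk_DD hm).mp hd
  refine hJ (fun x => L (blk h g n m hm x)) ⟨0, by omega⟩ hh rfl ?_ ?_ x hx
  · intro x hx y hy
    show L (blk h g n m hm (x * y)) = L (blk h g n m hm x) + L (blk h g n m hm y)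
    rw [map_mul]
    exact hL _ ((mem_blk_DD hm).mpr ⟨x, hx, rfl⟩) _ ((mem_blk_DD hm).mpr ⟨y, hy, rfl⟩)
  · intro φ hφ
    obtain ⟨Ψ, h1, h2⟩ := exists_blkExt (n := n) hB hm hφ
    show L (blk h g n m hm (φ (dl _))) = 0
    rw [← h2, blk_dl]
    exact h0 Ψ h1 _ (by simp)

section Mult

variable {k : Type} [Field k]

open Classical in
/-- A multiplicative function as a function to an additive group. -/
noncomputable def toAdd (X : F g n → k) (x : F g n) : Additive kˣ :=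
  if h : X x ≠ 0 then Additive.ofMul (Units.mk0 (X x) h) else 0

theorem toAdd_mul {X : F g n → k} {x y : F g n} (hx : X x ≠ 0) (hy : X y ≠ 0)
    (h : X (x * y) = X x * X y) : toAdd X (x * y) = toAdd X x + toAdd X y := by
  have h3 : X (x * y) ≠ 0 := by
    rw [h]
    exact mul_ne_zero hx hy
  unfold toAdd
  rw [dif_pos hx, dif_pos hy, dif_pos h3, ← ofMul_mul]
  congr 1
  apply Units.ext
  simp [h]

theorem toAdd_zero {X : F g n → k} {x : F g n} (hx : X x ≠ 0) : toAdd X x = 0 ↔ X x = 1 := by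
  unfold toAdd
  rw [dif_pos hx]
  constructor
  · intro h
    have h1 : Units.mk0 (X x) hx = 1 := h
    have h2 := congrArg Units.val h1
    simpa using h2
  · intro h
    have h1 : Units.mk0 (X x) hx = 1 := Units.ext (by simpa using h)
    rw [h1]
    rfl

/-- J for a block, multiplicative. -/
theorem JBx (hB : St_Blk) (hJ : St_J) {h m : ℕ} (hm : m + h ≤ g) (hh : 2 ≤ h) {X : F g n → k}
    (h0 : ∀ x ∈ ⁅Bk g n m h, Bk g n m h⁆, X x ≠ 0)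
    (hX : ∀ x ∈ ⁅Bk g n m h, Bk g n m h⁆, ∀ y ∈ ⁅Bk g n m h, Bk g n m h⁆, X (x * y) = X x * X y)
    (h1 : ∀ Ψ, BlkExt h g n m hm Ψ → ∀ i : Fin g, (i : ℕ) = m → X (Ψ (dl i)) = 1)
    {d : F g n} (hd : d ∈ ⁅Bk g n m h, Bk g n m h⁆) : X d = 1 := by
  rw [← toAdd_zero (h0 d hd)]
  refine JB hB hJ hm hh (fun x hx y hy => toAdd_mul (h0 x hx) (h0 y hy) (hX x hx y hy)) ?_ hd
  intro Ψ hΨ i hi
  have h2 : X (Ψ (dl i)) ≠ 0 := by
    rw [h1 Ψ hΨ i hi]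
    exact one_ne_zero
  exact (toAdd_zero h2).mpr (h1 Ψ hΨ i hi)

/-- N' for a block, multiplicative. -/
theorem NBx (hB : St_Blk) (hN : St_N) {h m : ℕ} (hm : m + h ≤ g) (hh : 4 ≤ h) {X : F g n → k}
    (h0 : ∀ x ∈ ⁅Bk g n m h, Bk g n m h⁆, X x ≠ 0)
    (hX : ∀ x ∈ ⁅Bk g n m h, Bk g n m h⁆, ∀ y ∈ ⁅Bk g n m h, Bk g n m h⁆, X (x * y) = X x * X y)
    (h1 : ∃ d ∈ ⁅Bk g n m h, Bk g n m h⁆, X d ≠ 1) :
    ∃ Ψ, BlkExt h g n m hm Ψ ∧ (∀ i : Fin g, (i : ℕ) = m → X (Ψ (dl i)) ≠ 1) ∧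
      ∀ i : Fin g, (i : ℕ) = m + 1 → X (Ψ (dl i)) ≠ 1 := by
  obtain ⟨d, hd, hd1⟩ := h1
  obtain ⟨x, hx, rfl⟩ := (mem_blk_DD hm).mp hd
  have hmem : ∀ x ∈ DD h 0, blk h g n m hm x ∈ ⁅Bk g n m h, Bk g n m h⁆ := fun x hx =>
    (mem_blk_DD hm).mpr ⟨x, hx, rfl⟩
  obtain ⟨φ, hφ, h2, h3⟩ := hN (fun x => toAdd X (blk h g n m hm x)) ⟨0, by omega⟩ ⟨1, by omega⟩
    hh rfl rfl (by
      intro x hx y hy
      show toAdd X (blk h g n m hm (x * y)) =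
        toAdd X (blk h g n m hm x) + toAdd X (blk h g n m hm y)
      rw [map_mul]
      exact toAdd_mul (h0 _ (hmem x hx)) (h0 _ (hmem y hy)) (hX _ (hmem x hx) _ (hmem y hy)))
    ⟨x, hx, fun h => hd1 ((toAdd_zero (h0 _ hd)).mp h)⟩
  obtain ⟨Ψ, h4, h5⟩ := exists_blkExt (n := n) hB hm hφ
  have key : ∀ (i : Fin h) (j : Fin g), (j : ℕ) = m + i →
      toAdd X (blk h g n m hm (φ (dl i))) ≠ 0 → X (Ψ (dl j)) ≠ 1 := by
    intro i j hij h6 h7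
    have e : (dl j : F g n) = blk h g n m hm (dl i) := by
      rw [blk_dl]
      congr 1
      exact Fin.ext hij
    rw [e, h5] at h7
    exact h6 ((toAdd_zero (h0 _ (hmem _ (map_aut_mem φ (dl_mem i))))).mpr h7)
  refine ⟨Ψ, h4, ?_, ?_⟩
  · intro i hi
    exact key ⟨0, by omega⟩ i (by simpa using hi) h2
  · intro i hi
    exact key ⟨1, by omega⟩ i (by simpa using hi) h3

end Mult

/-- Euclid for a block. -/
theorem EB (hB : St_Blk) (hE : St_Euc) {h m : ℕ} (hm : m + h ≤ g) {y : F g n}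
    (hy : y ∈ Bk g n m h) {i : Fin g} (h1 : m ≤ (i : ℕ)) (h2 : (i : ℕ) < m + h) :
    ∃ Ψ, BlkExt h g n m hm Ψ ∧ ∃ l : ℤ, y * (Ψ (ga i) ^ l)⁻¹ ∈ ⁅Bk g n m h, Bk g n m h⁆ := by
  rw [← blk_range hm] at hy
  obtain ⟨x, rfl⟩ := hy
  obtain ⟨ψ, hψ, l, hl⟩ := hE x ⟨(i : ℕ) - m, by omega⟩
  obtain ⟨Ψ, h4, h5⟩ := exists_blkExt (n := n) hB hm hψ
  refine ⟨Ψ, h4, l, ?_⟩
  have e : (ga i : F g n) = blk h g n m hm (ga ⟨(i : ℕ) - m, by omega⟩) := by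
    rw [blk_a]
    congr 1
    apply Fin.ext
    show (i : ℕ) = m + ((i : ℕ) - m)
    omega
  rw [mem_blk_DD hm]
  refine ⟨_, hl, ?_⟩
  rw [map_mul, map_inv, map_zpow, e, h5]

end Pool.Agent.PWM
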