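import Pool.Agent.PWM.Bas

/-!
# The automorphisms `r`, `κ` and the word `W` (paper, 3)

`rr i = e1 i (-1) * e2 i 1 * e1 i (-1)`; `kk i = (rr i)⁻¹ * (rr i)⁻¹ * dt i 1` takes `(gg i)⁻¹` to `ga i`;
`k2 i = (dt i 1)⁻¹ * rr i * rr i` takes `ga i` to `(gg i)⁻¹`.
-/

namespace Pool.Agent.PWM

open Pool.Agent.PW

variable {g n : ℕ}

/-- `g = b a b⁻¹` -/
def gg (i : Fin g) : F g n := gb i * ga i * (gb i)⁻¹

/-- `a ↦ a b a⁻¹`, `b ↦ a⁻¹` -/
def rr (i : Fin g) : MulAut (F g n) := e1 i (-1) * e2 i 1 * e1 i (-1)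

theorem e1_b (i : Fin g) (k : ℤ) : e1 (n := n) i k (gb i) = gb i * ga i ^ k := e1h_b i k

theorem e1_b' {i j : Fin g} (h : j ≠ i) (k : ℤ) : e1 (n := n) i k (gb j) = gb j := e1h_b' h k

theorem e1_a (i j : Fin g) (k : ℤ) : e1 (n := n) i k (ga j) = ga j := e1h_a i j k

theorem e1_c (i : Fin g) (j : Fin n) (k : ℤ) : e1 i k (gc j) = gc j := e1h_c i j k

theorem e2_a (i : Fin g) (k : ℤ) : e2 (n := n) i k (ga i) = ga i * gb i ^ k := e2h_a i k

theorem e2_a' {i j : Fin g} (h : j ≠ i) (k : ℤ) : e2 (n := n) i k (ga j) = ga j := e2h_a' h k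

theorem e2_b (i j : Fin g) (k : ℤ) : e2 (n := n) i k (gb j) = gb j := e2h_b i j k

theorem e2_c (i : Fin g) (j : Fin n) (k : ℤ) : e2 i k (gc j) = gc j := e2h_c i j k

theorem e1_bdry (i : Fin g) (k : ℤ) : e1 i k (bdry g n) = bdry g n := e1h_bdry i k

theorem e2_bdry (i : Fin g) (k : ℤ) : e2 i k (bdry g n) = bdry g n := e2h_bdry i k

theorem e1_dl (i j : Fin g) (k : ℤ) : e1 (n := n) i k (dl j) = dl j := by
  by_cases h : j = i
  · subst h
    rw [aut_dl, e1_a, e1_b]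
    unfold dl cm
    group
  · rw [aut_dl, e1_a, e1_b' h]
    rfl

theorem e2_dl (i j : Fin g) (k : ℤ) : e2 (n := n) i k (dl j) = dl j := by
  by_cases h : j = i
  · subst h
    rw [aut_dl, e2_a, e2_b]
    unfold dl cm
    group
  · rw [aut_dl, e2_a' h, e2_b]
    rfl

theorem inv_of_fix {G : Type*} [Group G] (φ : MulAut G) {x : G} (h : φ x = x) : φ⁻¹ x = x := by
  conv_lhs => rw [← h]
  simp

theorem inv_of_eq {G : Type*} [Group G] (φ : MulAut G) {x y : G} (h : φ x = y) : φ⁻¹ y = x := by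
  rw [← h]
  simp

theorem rr_a (i : Fin g) : rr (n := n) i (ga i) = ga i * gb i * (ga i)⁻¹ := by
  unfold rr
  simp only [MulAut.mul_apply, e1_a, e2_a, map_mul, zpow_one, e1_b]
  group

theorem rr_b (i : Fin g) : rr (n := n) i (gb i) = (ga i)⁻¹ := by
  unfold rr
  simp only [MulAut.mul_apply, e1_b, map_mul, map_zpow, e2_a, e2_b, e1_a, zpow_one]
  group

theorem rr_a' {i j : Fin g} (h : j ≠ i) : rr (n := n) i (ga j) = ga j := by
  unfold rr
  simp only [MulAut.mul_apply, e1_a, e2_a' h]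

theorem rr_b' {i j : Fin g} (h : j ≠ i) : rr (n := n) i (gb j) = gb j := by
  unfold rr
  simp only [MulAut.mul_apply, e1_b' h, e2_b]

theorem rr_c (i : Fin g) (j : Fin n) : rr i (gc j) = gc j := by
  unfold rr
  simp only [MulAut.mul_apply, e1_c, e2_c]

theorem rr_dl (i j : Fin g) : rr (n := n) i (dl j) = dl j := by
  unfold rr
  simp only [MulAut.mul_apply, e1_dl, e2_dl]

theorem rr_bdry (i : Fin g) : rr i (bdry g n) = bdry g n := by
  unfold rr
  simp only [MulAut.mul_apply, e1_bdry, e2_bdry]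

theorem rr_mem (i : Fin g) : rr i ∈ MCG g n :=
  (MCG g n).mul_mem ((MCG g n).mul_mem (e1_mem i _) (e2_mem i _)) (e1_mem i _)

theorem rri_a (i : Fin g) : (rr (n := n) i)⁻¹ (ga i) = (gb i)⁻¹ := by
  apply inv_of_eq
  rw [map_inv, rr_b, inv_inv]

theorem rri_b (i : Fin g) : (rr (n := n) i)⁻¹ (gb i) = gb i * ga i * (gb i)⁻¹ := by
  apply inv_of_eq
  rw [map_mul, map_mul, map_inv, rr_a, rr_b]
  group

theorem rri_a' {i j : Fin g} (h : j ≠ i) : (rr (n := n) i)⁻¹ (ga j) = ga j :=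
  inv_of_fix _ (rr_a' h)

theorem rri_b' {i j : Fin g} (h : j ≠ i) : (rr (n := n) i)⁻¹ (gb j) = gb j :=
  inv_of_fix _ (rr_b' h)

theorem rri_c (i : Fin g) (j : Fin n) : (rr i)⁻¹ (gc j) = gc j :=
  inv_of_fix _ (rr_c i j)

theorem rri_dl (i j : Fin g) : (rr (n := n) i)⁻¹ (dl j) = dl j :=
  inv_of_fix _ (rr_dl i j)

theorem rri_bdry (i : Fin g) : (rr i)⁻¹ (bdry g n) = bdry g n :=
  inv_of_fix _ (rr_bdry i)

theorem dt_a (i : Fin g) (k : ℤ) : dt (n := n) i k (ga i) = dl i ^ k * ga i * dl i ^ (-k) :=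
  dh_a i k

theorem dt_b (i : Fin g) (k : ℤ) : dt (n := n) i k (gb i) = dl i ^ k * gb i * dl i ^ (-k) :=
  dh_b i k

theorem dt_a' {i j : Fin g} (h : j ≠ i) (k : ℤ) : dt (n := n) i k (ga j) = ga j := dh_a' h k

theorem dt_b' {i j : Fin g} (h : j ≠ i) (k : ℤ) : dt (n := n) i k (gb j) = gb j := dh_b' h k

theorem dt_dl (i j : Fin g) (k : ℤ) : dt (n := n) i k (dl j) = dl j := by
  by_cases h : j = i
  · subst h
    exact dh_cm j k
  · rw [aut_dl, dt_a' h, dt_b' h]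
    rfl

theorem dt_bdry (i : Fin g) (k : ℤ) : dt i k (bdry g n) = bdry g n := dh_bdry i k

theorem dl_eq (i : Fin g) : dl (n := n) i = ga i * (gg i)⁻¹ := by
  unfold dl gg cm
  group

/-- takes `(gg i)⁻¹` to `ga i` -/
def kk (i : Fin g) : MulAut (F g n) := (rr i)⁻¹ * (rr i)⁻¹ * dt i 1

theorem kk_gg (i : Fin g) : kk (n := n) i (gg i)⁻¹ = ga i := by
  unfold kk
  simp only [MulAut.mul_apply]
  apply inv_of_eq
  symm
  apply inv_of_eq
  rw [rr_a, map_mul, map_mul, map_inv, rr_a, rr_b]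
  unfold gg
  rw [map_inv, map_mul, map_mul, map_inv, dt_a, dt_b]
  unfold dl cm
  group

theorem kk_a (i : Fin g) : kk (n := n) i (ga i) = dl i * (ga i)⁻¹ := by
  unfold kk
  simp only [MulAut.mul_apply]
  apply inv_of_eq
  symm
  apply inv_of_eq
  simp only [map_mul, map_inv, rr_dl, rr_a, rr_b]
  rw [dt_a]
  unfold dl cm
  group

theorem kk_a' {i j : Fin g} (h : j ≠ i) : kk (n := n) i (ga j) = ga j := by
  unfold kk
  simp only [MulAut.mul_apply, dt_a' h, rri_a' h]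

theorem kk_b' {i j : Fin g} (h : j ≠ i) : kk (n := n) i (gb j) = gb j := by
  unfold kk
  simp only [MulAut.mul_apply, dt_b' h, rri_b' h]

theorem kk_dl (i j : Fin g) : kk (n := n) i (dl j) = dl j := by
  unfold kk
  simp only [MulAut.mul_apply, dt_dl, rri_dl]

theorem kk_bdry (i : Fin g) : kk i (bdry g n) = bdry g n := by
  unfold kk
  simp only [MulAut.mul_apply, dt_bdry, rri_bdry]

/-- takes `ga i` to `(gg i)⁻¹` -/
def k2 (i : Fin g) : MulAut (F g n) := (dt i 1)⁻¹ * rr i * rr i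

theorem k2_a (i : Fin g) : k2 (n := n) i (ga i) = (gg i)⁻¹ := by
  unfold k2
  simp only [MulAut.mul_apply]
  apply inv_of_eq
  unfold gg
  simp only [map_mul, map_inv, rr_a, rr_b, dt_a, dt_b]
  unfold dl cm
  group

theorem k2_a' {i j : Fin g} (h : j ≠ i) : k2 (n := n) i (ga j) = ga j := by
  unfold k2
  simp only [MulAut.mul_apply, rr_a' h]
  exact inv_of_fix _ (dt_a' h 1)

theorem k2_b' {i j : Fin g} (h : j ≠ i) : k2 (n := n) i (gb j) = gb j := by
  unfold k2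
  simp only [MulAut.mul_apply, rr_b' h]
  exact inv_of_fix _ (dt_b' h 1)

theorem k2_dl (i j : Fin g) : k2 (n := n) i (dl j) = dl j := by
  unfold k2
  simp only [MulAut.mul_apply, rr_dl]
  exact inv_of_fix _ (dt_dl i j 1)

theorem k2_bdry (i : Fin g) : k2 i (bdry g n) = bdry g n := by
  unfold k2
  simp only [MulAut.mul_apply, rr_bdry]
  exact inv_of_fix _ (dt_bdry i 1)

/-! ### The push of neighbouring handles -/

theorem mid_one {z o : Fin g} (h : (o : ℕ) = z + 1) : mid g n z o = 1 := by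
  unfold mid
  have e : (o : ℕ) - z - 1 = 0 := by omega
  rw [e, seg_zero]

theorem sw_one {z o : Fin g} (h : (o : ℕ) = z + 1) : sw (n := n) z o = ga o := by
  unfold sw
  rw [mid_one h]
  group

theorem tw_one {z o : Fin g} (h : (o : ℕ) = z + 1) : tw (n := n) z o = gb o := by
  unfold tw
  rw [mid_one h]
  group

theorem pw_one {z o : Fin g} (h : (o : ℕ) = z + 1) : pw (n := n) z o = (gg z)⁻¹ * ga o := by
  unfold pw gg
  rw [sw_one h]
  group

/-- The word `W` (neighbouring handles). -/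
theorem word_W {z o : Fin g} (h : (o : ℕ) = z + 1) (hzo : (z : ℕ) < o) :
    ((psh z o hzo 1)⁻¹ * e2 z 1 * (e1 z 1)⁻¹ * (e2 o 1)⁻¹ * psh z o hzo 1 * e2 o 1 * e2 z 1 *
      psh z o hzo 1 : MulAut (F g n)) (dl z) = ga z * dl o * (ga z)⁻¹ := by
  have hne : o ≠ z := by
    rintro rfl
    omega
  have p_az : psh (n := n) z o hzo 1 (ga z) = ga z := ph_ai hzo 1
  have p_bz : psh (n := n) z o hzo 1 (gb z) = (gg z)⁻¹ * ga o * gb z := by
    rw [psh_apply, ph_bi, zpow_one, pw_one h]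
  have p_ao : psh (n := n) z o hzo 1 (ga o) = (gg z)⁻¹ * ga o * gg z := by
    rw [psh_apply, ph_aj, mid_one h, sw_one h, pw_one h]
    group
  have p_bo : psh (n := n) z o hzo 1 (gb o) = gb o * gg z := by
    rw [psh_apply, ph_bj hzo, mid_one h, sw_one h, tw_one h, pw_one h]
    group
  have key : (psh z o hzo 1 * e2 o 1 * e2 z 1 * psh z o hzo 1 : MulAut (F g n)) (dl z) =
      (e2 o 1 * (e1 z 1 * ((e2 z 1)⁻¹ * psh z o hzo 1)) : MulAut (F g n))
        (ga z * dl o * (ga z)⁻¹) := by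
    have hi : (e2 z 1 : MulAut (F g n))⁻¹ (ga z) = ga z * (gb z)⁻¹ := by
      apply inv_of_eq
      rw [map_mul, map_inv, e2_a, e2_b]
      group
    have hi2 : (e2 z 1 : MulAut (F g n))⁻¹ (gb z) = gb z := inv_of_fix _ (e2_b z z 1)
    have hi3 : (e2 z 1 : MulAut (F g n))⁻¹ (ga o) = ga o := inv_of_fix _ (e2_a' hne 1)
    have hi4 : (e2 z 1 : MulAut (F g n))⁻¹ (gb o) = gb o := inv_of_fix _ (e2_b z o 1)
    simp only [MulAut.mul_apply]
    unfold dl cm
    simp only [map_mul, map_inv, p_az, p_bz, p_ao, p_bo, gg, e2_a, e2_b, e2_a' hne,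
      e2_a' hne.symm, zpow_one, hi, hi2, hi3, hi4, e1_a, e1_b, e1_b' hne]
    group
  have e : ((psh z o hzo 1)⁻¹ * e2 z 1 * (e1 z 1)⁻¹ * (e2 o 1)⁻¹ * psh z o hzo 1 * e2 o 1 *
      e2 z 1 * psh z o hzo 1 : MulAut (F g n)) (dl z) =
      ((psh z o hzo 1)⁻¹ * e2 z 1 * (e1 z 1)⁻¹ * (e2 o 1)⁻¹ : MulAut (F g n))
        ((psh z o hzo 1 * e2 o 1 * e2 z 1 * psh z o hzo 1 : MulAut (F g n)) (dl z)) := by
    rw [← MulAut.mul_apply]
    simp only [mul_assoc]
  rw [e, key, ← MulAut.mul_apply]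
  have e2 : ((psh z o hzo 1)⁻¹ * e2 z 1 * (e1 z 1)⁻¹ * (e2 o 1)⁻¹ *
      (e2 o 1 * (e1 z 1 * ((e2 z 1)⁻¹ * psh z o hzo 1))) : MulAut (F g n)) = 1 := by
    group
  rw [e2, MulAut.one_apply]

end Pool.Agent.PWM
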