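import Pool.Agent.PWM.Ops

/-!
# Frozen statements, part A: automorphisms, generation by lassos
(paper: /team-store/PW_metabelian_paper.md, sections 3, 4, 5)
-/

namespace Pool.Agent.PWM

open Pool.Agent.PW

/-- (Blk) Automorphisms of a block of handles extend by the identity. -/
def St_Blk : Prop := ∀ {h g n m : ℕ} (hm : m + h ≤ g) (ψ : MulAut (F h 0)), ψ ∈ MCGd h →
  ∃ Ψ ∈ MCG g n, Ψ (bdry g n) = bdry g n ∧
    (∀ x, Ψ (blk h g n m hm x) = blk h g n m hm (ψ x)) ∧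
    (∀ i : Fin g, ((i : ℕ) < m ∨ m + h ≤ (i : ℕ)) → Ψ (ga i) = ga i ∧ Ψ (gb i) = gb i) ∧
    ∀ j, Ψ (gc j) = gc j

/-- (Euclid, 3.1) Modulo the commutator subgroup every element is a power of the image of any
given letter. -/
def St_Euc : Prop := ∀ {h : ℕ} (y : F h 0) (i : Fin h), ∃ ψ ∈ MCGd h, ∃ l : ℤ,
  y * (ψ (ga i) ^ l)⁻¹ ∈ DD h 0

/-- (Move) The first handle can be moved to a conjugate of any handle. -/
def St_Move : Prop := ∀ {g n : ℕ} (z i : Fin g), (z : ℕ) = 0 → ∃ φ ∈ MCG g n, ∃ w : F g n,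
  φ (ga z) = w * ga i * w⁻¹ ∧ φ (gb z) = w * gb i * w⁻¹

/-- (Swap) The swap of the handles `0, 1, 2, 3` and `4, 5, 6, 7`. -/
def St_Swap : Prop := ∀ {g n : ℕ}, 8 ≤ g → ∃ π ∈ MCG g n,
  (∀ i j : Fin g, (i : ℕ) < 4 → (j : ℕ) = i + 4 → π (ga j) = ga i ∧ π (gb j) = gb i) ∧
  (∀ i : Fin g, 8 ≤ (i : ℕ) → π (ga i) = ga i ∧ π (gb i) = gb i) ∧
  ∀ j, π (gc j) = gc j

/-- The normal closure of the boundaries of the handles `0` and `1`. -/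
def NN (g n : ℕ) : Subgroup (F g n) :=
  Subgroup.normalClosure {x | ∃ i : Fin g, (i : ℕ) < 2 ∧ x = dl i}

/-- (Push, 6 G3) Pushing the first handle around an element away from the handles `0` and `1`. -/
def St_Push : Prop := ∀ {g n : ℕ} (y : F g n), 2 ≤ g → y ∈ Fge g n 2 → ∃ φ ∈ MCG g n,
  (∀ i : Fin g, (i : ℕ) = 1 → φ (ga i) = ga i ∧ φ (gb i) = gb i) ∧
  (∀ i : Fin g, (i : ℕ) = 0 → (y * ga i * y⁻¹)⁻¹ * φ (ga i) ∈ NN g n ∧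
    (y * gb i * y⁻¹)⁻¹ * φ (gb i) ∈ NN g n) ∧
  (∀ z ∈ Fge g n 2, z⁻¹ * φ z ∈ NN g n) ∧
  ∀ x ∈ NN g n, φ x ∈ NN g n

/-- (Two, 6 G5) A nontrivial homomorphism from `F 2 0` to a commutative group becomes nontrivial
on both handles. -/
def St_Two : Prop := ∀ {A : Type} [CommGroup A] (ν : F 2 0 →* A), ν ≠ 1 → ∃ ψ ∈ MCGd 2,
  (ν (ψ (ga 0)) ≠ 1 ∨ ν (ψ (gb 0)) ≠ 1) ∧ (ν (ψ (ga 1)) ≠ 1 ∨ ν (ψ (gb 1)) ≠ 1)

/-- (J, 4) The abelianised commutator subgroup is generated by the lassos. -/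
def St_J : Prop := ∀ {h : ℕ} {A : Type} [AddCommGroup A] (L : F h 0 → A) (z : Fin h),
  2 ≤ h → (z : ℕ) = 0 → DHom L → (∀ φ ∈ MCGd h, L (φ (dl z)) = 0) → ∀ d ∈ DD h 0, L d = 0

/-- (N', 5) Two disjoint nontrivial lassos. -/
def St_N : Prop := ∀ {h : ℕ} {A : Type} [AddCommGroup A] (L : F h 0 → A) (z o : Fin h),
  4 ≤ h → (z : ℕ) = 0 → (o : ℕ) = 1 → DHom L → (∃ d ∈ DD h 0, L d ≠ 0) →
  ∃ φ ∈ MCGd h, L (φ (dl z)) ≠ 0 ∧ L (φ (dl o)) ≠ 0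

end Pool.Agent.PWM
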