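import Pool.Agent.PWM.Far
import Pool.Agent.PWM.Rot
import Pool.Agent.PWM.StA
import Pool.Agent.PWM.Block

/-!
# Pushing the first handle around everything after the second one (paper, G3)

`NN g n` = normal closure of `dl 0`, `dl 1` (StA).  `PushOK z o φ y`: `φ` fixes the handle `o`, maps `NN` onto itself, is conjugation by
`y` on the handle `z` modulo `NN` and trivial on `Fge g n 2` modulo `NN`.
* `PushOK.mul`, `PushOK.inv`: with `y' * y`, `y⁻¹` (`y ∈ Fge g n 2`).
* `pushOK_b`, `pushOK_a`, `pushOK_c`: `Pb z j`, `rr j * Pb z j * (rr j)⁻¹`, `Pc z j`; the word is `tw`, `(sw)⁻¹`, `sc` with `mid g n o j` in the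
  place of `mid g n z j` (they differ by `dl o ∈ NN`); in fact any word congruent to it modulo `NN` is as good.
* `pushT`: the `y ∈ Fge g n 2` which have such a `φ` form a subgroup which contains all `sw o j`, `tw o j`, `sc o j`, so (as in
  `PW.gen_moved`) all of `Fge g n 2`.
-/

namespace Pool.Agent.PWM

open Pool.Agent.PW

variable {g n : ℕ}

/-- see above -/
structure PushOK (z o : Fin g) (φ : MulAut (F g n)) (y : F g n) : Prop where
  mem : φ ∈ MCG g n
  fa : φ (ga o) = ga o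
  fb : φ (gb o) = gb o
  nn : ∀ x, x ∈ NN g n ↔ φ x ∈ NN g n
  ta : (y * ga z * y⁻¹)⁻¹ * φ (ga z) ∈ NN g n
  tb : (y * gb z * y⁻¹)⁻¹ * φ (gb z) ∈ NN g n
  rest : ∀ x ∈ Fge g n 2, x⁻¹ * φ x ∈ NN g n

/-! ### Congruence modulo `NN` -/

theorem put_normal : (NN g n).Normal := Subgroup.normalClosure_normal

/-- congruence modulo `NN` -/
def PutE (x y : F g n) : Prop := x⁻¹ * y ∈ NN g n

theorem PutE.refl (x : F g n) : PutE x x := by
  unfold PutE
  rw [inv_mul_cancel]
  exact Subgroup.one_mem _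

theorem PutE.symm {x y : F g n} (h : PutE x y) : PutE y x := by
  unfold PutE at *
  have h1 := (NN g n).inv_mem h
  have e : (x⁻¹ * y)⁻¹ = y⁻¹ * x := by group
  rwa [e] at h1

theorem PutE.trans {x y z : F g n} (h : PutE x y) (h' : PutE y z) : PutE x z := by
  unfold PutE at *
  have h1 := (NN g n).mul_mem h h'
  have e : x⁻¹ * y * (y⁻¹ * z) = x⁻¹ * z := by group
  rwa [e] at h1

theorem PutE.mul {x y x' y' : F g n} (h : PutE x y) (h' : PutE x' y') :
    PutE (x * x') (y * y') := by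
  unfold PutE at *
  have h1 := (put_normal (g := g) (n := n)).conj_mem _ h x'⁻¹
  have h2 := (NN g n).mul_mem h1 h'
  have e : x'⁻¹ * (x⁻¹ * y) * x'⁻¹⁻¹ * (x'⁻¹ * y') = (x * x')⁻¹ * (y * y') := by group
  rwa [e] at h2

theorem PutE.inv {x y : F g n} (h : PutE x y) : PutE x⁻¹ y⁻¹ := by
  have h1 := h.symm
  unfold PutE at *
  have h2 := (put_normal (g := g) (n := n)).conj_mem _ h1 y
  have e : y * (y⁻¹ * x) * y⁻¹ = x⁻¹⁻¹ * y⁻¹ := by group
  rwa [e] at h2

theorem PutE.conj {x y u v : F g n} (h : PutE x y) (h' : PutE u v) :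
    PutE (u * x * u⁻¹) (v * y * v⁻¹) := (h'.mul h).mul h'.inv

theorem put_one {x : F g n} (h : x ∈ NN g n) : PutE x 1 := by
  have h1 : PutE 1 x := by
    unfold PutE
    rw [inv_one, one_mul]
    exact h
  exact h1.symm

theorem put_one_conj {x : F g n} (h : PutE x 1) (u : F g n) : PutE (u * x * u⁻¹) 1 := by
  have h1 := h.conj (PutE.refl u)
  rwa [mul_one, mul_inv_cancel] at h1

theorem put_map {φ : MulAut (F g n)} (h : ∀ x, x ∈ NN g n ↔ φ x ∈ NN g n) {x y : F g n}
    (hxy : PutE x y) : PutE (φ x) (φ y) := by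
  unfold PutE at *
  rw [← map_inv, ← map_mul]
  exact (h _).mp hxy

theorem put_nn_inv {φ : MulAut (F g n)} (h : ∀ x, x ∈ NN g n ↔ φ x ∈ NN g n) (x : F g n) :
    x ∈ NN g n ↔ φ⁻¹ x ∈ NN g n := by
  have h1 := h (φ⁻¹ x)
  have h2 : φ (φ⁻¹ x) = x := by simp
  rw [h2] at h1
  exact h1.symm

theorem put_dl {z o : Fin g} (hz : (z : ℕ) = 0) (ho : (o : ℕ) = 1) :
    (dl z : F g n) ∈ NN g n ∧ (dl o : F g n) ∈ NN g n :=
  ⟨Subgroup.subset_normalClosure ⟨z, by omega, rfl⟩,
    Subgroup.subset_normalClosure ⟨o, by omega, rfl⟩⟩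

theorem put_le {z o : Fin g} (hz : (z : ℕ) = 0) (ho : (o : ℕ) = 1) {φ : MulAut (F g n)}
    (h1 : φ (dl z) ∈ NN g n) (h2 : φ (dl o) ∈ NN g n) {x : F g n} (hx : x ∈ NN g n) :
    φ x ∈ NN g n := by
  have := put_normal (g := g) (n := n)
  have key : NN g n ≤ (NN g n).comap φ.toMonoidHom := by
    unfold NN
    apply Subgroup.normalClosure_le_normal
    rintro _ ⟨i, hi, rfl⟩
    have hi' : (i : ℕ) = 0 ∨ (i : ℕ) = 1 := by omega
    rcases hi' with hi' | hi'
    · have e : i = z := Fin.ext (by rw [hi', hz])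
      rw [e]
      exact h1
    · have e : i = o := Fin.ext (by rw [hi', ho])
      rw [e]
      exact h2
  exact key hx

theorem put_nn {z o : Fin g} (hz : (z : ℕ) = 0) (ho : (o : ℕ) = 1) {φ : MulAut (F g n)}
    (h1 : φ (dl z) ∈ NN g n) (h2 : φ (dl o) ∈ NN g n) (h3 : φ⁻¹ (dl z) ∈ NN g n)
    (h4 : φ⁻¹ (dl o) ∈ NN g n) (x : F g n) : x ∈ NN g n ↔ φ x ∈ NN g n := by
  constructor
  · exact put_le hz ho h1 h2
  · intro h
    have h5 := put_le hz ho h3 h4 h
    have h6 : φ⁻¹ (φ x) = x := by simp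
    rwa [h6] at h5

theorem put_inv_of {φ : MulAut (F g n)} {x y : F g n} (h : φ x = y) : φ⁻¹ y = x := by
  rw [← h]
  simp

theorem put_inv_fix {φ : MulAut (F g n)} {x : F g n} (h : φ x = x) : φ⁻¹ x = x := put_inv_of h

theorem put_rest {φ : MulAut (F g n)}
    (ha : ∀ i : Fin g, 2 ≤ (i : ℕ) → PutE (ga i) (φ (ga i)) ∧ PutE (gb i) (φ (gb i)))
    (hc : ∀ j : Fin n, PutE (gc j) (φ (gc j))) {x : F g n} (hx : x ∈ Fge g n 2) :
    PutE x (φ x) := by
  unfold Fge at hx
  induction hx using Subgroup.closure_induction with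
  | mem x h =>
    rcases h with ⟨i, hi, rfl | rfl⟩ | ⟨j, rfl⟩
    · exact (ha i hi).1
    · exact (ha i hi).2
    · exact hc j
  | one =>
    rw [map_one]
    exact PutE.refl _
  | mul x y _ _ h1 h2 =>
    rw [map_mul]
    exact h1.mul h2
  | inv x _ h1 =>
    rw [map_inv]
    exact h1.inv

theorem PushOK.mul {z o : Fin g} {φ ψ : MulAut (F g n)} {y y' : F g n} (h1 : PushOK z o φ y)
    (h2 : PushOK z o ψ y') (hy' : y' ∈ Fge g n 2) : PushOK z o (φ * ψ) (y' * y) := by
  have key : ∀ t : F g n, PutE (y * t * y⁻¹) (φ t) → PutE (y' * t * y'⁻¹) (ψ t) →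
      PutE (y' * y * t * (y' * y)⁻¹) ((φ * ψ) t) := by
    intro t h3 h4
    have h5 := put_map h1.nn h4
    rw [map_mul, map_mul, map_inv] at h5
    have h6 : PutE y' (φ y') := h1.rest y' hy'
    have h7 := h3.conj h6
    have h8 := h7.trans h5
    have e : y' * (y * t * y⁻¹) * y'⁻¹ = y' * y * t * (y' * y)⁻¹ := by group
    rw [e] at h8
    exact h8
  refine ⟨(MCG g n).mul_mem h1.mem h2.mem, ?_, ?_, ?_, ?_, ?_, ?_⟩
  · rw [MulAut.mul_apply, h2.fa, h1.fa]
  · rw [MulAut.mul_apply, h2.fb, h1.fb]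
  · intro x
    rw [MulAut.mul_apply]
    exact (h2.nn x).trans (h1.nn _)
  · exact key _ h1.ta h2.ta
  · exact key _ h1.tb h2.tb
  · intro x hx
    have h3 : PutE x (φ x) := h1.rest x hx
    have h4 : PutE x (ψ x) := h2.rest x hx
    exact h3.trans (put_map h1.nn h4)

theorem PushOK.inv {z o : Fin g} {φ : MulAut (F g n)} {y : F g n} (h1 : PushOK z o φ y)
    (hy : y ∈ Fge g n 2) : PushOK z o φ⁻¹ y⁻¹ := by
  have hnn := put_nn_inv h1.nn
  have hc : ∀ x : F g n, φ⁻¹ (φ x) = x := fun x => by simp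
  have hrest : ∀ x ∈ Fge g n 2, PutE x (φ⁻¹ x) := by
    intro x hx
    have h3 : PutE x (φ x) := h1.rest x hx
    have h4 := put_map hnn h3
    rw [hc] at h4
    exact h4.symm
  have key : ∀ t : F g n, PutE (y * t * y⁻¹) (φ t) → PutE (y⁻¹ * t * y⁻¹⁻¹) (φ⁻¹ t) := by
    intro t h3
    have h4 := put_map hnn h3
    rw [hc, map_mul, map_mul, map_inv] at h4
    have h5 := (PutE.refl (φ⁻¹ t)).conj (hrest y hy)
    have h6 := (h5.trans h4).conj (PutE.refl y⁻¹)
    have e : y⁻¹ * (y * φ⁻¹ t * y⁻¹) * y⁻¹⁻¹ = φ⁻¹ t := by group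
    rw [e] at h6
    exact h6.symm
  exact ⟨(MCG g n).inv_mem h1.mem, put_inv_fix h1.fa, put_inv_fix h1.fb, hnn, key _ h1.ta,
    key _ h1.tb, hrest⟩

/-- Conjugation of a push by an automorphism which keeps the handles `z` and `o`. -/
theorem put_conj {z o : Fin g} (hz : (z : ℕ) = 0) (ho : (o : ℕ) = 1) {φ r : MulAut (F g n)}
    {y : F g n} (h : PushOK z o φ y) (hr : r ∈ MCG g n) (h1 : r (ga z) = ga z)
    (h2 : r (gb z) = gb z) (h3 : r (ga o) = ga o) (h4 : r (gb o) = gb o)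
    (hF : ∀ x ∈ Fge g n 2, r⁻¹ x ∈ Fge g n 2) : PushOK z o (r * φ * r⁻¹) (r y) := by
  have hdz : r (dl z) = dl z := by
    rw [aut_dl, h1, h2]
    rfl
  have hdo : r (dl o) = dl o := by
    rw [aut_dl, h3, h4]
    rfl
  obtain ⟨hz1, ho1⟩ := put_dl (n := n) hz ho
  have hrn : ∀ x, x ∈ NN g n ↔ r x ∈ NN g n := by
    apply put_nn hz ho
    · rw [hdz]
      exact hz1
    · rw [hdo]
      exact ho1
    · rw [put_inv_fix hdz]
      exact hz1
    · rw [put_inv_fix hdo]
      exact ho1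
  have key : ∀ t : F g n, r t = t → PutE (y * t * y⁻¹) (φ t) →
      PutE (r y * t * (r y)⁻¹) ((r * φ * r⁻¹) t) := by
    intro t ht h5
    have h6 := put_map hrn h5
    rw [map_mul, map_mul, map_inv, ht] at h6
    have e : (r * φ * r⁻¹) t = r (φ t) := by
      rw [MulAut.mul_apply, MulAut.mul_apply, put_inv_fix ht]
    rw [e]
    exact h6
  refine ⟨(MCG g n).mul_mem ((MCG g n).mul_mem hr h.mem) ((MCG g n).inv_mem hr), ?_, ?_, ?_, ?_,
    ?_, ?_⟩
  · rw [MulAut.mul_apply, MulAut.mul_apply, put_inv_fix h3, h.fa, h3]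
  · rw [MulAut.mul_apply, MulAut.mul_apply, put_inv_fix h4, h.fb, h4]
  · intro x
    rw [MulAut.mul_apply, MulAut.mul_apply]
    exact (put_nn_inv hrn x).trans ((h.nn _).trans (hrn _))
  · exact key _ h1 h.ta
  · exact key _ h2 h.tb
  · intro x hx
    have h5 : PutE (r⁻¹ x) (φ (r⁻¹ x)) := h.rest _ (hF x hx)
    have h6 := put_map hrn h5
    have e : r (r⁻¹ x) = x := by simp
    rw [e] at h6
    exact h6

theorem put_mid {z o j : Fin g} (hz : (z : ℕ) = 0) (ho : (o : ℕ) = 1) (hj : (o : ℕ) < j) :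
    PutE (mid g n z j) (mid g n o j) := by
  have e : mid g n z j = dl o * mid g n o j := by
    unfold mid
    have h1 : (j : ℕ) - z - 1 = 1 + (j - o - 1) := by omega
    have h2 : (z : ℕ) + 1 = o := by omega
    rw [h1, seg_add, seg_one, h2, hd_fin]
    rfl
  rw [e]
  have h := (put_one (put_dl (n := n) hz ho).2).mul (PutE.refl (mid g n o j))
  rwa [one_mul] at h

theorem put_midc {z o : Fin g} (hz : (z : ℕ) = 0) (ho : (o : ℕ) = 1) (j : ℕ) :
    PutE (midc g n z j) (midc g n o j) := by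
  have e : midc g n z j = dl o * midc g n o j := by
    unfold midc
    have h0 := o.2
    have h1 : g - (z : ℕ) - 1 = 1 + (g - o - 1) := by omega
    have h2 : (z : ℕ) + 1 = o := by omega
    rw [h1, seg_add, seg_one, h2, hd_fin, ← mul_assoc]
    rfl
  rw [e]
  have h := (put_one (put_dl (n := n) hz ho).2).mul (PutE.refl (midc g n o j))
  rwa [one_mul] at h

theorem put_tw {z o j : Fin g} (hz : (z : ℕ) = 0) (ho : (o : ℕ) = 1) (hj : (o : ℕ) < j) :
    PutE (tw (n := n) o j) (tw z j) := by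
  unfold tw
  exact (PutE.refl _).conj (put_mid hz ho hj).symm

theorem put_sc {z o : Fin g} (hz : (z : ℕ) = 0) (ho : (o : ℕ) = 1) (j : Fin n) :
    PutE (sc o j) (sc z j) := by
  unfold sc
  exact (PutE.refl _).conj (put_midc hz ho j).symm

theorem pushOK_b {z o j : Fin g} (hz : (z : ℕ) = 0) (ho : (o : ℕ) = 1) (hj : (o : ℕ) < j)
    (hzj : (z : ℕ) < j) : PushOK z o (Pb (n := n) z j hzj) (tw o j) := by
  have hoz : o ≠ z := by
    rintro rfl
    omega
  have hoj : o ≠ j := by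
    rintro rfl
    omega
  obtain ⟨hz1, ho1⟩ := put_dl (n := n) hz ho
  have fa := Pb_a' (n := n) hzj hoz hoj
  have fb := Pb_b' (n := n) hzj hoz hoj
  have hdo : Pb (n := n) z j hzj (dl o) = dl o := by
    rw [aut_dl, fa, fb]
    rfl
  have hdz : Pb (n := n) z j hzj (dl z) = tw z j * dl z * (tw z j)⁻¹ := Pb_di hzj
  have hinv : (Pb (n := n) z j hzj)⁻¹ (dl z) =
      (dl z * (tw z j)⁻¹ * (dl z)⁻¹) * dl z * (dl z * (tw z j)⁻¹ * (dl z)⁻¹)⁻¹ := by
    have h1 : Pb (n := n) z j hzj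
        ((dl z * (tw z j)⁻¹ * (dl z)⁻¹) * dl z * (dl z * (tw z j)⁻¹ * (dl z)⁻¹)⁻¹) = dl z := by
      simp only [map_mul, map_inv]
      rw [hdz, Pb_tw hzj]
      unfold pY
      group
    exact put_inv_of h1
  have px1 : PutE (px (n := n) z j) 1 := by
    have h1 := put_one_conj (put_one hz1) (mid g n z j)⁻¹
    have e : px (n := n) z j = (mid g n z j)⁻¹ * dl z * (mid g n z j)⁻¹⁻¹ := by
      rw [inv_inv]
      rfl
    rw [e]
    exact h1
  have py1 : PutE (py (n := n) z j) 1 := put_one_conj px1 _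
  refine ⟨Pb_mem hzj, fa, fb, ?_, ?_, ?_, ?_⟩
  · apply put_nn hz ho
    · rw [hdz]
      exact (put_normal (g := g) (n := n)).conj_mem _ hz1 _
    · rw [hdo]
      exact ho1
    · rw [hinv]
      exact (put_normal (g := g) (n := n)).conj_mem _ hz1 _
    · rw [put_inv_fix hdo]
      exact ho1
  · rw [Pb_ai hzj]
    exact (PutE.refl _).conj (put_tw hz ho hj)
  · rw [Pb_bi hzj]
    exact (PutE.refl _).conj (put_tw hz ho hj)
  · intro x hx
    refine put_rest (fun i hi => ?_) (fun l => ?_) hx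
    · have hiz : i ≠ z := by
        rintro rfl
        omega
      by_cases hij : i = j
      · rw [hij, Pb_aj hzj, Pb_bj hzj]
        constructor
        · have h1 := ((py1.inv.mul px1).mul (PutE.refl (ga j))).mul py1
          rw [inv_one, one_mul, one_mul, mul_one] at h1
          exact h1.symm
        · have h1 := (py1.inv.mul (PutE.refl (gb j))).mul py1
          rw [inv_one, one_mul, mul_one] at h1
          exact h1.symm
      · rw [Pb_a' hzj hiz hij, Pb_b' hzj hiz hij]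
        exact ⟨PutE.refl _, PutE.refl _⟩
    · rw [Pb_c hzj]
      exact PutE.refl _

theorem put_fix_seg {φ : MulAut (F g n)} (h : ∀ i, φ (dl i) = dl i) (s m : ℕ) :
    φ (seg g n s m) = seg g n s m := by
  induction m with
  | zero => rw [seg_zero, map_one]
  | succ m ih =>
    rw [seg_add, seg_one, map_mul, ih]
    congr 1
    by_cases hm : s + m < g
    · have e : hd g n (s + m) = dl ⟨s + m, hm⟩ := hd_fin ⟨s + m, hm⟩
      rw [e, h]
    · simp only [hd, hm, dif_neg, not_false_iff, map_one]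

theorem pushOK_a {z o j : Fin g} (hz : (z : ℕ) = 0) (ho : (o : ℕ) = 1) (hj : (o : ℕ) < j)
    (hzj : (z : ℕ) < j) :
    PushOK z o (rr j * Pb (n := n) z j hzj * (rr j)⁻¹) (sw o j)⁻¹ := by
  have hzj' : z ≠ j := by
    rintro rfl
    omega
  have hoj : o ≠ j := by
    rintro rfl
    omega
  have e : rr j (tw o j) = (sw (n := n) o j)⁻¹ := by
    unfold tw sw mid
    simp only [map_mul, map_inv]
    rw [put_fix_seg (rr_dl j), rr_b]
    group
  rw [← e]
  refine put_conj hz ho (pushOK_b hz ho hj hzj) (rr_mem j) (rr_a' hzj') (rr_b' hzj') (rr_a' hoj)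
    (rr_b' hoj) ?_
  intro x hx
  have key : Fge g n 2 ≤ (Fge g n 2).comap ((rr (n := n) j)⁻¹).toMonoidHom := by
    conv_lhs => unfold Fge
    rw [Subgroup.closure_le]
    rintro x (⟨i, hi, hx⟩ | ⟨l, rfl⟩)
    · show (rr (n := n) j)⁻¹ x ∈ Fge g n 2
      by_cases hij : i = j
      · rw [hij] at hi hx
        have h1 : (ga j : F g n) ∈ Fge g n 2 := Fge_a hi
        have h2 : (gb j : F g n) ∈ Fge g n 2 := Fge_b hi
        rcases hx with rfl | rfl
        · rw [rri_a]
          exact Subgroup.inv_mem _ h2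
        · rw [rri_b]
          exact Subgroup.mul_mem _ (Subgroup.mul_mem _ h2 h1) (Subgroup.inv_mem _ h2)
      · rcases hx with rfl | rfl
        · rw [rri_a' hij]
          exact Fge_a hi
        · rw [rri_b' hij]
          exact Fge_b hi
    · show (rr (n := n) j)⁻¹ (gc l) ∈ Fge g n 2
      rw [rri_c]
      exact Fge_c l
  exact key hx

theorem pushOK_c {z o : Fin g} (hz : (z : ℕ) = 0) (ho : (o : ℕ) = 1) (j : Fin n) :
    PushOK z o (Pc z j) (sc o j) := by
  have hoz : o ≠ z := by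
    rintro rfl
    omega
  obtain ⟨hz1, ho1⟩ := put_dl (n := n) hz ho
  have fa := Pc_a' z j hoz
  have fb := Pc_b' z j hoz
  have hdo : Pc z j (dl o) = dl o := by
    rw [aut_dl, fa, fb]
    rfl
  have hdz : Pc z j (dl z) = (dl z * sc z j) * dl z * (dl z * sc z j)⁻¹ := Pc_di z j
  have hinv : (Pc z j)⁻¹ (dl z) = (dl z * sc z j)⁻¹ * dl z * (dl z * sc z j)⁻¹⁻¹ := by
    have h1 : Pc z j ((dl z * sc z j)⁻¹ * dl z * (dl z * sc z j)⁻¹⁻¹) = dl z := by
      simp only [map_mul, map_inv]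
      rw [hdz, Pc_sc]
      group
    exact put_inv_of h1
  have cx1 : PutE (cx z j) 1 := by
    have h1 := put_one_conj (put_one hz1) (midc g n z j)⁻¹
    have e : cx z j = (midc g n z j)⁻¹ * dl z * (midc g n z j)⁻¹⁻¹ := by
      rw [inv_inv]
      rfl
    rw [e]
    exact h1
  have hu : PutE (sc o j) (dl z * sc z j) := by
    have h1 := (put_one hz1).symm.mul (put_sc hz ho j)
    rwa [one_mul] at h1
  refine ⟨Pc_mem z j, fa, fb, ?_, ?_, ?_, ?_⟩
  · apply put_nn hz ho
    · rw [hdz]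
      exact (put_normal (g := g) (n := n)).conj_mem _ hz1 _
    · rw [hdo]
      exact ho1
    · rw [hinv]
      exact (put_normal (g := g) (n := n)).conj_mem _ hz1 _
    · rw [put_inv_fix hdo]
      exact ho1
  · rw [Pc_ai]
    exact (PutE.refl _).conj hu
  · rw [Pc_bi]
    exact (PutE.refl _).conj hu
  · intro x hx
    refine put_rest (fun i hi => ?_) (fun l => ?_) hx
    · have hiz : i ≠ z := by
        rintro rfl
        omega
      rw [Pc_a' z j hiz, Pc_b' z j hiz]
      exact ⟨PutE.refl _, PutE.refl _⟩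
    · by_cases hlj : l = j
      · rw [hlj, Pc_cj]
        have h1 := (PutE.refl (gc j)).conj cx1
        rw [one_mul, inv_one, mul_one] at h1
        exact h1.symm
      · rw [Pc_c' z j hlj]
        exact PutE.refl _

theorem put_id (z o : Fin g) : PushOK z o (1 : MulAut (F g n)) 1 := by
  have key : ∀ t : F g n, PutE (1 * t * 1⁻¹) ((1 : MulAut (F g n)) t) := by
    intro t
    rw [one_mul, inv_one, mul_one]
    exact PutE.refl t
  exact ⟨(MCG g n).one_mem, rfl, rfl, fun x => Iff.rfl, key _, key _, fun x _ => PutE.refl x⟩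

/-- The words with a push. -/
def putS (n : ℕ) (z o : Fin g) : Subgroup (F g n) where
  carrier := {y | y ∈ Fge g n 2 ∧ ∃ φ, PushOK z o φ y}
  one_mem' := ⟨Subgroup.one_mem _, 1, put_id z o⟩
  mul_mem' := by
    rintro x y ⟨hx, φ, h1⟩ ⟨hy, ψ, h2⟩
    exact ⟨Subgroup.mul_mem _ hx hy, ψ * φ, h2.mul h1 hx⟩
  inv_mem' := by
    rintro x ⟨hx, φ, h1⟩
    exact ⟨Subgroup.inv_mem _ hx, φ⁻¹, h1.inv hx⟩

theorem put_seg_mem (m : ℕ) : seg g n 2 m ∈ Fge g n 2 :=
  seg_mem fun _ h1 _ => ⟨Fge_a h1, Fge_b h1⟩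

theorem put_cseg_mem (s m : ℕ) : cseg g n s m ∈ Fge g n 2 :=
  cseg_mem fun i _ _ => Fge_c i

/-- A subgroup with the moved letters after the handle 1 contains all the letters after it. -/
theorem put_gen {E : Subgroup (F g n)} {o : Fin g} (ho : (o : ℕ) = 1)
    (h1 : ∀ j : Fin g, (o : ℕ) < j → sw o j ∈ E ∧ tw o j ∈ E) (h2 : ∀ j, sc o j ∈ E) :
    Fge g n 2 ≤ E := by
  have step : ∀ j : Fin g, (o : ℕ) < j → seg g n 2 (j - 2) ∈ E → ga j ∈ E ∧ gb j ∈ E := by
    intro j hj hs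
    have hmid : mid g n o j = seg g n 2 (j - 2) := by
      unfold mid
      rw [ho]
      rfl
    obtain ⟨h3, h4⟩ := h1 j hj
    rw [sw, hmid] at h3
    rw [tw, hmid] at h4
    refine ⟨?_, ?_⟩
    · have := E.mul_mem (E.mul_mem (E.inv_mem hs) h3) hs
      have e : (seg g n 2 (j - 2))⁻¹ * (seg g n 2 (j - 2) * ga j * (seg g n 2 (j - 2))⁻¹) *
          seg g n 2 (j - 2) = ga j := by group
      rwa [e] at this
    · have := E.mul_mem (E.mul_mem (E.inv_mem hs) h4) hs
      have e : (seg g n 2 (j - 2))⁻¹ * (seg g n 2 (j - 2) * gb j * (seg g n 2 (j - 2))⁻¹) *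
          seg g n 2 (j - 2) = gb j := by group
      rwa [e] at this
  have hseg : ∀ m, seg g n 2 m ∈ E := by
    intro m
    induction m with
    | zero =>
      rw [seg_zero]
      exact E.one_mem
    | succ m ih =>
      rw [seg_add, seg_one]
      apply E.mul_mem ih
      by_cases hm : 2 + m < g
      · have h3 := step ⟨2 + m, hm⟩ (by simp only; omega) (by
          have : ((⟨2 + m, hm⟩ : Fin g) : ℕ) - 2 = m := by simp
          rw [this]
          exact ih)
        have h4 : hd g n (2 + m) = cm (ga ⟨2 + m, hm⟩) (gb ⟨2 + m, hm⟩) := hd_fin ⟨2 + m, hm⟩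
        rw [h4]
        exact E.mul_mem (E.mul_mem (E.mul_mem h3.1 h3.2) (E.inv_mem h3.1)) (E.inv_mem h3.2)
      · simp only [hd, hm, dif_neg, not_false_iff]
        exact E.one_mem
  have stepc : ∀ j : Fin n, cseg g n 0 j ∈ E → gc j ∈ E := by
    intro j hs
    have hmid : midc g n o j = seg g n 2 (g - 2) * cseg g n 0 j := by
      unfold midc
      rw [ho]
      rfl
    have hm : midc g n o j ∈ E := by
      rw [hmid]
      exact E.mul_mem (hseg _) hs
    have h3 := h2 j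
    rw [sc] at h3
    have := E.mul_mem (E.mul_mem (E.inv_mem hm) h3) hm
    have e : (midc g n o j)⁻¹ * (midc g n o j * gc j * (midc g n o j)⁻¹) * midc g n o j = gc j := by
      group
    rwa [e] at this
  have hcseg : ∀ m, cseg g n 0 m ∈ E := by
    intro m
    induction m with
    | zero =>
      rw [cseg_zero]
      exact E.one_mem
    | succ m ih =>
      rw [cseg_add, cseg_one]
      apply E.mul_mem ih
      rw [Nat.zero_add]
      by_cases hm : m < n
      · have h4 : pc g n m = gc ⟨m, hm⟩ := pc_fin ⟨m, hm⟩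
        rw [h4]
        exact stepc ⟨m, hm⟩ ih
      · simp only [pc, hm, dif_neg, not_false_iff]
        exact E.one_mem
  conv_lhs => unfold Fge
  rw [Subgroup.closure_le]
  rintro x (⟨i, hi, hx⟩ | ⟨l, rfl⟩)
  · have h3 := step i (by omega) (hseg _)
    rcases hx with rfl | rfl
    · exact h3.1
    · exact h3.2
  · exact stepc l (hcseg _)

/-- Paper, G3. -/
theorem pushT {z o : Fin g} (hz : (z : ℕ) = 0) (ho : (o : ℕ) = 1) {y : F g n}
    (hy : y ∈ Fge g n 2) : ∃ φ, PushOK z o φ y := by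
  have key : Fge g n 2 ≤ putS n z o := by
    apply put_gen ho
    · intro j hj
      have hj2 : 2 ≤ (j : ℕ) := by omega
      have hmid : mid g n o j ∈ Fge g n 2 := by
        have e : mid g n o j = seg g n 2 (j - 2) := by
          unfold mid
          rw [ho]
          rfl
        rw [e]
        exact put_seg_mem _
      have h3 : sw (n := n) o j ∈ Fge g n 2 :=
        Subgroup.mul_mem _ (Subgroup.mul_mem _ hmid (Fge_a hj2)) (Subgroup.inv_mem _ hmid)
      have h4 : tw (n := n) o j ∈ Fge g n 2 :=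
        Subgroup.mul_mem _ (Subgroup.mul_mem _ hmid (Fge_b hj2)) (Subgroup.inv_mem _ hmid)
      constructor
      · have h5 : (sw (n := n) o j)⁻¹ ∈ putS n z o :=
          ⟨Subgroup.inv_mem _ h3, _, pushOK_a hz ho hj (by omega)⟩
        have h6 := Subgroup.inv_mem _ h5
        rwa [inv_inv] at h6
      · exact ⟨h4, _, pushOK_b hz ho hj (by omega)⟩
    · intro j
      refine ⟨?_, _, pushOK_c hz ho j⟩
      have hmid : midc g n o j ∈ Fge g n 2 := by
        have e : midc g n o j = seg g n 2 (g - 2) * cseg g n 0 j := by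
          unfold midc
          rw [ho]
          rfl
        rw [e]
        exact Subgroup.mul_mem _ (put_seg_mem _) (put_cseg_mem _ _)
      exact Subgroup.mul_mem _ (Subgroup.mul_mem _ hmid (Fge_c j)) (Subgroup.inv_mem _ hmid)
  exact (key hy).2

theorem st_Push : St_Push := by
  intro g n y hg hy
  obtain ⟨φ, h⟩ := pushT (z := ⟨0, by omega⟩) (o := ⟨1, by omega⟩) rfl rfl hy
  refine ⟨φ, h.mem, ?_, ?_, h.rest, fun x hx => (h.nn x).mp hx⟩
  · intro i hi
    have e : i = ⟨1, by omega⟩ := Fin.ext hi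
    rw [e]
    exact ⟨h.fa, h.fb⟩
  · intro i hi
    have e : i = ⟨0, by omega⟩ := Fin.ext hi
    rw [e]
    exact ⟨h.ta, h.tb⟩

end Pool.Agent.PWM
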