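import Pool.Agent.PWM.StB

/-!
# R : Lemma R from RC1, RC2, RC3, RN

Proof.  By hN: σ : K →+* ℂ with q ≤ Σ ‖1 - σ(χ_i)‖.  Suppose some p ∈ O is ≠ 0.  Map everything by σ.
h2 gives ε; apply it to x = tvec χ' t (1 ≤ t < q); with h1 (value at tvec) this is the
hypothesis of h3.  So Σ ‖1 - χ'_i‖ < 2π < 7 ≤ q.  Contradiction.
-/

namespace Pool.Agent.PWM

open Pool.Agent.PW

theorem r_twist_map {K : Type} [Field K] (σ : K →+* ℂ) (χ : ℕ → K) (i : ℕ) (p : ℕ → K) :
    (fun j => σ (twist χ i p j)) = twist (fun j => σ (χ j)) i (fun j => σ (p j)) := by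
  funext j
  unfold twist
  by_cases h : j = i + 1
  · subst h
    simp only [Function.update_self, map_add, map_mul, map_sub, map_one]
  · simp only [Function.update_of_ne h]

theorem st_R (h1 : St_RC1) (h2 : St_RC2) (h3 : St_RC3) (hN : St_RN) : St_R := by
  intro K _ _ q χ O hq hχ hprod hfin hO hst
  by_contra hcon
  push Not at hcon
  obtain ⟨p0, hp0, hne⟩ := hcon
  obtain ⟨σ, hσ⟩ := hN q χ hχ
  have hinj : Function.Injective σ := σ.injective
  have hχ' : ∀ i < q, ‖σ (χ i)‖ = 1 ∧ σ (χ i) ≠ 1 := by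
    intro i hi
    obtain ⟨a, m, hm, hpow⟩ := hχ i hi
    refine ⟨?_, fun h => a (hinj (by rw [h, map_one]))⟩
    have : σ (χ i) ^ m = 1 := by rw [← map_pow, hpow, map_one]
    exact Complex.norm_eq_one_of_pow_eq_one this hm.ne'
  have hprod' : ∏ i ∈ Finset.range q, σ (χ i) ≠ 1 := by
    intro h
    apply hprod
    apply hinj
    rw [map_prod, h, map_one]
  obtain ⟨ε, hε, hpos⟩ := h2 q (fun j => σ (χ j)) ((fun p : ℕ → K => fun j => σ (p j)) '' O)
    (by omega) hχ' hprod' (hfin.image _)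
    (by
      rintro _ ⟨p, hp, rfl⟩
      refine ⟨?_, fun j hj => ?_⟩
      · show σ (p 0) = 0
        rw [(hO p hp).1, map_zero]
      · show σ (p j) = 0
        rw [(hO p hp).2 j hj, map_zero])
    (by
      rintro _ ⟨p, hp, rfl⟩ i hi
      exact ⟨twist χ i p, hst p hp i hi, r_twist_map σ χ i p⟩)
    (by
      refine ⟨fun j => σ (p0 j), ⟨p0, hp0, rfl⟩, fun h => hne ?_⟩
      funext j
      have := congrFun h j
      simpa using this)
  have hlt := h3 q (fun j => σ (χ j)) ε hε hχ' (by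
    intro t ht1 htq
    have hval := (h1 q (fun j => σ (χ j)) hχ').2.2 t htq
    rw [← hval]
    apply hpos
    · intro h
      have h4 := congrFun h 1
      unfold tvec at h4
      rw [if_pos ht1, Finset.prod_range_one] at h4
      exact (hχ' 0 (by omega)).2 (sub_eq_zero.1 h4).symm
    · unfold tvec
      rw [if_pos (Nat.zero_le t), Finset.prod_range_zero, sub_self]
    · intro j hj
      unfold tvec
      rw [if_neg (by omega)])
  have h5 := Real.pi_lt_d2
  have h6 : (7 : ℝ) ≤ q := by exact_mod_cast hq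
  linarith

end Pool.Agent.PWM
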