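import Pool.Agent.PWM.StB

/-!
# RC1 : the invariant skew hermitian form: symmetry, invariance, test vectors

(1) termwise.  (2) The twist changes only the entry `i + 1`, which occurs in two terms of the sum; for these a rational identity.
(3) the first `t` terms telescope, the term `t` is explicit, the others vanish.
-/

namespace Pool.Agent.PWM

open Pool.Agent.PW

/-- one term of the form -/
noncomputable def rc1_term (χ x y : ℕ → ℂ) (j : ℕ) : ℂ :=
  starRingEnd ℂ (y j) * x (j + 1) - x j * starRingEnd ℂ (y (j + 1)) +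
    (χ j + 1) / (χ j - 1) * ((x (j + 1) - x j) * starRingEnd ℂ (y (j + 1) - y j))

theorem rc1_conj {c : ℂ} (h : ‖c‖ = 1) : starRingEnd ℂ c = c⁻¹ := by
  rw [Complex.inv_def, Complex.normSq_eq_norm_sq, h]; simp

theorem rc1_ne {c : ℂ} (h : ‖c‖ = 1) : c ≠ 0 := by
  rintro rfl; simp at h

theorem rc1_skew (q : ℕ) (χ : ℕ → ℂ) (h : ∀ i < q, ‖χ i‖ = 1 ∧ χ i ≠ 1) (x y : ℕ → ℂ) :
    hform χ q y x = -starRingEnd ℂ (hform χ q x y) := by
  unfold hform
  rw [map_sum, ← Finset.sum_neg_distrib]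
  apply Finset.sum_congr rfl
  intro j hj
  obtain ⟨h1, h2⟩ := h j (Finset.mem_range.mp hj)
  have h3 : starRingEnd ℂ ((χ j + 1) / (χ j - 1)) = -((χ j + 1) / (χ j - 1)) := by
    rw [map_div₀, map_add, map_sub, map_one, rc1_conj h1]
    have h4 := rc1_ne h1
    have h5 : χ j - 1 ≠ 0 := sub_ne_zero.mpr h2
    have h6 : (χ j)⁻¹ - 1 ≠ 0 := by
      intro h7
      apply h2
      have h8 : (χ j)⁻¹ = 1 := sub_eq_zero.mp h7
      exact inv_eq_one.mp h8
    have h7 : 1 - χ j ≠ 0 := sub_ne_zero.mpr (Ne.symm h2)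
    have h8 : (χ j)⁻¹ - 1 = (1 - χ j) / χ j := by field_simp
    have h9 : (χ j)⁻¹ + 1 = (1 + χ j) / χ j := by field_simp
    rw [h8, h9, div_div_div_cancel_right₀ h4]
    rw [← neg_div_neg_eq, neg_div]
    ring_nf
  simp only [map_add, map_sub, map_mul, Complex.conj_conj, h3]
  ring

theorem rc1_twist (q : ℕ) (χ : ℕ → ℂ) (h : ∀ i < q, ‖χ i‖ = 1 ∧ χ i ≠ 1) (i : ℕ)
    (hi : i + 1 < q) (x y : ℕ → ℂ) :
    hform χ q (twist χ i x) (twist χ i y) = hform χ q x y := by
  have hdef : ∀ x y : ℕ → ℂ, hform χ q x y = ∑ j ∈ Finset.range q, rc1_term χ x y j :=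
    fun x y => rfl
  rw [hdef, hdef, ← sub_eq_zero, ← Finset.sum_sub_distrib]
  have hv : ∀ (z : ℕ → ℂ) (j : ℕ), j ≠ i + 1 → twist χ i z j = z j := by
    intro z j hj
    unfold twist
    rw [Function.update_of_ne hj]
  have hw : ∀ z : ℕ → ℂ, twist χ i z (i + 1) =
      χ i * χ (i + 1) * z (i + 1) + χ i * (1 - χ (i + 1)) * z i + (1 - χ i) * z (i + 2) := by
    intro z
    unfold twist
    rw [Function.update_self]
  have hsub : ({i, i + 1} : Finset ℕ) ⊆ Finset.range q := by
    intro j hj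
    rw [Finset.mem_insert, Finset.mem_singleton] at hj
    rw [Finset.mem_range]
    omega
  rw [← Finset.sum_subset hsub]
  · rw [Finset.sum_pair (by omega)]
    obtain ⟨ha1, ha2⟩ := h i (by omega)
    obtain ⟨hb1, hb2⟩ := h (i + 1) hi
    unfold rc1_term
    rw [hw, hw, hv x i (by omega), hv y i (by omega), hv x (i + 1 + 1) (by omega),
      hv y (i + 1 + 1) (by omega)]
    simp only [map_add, map_sub, map_mul, map_one, rc1_conj ha1, rc1_conj hb1]
    have ea : i + 2 = i + 1 + 1 := rfl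
    rw [ea]
    generalize starRingEnd ℂ (y i) = U
    generalize starRingEnd ℂ (y (i + 1)) = V
    generalize starRingEnd ℂ (y (i + 1 + 1)) = W
    have e1 := rc1_ne ha1
    have e2 := rc1_ne hb1
    have e3 : χ i - 1 ≠ 0 := sub_ne_zero.mpr ha2
    have e4 : χ (i + 1) - 1 ≠ 0 := sub_ne_zero.mpr hb2
    generalize χ i = a at e1 e3 ⊢
    generalize χ (i + 1) = b at e2 e4 ⊢
    generalize x i = u
    generalize x (i + 1) = v
    generalize x (i + 1 + 1) = w
    field_simp
    ring
  · intro j hj hj'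
    rw [Finset.mem_insert, Finset.mem_singleton, not_or] at hj'
    unfold rc1_term
    rw [hv x j hj'.2, hv y j hj'.2, hv x (j + 1) (by omega), hv y (j + 1) (by omega), sub_self]

theorem rc1_tvec (q : ℕ) (χ : ℕ → ℂ) (h : ∀ i < q, ‖χ i‖ = 1 ∧ χ i ≠ 1) (t : ℕ) (ht : t < q) :
    hform χ q (tvec χ t) (tvec χ t) =
    2 * (1 - starRingEnd ℂ (∏ j ∈ Finset.range t, χ j)) *
      (1 - ∏ j ∈ Finset.range (t + 1), χ j) / (χ t - 1) := by
  have hdef : ∀ x y : ℕ → ℂ, hform χ q x y = ∑ j ∈ Finset.range q, rc1_term χ x y j :=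
    fun x y => rfl
  rw [hdef]
  set P : ℕ → ℂ := fun n => ∏ j ∈ Finset.range n, χ j with hP
  have hPs : ∀ n, P (n + 1) = P n * χ n := fun n => Finset.prod_range_succ _ _
  have hP1 : ∀ n, n ≤ q → ‖P n‖ = 1 := by
    intro n hn
    simp only [hP]
    rw [norm_prod]
    apply Finset.prod_eq_one
    intro j hj
    exact (h j (by have := Finset.mem_range.mp hj; omega)).1
  have hle : ∀ j, j ≤ t → tvec χ t j = 1 - P j := by
    intro j hj; unfold tvec; rw [if_pos hj]
  have hgt : ∀ j, t < j → tvec χ t j = 0 := by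
    intro j hj; unfold tvec; rw [if_neg (by omega)]
  have hsub : Finset.range (t + 1) ⊆ Finset.range q := by
    intro j hj
    rw [Finset.mem_range] at hj ⊢
    omega
  rw [← Finset.sum_subset hsub]
  · rw [Finset.sum_range_succ]
    have h1 : ∑ j ∈ Finset.range t, rc1_term χ (tvec χ t) (tvec χ t) j
        = (starRingEnd ℂ (P t) - P t) - (starRingEnd ℂ (P 0) - P 0) := by
      rw [← Finset.sum_range_sub (fun n => starRingEnd ℂ (P n) - P n)]
      apply Finset.sum_congr rfl
      intro j hj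
      have hj' := Finset.mem_range.mp hj
      obtain ⟨hc1, hc2⟩ := h j (by omega)
      unfold rc1_term
      rw [hle j (by omega), hle (j + 1) (by omega), hPs j]
      simp only [map_sub, map_mul, map_one, rc1_conj hc1, rc1_conj (hP1 j (by omega))]
      have e1 := rc1_ne hc1
      have e2 := rc1_ne (hP1 j (by omega))
      have e3 : χ j - 1 ≠ 0 := sub_ne_zero.mpr hc2
      generalize χ j = c at e1 e3 ⊢
      generalize P j = p at e2 ⊢
      field_simp
      ring
    have h0 : P 0 = 1 := by simp [hP]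
    have h2 : (∏ j ∈ Finset.range (t + 1), χ j) = P t * χ t := hPs t
    have h3 : (∏ j ∈ Finset.range t, χ j) = P t := rfl
    rw [h1, h0, h2, h3]
    unfold rc1_term
    rw [hle t le_rfl, hgt (t + 1) (by omega)]
    obtain ⟨hc1, hc2⟩ := h t ht
    simp only [map_sub, map_one, map_zero, rc1_conj (hP1 t (by omega))]
    have e1 := rc1_ne hc1
    have e2 := rc1_ne (hP1 t (by omega))
    have e3 : χ t - 1 ≠ 0 := sub_ne_zero.mpr hc2
    generalize χ t = c at e1 e3 ⊢
    generalize P t = p at e2 ⊢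
    field_simp
    ring
  · intro j hj hj'
    rw [Finset.mem_range, not_lt] at hj'
    unfold rc1_term
    rw [hgt j (by omega), hgt (j + 1) (by omega)]
    simp

theorem st_RC1 : St_RC1 := by
  intro q χ h
  exact ⟨fun x y => rc1_skew q χ h x y, fun i hi x y => rc1_twist q χ h i hi x y,
    fun t ht => rc1_tvec q χ h t ht⟩

end Pool.Agent.PWM
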