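import Pool.Agent.PWM.StB

/-!
# RC2 : definiteness of the form from a finite orbit (reflection group argument)

Proof (paper 2.1 (a)-(d)).  Write H = hform χ q, t_i = twist χ i, e_i = Pi.single (i+1) 1 (i + 1 < q), φ_i p = (χ i χ (i+1) - 1) p (i+1) + χ i (1 - χ (i+1)) p i + (1 - χ i) p (i+2), so t_i p = p + φ_i(p) e_i; c_i = χ i χ (i+1);
φ_i(e_i) = c_i - 1, φ_{i+1}(e_i) = χ_{i+1}(1-χ_{i+2}) ≠ 0, φ_i(e_{i+1}) = 1 - χ_i ≠ 0.  Space W = {x | x 0 = 0, x j = 0 for j ≥ q}.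
(a) x ∈ W, all φ_i(x) = 0 (i+1<q) => x = 0:  φ_i(x) = (1-χ_i)(x_{i+2}-x_{i+1}) - χ_i(1-χ_{i+1})(x_{i+1}-x_i), so x_{j+1}-x_j = π_j (1-χ_j) c (c = x_1/(1-χ_0), π_j = ∏_{range j} χ, induction), so x_j = (1-π_j) c, 0 = x_q = (1-π_q)c, c = 0.
(b) For every i (i+1<q) there is p ∈ O with φ_i(p) ≠ 0: by (a) for some i0; if φ_i(p) ≠ 0, φ_{i±1}(t_i p) = φ_{i±1}(p) + φ_i(p) φ_{i±1}(e_i), so p or t_i p works for i±1; induction in both directions.
(c) c_i ≠ 1: take p ∈ O, φ_i(p) ≠ 0; if c_i = 1 then t_i^m p = p + m φ_i(p) e_i are infinitely many elements of O.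
(d) H0(x,y) := Σ_{p ∈ O} H(x,p) * conj (H(y,p)) (O finite; Finset sum over hO.toFinset).  t_i is injective (c-coefficient χ_i χ_{i+1} ≠ 0) and maps O into O, so it permutes O; by RC1 H0(t_i x, t_i y) = H0(x,y); H0 hermitian, H0(x,x) ≥ 0.
(e) For an invariant sesquilinear form G (G = H or H0; G(tx,ty) = G(x,y)): G(x,e_i) = φ_i(x) G(e_i,e_i)/(c_i-1).
(f) N_i = H(e_i,e_i) (purely imaginary), N0_i = H0(e_i,e_i) > 0; N_i = I r_i N0_i, r_{i+1} = r_i =: r ≠ 0.
(g) So H(x,e_i) = I r H0(x,e_i) for all i, x, and H(x,y) = I r H0(x,y) for y ∈ W (y = Σ y_{i+1} e_i).  H0(x,x) > 0 for x ∈ W, x ≠ 0.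
    ε = sign of r; (H(x,x)).im = r H0(x,x).
-/

namespace Pool.Agent.PWM

open Pool.Agent.PW

/-- the functional of a twist -/
private noncomputable def rc2phi (χ : ℕ → ℂ) (i : ℕ) (p : ℕ → ℂ) : ℂ :=
  (χ i * χ (i + 1) - 1) * p (i + 1) + χ i * (1 - χ (i + 1)) * p i + (1 - χ i) * p (i + 2)

private noncomputable def rc2e (i : ℕ) : ℕ → ℂ := Pi.single (i + 1) 1

private theorem rc2e_self (i : ℕ) : rc2e i (i + 1) = 1 := by
  simp [rc2e]

private theorem rc2e_ne {i j : ℕ} (h : j ≠ i + 1) : rc2e i j = 0 := by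
  simp [rc2e, h]

private theorem rc2_twist (χ : ℕ → ℂ) (i : ℕ) (p : ℕ → ℂ) :
    twist χ i p = p + rc2phi χ i p • rc2e i := by
  funext j
  by_cases h : j = i + 1
  · subst h
    rw [Pi.add_apply, Pi.smul_apply, rc2e_self]
    simp only [twist, rc2phi, Function.update_self, smul_eq_mul]
    ring
  · rw [Pi.add_apply, Pi.smul_apply, rc2e_ne h]
    simp only [twist, ne_eq, h, not_false_eq_true, Function.update_of_ne, smul_eq_mul]
    ring

private theorem rc2_phi_add (χ : ℕ → ℂ) (i : ℕ) (p p' : ℕ → ℂ) :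
    rc2phi χ i (p + p') = rc2phi χ i p + rc2phi χ i p' := by
  simp only [rc2phi, Pi.add_apply]; ring

private theorem rc2_phi_smul (χ : ℕ → ℂ) (i : ℕ) (a : ℂ) (p : ℕ → ℂ) :
    rc2phi χ i (a • p) = a * rc2phi χ i p := by
  simp only [rc2phi, Pi.smul_apply, smul_eq_mul]; ring

private theorem rc2_phi_self (χ : ℕ → ℂ) (i : ℕ) :
    rc2phi χ i (rc2e i) = χ i * χ (i + 1) - 1 := by
  rw [rc2phi, rc2e_self, rc2e_ne (by omega), rc2e_ne (by omega)]; ring

private theorem rc2_phi_succ (χ : ℕ → ℂ) (i : ℕ) :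
    rc2phi χ (i + 1) (rc2e i) = χ (i + 1) * (1 - χ (i + 2)) := by
  rw [rc2phi, rc2e_self, rc2e_ne (by omega), rc2e_ne (by omega)]; ring

private theorem rc2_phi_pred (χ : ℕ → ℂ) (i : ℕ) :
    rc2phi χ i (rc2e (i + 1)) = 1 - χ i := by
  rw [rc2phi, rc2e_ne (j := i + 1) (by omega), rc2e_ne (j := i) (by omega),
    show i + 2 = i + 1 + 1 from rfl, rc2e_self]; ring

/-- (a) -/
private theorem rc2_a {q : ℕ} {χ : ℕ → ℂ} (hχ : ∀ i < q, ‖χ i‖ = 1 ∧ χ i ≠ 1)
    (hπ : ∏ i ∈ Finset.range q, χ i ≠ 1) {x : ℕ → ℂ} (h0 : x 0 = 0)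
    (hx : ∀ j, q ≤ j → x j = 0) (hφ : ∀ i, i + 1 < q → rc2phi χ i x = 0) : x = 0 := by
  obtain ⟨c, hc⟩ : ∃ c, c = x 1 / (1 - χ 0) := ⟨_, rfl⟩
  have h1 : ∀ j, j < q → x (j + 1) - x j = (∏ i ∈ Finset.range j, χ i) * (1 - χ j) * c := by
    intro j
    induction j with
    | zero =>
      intro hj
      have h2 : 1 - χ 0 ≠ 0 := sub_ne_zero.2 (hχ 0 hj).2.symm
      rw [Finset.range_zero, Finset.prod_empty, one_mul, h0, sub_zero, hc, zero_add,
        mul_div_cancel₀ _ h2]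
    | succ j ih =>
      intro hj
      have h2 := ih (by omega)
      have h3 := hφ j hj
      have h4 : 1 - χ j ≠ 0 := sub_ne_zero.2 (hχ j (by omega)).2.symm
      rw [Finset.prod_range_succ]
      apply mul_left_cancel₀ h4
      have h5 : (1 - χ j) * (x (j + 2) - x (j + 1)) =
          χ j * (1 - χ (j + 1)) * (x (j + 1) - x j) := by
        unfold rc2phi at h3
        linear_combination h3
      rw [show j + 1 + 1 = j + 2 from rfl, h5, h2]
      ring
  have h2 : ∀ j, j ≤ q → x j = (1 - ∏ i ∈ Finset.range j, χ i) * c := by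
    intro j
    induction j with
    | zero => intro _; simp [h0]
    | succ j ih =>
      intro hj
      have h3 := h1 j (by omega)
      have h4 := ih (by omega)
      rw [Finset.prod_range_succ]
      linear_combination h3 + h4
  have h3 : c = 0 := by
    have h4 := h2 q le_rfl
    rw [hx q le_rfl] at h4
    rcases mul_eq_zero.1 h4.symm with h5 | h5
    · exact absurd (sub_eq_zero.1 h5).symm hπ
    · exact h5
  funext j
  by_cases hj : j ≤ q
  · rw [h2 j hj, h3, mul_zero]; rfl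
  · rw [hx j (by omega)]; rfl

/-- (b) -/
private theorem rc2_b {q : ℕ} {χ : ℕ → ℂ} {O : Set (ℕ → ℂ)}
    (hχ : ∀ i < q, ‖χ i‖ = 1 ∧ χ i ≠ 1)
    (hπ : ∏ i ∈ Finset.range q, χ i ≠ 1) (hOW : ∀ p ∈ O, p 0 = 0 ∧ ∀ j, q ≤ j → p j = 0)
    (hOt : ∀ p ∈ O, ∀ i, i + 1 < q → twist χ i p ∈ O) (hne : ∃ p ∈ O, p ≠ 0) :
    ∀ i, i + 1 < q → ∃ p ∈ O, rc2phi χ i p ≠ 0 := by
  obtain ⟨p0, hp0, hp0'⟩ := hne
  obtain ⟨i0, hi0, hφ0⟩ : ∃ i, i + 1 < q ∧ rc2phi χ i p0 ≠ 0 := by
    by_contra hcon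
    push Not at hcon
    exact hp0' (rc2_a hχ hπ (hOW p0 hp0).1 (hOW p0 hp0).2 hcon)
  have hup : ∀ d, i0 + d + 1 < q → ∃ p ∈ O, rc2phi χ (i0 + d) p ≠ 0 := by
    intro d
    induction d with
    | zero => intro _; exact ⟨p0, hp0, hφ0⟩
    | succ d ih =>
      intro hd
      obtain ⟨p, hp, hpφ⟩ := ih (by omega)
      by_cases h2 : rc2phi χ (i0 + (d + 1)) p = 0
      · refine ⟨twist χ (i0 + d) p, hOt p hp _ (by omega), ?_⟩
        rw [rc2_twist, rc2_phi_add, rc2_phi_smul, h2, zero_add, show i0 + (d + 1) = i0 + d + 1 from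
          rfl, rc2_phi_succ]
        have h3 := hχ (i0 + d + 1) (by omega)
        have h4 := hχ (i0 + d + 2) (by omega)
        have h5 : χ (i0 + d + 1) ≠ 0 := by
          intro h6
          rw [h6, norm_zero] at h3
          exact zero_ne_one h3.1
        exact mul_ne_zero hpφ (mul_ne_zero h5 (sub_ne_zero.2 h4.2.symm))
      · exact ⟨p, hp, h2⟩
  have hdown : ∀ d i, i + d = i0 → ∃ p ∈ O, rc2phi χ i p ≠ 0 := by
    intro d
    induction d with
    | zero =>
      intro i hi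
      rw [add_zero] at hi
      rw [hi]
      exact ⟨p0, hp0, hφ0⟩
    | succ d ih =>
      intro i hi
      obtain ⟨p, hp, hpφ⟩ := ih (i + 1) (by omega)
      by_cases h2 : rc2phi χ i p = 0
      · refine ⟨twist χ (i + 1) p, hOt p hp _ (by omega), ?_⟩
        rw [rc2_twist, rc2_phi_add, rc2_phi_smul, h2, zero_add, rc2_phi_pred]
        exact mul_ne_zero hpφ (sub_ne_zero.2 (hχ i (by omega)).2.symm)
      · exact ⟨p, hp, h2⟩
  intro i hi
  rcases Nat.le_total i i0 with h2 | h2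
  · exact hdown (i0 - i) i (by omega)
  · obtain ⟨d, rfl⟩ := Nat.exists_eq_add_of_le h2
    exact hup d hi

/-- (c) -/
private theorem rc2_c {q : ℕ} {χ : ℕ → ℂ} {O : Set (ℕ → ℂ)} (hO : O.Finite)
    (hOt : ∀ p ∈ O, ∀ i, i + 1 < q → twist χ i p ∈ O) {i : ℕ} (hi : i + 1 < q) {p : ℕ → ℂ}
    (hp : p ∈ O) (hpφ : rc2phi χ i p ≠ 0) : χ i * χ (i + 1) ≠ 1 := by
  intro hc
  have h1 : ∀ m : ℕ, (twist χ i)^[m] p = p + ((m : ℂ) * rc2phi χ i p) • rc2e i := by
    intro m
    induction m with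
    | zero => simp
    | succ m ih =>
      rw [Function.iterate_succ_apply', ih, rc2_twist, rc2_phi_add, rc2_phi_smul, rc2_phi_self, hc,
        sub_self, mul_zero, add_zero, add_assoc, ← add_smul]
      congr 2
      push_cast
      ring
  have h2 : ∀ m : ℕ, (twist χ i)^[m] p ∈ O := by
    intro m
    induction m with
    | zero => exact hp
    | succ m ih =>
      rw [Function.iterate_succ_apply']
      exact hOt _ ih i hi
  refine Set.infinite_of_injective_forall_mem (f := fun m : ℕ => (twist χ i)^[m] p) ?_ h2 hO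
  intro m m' hm
  have h3 : (twist χ i)^[m] p (i + 1) = (twist χ i)^[m'] p (i + 1) := congrFun hm (i + 1)
  rw [h1, h1] at h3
  simp only [Pi.add_apply, Pi.smul_apply, rc2e_self, smul_eq_mul, mul_one] at h3
  have h4 := mul_right_cancel₀ hpφ (add_left_cancel h3)
  exact_mod_cast h4

/-- sesquilinear forms -/
private structure RC2SF (G : (ℕ → ℂ) → (ℕ → ℂ) → ℂ) : Prop where
  add : ∀ x x' y, G (x + x') y = G x y + G x' y
  smul : ∀ (a : ℂ) x y, G (a • x) y = a * G x y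
  add' : ∀ x y y', G x (y + y') = G x y + G x y'
  smul' : ∀ (a : ℂ) x y, G x (a • y) = starRingEnd ℂ a * G x y

private theorem rc2_sf (χ : ℕ → ℂ) (q : ℕ) : RC2SF (hform χ q) where
  add x x' y := by
    simp only [hform, Pi.add_apply, ← Finset.sum_add_distrib]
    refine Finset.sum_congr rfl fun j _ => ?_
    ring
  smul a x y := by
    simp only [hform, Pi.smul_apply, smul_eq_mul, Finset.mul_sum]
    refine Finset.sum_congr rfl fun j _ => ?_
    ring
  add' x y y' := by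
    simp only [hform, Pi.add_apply, map_add, map_sub, ← Finset.sum_add_distrib]
    refine Finset.sum_congr rfl fun j _ => ?_
    ring
  smul' a x y := by
    simp only [hform, Pi.smul_apply, smul_eq_mul, map_mul, map_sub, Finset.mul_sum]
    refine Finset.sum_congr rfl fun j _ => ?_
    ring

/-- the averaged form -/
private noncomputable def rc2H (χ : ℕ → ℂ) (q : ℕ) (s : Finset (ℕ → ℂ)) (x y : ℕ → ℂ) : ℂ :=
  ∑ p ∈ s, hform χ q x p * starRingEnd ℂ (hform χ q y p)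

private theorem rc2H_sf (χ : ℕ → ℂ) (q : ℕ) (s : Finset (ℕ → ℂ)) : RC2SF (rc2H χ q s) where
  add x x' y := by
    simp only [rc2H, (rc2_sf χ q).add, ← Finset.sum_add_distrib]
    refine Finset.sum_congr rfl fun j _ => ?_
    ring
  smul a x y := by
    simp only [rc2H, (rc2_sf χ q).smul, Finset.mul_sum]
    refine Finset.sum_congr rfl fun j _ => ?_
    ring
  add' x y y' := by
    simp only [rc2H, (rc2_sf χ q).add, map_add, ← Finset.sum_add_distrib]
    refine Finset.sum_congr rfl fun j _ => ?_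
    ring
  smul' a x y := by
    simp only [rc2H, (rc2_sf χ q).smul, map_mul, Finset.mul_sum]
    refine Finset.sum_congr rfl fun j _ => ?_
    ring

private theorem rc2H_herm (χ : ℕ → ℂ) (q : ℕ) (s : Finset (ℕ → ℂ)) (x y : ℕ → ℂ) :
    rc2H χ q s y x = starRingEnd ℂ (rc2H χ q s x y) := by
  simp only [rc2H, map_sum, map_mul, Complex.conj_conj]
  refine Finset.sum_congr rfl fun j _ => ?_
  ring

private theorem rc2H_self (χ : ℕ → ℂ) (q : ℕ) (s : Finset (ℕ → ℂ)) (x : ℕ → ℂ) :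
    rc2H χ q s x x = ((∑ p ∈ s, Complex.normSq (hform χ q x p) : ℝ) : ℂ) := by
  rw [rc2H, Complex.ofReal_sum]
  exact Finset.sum_congr rfl fun p _ => Complex.mul_conj _

/-- twists are injective -/
private theorem rc2_inj {χ : ℕ → ℂ} {i : ℕ} (h : χ i * χ (i + 1) ≠ 0) :
    Function.Injective (twist χ i) := by
  intro p p' hpp
  have h1 : ∀ j, j ≠ i + 1 → p j = p' j := by
    intro j hj
    have h2 := congrFun hpp j
    simpa only [twist, ne_eq, hj, not_false_eq_true, Function.update_of_ne] using h2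
  funext j
  by_cases hj : j = i + 1
  · subst hj
    have h2 := congrFun hpp (i + 1)
    simp only [twist, Function.update_self] at h2
    rw [h1 i (by omega), h1 (i + 2) (by omega)] at h2
    exact mul_left_cancel₀ h (add_right_cancel (add_right_cancel h2))
  · exact h1 j hj

/-- (d) -/
private theorem rc2H_inv {χ : ℕ → ℂ} {q : ℕ} {O : Set (ℕ → ℂ)} (hO : O.Finite) {i : ℕ}
    (h : χ i * χ (i + 1) ≠ 0) (hOt : ∀ p ∈ O, twist χ i p ∈ O)
    (hinv : ∀ x y, hform χ q (twist χ i x) (twist χ i y) = hform χ q x y) (x y : ℕ → ℂ) :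
    rc2H χ q hO.toFinset (twist χ i x) (twist χ i y) = rc2H χ q hO.toFinset x y := by
  classical
  have h1 : hO.toFinset.image (twist χ i) = hO.toFinset := by
    refine Finset.eq_of_subset_of_card_le ?_ ?_
    · intro p hp
      obtain ⟨p', hp', rfl⟩ := Finset.mem_image.1 hp
      exact hO.mem_toFinset.2 (hOt p' (hO.mem_toFinset.1 hp'))
    · rw [Finset.card_image_of_injective _ (rc2_inj h)]
  unfold rc2H
  conv_lhs => rw [← h1]
  rw [Finset.sum_image fun _ _ _ _ hab => rc2_inj h hab]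
  exact Finset.sum_congr rfl fun p _ => by rw [hinv, hinv]

/-- (e) -/
private theorem rc2_ev {G : (ℕ → ℂ) → (ℕ → ℂ) → ℂ} (hG : RC2SF G) {χ : ℕ → ℂ} {i : ℕ}
    (hn : ‖χ i * χ (i + 1)‖ = 1) (hinv : ∀ x y, G (twist χ i x) (twist χ i y) = G x y)
    (x : ℕ → ℂ) :
    (χ i * χ (i + 1) - 1) * G x (rc2e i) = rc2phi χ i x * G (rc2e i) (rc2e i) := by
  have h1 : twist χ i (rc2e i) = (χ i * χ (i + 1)) • rc2e i := by
    rw [rc2_twist, rc2_phi_self, sub_smul, one_smul]
    abel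
  have h2 := hinv x (rc2e i)
  rw [h1, rc2_twist, hG.smul', hG.add, hG.smul] at h2
  have h3 : (χ i * χ (i + 1)) * starRingEnd ℂ (χ i * χ (i + 1)) = 1 := by
    rw [Complex.mul_conj, Complex.normSq_eq_norm_sq, hn]
    norm_num
  linear_combination (-(χ i * χ (i + 1))) * h2 +
    (G x (rc2e i) + rc2phi χ i x * G (rc2e i) (rc2e i)) * h3

/-- the decomposition of the elements of `W` -/
private theorem rc2_dec {q : ℕ} {y : ℕ → ℂ} (h0 : y 0 = 0) (hy : ∀ j, q ≤ j → y j = 0) :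
    y = ∑ i ∈ Finset.range (q - 1), y (i + 1) • rc2e i := by
  funext j
  rw [Finset.sum_apply]
  simp only [Pi.smul_apply, smul_eq_mul]
  rcases Nat.eq_zero_or_eq_succ_pred j with h1 | h1
  · rw [h1, h0]
    symm
    refine Finset.sum_eq_zero fun i _ => ?_
    rw [rc2e_ne (by omega), mul_zero]
  · obtain ⟨k, hk⟩ : ∃ k, j = k + 1 := ⟨j - 1, h1⟩
    subst hk
    by_cases h2 : k + 1 < q
    · rw [Finset.sum_eq_single_of_mem k (Finset.mem_range.2 (by omega)) (fun i _ hik => by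
        rw [rc2e_ne (by omega), mul_zero]), rc2e_self, mul_one]
    · rw [hy (k + 1) (by omega)]
      symm
      refine Finset.sum_eq_zero fun i hi => ?_
      have h3 := Finset.mem_range.1 hi
      rw [rc2e_ne (by omega), mul_zero]

private theorem rc2_sum {G : (ℕ → ℂ) → (ℕ → ℂ) → ℂ} (hG : RC2SF G) (x : ℕ → ℂ) (a : ℕ → ℂ)
    (v : ℕ → ℕ → ℂ) (s : Finset ℕ) :
    G x (∑ i ∈ s, a i • v i) = ∑ i ∈ s, starRingEnd ℂ (a i) * G x (v i) := by
  classical
  induction s using Finset.induction_on with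
  | empty =>
    have h := hG.smul' 0 x 0
    rw [zero_smul, map_zero, zero_mul] at h
    rw [Finset.sum_empty, Finset.sum_empty, h]
  | insert i s hi ih =>
    rw [Finset.sum_insert hi, Finset.sum_insert hi, hG.add', hG.smul', ih]

/-- the value of the form at `e i` -/
private theorem rc2_val {q : ℕ} {χ : ℕ → ℂ} (hχ : ∀ i < q, ‖χ i‖ = 1 ∧ χ i ≠ 1) {i : ℕ}
    (hi : i + 1 < q) : hform χ q (rc2e i) (rc2e i) * ((χ i - 1) * (χ (i + 1) - 1)) =
      2 * (χ i * χ (i + 1) - 1) := by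
  have h1 : hform χ q (rc2e i) (rc2e i) = (χ i + 1) / (χ i - 1) +
      (χ (i + 1) + 1) / (χ (i + 1) - 1) := by
    rw [hform, Finset.sum_eq_add_of_mem i (i + 1) (Finset.mem_range.2 (by omega))
      (Finset.mem_range.2 hi) (by omega)]
    · rw [rc2e_self, rc2e_ne (j := i) (by omega), rc2e_ne (j := i + 1 + 1) (by omega)]
      simp
    · intro j _ hj
      have h2 : rc2e i (j + 1) = 0 := rc2e_ne (by omega)
      have h3 : rc2e i j = 0 := rc2e_ne hj.2
      rw [h2, h3]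
      simp
  have h2 : χ i - 1 ≠ 0 := sub_ne_zero.2 (hχ i (by omega)).2
  have h3 : χ (i + 1) - 1 ≠ 0 := sub_ne_zero.2 (hχ (i + 1) hi).2
  rw [h1]
  field_simp
  ring

theorem st_RC2 (h1 : St_RC1) : St_RC2 := by
  intro q χ O hq hχ hπ hO hOW hOt hne
  obtain ⟨hskew, hinv, -⟩ := h1 q χ hχ
  have hb := rc2_b hχ hπ hOW hOt hne
  have hc : ∀ i, i + 1 < q → χ i * χ (i + 1) ≠ 1 := by
    intro i hi
    obtain ⟨p, hp, hpφ⟩ := hb i hi
    exact rc2_c hO hOt hi hp hpφ
  have hn : ∀ i, i + 1 < q → ‖χ i * χ (i + 1)‖ = 1 := by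
    intro i hi
    rw [norm_mul, (hχ i (by omega)).1, (hχ (i + 1) hi).1, one_mul]
  have hnz : ∀ i, i + 1 < q → χ i * χ (i + 1) ≠ 0 := by
    intro i hi h2
    have h3 := hn i hi
    rw [h2, norm_zero] at h3
    exact zero_ne_one h3
  obtain ⟨H0, hH0⟩ : ∃ H0, H0 = rc2H χ q hO.toFinset := ⟨_, rfl⟩
  have hsf := rc2_sf χ q
  have hsf0 : RC2SF H0 := hH0 ▸ rc2H_sf χ q hO.toFinset
  have hinv0 : ∀ i, i + 1 < q → ∀ x y, H0 (twist χ i x) (twist χ i y) = H0 x y := by
    intro i hi x y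
    rw [hH0]
    exact rc2H_inv hO (hnz i hi) (fun p hp => hOt p hp i hi) (hinv i hi) x y
  have hev : ∀ i, i + 1 < q → ∀ x, (χ i * χ (i + 1) - 1) * hform χ q x (rc2e i) =
      rc2phi χ i x * hform χ q (rc2e i) (rc2e i) := fun i hi =>
    rc2_ev hsf (hn i hi) (hinv i hi)
  have hev0 : ∀ i, i + 1 < q → ∀ x, (χ i * χ (i + 1) - 1) * H0 x (rc2e i) =
      rc2phi χ i x * H0 (rc2e i) (rc2e i) := fun i hi =>
    rc2_ev hsf0 (hn i hi) (hinv0 i hi)
  have hN : ∀ i, i + 1 < q → hform χ q (rc2e i) (rc2e i) ≠ 0 := by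
    intro i hi h2
    have h3 := rc2_val hχ hi
    rw [h2, zero_mul] at h3
    rcases mul_eq_zero.1 h3.symm with h4 | h4
    · exact two_ne_zero h4
    · exact hc i hi (sub_eq_zero.1 h4)
  -- the real values of the averaged form
  obtain ⟨n0, hn0⟩ : ∃ n0 : (ℕ → ℂ) → ℝ, n0 = fun x =>
    ∑ p ∈ hO.toFinset, Complex.normSq (hform χ q x p) := ⟨_, rfl⟩
  have hself : ∀ x, H0 x x = (n0 x : ℂ) := by
    intro x
    rw [hH0, hn0]
    exact rc2H_self χ q hO.toFinset x
  have hnn : ∀ x, 0 ≤ n0 x := by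
    intro x
    rw [hn0]
    exact Finset.sum_nonneg fun p _ => Complex.normSq_nonneg _
  have hz : ∀ x, n0 x = 0 → ∀ p ∈ O, hform χ q x p = 0 := by
    intro x hx p hp
    rw [hn0] at hx
    have h2 := (Finset.sum_eq_zero_iff_of_nonneg fun p _ => Complex.normSq_nonneg _).1 hx p
      (hO.mem_toFinset.2 hp)
    exact Complex.normSq_eq_zero.1 h2
  have hsk0 : ∀ x y, hform χ q x y = 0 → hform χ q y x = 0 := by
    intro x y hxy
    rw [hskew x y, hxy, map_zero, neg_zero]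
  -- nondegeneracy
  have hpos : ∀ x : ℕ → ℂ, x ≠ 0 → x 0 = 0 → (∀ j, q ≤ j → x j = 0) → 0 < n0 x := by
    intro x hx hx0 hxj
    refine lt_of_le_of_ne (hnn x) fun h2 => hx ?_
    refine rc2_a hχ hπ hx0 hxj fun i hi => ?_
    obtain ⟨p, hp, hpφ⟩ := hb i hi
    have h3 := hsk0 _ _ (hz x h2.symm p hp)
    have h4 := hsk0 _ _ (hz x h2.symm _ (hOt p hp i hi))
    rw [rc2_twist, hsf.add, hsf.smul, h3, zero_add] at h4
    have h5 : hform χ q (rc2e i) x = 0 := by
      rcases mul_eq_zero.1 h4 with h6 | h6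
      · exact absurd h6 hpφ
      · exact h6
    have h6 := hev i hi x
    rw [hsk0 _ _ h5, mul_zero] at h6
    rcases mul_eq_zero.1 h6.symm with h7 | h7
    · exact h7
    · exact absurd h7 (hN i hi)
  have heW : ∀ i, i + 1 < q → 0 < n0 (rc2e i) := by
    intro i hi
    refine hpos _ (fun h2 => ?_) (rc2e_ne (by omega)) fun j hj => rc2e_ne (by omega)
    have h3 := congrFun h2 (i + 1)
    rw [rc2e_self] at h3
    exact one_ne_zero h3
  -- the ratio
  obtain ⟨r, hr⟩ : ∃ r : ℕ → ℝ, r = fun i =>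
    (hform χ q (rc2e i) (rc2e i)).im / n0 (rc2e i) := ⟨_, rfl⟩
  have hNr : ∀ i, i + 1 < q →
      hform χ q (rc2e i) (rc2e i) = Complex.I * (r i : ℂ) * H0 (rc2e i) (rc2e i) := by
    intro i hi
    have h2 := hskew (rc2e i) (rc2e i)
    have h3 : (hform χ q (rc2e i) (rc2e i)).re = 0 := by
      have h4 := congrArg Complex.re h2
      rw [Complex.neg_re, Complex.conj_re] at h4
      linarith
    rw [hself, hr]
    have h5 := (heW i hi).ne'
    apply Complex.ext
    · simp [h3]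
    · simp [h5]
  have hrr : ∀ i, i + 1 + 1 < q → r (i + 1) = r i := by
    intro i hi
    have e1 := hev (i + 1) hi (rc2e i)
    have e2 := hev i (by omega) (rc2e (i + 1))
    have e3 := hev0 (i + 1) hi (rc2e i)
    have e4 := hev0 i (by omega) (rc2e (i + 1))
    have e5 := hskew (rc2e i) (rc2e (i + 1))
    have e6 : H0 (rc2e (i + 1)) (rc2e i) = starRingEnd ℂ (H0 (rc2e i) (rc2e (i + 1))) := by
      rw [hH0]
      exact rc2H_herm χ q hO.toFinset _ _
    -- `H(e i, e (i+1)) = I r (i+1) H0 (e i, e (i+1))` and `H(e (i+1), e i) = I r i H0 (e (i+1), e i)`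
    have d1 : χ (i + 1) * χ (i + 1 + 1) - 1 ≠ 0 := sub_ne_zero.2 (hc (i + 1) hi)
    have d2 : χ i * χ (i + 1) - 1 ≠ 0 := sub_ne_zero.2 (hc i (by omega))
    have f1 : hform χ q (rc2e i) (rc2e (i + 1)) =
        Complex.I * (r (i + 1) : ℂ) * H0 (rc2e i) (rc2e (i + 1)) := by
      apply mul_left_cancel₀ d1
      rw [e1, hNr (i + 1) hi]
      linear_combination (-(Complex.I * (r (i + 1) : ℂ))) * e3
    have f2 : hform χ q (rc2e (i + 1)) (rc2e i) =
        Complex.I * (r i : ℂ) * H0 (rc2e (i + 1)) (rc2e i) := by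
      apply mul_left_cancel₀ d2
      rw [e2, hNr i (by omega)]
      linear_combination (-(Complex.I * (r i : ℂ))) * e4
    rw [f1, f2, e6, map_mul, map_mul, Complex.conj_I, Complex.conj_ofReal] at e5
    have h7 : H0 (rc2e i) (rc2e (i + 1)) ≠ 0 := by
      intro h8
      rw [h8, mul_zero, rc2_phi_succ] at e3
      have h9 := hχ (i + 1) (by omega)
      have h10 := hχ (i + 2) (by omega)
      have h11 : χ (i + 1) ≠ 0 := by
        intro h6
        rw [h6, norm_zero] at h9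
        exact zero_ne_one h9.1
      rw [hself] at e3
      rcases mul_eq_zero.1 e3.symm with h12 | h12
      · exact mul_ne_zero h11 (sub_ne_zero.2 h10.2.symm) h12
      · have h13 := heW (i + 1) hi
        have h14 : n0 (rc2e (i + 1)) = 0 := by exact_mod_cast h12
        exact h13.ne' h14
    have h8 : starRingEnd ℂ (H0 (rc2e i) (rc2e (i + 1))) ≠ 0 := by
      intro h9
      exact h7 ((map_eq_zero _).1 h9)
    have h9 : (Complex.I * starRingEnd ℂ (H0 (rc2e i) (rc2e (i + 1)))) * (r (i + 1) : ℂ) =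
        (Complex.I * starRingEnd ℂ (H0 (rc2e i) (rc2e (i + 1)))) * (r i : ℂ) := by
      linear_combination -e5
    have h10 := mul_left_cancel₀ (mul_ne_zero Complex.I_ne_zero h8) h9
    exact_mod_cast h10
  have hr0 : ∀ i, i + 1 < q → r i = r 0 := by
    intro i
    induction i with
    | zero => intro _; rfl
    | succ i ih =>
      intro hi
      rw [hrr i hi, ih (by omega)]
  have hrne : r 0 ≠ 0 := by
    intro h2
    have h3 := hNr 0 (by omega)
    rw [h2] at h3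
    apply hN 0 (by omega)
    rw [h3]
    simp
  -- the form is a multiple of the averaged form
  have hfin : ∀ x y : ℕ → ℂ, y 0 = 0 → (∀ j, q ≤ j → y j = 0) →
      hform χ q x y = Complex.I * (r 0 : ℂ) * H0 x y := by
    intro x y hy0 hyj
    rw [rc2_dec hy0 hyj, rc2_sum hsf x (fun i => y (i + 1)) rc2e, rc2_sum hsf0 x
      (fun i => y (i + 1)) rc2e, Finset.mul_sum]
    refine Finset.sum_congr rfl fun i hi => ?_
    have hi' : i + 1 < q := by
      have := Finset.mem_range.1 hi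
      omega
    have d2 : χ i * χ (i + 1) - 1 ≠ 0 := sub_ne_zero.2 (hc i hi')
    have f2 : hform χ q x (rc2e i) = Complex.I * (r 0 : ℂ) * H0 x (rc2e i) := by
      apply mul_left_cancel₀ d2
      rw [hev i hi', hNr i hi', hr0 i hi']
      linear_combination (-(Complex.I * (r 0 : ℂ))) * hev0 i hi' x
    rw [f2]
    ring
  have him : ∀ x : ℕ → ℂ, x 0 = 0 → (∀ j, q ≤ j → x j = 0) →
      (hform χ q x x).im = r 0 * n0 x := by
    intro x hx0 hxj
    rw [hfin x x hx0 hxj, hself]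
    simp
  rcases lt_or_gt_of_ne hrne with h2 | h2
  · refine ⟨-1, Or.inr rfl, fun x hx hx0 hxj => ?_⟩
    rw [him x hx0 hxj]
    have h3 := mul_pos (neg_pos.2 h2) (hpos x hx hx0 hxj)
    linarith
  · refine ⟨1, Or.inl rfl, fun x hx hx0 hxj => ?_⟩
    rw [him x hx0 hxj, one_mul]
    exact mul_pos h2 (hpos x hx hx0 hxj)

end Pool.Agent.PWM
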