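import Pool.Agent.PWM.StB

/-!
# RC3 : trigonometry: sign of the form gives the bound 2 pi

Proof (paper 2.1 (e)).  Write χ i = exp(I θ_i), 0 < θ_i < 2π, Θ_t = Σ_{i<t} θ_i.
The quantity is -4 I sin(Θ_t/2) sin(Θ_{t+1}/2)/ sin(θ_t/2).  ε = -1: by induction 0 < Θ_t/2 < π.
ε = 1: complex conjugation.
-/

namespace Pool.Agent.PWM

open Pool.Agent.PW

theorem rc3_angle (z : ℂ) (h1 : ‖z‖ = 1) (h2 : z ≠ 1) :
    ∃ θ : ℝ, 0 < θ ∧ θ < 2 * Real.pi ∧ z = Complex.exp (θ * Complex.I) := by
  have hz : z = Complex.exp (z.arg * Complex.I) := by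
    have := Complex.norm_mul_exp_arg_mul_I z
    rw [h1] at this
    simpa using this.symm
  have ha : z.arg ≠ 0 := by
    intro h
    rw [h] at hz
    apply h2
    rw [hz]
    simp
  have hp := Real.pi_pos
  have h3 := Complex.neg_pi_lt_arg z
  have h4 := Complex.arg_le_pi z
  rcases lt_or_gt_of_ne ha with h | h
  · refine ⟨z.arg + 2 * Real.pi, by linarith, by linarith, ?_⟩
    push_cast
    rw [add_mul, Complex.exp_add, Complex.exp_two_pi_mul_I, mul_one]
    exact hz
  · exact ⟨z.arg, h, by linarith, hz⟩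

theorem rc3_one_sub (a : ℝ) : 1 - Complex.exp (a * Complex.I) =
    -2 * Complex.I * (Real.sin (a / 2) : ℂ) * Complex.exp ((a / 2 : ℝ) * Complex.I) := by
  have h1 : Complex.exp (a * Complex.I) =
      Complex.exp ((a / 2 : ℝ) * Complex.I) * Complex.exp ((a / 2 : ℝ) * Complex.I) := by
    rw [← Complex.exp_add]
    congr 1
    push_cast
    ring
  rw [h1, Complex.exp_mul_I, ← Complex.ofReal_cos, ← Complex.ofReal_sin]
  have h2 : ((Real.cos (a / 2) : ℝ) : ℂ) ^ 2 + ((Real.sin (a / 2) : ℝ) : ℂ) ^ 2 = 1 := by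
    have := Real.cos_sq_add_sin_sq (a / 2)
    exact_mod_cast this
  have h3 : Complex.I ^ 2 = -1 := Complex.I_sq
  linear_combination (-1 : ℂ) * h2 + (2 * ((Real.sin (a / 2) : ℝ) : ℂ) ^ 2 -
    ((Real.sin (a / 2) : ℝ) : ℂ) ^ 2) * h3

theorem rc3_quant (a b : ℝ) (hb : Real.sin (b / 2) ≠ 0) :
    2 * (1 - starRingEnd ℂ (Complex.exp (a * Complex.I))) *
      (1 - Complex.exp ((a + b : ℝ) * Complex.I)) / (Complex.exp (b * Complex.I) - 1) =
    ((-4 * (Real.sin (a / 2) * Real.sin ((a + b) / 2) / Real.sin (b / 2)) : ℝ) : ℂ) * Complex.I := by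
  have hs : ((Real.sin (b / 2) : ℝ) : ℂ) ≠ 0 := by exact_mod_cast hb
  have h1 : starRingEnd ℂ (Complex.exp (a * Complex.I)) = Complex.exp ((-a : ℝ) * Complex.I) := by
    rw [← Complex.exp_conj, map_mul, Complex.conj_ofReal, Complex.conj_I]
    congr 1
    push_cast
    ring
  have h2 : Complex.exp (b * Complex.I) - 1 = -(1 - Complex.exp (b * Complex.I)) := by ring
  rw [h1, h2, rc3_one_sub, rc3_one_sub, rc3_one_sub]
  have h3 : Complex.exp ((-a / 2 : ℝ) * Complex.I) * Complex.exp (((a + b) / 2 : ℝ) * Complex.I) =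
      Complex.exp ((b / 2 : ℝ) * Complex.I) := by
    rw [← Complex.exp_add]
    congr 1
    push_cast
    ring
  have h4 : Real.sin (-a / 2) = -Real.sin (a / 2) := by rw [neg_div, Real.sin_neg]
  have h5 := Complex.exp_ne_zero ((b / 2 : ℝ) * Complex.I)
  rw [h4, div_eq_iff]
  · rw [← h3]
    push_cast
    have h6 : Complex.I ^ 2 = -1 := Complex.I_sq
    push_cast at hs
    field_simp
    ring_nf
  · refine neg_ne_zero.2 (mul_ne_zero (mul_ne_zero (mul_ne_zero (by norm_num) Complex.I_ne_zero) hs) h5)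

/-- The case of a negative sign. -/
theorem rc3_neg (q : ℕ) (χ : ℕ → ℂ) (hχ : ∀ i < q, ‖χ i‖ = 1 ∧ χ i ≠ 1)
    (h : ∀ t, 1 ≤ t → t < q → (2 * (1 - starRingEnd ℂ (∏ j ∈ Finset.range t, χ j)) *
      (1 - ∏ j ∈ Finset.range (t + 1), χ j) / (χ t - 1)).im < 0) :
    ∑ i ∈ Finset.range q, ‖1 - χ i‖ < 2 * Real.pi := by
  have hp := Real.pi_pos
  rcases Nat.eq_zero_or_pos q with rfl | hq
  · simp [hp]
  have hex : ∀ i : ℕ, ∃ θ : ℝ, i < q → 0 < θ ∧ θ < 2 * Real.pi ∧
      χ i = Complex.exp (θ * Complex.I) := by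
    intro i
    by_cases hi : i < q
    · obtain ⟨θ, h1⟩ := rc3_angle (χ i) (hχ i hi).1 (hχ i hi).2
      exact ⟨θ, fun _ => h1⟩
    · exact ⟨0, fun h => absurd h hi⟩
  choose θ hθ using hex
  have hprod : ∀ t, t ≤ q → ∏ j ∈ Finset.range t, χ j =
      Complex.exp (((∑ j ∈ Finset.range t, θ j : ℝ) : ℂ) * Complex.I) := by
    intro t
    induction t with
    | zero => intro _; simp
    | succ t ih =>
      intro ht
      rw [Finset.prod_range_succ, ih (by omega), (hθ t (by omega)).2.2, ← Complex.exp_add,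
        Finset.sum_range_succ]
      congr 1
      push_cast
      ring
  have hbd : ∀ t, 1 ≤ t → t ≤ q → 0 < ∑ j ∈ Finset.range t, θ j ∧
      ∑ j ∈ Finset.range t, θ j < 2 * Real.pi := by
    intro t ht
    induction t, ht using Nat.le_induction with
    | base =>
      intro h1
      simp only [Finset.sum_range_one]
      exact ⟨(hθ 0 h1).1, (hθ 0 h1).2.1⟩
    | succ t ht ih =>
      intro h1
      obtain ⟨i1, i2⟩ := ih (by omega)
      have hq1 := h t ht (by omega)
      obtain ⟨j1, j2, j3⟩ := hθ t (by omega)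
      have hst : 0 < Real.sin (θ t / 2) := Real.sin_pos_of_pos_of_lt_pi (by linarith) (by linarith)
      rw [hprod t (by omega), hprod (t + 1) h1, Finset.sum_range_succ, j3,
        rc3_quant _ _ hst.ne'] at hq1
      rw [Finset.sum_range_succ]
      set S := ∑ j ∈ Finset.range t, θ j
      have hsS : 0 < Real.sin (S / 2) := Real.sin_pos_of_pos_of_lt_pi (by linarith) (by linarith)
      refine ⟨by linarith, ?_⟩
      by_contra hcon
      rw [not_lt] at hcon
      have hs2 : Real.sin ((S + θ t) / 2) ≤ 0 := by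
        have h3 : 0 ≤ Real.sin ((S + θ t) / 2 - Real.pi) :=
          Real.sin_nonneg_of_nonneg_of_le_pi (by linarith) (by linarith)
        rw [Real.sin_sub_pi] at h3
        linarith
      have h4 : 0 ≤ -4 * (Real.sin (S / 2) * Real.sin ((S + θ t) / 2) / Real.sin (θ t / 2)) := by
        have : Real.sin (S / 2) * Real.sin ((S + θ t) / 2) / Real.sin (θ t / 2) ≤ 0 :=
          div_nonpos_of_nonpos_of_nonneg (mul_nonpos_of_nonneg_of_nonpos hsS.le hs2) hst.le
        linarith
      rw [Complex.mul_im, Complex.ofReal_re, Complex.I_im, Complex.ofReal_im, Complex.I_re,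
        mul_one, mul_zero, add_zero] at hq1
      linarith
  have hle : ∀ i ∈ Finset.range q, ‖1 - χ i‖ ≤ θ i := by
    intro i hi
    obtain ⟨j1, j2, j3⟩ := hθ i (Finset.mem_range.1 hi)
    have hst : 0 < Real.sin (θ i / 2) := Real.sin_pos_of_pos_of_lt_pi (by linarith) (by linarith)
    rw [j3, rc3_one_sub, norm_mul, norm_mul, norm_mul, Complex.norm_exp_ofReal_mul_I,
      Complex.norm_I, Complex.norm_real, Real.norm_eq_abs, abs_of_pos hst]
    have := Real.sin_le (x := θ i / 2) (by linarith)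
    simp
    linarith
  calc ∑ i ∈ Finset.range q, ‖1 - χ i‖ ≤ ∑ i ∈ Finset.range q, θ i := Finset.sum_le_sum hle
    _ < 2 * Real.pi := (hbd q hq le_rfl).2

theorem st_RC3 : St_RC3 := by
  intro q χ ε hε hχ h
  rcases hε with rfl | rfl
  · have := rc3_neg q (fun i => starRingEnd ℂ (χ i)) ?_ ?_
    · refine lt_of_le_of_lt (le_of_eq ?_) this
      refine Finset.sum_congr rfl fun i _ => ?_
      have h1 : (1 : ℂ) - starRingEnd ℂ (χ i) = starRingEnd ℂ (1 - χ i) := by
        rw [map_sub, map_one]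
      rw [h1, RCLike.norm_conj]
    · intro i hi
      refine ⟨by rw [RCLike.norm_conj]; exact (hχ i hi).1, fun h1 => (hχ i hi).2 ?_⟩
      have := congrArg (starRingEnd ℂ) h1
      simpa using this
    · intro t h1 h2
      have h3 := h t h1 h2
      have h4 : 2 * (1 - starRingEnd ℂ (∏ j ∈ Finset.range t, starRingEnd ℂ (χ j))) *
          (1 - ∏ j ∈ Finset.range (t + 1), starRingEnd ℂ (χ j)) / (starRingEnd ℂ (χ t) - 1) =
          starRingEnd ℂ (2 * (1 - starRingEnd ℂ (∏ j ∈ Finset.range t, χ j)) *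
            (1 - ∏ j ∈ Finset.range (t + 1), χ j) / (χ t - 1)) := by
        simp only [map_div₀, map_mul, map_sub, map_one, map_prod, map_ofNat]
      rw [h4, Complex.conj_im]
      linarith
  · refine rc3_neg q χ hχ fun t h1 h2 => ?_
    have h3 := h t h1 h2
    linarith

end Pool.Agent.PWM
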