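import Pool.Agent.PWM.StB

/-!
# RN : AM-GM and the norm of 1 - root of unity

Proof (paper 2.1 (f)).  Suppose the sum over `i < q` of `‖1 - σ (χ i)‖` is less than `q` for all embeddings `σ`.  Sum over `σ`: less than `q d`.
By `x ≥ 1 + log x` and `∏_σ ‖1 - σ (χ i)‖ = |Norm (1 - χ i)| ≥ 1` the sum is at least `q d`.
-/

namespace Pool.Agent.PWM

open Pool.Agent.PW

/-- The norm of a nonzero algebraic integer has absolute value at least one. -/
theorem rn_norm_ge {K : Type} [Field K] [NumberField K] (x : K) (hx : x ≠ 0)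
    (hi : IsIntegral ℤ x) : 1 ≤ ∏ σ : K →+* ℂ, ‖σ x‖ := by
  have h1 : IsIntegral ℤ (Algebra.norm ℚ x) := Algebra.isIntegral_norm ℚ hi
  obtain ⟨m, hm⟩ := IsIntegrallyClosed.isIntegral_iff.mp h1
  have hm0 : m ≠ 0 := by
    rintro rfl
    rw [map_zero] at hm
    exact (Algebra.norm_ne_zero_iff.mpr hx) hm.symm
  have h2 : ∏ σ : K →+* ℂ, ‖σ x‖ = ‖((m : ℤ) : ℂ)‖ := by
    have h3 := Algebra.norm_eq_prod_embeddings ℚ ℂ x
    rw [← norm_prod]
    rw [← Fintype.prod_equiv (RingHom.equivRatAlgHom K ℂ).symm (fun f : K →ₐ[ℚ] ℂ => f x)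
      (fun φ : K →+* ℂ => φ x) (fun f => rfl)]
    rw [← h3, ← hm]
    simp
  rw [h2, Complex.norm_intCast]
  exact_mod_cast Int.one_le_abs hm0

theorem rn_sum_ge {K : Type} [Field K] [NumberField K] (x : K) (hx : x ≠ 0)
    (hi : IsIntegral ℤ x) : (Fintype.card (K →+* ℂ) : ℝ) ≤ ∑ σ : K →+* ℂ, ‖σ x‖ := by
  have hpos : ∀ σ : K →+* ℂ, 0 < ‖σ x‖ := fun σ => norm_pos_iff.mpr ((map_ne_zero σ).mpr hx)
  have h1 : ∑ σ : K →+* ℂ, (Real.log ‖σ x‖ + 1) ≤ ∑ σ : K →+* ℂ, ‖σ x‖ := by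
    apply Finset.sum_le_sum
    intro σ _
    have := Real.log_le_sub_one_of_pos (hpos σ)
    linarith
  have h2 : 0 ≤ ∑ σ : K →+* ℂ, Real.log ‖σ x‖ := by
    rw [← Real.log_prod (fun σ _ => (hpos σ).ne')]
    exact Real.log_nonneg (rn_norm_ge x hx hi)
  rw [Finset.sum_add_distrib, Finset.sum_const, Finset.card_univ, nsmul_eq_mul, mul_one] at h1
  linarith

theorem st_RN : St_RN := by
  intro K _ _ q χ h
  by_contra hcon
  push Not at hcon
  have hint : ∀ i < q, IsIntegral ℤ (1 - χ i) := by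
    intro i hi
    obtain ⟨-, m, hm, he⟩ := h i hi
    refine IsIntegral.sub isIntegral_one ?_
    refine IsIntegral.of_pow hm ?_
    rw [he]; exact isIntegral_one
  have h1 : ∑ σ : K →+* ℂ, ∑ i ∈ Finset.range q, ‖1 - σ (χ i)‖ < ∑ _σ : K →+* ℂ, (q : ℝ) := by
    apply Finset.sum_lt_sum_of_nonempty
    · exact Finset.univ_nonempty
    · intro σ _; exact hcon σ
  rw [Finset.sum_comm] at h1
  have h2 : ∑ _i ∈ Finset.range q, (Fintype.card (K →+* ℂ) : ℝ)
      ≤ ∑ i ∈ Finset.range q, ∑ σ : K →+* ℂ, ‖1 - σ (χ i)‖ := by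
    apply Finset.sum_le_sum
    intro i hi
    have hi' := Finset.mem_range.mp hi
    have h3 := rn_sum_ge (1 - χ i) (sub_ne_zero.mpr (fun e => (h i hi').1 e.symm)) (hint i hi')
    simpa using h3
  rw [Finset.sum_const, Finset.card_range, nsmul_eq_mul] at h2
  rw [Finset.sum_const, Finset.card_univ, nsmul_eq_mul] at h1
  linarith [mul_comm (q : ℝ) (Fintype.card (K →+* ℂ) : ℝ)]

end Pool.Agent.PWM
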