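import Pool.Agent.PWM.StB

/-!
# Rot0 : Corollary 2.2 in genus zero (full twists of consecutive punctures, finite orbit, Lemma R)

Proof (paper 2.2).  Letters c_0..c_q of F 0 (q+1).  For i + 1 < q let τ_i be the automorphism which conjugates c_i and c_{i+1} by x = c_i c_{i+1} and fixes the other letters (mkAut; inverse: conjugation by x⁻¹; x is fixed); it fixes cseg 0 (q+1) 0 m for all m ≠ i+1, in particular
bdry 0 (q+1) = cseg 0 (q+1) 0 (q+1) (bdry_eq with g = 0: seg 0 _ 0 0 = 1), so τ_i ∈ MCG.  y_j = cseg 0 (q+1) 0 j; y_{j+1} = y_j c_j; τ_i y_{i+1} = y_{i+2} y_i⁻¹ y_{i+1} y_{i+2}⁻¹ y_i.  χ is multiplicative on all of F (l ≠ 0), χ(τ_i x) = χ x.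
κ = l (v y_q)/(1 - χ y_q).  C_φ(x) = l (v (φ x)) - (1 - χ x) κ satisfies C_φ(x y) = C_φ(x) + χ(x) C_φ(y); p_φ j = C_φ(y_j) for j ≤ q, 0 for j > q.
-/

namespace Pool.Agent.PWM

open Pool.Agent.PW

section Rot0

variable {n : ℕ}

/-- Conjugation of the letters `c i` and `c j` by `w`. -/
def rot0h (i j : Fin n) (w : F 0 n) : F 0 n →* F 0 n :=
  FreeGroup.lift fun x =>
    if x = Gen.c i ∨ x = Gen.c j then w * FreeGroup.of x * w⁻¹ else FreeGroup.of x

theorem rot0h_i (i j : Fin n) (w : F 0 n) : rot0h i j w (gc i) = w * gc i * w⁻¹ := by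
  simp [rot0h, gc]

theorem rot0h_j (i j : Fin n) (w : F 0 n) : rot0h i j w (gc j) = w * gc j * w⁻¹ := by
  simp [rot0h, gc]

theorem rot0h_o {i j m : Fin n} (w : F 0 n) (hi : m ≠ i) (hj : m ≠ j) :
    rot0h i j w (gc m) = gc m := by
  simp [rot0h, gc, hi, hj]

theorem rot0h_x (i j : Fin n) :
    rot0h i j (gc i * gc j) (gc i * gc j) = (gc i * gc j : F 0 n) := by
  rw [map_mul, rot0h_i, rot0h_j]
  group

theorem rot0h_x' (i j : Fin n) :
    rot0h i j (gc i * gc j)⁻¹ (gc i * gc j) = (gc i * gc j : F 0 n) := by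
  rw [map_mul, rot0h_i, rot0h_j]
  group

theorem rot0_comp1 (i j : Fin n) :
    (rot0h i j (gc i * gc j)⁻¹).comp (rot0h i j (gc i * gc j)) = MonoidHom.id _ := by
  apply hom_ext
  · intro m
    exact m.elim0
  · intro m
    exact m.elim0
  · intro m
    by_cases hi : m = i
    · subst hi
      rw [MonoidHom.comp_apply, MonoidHom.id_apply, rot0h_i, map_mul, map_mul, map_inv, rot0h_x',
        rot0h_i]
      group
    · by_cases hj : m = j
      · subst hj
        rw [MonoidHom.comp_apply, MonoidHom.id_apply, rot0h_j, map_mul, map_mul, map_inv,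
          rot0h_x', rot0h_j]
        group
      · rw [MonoidHom.comp_apply, MonoidHom.id_apply, rot0h_o _ hi hj, rot0h_o _ hi hj]

theorem rot0_comp2 (i j : Fin n) :
    (rot0h i j (gc i * gc j)).comp (rot0h i j (gc i * gc j)⁻¹) = MonoidHom.id _ := by
  have hxi : rot0h i j (gc i * gc j) (gc i * gc j)⁻¹ = (gc i * gc j : F 0 n)⁻¹ := by
    rw [map_inv, rot0h_x]
  apply hom_ext
  · intro m
    exact m.elim0
  · intro m
    exact m.elim0
  · intro m
    by_cases hi : m = i
    · subst hi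
      rw [MonoidHom.comp_apply, MonoidHom.id_apply, rot0h_i, inv_inv, map_mul, map_mul, hxi,
        rot0h_x, rot0h_i]
      group
    · by_cases hj : m = j
      · subst hj
        rw [MonoidHom.comp_apply, MonoidHom.id_apply, rot0h_j, inv_inv, map_mul, map_mul, hxi,
          rot0h_x, rot0h_j]
        group
      · rw [MonoidHom.comp_apply, MonoidHom.id_apply, rot0h_o _ hi hj, rot0h_o _ hi hj]

/-- The full twist of two letters. -/
def rot0t (i j : Fin n) : MulAut (F 0 n) :=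
  mkAut (rot0h i j (gc i * gc j)) (rot0h i j (gc i * gc j)⁻¹) (rot0_comp1 i j) (rot0_comp2 i j)

theorem rot0t_apply (i j : Fin n) (x : F 0 n) : rot0t i j x = rot0h i j (gc i * gc j) x := rfl

theorem rot0_succ (m : ℕ) : cseg 0 n 0 (m + 1) = cseg 0 n 0 m * pc 0 n m := by
  rw [cseg_add, cseg_one, Nat.zero_add]

theorem rot0_lo {i j : Fin n} (hij : (j : ℕ) = i + 1) {m : ℕ} (hm : m ≤ i) :
    rot0t i j (cseg 0 n 0 m) = cseg 0 n 0 m := by
  rw [rot0t_apply]
  apply cseg_congr (ψ := MonoidHom.id _)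
  intro t _ ht
  rw [MonoidHom.id_apply]
  apply rot0h_o
  · rintro rfl
    omega
  · rintro rfl
    omega

theorem rot0_two {i j : Fin n} (hij : (j : ℕ) = i + 1) :
    cseg 0 n 0 (i + 2) = cseg 0 n 0 i * (gc i * gc j) := by
  rw [show (i : ℕ) + 2 = (i + 1) + 1 from rfl, rot0_succ, rot0_succ, pc_fin, ← hij, pc_fin,
    mul_assoc]

theorem rot0_hi {i j : Fin n} (hij : (j : ℕ) = i + 1) {m : ℕ} (hm : (i : ℕ) + 2 ≤ m) :
    rot0t i j (cseg 0 n 0 m) = cseg 0 n 0 m := by
  obtain ⟨r, rfl⟩ := Nat.exists_eq_add_of_le hm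
  have h1 : cseg 0 n 0 (i + 2 + r) = cseg 0 n 0 i * (gc i * gc j) * cseg 0 n (i + 2) r := by
    rw [cseg_add, rot0_two hij, Nat.zero_add]
  have h2 : rot0t i j (cseg 0 n (i + 2) r) = cseg 0 n (i + 2) r := by
    rw [rot0t_apply]
    apply cseg_congr (ψ := MonoidHom.id _)
    intro t ht _
    rw [MonoidHom.id_apply]
    apply rot0h_o
    · rintro rfl
      omega
    · rintro rfl
      omega
  have h3 : rot0t i j (gc i * gc j) = gc i * gc j := by
    rw [rot0t_apply, rot0h_x]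
  rw [h1, map_mul, map_mul, h2, h3, rot0_lo hij le_rfl]

theorem rot0_mid {i j : Fin n} (hij : (j : ℕ) = i + 1) :
    rot0t i j (cseg 0 n 0 (i + 1)) = cseg 0 n 0 (i + 2) * (cseg 0 n 0 i)⁻¹ *
      cseg 0 n 0 (i + 1) * (cseg 0 n 0 (i + 2))⁻¹ * cseg 0 n 0 i := by
  rw [rot0_two hij, rot0_succ, pc_fin, map_mul, rot0_lo hij le_rfl, rot0t_apply, rot0h_i]
  group

theorem rot0_mem {i j : Fin n} (hij : (j : ℕ) = i + 1) : rot0t i j ∈ MCG 0 n := by
  apply mem_MCG_of_fix
  · rw [bdry_eq, seg_zero, one_mul]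
    apply rot0_hi hij
    have := j.isLt
    omega
  · intro m
    rw [rot0t_apply]
    by_cases hi : m = i
    · subst hi
      rw [rot0h_i]
      exact (isConj_iff.2 ⟨gc m * gc j, rfl⟩ : IsConj (gc m : F 0 n) _).symm
    · by_cases hj : m = j
      · subst hj
        rw [rot0h_j]
        exact (isConj_iff.2 ⟨gc i * gc m, rfl⟩ : IsConj (gc m : F 0 n) _).symm
      · rw [rot0h_o _ hi hj]

/-- Characters do not change. -/
theorem rot0_char {A : Type*} [CommGroup A] (f : F 0 n →* A) (i j : Fin n) (x : F 0 n) :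
    f (rot0t i j x) = f x := by
  have h : f.comp (rot0h i j (gc i * gc j)) = f := by
    apply hom_ext
    · intro m
      exact m.elim0
    · intro m
      exact m.elim0
    · intro m
      rw [MonoidHom.comp_apply]
      by_cases hi : m = i
      · subst hi
        rw [rot0h_i, map_mul, map_mul, map_inv, mul_inv_cancel_comm]
      · by_cases hj : m = j
        · subst hj
          rw [rot0h_j, map_mul, map_mul, map_inv, mul_inv_cancel_comm]
        · rw [rot0h_o _ hi hj]
  rw [rot0t_apply, ← MonoidHom.comp_apply, h]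

end Rot0

theorem st_Rot0 (hR : St_R) : St_Rot0 := by
  intro q k _ _ V _ _ S l χ hq hl he hj hy
  -- `χ` is a character
  obtain ⟨u₀, hu₀⟩ : ∃ u, l u ≠ 0 := by
    by_contra hc
    push Not at hc
    exact hl (LinearMap.ext hc)
  have hmul : ∀ x y, χ (x * y) = χ x * χ y := by
    intro x y
    have h1 := he (x * y) u₀
    rw [map_mul, Module.End.mul_apply, he, he, ← mul_assoc] at h1
    exact (mul_right_cancel₀ hu₀ h1).symm
  have hone : χ 1 = 1 := by
    have h1 := he 1 u₀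
    rw [map_one, Module.End.one_apply] at h1
    exact (mul_right_cancel₀ hu₀ (by rw [one_mul]; exact h1)).symm
  let χm : F 0 (q + 1) →* k := { toFun := χ, map_one' := hone, map_mul' := hmul }
  let χu : F 0 (q + 1) →* kˣ := χm.toHomUnits
  have hχu : ∀ x, ((χu x : kˣ) : k) = χ x := fun x => rfl
  have hne : ∀ x, χ x ≠ 0 := by
    intro x
    rw [← hχu]
    exact (χu x).ne_zero
  have hinv : ∀ x, χ x⁻¹ = (χ x)⁻¹ := by
    intro x
    apply eq_inv_of_mul_eq_one_left
    rw [← hmul, inv_mul_cancel, hone]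
  -- the cocycle
  set κ : k := l (S.v (cseg 0 (q + 1) 0 q)) / (1 - χ (cseg 0 (q + 1) 0 q)) with hκ
  have hy' : 1 - χ (cseg 0 (q + 1) 0 q) ≠ 0 := sub_ne_zero.2 (Ne.symm hy)
  let C : F 0 (q + 1) → k := fun x => l (S.v x) - (1 - χ x) * κ
  have hCmul : ∀ x y, C (x * y) = C x + χ x * C y := by
    intro x y
    show l (S.v (x * y)) - (1 - χ (x * y)) * κ =
      l (S.v x) - (1 - χ x) * κ + χ x * (l (S.v y) - (1 - χ y) * κ)
    rw [S.coc, map_add, he, hmul]
    ring
  have hC1 : C 1 = 0 := by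
    show l (S.v 1) - (1 - χ 1) * κ = 0
    rw [S.v_one, map_zero, hone]
    ring
  have hCq : C (cseg 0 (q + 1) 0 q) = 0 := by
    show l (S.v (cseg 0 (q + 1) 0 q)) - (1 - χ (cseg 0 (q + 1) 0 q)) * κ = 0
    rw [hκ]
    field_simp
    ring
  -- the orbit
  let P : MulAut (F 0 (q + 1)) → ℕ → k := fun φ j =>
    if j ≤ q then C (φ (cseg 0 (q + 1) 0 j)) else 0
  let O : Set (ℕ → k) := {p | ∃ φ ∈ MCG 0 (q + 1), (∀ x, χ (φ x) = χ x) ∧
    φ (cseg 0 (q + 1) 0 q) = cseg 0 (q + 1) 0 q ∧ p = P φ}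
  have hfin : O.Finite := by
    obtain ⟨T, hT, horb⟩ := S.orb
    let Φ : (F 0 (q + 1) → V) → ℕ → k := fun s j =>
      if j ≤ q then l (s (cseg 0 (q + 1) 0 j)) + (χ (cseg 0 (q + 1) 0 j) - 1) *
        ((l (S.v (cseg 0 (q + 1) 0 q)) - l (s (cseg 0 (q + 1) 0 q))) /
          (χ (cseg 0 (q + 1) 0 q) - 1)) - (1 - χ (cseg 0 (q + 1) 0 j)) * κ else 0
    apply (hT.image Φ).subset
    rintro p ⟨φ, hφ, hχφ, hφq, rfl⟩
    obtain ⟨s, hs, u, hu⟩ := horb φ hφ
    refine ⟨s, hs, ?_⟩
    have h1 : ∀ x, l (S.v (φ x)) = l (s x) + (χ x - 1) * l u := by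
      intro x
      rw [hu, map_add, map_sub, he, hχφ]
      ring
    have h2 : l u = (l (S.v (cseg 0 (q + 1) 0 q)) - l (s (cseg 0 (q + 1) 0 q))) /
        (χ (cseg 0 (q + 1) 0 q) - 1) := by
      have h3 := h1 (cseg 0 (q + 1) 0 q)
      rw [hφq] at h3
      rw [eq_div_iff (sub_ne_zero.2 hy), h3]
      ring
    funext j
    show (if j ≤ q then l (s (cseg 0 (q + 1) 0 j)) + (χ (cseg 0 (q + 1) 0 j) - 1) *
        ((l (S.v (cseg 0 (q + 1) 0 q)) - l (s (cseg 0 (q + 1) 0 q))) /
          (χ (cseg 0 (q + 1) 0 q) - 1)) - (1 - χ (cseg 0 (q + 1) 0 j)) * κ else 0) =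
      if j ≤ q then l (S.v (φ (cseg 0 (q + 1) 0 j))) -
        (1 - χ (φ (cseg 0 (q + 1) 0 j))) * κ else 0
    rw [← h2, h1, hχφ]
  have hprod : ∀ m, χ (cseg 0 (q + 1) 0 m) = ∏ i ∈ Finset.range m, χ (pc 0 (q + 1) i) := by
    intro m
    induction m with
    | zero => rw [cseg_zero, hone, Finset.prod_range_zero]
    | succ m ih => rw [rot0_succ, hmul, ih, Finset.prod_range_succ]
  obtain ⟨N, ζ, hN, hroot, -⟩ := S.roots
  have hroot' : ∀ x, χ x ^ N = 1 := by
    intro x
    have h1 : ∀ m : ℕ, l ((S.ρ x ^ m) u₀) = χ x ^ m * l u₀ := by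
      intro m
      induction m with
      | zero => rw [pow_zero, pow_zero, Module.End.one_apply, one_mul]
      | succ m ih => rw [pow_succ', pow_succ', Module.End.mul_apply, he, ih, mul_assoc]
    have h2 := h1 N
    rw [hroot, Module.End.one_apply] at h2
    exact (mul_right_cancel₀ hu₀ (by rw [one_mul]; exact h2)).symm
  have hzero := hR q (fun i => χ (pc 0 (q + 1) i)) O hq
    (fun i hi => by
      have h1 : pc 0 (q + 1) i = gc ⟨i, by omega⟩ := pc_fin (g := 0) (⟨i, by omega⟩ : Fin (q + 1))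
      refine ⟨?_, N, hN, hroot' _⟩
      show χ (pc 0 (q + 1) i) ≠ 1
      rw [h1]
      exact hj _ hi)
    (by rw [← hprod]; exact hy) hfin
    (by
      rintro p ⟨φ, hφ, hχφ, hφq, rfl⟩
      constructor
      · show (if 0 ≤ q then C (φ (cseg 0 (q + 1) 0 0)) else 0) = 0
        rw [if_pos (Nat.zero_le q), cseg_zero, map_one, hC1]
      · intro j hqj
        show (if j ≤ q then C (φ (cseg 0 (q + 1) 0 j)) else 0) = 0
        by_cases h : j ≤ q
        · have hjq : j = q := le_antisymm h hqj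
          rw [if_pos h, hjq, hφq, hCq]
        · rw [if_neg h])
    (by
      rintro p ⟨φ, hφ, hχφ, hφq, rfl⟩ i hi
      let i0 : Fin (q + 1) := ⟨i, by omega⟩
      let i1 : Fin (q + 1) := ⟨i + 1, by omega⟩
      have hij : (i1 : ℕ) = i0 + 1 := rfl
      refine ⟨φ * rot0t i0 i1, (MCG 0 (q + 1)).mul_mem hφ (rot0_mem hij), ?_, ?_, ?_⟩
      · intro x
        rw [MulAut.mul_apply, hχφ]
        have h1 := rot0_char χu i0 i1 x
        rw [← hχu, h1, hχu]
      · rw [MulAut.mul_apply, rot0_hi hij (by show i + 2 ≤ q; omega), hφq]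
      · funext j
        unfold twist
        by_cases hji : j = i + 1
        · subst hji
          rw [Function.update_self]
          show _ = if i + 1 ≤ q then C ((φ * rot0t i0 i1) (cseg 0 (q + 1) 0 (i + 1))) else 0
          have e1 : P φ (i + 1) = C (φ (cseg 0 (q + 1) 0 (i + 1))) := if_pos (by omega)
          have e0 : P φ i = C (φ (cseg 0 (q + 1) 0 i)) := if_pos (by omega)
          have e2 : P φ (i + 2) = C (φ (cseg 0 (q + 1) 0 (i + 2))) := if_pos (by omega)
          rw [if_pos (by omega), e0, e1, e2, MulAut.mul_apply]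
          have h1 : rot0t i0 i1 (cseg 0 (q + 1) 0 (i + 1)) = cseg 0 (q + 1) 0 (i + 2) *
              (cseg 0 (q + 1) 0 i)⁻¹ * cseg 0 (q + 1) 0 (i + 1) * (cseg 0 (q + 1) 0 (i + 2))⁻¹ *
              cseg 0 (q + 1) 0 i := rot0_mid hij
          have hCinv : ∀ x, C x⁻¹ = -((χ x)⁻¹ * C x) := by
            intro x
            have h2 := hCmul x⁻¹ x
            rw [inv_mul_cancel, hC1, hinv] at h2
            linear_combination -h2
          rw [h1]
          simp only [map_mul, map_inv, hCmul, hCinv, hmul, hinv, hχφ]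
          have k1 : χ (cseg 0 (q + 1) 0 (i + 1)) = χ (cseg 0 (q + 1) 0 i) * χ (pc 0 (q + 1) i) := by
            rw [rot0_succ, hmul]
          have k2 : χ (cseg 0 (q + 1) 0 (i + 2)) =
              χ (cseg 0 (q + 1) 0 i) * χ (pc 0 (q + 1) i) * χ (pc 0 (q + 1) (i + 1)) := by
            rw [show i + 2 = (i + 1) + 1 from rfl, rot0_succ, hmul, k1]
          rw [k1, k2]
          have z0 := hne (cseg 0 (q + 1) 0 i)
          have z1 := hne (pc 0 (q + 1) i)
          have z2 := hne (pc 0 (q + 1) (i + 1))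
          field_simp
          ring
        · rw [Function.update_of_ne hji]
          show (if j ≤ q then C (φ (cseg 0 (q + 1) 0 j)) else 0) =
            if j ≤ q then C ((φ * rot0t i0 i1) (cseg 0 (q + 1) 0 j)) else 0
          have h1 : rot0t i0 i1 (cseg 0 (q + 1) 0 j) = cseg 0 (q + 1) 0 j := by
            rcases Nat.lt_or_ge i j with h | h
            · apply rot0_hi hij
              show i + 2 ≤ j
              omega
            · exact rot0_lo hij h
          rw [MulAut.mul_apply, h1])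
  have hid := hzero (P 1) ⟨1, (MCG 0 (q + 1)).one_mem, fun x => rfl, rfl, rfl⟩
  have hCy : ∀ j, j ≤ q → C (cseg 0 (q + 1) 0 j) = 0 := by
    intro j hjq
    have h1 := congrFun hid j
    have h2 : P 1 j = C (cseg 0 (q + 1) 0 j) := if_pos hjq
    rw [h2] at h1
    exact h1
  refine ⟨κ, fun j hjq => ?_⟩
  have h1 := hCy (j + 1) hjq
  rw [rot0_succ, hCmul, hCy j (le_of_lt hjq), zero_add, pc_fin] at h1
  rcases mul_eq_zero.1 h1 with h2 | h2
  · exact absurd h2 (hne _)
  · exact sub_eq_zero.1 h2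

end Pool.Agent.PWM
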