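import Pool.Agent.PWM.StB

/-!
# RotC : Corollary 2.2 from genus zero by pull back
-/

namespace Pool.Agent.PWM

open Pool.Agent.PW

variable {g n : ℕ} {k : Type} [Field k] {V : Type} [AddCommGroup V] [Module k V]

/-- The elements for which `l` is an eigenfunctional. -/
def RotC_sub (S : Sys g n k V) (l : V →ₗ[k] k) : Subgroup (F g n) where
  carrier := {x | ∃ c : k, c ≠ 0 ∧ ∀ u, l (S.ρ x u) = c * l u}
  one_mem' := ⟨1, one_ne_zero, fun u => by rw [map_one, Module.End.one_apply, one_mul]⟩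
  mul_mem' := by
    rintro x y ⟨c, hc, h1⟩ ⟨d, hd, h2⟩
    refine ⟨c * d, mul_ne_zero hc hd, fun u => ?_⟩
    rw [map_mul, Module.End.mul_apply, h1, h2, mul_assoc]
  inv_mem' := by
    rintro x ⟨c, hc, h1⟩
    refine ⟨c⁻¹, inv_ne_zero hc, fun u => ?_⟩
    have h2 := h1 (S.ρ x⁻¹ u)
    rw [S.ρ_mul_inv] at h2
    rw [h2, ← mul_assoc, inv_mul_cancel₀ hc, one_mul]

theorem RotC_cseg {q : ℕ} (hq : q ≤ g) (ι : F 0 (q + 1) →* F g n)
    (h : ∀ (j : Fin (q + 1)) (i : Fin g), (j : ℕ) < q → (i : ℕ) = j → ι (gc j) = dl i) :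
    ∀ m, m ≤ q → ι (cseg 0 (q + 1) 0 m) = seg g n 0 m := by
  intro m
  induction m with
  | zero =>
    intro _
    rw [cseg_zero, seg_zero, map_one]
  | succ m ih =>
    intro hm
    rw [cseg_add, seg_add, map_mul, ih (by omega), cseg_one, seg_one, Nat.zero_add]
    congr 1
    have e1 : pc 0 (q + 1) m = gc (⟨m, by omega⟩ : Fin (q + 1)) :=
      pc_fin (g := 0) (⟨m, by omega⟩ : Fin (q + 1))
    have e2 : hd g n m = dl (⟨m, by omega⟩ : Fin g) := hd_fin (n := n) (⟨m, by omega⟩ : Fin g)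
    rw [e1, e2]
    exact h _ _ (by show m < q; omega) rfl

theorem st_Rot (h0 : St_Rot0) (hG : St_GrpR) : St_Rot := by
  intro g n k _ _ V _ _ S l χ q h7 hq hl hd hs
  obtain ⟨G, hG1, hG2⟩ := hG (g := g) (n := n) hq
  have hseg : ∀ s t, seg g n s t ∈ DD g n := fun s t => seg_mem' (fun i _ _ => dl_mem i)
  have hD : ∀ d ∈ DD g n, d ∈ RotC_sub S l := fun d hd => ⟨χ d, hl.ne_zero hd, hl.eig d hd⟩
  have hrest : seg g n q (g - q) * cseg g n 0 n ∈ RotC_sub S l := by
    have e2 : bdry g n = seg g n 0 q * (seg g n q (g - q) * cseg g n 0 n) := by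
      rw [bdry_eq, ← mul_assoc]
      congr 1
      have h : g = q + (g - q) := by omega
      have h' : seg g n 0 g = seg g n 0 (q + (g - q)) := by rw [← h]
      rw [h', seg_add, Nat.zero_add]
    have e3 : seg g n q (g - q) * cseg g n 0 n = (seg g n 0 q)⁻¹ * bdry g n := by
      rw [e2]
      group
    rw [e3]
    apply (RotC_sub S l).mul_mem ((RotC_sub S l).inv_mem (hD _ (hseg 0 q)))
    exact ⟨1, one_ne_zero, fun u => by rw [S.bd, Module.End.one_apply, one_mul]⟩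
  have htop : (RotC_sub S l).comap G.ι = ⊤ := by
    apply eq_top_of_gens
    · exact fun i => i.elim0
    · exact fun i => i.elim0
    · intro j
      show G.ι (gc j) ∈ RotC_sub S l
      by_cases hj : (j : ℕ) < q
      · rw [hG1 j ⟨j, by omega⟩ hj rfl]
        exact hD _ (dl_mem _)
      · have : j = Fin.last q := Fin.ext (by
          show (j : ℕ) = q
          omega)
        rw [this, hG2]
        exact hrest
  have hall : ∀ x, ∃ c : k, c ≠ 0 ∧ ∀ u, l (S.ρ (G.ι x) u) = c * l u := by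
    intro x
    have : x ∈ (RotC_sub S l).comap G.ι := by
      rw [htop]
      exact Subgroup.mem_top x
    exact this
  choose χ' hχ0 hχ' using hall
  obtain ⟨u0, hu0⟩ := hl.ex
  have hval : ∀ x, G.ι x ∈ DD g n → χ' x = χ (G.ι x) := by
    intro x hx
    have h1 := hχ' x u0
    rw [hl.eig _ hx] at h1
    exact (mul_right_cancel₀ hu0 h1).symm
  have hgc : ∀ (j : Fin (q + 1)) (hj : (j : ℕ) < q), G.ι (gc j) = dl ⟨j, by omega⟩ :=
    fun j hj => hG1 j _ hj rfl
  obtain ⟨κ, hκ⟩ := h0 (S.pull G) l χ' h7 hl.ne (fun x u => hχ' x u) (by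
    intro j hj
    rw [hval _ (by rw [hgc j hj]; exact dl_mem _), hgc j hj]
    exact hd _ hj) (by
    rw [hval _ (by rw [RotC_cseg hq G.ι hG1 q le_rfl]; exact hseg 0 q),
      RotC_cseg hq G.ι hG1 q le_rfl]
    exact hs)
  refine ⟨κ, fun i hi => ?_⟩
  have e : G.ι (gc ⟨i, by omega⟩) = dl i := hG1 _ i hi rfl
  have h1 := hκ ⟨i, by omega⟩ hi
  unfold Fx at h1 ⊢
  rw [S.pull_v, e, hval _ (by rw [e]; exact dl_mem _), e] at h1
  exact h1

end Pool.Agent.PWM
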