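import Pool.Agent.PWM.StB

/-!
# Sep : eigenfunctionals of finitely many commuting operators of finite order separate points

Proof.  For every finite set `s` of operators from `ρ '' H` there is `e : Module.End k V` which commutes with every
`ρ x`, `x ∈ H`, with `e u ≠ 0` and `e * T = c • e` for all `T ∈ s`.  Induction on `s`, with the projections
`p i = N⁻¹ • ∑ j ∈ range N, (ζ⁻¹ ^ i • T) ^ j`.  At the end choose a functional which does not vanish at `e u`.
-/

namespace Pool.Agent.PWM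

open Pool.Agent.PW

section

variable {k : Type} [Field k] {V : Type} [AddCommGroup V] [Module k V]

/-- the (unnormalised) projection -/
noncomputable def sep_p (N : ℕ) (ζ : k) (T : Module.End k V) (i : ℕ) : Module.End k V :=
  ∑ j ∈ Finset.range N, (ζ⁻¹ ^ i • T) ^ j

theorem sep_p_mul (N : ℕ) (ζ : k) (T : Module.End k V) (i : ℕ) (hζ : ζ ^ N = 1) (h0 : ζ ≠ 0)
    (hT : T ^ N = 1) : sep_p N ζ T i * T = ζ ^ i • sep_p N ζ T i := by
  set X : Module.End k V := ζ⁻¹ ^ i • T with hX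
  have h1 : X ^ N = 1 := by
    rw [hX, smul_pow, hT, ← pow_mul, mul_comm i N, pow_mul, inv_pow, hζ, inv_one, one_pow, one_smul]
  have h2 : sep_p N ζ T i * (X - 1) = 0 := by
    unfold sep_p
    rw [geom_sum_mul, h1, sub_self]
  have h3 : sep_p N ζ T i * X = sep_p N ζ T i := by
    rw [mul_sub, mul_one, sub_eq_zero] at h2
    exact h2
  have h4 : T = ζ ^ i • X := by
    rw [hX, smul_smul, ← mul_pow, mul_inv_cancel₀ h0, one_pow, one_smul]
  calc sep_p N ζ T i * T = sep_p N ζ T i * (ζ ^ i • X) := by rw [← h4]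
    _ = ζ ^ i • (sep_p N ζ T i * X) := by rw [mul_smul_comm]
    _ = ζ ^ i • sep_p N ζ T i := by rw [h3]

theorem sep_sum (N : ℕ) (hN : 0 < N) (ζ : k) (T : Module.End k V) (hζ : IsPrimitiveRoot ζ N) :
    ∑ i ∈ Finset.range N, sep_p N ζ T i = (N : k) • (1 : Module.End k V) := by
  unfold sep_p
  rw [Finset.sum_comm]
  have h0 : ζ ≠ 0 := hζ.ne_zero hN.ne'
  have h1 : ∀ j ∈ Finset.range N, ∑ i ∈ Finset.range N, (ζ⁻¹ ^ i • T) ^ j =
      (∑ i ∈ Finset.range N, (ζ⁻¹ ^ j) ^ i) • T ^ j := by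
    intro j _
    rw [Finset.sum_smul]
    refine Finset.sum_congr rfl fun i _ => ?_
    rw [smul_pow, ← pow_mul, ← pow_mul, mul_comm i j]
  rw [Finset.sum_congr rfl h1]
  rw [Finset.sum_eq_single_of_mem 0 (Finset.mem_range.2 hN)]
  · simp
  · intro j hj hj0
    rw [Finset.mem_range] at hj
    have h2 : (ζ⁻¹ ^ j) ≠ 1 := by
      intro h
      rw [inv_pow, inv_eq_one] at h
      exact hζ.pow_ne_one_of_pos_of_lt hj0 hj h
    have h3 : (ζ⁻¹ ^ j) ^ N = 1 := by
      rw [← pow_mul, mul_comm, pow_mul, inv_pow, hζ.pow_eq_one, inv_one, one_pow]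
    have h4 := geom_sum_mul (ζ⁻¹ ^ j) N
    rw [h3, sub_self] at h4
    rcases mul_eq_zero.1 h4 with h5 | h5
    · rw [h5, zero_smul]
    · exact absurd (sub_eq_zero.1 h5) h2

theorem sep_comm (N : ℕ) (ζ : k) (T A : Module.End k V) (i : ℕ) (h : T * A = A * T) :
    sep_p N ζ T i * A = A * sep_p N ζ T i := by
  have h1 : Commute (ζ⁻¹ ^ i • T) A := by
    show (ζ⁻¹ ^ i • T) * A = A * (ζ⁻¹ ^ i • T)
    rw [smul_mul_assoc, mul_smul_comm, h]
  unfold sep_p
  rw [Finset.sum_mul, Finset.mul_sum]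
  exact Finset.sum_congr rfl fun j _ => (h1.pow_left j).eq

end

theorem st_Sep : St_Sep := by
  intro G _ k _ _ V _ _ ρ H hfin hcomm hroot u hu
  obtain ⟨N, ζ, hN, hpow, hζ⟩ := hroot
  have h0 : ζ ≠ 0 := hζ.ne_zero hN.ne'
  have claim : ∀ s : Finset (Module.End k V), (∀ T ∈ s, ∃ x ∈ H, T = ρ x) →
      ∃ e : Module.End k V, (∀ x ∈ H, e * ρ x = ρ x * e) ∧ e u ≠ 0 ∧
        ∀ T ∈ s, ∃ c : k, e * T = c • e := by
    classical
    intro s
    induction s using Finset.induction_on with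
    | empty =>
      intro _
      exact ⟨1, fun x _ => by rw [one_mul, mul_one], by simpa using hu, by simp⟩
    | insert T s _ ih =>
      intro hs
      obtain ⟨e, he1, he2, he3⟩ := ih fun T' hT' => hs T' (Finset.mem_insert_of_mem hT')
      obtain ⟨y, hy, rfl⟩ := hs T (Finset.mem_insert_self _ _)
      have hex : ∃ i ∈ Finset.range N, sep_p N ζ (ρ y) i (e u) ≠ 0 := by
        by_contra hcon
        push Not at hcon
        have h1 : (∑ i ∈ Finset.range N, sep_p N ζ (ρ y) i) (e u) = 0 := by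
          rw [LinearMap.sum_apply]
          exact Finset.sum_eq_zero hcon
        rw [sep_sum N hN ζ (ρ y) hζ] at h1
        have h2 : (N : k) • (e u) = 0 := by simpa using h1
        rcases smul_eq_zero.1 h2 with h3 | h3
        · exact hN.ne' (Nat.cast_eq_zero.1 h3)
        · exact he2 h3
      obtain ⟨i, -, hi⟩ := hex
      refine ⟨sep_p N ζ (ρ y) i * e, fun x hx => ?_, hi, fun T' hT' => ?_⟩
      · rw [mul_assoc, he1 x hx, ← mul_assoc, sep_comm N ζ (ρ y) (ρ x) i (hcomm y hy x hx),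
          mul_assoc]
      · rcases Finset.mem_insert.1 hT' with rfl | hT'
        · refine ⟨ζ ^ i, ?_⟩
          rw [mul_assoc, he1 y hy, ← mul_assoc,
            sep_p_mul N ζ (ρ y) i hζ.pow_eq_one h0 (hpow y), smul_mul_assoc]
        · obtain ⟨c, hc⟩ := he3 T' hT'
          exact ⟨c, by rw [mul_assoc, hc, mul_smul_comm]⟩
  have hfin' : (ρ '' (H : Set G)).Finite := hfin.subset (Set.image_subset_range _ _)
  obtain ⟨e, -, he2, he3⟩ := claim hfin'.toFinset (by
    intro T hT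
    rw [Set.Finite.mem_toFinset] at hT
    obtain ⟨x, hx, rfl⟩ := hT
    exact ⟨x, hx, rfl⟩)
  have hl : ∃ l0 : Module.Dual k V, l0 (e u) ≠ 0 := by
    by_contra hcon
    push Not at hcon
    exact he2 ((Module.forall_dual_apply_eq_zero_iff k (e u)).1 hcon)
  obtain ⟨l0, hl0⟩ := hl
  have hν : ∀ x : G, ∃ c : k, x ∈ H → e * ρ x = c • e := by
    intro x
    by_cases hx : x ∈ H
    · obtain ⟨c, hc⟩ := he3 (ρ x) (by
        rw [Set.Finite.mem_toFinset]
        exact ⟨x, hx, rfl⟩)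
      exact ⟨c, fun _ => hc⟩
    · exact ⟨0, fun h => absurd h hx⟩
  choose ν hν' using hν
  refine ⟨l0 ∘ₗ e, ν, fun x hx w => ?_, hl0⟩
  have h1 := congrArg (fun f : Module.End k V => l0 (f w)) (hν' x hx)
  simpa using h1

end Pool.Agent.PWM
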