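import Pool.Agent.PWM.StB

/-!
# Star : (STAR) (paper, 9.2)
-/

namespace Pool.Agent.PWM

open Pool.Agent.PW

open scoped commutatorElement

variable {g n : ℕ}

theorem Star_comm_le {G : Type*} [Group G] (A : Subgroup G) : ⁅A, A⁆ ≤ A :=
  Subgroup.commutator_le.mpr (fun _ hu _ hv =>
    A.mul_mem (A.mul_mem (A.mul_mem hu hv) (A.inv_mem hu)) (A.inv_mem hv))

theorem Star_norm {G : Type*} [Group G] {A : Subgroup G} {a x : G} (ha : a ∈ A)
    (hx : x ∈ ⁅A, A⁆) : a * x * a⁻¹ ∈ ⁅A, A⁆ := by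
  have h3 : a * x * a⁻¹ = ⁅a, x⁆ * x := by
    rw [commutatorElement_def]
    group
  rw [h3]
  exact Subgroup.mul_mem _ (Subgroup.commutator_mem_commutator ha (Star_comm_le A hx)) hx

/-- Modulo the commutator subgroup every element is a product. -/
theorem Star_split {G : Type*} [Group G] {A B : Subgroup G} (h : A ⊔ B = ⊤) (x : G) :
    ∃ w ∈ A, ∃ f ∈ B, ∃ e ∈ commutator G, x = w * f * e := by
  have h1 : (Abelianization.of x : Abelianization G) ∈
      A.map Abelianization.of ⊔ B.map Abelianization.of := by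
    rw [← Subgroup.map_sup, h]
    exact ⟨x, Subgroup.mem_top x, rfl⟩
  rw [Subgroup.mem_sup] at h1
  obtain ⟨_, ⟨w, hw, rfl⟩, _, ⟨f, hf, rfl⟩, h2⟩ := h1
  refine ⟨w, hw, f, hf, (w * f)⁻¹ * x, ?_, by group⟩
  rw [← Abelianization.ker_of, MonoidHom.mem_ker, map_mul, map_inv, map_mul, h2, inv_mul_cancel]

theorem st_Star (hA : St_A) (hG : St_GFl) : St_Star := by
  intro g n k _ _ V _ _ S l χ hg hl
  by_cases h : ∀ w ∈ Fge g n 4, ∀ d ∈ DB g n 0 4, χ (w * d * w⁻¹) = 1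
  · have htop : Fge g n 4 ⊔ Bk g n 0 4 = ⊤ := by
      rw [← Flt_eq, sup_comm, Flt_sup_Fge]
    have hall : ∀ x, ∀ d ∈ DB g n 0 4, χ (x * d * x⁻¹) = 1 := by
      intro x d hd
      obtain ⟨w, hw, f, hf, e, he, rfl⟩ := Star_split htop x
      have hdD : d ∈ DD g n := comm_le _ hd
      have e1 : w * f * e * d * (w * f * e)⁻¹ = (w * f) * (e * d * e⁻¹) * (w * f)⁻¹ := by group
      have e2 : (w * f) * d * (w * f)⁻¹ = w * (f * d * f⁻¹) * w⁻¹ := by group
      rw [e1, (hl.cj (w * f)).cj_D he hdD, e2]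
      exact h w hw _ (Star_norm hf hd)
    have hle : DB g n 0 2 ≤ DB g n 0 4 := by
      have : Bk g n 0 2 ≤ Bk g n 0 4 := by
        rw [← Flt_eq, ← Flt_eq]
        exact Flt_mono (by norm_num)
      exact Subgroup.commutator_mono this this
    obtain ⟨⟨u, hu⟩, -⟩ := hG S l χ (by omega) hl (fun x d hd => hall x d (hle hd))
    refine ⟨l u, fun d hd => ?_⟩
    have h1 := hu d (Fge_anti (by norm_num) (Star_comm_le _ hd))
    rw [hl.eig d (comm_le _ hd)] at h1
    unfold Fx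
    rw [h1]
    ring
  · push Not at h
    obtain ⟨w, hw, d0, hd0, h0⟩ := h
    obtain ⟨κ, -, hκ⟩ := hA S _ _ hg (hl.cj w) ⟨d0, hd0, h0⟩
    refine ⟨κ + l (S.v w), fun e he => ?_⟩
    have he' : w⁻¹ * e * w ∈ DG g n 4 := by
      have := Star_norm (A := Fge g n 4) ((Fge g n 4).inv_mem hw) he
      rwa [inv_inv] at this
    have h5 := (hl.transport w (comm_le _ he') (κ + l (S.v w))).mpr (by
      rw [add_sub_cancel_right]
      exact hκ _ he')
    have e2 : w * (w⁻¹ * e * w) * w⁻¹ = e := by group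
    rwa [e2] at h5

end Pool.Agent.PWM
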