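import Pool.Agent.PWM.LpDef
import Pool.Agent.PWM.StA

/-!
# A nontrivial homomorphism becomes nontrivial on both handles (paper, G5)

`ν` is trivial on commutators.  If `ν` is nontrivial on both handles take `1`.  `L = Lp 0 1`: `ν (L (gb 1)) = ν (gb 1) ν (ga 0)`,
`ν (L (gb 0)) = ν (gb 0) ν (ga 1)`, `ν (L (ga i)) = ν (ga i)`.  If `ν` is nontrivial on the handle 0 only: `L` if `ν (ga 0) ≠ 1`, otherwise
`rr 0 * L`.  If `ν` is nontrivial on the handle 1 only: `L` if `ν (ga 1) ≠ 1`, otherwise `rr 1 * L`.
-/

namespace Pool.Agent.PWM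

open Pool.Agent.PW

private theorem two_ne : (1 : Fin 2) ≠ 0 := by decide

private theorem two_ne' : (0 : Fin 2) ≠ 1 := by decide

private theorem two_lt : ((0 : Fin 2) : ℕ) < ((1 : Fin 2) : ℕ) := by decide

private theorem two_succ : ((1 : Fin 2) : ℕ) = ((0 : Fin 2) : ℕ) + 1 := by decide

private theorem two_L_mem : Lp (n := 0) (0 : Fin 2) 1 two_lt ∈ MCGd 2 := Lp_bdry two_lt

private theorem two_rr_mem (i : Fin 2) : rr (n := 0) i ∈ MCGd 2 := rr_bdry i

theorem st_Two : St_Two := by
  intro A _ ν hν
  by_cases h0 : ν (ga 0) ≠ 1 ∨ ν (gb 0) ≠ 1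
  · by_cases h1 : ν (ga 1) ≠ 1 ∨ ν (gb 1) ≠ 1
    · exact ⟨1, Subgroup.one_mem _, by simpa using h0, by simpa using h1⟩
    · push Not at h1
      obtain ⟨ha1, hb1⟩ := h1
      by_cases ha0 : ν (ga 0) = 1
      · have hb0 : ν (gb 0) ≠ 1 := by
          rcases h0 with h | h
          · exact absurd ha0 h
          · exact h
        refine ⟨rr 0 * Lp 0 1 two_lt, Subgroup.mul_mem _ (two_rr_mem 0) two_L_mem, Or.inl ?_, Or.inr ?_⟩
        · rw [MulAut.mul_apply, Lp_az, rr_a]
          simpa [ha0] using hb0
        · rw [MulAut.mul_apply, Lp_bo two_lt two_succ, map_mul, rr_b' two_ne]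
          unfold gg
          simp only [map_mul, map_inv, rr_a, rr_b]
          simpa [ha0, hb1] using hb0
      · refine ⟨Lp 0 1 two_lt, two_L_mem, Or.inl ?_, Or.inr ?_⟩
        · rw [Lp_az]
          exact ha0
        · rw [Lp_bo two_lt two_succ]
          unfold gg
          simp only [map_mul, map_inv, hb1, one_mul]
          rw [mul_comm (ν (gb 0)), mul_assoc, mul_inv_cancel, mul_one]
          exact ha0
  · push Not at h0
    obtain ⟨ha0, hb0⟩ := h0
    by_cases ha1 : ν (ga 1) = 1
    · have hb1 : ν (gb 1) ≠ 1 := by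
        intro hb1
        apply hν
        apply FreeGroup.ext_hom
        intro x
        cases x with
        | a i =>
          fin_cases i
          · exact ha0
          · exact ha1
        | b i =>
          fin_cases i
          · exact hb0
          · exact hb1
        | c j => exact j.elim0
      refine ⟨rr 1 * Lp 0 1 two_lt, Subgroup.mul_mem _ (two_rr_mem 1) two_L_mem, Or.inr ?_, Or.inl ?_⟩
      · rw [MulAut.mul_apply, Lp_bz two_lt two_succ]
        unfold gg
        simp only [map_mul, map_inv, rr_a, rr_a' two_ne', rr_b' two_ne']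
        simpa [ha0, ha1, hb0] using hb1
      · rw [MulAut.mul_apply, Lp_ao two_lt two_succ]
        unfold gg
        simp only [map_mul, map_inv, rr_a, rr_a' two_ne', rr_b' two_ne']
        simpa [ha0, ha1, hb0] using hb1
    · refine ⟨Lp 0 1 two_lt, two_L_mem, Or.inr ?_, Or.inl ?_⟩
      · rw [Lp_bz two_lt two_succ]
        unfold gg
        simpa [ha0, hb0] using ha1
      · rw [Lp_ao two_lt two_succ]
        unfold gg
        simpa [ha0, hb0] using ha1

end Pool.Agent.PWM
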