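import Pool.Agent.PWM.StB

/-!
# Van : from fixed points of all eigenfunctionals to v = 0 on the kernel

Proof (paper 1.6).  Let ρ x = 1 and suppose v x ≠ 0.  `hS S.ρ (DD g n)` (S.fin, S.comm, S.roots) gives l, ν with l (ρ d w) = ν d * l w (d ∈ D) and l (v x) ≠ 0; so h : Eig S l ν.
Let κ be as in the hypothesis for (l, ν).  Case 1: ν d ≠ 1 for some d ∈ D.  c = cm d x ∈ D, ρ c = 1 (ρ x = 1), so ν c = 1 (`Eig.of_ρ`, `Eig.one`) and l (v c) = 0 by Fx.  d x = c (x d):
l (v (d x)) = l (v d) + ν d l (v x);  l (v (c (x d))) = 0 + l (v (x d)) = l (v x) + l (ρ x (v d)) = l (v x) + l (v d).  So (ν d - 1) l (v x) = 0.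
Case 2: ν d = 1 for all d ∈ D: Fx gives l (v d) = 0 on D.  Let M > 0 be a common exponent: ρ (y^M) = 1, v (y^M) = 0 for all letters y (`S.kill 1` for ga, gb; the hypothesis for gc; product over the finitely
many letters; if ρ(z)=1, v z=0 then the same for powers of z).  The set of y with `∃ d ∈ D, ∃ z, y ^ M = d * z ∧ ρ z = 1 ∧ v z = 0` contains the letters, and is closed under products and inverses
(D normal, F/D commutative: (xy)^M = d' x^M y^M; move d's to the left: z d = (z d z⁻¹) z).  So x^M = d z and l (v (x^M)) = l (v d) + ν d l (v z) = 0; and l (v (x^M)) = M l (v x) since ρ x = 1.  char 0.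
-/

namespace Pool.Agent.PWM

open Pool.Agent.PW

/-- the elements which act trivially -/
private def vanK {g n : ℕ} {k : Type} [Field k] {V : Type} [AddCommGroup V] [Module k V]
    (S : Sys g n k V) : Subgroup (F g n) where
  carrier := {z | S.ρ z = 1 ∧ S.v z = 0}
  one_mem' := ⟨map_one _, S.v_one⟩
  mul_mem' := by
    rintro x y ⟨h1, h2⟩ ⟨h3, h4⟩
    refine ⟨by rw [map_mul, h1, h3, one_mul], ?_⟩
    rw [S.coc, h2, h4, map_zero, add_zero]
  inv_mem' := by
    rintro x ⟨h1, h2⟩
    refine ⟨?_, by rw [S.v_inv, h2, map_zero, neg_zero]⟩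
    have h3 : S.ρ x⁻¹ * S.ρ x = 1 := by rw [← map_mul, inv_mul_cancel, map_one]
    rwa [h1, mul_one] at h3

private theorem van_pow {g n : ℕ} {k : Type} [Field k] {V : Type} [AddCommGroup V] [Module k V]
    (S : Sys g n k V) (x : F g n) (hx : S.ρ x = 1) (l : V →ₗ[k] k) (m : ℕ) :
    l (S.v (x ^ m)) = m * l (S.v x) := by
  induction m with
  | zero => rw [pow_zero, S.v_one, map_zero]; simp
  | succ m ih =>
    rw [pow_succ, S.coc, map_pow, hx, one_pow, Module.End.one_apply, map_add, ih]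
    push_cast
    ring

private theorem van_torsion {g n : ℕ} {k : Type} [Field k] {V : Type} [AddCommGroup V]
    [Module k V] (S : Sys g n k V) (hc : ∀ j, FinOrd S.ρ S.v (gc j)) (y : F g n) :
    ∃ M : ℕ, 0 < M ∧ (Abelianization.of y) ^ M ∈ (vanK S).map Abelianization.of := by
  have key : ∀ z : F g n, FinOrd S.ρ S.v z →
      ∃ M : ℕ, 0 < M ∧ (Abelianization.of z) ^ M ∈ (vanK S).map Abelianization.of := by
    rintro z ⟨m, hm, h1, h2⟩
    exact ⟨m, hm, ⟨z ^ m, ⟨h1, h2⟩, map_pow _ _ _⟩⟩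
  induction y using FreeGroup.induction_on with
  | C1 => exact ⟨1, one_pos, by rw [map_one, one_pow]; exact Subgroup.one_mem _⟩
  | of a =>
    cases a with
    | a i => exact key _ (S.kill 1 (Subgroup.one_mem _) i).1
    | b i => exact key _ (S.kill 1 (Subgroup.one_mem _) i).2.1
    | c j => exact key _ (hc j)
  | inv_of a h =>
    obtain ⟨M, hM, h1⟩ := h
    refine ⟨M, hM, ?_⟩
    rw [map_inv, inv_pow]
    exact Subgroup.inv_mem _ h1
  | mul x y hx hy =>
    obtain ⟨M, hM, h1⟩ := hx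
    obtain ⟨M', hM', h1'⟩ := hy
    refine ⟨M * M', Nat.mul_pos hM hM', ?_⟩
    rw [map_mul, mul_pow, pow_mul, mul_comm M M', pow_mul]
    exact Subgroup.mul_mem _ (Subgroup.pow_mem _ h1 _) (Subgroup.pow_mem _ h1' _)

theorem st_Van (hS : St_Sep) : St_Van := by
  intro g n k _ _ V _ _ S hfix hc x hx
  by_contra hv
  obtain ⟨l, ν, hl, hne⟩ := hS S.ρ (DD g n) S.fin S.comm S.roots (S.v x) hv
  have h : Eig S l ν := by
    refine ⟨?_, hl⟩
    rintro rfl
    exact hne (by rw [LinearMap.zero_apply])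
  obtain ⟨κ, hκ⟩ := hfix l ν h
  by_cases h1 : ∀ d ∈ DD g n, ν d = 1
  · -- case 2
    have h0 : ∀ d ∈ DD g n, l (S.v d) = 0 := by
      intro d hd
      have := hκ d hd
      unfold Fx at this
      rw [this, h1 d hd, sub_self, zero_mul]
    obtain ⟨M, hM, z, hz, hzM⟩ := van_torsion S hc x
    have hd : x ^ M * z⁻¹ ∈ DD g n := by
      have h2 : x ^ M * z⁻¹ ∈ (Abelianization.of : F g n →* _).ker := by
        rw [MonoidHom.mem_ker, map_mul, map_inv, hzM, map_pow, mul_inv_cancel]
      rwa [Abelianization.ker_of] at h2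
    have e1 : x ^ M = (x ^ M * z⁻¹) * z := by group
    have e2 : l (S.v (x ^ M)) = 0 := by
      rw [e1, h.c_mul hd, h0 _ hd, hz.2, map_zero, mul_zero, add_zero]
    rw [van_pow S x hx] at e2
    rcases mul_eq_zero.mp e2 with h3 | h3
    · have h4 : (M : k) ≠ 0 := by exact_mod_cast hM.ne'
      exact h4 h3
    · exact hne h3
  · -- case 1
    push Not at h1
    obtain ⟨d, hd, hνd⟩ := h1
    have hcD : cm d x ∈ DD g n := cm_mem d x
    have hρinv : S.ρ x⁻¹ = 1 := by
      have h3 : S.ρ x⁻¹ * S.ρ x = 1 := by rw [← map_mul, inv_mul_cancel, map_one]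
      rwa [hx, mul_one] at h3
    have hρc : S.ρ (cm d x) = 1 := by
      unfold cm
      rw [map_mul, map_mul, map_mul, hx, hρinv, mul_one, mul_one, ← map_mul, mul_inv_cancel,
        map_one]
    have hνc : ν (cm d x) = 1 := by
      rw [h.of_ρ hcD (Subgroup.one_mem _) (by rw [hρc, map_one]), h.one]
    have hlc : l (S.v (cm d x)) = 0 := by
      have := hκ _ hcD
      unfold Fx at this
      rw [this, hνc, sub_self, zero_mul]
    have e1 : d * x = cm d x * (x * d) := by unfold cm; group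
    have e2 : l (S.v (d * x)) = l (S.v d) + ν d * l (S.v x) := h.c_mul hd x
    have e3 : l (S.v (cm d x * (x * d))) = l (S.v x) + l (S.v d) := by
      rw [h.c_mul hcD, hlc, hνc, zero_add, one_mul, S.coc, hx, Module.End.one_apply, map_add]
    rw [e1, e3] at e2
    have e4 : (1 - ν d) * l (S.v x) = 0 := by linear_combination e2
    rcases mul_eq_zero.mp e4 with h3 | h3
    · exact hνd (sub_eq_zero.mp h3).symm
    · exact hne h3

end Pool.Agent.PWM
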