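import Mathlib

/-!
# The triangular lemma (paper, 8.1)

`Sch Gs d p φ z`: with `Y = p d p⁻¹` and `Φ x = z φ(x) z⁻¹`: `Φ d = Y`, `Φ p = p`, and `Φ q = α q β` with
`α, β ∈ {1, d^±, Y^±}` for all `q ∈ Gs`.
* `Sch.inv`: `Φ⁻¹ = c_{z'} ∘ φ⁻¹`, `z' = (φ⁻¹ z)⁻¹ = (Φ⁻¹ z)⁻¹`; `Φ⁻¹ Y = d`, `Φ⁻¹ d = p⁻¹ d p`.
* `triangular`: induction on `r`: all `u d u⁻¹ ∈ SS` for `u` a product of at most `r` elements of `Gs`.  For `w = q_1 ... q_r` and `p ∈ Gs`: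
  `φ (w d w⁻¹) ∈ SS`, `z ∈ SS`, so `(Φ w) Y (Φ w)⁻¹ ∈ SS`; `Φ w = α_1 q_1 β_1 α_2 q_2 ... q_r β_r = s w β_r`,
  `s` = product of the `u_i (β_i α_{i+1}) u_i⁻¹`, `u_i = q_1 ... q_i`, `i ≤ r - 1`, is in `SS`, since `u_i d u_i⁻¹`, `(u_i p) d (u_i p)⁻¹ ∈ SS`.
  So `w β_r Y β_r⁻¹ w⁻¹ ∈ SS`, and `w Y w⁻¹ = (w p) d (w p)⁻¹ ∈ SS` (if `β_r = d^±` conjugate by `w d^± w⁻¹ ∈ SS`).
  (A statement for the induction: for all lists `w` over `Gs` of length `≤ r` there are `s ∈ SS`, `β` with `InE d Y β` and `Φ w = s w β`,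
  whenever all `u d u⁻¹ ∈ SS` for `u` of length `≤ r`.)
-/

namespace Pool.Agent.PWM

variable {G : Type*} [Group G]

/-- `x ∈ {1, d^±, Y^±}` -/
def InE (d Y x : G) : Prop := x = 1 ∨ x = d ∨ x = d⁻¹ ∨ x = Y ∨ x = Y⁻¹

/-- The scheme of paper, 8.1. -/
structure Sch (Gs : Set G) (d p : G) (φ : MulAut G) (z : G) : Prop where
  hz : InE d (p * d * p⁻¹) z
  hd : z * φ d * z⁻¹ = p * d * p⁻¹
  hp : z * φ p * z⁻¹ = p
  hq : ∀ q ∈ Gs, ∃ α β, InE d (p * d * p⁻¹) α ∧ InE d (p * d * p⁻¹) β ∧ z * φ q * z⁻¹ = α * q * β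

theorem Sch.inv {Gs : Set G} {d p : G} {φ : MulAut G} {z : G} (h : Sch Gs d p φ z) :
    Sch Gs d p⁻¹ φ⁻¹ (φ⁻¹ z)⁻¹ := by
  -- the inverse of `Φ = c_z ∘ φ`
  have key : ∀ x y : G, z * φ x * z⁻¹ = y → (φ⁻¹ z)⁻¹ * φ⁻¹ y * ((φ⁻¹ z)⁻¹)⁻¹ = x := by
    intro x y hxy
    have h1 : φ x = z⁻¹ * y * z := by rw [← hxy]; group
    have h2 : x = φ⁻¹ (z⁻¹ * y * z) := by rw [← h1]; simp
    rw [h2]; simp
  have hY : (φ⁻¹ z)⁻¹ * φ⁻¹ (p * d * p⁻¹) * ((φ⁻¹ z)⁻¹)⁻¹ = d := key _ _ h.hd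
  have hp : (φ⁻¹ z)⁻¹ * φ⁻¹ p * ((φ⁻¹ z)⁻¹)⁻¹ = p := key _ _ h.hp
  have hd : (φ⁻¹ z)⁻¹ * φ⁻¹ d * ((φ⁻¹ z)⁻¹)⁻¹ = p⁻¹ * d * p⁻¹⁻¹ := by
    have h3 : (φ⁻¹ z)⁻¹ * φ⁻¹ (p * d * p⁻¹) * ((φ⁻¹ z)⁻¹)⁻¹
        = ((φ⁻¹ z)⁻¹ * φ⁻¹ p * ((φ⁻¹ z)⁻¹)⁻¹) * ((φ⁻¹ z)⁻¹ * φ⁻¹ d * ((φ⁻¹ z)⁻¹)⁻¹)
          * ((φ⁻¹ z)⁻¹ * φ⁻¹ p * ((φ⁻¹ z)⁻¹)⁻¹)⁻¹ := by
      rw [map_mul, map_mul, map_inv]; group
    rw [hY, hp] at h3
    generalize (φ⁻¹ z)⁻¹ * φ⁻¹ d * ((φ⁻¹ z)⁻¹)⁻¹ = X at h3 ⊢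
    calc X = p⁻¹ * (p * X * p⁻¹) * p⁻¹⁻¹ := by group
      _ = p⁻¹ * d * p⁻¹⁻¹ := by rw [← h3]
  have hz : (φ⁻¹ z)⁻¹ * φ⁻¹ z * ((φ⁻¹ z)⁻¹)⁻¹ = φ⁻¹ z := by group
  -- images of the elements of `E`
  have hE : ∀ x : G, InE d (p * d * p⁻¹) x →
      InE d (p⁻¹ * d * p⁻¹⁻¹) ((φ⁻¹ z)⁻¹ * φ⁻¹ x * ((φ⁻¹ z)⁻¹)⁻¹) := by
    have hinv : ∀ x y : G, (φ⁻¹ z)⁻¹ * φ⁻¹ x * ((φ⁻¹ z)⁻¹)⁻¹ = y →
        (φ⁻¹ z)⁻¹ * φ⁻¹ x⁻¹ * ((φ⁻¹ z)⁻¹)⁻¹ = y⁻¹ := by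
      intro x y hxy
      rw [← hxy, map_inv]; group
    intro x hx
    rcases hx with hx | hx | hx | hx | hx
    · left; rw [hx, map_one]; group
    · right; right; right; left; rw [hx]; exact hd
    · right; right; right; right; rw [hx]; exact hinv _ _ hd
    · right; left; rw [hx]; exact hY
    · right; right; left; rw [hx]; exact hinv _ _ hY
  have hEinv : ∀ Y x : G, InE d Y x → InE d Y x⁻¹ := by
    intro Y x hx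
    rcases hx with hx | hx | hx | hx | hx
    · left; rw [hx]; simp
    · right; right; left; rw [hx]
    · right; left; rw [hx]; simp
    · right; right; right; right; rw [hx]
    · right; right; right; left; rw [hx]; simp
  refine ⟨?_, hd, ?_, ?_⟩
  · apply hEinv
    have := hE z h.hz
    rwa [hz] at this
  · have h4 : (φ⁻¹ z)⁻¹ * φ⁻¹ p⁻¹ * ((φ⁻¹ z)⁻¹)⁻¹
        = ((φ⁻¹ z)⁻¹ * φ⁻¹ p * ((φ⁻¹ z)⁻¹)⁻¹)⁻¹ := by rw [map_inv]; group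
    rw [h4, hp]
  · intro q hqs
    obtain ⟨α, β, hα, hβ, hqe⟩ := h.hq q hqs
    refine ⟨((φ⁻¹ z)⁻¹ * φ⁻¹ α * ((φ⁻¹ z)⁻¹)⁻¹)⁻¹, ((φ⁻¹ z)⁻¹ * φ⁻¹ β * ((φ⁻¹ z)⁻¹)⁻¹)⁻¹,
      hEinv _ _ (hE _ hα), hEinv _ _ (hE _ hβ), ?_⟩
    have h5 := key _ _ hqe
    have h6 : (φ⁻¹ z)⁻¹ * φ⁻¹ (α * q * β) * ((φ⁻¹ z)⁻¹)⁻¹
        = ((φ⁻¹ z)⁻¹ * φ⁻¹ α * ((φ⁻¹ z)⁻¹)⁻¹) * ((φ⁻¹ z)⁻¹ * φ⁻¹ q * ((φ⁻¹ z)⁻¹)⁻¹)
          * ((φ⁻¹ z)⁻¹ * φ⁻¹ β * ((φ⁻¹ z)⁻¹)⁻¹) := by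
      rw [map_mul, map_mul]; group
    rw [h6] at h5
    calc (φ⁻¹ z)⁻¹ * φ⁻¹ q * ((φ⁻¹ z)⁻¹)⁻¹
        = ((φ⁻¹ z)⁻¹ * φ⁻¹ α * ((φ⁻¹ z)⁻¹)⁻¹)⁻¹ * (((φ⁻¹ z)⁻¹ * φ⁻¹ α * ((φ⁻¹ z)⁻¹)⁻¹)
          * ((φ⁻¹ z)⁻¹ * φ⁻¹ q * ((φ⁻¹ z)⁻¹)⁻¹) * ((φ⁻¹ z)⁻¹ * φ⁻¹ β * ((φ⁻¹ z)⁻¹)⁻¹))
          * ((φ⁻¹ z)⁻¹ * φ⁻¹ β * ((φ⁻¹ z)⁻¹)⁻¹)⁻¹ := by group
      _ = _ := by rw [h5]

/-- conjugates of elements of `E` -/
theorem tri_conjE (SS : Subgroup G) {d Y u x : G} (h1 : u * d * u⁻¹ ∈ SS) (h2 : u * Y * u⁻¹ ∈ SS)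
    (hx : InE d Y x) : u * x * u⁻¹ ∈ SS := by
  rcases hx with hx | hx | hx | hx | hx
  · rw [hx]; simp
  · rw [hx]; exact h1
  · rw [hx]
    have : u * d⁻¹ * u⁻¹ = (u * d * u⁻¹)⁻¹ := by group
    rw [this]; exact SS.inv_mem h1
  · rw [hx]; exact h2
  · rw [hx]
    have : u * Y⁻¹ * u⁻¹ = (u * Y * u⁻¹)⁻¹ := by group
    rw [this]; exact SS.inv_mem h2

/-- The images of words under `Φ`. -/
theorem tri_word (SS : Subgroup G) {Gs : Set G} {d p : G} {φ : MulAut G} {z : G}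
    (hS : Sch Gs d p φ z) (hp : p ∈ Gs) (n : ℕ)
    (hn : ∀ l : List G, (∀ q ∈ l, q ∈ Gs) → l.length ≤ n → l.prod * d * l.prod⁻¹ ∈ SS) :
    ∀ l : List G, (∀ q ∈ l, q ∈ Gs) → l.length ≤ n →
      ∃ s ∈ SS, ∃ β, InE d (p * d * p⁻¹) β ∧ z * φ l.prod * z⁻¹ = s * l.prod * β := by
  intro l
  induction l using List.reverseRecOn with
  | nil =>
    intro _ _
    exact ⟨1, SS.one_mem, 1, Or.inl rfl, by simp⟩
  | append_singleton l q ih =>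
    intro hl hlen
    have hl' : ∀ r ∈ l, r ∈ Gs := fun r hr => hl r (List.mem_append_left _ hr)
    have hlen' : l.length + 1 ≤ n := by simpa using hlen
    obtain ⟨s, hs, β, hβ, he⟩ := ih hl' (by omega)
    obtain ⟨α, γ, hα, hγ, hqe⟩ := hS.hq q (hl q (by simp))
    have hu : l.prod * d * l.prod⁻¹ ∈ SS := hn l hl' (by omega)
    have hv : l.prod * (p * d * p⁻¹) * l.prod⁻¹ ∈ SS := by
      have h1 := hn (l ++ [p]) (by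
        intro r hr
        rcases List.mem_append.mp hr with h | h
        · exact hl' r h
        · rw [List.mem_singleton] at h; rw [h]; exact hp) (by simpa using hlen')
      have h2 : (l ++ [p]).prod * d * (l ++ [p]).prod⁻¹ = l.prod * (p * d * p⁻¹) * l.prod⁻¹ := by
        rw [List.prod_append, List.prod_singleton]; group
      rwa [h2] at h1
    refine ⟨s * ((l.prod * β * l.prod⁻¹) * (l.prod * α * l.prod⁻¹)),
      SS.mul_mem hs (SS.mul_mem (tri_conjE SS hu hv hβ) (tri_conjE SS hu hv hα)), γ, hγ, ?_⟩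
    rw [List.prod_append, List.prod_singleton, map_mul]
    calc z * (φ l.prod * φ q) * z⁻¹ = (z * φ l.prod * z⁻¹) * (z * φ q * z⁻¹) := by group
      _ = (s * l.prod * β) * (α * q * γ) := by rw [he, hqe]
      _ = _ := by group

theorem tri_main (SS : Subgroup G) {Gs : Set G} {d : G} (hd : d ∈ SS)
    (h : ∀ p ∈ Gs, ∃ (φ : MulAut G) (z : G), Sch Gs d p φ z ∧ ∀ x ∈ SS, φ x ∈ SS) (n : ℕ) :
    ∀ l : List G, (∀ q ∈ l, q ∈ Gs) → l.length ≤ n → l.prod * d * l.prod⁻¹ ∈ SS := by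
  induction n with
  | zero =>
    intro l _ hlen
    have : l = [] := List.length_eq_zero_iff.mp (by omega)
    rw [this]; simpa using hd
  | succ n ih =>
    intro l hl hlen
    rcases List.eq_nil_or_concat l with h0 | ⟨l', p, h0⟩
    · rw [h0]; simpa using hd
    · rw [List.concat_eq_append] at h0
      subst h0
      have hl' : ∀ r ∈ l', r ∈ Gs := fun r hr => hl r (List.mem_append_left _ hr)
      have hp : p ∈ Gs := hl p (by simp)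
      have hlen' : l'.length ≤ n := by
        have : l'.length + 1 ≤ n + 1 := by simpa using hlen
        omega
      obtain ⟨φ, z, hS, hφ⟩ := h p hp
      have hY : p * d * p⁻¹ ∈ SS := by
        have h1 : φ d ∈ SS := hφ d hd
        rcases hS.hz with hz | hz | hz | hz | hz
        · rw [← hS.hd, hz]; simpa using h1
        · rw [← hS.hd, hz]; exact SS.mul_mem (SS.mul_mem hd h1) (SS.inv_mem hd)
        · rw [← hS.hd, hz]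
          exact SS.mul_mem (SS.mul_mem (SS.inv_mem hd) h1) (SS.inv_mem (SS.inv_mem hd))
        · have h2 := hS.hd
          have h3 : φ d = z⁻¹ * (p * d * p⁻¹) * z := by rw [← h2]; group
          have h4 : z⁻¹ * (p * d * p⁻¹) * z = p * d * p⁻¹ := by rw [hz]; group
          rw [← h4, ← h3]; exact h1
        · have h2 := hS.hd
          have h3 : φ d = z⁻¹ * (p * d * p⁻¹) * z := by rw [← h2]; group
          have h4 : z⁻¹ * (p * d * p⁻¹) * z = p * d * p⁻¹ := by rw [hz]; group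
          rw [← h4, ← h3]; exact h1
      have hz : z ∈ SS := by
        have h1 := tri_conjE SS (u := 1) (x := z) (by simpa using hd) (by simpa using hY) hS.hz
        simpa using h1
      obtain ⟨s, hs, β, hβ, he⟩ := tri_word SS hS hp n ih l' hl' hlen'
      have hu : l'.prod * d * l'.prod⁻¹ ∈ SS := ih l' hl' hlen'
      have h5 : z * φ (l'.prod * d * l'.prod⁻¹) * z⁻¹ ∈ SS :=
        SS.mul_mem (SS.mul_mem hz (hφ _ hu)) (SS.inv_mem hz)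
      have h6 : z * φ (l'.prod * d * l'.prod⁻¹) * z⁻¹
          = s * (l'.prod * (β * (p * d * p⁻¹) * β⁻¹) * l'.prod⁻¹) * s⁻¹ := by
        rw [map_mul, map_mul, map_inv]
        calc z * (φ l'.prod * φ d * (φ l'.prod)⁻¹) * z⁻¹
            = (z * φ l'.prod * z⁻¹) * (z * φ d * z⁻¹) * (z * φ l'.prod * z⁻¹)⁻¹ := by group
          _ = (s * l'.prod * β) * (p * d * p⁻¹) * (s * l'.prod * β)⁻¹ := by rw [he, hS.hd]
          _ = _ := by group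
      have h7 : l'.prod * (β * (p * d * p⁻¹) * β⁻¹) * l'.prod⁻¹ ∈ SS := by
        rw [h6] at h5
        have h8 := SS.mul_mem (SS.mul_mem (SS.inv_mem hs) h5) hs
        have h9 : s⁻¹ * (s * (l'.prod * (β * (p * d * p⁻¹) * β⁻¹) * l'.prod⁻¹) * s⁻¹) * s
            = l'.prod * (β * (p * d * p⁻¹) * β⁻¹) * l'.prod⁻¹ := by group
        rwa [h9] at h8
      have h10 : l'.prod * (p * d * p⁻¹) * l'.prod⁻¹ ∈ SS := by
        rcases hβ with hb | hb | hb | hb | hb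
        · rw [hb] at h7
          have : (1 : G) * (p * d * p⁻¹) * 1⁻¹ = p * d * p⁻¹ := by group
          rwa [this] at h7
        · rw [hb] at h7
          have h11 := SS.mul_mem (SS.mul_mem (SS.inv_mem hu) h7) hu
          have h12 : (l'.prod * d * l'.prod⁻¹)⁻¹ *
              (l'.prod * (d * (p * d * p⁻¹) * d⁻¹) * l'.prod⁻¹) * (l'.prod * d * l'.prod⁻¹)
              = l'.prod * (p * d * p⁻¹) * l'.prod⁻¹ := by group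
          rwa [h12] at h11
        · rw [hb] at h7
          have h11 := SS.mul_mem (SS.mul_mem hu h7) (SS.inv_mem hu)
          have h12 : (l'.prod * d * l'.prod⁻¹) *
              (l'.prod * (d⁻¹ * (p * d * p⁻¹) * d⁻¹⁻¹) * l'.prod⁻¹) * (l'.prod * d * l'.prod⁻¹)⁻¹
              = l'.prod * (p * d * p⁻¹) * l'.prod⁻¹ := by group
          rwa [h12] at h11
        · rw [hb] at h7
          have : (p * d * p⁻¹) * (p * d * p⁻¹) * (p * d * p⁻¹)⁻¹ = p * d * p⁻¹ := by group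
          rwa [this] at h7
        · rw [hb] at h7
          have : (p * d * p⁻¹)⁻¹ * (p * d * p⁻¹) * (p * d * p⁻¹)⁻¹⁻¹ = p * d * p⁻¹ := by group
          rwa [this] at h7
      have h13 : (l' ++ [p]).prod * d * (l' ++ [p]).prod⁻¹
          = l'.prod * (p * d * p⁻¹) * l'.prod⁻¹ := by
        rw [List.prod_append, List.prod_singleton]; group
      rw [h13]; exact h10

theorem triangular (SS : Subgroup G) {Gs : Set G} {d : G} (hd : d ∈ SS)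
    (h : ∀ p ∈ Gs, ∃ (φ : MulAut G) (z : G), Sch Gs d p φ z ∧ ∀ x ∈ SS, φ x ∈ SS) {w : G}
    (hw : w ∈ Submonoid.closure Gs) : w * d * w⁻¹ ∈ SS := by
  obtain ⟨l, hl, rfl⟩ := Submonoid.exists_list_of_mem_closure hw
  exact tri_main SS hd h l.length l hl le_rfl

end Pool.Agent.PWM
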