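import Pool.Agent.PWM.Far
import Pool.Agent.PWM.Rot
import Pool.Agent.PWM.Tri

/-!
# The Claim (paper, section 8)

`Gs n i`: the letters after the handle `i`, moved next to it (`sw i j`, `tw i j`, `sc i j`), and their inverses.
The values of the pushes on these words are in Far (`Pb_sw_lt`, `Pb_sw`, `Pb_tw`, `Pb_sw_gt`, `Pb_sc`, `Pc_sw`, `Pc_sc_lt`, `Pc_sc`,
`Pc_sc_gt`); `rr j` fixes all `dl`, so it fixes `mid`, `midc`, and `rr j (tw i j) = (sw i j)⁻¹`,
`rr j (sw i j) = sw i j * tw i j * (sw i j)⁻¹`.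
-/

namespace Pool.Agent.PWM

open Pool.Agent.PW

variable {g n : ℕ}

/-- The generators. -/
def Gs (n : ℕ) (i : Fin g) : Set (F g n) :=
  {q | ∃ j : Fin g, (i : ℕ) < j ∧ (q = sw i j ∨ q = (sw i j)⁻¹ ∨ q = tw i j ∨ q = (tw i j)⁻¹)} ∪
    {q | ∃ j : Fin n, q = sc i j ∨ q = (sc i j)⁻¹}

theorem cla_sw {i j : Fin g} (h : (i : ℕ) < j) : (sw i j : F g n) ∈ Gs n i :=
  Or.inl ⟨j, h, Or.inl rfl⟩

theorem cla_tw {i j : Fin g} (h : (i : ℕ) < j) : (tw i j : F g n) ∈ Gs n i :=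
  Or.inl ⟨j, h, Or.inr (Or.inr (Or.inl rfl))⟩

theorem cla_sc (i : Fin g) (j : Fin n) : (sc i j : F g n) ∈ Gs n i :=
  Or.inr ⟨j, Or.inl rfl⟩

theorem cla_inv {i : Fin g} {q : F g n} (hq : q ∈ Gs n i) : q⁻¹ ∈ Gs n i := by
  rcases hq with ⟨j, h, rfl | rfl | rfl | rfl⟩ | ⟨j, rfl | rfl⟩
  · exact Or.inl ⟨j, h, Or.inr (Or.inl rfl)⟩
  · exact Or.inl ⟨j, h, Or.inl (inv_inv _)⟩
  · exact Or.inl ⟨j, h, Or.inr (Or.inr (Or.inr rfl))⟩
  · exact Or.inl ⟨j, h, Or.inr (Or.inr (Or.inl (inv_inv _)))⟩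
  · exact Or.inr ⟨j, Or.inr rfl⟩
  · exact Or.inr ⟨j, Or.inl (inv_inv _)⟩

/-- The generated subgroup. -/
def claE (n : ℕ) (i : Fin g) : Subgroup (F g n) where
  carrier := Submonoid.closure (Gs n i)
  one_mem' := (Submonoid.closure (Gs n i)).one_mem
  mul_mem' := fun h1 h2 => (Submonoid.closure (Gs n i)).mul_mem h1 h2
  inv_mem' := by
    intro x hx
    refine Submonoid.closure_induction
      (motive := fun y _ => y⁻¹ ∈ Submonoid.closure (Gs n i)) ?_ ?_ ?_ hx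
    · intro y hy
      exact Submonoid.subset_closure (cla_inv hy)
    · rw [inv_one]
      exact (Submonoid.closure (Gs n i)).one_mem
    · intro y z _ _ h1 h2
      rw [mul_inv_rev]
      exact (Submonoid.closure (Gs n i)).mul_mem h2 h1

theorem claE_gen {i : Fin g} {q : F g n} (hq : q ∈ Gs n i) : q ∈ claE n i :=
  Submonoid.subset_closure hq

/-- A subgroup with the moved generators contains all the generators after the handle `i`. -/
theorem gen_moved' {E : Subgroup (F g n)} {z : Fin g}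
    (h1 : ∀ j : Fin g, (z : ℕ) < j → sw z j ∈ E ∧ tw z j ∈ E) (h2 : ∀ j, sc z j ∈ E) :
    (∀ j : Fin g, (z : ℕ) < j → ga j ∈ E ∧ gb j ∈ E) ∧ ∀ j, gc j ∈ E := by
  have step : ∀ j : Fin g, (z : ℕ) < j → seg g n (z + 1) (j - z - 1) ∈ E →
      ga j ∈ E ∧ gb j ∈ E := by
    intro j hj hs
    obtain ⟨h3, h5⟩ := h1 j hj
    rw [sw, mid] at h3
    rw [tw, mid] at h5
    refine ⟨?_, ?_⟩
    · have h6 := E.mul_mem (E.mul_mem (E.inv_mem hs) h3) hs
      have e : (seg g n (z + 1) (j - z - 1))⁻¹ * (seg g n (z + 1) (j - z - 1) * ga j *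
          (seg g n (z + 1) (j - z - 1))⁻¹) * seg g n (z + 1) (j - z - 1) = ga j := by group
      rwa [e] at h6
    · have h6 := E.mul_mem (E.mul_mem (E.inv_mem hs) h5) hs
      have e : (seg g n (z + 1) (j - z - 1))⁻¹ * (seg g n (z + 1) (j - z - 1) * gb j *
          (seg g n (z + 1) (j - z - 1))⁻¹) * seg g n (z + 1) (j - z - 1) = gb j := by group
      rwa [e] at h6
  have hseg : ∀ m, seg g n (z + 1) m ∈ E := by
    intro m
    induction m with
    | zero =>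
      rw [seg_zero]
      exact E.one_mem
    | succ m ih =>
      rw [seg_add, seg_one]
      apply E.mul_mem ih
      by_cases hm : (z : ℕ) + 1 + m < g
      · have hj : (z : ℕ) < (⟨(z : ℕ) + 1 + m, hm⟩ : Fin g) := by
          show (z : ℕ) < (z : ℕ) + 1 + m
          omega
        have h3 := step ⟨(z : ℕ) + 1 + m, hm⟩ hj (by
          have e : ((⟨(z : ℕ) + 1 + m, hm⟩ : Fin g) : ℕ) - z - 1 = m := by
            show (z : ℕ) + 1 + m - z - 1 = m
            omega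
          rw [e]
          exact ih)
        have h4 : hd g n ((z : ℕ) + 1 + m) = cm (ga ⟨(z : ℕ) + 1 + m, hm⟩)
          (gb ⟨(z : ℕ) + 1 + m, hm⟩) := hd_fin ⟨(z : ℕ) + 1 + m, hm⟩
        rw [h4]
        exact E.mul_mem (E.mul_mem (E.mul_mem h3.1 h3.2) (E.inv_mem h3.1)) (E.inv_mem h3.2)
      · simp only [hd, hm, dif_neg, not_false_iff]
        exact E.one_mem
  have stepc : ∀ j : Fin n, cseg g n 0 j ∈ E → gc j ∈ E := by
    intro j hs
    have hm : midc g n z j ∈ E := by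
      rw [midc]
      exact E.mul_mem (hseg _) hs
    have h3 := h2 j
    rw [sc] at h3
    have h4 := E.mul_mem (E.mul_mem (E.inv_mem hm) h3) hm
    have e : (midc g n z j)⁻¹ * (midc g n z j * gc j * (midc g n z j)⁻¹) * midc g n z j = gc j := by
      group
    rwa [e] at h4
  have hcseg : ∀ m, cseg g n 0 m ∈ E := by
    intro m
    induction m with
    | zero =>
      rw [cseg_zero]
      exact E.one_mem
    | succ m ih =>
      rw [cseg_add, cseg_one]
      apply E.mul_mem ih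
      rw [Nat.zero_add]
      by_cases hm : m < n
      · have h4 : pc g n m = gc ⟨m, hm⟩ := pc_fin ⟨m, hm⟩
        rw [h4]
        exact stepc ⟨m, hm⟩ ih
      · simp only [pc, hm, dif_neg, not_false_iff]
        exact E.one_mem
  exact ⟨fun j hj => step j hj (hseg _), fun j => stepc j (hcseg _)⟩

/-- They generate the subgroup of everything after the handle `i` (compare `PW.gen_moved`). -/
theorem mem_closure_Gs (i : Fin g) {w : F g n} (hw : w ∈ Fge g n (i + 1)) :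
    w ∈ Submonoid.closure (Gs n i) := by
  have h := gen_moved' (E := claE n i) (z := i)
    (fun j hj => ⟨claE_gen (cla_sw hj), claE_gen (cla_tw hj)⟩) (fun j => claE_gen (cla_sc i j))
  have h2 : Fge g n (i + 1) ≤ claE n i := by
    unfold Fge
    rw [Subgroup.closure_le]
    rintro x (⟨j, hj, rfl | rfl⟩ | ⟨j, rfl⟩)
    · exact (h.1 j (by omega)).1
    · exact (h.1 j (by omega)).2
    · exact h.2 j
  exact h2 hw

theorem InE.inv {G : Type*} [Group G] {d Y x : G} (h : InE d Y x) : InE d Y x⁻¹ := by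
  rcases h with rfl | rfl | rfl | rfl | rfl
  · left
    exact inv_one
  · right; right; left
    rfl
  · right; left
    exact inv_inv _
  · right; right; right; right
    rfl
  · right; right; right; left
    exact inv_inv _

theorem InE.one {G : Type*} [Group G] {d Y : G} : InE d Y 1 := Or.inl rfl

theorem InE.d {G : Type*} [Group G] {d Y : G} : InE d Y d := Or.inr (Or.inl rfl)

theorem InE.di {G : Type*} [Group G] {d Y : G} : InE d Y d⁻¹ := Or.inr (Or.inr (Or.inl rfl))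

theorem InE.y {G : Type*} [Group G] {d Y : G} : InE d Y Y := Or.inr (Or.inr (Or.inr (Or.inl rfl)))

theorem InE.yi {G : Type*} [Group G] {d Y : G} : InE d Y Y⁻¹ :=
  Or.inr (Or.inr (Or.inr (Or.inr rfl)))

theorem InE.map {G : Type*} [Group G] {d Y x : G} (r : MulAut G) (hr : r d = d)
    (h : InE d Y x) : InE d (r Y) (r x) := by
  rcases h with rfl | rfl | rfl | rfl | rfl
  · left
    exact map_one r
  · right; left
    exact hr
  · right; right; left
    rw [map_inv, hr]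
  · right; right; right; left
    rfl
  · right; right; right; right
    rw [map_inv]

/-- The condition on one generator. -/
def claQ (d Y : F g n) (φ : MulAut (F g n)) (z q : F g n) : Prop :=
  ∃ α β, InE d Y α ∧ InE d Y β ∧ z * φ q * z⁻¹ = α * q * β

theorem claQ_inv {d Y : F g n} {φ : MulAut (F g n)} {z q : F g n} (h : claQ d Y φ z q) :
    claQ d Y φ z q⁻¹ := by
  obtain ⟨α, β, h1, h2, h3⟩ := h
  refine ⟨β⁻¹, α⁻¹, h2.inv, h1.inv, ?_⟩
  have h4 : z * φ q⁻¹ * z⁻¹ = (z * φ q * z⁻¹)⁻¹ := by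
    rw [map_inv]
    group
  rw [h4, h3]
  group

/-- It suffices to have the condition for the letters. -/
theorem claQ_all {i : Fin g} {d Y : F g n} {φ : MulAut (F g n)} {z : F g n}
    (h1 : ∀ j : Fin g, (i : ℕ) < j → claQ d Y φ z (sw i j) ∧ claQ d Y φ z (tw i j))
    (h2 : ∀ j : Fin n, claQ d Y φ z (sc i j)) :
    ∀ q ∈ Gs n i, claQ d Y φ z q := by
  intro q hq
  rcases hq with ⟨j, h, rfl | rfl | rfl | rfl⟩ | ⟨j, rfl | rfl⟩
  · exact (h1 j h).1
  · exact claQ_inv (h1 j h).1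
  · exact (h1 j h).2
  · exact claQ_inv (h1 j h).2
  · exact h2 j
  · exact claQ_inv (h2 j)

theorem sch_b_sw {i j : Fin g} (h : (i : ℕ) < j) :
    pY i j * Pb (n := n) i j h (sw i j) * (pY i j)⁻¹ = dl i * sw i j := by
  rw [Pb_sw]
  group

theorem sch_b_tw {i j : Fin g} (h : (i : ℕ) < j) :
    pY i j * Pb (n := n) i j h (tw i j) * (pY i j)⁻¹ = tw i j := by
  rw [Pb_tw]
  group

theorem sch_b_q {i j : Fin g} (h : (i : ℕ) < j) (l : Fin g) (hl : (i : ℕ) < l) :
    claQ (dl i) (pY (n := n) i j) (Pb i j h) (pY i j) (sw i l) ∧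
    claQ (dl i) (pY (n := n) i j) (Pb i j h) (pY i j) (tw i l) := by
  rcases lt_trichotomy (l : ℕ) (j : ℕ) with h3 | h3 | h3
  · constructor
    · refine ⟨pY i j, (pY i j)⁻¹, InE.y, InE.yi, ?_⟩
      rw [(Pb_sw_lt h hl h3).1]
    · refine ⟨pY i j, (pY i j)⁻¹, InE.y, InE.yi, ?_⟩
      rw [(Pb_sw_lt h hl h3).2]
  · have h4 : l = j := Fin.ext h3
    subst h4
    constructor
    · refine ⟨dl i, 1, InE.d, InE.one, ?_⟩
      rw [sch_b_sw h, mul_one]
    · refine ⟨1, 1, InE.one, InE.one, ?_⟩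
      rw [sch_b_tw h, mul_one, one_mul]
  · constructor
    · refine ⟨dl i, (dl i)⁻¹, InE.d, InE.di, ?_⟩
      rw [(Pb_sw_gt h h3).1]
      group
    · refine ⟨dl i, (dl i)⁻¹, InE.d, InE.di, ?_⟩
      rw [(Pb_sw_gt h h3).2]
      group

theorem sch_b_c {i j : Fin g} (h : (i : ℕ) < j) (l : Fin n) :
    claQ (dl i) (pY (n := n) i j) (Pb i j h) (pY i j) (sc i l) := by
  refine ⟨dl i, (dl i)⁻¹, InE.d, InE.di, ?_⟩
  rw [Pb_sc h l]
  group

theorem sch_b {i j : Fin g} (h : (i : ℕ) < j) :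
    Sch (Gs n i) (dl i) (tw i j) (Pb i j h) (pY i j) where
  hz := InE.y
  hd := by
    rw [Pb_di]
    show pY i j * pY i j * (pY i j)⁻¹ = pY i j
    group
  hp := sch_b_tw h
  hq := claQ_all (sch_b_q h) (sch_b_c h)

theorem fix_seg (φ : MulAut (F g n)) (h : ∀ i : Fin g, φ (dl i) = dl i) (s m : ℕ) :
    φ (seg g n s m) = seg g n s m := by
  have e : seg g n s m ∈ MonoidHom.eqLocus φ.toMonoidHom (MonoidHom.id _) :=
    seg_mem' (fun i _ _ => h i)
  exact e

theorem fix_cseg (φ : MulAut (F g n)) (h : ∀ i : Fin n, φ (gc i) = gc i) (s m : ℕ) :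
    φ (cseg g n s m) = cseg g n s m := by
  have e : φ.toMonoidHom (cseg g n s m) = (MonoidHom.id _) (cseg g n s m) :=
    cseg_congr (fun i _ _ => h i)
  exact e

theorem rr_mid (l : Fin g) (i j : ℕ) : rr l (mid g n i j) = mid g n i j :=
  fix_seg _ (rr_dl l) _ _

theorem rr_midc (l : Fin g) (i j : ℕ) : rr l (midc g n i j) = midc g n i j := by
  rw [midc, map_mul, fix_seg _ (rr_dl l), fix_cseg _ (rr_c l)]

theorem rr_sw' {i j l : Fin g} (h : l ≠ j) : rr (n := n) j (sw i l) = sw i l := by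
  rw [sw, map_mul, map_mul, map_inv, rr_mid, rr_a' h]

theorem rr_tw' {i j l : Fin g} (h : l ≠ j) : rr (n := n) j (tw i l) = tw i l := by
  rw [tw, map_mul, map_mul, map_inv, rr_mid, rr_b' h]

theorem rr_sc (i j : Fin g) (l : Fin n) : rr j (sc i l) = sc i l := by
  rw [sc, map_mul, map_mul, map_inv, rr_midc, rr_c]

theorem rr_sw (i j : Fin g) : rr (n := n) j (sw i j) = sw i j * tw i j * (sw i j)⁻¹ := by
  rw [sw, tw, map_mul, map_mul, map_inv, rr_mid, rr_a]
  group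

theorem rr_tw (i j : Fin g) : rr (n := n) j (tw i j) = (sw i j)⁻¹ := by
  rw [sw, tw, map_mul, map_mul, map_inv, rr_mid, rr_b]
  group

theorem rri_sw (i j : Fin g) : (rr (n := n) j)⁻¹ (sw i j) = (tw i j)⁻¹ := by
  apply inv_of_eq
  rw [map_inv, rr_tw, inv_inv]

theorem rri_tw (i j : Fin g) : (rr (n := n) j)⁻¹ (tw i j) = tw i j * sw i j * (tw i j)⁻¹ := by
  apply inv_of_eq
  rw [map_mul, map_mul, map_inv, rr_sw, rr_tw]
  group

/-- The conjugate scheme. -/
theorem claQ_conj {d Y z q q' : F g n} {φ : MulAut (F g n)} (r : MulAut (F g n)) (hr : r d = d)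
    (hq : r⁻¹ q = q') (h : claQ d Y φ z q') (hq' : r q' = q) :
    claQ d (r Y) (r * φ * r⁻¹) (r z) q := by
  obtain ⟨α, β, h1, h2, h3⟩ := h
  refine ⟨r α, r β, h1.map r hr, h2.map r hr, ?_⟩
  have h4 : r z * (r * φ * r⁻¹) q * (r z)⁻¹ = r (z * φ q' * z⁻¹) := by
    rw [map_mul, map_mul, map_inv, ← hq]
    rfl
  rw [h4, h3, map_mul, map_mul, hq']

theorem sch_a {i j : Fin g} (h : (i : ℕ) < j) :
    Sch (Gs n i) (dl i) (sw i j)⁻¹ (rr j * Pb i j h * (rr j)⁻¹) ((sw i j)⁻¹ * dl i * sw i j) := by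
  have eY : (sw i j)⁻¹ * dl i * ((sw i j)⁻¹)⁻¹ = rr (n := n) j (pY i j) := by
    rw [pY, map_mul, map_mul, map_inv, rr_tw, rr_dl]
  have ez : (sw i j)⁻¹ * dl i * sw i j = rr (n := n) j (pY i j) := by
    rw [← eY, inv_inv]
  have key : ∀ q : F g n, rr j (pY i j) * (rr j * Pb i j h * (rr j)⁻¹ : MulAut (F g n)) q *
      (rr j (pY i j))⁻¹ =
      rr j (pY i j * Pb i j h ((rr j)⁻¹ q) * (pY i j)⁻¹) := by
    intro q
    rw [map_mul, map_mul, map_inv]
    rfl
  have hb := sch_b (n := n) h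
  constructor
  · rw [eY, ez]
    exact InE.y
  · rw [eY, ez, key, rri_dl, hb.hd]
    rfl
  · rw [ez, key, map_inv (rr j)⁻¹, rri_sw, inv_inv, hb.hp, rr_tw]
  · rw [eY, ez]
    apply claQ_all
    · intro l hl
      by_cases hj : l = j
      · subst hj
        constructor
        · refine ⟨1, 1, InE.one, InE.one, ?_⟩
          rw [key, rri_sw, map_inv, mul_one, one_mul]
          have e1 : pY i l * (Pb (n := n) i l h (tw i l))⁻¹ * (pY i l)⁻¹ = (tw i l)⁻¹ := by
            rw [Pb_tw]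
            group
          rw [e1, map_inv, rr_tw, inv_inv]
        · refine ⟨rr l (pY i l), 1, InE.y, InE.one, ?_⟩
          rw [key, rri_tw, mul_one]
          have e1 : pY i l * Pb (n := n) i l h (tw i l * sw i l * (tw i l)⁻¹) * (pY i l)⁻¹ =
              pY i l * (tw i l * sw i l * (tw i l)⁻¹) := by
            rw [map_mul, map_mul, map_inv, Pb_tw, Pb_sw, pY]
            group
          rw [e1, map_mul, map_mul, map_mul, map_inv, rr_tw, rr_sw]
          group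
      · constructor
        · exact claQ_conj (rr j) (rr_dl j i) (inv_of_fix _ (rr_sw' hj)) (sch_b_q h l hl).1
            (rr_sw' hj)
        · exact claQ_conj (rr j) (rr_dl j i) (inv_of_fix _ (rr_tw' hj)) (sch_b_q h l hl).2
            (rr_tw' hj)
    · intro l
      exact claQ_conj (rr j) (rr_dl j i) (inv_of_fix _ (rr_sc i j l)) (sch_b_c h l) (rr_sc i j l)

theorem sch_c (i : Fin g) (j : Fin n) : Sch (Gs n i) (dl i) (sc i j) (Pc i j) (dl i)⁻¹ where
  hz := InE.di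
  hd := by
    rw [Pc_di]
    group
  hp := by
    rw [Pc_sc]
    group
  hq := by
    apply claQ_all
    · intro l hl
      constructor
      · refine ⟨(dl i)⁻¹, dl i, InE.di, InE.d, ?_⟩
        rw [(Pc_sw i j hl).1, inv_inv]
      · refine ⟨(dl i)⁻¹, dl i, InE.di, InE.d, ?_⟩
        rw [(Pc_sw i j hl).2, inv_inv]
    · intro l
      rcases lt_trichotomy (l : ℕ) (j : ℕ) with h3 | h3 | h3
      · refine ⟨(dl i)⁻¹, dl i, InE.di, InE.d, ?_⟩
        rw [Pc_sc_lt i j h3, inv_inv]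
      · have h4 : l = j := Fin.ext h3
        subst h4
        refine ⟨1, 1, InE.one, InE.one, ?_⟩
        rw [Pc_sc]
        group
      · refine ⟨(sc i j * dl i * (sc i j)⁻¹)⁻¹, sc i j * dl i * (sc i j)⁻¹, InE.yi, InE.y, ?_⟩
        rw [Pc_sc_gt i j h3]
        group

theorem sch_all (i : Fin g) {p : F g n} (hp : p ∈ Gs n i) : ∃ φ ∈ MCG g n, ∃ z,
    Sch (Gs n i) (dl i) p φ z ∧ ∀ l : Fin g, (l : ℕ) < i → φ (ga l) = ga l ∧ φ (gb l) = gb l := by
  have inv : ∀ q : F g n, (∃ φ ∈ MCG g n, ∃ z, Sch (Gs n i) (dl i) q φ z ∧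
      ∀ l : Fin g, (l : ℕ) < i → φ (ga l) = ga l ∧ φ (gb l) = gb l) →
      ∃ φ ∈ MCG g n, ∃ z, Sch (Gs n i) (dl i) q⁻¹ φ z ∧
      ∀ l : Fin g, (l : ℕ) < i → φ (ga l) = ga l ∧ φ (gb l) = gb l := by
    rintro q ⟨φ, hφ, z, h1, h2⟩
    refine ⟨φ⁻¹, (MCG g n).inv_mem hφ, _, h1.inv, fun l hl => ?_⟩
    exact ⟨inv_of_fix φ (h2 l hl).1, inv_of_fix φ (h2 l hl).2⟩
  have hne : ∀ {l j : Fin g}, (l : ℕ) < j → l ≠ j := by
    rintro l j h rfl
    exact lt_irrefl _ h
  have ht : ∀ j : Fin g, (i : ℕ) < j → ∃ φ ∈ MCG g n, ∃ z, Sch (Gs n i) (dl i) (tw i j) φ z ∧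
      ∀ l : Fin g, (l : ℕ) < i → φ (ga l) = ga l ∧ φ (gb l) = gb l := by
    intro j h
    refine ⟨Pb i j h, Pb_mem h, _, sch_b h, fun l hl => ?_⟩
    exact ⟨Pb_a' h (hne hl) (hne (hl.trans h)), Pb_b' h (hne hl) (hne (hl.trans h))⟩
  have hs : ∀ j : Fin g, (i : ℕ) < j → ∃ φ ∈ MCG g n, ∃ z, Sch (Gs n i) (dl i) (sw i j)⁻¹ φ z ∧
      ∀ l : Fin g, (l : ℕ) < i → φ (ga l) = ga l ∧ φ (gb l) = gb l := by
    intro j h
    refine ⟨rr j * Pb i j h * (rr j)⁻¹, (MCG g n).mul_mem ((MCG g n).mul_mem (rr_mem j)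
      (Pb_mem h)) ((MCG g n).inv_mem (rr_mem j)), _, sch_a h, fun l hl => ?_⟩
    have h1 : l ≠ i := hne hl
    have h2 : l ≠ j := hne (hl.trans h)
    constructor
    · rw [MulAut.mul_apply, MulAut.mul_apply, rri_a' h2, Pb_a' h h1 h2, rr_a' h2]
    · rw [MulAut.mul_apply, MulAut.mul_apply, rri_b' h2, Pb_b' h h1 h2, rr_b' h2]
  have hc : ∀ j : Fin n, ∃ φ ∈ MCG g n, ∃ z, Sch (Gs n i) (dl i) (sc i j) φ z ∧
      ∀ l : Fin g, (l : ℕ) < i → φ (ga l) = ga l ∧ φ (gb l) = gb l := by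
    intro j
    refine ⟨Pc i j, Pc_mem i j, _, sch_c i j, fun l hl => ?_⟩
    exact ⟨Pc_a' i j (hne hl), Pc_b' i j (hne hl)⟩
  rcases hp with ⟨j, h, rfl | rfl | rfl | rfl⟩ | ⟨j, rfl | rfl⟩
  · have h1 := inv _ (hs j h)
    rwa [inv_inv] at h1
  · exact hs j h
  · exact ht j h
  · exact inv _ (ht j h)
  · exact hc j
  · exact inv _ (hc j)

/-- The subgroup generated by the images of `dl o` under the mapping classes which fix the handle `z`. -/
def SS (n : ℕ) (z o : Fin g) : Subgroup (F g n) :=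
  Subgroup.closure {x | ∃ φ ∈ MCG g n, φ (ga z) = ga z ∧ φ (gb z) = gb z ∧ x = φ (dl o)}

/-- Paper, 8.1. -/
theorem ss_conj {z o : Fin g} (hz : (z : ℕ) = 0) (ho : (o : ℕ) = 1) {w : F g n}
    (hw : w ∈ Fge g n 2) : w * dl o * w⁻¹ ∈ SS n z o := by
  have hzo : (z : ℕ) < o := by omega
  apply triangular (SS n z o) (Gs := Gs n o)
  · exact Subgroup.subset_closure ⟨1, (MCG g n).one_mem, rfl, rfl, rfl⟩
  · intro p hp
    obtain ⟨φ, hφ, z', h1, h2⟩ := sch_all o hp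
    refine ⟨φ, z', h1, fun x hx => ?_⟩
    obtain ⟨ha, hb⟩ := h2 z hzo
    have h3 : SS n z o ≤ (SS n z o).comap φ.toMonoidHom := by
      conv_lhs => rw [SS]
      rw [Subgroup.closure_le]
      rintro y ⟨ψ, hψ, h4, h5, rfl⟩
      show φ (ψ (dl o)) ∈ SS n z o
      refine Subgroup.subset_closure ⟨φ * ψ, (MCG g n).mul_mem hφ hψ, ?_, ?_, rfl⟩
      · rw [MulAut.mul_apply, h4, ha]
      · rw [MulAut.mul_apply, h5, hb]
    exact h3 hx
  · apply mem_closure_Gs
    rw [ho]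
    exact hw

/-- The Claim, from the statement for all the lassos `φ (dl o)`. -/
theorem claim_of {k V : Type} [Field k] [AddCommGroup V] [Module k V] {S : Sys g n k V}
    {l : V →ₗ[k] k} {χ : F g n → k} (h : Eig S l χ) {z o : Fin g} (hz : (z : ℕ) = 0)
    (ho : (o : ℕ) = 1) (h1 : χ (dl o) ≠ 1) {κ : k}
    (hκ : ∀ φ ∈ MCG g n, φ (ga z) = ga z → φ (gb z) = gb z → Fx S l χ κ (φ (dl o))) {d : F g n}
    (hd : d ∈ ⁅Fge g n 2, Fge g n 2⁆) : Fx S l χ κ d := by
  have hdD : d ∈ DD g n := comm_le _ hd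
  have hdF : d ∈ Fge g n 2 := by
    have h2 : ⁅Fge g n 2, Fge g n 2⁆ ≤ Fge g n 2 := by
      rw [Subgroup.commutator_le]
      intro x hx y hy
      exact (Fge g n 2).mul_mem ((Fge g n 2).mul_mem ((Fge g n 2).mul_mem hx hy)
        ((Fge g n 2).inv_mem hx)) ((Fge g n 2).inv_mem hy)
    exact h2 hd
  have hle : SS n z o ≤ h.fix κ := by
    rw [SS, Subgroup.closure_le]
    rintro y ⟨φ, hφ, h4, h5, rfl⟩
    exact ⟨map_aut_mem _ (dl_mem o), hκ φ hφ h4 h5⟩
  have h2 : Fx S l χ κ (d * dl o * d⁻¹) := (hle (ss_conj hz ho hdF)).2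
  have h3 : Fx S l χ κ (dl o) := hκ 1 (MCG g n).one_mem rfl rfl
  have h4 := h.c_mul hdD (dl o)
  have h5 := h.c_mul ((DD g n).mul_mem hdD (dl_mem o)) d⁻¹
  have h6 := h.c_inv hdD
  have h7 := h.mul hdD (dl_mem (n := n) o)
  have h8 := h.cj_D hdD (dl_mem (n := n) o)
  unfold Fx at h2 h3 ⊢
  rw [h5, h4, h7, h8, h3] at h2
  have h9 : (1 - χ (dl o)) * (l (S.v d) - (1 - χ d) * κ) = 0 := by
    linear_combination h2 - χ (dl o) * h6
  rcases mul_eq_zero.mp h9 with h10 | h10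
  · exact absurd (sub_eq_zero.mp h10).symm h1
  · exact sub_eq_zero.mp h10

end Pool.Agent.PWM
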