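import Pool.Agent.PWM.Bas

/-!
# Pushing a handle around a handle or a marked point (paper, 3: P, Pc)

`tw i j = mid b_j mid⁻¹`, `sw i j = mid a_j mid⁻¹`, `sc i j = midc c_j midc⁻¹` are in PW/Autos.
-/

namespace Pool.Agent.PWM

open Pool.Agent.PW

variable {g n : ℕ}

/-- `x = mid⁻¹ δ_i mid` -/
def px (i j : Fin g) : F g n := (mid g n i j)⁻¹ * dl i * mid g n i j

/-- `y = b_j x b_j⁻¹` -/
def py (i j : Fin g) : F g n := gb j * px i j * (gb j)⁻¹

/-- `Y = b_j' δ_i b_j'⁻¹` -/
def pY (i j : Fin g) : F g n := tw i j * dl i * (tw i j)⁻¹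

/-- Push of the handle `i` around `b j`. -/
def pbh (i j : Fin g) : F g n →* F g n :=
  FreeGroup.lift fun x =>
    if x = Gen.a i then tw i j * ga i * (tw i j)⁻¹
    else if x = Gen.b i then tw i j * gb i * (tw i j)⁻¹
    else if x = Gen.a j then (py i j)⁻¹ * px i j * ga j * py i j
    else if x = Gen.b j then (py i j)⁻¹ * gb j * py i j
    else FreeGroup.of x

/-- The inverse. -/
def pbi (i j : Fin g) : F g n →* F g n :=
  FreeGroup.lift fun x =>
    if x = Gen.a i then (dl i * (tw i j)⁻¹ * (dl i)⁻¹) * ga i * (dl i * (tw i j)⁻¹ * (dl i)⁻¹)⁻¹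
    else if x = Gen.b i then
      (dl i * (tw i j)⁻¹ * (dl i)⁻¹) * gb i * (dl i * (tw i j)⁻¹ * (dl i)⁻¹)⁻¹
    else if x = Gen.a j then px i j * (gb j)⁻¹ * (px i j)⁻¹ * gb j * ga j * (px i j)⁻¹
    else if x = Gen.b j then px i j * gb j * (px i j)⁻¹
    else FreeGroup.of x

/-! Values of the homomorphisms. -/

theorem far_ne {i j : Fin g} (h : (i : ℕ) < j) : j ≠ i := by
  rintro rfl
  omega

theorem pbh_ai {i j : Fin g} :
    pbh (n := n) i j (ga i) = tw i j * ga i * (tw i j)⁻¹ := by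
  simp [pbh, ga]

theorem pbh_bi {i j : Fin g} :
    pbh (n := n) i j (gb i) = tw i j * gb i * (tw i j)⁻¹ := by
  simp [pbh, gb]

theorem pbh_aj {i j : Fin g} (h : (i : ℕ) < j) :
    pbh (n := n) i j (ga j) = (py i j)⁻¹ * px i j * ga j * py i j := by
  simp [pbh, ga, far_ne h]

theorem pbh_bj {i j : Fin g} (h : (i : ℕ) < j) :
    pbh (n := n) i j (gb j) = (py i j)⁻¹ * gb j * py i j := by
  simp [pbh, gb, far_ne h]

theorem pbh_a' {i j l : Fin g} (h1 : l ≠ i) (h2 : l ≠ j) : pbh (n := n) i j (ga l) = ga l := by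
  simp [pbh, ga, h1, h2]

theorem pbh_b' {i j l : Fin g} (h1 : l ≠ i) (h2 : l ≠ j) : pbh (n := n) i j (gb l) = gb l := by
  simp [pbh, gb, h1, h2]

theorem pbh_c {i j : Fin g} (l : Fin n) : pbh i j (gc l) = gc l := by
  simp [pbh, gc]

theorem pbi_ai {i j : Fin g} : pbi (n := n) i j (ga i) =
    (dl i * (tw i j)⁻¹ * (dl i)⁻¹) * ga i * (dl i * (tw i j)⁻¹ * (dl i)⁻¹)⁻¹ := by
  simp [pbi, ga]

theorem pbi_bi {i j : Fin g} : pbi (n := n) i j (gb i) =
    (dl i * (tw i j)⁻¹ * (dl i)⁻¹) * gb i * (dl i * (tw i j)⁻¹ * (dl i)⁻¹)⁻¹ := by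
  simp [pbi, gb]

theorem pbi_aj {i j : Fin g} (h : (i : ℕ) < j) : pbi (n := n) i j (ga j) =
    px i j * (gb j)⁻¹ * (px i j)⁻¹ * gb j * ga j * (px i j)⁻¹ := by
  simp [pbi, ga, far_ne h]

theorem pbi_bj {i j : Fin g} (h : (i : ℕ) < j) :
    pbi (n := n) i j (gb j) = px i j * gb j * (px i j)⁻¹ := by
  simp [pbi, gb, far_ne h]

theorem pbi_a' {i j l : Fin g} (h1 : l ≠ i) (h2 : l ≠ j) : pbi (n := n) i j (ga l) = ga l := by
  simp [pbi, ga, h1, h2]

theorem pbi_b' {i j l : Fin g} (h1 : l ≠ i) (h2 : l ≠ j) : pbi (n := n) i j (gb l) = gb l := by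
  simp [pbi, gb, h1, h2]

theorem pbi_c {i j : Fin g} (l : Fin n) : pbi i j (gc l) = gc l := by
  simp [pbi, gc]

theorem pbh_seg {i j : Fin g} {s m : ℕ}
    (h : ∀ l : Fin g, s ≤ l → (l : ℕ) < s + m → l ≠ i ∧ l ≠ j) :
    pbh (n := n) i j (seg g n s m) = seg g n s m := by
  apply seg_congr (ψ := MonoidHom.id _)
  intro l h1 h2
  exact ⟨pbh_a' (h l h1 h2).1 (h l h1 h2).2, pbh_b' (h l h1 h2).1 (h l h1 h2).2⟩

theorem pbi_seg {i j : Fin g} {s m : ℕ}
    (h : ∀ l : Fin g, s ≤ l → (l : ℕ) < s + m → l ≠ i ∧ l ≠ j) :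
    pbi (n := n) i j (seg g n s m) = seg g n s m := by
  apply seg_congr (ψ := MonoidHom.id _)
  intro l h1 h2
  exact ⟨pbi_a' (h l h1 h2).1 (h l h1 h2).2, pbi_b' (h l h1 h2).1 (h l h1 h2).2⟩

theorem far_mid {i j l : Fin g} (h1 : (i : ℕ) + 1 ≤ l) (h2 : (l : ℕ) < i + 1 + (j - i - 1)) :
    l ≠ i ∧ l ≠ j := by
  constructor <;> · rintro rfl; omega

theorem pbh_mid (i j : Fin g) : pbh (n := n) i j (mid g n i j) = mid g n i j :=
  pbh_seg fun _ h1 h2 => far_mid h1 h2

theorem pbi_mid (i j : Fin g) : pbi (n := n) i j (mid g n i j) = mid g n i j :=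
  pbi_seg fun _ h1 h2 => far_mid h1 h2

theorem pbh_dl (i j : Fin g) : pbh (n := n) i j (dl i) = pY i j := by
  rw [map_dl, pbh_ai, pbh_bi, pY, dl]
  generalize (tw i j : F g n) = t
  unfold cm
  group

theorem pbi_dl (i j : Fin g) : pbi (n := n) i j (dl i) =
    (dl i * (tw i j)⁻¹ * (dl i)⁻¹) * dl i * (dl i * (tw i j)⁻¹ * (dl i)⁻¹)⁻¹ := by
  rw [map_dl, pbi_ai, pbi_bi]
  generalize (dl i * (tw i j)⁻¹ * (dl i)⁻¹ : F g n) = t
  rw [dl]
  unfold cm
  group

theorem pbh_px (i j : Fin g) : pbh (n := n) i j (px i j) = py i j := by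
  simp only [px, map_mul, map_inv, pbh_mid, pbh_dl, pY, py, tw]
  group

theorem pbi_px {i j : Fin g} : pbi (n := n) i j (px i j) =
    px i j * (gb j)⁻¹ * px i j * gb j * (px i j)⁻¹ := by
  simp only [px, map_mul, map_inv, pbi_mid, pbi_dl, tw]
  group

theorem pbh_py {i j : Fin g} (h : (i : ℕ) < j) : pbh (n := n) i j (py i j) =
    (py i j)⁻¹ * gb j * py i j * (gb j)⁻¹ * py i j := by
  have h1 : pbh (n := n) i j (py i j) = pbh i j (gb j) * pbh i j (px i j) * (pbh i j (gb j))⁻¹ := by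
    rw [py]
    simp only [map_mul, map_inv]
  rw [h1, pbh_bj h, pbh_px]
  group

theorem pbi_py {i j : Fin g} (h : (i : ℕ) < j) : pbi (n := n) i j (py i j) = px i j := by
  have h1 : pbi (n := n) i j (py i j) = pbi i j (gb j) * pbi i j (px i j) * (pbi i j (gb j))⁻¹ := by
    rw [py]
    simp only [map_mul, map_inv]
  rw [h1, pbi_bj h, pbi_px]
  group

theorem pbh_tw {i j : Fin g} (h : (i : ℕ) < j) : pbh (n := n) i j (tw i j) =
    (pY i j)⁻¹ * tw i j * pY i j := by
  have h1 : pbh (n := n) i j (tw i j) = mid g n i j * pbh i j (gb j) * (mid g n i j)⁻¹ := by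
    rw [tw]
    simp only [map_mul, map_inv, pbh_mid]
  rw [h1, pbh_bj h, pY, tw, py, px]
  group

theorem pbi_tw {i j : Fin g} (h : (i : ℕ) < j) : pbi (n := n) i j (tw i j) =
    dl i * tw i j * (dl i)⁻¹ := by
  have h1 : pbi (n := n) i j (tw i j) = mid g n i j * pbi i j (gb j) * (mid g n i j)⁻¹ := by
    rw [tw]
    simp only [map_mul, map_inv, pbi_mid]
  rw [h1, pbi_bj h, tw, px]
  group

theorem pbi_comp_pbh {i j : Fin g} (h : (i : ℕ) < j) :
    (pbi (n := n) i j).comp (pbh i j) = MonoidHom.id _ := by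
  apply hom_ext
  · intro l
    rw [MonoidHom.comp_apply, MonoidHom.id_apply]
    by_cases h1 : l = i
    · subst h1
      rw [pbh_ai]
      simp only [map_mul, map_inv, pbi_tw h, pbi_ai]
      group
    · by_cases h2 : l = j
      · subst h2
        rw [pbh_aj h]
        simp only [map_mul, map_inv, pbi_py h, pbi_px, pbi_aj h]
        group
      · rw [pbh_a' h1 h2, pbi_a' h1 h2]
  · intro l
    rw [MonoidHom.comp_apply, MonoidHom.id_apply]
    by_cases h1 : l = i
    · subst h1
      rw [pbh_bi]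
      simp only [map_mul, map_inv, pbi_tw h, pbi_bi]
      group
    · by_cases h2 : l = j
      · subst h2
        rw [pbh_bj h]
        simp only [map_mul, map_inv, pbi_py h, pbi_bj h]
        group
      · rw [pbh_b' h1 h2, pbi_b' h1 h2]
  · intro l
    rw [MonoidHom.comp_apply, MonoidHom.id_apply, pbh_c, pbi_c]

theorem pbh_comp_pbi {i j : Fin g} (h : (i : ℕ) < j) :
    (pbh (n := n) i j).comp (pbi i j) = MonoidHom.id _ := by
  apply hom_ext
  · intro l
    rw [MonoidHom.comp_apply, MonoidHom.id_apply]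
    by_cases h1 : l = i
    · subst h1
      rw [pbi_ai]
      simp only [map_mul, map_inv, pbh_tw h, pbh_dl, pbh_ai]
      group
    · by_cases h2 : l = j
      · subst h2
        rw [pbi_aj h]
        simp only [map_mul, map_inv, pbh_px, pbh_bj h, pbh_aj h]
        rw [py]
        group
      · rw [pbi_a' h1 h2, pbh_a' h1 h2]
  · intro l
    rw [MonoidHom.comp_apply, MonoidHom.id_apply]
    by_cases h1 : l = i
    · subst h1
      rw [pbi_bi]
      simp only [map_mul, map_inv, pbh_tw h, pbh_dl, pbh_bi]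
      group
    · by_cases h2 : l = j
      · subst h2
        rw [pbi_bj h]
        simp only [map_mul, map_inv, pbh_px, pbh_bj h]
        group
      · rw [pbi_b' h1 h2, pbh_b' h1 h2]
  · intro l
    rw [MonoidHom.comp_apply, MonoidHom.id_apply, pbi_c, pbh_c]

/-- The push of the handle `i` around `b j`. -/
def Pb (i j : Fin g) (h : (i : ℕ) < j) : MulAut (F g n) := mkAut (pbh i j) (pbi i j)
  (pbi_comp_pbh h) (pbh_comp_pbi h)

theorem Pb_apply {i j : Fin g} (h : (i : ℕ) < j) (x : F g n) : Pb i j h x = pbh i j x := rfl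

theorem pbh_dj {i j : Fin g} (h : (i : ℕ) < j) :
    pbh (n := n) i j (dl j) = (py i j)⁻¹ * px i j * dl j := by
  rw [map_dl, pbh_aj h, pbh_bj h, dl]
  unfold cm
  rw [py]
  group

theorem far_seg_split {i j : Fin g} (h : (i : ℕ) < j) {l : ℕ} (h2 : (j : ℕ) < l) :
    seg g n (i + 1) (l - i - 1) = mid g n i j * dl j * seg g n (j + 1) (l - j - 1) := by
  have e : l - i - 1 = ((j : ℕ) - i - 1) + (1 + (l - j - 1)) := by omega
  rw [e, seg_add, seg_add, seg_one]
  have e2 : (i : ℕ) + 1 + (j - i - 1) = j := by omega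
  rw [e2, hd_fin, mid, dl]
  group

theorem pbh_seg_gt {i j : Fin g} (h : (i : ℕ) < j) {l : ℕ} (h2 : (j : ℕ) < l) :
    pbh (n := n) i j (seg g n (i + 1) (l - i - 1)) =
      (pY i j)⁻¹ * dl i * seg g n (i + 1) (l - i - 1) := by
  rw [far_seg_split h h2]
  have h3 : pbh (n := n) i j (seg g n (j + 1) (l - j - 1)) = seg g n (j + 1) (l - j - 1) := by
    apply pbh_seg
    intro m h4 h5
    constructor <;> · rintro rfl; omega
  simp only [map_mul, pbh_mid, pbh_dj h, h3]
  rw [pY, py, px, tw]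
  group

section

variable {i j : Fin g} (h : (i : ℕ) < j)

theorem Pb_ai : Pb (n := n) i j h (ga i) = tw i j * ga i * (tw i j)⁻¹ := by
  exact pbh_ai

theorem Pb_bi : Pb (n := n) i j h (gb i) = tw i j * gb i * (tw i j)⁻¹ := by
  exact pbh_bi

theorem Pb_di : Pb (n := n) i j h (dl i) = pY i j := by
  exact pbh_dl i j

theorem Pb_aj : Pb (n := n) i j h (ga j) = (py i j)⁻¹ * px i j * ga j * py i j := by
  exact pbh_aj h

theorem Pb_bj : Pb (n := n) i j h (gb j) = (py i j)⁻¹ * gb j * py i j := by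
  exact pbh_bj h

theorem Pb_dj : Pb (n := n) i j h (dl j) = (py i j)⁻¹ * px i j * dl j := by
  exact pbh_dj h

theorem Pb_a' {l : Fin g} (h1 : l ≠ i) (h2 : l ≠ j) : Pb (n := n) i j h (ga l) = ga l := by
  exact pbh_a' h1 h2

theorem Pb_b' {l : Fin g} (h1 : l ≠ i) (h2 : l ≠ j) : Pb (n := n) i j h (gb l) = gb l := by
  exact pbh_b' h1 h2

theorem Pb_c (l : Fin n) : Pb i j h (gc l) = gc l := by
  exact pbh_c (i := i) (j := j) l

theorem Pb_bdry : Pb i j h (bdry g n) = bdry g n := by
  rw [Pb_apply, bdry_split2 i j h]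
  have h1 : pbh (n := n) i j (seg g n 0 i) = seg g n 0 i := by
    apply pbh_seg
    intro l _ hl
    constructor <;> · rintro rfl; omega
  have h2 : pbh (n := n) i j (seg g n (j + 1) (g - j - 1)) = seg g n (j + 1) (g - j - 1) := by
    apply pbh_seg
    intro l hl _
    constructor <;> · rintro rfl; omega
  have h3 : pbh (n := n) i j (cseg g n 0 n) = cseg g n 0 n := by
    apply cseg_congr (ψ := MonoidHom.id _)
    intro l _ _
    exact pbh_c _
  have h4 : pbh (n := n) i j (seg g n (i + 1) (j - i - 1)) = seg g n (i + 1) (j - i - 1) :=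
    pbh_mid i j
  have e1 : (cm (ga i) (gb i) : F g n) = dl i := rfl
  have e2 : (cm (ga j) (gb j) : F g n) = dl j := rfl
  rw [e1, e2]
  simp only [map_mul, h1, h2, h3, h4, pbh_dl, pbh_dj h]
  congr 2
  have e3 : seg g n (i + 1) (j - i - 1) = mid g n i j := rfl
  rw [e3, pY, py, px, tw]
  group

theorem Pb_mem : Pb i j h ∈ MCG g n := by
  exact mem_MCG_of_fix (Pb_bdry h) fun l => by rw [Pb_c]

/-- `Pb` is trivial modulo the commutator subgroup. -/
theorem Pb_cls (x : F g n) : x⁻¹ * Pb i j h x ∈ DD g n := by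
  have e : ((Abelianization.of : F g n →* _).comp (pbh i j)) = Abelianization.of := by
    have hd : (Abelianization.of (dl i : F g n)) = 1 := by
      rw [dl, cm]
      simp only [map_mul, map_inv]
      rw [mul_comm (Abelianization.of (ga i)) (Abelianization.of (gb i))]
      group
    have hx : (Abelianization.of (px i j : F g n)) = 1 := by
      rw [px]
      simp only [map_mul, map_inv, hd]
      group
    have hy : (Abelianization.of (py i j : F g n)) = 1 := by
      rw [py]
      simp only [map_mul, map_inv, hx]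
      group
    apply hom_ext
    · intro l
      rw [MonoidHom.comp_apply]
      by_cases h1 : l = i
      · subst h1
        rw [pbh_ai]
        simp only [map_mul, map_inv]
        rw [mul_comm, ← mul_assoc, inv_mul_cancel, one_mul]
      · by_cases h2 : l = j
        · subst h2
          rw [pbh_aj h]
          simp only [map_mul, map_inv, hx, hy]
          group
        · rw [pbh_a' h1 h2]
    · intro l
      rw [MonoidHom.comp_apply]
      by_cases h1 : l = i
      · subst h1
        rw [pbh_bi]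
        simp only [map_mul, map_inv]
        rw [mul_comm, ← mul_assoc, inv_mul_cancel, one_mul]
      · by_cases h2 : l = j
        · subst h2
          rw [pbh_bj h]
          simp only [map_mul, map_inv, hy]
          group
        · rw [pbh_b' h1 h2]
    · intro l
      rw [MonoidHom.comp_apply, pbh_c]
  have e2 : Abelianization.of (pbh i j x) = Abelianization.of x := DFunLike.congr_fun e x
  exact QuotientGroup.eq.1 e2.symm

/-- between `i` and `j` -/
theorem Pb_sw_lt {l : Fin g} (h1 : (i : ℕ) < l) (h2 : (l : ℕ) < j) :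
    Pb (n := n) i j h (sw i l) = sw i l ∧ Pb (n := n) i j h (tw i l) = tw i l := by
  have hm : pbh (n := n) i j (mid g n i l) = mid g n i l := by
    apply pbh_seg
    intro m h3 h4
    constructor <;> · rintro rfl; omega
  have hl1 : l ≠ i := by
    rintro rfl
    omega
  have hl2 : l ≠ j := by
    rintro rfl
    omega
  constructor
  · rw [Pb_apply, sw]
    simp only [map_mul, map_inv, hm, pbh_a' hl1 hl2]
  · rw [Pb_apply, tw]
    simp only [map_mul, map_inv, hm, pbh_b' hl1 hl2]

theorem Pb_sw : Pb (n := n) i j h (sw i j) = (pY i j)⁻¹ * dl i * sw i j * pY i j := by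
  have h1 : pbh (n := n) i j (sw i j) = mid g n i j * pbh i j (ga j) * (mid g n i j)⁻¹ := by
    rw [sw]
    simp only [map_mul, map_inv, pbh_mid]
  rw [Pb_apply, h1, pbh_aj h, pY, tw, py, px, sw]
  group

theorem Pb_tw : Pb (n := n) i j h (tw i j) = (pY i j)⁻¹ * tw i j * pY i j := by
  exact pbh_tw h

/-- after `j` -/
theorem Pb_sw_gt {l : Fin g} (h2 : (j : ℕ) < l) :
    Pb (n := n) i j h (sw i l) = (pY i j)⁻¹ * dl i * sw i l * (dl i)⁻¹ * pY i j ∧
    Pb (n := n) i j h (tw i l) = (pY i j)⁻¹ * dl i * tw i l * (dl i)⁻¹ * pY i j := by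
  have hm : pbh (n := n) i j (mid g n i l) = (pY i j)⁻¹ * dl i * mid g n i l :=
    pbh_seg_gt h h2
  have hl1 : l ≠ i := by
    rintro rfl
    omega
  have hl2 : l ≠ j := by
    rintro rfl
    omega
  constructor
  · rw [Pb_apply, sw]
    simp only [map_mul, map_inv, hm, pbh_a' hl1 hl2]
    group
  · rw [Pb_apply, tw]
    simp only [map_mul, map_inv, hm, pbh_b' hl1 hl2]
    group

theorem Pb_sc (l : Fin n) :
    Pb i j h (sc i l) = (pY i j)⁻¹ * dl i * sc i l * (dl i)⁻¹ * pY i j := by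
  have hm : pbh (n := n) i j (midc g n i l) = (pY i j)⁻¹ * dl i * midc g n i l := by
    have h3 : pbh (n := n) i j (cseg g n 0 l) = cseg g n 0 l := by
      apply cseg_congr (ψ := MonoidHom.id _)
      intro m _ _
      exact pbh_c _
    rw [midc, map_mul, h3, pbh_seg_gt h j.2]
    group
  rw [Pb_apply, sc]
  simp only [map_mul, map_inv, hm, pbh_c]
  group

end

/-- `x = midc⁻¹ δ_i midc` -/
def cx (i : Fin g) (j : Fin n) : F g n := (midc g n i j)⁻¹ * dl i * midc g n i j

/-- Push of the handle `i` around `c j` (a full twist). -/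
def pch (i : Fin g) (j : Fin n) : F g n →* F g n :=
  FreeGroup.lift fun x =>
    if x = Gen.a i then (dl i * sc i j) * ga i * (dl i * sc i j)⁻¹
    else if x = Gen.b i then (dl i * sc i j) * gb i * (dl i * sc i j)⁻¹
    else if x = Gen.c j then cx i j * gc j * (cx i j)⁻¹
    else FreeGroup.of x

/-- The inverse. -/
def pci (i : Fin g) (j : Fin n) : F g n →* F g n :=
  FreeGroup.lift fun x =>
    if x = Gen.a i then (dl i * sc i j)⁻¹ * ga i * (dl i * sc i j)
    else if x = Gen.b i then (dl i * sc i j)⁻¹ * gb i * (dl i * sc i j)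
    else if x = Gen.c j then (gc j)⁻¹ * (cx i j)⁻¹ * gc j * cx i j * gc j
    else FreeGroup.of x

theorem pch_ai (i : Fin g) (j : Fin n) :
    pch i j (ga i) = (dl i * sc i j) * ga i * (dl i * sc i j)⁻¹ := by
  simp [pch, ga]

theorem pch_bi (i : Fin g) (j : Fin n) :
    pch i j (gb i) = (dl i * sc i j) * gb i * (dl i * sc i j)⁻¹ := by
  simp [pch, gb]

theorem pch_cj (i : Fin g) (j : Fin n) : pch i j (gc j) = cx i j * gc j * (cx i j)⁻¹ := by
  simp [pch, gc]

theorem pch_a' (i : Fin g) (j : Fin n) {l : Fin g} (h : l ≠ i) : pch i j (ga l) = ga l := by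
  simp [pch, ga, h]

theorem pch_b' (i : Fin g) (j : Fin n) {l : Fin g} (h : l ≠ i) : pch i j (gb l) = gb l := by
  simp [pch, gb, h]

theorem pch_c' (i : Fin g) (j : Fin n) {l : Fin n} (h : l ≠ j) : pch i j (gc l) = gc l := by
  simp [pch, gc, h]

theorem pci_ai (i : Fin g) (j : Fin n) :
    pci i j (ga i) = (dl i * sc i j)⁻¹ * ga i * (dl i * sc i j) := by
  simp [pci, ga]

theorem pci_bi (i : Fin g) (j : Fin n) :
    pci i j (gb i) = (dl i * sc i j)⁻¹ * gb i * (dl i * sc i j) := by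
  simp [pci, gb]

theorem pci_cj (i : Fin g) (j : Fin n) :
    pci i j (gc j) = (gc j)⁻¹ * (cx i j)⁻¹ * gc j * cx i j * gc j := by
  simp [pci, gc]

theorem pci_a' (i : Fin g) (j : Fin n) {l : Fin g} (h : l ≠ i) : pci i j (ga l) = ga l := by
  simp [pci, ga, h]

theorem pci_b' (i : Fin g) (j : Fin n) {l : Fin g} (h : l ≠ i) : pci i j (gb l) = gb l := by
  simp [pci, gb, h]

theorem pci_c' (i : Fin g) (j : Fin n) {l : Fin n} (h : l ≠ j) : pci i j (gc l) = gc l := by
  simp [pci, gc, h]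

theorem pch_seg (i : Fin g) (j : Fin n) {s m : ℕ}
    (h : ∀ l : Fin g, s ≤ l → (l : ℕ) < s + m → l ≠ i) :
    pch i j (seg g n s m) = seg g n s m := by
  apply seg_congr (ψ := MonoidHom.id _)
  intro l h1 h2
  exact ⟨pch_a' i j (h l h1 h2), pch_b' i j (h l h1 h2)⟩

theorem pci_seg (i : Fin g) (j : Fin n) {s m : ℕ}
    (h : ∀ l : Fin g, s ≤ l → (l : ℕ) < s + m → l ≠ i) :
    pci i j (seg g n s m) = seg g n s m := by
  apply seg_congr (ψ := MonoidHom.id _)
  intro l h1 h2
  exact ⟨pci_a' i j (h l h1 h2), pci_b' i j (h l h1 h2)⟩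

theorem pch_cseg (i : Fin g) (j : Fin n) {s m : ℕ}
    (h : ∀ l : Fin n, s ≤ l → (l : ℕ) < s + m → l ≠ j) :
    pch i j (cseg g n s m) = cseg g n s m := by
  apply cseg_congr (ψ := MonoidHom.id _)
  intro l h1 h2
  exact pch_c' i j (h l h1 h2)

theorem pci_cseg (i : Fin g) (j : Fin n) {s m : ℕ}
    (h : ∀ l : Fin n, s ≤ l → (l : ℕ) < s + m → l ≠ j) :
    pci i j (cseg g n s m) = cseg g n s m := by
  apply cseg_congr (ψ := MonoidHom.id _)
  intro l h1 h2
  exact pci_c' i j (h l h1 h2)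

theorem pch_mid (i : Fin g) (j : Fin n) : pch i j (midc g n i j) = midc g n i j := by
  rw [midc, map_mul]
  rw [pch_seg i j (fun l h1 _ => by rintro rfl; omega),
    pch_cseg i j (fun l _ h2 => by rintro rfl; omega)]

theorem pci_mid (i : Fin g) (j : Fin n) : pci i j (midc g n i j) = midc g n i j := by
  rw [midc, map_mul]
  rw [pci_seg i j (fun l h1 _ => by rintro rfl; omega),
    pci_cseg i j (fun l _ h2 => by rintro rfl; omega)]

theorem pch_dl (i : Fin g) (j : Fin n) :
    pch i j (dl i) = (dl i * sc i j) * dl i * (dl i * sc i j)⁻¹ := by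
  rw [map_dl, pch_ai, pch_bi]
  generalize (dl i * sc i j : F g n) = t
  rw [dl]
  unfold cm
  group

theorem pci_dl (i : Fin g) (j : Fin n) :
    pci i j (dl i) = (dl i * sc i j)⁻¹ * dl i * (dl i * sc i j) := by
  rw [map_dl, pci_ai, pci_bi]
  generalize (dl i * sc i j : F g n) = t
  rw [dl]
  unfold cm
  group

theorem pch_sc (i : Fin g) (j : Fin n) : pch i j (sc i j) = dl i * sc i j * (dl i)⁻¹ := by
  have h1 : pch i j (sc i j) = midc g n i j * pch i j (gc j) * (midc g n i j)⁻¹ := by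
    rw [sc]
    simp only [map_mul, map_inv, pch_mid]
  rw [h1, pch_cj, cx, sc]
  group

theorem pci_sc (i : Fin g) (j : Fin n) :
    pci i j (sc i j) = (sc i j)⁻¹ * (dl i)⁻¹ * sc i j * dl i * sc i j := by
  have h1 : pci i j (sc i j) = midc g n i j * pci i j (gc j) * (midc g n i j)⁻¹ := by
    rw [sc]
    simp only [map_mul, map_inv, pci_mid]
  rw [h1, pci_cj, cx, sc]
  group

theorem pch_cx (i : Fin g) (j : Fin n) :
    pch i j (cx i j) = cx i j * gc j * cx i j * (gc j)⁻¹ * (cx i j)⁻¹ := by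
  simp only [cx, map_mul, map_inv, pch_mid, pch_dl, sc]
  group

theorem pci_cx (i : Fin g) (j : Fin n) :
    pci i j (cx i j) = (gc j)⁻¹ * cx i j * gc j := by
  simp only [cx, map_mul, map_inv, pci_mid, pci_dl, sc]
  group

theorem pci_comp_pch (i : Fin g) (j : Fin n) :
    (pci i j).comp (pch i j) = MonoidHom.id _ := by
  apply hom_ext
  · intro l
    rw [MonoidHom.comp_apply, MonoidHom.id_apply]
    by_cases h1 : l = i
    · subst h1
      rw [pch_ai]
      simp only [map_mul, map_inv, pci_sc, pci_dl, pci_ai]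
      group
    · rw [pch_a' i j h1, pci_a' i j h1]
  · intro l
    rw [MonoidHom.comp_apply, MonoidHom.id_apply]
    by_cases h1 : l = i
    · subst h1
      rw [pch_bi]
      simp only [map_mul, map_inv, pci_sc, pci_dl, pci_bi]
      group
    · rw [pch_b' i j h1, pci_b' i j h1]
  · intro l
    rw [MonoidHom.comp_apply, MonoidHom.id_apply]
    by_cases h1 : l = j
    · subst h1
      rw [pch_cj]
      simp only [map_mul, map_inv, pci_cx, pci_cj]
      group
    · rw [pch_c' i j h1, pci_c' i j h1]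

theorem pch_comp_pci (i : Fin g) (j : Fin n) :
    (pch i j).comp (pci i j) = MonoidHom.id _ := by
  apply hom_ext
  · intro l
    rw [MonoidHom.comp_apply, MonoidHom.id_apply]
    by_cases h1 : l = i
    · subst h1
      rw [pci_ai]
      simp only [map_mul, map_inv, pch_sc, pch_dl, pch_ai]
      group
    · rw [pci_a' i j h1, pch_a' i j h1]
  · intro l
    rw [MonoidHom.comp_apply, MonoidHom.id_apply]
    by_cases h1 : l = i
    · subst h1
      rw [pci_bi]
      simp only [map_mul, map_inv, pch_sc, pch_dl, pch_bi]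
      group
    · rw [pci_b' i j h1, pch_b' i j h1]
  · intro l
    rw [MonoidHom.comp_apply, MonoidHom.id_apply]
    by_cases h1 : l = j
    · subst h1
      rw [pci_cj]
      simp only [map_mul, map_inv, pch_cx, pch_cj]
      group
    · rw [pci_c' i j h1, pch_c' i j h1]

/-- The push of the handle `i` around `c j`. -/
def Pc (i : Fin g) (j : Fin n) : MulAut (F g n) := mkAut (pch i j) (pci i j)
  (pci_comp_pch i j) (pch_comp_pci i j)

theorem Pc_apply (i : Fin g) (j : Fin n) (x : F g n) : Pc i j x = pch i j x := rfl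

section

variable (i : Fin g) (j : Fin n)

theorem Pc_ai : Pc i j (ga i) = (dl i * sc i j) * ga i * (dl i * sc i j)⁻¹ := by
  exact pch_ai i j

theorem Pc_bi : Pc i j (gb i) = (dl i * sc i j) * gb i * (dl i * sc i j)⁻¹ := by
  exact pch_bi i j

theorem Pc_di : Pc i j (dl i) = (dl i * sc i j) * dl i * (dl i * sc i j)⁻¹ := by
  exact pch_dl i j

theorem Pc_cj : Pc i j (gc j) = cx i j * gc j * (cx i j)⁻¹ := by
  exact pch_cj i j

theorem Pc_a' {l : Fin g} (h : l ≠ i) : Pc i j (ga l) = ga l := by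
  exact pch_a' i j h

theorem Pc_b' {l : Fin g} (h : l ≠ i) : Pc i j (gb l) = gb l := by
  exact pch_b' i j h

theorem Pc_c' {l : Fin n} (h : l ≠ j) : Pc i j (gc l) = gc l := by
  exact pch_c' i j h

theorem Pc_bdry : Pc i j (bdry g n) = bdry g n := by
  rw [Pc_apply, bdry_split3 i j]
  have h1 : pch i j (seg g n 0 i) = seg g n 0 i := by
    apply pch_seg
    intro l _ hl
    rintro rfl
    omega
  have h2 : pch i j (cseg g n (j + 1) (n - j - 1)) = cseg g n (j + 1) (n - j - 1) := by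
    apply pch_cseg
    intro l hl _
    rintro rfl
    omega
  have e1 : (cm (ga i) (gb i) : F g n) = dl i := rfl
  have e3 : seg g n (i + 1) (g - i - 1) * cseg g n 0 j = midc g n i j := rfl
  rw [e1, e3]
  simp only [map_mul, h1, h2, pch_mid, pch_dl, pch_cj]
  congr 2
  rw [cx, sc]
  group

theorem Pc_mem : Pc i j ∈ MCG g n := by
  refine mem_MCG_of_fix (Pc_bdry i j) fun l => ?_
  by_cases hl : l = j
  · subst hl
    rw [Pc_cj]
    exact (isConj_iff.mpr ⟨_, rfl⟩).symm
  · rw [Pc_c' i j hl]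

theorem Pc_sw {l : Fin g} (h : (i : ℕ) < l) : Pc i j (sw i l) = sw i l ∧ Pc i j (tw i l) = tw i l := by
  have hm : pch i j (mid g n i l) = mid g n i l := by
    apply pch_seg
    intro m h3 h4
    rintro rfl
    omega
  have hl : l ≠ i := by
    rintro rfl
    omega
  constructor
  · rw [Pc_apply, sw]
    simp only [map_mul, map_inv, hm, pch_a' i j hl]
  · rw [Pc_apply, tw]
    simp only [map_mul, map_inv, hm, pch_b' i j hl]

theorem Pc_sc_lt {l : Fin n} (h : (l : ℕ) < j) : Pc i j (sc i l) = sc i l := by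
  have hm : pch i j (midc g n i l) = midc g n i l := by
    have h3 : pch i j (cseg g n 0 l) = cseg g n 0 l := by
      apply pch_cseg
      intro m _ hm
      rintro rfl
      omega
    have h4 : pch i j (seg g n (i + 1) (g - i - 1)) = seg g n (i + 1) (g - i - 1) := by
      apply pch_seg
      intro m hm _
      rintro rfl
      omega
    rw [midc, map_mul, h3, h4]
  have hl : l ≠ j := by
    rintro rfl
    omega
  rw [Pc_apply, sc]
  simp only [map_mul, map_inv, hm, pch_c' i j hl]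

theorem Pc_sc : Pc i j (sc i j) = dl i * sc i j * (dl i)⁻¹ := by
  exact pch_sc i j

/-- after `j` -/
theorem Pc_sc_gt {l : Fin n} (h : (j : ℕ) < l) :
    Pc i j (sc i l) = (dl i * (sc i j * (dl i)⁻¹ * (sc i j)⁻¹)) * sc i l *
      (dl i * (sc i j * (dl i)⁻¹ * (sc i j)⁻¹))⁻¹ := by
  have e0 : midc g n i l = midc g n i j * gc j * cseg g n (j + 1) (l - j - 1) := by
    have e : (l : ℕ) = (j : ℕ) + (1 + (l - j - 1)) := by omega
    have e1 : cseg g n 0 l = cseg g n 0 ((j : ℕ) + (1 + (l - j - 1))) := by rw [← e]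
    rw [midc, e1, cseg_add, cseg_add, cseg_one, Nat.zero_add, pc_fin, midc]
    group
  have h3 : pch i j (cseg g n (j + 1) (l - j - 1)) = cseg g n (j + 1) (l - j - 1) := by
    apply pch_cseg
    intro m hm _
    rintro rfl
    omega
  have hm : pch i j (midc g n i l) =
      dl i * (sc i j * (dl i)⁻¹ * (sc i j)⁻¹) * midc g n i l := by
    rw [e0]
    simp only [map_mul, pch_mid, pch_cj, h3]
    rw [cx, sc]
    group
  have hl : l ≠ j := by
    rintro rfl
    omega
  have h5 : pch i j (sc i l) = pch i j (midc g n i l) * pch i j (gc l) *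
      (pch i j (midc g n i l))⁻¹ := by
    rw [sc]
    simp only [map_mul, map_inv]
  rw [Pc_apply, h5, hm, pch_c' i j hl]
  have h6 : (sc i l : F g n) = midc g n i l * gc l * (midc g n i l)⁻¹ := rfl
  rw [h6]
  group

end

end Pool.Agent.PWM
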