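import Pool.Agent.PWM.StB

/-!
# G2 : flat block: fixed point of F_E

`H = Bk g n 0 2`, `Q = {x ∈ H | ρ x = 1 ∧ v x = 0}`.  `Q` contains `⁅H, H⁆` (G1), and the letters of `H`
have finite order modulo `Q` (kill).  So `H / Q` is a finitely generated commutative torsion group, finite,
and (Fix) gives the fixed point.
-/

namespace Pool.Agent.PWM

open Pool.Agent.PW

/-- A subgroup `Q` of a finitely generated subgroup `H` which contains `⁅H, H⁆` and powers of the
generators of `H` has finite index in `H`. -/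
private theorem G2_relIndex {G : Type*} [Group G] (X : Set G) (hX : X.Finite) (Q : Subgroup G)
    (h1 : ⁅Subgroup.closure X, Subgroup.closure X⁆ ≤ Q)
    (h2 : ∀ x ∈ X, ∃ m : ℕ, 0 < m ∧ x ^ m ∈ Q) : Q.relIndex (Subgroup.closure X) ≠ 0 := by
  set H : Subgroup G := Subgroup.closure X with hH
  have hle : commutator H ≤ Q.subgroupOf H := by
    rw [commutator_def, Subgroup.commutator_le]
    intro a _ b _
    rw [Subgroup.mem_subgroupOf]
    exact h1 (Subgroup.commutator_mem_commutator a.2 b.2)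
  have hN : (Q.subgroupOf H).Normal := Subgroup.Normal.of_commutator_le _ hle
  have hc : IsMulCommutative (H ⧸ Q.subgroupOf H) :=
    Subgroup.Normal.quotient_commutative_iff_commutator_le.mpr hle
  let : CommGroup (H ⧸ Q.subgroupOf H) :=
    { (inferInstance : Group (H ⧸ Q.subgroupOf H)) with
      mul_comm := fun a b => hc.is_comm.comm a b }
  have : Group.FG H := (Group.fg_iff_subgroup_fg H).mpr ((Subgroup.fg_iff H).mpr ⟨X, rfl, hX⟩)
  have : Group.FG (H ⧸ Q.subgroupOf H) := QuotientGroup.fg _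
  have key : ∀ x (hx : x ∈ H), IsOfFinOrder (QuotientGroup.mk ⟨x, hx⟩ : H ⧸ Q.subgroupOf H) := by
    intro x hx
    induction hx using Subgroup.closure_induction with
    | mem x hx =>
      obtain ⟨m, hm, hm'⟩ := h2 x hx
      rw [isOfFinOrder_iff_pow_eq_one]
      refine ⟨m, hm, ?_⟩
      rw [← QuotientGroup.mk_pow, QuotientGroup.eq_one_iff, Subgroup.mem_subgroupOf]
      exact hm'
    | one => exact IsOfFinOrder.one
    | mul x y hx hy h3 h4 => exact h3.mul h4
    | inv x hx h3 => exact h3.inv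
  have ht : IsMulTorsion (H ⧸ Q.subgroupOf H) := by
    intro z
    obtain ⟨x, rfl⟩ := QuotientGroup.mk_surjective z
    exact key x.1 x.2
  have : Finite (H ⧸ Q.subgroupOf H) := CommGroup.finite_of_fg_isMulTorsion _ ht
  unfold Subgroup.relIndex Subgroup.index
  exact Nat.card_pos.ne'

theorem st_G2 (hF : St_Fix) (h1 : St_G1) : St_G2 := by
  intro g n k _ _ V _ _ S hg hd
  have h1' := h1 S hg hd
  -- the subgroup `Q`
  let Q : Subgroup (F g n) :=
    { carrier := {x | x ∈ Bk g n 0 2 ∧ S.ρ x = 1 ∧ S.v x = 0}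
      one_mem' := ⟨Subgroup.one_mem _, map_one _, S.v_one⟩
      mul_mem' := by
        rintro x y ⟨hx, hx1, hx2⟩ ⟨hy, hy1, hy2⟩
        refine ⟨Subgroup.mul_mem _ hx hy, ?_, ?_⟩
        · rw [map_mul, hx1, hy1, one_mul]
        · rw [S.coc, hx2, hy2, map_zero, add_zero]
      inv_mem' := by
        rintro x ⟨hx, hx1, hx2⟩
        have h2 : S.ρ x⁻¹ = 1 := by
          have h3 : S.ρ x⁻¹ * S.ρ x = 1 := by rw [← map_mul, inv_mul_cancel, map_one]
          rwa [hx1, mul_one] at h3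
        refine ⟨Subgroup.inv_mem _ hx, h2, ?_⟩
        rw [S.v_inv, hx2, map_zero, neg_zero] }
  have hQ : ∀ x, x ∈ Q ↔ x ∈ Bk g n 0 2 ∧ S.ρ x = 1 ∧ S.v x = 0 := fun x => Iff.rfl
  have hQH : Q ≤ Bk g n 0 2 := fun x hx => ((hQ x).mp hx).1
  have hC : ⁅Bk g n 0 2, Bk g n 0 2⁆ ≤ Q := by
    intro x hx
    rw [hQ]
    refine ⟨?_, h1' x (Subgroup.subset_normalClosure hx)⟩
    exact (Subgroup.commutator_le.mpr fun a ha b hb => by
      rw [commutatorElement_def]
      exact Subgroup.mul_mem _ (Subgroup.mul_mem _ (Subgroup.mul_mem _ ha hb)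
        (Subgroup.inv_mem _ ha)) (Subgroup.inv_mem _ hb)) hx
  have hfin : ({x : F g n | ∃ i : Fin g, 0 ≤ (i : ℕ) ∧ (i : ℕ) < 0 + 2 ∧
      (x = ga i ∨ x = gb i)}).Finite := by
    refine Set.Finite.subset ((Set.finite_range fun i : Fin g => (ga i : F g n)).union
      (Set.finite_range fun i : Fin g => (gb i : F g n))) ?_
    rintro x ⟨i, -, -, rfl | rfl⟩
    · exact Or.inl ⟨i, rfl⟩
    · exact Or.inr ⟨i, rfl⟩
  have hrel : Q.relIndex (Bk g n 0 2) ≠ 0 := by
    refine G2_relIndex _ hfin Q hC ?_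
    rintro x ⟨i, h0, hi, hx⟩
    obtain ⟨ha, hb, -⟩ := S.kill 1 (Subgroup.one_mem _) i
    rcases hx with rfl | rfl
    · obtain ⟨m, hm, h2, h3⟩ := ha
      exact ⟨m, hm, (hQ _).mpr ⟨Subgroup.pow_mem _ (Bk_a h0 hi) m, h2, h3⟩⟩
    · obtain ⟨m, hm, h2, h3⟩ := hb
      exact ⟨m, hm, (hQ _).mpr ⟨Subgroup.pow_mem _ (Bk_b h0 hi) m, h2, h3⟩⟩
  exact hF S.ρ S.v S.coc (Bk g n 0 2) Q hQH hrel fun x hx => ((hQ x).mp hx).2.2

end Pool.Agent.PWM
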