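import Pool.Agent.PWM.N4

/-!
# Theorem N', end (paper, section 5: N8)

* `Adm.lp_ind`: `L (Lp z o (dl z)) = θ ↔ L (dl z) = θ`.  `←`: `L (Lp (dl z)) = θ - f (ga o) = θ` (`n7`).  `→`: if the index of
  `L` is `o` then `L (Lp (dl o)) = L (cm (gg z)⁻¹ (ga o)) + θ = θ` (`Adm.n7_one`), if it is another handle `i` then
  `Lp (dl i) = dl i`.  `Adm.n7_one`: `L'' = L ∘ Sw z o` has index 0;
  `L (cm (gg z)⁻¹ (ga o)) = L'' (cm (gg o)⁻¹ ((dl o)⁻¹ ga z dl o))`, `(dl o)⁻¹ ga z dl o = cm (dl o)⁻¹ (ga z) * ga z`, `flatp` and `n7a`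
  (`(gg o)⁻¹ ≡ (ga o)⁻¹` mod `D1`, `Adm.f_cls`).
* `Keeps t`: for all admissible `L`: `L (t (dl z)) = θ ↔ L (dl z) = θ`; closed under products and inverses, contains
  `e1 i k`, `e2 i k` (they fix the `dl`), `Lp z o`, so also `psh z o 1 = Lp z o * (e1 z 1)⁻¹`.
* `word_W`: the word `W` keeps the index but `W (dl z) = ga z * dl o * (ga z)⁻¹`, whose value is `0` by `n5`.
-/

namespace Pool.Agent.PWM

open Pool.Agent.PW

variable {h : ℕ} {A : Type*} [AddCommGroup A] {θ : A} {L : F h 0 → A} {z o : Fin h}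

theorem dl_mem_D1 {o : Fin h} (ho : 1 ≤ (o : ℕ)) : (dl o : F h 0) ∈ D1 h :=
  Subgroup.commutator_mem_commutator (Fge_a ho) (Fge_b ho)

theorem Adm.n7_one (hA : Adm θ L) (hh : 4 ≤ h) (hz : (z : ℕ) = 0) (ho : (o : ℕ) = z + 1)
    (h1 : L (dl o) = θ) : L (cm (gg z)⁻¹ (ga o)) = 0 := by
  have hne : o ≠ z := swp_ne ho
  have hSw : Sw (n := 0) z o ho ∈ MCGd h := Sw_bdry ho
  have hB : Adm θ fun x => L (Sw z o ho x) := hA.aut hSw
  have h0 : (fun x => L (Sw z o ho x)) (dl z) = θ := by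
    show L (Sw z o ho (dl z)) = θ
    rw [Sw_dli, hA.hom.cj_D (dl_mem z) (dl_mem o), h1]
  have hD : (dl o : F h 0)⁻¹ ∈ D1 h := Subgroup.inv_mem _ (dl_mem_D1 (by omega))
  have hDD : (dl o : F h 0)⁻¹ ∈ DD h 0 := Subgroup.inv_mem _ (dl_mem o)
  -- the word
  have e1 : cm (gg z)⁻¹ (ga o) =
      Sw z o ho (cm (gg o)⁻¹ (cm (dl o)⁻¹ (ga z) * ga z) : F h 0) := by
    have e2 : (cm (dl o)⁻¹ (ga z) * ga z : F h 0) = (dl o)⁻¹ * ga z * dl o := by
      unfold cm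
      group
    have e3 : Sw z o ho ((dl o)⁻¹ * ga z * dl o : F h 0) = ga o := by
      rw [map_mul, map_mul, map_inv, Sw_dlj, Sw_ai]
      group
    have e4 : Sw z o ho (gg o : F h 0) = gg z := by
      unfold gg
      rw [map_mul, map_mul, map_inv, Sw_aj, Sw_bj]
    rw [e2]
    have e5 : Sw z o ho (cm (gg o)⁻¹ ((dl o)⁻¹ * ga z * dl o) : F h 0) =
        cm (Sw z o ho (gg o)⁻¹) (Sw z o ho ((dl o)⁻¹ * ga z * dl o : F h 0)) :=
      map_cm (Sw z o ho).toMonoidHom _ _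
    rw [e5, map_inv, e3, e4]
  have k1 := hB.hom.cm_dmul_right 1 (gg o)⁻¹ (ga z) (cm_mem (dl o)⁻¹ (ga z))
  have k2 := hB.hom.cm_D_left (1 * (gg o)⁻¹) (ga z) hDD
  have k3 := hB.hom.cm_D_left 1 (ga z) hDD
  have f1 := hB.flatp (by omega) hz h0 (1 * (gg o)⁻¹) hD
  have f2 := hB.flatp (by omega) hz h0 ((1 * (gg o)⁻¹) * ga z) hD
  have f3 := hB.flatp (by omega) hz h0 1 hD
  have f4 := hB.flatp (by omega) hz h0 (1 * ga z) hD
  have k4 := hB.hom.cm_swap 1 (ga z) (gg o)⁻¹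
  have hx : ((ga o : F h 0)⁻¹)⁻¹ * (gg o)⁻¹ ∈ D1 h := by
    rw [inv_inv, ← dl_eq]
    exact dl_mem_D1 (by omega)
  have k5 := hB.f_cls (by omega) hz h0 1 (ga z) hx
  have k6 := hB.n7a hh hz h0 hne (Or.inr (Or.inl rfl) : IsLet o (ga o)⁻¹)
  have k7 : (1 : F h 0) * cm (ga z) (ga o)⁻¹ * 1⁻¹ = cm (ga z) (ga o)⁻¹ := by group
  have k8 : ∀ x : F h 0, 1 * x * 1⁻¹ = x := fun x => by group
  rw [k7, k6] at k5
  rw [k5, neg_zero] at k4
  rw [f1, f2, sub_zero] at k2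
  rw [f3, f4, sub_zero] at k3
  rw [k2, k3, k4, sub_zero, add_zero, k8] at k1
  rw [e1]
  exact k1

theorem Adm.lp_ind (hA : Adm θ L) (hh : 4 ≤ h) (hz : (z : ℕ) = 0) (ho : (o : ℕ) = z + 1)
    (hzo : (z : ℕ) < o) : L (Lp z o hzo (dl z)) = θ ↔ L (dl z) = θ := by
  have hne : o ≠ z := swp_ne ho
  have e : L (Lp z o hzo (dl z)) = L (dl z) - L (cm (gg z)⁻¹ (ga o)) := by
    rw [Lp_dz hzo ho, hA.hom _ (dl_mem z) _ (cm_mem _ _)]
    have k := hA.hom.cm_swap 1 (gg z)⁻¹ (ga o)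
    have k8 : ∀ x : F h 0, 1 * x * 1⁻¹ = x := fun x => by group
    rw [k8, k8] at k
    rw [k, sub_eq_add_neg]
  constructor
  · intro h1
    obtain ⟨i, hi, hj⟩ := hA.one 1 (MCGd h).one_mem
    have hi' : L (dl i) = θ := hi
    by_cases hiz : i = z
    · rw [← hiz]
      exact hi'
    · exfalso
      by_cases hio : i = o
      · rw [hio] at hi'
        have h2 := hA.n7_one hh hz ho hi'
        have h3 : L (dl z) = 0 := hj z (by rw [hio]; exact hne.symm)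
        rw [e, h2, h3, sub_zero] at h1
        exact hA.ne h1.symm
      · have hLp : Lp (n := 0) z o hzo ∈ MCGd h := Lp_bdry hzo
        have hB : Adm θ fun x => L (Lp z o hzo x) := hA.aut hLp
        have h2 : L (Lp z o hzo (dl i)) = 0 := hB.other h1 hiz
        rw [aut_dl, Lp_a' hzo hiz hio, Lp_b' hzo hiz hio] at h2
        have h3 : L (dl i) = 0 := h2
        rw [hi'] at h3
        exact hA.ne h3
  · intro h1
    rw [e, hA.n7 hh hz h1 hne (Or.inl rfl), sub_zero, h1]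

/-- `t` keeps the property that the index is `z` -/
def Keeps (A : Type*) [AddCommGroup A] (θ : A) (z : Fin h) (t : MulAut (F h 0)) : Prop :=
  ∀ L : F h 0 → A, Adm θ L → (L (t (dl z)) = θ ↔ L (dl z) = θ)

theorem Keeps.mul {s t : MulAut (F h 0)} (hs : s ∈ MCGd h) (h1 : Keeps A θ z s) (h2 : Keeps A θ z t) :
    Keeps A θ z (s * t) := by
  intro L hA
  exact (h2 (fun x => L (s x)) (hA.aut hs)).trans (h1 L hA)

theorem Keeps.inv {s : MulAut (F h 0)} (hs : s ∈ MCGd h) (h1 : Keeps A θ z s) :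
    Keeps A θ z s⁻¹ := by
  intro L hA
  have h2 := h1 (fun x => L (s⁻¹ x)) (hA.aut ((MCGd h).inv_mem hs))
  have e : s⁻¹ (s (dl z)) = dl z := by simp
  have h3 : L (s⁻¹ (s (dl z))) = θ ↔ L (s⁻¹ (dl z)) = θ := h2
  rw [e] at h3
  exact h3.symm

theorem Keeps.fix {s : MulAut (F h 0)} (h1 : s (dl z) = dl z) : Keeps A θ z s := by
  intro L _
  rw [h1]

theorem Adm.false (hA : Adm θ L) (hh : 4 ≤ h) : False := by
  obtain ⟨z, hz⟩ : ∃ z : Fin h, (z : ℕ) = 0 := ⟨⟨0, by omega⟩, rfl⟩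
  obtain ⟨o, ho⟩ : ∃ o : Fin h, (o : ℕ) = z + 1 := ⟨⟨z + 1, by omega⟩, rfl⟩
  have hzo : (z : ℕ) < o := by omega
  have hne : o ≠ z := swp_ne ho
  -- the factors
  have m1 : ∀ i : Fin h, (e1 i 1 : MulAut (F h 0)) ∈ MCGd h := fun i => e1_bdry i 1
  have m2 : ∀ i : Fin h, (e2 i 1 : MulAut (F h 0)) ∈ MCGd h := fun i => e2_bdry i 1
  have mL : (Lp z o hzo : MulAut (F h 0)) ∈ MCGd h := Lp_bdry hzo
  have k1 : ∀ i : Fin h, Keeps A θ z (e1 i 1) := fun i => Keeps.fix (e1_dl i z 1)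
  have k2 : ∀ i : Fin h, Keeps A θ z (e2 i 1) := fun i => Keeps.fix (e2_dl i z 1)
  have kL : Keeps A θ z (Lp z o hzo) := fun L hL => hL.lp_ind hh hz ho hzo
  have ep : (psh z o hzo 1 : MulAut (F h 0)) = Lp z o hzo * (e1 z 1)⁻¹ := by
    unfold Lp
    group
  have mP : (psh z o hzo 1 : MulAut (F h 0)) ∈ MCGd h := by
    rw [ep]
    exact (MCGd h).mul_mem mL ((MCGd h).inv_mem (m1 z))
  have kP : Keeps A θ z (psh z o hzo 1) := by
    rw [ep]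
    exact kL.mul mL ((k1 z).inv (m1 z))
  -- the word
  have mP' : (psh z o hzo 1 : MulAut (F h 0))⁻¹ ∈ MCGd h := (MCGd h).inv_mem mP
  have m1' : (e1 z 1 : MulAut (F h 0))⁻¹ ∈ MCGd h := (MCGd h).inv_mem (m1 z)
  have m2' : (e2 o 1 : MulAut (F h 0))⁻¹ ∈ MCGd h := (MCGd h).inv_mem (m2 o)
  have w1 := (kP.inv mP).mul mP' (k2 z)
  have v1 := (MCGd h).mul_mem mP' (m2 z)
  have w2 := w1.mul v1 ((k1 z).inv (m1 z))
  have v2 := (MCGd h).mul_mem v1 m1'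
  have w3 := w2.mul v2 ((k2 o).inv (m2 o))
  have v3 := (MCGd h).mul_mem v2 m2'
  have w4 := w3.mul v3 kP
  have v4 := (MCGd h).mul_mem v3 mP
  have w5 := w4.mul v4 (k2 o)
  have v5 := (MCGd h).mul_mem v4 (m2 o)
  have w6 := w5.mul v5 (k2 z)
  have v6 := (MCGd h).mul_mem v5 (m2 z)
  have w7 := w6.mul v6 kP
  obtain ⟨φ, hφ, h0⟩ := hA.exists_zero hz
  have hB : Adm θ fun x => L (φ x) := hA.aut hφ
  have h1 := (w7 (fun x => L (φ x)) hB).mpr h0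
  rw [word_W ho hzo] at h1
  have h2 := hB.n5 (by omega) o (u := ga z) (away_a hne.symm)
  have h3 : (fun x => L (φ x)) (dl o) = 0 := hB.other h0 hne
  have h4 : L (φ (ga z * dl o * (ga z)⁻¹)) = θ := h1
  have h5 : L (φ (ga z * dl o * (ga z)⁻¹)) = L (φ (dl o)) := h2
  have h6 : L (φ (dl o)) = 0 := h3
  exact hA.ne ((h4.symm.trans h5).trans h6)

/-- Theorem N': a homomorphism which does not vanish on the commutator subgroup has nonzero values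
at two disjoint lassos. -/
theorem Nprime (hh : 4 ≤ h) (hL : DHom L) (hz : (z : ℕ) = 0) (ho : (o : ℕ) = 1) {d : F h 0}
    (hd : d ∈ DD h 0) (hne : L d ≠ 0) : ∃ φ ∈ MCGd h, L (φ (dl z)) ≠ 0 ∧ L (φ (dl o)) ≠ 0 := by
  by_contra hnot
  obtain ⟨θ, hA⟩ := Adm.of_not hL hz ho hd hne hnot
  exact hA.false hh

theorem st_N : St_N := by
  rintro h A _ L z o hh hz ho hL ⟨d, hd, hne⟩
  exact Nprime hh hL hz ho hd hne

end Pool.Agent.PWM
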