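import Pool.Agent.PWM.StB

/-!
# Theorem F and the vanishing of the classes with finite orbit (paper, 1.6 and 9.4)
-/

namespace Pool.Agent.PWM

open Pool.Agent.PW

open scoped commutatorElement

variable {g n : ℕ}

/-- Theorem F from the two cases. -/
theorem st_ThmF (hA : St_CaseA) (hB : St_CaseB) : St_ThmF := by
  intro g n k _ _ V _ _ S l χ hg hl
  by_cases h : ∀ φ ∈ MCG g n, ∀ x, ∀ d ∈ DB g n 0 4, χ (x * φ d * x⁻¹) = 1
  · exact hB S l χ hg hl h
  push Not at h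
  obtain ⟨φ, hφ, x, d0, hd0, h0⟩ := h
  -- the functional `l ∘ ρ x` for the system moved by `φ`
  have h1 : Eig (S.comp hφ) (l ∘ₗ S.ρ x) (fun d => χ (x * φ d * x⁻¹)) := (hl.cj x).comp hφ
  obtain ⟨κ, hκ⟩ := hA (S.comp hφ) (l ∘ₗ S.ρ x) _ hg h1 ⟨d0, hd0, h0⟩
  refine ⟨κ + l (S.v x), fun e he => ?_⟩
  have he' : x⁻¹ * e * x ∈ DD g n := cj_mem' he x
  have h2 := hκ (φ⁻¹ (x⁻¹ * e * x)) (map_aut_mem _ he')
  have e1 : φ (φ⁻¹ (x⁻¹ * e * x)) = x⁻¹ * e * x := by simp
  have h3 : Fx S (l ∘ₗ S.ρ x) (fun d => χ (x * d * x⁻¹)) κ (x⁻¹ * e * x) := by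
    have h4 : (l ∘ₗ S.ρ x) (S.v (φ (φ⁻¹ (x⁻¹ * e * x)))) =
        (1 - χ (x * φ (φ⁻¹ (x⁻¹ * e * x)) * x⁻¹)) * κ := h2
    rw [e1] at h4
    exact h4
  have h5 := (hl.transport x he' (κ + l (S.v x))).mpr (by
    rw [add_sub_cancel_right]
    exact h3)
  have e2 : x * (x⁻¹ * e * x) * x⁻¹ = e := by group
  rwa [e2] at h5

/-- The deck group is metabelian. -/
theorem cm_mem_of_metabelian {K : Subgroup (F g n)}
    (h : derivedSeries (Deck K) 2 = ⊥) {d e : F g n} (hd : d ∈ DD g n) (he : e ∈ DD g n) :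
    cm d e ∈ K.normalCore := by
  have key : ∀ x ∈ DD g n, (x : Deck K) ∈ commutator (Deck K) := by
    intro x hx
    have h1 : (DD g n).map (QuotientGroup.mk' K.normalCore) ≤ commutator (Deck K) := by
      have h2 : DD g n = ⁅(⊤ : Subgroup (F g n)), ⊤⁆ := commutator_def _
      rw [h2, Subgroup.map_commutator, commutator_def]
      exact Subgroup.commutator_mono le_top le_top
    exact h1 ⟨x, hx, rfl⟩
  have h3 : derivedSeries (Deck K) 2 = ⁅commutator (Deck K), commutator (Deck K)⁆ := by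
    rw [derivedSeries_succ, derivedSeries_one]
  rw [← QuotientGroup.eq_one_iff, ← Subgroup.mem_bot, ← h, h3]
  have h4 := Subgroup.commutator_mem_commutator (key d hd) (key e he)
  have h5 : ((cm d e : F g n) : Deck K) = ⁅(d : Deck K), (e : Deck K)⁆ := rfl
  rw [h5]
  exact h4

/-- The theorem. -/
theorem infinite_of_metabelian (hF : St_ThmF) (hI : St_Ind) (hV : St_Van) (hg : 9 ≤ g)
    {K : Subgroup (F g n)} [K.FiniteIndex] (hR : bdry g n ∈ K.normalCore)
    (hm : ∀ d ∈ DD g n, ∀ e ∈ DD g n, cm d e ∈ K.normalCore) {f : K → ℚ} (hf : IsClass K f)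
    (h0 : f ≠ 0) : (orbit K f).Infinite := by
  intro hfin
  obtain ⟨k, _, _, V, _, _, S, h1, h2, h3⟩ := hI K f hf hR hfin hm
  have hzero : ∀ y ∈ K.normalCore, ext0 K f y = 0 := fun y hy =>
    h3 y hy (hV S (fun l χ hl => hF S l χ hg hl) h1 y (h2 y hy))
  have hG := good_of_finite hR hf hfin
  apply h0
  funext x
  obtain ⟨L, hL, hLN⟩ := exists_exp hG.normal hG.fin
  have h1 := hzero _ (hLN (x : F g n))
  have h2 : (x : F g n) ^ L ∈ K := K.pow_mem x.2 L
  rw [ext0_mem h2] at h1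
  have h3 : ∀ m : ℕ, f (x ^ m) = m * f x := by
    have hone : f 1 = 0 := by
      have := hf.add 1 1
      rw [mul_one] at this
      linarith
    intro m
    induction m with
    | zero => simp [hone]
    | succ m ih =>
      rw [pow_succ, hf.add, ih]
      push_cast
      ring
  have h4 : (⟨(x : F g n) ^ L, h2⟩ : K) = x ^ L := rfl
  rw [h4, h3] at h1
  have h5 : (L : ℚ) ≠ 0 := by exact_mod_cast hL.ne'
  rcases mul_eq_zero.mp h1 with h6 | h6
  · exact absurd h6 h5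
  · exact h6

end Pool.Agent.PWM
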