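import Pool.Agent.PWM.CaseA
import Pool.Agent.PWM.CaseB
import Pool.Agent.PWM.Clm
import Pool.Agent.PWM.A
import Pool.Agent.PWM.B0
import Pool.Agent.PWM.C
import Pool.Agent.PWM.Euclid
import Pool.Agent.PWM.Fix
import Pool.Agent.PWM.G1
import Pool.Agent.PWM.G2
import Pool.Agent.PWM.G4
import Pool.Agent.PWM.G5
import Pool.Agent.PWM.G7
import Pool.Agent.PWM.GF
import Pool.Agent.PWM.GFl
import Pool.Agent.PWM.Gen
import Pool.Agent.PWM.GrpC
import Pool.Agent.PWM.GrpR
import Pool.Agent.PWM.IndA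
import Pool.Agent.PWM.IndKill
import Pool.Agent.PWM.IndOrb
import Pool.Agent.PWM.J4
import Pool.Agent.PWM.N5
import Pool.Agent.PWM.PuT
import Pool.Agent.PWM.R
import Pool.Agent.PWM.RC1
import Pool.Agent.PWM.RC2
import Pool.Agent.PWM.RC3
import Pool.Agent.PWM.RN
import Pool.Agent.PWM.Rot0
import Pool.Agent.PWM.RotC
import Pool.Agent.PWM.Sep
import Pool.Agent.PWM.Star
import Pool.Agent.PWM.Swp
import Pool.Agent.PWM.ThmF
import Pool.Agent.PWM.Two
import Pool.Agent.PWM.Van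

/-!
# Assembly
-/

namespace Pool.Agent.PWM

open Pool.Agent.PW

theorem fin_R : St_R := st_R st_RC1 (st_RC2 st_RC1) st_RC3 st_RN

theorem fin_Rot : St_Rot := st_Rot (st_Rot0 fin_R) st_GrpR

theorem fin_G1 : St_G1 := st_G1 st_Blk st_J

theorem fin_G5 : St_G5 := st_G5 st_Blk st_Two st_Sep (st_G4 st_Push fin_G1)

theorem fin_GF : St_GF := st_GF st_Fix (st_G2 st_Fix fin_G1) (st_G7 fin_G1 fin_G5)

theorem fin_GFl : St_GFl := st_GFl fin_G1 fin_GF

theorem fin_C : St_C := st_C st_Blk st_J fin_GFl fin_Rot st_GrpC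

theorem fin_A : St_A := st_A st_Blk st_N (st_Claim fin_C)

theorem fin_ThmF : St_ThmF :=
  st_ThmF (st_CaseA st_Blk st_Euc st_Swap st_Gen fin_A (st_Star fin_A fin_GFl))
    (st_CaseB st_Blk st_Euc st_Gen (st_B0 st_Blk st_J) fin_GFl)

theorem fin_Ind : St_Ind := st_Ind (st_IndKill st_Move) st_IndOrb

/-- The Putman-Wieland property for metabelian deck groups. -/
theorem metabelian {g n : ℕ} (hg : 9 ≤ g) {K : Subgroup (F g n)} [K.FiniteIndex]
    (hR : bdry g n ∈ K.normalCore) (hm : derivedSeries (Deck K) 2 = ⊥) {f : K → ℚ}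
    (hf : IsClass K f) (h0 : f ≠ 0) : (orbit K f).Infinite :=
  infinite_of_metabelian fin_ThmF fin_Ind (st_Van st_Sep) hg hR
    (fun _ hd _ he => cm_mem_of_metabelian hm hd he) hf h0

end Pool.Agent.PWM
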