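import Pool.Agent.PWM.Defs

/-!
# Basic rules (paper, conventions and 1.3)
-/

namespace Pool.Agent.PWM

open Pool.Agent.PW

variable {g n : ℕ}

/-! ### Words -/

theorem cm_mem (x y : F g n) : cm x y ∈ DD g n :=
  Subgroup.commutator_mem_commutator (Subgroup.mem_top x) (Subgroup.mem_top y)

theorem dl_mem (i : Fin g) : dl (n := n) i ∈ DD g n := cm_mem _ _

theorem cj_mem {d : F g n} (hd : d ∈ DD g n) (w : F g n) : w * d * w⁻¹ ∈ DD g n :=
  (inferInstance : (DD g n).Normal).conj_mem d hd w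

theorem cj_mem' {d : F g n} (hd : d ∈ DD g n) (w : F g n) : w⁻¹ * d * w ∈ DD g n := by
  have h := cj_mem hd w⁻¹
  rwa [inv_inv] at h

theorem map_mem {g' n' : ℕ} (φ : F g n →* F g' n') {d : F g n} (hd : d ∈ DD g n) :
    φ d ∈ DD g' n' := by
  have h : (DD g n).map φ ≤ DD g' n' := by
    have h1 : DD g n = ⁅(⊤ : Subgroup (F g n)), ⊤⁆ := commutator_def _
    have h2 : DD g' n' = ⁅(⊤ : Subgroup (F g' n')), ⊤⁆ := commutator_def _
    rw [h1, h2, Subgroup.map_commutator]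
    exact Subgroup.commutator_mono le_top le_top
  exact h ⟨d, hd, rfl⟩

theorem map_aut_mem (φ : MulAut (F g n)) {d : F g n} (hd : d ∈ DD g n) : φ d ∈ DD g n :=
  map_mem φ.toMonoidHom hd

theorem comm_le (H : Subgroup (F g n)) : ⁅H, H⁆ ≤ DD g n := by
  have h2 : DD g n = ⁅(⊤ : Subgroup (F g n)), ⊤⁆ := commutator_def _
  rw [h2]
  exact Subgroup.commutator_mono le_top le_top

theorem mem_MCGd {h : ℕ} {φ : MulAut (F h 0)} : φ ∈ MCGd h ↔ φ (bdry h 0) = bdry h 0 := Iff.rfl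

/-- An automorphism which fixes the boundary word is a mapping class (no marked points). -/
theorem MCGd_le (h : ℕ) : MCGd h ≤ MCG h 0 := by
  intro φ hφ
  have hφ' : φ (bdry h 0) = bdry h 0 := hφ
  exact ⟨by rw [hφ'], fun j => j.elim0⟩

theorem map_dl {G : Type*} [Group G] (φ : F g n →* G) (i : Fin g) :
    φ (dl i) = cm (φ (ga i)) (φ (gb i)) := map_cm φ _ _

theorem aut_dl (φ : MulAut (F g n)) (i : Fin g) : φ (dl i) = cm (φ (ga i)) (φ (gb i)) :=
  map_cm φ.toMonoidHom _ _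

/-! ### Homomorphisms on the commutator subgroup -/

section DHom

variable {A : Type*} [AddCommGroup A] {L : F g n → A}

theorem DHom.map_one (h : DHom L) : L 1 = 0 := by
  have := h 1 (Subgroup.one_mem _) 1 (Subgroup.one_mem _)
  rw [mul_one] at this
  exact left_eq_add.mp this

theorem DHom.map_inv (h : DHom L) {x : F g n} (hx : x ∈ DD g n) : L x⁻¹ = -L x := by
  have := h x hx x⁻¹ (Subgroup.inv_mem _ hx)
  rw [mul_inv_cancel, h.map_one] at this
  exact (neg_eq_of_add_eq_zero_right this.symm).symm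

theorem DHom.comp {g' n' : ℕ} (h : DHom L) (φ : F g' n' →* F g n) : DHom fun x => L (φ x) := by
  intro x hx y hy
  simp only [map_mul]
  exact h _ (map_mem φ hx) _ (map_mem φ hy)

theorem DHom.aut (h : DHom L) (φ : MulAut (F g n)) : DHom fun x => L (φ x) :=
  h.comp φ.toMonoidHom

theorem DHom.cj (h : DHom L) (w : F g n) : DHom fun x => L (w * x * w⁻¹) := by
  intro x hx y hy
  have e : w * (x * y) * w⁻¹ = (w * x * w⁻¹) * (w * y * w⁻¹) := by group
  simp only [e]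
  exact h _ (cj_mem hx w) _ (cj_mem hy w)

theorem DHom.cj_D (h : DHom L) {w d : F g n} (hw : w ∈ DD g n) (hd : d ∈ DD g n) :
    L (w * d * w⁻¹) = L d := by
  rw [h _ (Subgroup.mul_mem _ hw hd) _ (Subgroup.inv_mem _ hw), h _ hw _ hd, h.map_inv hw]
  abel

/-- `L (w d w⁻¹)` depends only on the class of `w`. -/
theorem DHom.cj_eq (h : DHom L) {w w' d : F g n} (hw : w⁻¹ * w' ∈ DD g n) (hd : d ∈ DD g n) :
    L (w * d * w⁻¹) = L (w' * d * w'⁻¹) := by
  have e : w' * d * w'⁻¹ = w * ((w⁻¹ * w') * d * (w⁻¹ * w')⁻¹) * w⁻¹ := by group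
  rw [e]
  exact ((h.cj w).cj_D hw hd).symm

theorem DHom.cj_mul (h : DHom L) (w : F g n) {d e : F g n} (hd : d ∈ DD g n) (he : e ∈ DD g n) :
    L (w * (d * e) * w⁻¹) = L (w * d * w⁻¹) + L (w * e * w⁻¹) := h.cj w d hd e he

theorem DHom.cj_inv (h : DHom L) (w : F g n) {d : F g n} (hd : d ∈ DD g n) :
    L (w * d⁻¹ * w⁻¹) = -L (w * d * w⁻¹) := (h.cj w).map_inv hd

theorem DHom.cm_mul_right (h : DHom L) (w x y z : F g n) :
    L (w * cm x (y * z) * w⁻¹) = L (w * cm x y * w⁻¹) + L ((w * y) * cm x z * (w * y)⁻¹) := by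
  have e : cm x (y * z) = cm x y * (y * cm x z * y⁻¹) := by
    unfold cm
    group
  have e2 : (w * y) * cm x z * (w * y)⁻¹ = w * (y * cm x z * y⁻¹) * w⁻¹ := by group
  rw [e, e2, h.cj_mul w (cm_mem _ _) (cj_mem (cm_mem _ _) _)]

theorem DHom.cm_mul_left (h : DHom L) (w x y z : F g n) :
    L (w * cm (x * y) z * w⁻¹) = L (w * cm x z * w⁻¹) + L ((w * x) * cm y z * (w * x)⁻¹) := by
  have e : cm (x * y) z = (x * cm y z * x⁻¹) * cm x z := by
    unfold cm
    group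
  have e2 : (w * x) * cm y z * (w * x)⁻¹ = w * (x * cm y z * x⁻¹) * w⁻¹ := by group
  rw [e, e2, h.cj_mul w (cj_mem (cm_mem _ _) _) (cm_mem _ _), add_comm]

theorem DHom.cm_inv_right (h : DHom L) (w x y : F g n) :
    L (w * cm x y⁻¹ * w⁻¹) = -L ((w * y⁻¹) * cm x y * (w * y⁻¹)⁻¹) := by
  have e : cm x y⁻¹ = y⁻¹ * (cm x y)⁻¹ * y⁻¹⁻¹ := by
    unfold cm
    group
  have e2 : (w * y⁻¹) * cm x y * (w * y⁻¹)⁻¹ = w * (y⁻¹ * cm x y * y⁻¹⁻¹) * w⁻¹ := by group
  have e3 : y⁻¹ * (cm x y)⁻¹ * y⁻¹⁻¹ = (y⁻¹ * cm x y * y⁻¹⁻¹)⁻¹ := by group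
  rw [e, e2, e3, h.cj_inv w (cj_mem (cm_mem _ _) _)]

theorem DHom.cm_inv_left (h : DHom L) (w x y : F g n) :
    L (w * cm x⁻¹ y * w⁻¹) = -L ((w * x⁻¹) * cm x y * (w * x⁻¹)⁻¹) := by
  have e : cm x⁻¹ y = (x⁻¹ * cm x y * x⁻¹⁻¹)⁻¹ := by
    unfold cm
    group
  have e2 : (w * x⁻¹) * cm x y * (w * x⁻¹)⁻¹ = w * (x⁻¹ * cm x y * x⁻¹⁻¹) * w⁻¹ := by group
  rw [e, e2, h.cj_inv w (cj_mem (cm_mem _ _) _)]

theorem DHom.cm_swap (h : DHom L) (w x y : F g n) :
    L (w * cm y x * w⁻¹) = -L (w * cm x y * w⁻¹) := by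
  have e : cm y x = (cm x y)⁻¹ := by
    unfold cm
    group
  rw [e, h.cj_inv w (cm_mem _ _)]

theorem DHom.cm_D_right (h : DHom L) (w x : F g n) {d : F g n} (hd : d ∈ DD g n) :
    L (w * cm x d * w⁻¹) = L ((w * x) * d * (w * x)⁻¹) - L (w * d * w⁻¹) := by
  have e : cm x d = (x * d * x⁻¹) * d⁻¹ := rfl
  have e2 : (w * x) * d * (w * x)⁻¹ = w * (x * d * x⁻¹) * w⁻¹ := by group
  rw [e, e2, h.cj_mul w (cj_mem hd _) (Subgroup.inv_mem _ hd), h.cj_inv w hd, sub_eq_add_neg]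

theorem DHom.cm_D_left (h : DHom L) (w x : F g n) {d : F g n} (hd : d ∈ DD g n) :
    L (w * cm d x * w⁻¹) = L (w * d * w⁻¹) - L ((w * x) * d * (w * x)⁻¹) := by
  rw [h.cm_swap w x d, h.cm_D_right w x hd]
  abel

/-- `[d x, y]` for `d` in the commutator subgroup. -/
theorem DHom.cm_dmul_left (h : DHom L) (w x y : F g n) {d : F g n} (hd : d ∈ DD g n) :
    L (w * cm (d * x) y * w⁻¹) =
      L (w * d * w⁻¹) - L ((w * y) * d * (w * y)⁻¹) + L (w * cm x y * w⁻¹) := by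
  rw [h.cm_mul_left, h.cm_D_left w y hd]
  congr 1
  apply h.cj_eq _ (cm_mem _ _)
  have e : (w * d)⁻¹ * w = d⁻¹ := by group
  rw [e]
  exact Subgroup.inv_mem _ hd

/-- `[x, d y]` for `d` in the commutator subgroup. -/
theorem DHom.cm_dmul_right (h : DHom L) (w x y : F g n) {d : F g n} (hd : d ∈ DD g n) :
    L (w * cm x (d * y) * w⁻¹) =
      L ((w * x) * d * (w * x)⁻¹) - L (w * d * w⁻¹) + L (w * cm x y * w⁻¹) := by
  rw [h.cm_mul_right, h.cm_D_right w x hd]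
  congr 1
  apply h.cj_eq _ (cm_mem _ _)
  have e : (w * d)⁻¹ * w = d⁻¹ := by group
  rw [e]
  exact Subgroup.inv_mem _ hd

/-- The identity of Hall and Witt. -/
theorem DHom.hall_witt (h : DHom L) (w x y z : F g n) :
    (L ((w * x) * cm y z * (w * x)⁻¹) - L (w * cm y z * w⁻¹)) +
      (L ((w * y) * cm z x * (w * y)⁻¹) - L (w * cm z x * w⁻¹)) +
      (L ((w * z) * cm x y * (w * z)⁻¹) - L (w * cm x y * w⁻¹)) = 0 := by
  have h1 := h.cm_D_right w x (cm_mem y z)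
  have h2 := h.cm_mul_right w x y z
  have h3 := h.cm_mul_right w x z y
  have h4 := h.cm_dmul_right w x (z * y) (cm_mem y z)
  have e : cm y z * (z * y) = y * z := by
    unfold cm
    group
  rw [e] at h4
  have h5 := h.cm_swap (w * y) x z
  have h6 := h.cm_swap w x z
  rw [h5, h6]
  rw [h2, h3] at h4
  have h7 : L ((w * y) * cm x z * (w * y)⁻¹) + L (w * cm x y * w⁻¹) =
      L ((w * x) * cm y z * (w * x)⁻¹) - L (w * cm y z * w⁻¹) +
        (L (w * cm x z * w⁻¹) + L ((w * z) * cm x y * (w * z)⁻¹)) := by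
    rw [← h4]
    abel
  have h8 : L ((w * y) * cm x z * (w * y)⁻¹) =
      L ((w * x) * cm y z * (w * x)⁻¹) - L (w * cm y z * w⁻¹) +
        (L (w * cm x z * w⁻¹) + L ((w * z) * cm x y * (w * z)⁻¹)) - L (w * cm x y * w⁻¹) := by
    rw [← h7]
    abel
  rw [h8]
  abel

end DHom

/-! ### Systems -/

section Sys

variable {k : Type} [Field k] {V : Type} [AddCommGroup V] [Module k V] (S : Sys g n k V)

theorem Sys.v_one : S.v 1 = 0 := by
  have h := S.coc 1 1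
  rw [mul_one, map_one] at h
  exact left_eq_add.mp h

theorem Sys.ρ_inv_mul (x : F g n) (u : V) : S.ρ x⁻¹ (S.ρ x u) = u := by
  rw [← Module.End.mul_apply, ← map_mul, inv_mul_cancel, map_one, Module.End.one_apply]

theorem Sys.ρ_mul_inv (x : F g n) (u : V) : S.ρ x (S.ρ x⁻¹ u) = u := by
  rw [← Module.End.mul_apply, ← map_mul, mul_inv_cancel, map_one, Module.End.one_apply]

theorem Sys.v_inv (x : F g n) : S.v x⁻¹ = -S.ρ x⁻¹ (S.v x) := by
  have h := S.coc x⁻¹ x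
  rw [inv_mul_cancel, S.v_one] at h
  exact eq_neg_of_add_eq_zero_left h.symm

theorem Sys.ρ_v_inv (x : F g n) : S.ρ x (S.v x⁻¹) = -S.v x := by
  rw [S.v_inv, map_neg, S.ρ_mul_inv]

variable {S} {l : V →ₗ[k] k} {χ : F g n → k}

theorem Eig.ex (h : Eig S l χ) : ∃ u, l u ≠ 0 := by
  by_contra hc
  push Not at hc
  exact h.ne (LinearMap.ext hc)

theorem Eig.mul (h : Eig S l χ) {d e : F g n} (hd : d ∈ DD g n) (he : e ∈ DD g n) :
    χ (d * e) = χ d * χ e := by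
  obtain ⟨u, hu⟩ := h.ex
  have h1 := h.eig (d * e) (Subgroup.mul_mem _ hd he) u
  rw [map_mul, Module.End.mul_apply, h.eig d hd, h.eig e he, ← mul_assoc] at h1
  exact (mul_right_cancel₀ hu h1).symm

theorem Eig.one (h : Eig S l χ) : χ 1 = 1 := by
  obtain ⟨u, hu⟩ := h.ex
  have h1 := h.eig 1 (Subgroup.one_mem _) u
  rw [map_one, Module.End.one_apply] at h1
  exact (mul_right_cancel₀ hu (by rw [one_mul]; exact h1)).symm

theorem Eig.inv_mul (h : Eig S l χ) {d : F g n} (hd : d ∈ DD g n) : χ d⁻¹ * χ d = 1 := by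
  rw [← h.mul (Subgroup.inv_mem _ hd) hd, inv_mul_cancel, h.one]

theorem Eig.ne_zero (h : Eig S l χ) {d : F g n} (hd : d ∈ DD g n) : χ d ≠ 0 := by
  intro h0
  have h1 := h.inv_mul hd
  rw [h0, mul_zero] at h1
  exact zero_ne_one h1

theorem Eig.inv (h : Eig S l χ) {d : F g n} (hd : d ∈ DD g n) : χ d⁻¹ = (χ d)⁻¹ :=
  eq_inv_of_mul_eq_one_left (h.inv_mul hd)

theorem Eig.pow (h : Eig S l χ) {d : F g n} (hd : d ∈ DD g n) (m : ℕ) : χ (d ^ m) = χ d ^ m := by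
  induction m with
  | zero => rw [pow_zero, pow_zero, h.one]
  | succ m ih => rw [pow_succ, pow_succ, h.mul (Subgroup.pow_mem _ hd m) hd, ih]

/-- The character only depends on the operator. -/
theorem Eig.of_ρ (h : Eig S l χ) {d e : F g n} (hd : d ∈ DD g n) (he : e ∈ DD g n)
    (hr : S.ρ d = S.ρ e) : χ d = χ e := by
  obtain ⟨u, hu⟩ := h.ex
  have h1 := h.eig d hd u
  rw [hr, h.eig e he] at h1
  exact (mul_right_cancel₀ hu h1).symm

theorem Eig.cj_D (h : Eig S l χ) {x d : F g n} (hx : x ∈ DD g n) (hd : d ∈ DD g n) :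
    χ (x * d * x⁻¹) = χ d := by
  rw [h.mul (Subgroup.mul_mem _ hx hd) (Subgroup.inv_mem _ hx), h.mul hx hd, h.inv hx]
  field_simp [h.ne_zero hx]

theorem Eig.root (h : Eig S l χ) : ∃ N : ℕ, 0 < N ∧ ∀ d ∈ DD g n, χ d ^ N = 1 := by
  obtain ⟨N, ζ, hN, h1, -⟩ := S.roots
  refine ⟨N, hN, fun d hd => ?_⟩
  rw [← h.pow hd]
  obtain ⟨u, hu⟩ := h.ex
  have h2 := h.eig (d ^ N) (Subgroup.pow_mem _ hd N) u
  rw [map_pow, h1, Module.End.one_apply] at h2
  exact (mul_right_cancel₀ hu (by rw [one_mul]; exact h2)).symm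

/-- The functional `l ∘ ρ w`. -/
theorem Eig.cj (h : Eig S l χ) (w : F g n) :
    Eig S (l ∘ₗ S.ρ w) (fun d => χ (w * d * w⁻¹)) := by
  refine ⟨?_, ?_⟩
  · intro h0
    obtain ⟨u, hu⟩ := h.ex
    apply hu
    have h1 := LinearMap.congr_fun h0 (S.ρ w⁻¹ u)
    rw [LinearMap.comp_apply, S.ρ_mul_inv, LinearMap.zero_apply] at h1
    exact h1
  · intro d hd u
    have e : S.ρ w (S.ρ d u) = S.ρ (w * d * w⁻¹) (S.ρ w u) := by
      rw [← Module.End.mul_apply, ← Module.End.mul_apply, ← map_mul, ← map_mul]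
      congr 2
      group
    rw [LinearMap.comp_apply, LinearMap.comp_apply, e, h.eig _ (cj_mem hd w)]

theorem Eig.c_mul (h : Eig S l χ) {d : F g n} (hd : d ∈ DD g n) (x : F g n) :
    l (S.v (d * x)) = l (S.v d) + χ d * l (S.v x) := by
  rw [S.coc, map_add, h.eig d hd]

theorem Eig.c_inv (h : Eig S l χ) {d : F g n} (hd : d ∈ DD g n) :
    χ d * l (S.v d⁻¹) = -l (S.v d) := by
  have h1 := h.c_mul hd d⁻¹
  rw [mul_inv_cancel, S.v_one, map_zero] at h1
  linear_combination -h1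

/-- The value on a conjugate. -/
theorem Eig.c_cj (h : Eig S l χ) (w : F g n) {d : F g n} (hd : d ∈ DD g n) :
    l (S.v (w * d * w⁻¹)) =
      (1 - χ (w * d * w⁻¹)) * l (S.v w) + (l ∘ₗ S.ρ w) (S.v d) := by
  have e1 : S.v (w * d * w⁻¹) = S.v w + S.ρ w (S.v d) + S.ρ (w * d) (S.v w⁻¹) := by
    rw [S.coc, S.coc]
  have e2 : S.ρ (w * d) (S.v w⁻¹) = -S.ρ (w * d * w⁻¹) (S.v w) := by
    have : S.ρ (w * d) (S.v w⁻¹) = S.ρ (w * d * w⁻¹) (S.ρ w (S.v w⁻¹)) := by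
      rw [← Module.End.mul_apply, ← map_mul]
      congr 2
      group
    rw [this, S.ρ_v_inv, map_neg]
  rw [e1, e2, map_add, map_add, map_neg, h.eig _ (cj_mem hd w), LinearMap.comp_apply]
  ring

/-- The subgroup of the elements which fix `κ`. -/
def Eig.fix (h : Eig S l χ) (κ : k) : Subgroup (F g n) where
  carrier := {d | d ∈ DD g n ∧ Fx S l χ κ d}
  one_mem' := ⟨Subgroup.one_mem _, by unfold Fx; rw [S.v_one, map_zero, h.one]; ring⟩
  mul_mem' := by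
    rintro d e ⟨hd, h1⟩ ⟨he, h2⟩
    refine ⟨Subgroup.mul_mem _ hd he, ?_⟩
    unfold Fx at *
    rw [h.c_mul hd, h1, h2, h.mul hd he]
    ring
  inv_mem' := by
    rintro d ⟨hd, h1⟩
    refine ⟨Subgroup.inv_mem _ hd, ?_⟩
    unfold Fx at *
    have h2 := h.c_inv hd
    have h3 := h.inv_mul hd
    have h4 := h.ne_zero hd
    rw [h1] at h2
    have h5 : χ d * l (S.v d⁻¹) = χ d * ((1 - χ d⁻¹) * κ) := by
      rw [h2]
      linear_combination κ * h3
    exact mul_left_cancel₀ h4 h5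

theorem Eig.mem_fix (h : Eig S l χ) {κ : k} {d : F g n} :
    d ∈ h.fix κ ↔ d ∈ DD g n ∧ Fx S l χ κ d := Iff.rfl

/-- Uniqueness of the fixed point (paper, (U)). -/
theorem Fx.unique {κ κ' : k} {d : F g n} (h1 : Fx S l χ κ d) (h2 : Fx S l χ κ' d)
    (h : χ d ≠ 1) : κ = κ' := by
  unfold Fx at *
  rw [h1] at h2
  exact mul_left_cancel₀ (sub_ne_zero.mpr (Ne.symm h)) h2

/-- Transport (paper, (T)). -/
theorem Eig.transport (h : Eig S l χ) (w : F g n) {d : F g n} (hd : d ∈ DD g n) (κ : k) :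
    Fx S l χ κ (w * d * w⁻¹) ↔
      Fx S (l ∘ₗ S.ρ w) (fun d => χ (w * d * w⁻¹)) (κ - l (S.v w)) d := by
  unfold Fx
  rw [h.c_cj w hd]
  constructor
  · intro h1
    linear_combination h1
  · intro h1
    linear_combination h1

/-- If the affine map of `d` has finite order and `χ d = 1` then `c_l(d) = 0`. -/
theorem Eig.zero_of_finOrd [CharZero k] (h : Eig S l χ) {d : F g n} (hd : d ∈ DD g n)
    (hf : FinOrd S.ρ S.v d) (h1 : χ d = 1) : l (S.v d) = 0 := by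
  obtain ⟨m, hm, -, hv⟩ := hf
  have key : ∀ m : ℕ, l (S.v (d ^ m)) = m * l (S.v d) := by
    intro m
    induction m with
    | zero => rw [pow_zero, S.v_one, map_zero]; simp
    | succ m ih =>
      rw [pow_succ, h.c_mul (Subgroup.pow_mem _ hd m), ih, h.pow hd, h1]
      push_cast
      ring
  have h2 := key m
  rw [hv, map_zero] at h2
  have h3 : (m : k) ≠ 0 := by exact_mod_cast hm.ne'
  rcases mul_eq_zero.mp h2.symm with h4 | h4
  · exact absurd h4 h3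
  · exact h4

end Sys

end Pool.Agent.PWM
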