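import Pool.Agent.PW.Orbit

/-!
# Metabelian deck groups: definitions (paper: /team-store/PW_metabelian_paper.md)
-/

namespace Pool.Agent.PWM

open Pool.Agent.PW

variable {g n : ℕ}

/-- The boundary `δ i = [a i, b i]` of the handle `i`. -/
def dl (i : Fin g) : F g n := cm (ga i) (gb i)

/-- The commutator subgroup. -/
abbrev DD (g n : ℕ) : Subgroup (F g n) := commutator (F g n)

/-- The automorphisms of `F h 0` which fix the boundary word. -/
def MCGd (h : ℕ) : Subgroup (MulAut (F h 0)) where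
  carrier := {φ | φ (bdry h 0) = bdry h 0}
  one_mem' := rfl
  mul_mem' := by
    intro φ ψ h1 h2
    show φ (ψ (bdry h 0)) = bdry h 0
    have h1' : φ (bdry h 0) = bdry h 0 := h1
    have h2' : ψ (bdry h 0) = bdry h 0 := h2
    rw [h2', h1']
  inv_mem' := by
    intro φ h1
    have h1' : φ (bdry h 0) = bdry h 0 := h1
    show φ⁻¹ (bdry h 0) = bdry h 0
    conv_lhs => rw [← h1']
    simp

/-- The letters of the handles `i` with `k ≤ i`, and all the `c j`. -/
def Fge (g n k : ℕ) : Subgroup (F g n) :=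
  Subgroup.closure ({x | ∃ i : Fin g, k ≤ (i : ℕ) ∧ (x = ga i ∨ x = gb i)} ∪ {x | ∃ j, x = gc j})

/-- The letters of the handles `i` with `i < k`. -/
def Flt (g n k : ℕ) : Subgroup (F g n) :=
  Subgroup.closure {x | ∃ i : Fin g, (i : ℕ) < k ∧ (x = ga i ∨ x = gb i)}

/-- `L` is a homomorphism on the commutator subgroup. -/
def DHom {A : Type*} [AddCommGroup A] (L : F g n → A) : Prop :=
  ∀ x ∈ DD g n, ∀ y ∈ DD g n, L (x * y) = L x + L y

/-- The affine map of `x` has finite order. -/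
def FinOrd {G : Type*} [Group G] {k V : Type*} [Field k] [AddCommGroup V] [Module k V]
    (ρ : G →* Module.End k V) (v : G → V) (x : G) : Prop :=
  ∃ m : ℕ, 0 < m ∧ ρ (x ^ m) = 1 ∧ v (x ^ m) = 0

/-- Systems (paper, 1.1). -/
structure Sys (g n : ℕ) (k : Type) [Field k] (V : Type) [AddCommGroup V] [Module k V] where
  ρ : F g n →* Module.End k V
  v : F g n → V
  coc : ∀ x y, v (x * y) = v x + ρ x (v y)
  fin : (Set.range ρ).Finite
  roots : ∃ (N : ℕ) (ζ : k), 0 < N ∧ (∀ x, ρ x ^ N = 1) ∧ IsPrimitiveRoot ζ N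
  comm : ∀ d ∈ DD g n, ∀ e ∈ DD g n, ρ d * ρ e = ρ e * ρ d
  bd : ρ (bdry g n) = 1
  kill : ∀ φ ∈ MCG g n, ∀ i : Fin g,
    FinOrd ρ v (φ (ga i)) ∧ FinOrd ρ v (φ (gb i)) ∧ FinOrd ρ v (φ (dl i))
  orb : ∃ S : Set (F g n → V), S.Finite ∧
    ∀ φ ∈ MCG g n, ∃ s ∈ S, ∃ u, ∀ x, v (φ x) = s x + (ρ (φ x) u - u)

/-- `l` is an eigenfunctional of the commutator subgroup with the character `χ` (paper, 1.3). -/
structure Eig {k : Type} [Field k] {V : Type} [AddCommGroup V] [Module k V] (S : Sys g n k V)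
    (l : V →ₗ[k] k) (χ : F g n → k) : Prop where
  ne : l ≠ 0
  eig : ∀ d ∈ DD g n, ∀ u, l (S.ρ d u) = χ d * l u

/-- `d` fixes `κ`: `c_l(d) = (1 - χ d) κ` (paper, 1.3). -/
def Fx {k : Type} [Field k] {V : Type} [AddCommGroup V] [Module k V] (S : Sys g n k V)
    (l : V →ₗ[k] k) (χ : F g n → k) (κ : k) (d : F g n) : Prop :=
  l (S.v d) = (1 - χ d) * κ

/-- The embedding of a block of `h` handles, beginning with the handle `m`. -/
def blk (h g n m : ℕ) (hm : m + h ≤ g) : F h 0 →* F g n :=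
  FreeGroup.lift fun x => match x with
    | Gen.a i => ga ⟨m + i, by omega⟩
    | Gen.b i => gb ⟨m + i, by omega⟩
    | Gen.c j => j.elim0

/-- Groupings (paper, 1.2 d). -/
structure Grp (h n' g n : ℕ) where
  ι : F h n' →* F g n
  e : Fin h → Fin g
  f : Gen g n → Gen h n'
  fa : ∀ y i, f y = Gen.a i ↔ y = Gen.a (e i)
  fb : ∀ y i, f y = Gen.b i ↔ y = Gen.b (e i)
  ιa : ∀ i, ι (ga i) = ga (e i)
  ιb : ∀ i, ι (gb i) = gb (e i)
  ιc : ∀ j, ι (gc j) ∈ Subgroup.closure {x | ∃ y, f y = Gen.c j ∧ x = FreeGroup.of y}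
  bd : IsConj (ι (bdry h n')) (bdry g n)

end Pool.Agent.PWM
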