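import Pool.Agent.PWM.Swp
import Pool.Agent.PWM.Far
import Pool.Agent.PWM.Rot
import Pool.Agent.PWM.Blk

/-!
# Theorem J, part 1 (paper, section 4: the set KK and J1)

`Kil L`: `L` is a homomorphism on the commutator subgroup which kills all the `φ (dl i)`.
* `Kil.mk0`: it is enough for the first handle (`perm_exists` with `s = Equiv.swap z i`: `φ (dl z) = w dl i w⁻¹`,
  `w ∈ DD`; then `DHom.cj_D`).
* `Kil.away_z` (`z` the first handle, `u ∈ away z`): induction on the word `u` (letter added on the right),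
  for all `L` at once: for a letter `c` of the handle `j` there is a push `P` (`Pb z j h`, its inverse, or its
  conjugate by `rr j`) with `P x ≡ x` mod `DD` (`Pb_cls`) and `P (dl z) = c' dl z c'⁻¹`, `c' ≡ c`, so
  `L ((u c) dl z (u c)⁻¹) = (L ∘ P) (u dl z u⁻¹)` by `DHom.cj_eq`.
* `Kil.away`: any handle, by a permutation.
* `Kil.R`: `bdry = ∏ dl i` (`PW.bdry_eq`/`seg`), the handles `≠ z` contribute `0` by `Kil.away`.
-/

namespace Pool.Agent.PWM

open Pool.Agent.PW

variable {h : ℕ} {A : Type*} [AddCommGroup A]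

/-- The set `KK` of paper, section 4. -/
structure Kil (L : F h 0 → A) : Prop where
  hom : DHom L
  kil : ∀ φ ∈ MCGd h, ∀ i, L (φ (dl i)) = 0

theorem Kil.aut {L : F h 0 → A} (hL : Kil L) {φ : MulAut (F h 0)} (hφ : φ ∈ MCGd h) :
    Kil fun x => L (φ x) := by
  refine ⟨hL.hom.aut φ, fun ψ hψ i => ?_⟩
  have h1 := hL.kil (φ * ψ) ((MCGd h).mul_mem hφ hψ) i
  rwa [MulAut.mul_apply] at h1

private theorem j1_cj_dl (w : F h 0) (i : Fin h) :
    w * dl i * w⁻¹ = cm (w * ga i * w⁻¹) (w * gb i * w⁻¹) := by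
  unfold dl cm
  group

theorem Kil.mk0 {L : F h 0 → A} (hL : DHom L) {z : Fin h} (hz : (z : ℕ) = 0)
    (hk : ∀ φ ∈ MCGd h, L (φ (dl z)) = 0) : Kil L := by
  refine ⟨hL, fun φ hφ i => ?_⟩
  obtain ⟨ψ, hψ, h1⟩ := perm_exists (Equiv.swap z i)
  obtain ⟨w, hw, ha, hb⟩ := h1 z
  rw [Equiv.swap_apply_left] at ha hb
  have h2 := hk (φ * ψ) ((MCGd h).mul_mem hφ hψ)
  rw [MulAut.mul_apply, aut_dl ψ, ha, hb, ← j1_cj_dl, map_mul, map_mul, map_inv,
    hL.cj_D (map_aut_mem φ (Dn_le h hw)) (map_aut_mem φ (dl_mem i))] at h2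
  exact h2

/-- `c` is a letter of the handle `i` or its inverse. -/
def IsLet (i : Fin h) (c : F h 0) : Prop := c = ga i ∨ c = (ga i)⁻¹ ∨ c = gb i ∨ c = (gb i)⁻¹

private theorem j1_key {x y : F h 0} :
    x⁻¹ * y ∈ DD h 0 ↔ Abelianization.of x = Abelianization.of y :=
  ⟨fun h => QuotientGroup.eq.mpr h, fun h => QuotientGroup.eq.mp h⟩

/-- The data of `push_let`. -/
private def J1P (z j : Fin h) (c : F h 0) : Prop :=
  ∃ P ∈ MCGd h, (∀ x, x⁻¹ * P x ∈ DD h 0) ∧ (∃ c', c⁻¹ * c' ∈ DD h 0 ∧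
      P (ga z) = c' * ga z * c'⁻¹ ∧ P (gb z) = c' * gb z * c'⁻¹) ∧
      ∀ l, l ≠ z → l ≠ j → P (ga l) = ga l ∧ P (gb l) = gb l

private theorem J1P.inv {z j : Fin h} {c : F h 0} (H : J1P z j c) : J1P z j c⁻¹ := by
  obtain ⟨P, hP, h1, ⟨c', h2, h3, h4⟩, h5⟩ := H
  have h1' : ∀ x, Abelianization.of (P⁻¹ x) = Abelianization.of x := by
    intro x
    have := j1_key.mp (h1 (P⁻¹ x))
    rw [this]
    congr 1
    simp
  refine ⟨P⁻¹, (MCGd h).inv_mem hP, fun x => j1_key.mpr (h1' x).symm,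
    ⟨(P⁻¹ c')⁻¹, ?_, ?_, ?_⟩, ?_⟩
  · rw [j1_key, map_inv, map_inv, h1', ← j1_key.mp h2]
  · apply inv_of_eq
    have e : P (P⁻¹ c') = c' := by simp
    simp only [map_mul, map_inv, h3, e]
    group
  · apply inv_of_eq
    have e : P (P⁻¹ c') = c' := by simp
    simp only [map_mul, map_inv, h4, e]
    group
  · intro l hl1 hl2
    exact ⟨inv_of_fix _ (h5 l hl1 hl2).1, inv_of_fix _ (h5 l hl1 hl2).2⟩

private theorem J1P.rot {z j : Fin h} (hzj : z ≠ j) {c : F h 0} (H : J1P z j c) :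
    J1P z j (rr j c) := by
  obtain ⟨P, hP, h1, ⟨c', h2, h3, h4⟩, h5⟩ := H
  refine ⟨rr j * P * (rr j)⁻¹, (MCGd h).mul_mem ((MCGd h).mul_mem (rr_bdry j) hP)
    ((MCGd h).inv_mem (rr_bdry j)), ?_, ⟨rr j c', ?_, ?_, ?_⟩, ?_⟩
  · intro x
    have e : x⁻¹ * (rr j * P * (rr j)⁻¹ : MulAut (F h 0)) x =
        rr j (((rr j)⁻¹ x)⁻¹ * P ((rr j)⁻¹ x)) := by
      rw [MulAut.mul_apply, MulAut.mul_apply, map_mul, map_inv]
      congr 2
      simp
    rw [e]
    exact map_aut_mem _ (h1 _)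
  · rw [← map_inv, ← map_mul]
    exact map_aut_mem _ h2
  · rw [MulAut.mul_apply, MulAut.mul_apply, rri_a' hzj, h3, map_mul, map_mul, map_inv,
      rr_a' hzj]
  · rw [MulAut.mul_apply, MulAut.mul_apply, rri_b' hzj, h4, map_mul, map_mul, map_inv,
      rr_b' hzj]
  · intro l hl1 hl2
    rw [MulAut.mul_apply, MulAut.mul_apply, rri_a' hl2, MulAut.mul_apply, MulAut.mul_apply,
      rri_b' hl2, (h5 l hl1 hl2).1, (h5 l hl1 hl2).2, rr_a' hl2, rr_b' hl2]
    exact ⟨rfl, rfl⟩

private theorem j1p_gb {z j : Fin h} (hzj : (z : ℕ) < j) : J1P z j (gb j) := by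
  refine ⟨Pb z j hzj, Pb_bdry hzj, Pb_cls hzj, ⟨tw z j, ?_, Pb_ai hzj, Pb_bi hzj⟩, ?_⟩
  · rw [j1_key]
    unfold tw
    rw [map_mul, map_mul, map_inv]
    rw [mul_comm (Abelianization.of (mid h 0 z j)), mul_inv_cancel_right]
  · intro l hl1 hl2
    exact ⟨Pb_a' hzj hl1 hl2, Pb_b' hzj hl1 hl2⟩

/-- For a letter `c` of a later handle there is a push of the handle `z` around `c` (class level). -/
theorem push_let {z j : Fin h} (hzj : (z : ℕ) < j) {c : F h 0} (hc : IsLet j c) :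
    ∃ P ∈ MCGd h, (∀ x, x⁻¹ * P x ∈ DD h 0) ∧ (∃ c', c⁻¹ * c' ∈ DD h 0 ∧
      P (ga z) = c' * ga z * c'⁻¹ ∧ P (gb z) = c' * gb z * c'⁻¹) ∧
      ∀ l, l ≠ z → l ≠ j → P (ga l) = ga l ∧ P (gb l) = gb l := by
  have hne : z ≠ j := by
    rintro rfl
    exact lt_irrefl _ hzj
  have hb : J1P z j (gb j) := j1p_gb hzj
  have ha : J1P z j (ga j)⁻¹ := by
    have := hb.rot hne
    rwa [rr_b] at this
  rcases hc with rfl | rfl | rfl | rfl
  · have := ha.inv
    rwa [inv_inv] at this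
  · exact ha
  · exact hb
  · exact hb.inv

private theorem j1_step {z j : Fin h} (hzj : (z : ℕ) < j) {c : F h 0} (hc : IsLet j c) {x : F h 0}
    (H : ∀ L : F h 0 → A, Kil L → L (x * dl z * x⁻¹) = 0) :
    ∀ L : F h 0 → A, Kil L → L ((x * c) * dl z * (x * c)⁻¹) = 0 := by
  intro L hL
  obtain ⟨P, hP, h1, ⟨c', h2, h3, h4⟩, -⟩ := push_let hzj hc
  have h5 : L (P (x * dl z * x⁻¹)) = 0 := H (fun y => L (P y)) (hL.aut hP)
  rw [map_mul, map_mul, map_inv, aut_dl P, h3, h4, ← j1_cj_dl] at h5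
  rw [hL.hom.cj_eq (w := x * c) (w' := P x * c') ?_ (dl_mem z)]
  · rw [← h5]
    congr 1
    group
  · rw [j1_key, map_mul, map_mul, j1_key.mp h2, j1_key.mp (h1 x)]

/-- (J1), first handle. -/
theorem Kil.away_z {L : F h 0 → A} (hL : Kil L) {z : Fin h} (hz : (z : ℕ) = 0) {u : F h 0}
    (hu : u ∈ away (n := 0) z) : L (u * dl z * u⁻¹) = 0 := by
  have key : ∀ L : F h 0 → A, Kil L → L (u * dl z * u⁻¹) = 0 := by
    have hlt : ∀ j : Fin h, j ≠ z → (z : ℕ) < j := by
      intro j hj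
      rcases Nat.eq_zero_or_pos (j : ℕ) with h0 | h0
      · exact absurd (Fin.ext (h0.trans hz.symm)) hj
      · rw [hz]
        exact h0
    unfold PW.away at hu
    induction hu using Subgroup.closure_induction_right with
    | one =>
      intro L hL
      have := hL.kil 1 (MCGd h).one_mem z
      rw [MulAut.one_apply] at this
      rw [one_mul, inv_one, mul_one, this]
    | mul_right x hx y hy ih =>
      rcases hy with ⟨j, hj, rfl | rfl⟩ | ⟨j, rfl⟩
      · exact j1_step (hlt j hj) (Or.inl rfl) ih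
      · exact j1_step (hlt j hj) (Or.inr (Or.inr (Or.inl rfl))) ih
      · exact j.elim0
    | mul_inv_cancel x hx y hy ih =>
      rcases hy with ⟨j, hj, rfl | rfl⟩ | ⟨j, rfl⟩
      · exact j1_step (hlt j hj) (Or.inr (Or.inl rfl)) ih
      · exact j1_step (hlt j hj) (Or.inr (Or.inr (Or.inr rfl))) ih
      · exact j.elim0
  exact key L hL

/-- (J1) -/
theorem Kil.away {L : F h 0 → A} (hL : Kil L) (i : Fin h) {u : F h 0} (hu : u ∈ PW.away (n := 0) i) :
    L (u * dl i * u⁻¹) = 0 := by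
  have hpos : 0 < h := lt_of_le_of_lt (Nat.zero_le _) i.isLt
  let z : Fin h := ⟨0, hpos⟩
  have hz : (z : ℕ) = 0 := rfl
  let s : Equiv.Perm (Fin h) := Equiv.swap z i
  obtain ⟨φ, hφ, h1⟩ := perm_exists s
  let τ : F h 0 →* F h 0 := FreeGroup.lift fun y => match y with
    | Gen.a l => ga (s l)
    | Gen.b l => gb (s l)
    | Gen.c j => gc j
  have τa : ∀ l : Fin h, τ (ga l) = ga (s l) := by
    intro l
    simp [τ, ga]
  have τb : ∀ l : Fin h, τ (gb l) = gb (s l) := by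
    intro l
    simp [τ, gb]
  have hss : ∀ l, s (s l) = l := fun l => Equiv.swap_apply_self _ _ _
  have hsz : s z = i := Equiv.swap_apply_left _ _
  have hsi : s i = z := Equiv.swap_apply_right _ _
  have hcl : ∀ x, Abelianization.of (φ (τ x)) = Abelianization.of x := by
    have e : ((Abelianization.of : F h 0 →* Abelianization (F h 0)).comp
        (φ.toMonoidHom.comp τ)) = Abelianization.of := by
      apply hom_ext
      · intro l
        show Abelianization.of (φ (τ (ga l))) = _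
        obtain ⟨w, _, ha, _⟩ := h1 (s l)
        rw [τa, ha, hss, map_mul, map_mul, map_inv, mul_comm (Abelianization.of w),
          mul_inv_cancel_right]
      · intro l
        show Abelianization.of (φ (τ (gb l))) = _
        obtain ⟨w, _, _, hb⟩ := h1 (s l)
        rw [τb, hb, hss, map_mul, map_mul, map_inv, mul_comm (Abelianization.of w),
          mul_inv_cancel_right]
      · intro j
        exact j.elim0
    intro x
    exact DFunLike.congr_fun e x
  have hτu : τ u ∈ PW.away (n := 0) z := by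
    have h2 : PW.away (n := 0) i ≤ (PW.away (n := 0) z).comap τ := by
      unfold PW.away
      rw [Subgroup.closure_le]
      have hne : ∀ l, l ≠ i → s l ≠ z := by
        intro l hl hc
        apply hl
        rw [← hsi] at hc
        exact s.injective hc
      rintro x (⟨l, hl, rfl | rfl⟩ | ⟨j, rfl⟩)
      · show τ (ga l) ∈ PW.away (n := 0) z
        rw [τa]
        exact away_a (hne l hl)
      · show τ (gb l) ∈ PW.away (n := 0) z
        rw [τb]
        exact away_b (hne l hl)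
      · exact j.elim0
    exact h2 hu
  have h3 : L (φ (τ u * dl z * (τ u)⁻¹)) = 0 := (hL.aut hφ).away_z hz hτu
  obtain ⟨w, hw, ha, hb⟩ := h1 z
  rw [hsz] at ha hb
  rw [map_mul, map_mul, map_inv, aut_dl φ, ha, hb, ← j1_cj_dl] at h3
  rw [hL.hom.cj_eq (w := u) (w' := φ (τ u) * w) ?_ (dl_mem i)]
  · rw [← h3]
    congr 1
    group
  · rw [j1_key, map_mul, hcl]
    have hw1 : Abelianization.of w = 1 := by
      have h4 : (1 : F h 0)⁻¹ * w ∈ DD h 0 := by
        rw [inv_one, one_mul]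
        exact Dn_le h hw
      have := j1_key.mp h4
      rw [map_one] at this
      exact this.symm
    rw [hw1, mul_one]

/-- (J2), first part. -/
theorem Kil.R {L : F h 0 → A} (hL : Kil L) (z : Fin h) {u : F h 0}
    (hu : u ∈ Subgroup.closure {(ga z : F h 0), gb z}) :
    L (u * bdry h 0 * u⁻¹) = L (u * dl z * u⁻¹) := by
  let E : Subgroup (F h 0) :=
    { carrier := {x | x ∈ DD h 0 ∧ L (u * x * u⁻¹) = 0}
      one_mem' := by
        refine ⟨Subgroup.one_mem _, ?_⟩
        rw [mul_one, mul_inv_cancel, hL.hom.map_one]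
      mul_mem' := by
        rintro x y ⟨hx, h1⟩ ⟨hy, h2⟩
        refine ⟨Subgroup.mul_mem _ hx hy, ?_⟩
        rw [hL.hom.cj_mul u hx hy, h1, h2, add_zero]
      inv_mem' := by
        rintro x ⟨hx, h1⟩
        refine ⟨Subgroup.inv_mem _ hx, ?_⟩
        rw [hL.hom.cj_inv u hx, h1, neg_zero] }
  have hE : ∀ l : Fin h, l ≠ z → cm (ga l) (gb l) ∈ E := by
    intro l hl
    refine ⟨cm_mem _ _, hL.away l ?_⟩
    have h1 : Subgroup.closure {(ga z : F h 0), gb z} ≤ PW.away (n := 0) l := by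
      rw [Subgroup.closure_le]
      rintro x (rfl | hx)
      · exact away_a hl.symm
      · rw [Set.mem_singleton_iff] at hx
        rw [hx]
        exact away_b hl.symm
    exact h1 hu
  have e1 : seg h 0 0 z ∈ E := by
    apply seg_mem'
    intro l _ hl
    apply hE
    rintro rfl
    omega
  have e2 : seg h 0 (z + 1) (h - z - 1) ∈ E := by
    apply seg_mem'
    intro l hl _
    apply hE
    rintro rfl
    omega
  have hd : cm (ga z) (gb z) = (dl z : F h 0) := rfl
  rw [bdry_split z, cseg_zero, mul_one, hd,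
    hL.hom.cj_mul u (Subgroup.mul_mem _ e1.1 (dl_mem z)) e2.1,
    hL.hom.cj_mul u e1.1 (dl_mem z), e1.2, e2.2, zero_add, add_zero]

end Pool.Agent.PWM
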