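import Pool.Agent.PWM.Rot

/-!
# The right push `L` and the left push `L'` (paper, 3)

`Lp z o = psh z o 1 * e1 z 1`, for neighbouring handles `o = z + 1` (then `mid g n z o = 1`, `pw z o = (gg z)⁻¹ ga o`).
`Ll z o`: `a_z ↦ a_z a_o`, `b_z ↦ a_o⁻¹ b_z a_o`, `a_o ↦ ζ a_o ζ⁻¹`, `b_o ↦ b_o a_o⁻¹ b_z⁻¹ a_o`, `ζ = a_o⁻¹ b_z`;
inverse `a_z ↦ a_z ζ⁻¹ a_o⁻¹ ζ`, `b_z ↦ ζ⁻¹ b_z ζ`, `a_o ↦ ζ⁻¹ a_o ζ`, `b_o ↦ b_o b_z`.
-/

namespace Pool.Agent.PWM

open Pool.Agent.PW

variable {g n : ℕ}

/-- The right push. -/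
def Lp (z o : Fin g) (h : (z : ℕ) < o) : MulAut (F g n) := psh z o h 1 * e1 z 1

section

variable {z o : Fin g} (h : (z : ℕ) < o)

theorem Lp_az : Lp (n := n) z o h (ga z) = ga z := by
  unfold Lp
  rw [MulAut.mul_apply, e1_a, psh_apply, ph_ai h]

theorem Lp_bz (ho : (o : ℕ) = z + 1) :
    Lp (n := n) z o h (gb z) = (gg z)⁻¹ * ga o * gb z * ga z := by
  unfold Lp
  rw [MulAut.mul_apply, e1_b, zpow_one, map_mul, psh_apply, psh_apply, ph_ai h, ph_bi, zpow_one,
    pw_one ho]

theorem Lp_ao (ho : (o : ℕ) = z + 1) : Lp (n := n) z o h (ga o) = (gg z)⁻¹ * ga o * gg z := by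
  unfold Lp
  rw [MulAut.mul_apply, e1_a, psh_apply, ph_aj, mid_one ho, sw_one ho, pw_one ho]
  group

theorem ne_of_lt' {z o : Fin g} (h : (z : ℕ) < o) : o ≠ z := by
  rintro rfl
  omega

theorem Lp_bo (ho : (o : ℕ) = z + 1) : Lp (n := n) z o h (gb o) = gb o * gg z := by
  unfold Lp
  rw [MulAut.mul_apply, e1_b' (ne_of_lt' h), psh_apply, ph_bj h, mid_one ho, sw_one ho, tw_one ho,
    pw_one ho]
  group

theorem Lp_a' {l : Fin g} (_hz : l ≠ z) (ho : l ≠ o) : Lp (n := n) z o h (ga l) = ga l := by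
  unfold Lp
  rw [MulAut.mul_apply, e1_a, psh_apply, ph_a' ho]

theorem Lp_b' {l : Fin g} (hz : l ≠ z) (ho : l ≠ o) : Lp (n := n) z o h (gb l) = gb l := by
  unfold Lp
  rw [MulAut.mul_apply, e1_b' hz, psh_apply, ph_b' hz ho]

theorem Lp_c (l : Fin n) : Lp z o h (gc l) = gc l := by
  unfold Lp
  rw [MulAut.mul_apply, e1_c, psh_apply, ph_c]

theorem Lp_dz (ho : (o : ℕ) = z + 1) :
    Lp (n := n) z o h (dl z) = dl z * cm (ga o) (gg z)⁻¹ := by
  rw [aut_dl, Lp_az, Lp_bz h ho]
  unfold dl gg cm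
  group

theorem Lp_do (ho : (o : ℕ) = z + 1) :
    Lp (n := n) z o h (dl o) = cm (gg z)⁻¹ (ga o) * dl o := by
  rw [aut_dl, Lp_ao h ho, Lp_bo h ho]
  unfold dl gg cm
  group

theorem Lp_bdry : Lp z o h (bdry g n) = bdry g n := by
  unfold Lp
  rw [MulAut.mul_apply, e1_bdry, psh_apply, ph_bdry h]

theorem Lp_mem : Lp z o h ∈ MCG g n := (MCG g n).mul_mem (psh_mem h 1) (e1_mem z 1)

/-- Classes modulo the commutator subgroup. -/
theorem cls_iff {x y : F g n} : x⁻¹ * y ∈ DD g n ↔ Abelianization.of x = Abelianization.of y := by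
  constructor
  · intro h
    exact QuotientGroup.eq.mpr h
  · intro h
    exact QuotientGroup.eq.mp h

theorem of_sw (i j : Fin g) : Abelianization.of (sw i j : F g n) = Abelianization.of (ga j) := by
  unfold sw
  rw [map_mul, map_mul, map_inv, mul_inv_cancel_comm]

theorem of_tw (i j : Fin g) : Abelianization.of (tw i j : F g n) = Abelianization.of (gb j) := by
  unfold tw
  rw [map_mul, map_mul, map_inv, mul_inv_cancel_comm]

theorem of_pw (i j : Fin g) : Abelianization.of (pw i j : F g n) =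
    (Abelianization.of (ga i))⁻¹ * Abelianization.of (ga j) := by
  unfold pw
  rw [map_mul, map_mul, map_mul, map_inv, map_inv, mul_inv_cancel_comm, of_sw]

/-- For arbitrary handles: the effect modulo the commutator subgroup. -/
theorem Lp_cls_bz : (gb z * ga o)⁻¹ * Lp (n := n) z o h (gb z) ∈ DD g n := by
  rw [cls_iff]
  unfold Lp
  rw [MulAut.mul_apply, e1_b, zpow_one, psh_apply, map_mul (ph z o 1), ph_ai h, ph_bi, zpow_one]
  simp only [map_mul, of_pw]
  apply Additive.ofMul.injective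
  simp only [ofMul_mul, ofMul_inv]
  abel

theorem Lp_cls_ao : (ga o)⁻¹ * Lp (n := n) z o h (ga o) ∈ DD g n := by
  rw [cls_iff]
  unfold Lp
  rw [MulAut.mul_apply, e1_a, psh_apply, ph_aj]
  simp only [map_mul, map_inv, map_zpow, of_sw]
  apply Additive.ofMul.injective
  simp only [ofMul_mul, ofMul_inv, ofMul_zpow]
  abel

theorem Lp_cls_bo : (gb o * ga z)⁻¹ * Lp (n := n) z o h (gb o) ∈ DD g n := by
  rw [cls_iff]
  unfold Lp
  rw [MulAut.mul_apply, e1_b' (ne_of_lt' h), psh_apply, ph_bj h]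
  simp only [map_mul, map_inv, map_zpow, of_sw, of_tw, of_pw]
  apply Additive.ofMul.injective
  simp only [ofMul_mul, ofMul_inv, ofMul_zpow]
  abel

end

/-- The left push: the homomorphism. -/
def llh (z o : Fin g) : F g n →* F g n :=
  FreeGroup.lift fun x =>
    if x = Gen.a z then ga z * ga o
    else if x = Gen.b z then (ga o)⁻¹ * gb z * ga o
    else if x = Gen.a o then ((ga o)⁻¹ * gb z) * ga o * ((ga o)⁻¹ * gb z)⁻¹
    else if x = Gen.b o then gb o * (ga o)⁻¹ * (gb z)⁻¹ * ga o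
    else FreeGroup.of x

/-- The inverse. -/
def lli (z o : Fin g) : F g n →* F g n :=
  FreeGroup.lift fun x =>
    if x = Gen.a z then ga z * ((ga o)⁻¹ * gb z)⁻¹ * (ga o)⁻¹ * ((ga o)⁻¹ * gb z)
    else if x = Gen.b z then ((ga o)⁻¹ * gb z)⁻¹ * gb z * ((ga o)⁻¹ * gb z)
    else if x = Gen.a o then ((ga o)⁻¹ * gb z)⁻¹ * ga o * ((ga o)⁻¹ * gb z)
    else if x = Gen.b o then gb o * gb z
    else FreeGroup.of x

section

variable {z o : Fin g}

theorem llh_az : llh (n := n) z o (ga z) = ga z * ga o := by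
  simp [llh, ga]

theorem llh_bz : llh (n := n) z o (gb z) = (ga o)⁻¹ * gb z * ga o := by
  simp [llh, ga, gb]

theorem llh_ao (h : o ≠ z) :
    llh (n := n) z o (ga o) = ((ga o)⁻¹ * gb z) * ga o * ((ga o)⁻¹ * gb z)⁻¹ := by
  simp [llh, ga, gb, h]

theorem llh_bo (h : o ≠ z) : llh (n := n) z o (gb o) = gb o * (ga o)⁻¹ * (gb z)⁻¹ * ga o := by
  simp [llh, ga, gb, h]

theorem llh_a' {l : Fin g} (hz : l ≠ z) (ho : l ≠ o) : llh (n := n) z o (ga l) = ga l := by
  simp [llh, ga, hz, ho]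

theorem llh_b' {l : Fin g} (hz : l ≠ z) (ho : l ≠ o) : llh (n := n) z o (gb l) = gb l := by
  simp [llh, gb, hz, ho]

theorem llh_c (l : Fin n) : llh z o (gc l) = gc l := by
  simp [llh, gc]

theorem lli_az : lli (n := n) z o (ga z) = ga z * ((ga o)⁻¹ * gb z)⁻¹ * (ga o)⁻¹ * ((ga o)⁻¹ * gb z) := by
  simp [lli, ga, gb]

theorem lli_bz : lli (n := n) z o (gb z) = ((ga o)⁻¹ * gb z)⁻¹ * gb z * ((ga o)⁻¹ * gb z) := by
  simp [lli, ga, gb]

theorem lli_ao (h : o ≠ z) :
    lli (n := n) z o (ga o) = ((ga o)⁻¹ * gb z)⁻¹ * ga o * ((ga o)⁻¹ * gb z) := by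
  simp [lli, ga, gb, h]

theorem lli_bo (h : o ≠ z) : lli (n := n) z o (gb o) = gb o * gb z := by
  simp [lli, ga, gb, h]

theorem lli_a' {l : Fin g} (hz : l ≠ z) (ho : l ≠ o) : lli (n := n) z o (ga l) = ga l := by
  simp [lli, ga, hz, ho]

theorem lli_b' {l : Fin g} (hz : l ≠ z) (ho : l ≠ o) : lli (n := n) z o (gb l) = gb l := by
  simp [lli, gb, hz, ho]

theorem lli_c (l : Fin n) : lli z o (gc l) = gc l := by
  simp [lli, gc]

theorem ll_comp1 (h : o ≠ z) : (lli (n := n) z o).comp (llh z o) = MonoidHom.id _ := by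
  apply hom_ext
  · intro m
    by_cases hz : m = z
    · subst hz
      simp only [MonoidHom.comp_apply, MonoidHom.id_apply, llh_az, map_mul, lli_az, lli_ao h]
      group
    · by_cases ho : m = o
      · subst ho
        simp only [MonoidHom.comp_apply, MonoidHom.id_apply, llh_ao h, map_mul, map_inv, lli_bz,
          lli_ao h]
        group
      · simp [llh_a' hz ho, lli_a' hz ho]
  · intro m
    by_cases hz : m = z
    · subst hz
      simp only [MonoidHom.comp_apply, MonoidHom.id_apply, llh_bz, map_mul, map_inv, lli_bz,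
        lli_ao h]
      group
    · by_cases ho : m = o
      · subst ho
        simp only [MonoidHom.comp_apply, MonoidHom.id_apply, llh_bo h, map_mul, map_inv, lli_bz,
          lli_ao h, lli_bo h]
        group
      · simp [llh_b' hz ho, lli_b' hz ho]
  · intro m
    simp [llh_c, lli_c]

theorem ll_comp2 (h : o ≠ z) : (llh (n := n) z o).comp (lli z o) = MonoidHom.id _ := by
  apply hom_ext
  · intro m
    by_cases hz : m = z
    · subst hz
      simp only [MonoidHom.comp_apply, MonoidHom.id_apply, lli_az, map_mul, map_inv, llh_az,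
        llh_ao h, llh_bz]
      group
    · by_cases ho : m = o
      · subst ho
        simp only [MonoidHom.comp_apply, MonoidHom.id_apply, lli_ao h, map_mul, map_inv, llh_bz,
          llh_ao h]
        group
      · simp [llh_a' hz ho, lli_a' hz ho]
  · intro m
    by_cases hz : m = z
    · subst hz
      simp only [MonoidHom.comp_apply, MonoidHom.id_apply, lli_bz, map_mul, map_inv, llh_bz,
        llh_ao h]
      group
    · by_cases ho : m = o
      · subst ho
        simp only [MonoidHom.comp_apply, MonoidHom.id_apply, lli_bo h, map_mul, llh_bz,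
          llh_bo h]
        group
      · simp [llh_b' hz ho, lli_b' hz ho]
  · intro m
    simp [llh_c, lli_c]

end

/-- The left push. -/
def Ll (z o : Fin g) (h : (o : ℕ) = z + 1) : MulAut (F g n) := mkAut (llh z o) (lli z o)
  (ll_comp1 (by rintro rfl; omega)) (ll_comp2 (by rintro rfl; omega))

section

variable {z o : Fin g} (h : (o : ℕ) = z + 1)

theorem ne_of_succ {z o : Fin g} (h : (o : ℕ) = z + 1) : o ≠ z := by
  rintro rfl
  omega

theorem Ll_apply (x : F g n) : Ll z o h x = llh z o x := rfl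

theorem Ll_gg : Ll (n := n) z o h (gg o) = gg o := by
  unfold gg
  rw [Ll_apply, map_mul, map_mul, map_inv, llh_ao (ne_of_succ h), llh_bo (ne_of_succ h)]
  group

theorem Ll_dz : Ll (n := n) z o h (dl z) = dl z * cm (gb z) (ga o)⁻¹ := by
  rw [aut_dl, Ll_apply, Ll_apply, llh_az, llh_bz]
  unfold dl cm
  group

theorem Ll_do : Ll (n := n) z o h (dl o) = cm (ga o)⁻¹ (gb z) * dl o := by
  rw [aut_dl, Ll_apply, Ll_apply, llh_ao (ne_of_succ h), llh_bo (ne_of_succ h)]
  unfold dl cm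
  group

theorem Ll_a' {l : Fin g} (hz : l ≠ z) (ho : l ≠ o) : Ll (n := n) z o h (ga l) = ga l :=
  llh_a' hz ho

theorem Ll_b' {l : Fin g} (hz : l ≠ z) (ho : l ≠ o) : Ll (n := n) z o h (gb l) = gb l :=
  llh_b' hz ho

theorem Ll_c (l : Fin n) : Ll z o h (gc l) = gc l := by
  rw [Ll_apply, llh_c]

theorem Ll_bdry : Ll z o h (bdry g n) = bdry g n := by
  rw [Ll_apply, bdry_split2 z o (by omega)]
  simp only [map_mul]
  have h1 : llh z o (seg g n 0 z) = seg g n 0 z := by
    apply seg_congr (ψ := MonoidHom.id _)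
    intro l _ hl
    have hlz : l ≠ z := by
      rintro rfl
      omega
    have hlo : l ≠ o := by
      rintro rfl
      omega
    exact ⟨llh_a' hlz hlo, llh_b' hlz hlo⟩
  have h2 : llh z o (seg g n (o + 1) (g - o - 1)) = seg g n (o + 1) (g - o - 1) := by
    apply seg_congr (ψ := MonoidHom.id _)
    intro l hl _
    have hlz : l ≠ z := by
      rintro rfl
      omega
    have hlo : l ≠ o := by
      rintro rfl
      omega
    exact ⟨llh_a' hlz hlo, llh_b' hlz hlo⟩
  have h3 : llh z o (cseg g n 0 n) = cseg g n 0 n := by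
    apply cseg_congr (ψ := MonoidHom.id _)
    intro l _ _
    exact llh_c l
  have h4 : seg g n (z + 1) (o - z - 1) = 1 := mid_one h
  have h5 := Ll_dz (n := n) h
  have h6 := Ll_do (n := n) h
  rw [Ll_apply] at h5 h6
  have h7 : llh (n := n) z o (cm (ga z) (gb z)) = cm (ga z) (gb z) * cm (gb z) (ga o)⁻¹ := h5
  have h8 : llh (n := n) z o (cm (ga o) (gb o)) = cm (ga o)⁻¹ (gb z) * cm (ga o) (gb o) := h6
  rw [h1, h2, h3, h4, h7, h8, map_one]
  unfold cm
  group

end

end Pool.Agent.PWM
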