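import Pool.Agent.PWM.J1
import Pool.Agent.PWM.LpDef

/-!
# Theorem J, part 2 (paper, section 4: J2, J3)

`z` is the first handle, `o` the second one.  Write `γ = (gg z)⁻¹`, `a = ga z`.
-/

namespace Pool.Agent.PWM

open Pool.Agent.PW

variable {h : ℕ} {A : Type*} [AddCommGroup A]

theorem aut_cm {g n : ℕ} (φ : MulAut (F g n)) (x y : F g n) : φ (cm x y) = cm (φ x) (φ y) :=
  map_cm φ.toMonoidHom x y

theorem of_dl {g n : ℕ} (i : Fin g) : Abelianization.of (dl i : F g n) = 1 := by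
  have h1 : (1 : F g n)⁻¹ * dl i ∈ DD g n := by
    rw [inv_one, one_mul]
    exact dl_mem i
  rw [← cls_iff.mp h1, map_one]

theorem of_aut {g n : ℕ} (φ : MulAut (F g n)) {x y : F g n}
    (h : Abelianization.of x = Abelianization.of y) :
    Abelianization.of (φ x) = Abelianization.of (φ y) := by
  rw [← cls_iff, ← map_inv, ← map_mul]
  exact map_aut_mem φ (cls_iff.mpr h)

/-- Change of the conjugating element, with classes. -/
theorem DHom.cj_of {g n : ℕ} {L : F g n → A} (h : DHom L) {w w' d : F g n}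
    (hw : Abelianization.of w = Abelianization.of w') (hd : d ∈ DD g n) :
    L (w * d * w⁻¹) = L (w' * d * w'⁻¹) := h.cj_eq (cls_iff.mpr hw) hd

section

variable {L : F h 0 → A} {z o : Fin h}

/-- (J2) -/
theorem Kil.ga_let (hL : Kil L) (hz : (z : ℕ) = 0) (ho : (o : ℕ) = z + 1) (k : ℤ)
    {μ : MulAut (F h 0)} (hμ : μ ∈ MCGd h) (ha : μ (ga z) = ga z) (hb : μ (gb z) = gb z) :
    L (ga z ^ k * cm (gg z)⁻¹ (μ (ga o)) * (ga z ^ k)⁻¹) = 0 := by
  have hzo : (z : ℕ) < o := by omega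
  have base : ∀ M : F h 0 → A, Kil M →
      M (ga z ^ k * cm (gg z)⁻¹ (ga o) * (ga z ^ k)⁻¹) = 0 := by
    intro M hM
    have hmem : (ga z : F h 0) ^ k ∈ Subgroup.closure {(ga z : F h 0), gb z} :=
      Subgroup.zpow_mem _ (Subgroup.subset_closure (by simp)) k
    have h1 : M (Lp z o hzo (ga z ^ k * bdry h 0 * (ga z ^ k)⁻¹)) =
        M (Lp z o hzo (ga z ^ k * dl z * (ga z ^ k)⁻¹)) := (hM.aut (Lp_bdry hzo)).R z hmem
    have h2 := hM.R z hmem
    simp only [map_mul, map_inv, map_zpow, Lp_az, Lp_bdry, Lp_dz hzo ho] at h1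
    rw [h2, hM.hom.cj_mul _ (dl_mem z) (cm_mem _ _)] at h1
    rw [hM.hom.cm_swap, left_eq_add.mp h1, neg_zero]
  have h3 : L (μ (ga z ^ k * cm (gg z)⁻¹ (ga o) * (ga z ^ k)⁻¹)) = 0 := base _ (hL.aut hμ)
  have h4 : μ (gg z) = gg z := by
    unfold gg
    rw [map_mul, map_mul, map_inv, ha, hb]
  rw [map_mul, map_mul, map_inv, map_zpow, aut_cm, map_inv, ha, h4] at h3
  exact h3

/-- (J2), end -/
theorem Kil.aa_let (hL : Kil L) (hz : (z : ℕ) = 0) (ho : (o : ℕ) = z + 1) (k : ℤ)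
    {μ : MulAut (F h 0)} (hμ : μ ∈ MCGd h) (ha : μ (ga z) = ga z) (hb : μ (gb z) = gb z) :
    L (ga z ^ k * cm (ga z) (μ (ga o)) * (ga z ^ k)⁻¹) = 0 := by
  have hoz : o ≠ z := by
    rintro rfl
    omega
  have h1 : L (μ (kk z (ga z ^ (-k) * cm (gg z)⁻¹ (ga o) * (ga z ^ (-k))⁻¹))) = 0 := by
    have := ((hL.aut hμ).aut (kk_bdry z)).ga_let hz ho (-k) (μ := 1) (MCGd h).one_mem rfl rfl
    exact this
  have h2 : μ (dl z) = dl z := by
    rw [aut_dl, ha, hb]
    rfl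
  have e : kk z (ga z ^ (-k) * cm (gg z)⁻¹ (ga o) * (ga z ^ (-k))⁻¹) =
      (dl z * (ga z)⁻¹) ^ (-k) * cm (ga z) (ga o) * (((dl z * (ga z)⁻¹) ^ (-k))⁻¹ : F h 0) := by
    rw [map_mul, map_mul, aut_cm, kk_gg, kk_a' hoz, map_inv, map_zpow, kk_a]
  have e' : μ ((dl z * (ga z)⁻¹) ^ (-k) * cm (ga z) (ga o) * ((dl z * (ga z)⁻¹) ^ (-k))⁻¹) =
      (dl z * (ga z)⁻¹) ^ (-k) * cm (ga z) (μ (ga o)) * ((dl z * (ga z)⁻¹) ^ (-k))⁻¹ := by
    rw [map_mul, map_mul, aut_cm, ha, map_inv, map_zpow, map_mul, map_inv, ha, h2]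
  rw [e, e'] at h1
  rw [← h1]
  apply hL.hom.cj_of _ (cm_mem _ _)
  rw [map_zpow, map_zpow, map_mul, of_dl, one_mul, map_inv, inv_zpow, zpow_neg, inv_inv]

/-- (J3), in a frame -/
theorem Kil.tr_mu (hL : Kil L) (hz : (z : ℕ) = 0) (ho : (o : ℕ) = z + 1) (k : ℤ)
    {μ : MulAut (F h 0)} (hμ : μ ∈ MCGd h) (ha : μ (ga z) = ga z) (hb : μ (gb z) = gb z) :
    L ((ga z ^ k * μ (ga o)) * dl z * (ga z ^ k * μ (ga o))⁻¹) =
      L (ga z ^ k * dl z * (ga z ^ k)⁻¹) := by
  have h1 := hL.ga_let hz ho (k + 1) hμ ha hb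
  have h2 := hL.aa_let hz ho k hμ ha hb
  have e1 : (gg z : F h 0)⁻¹ = (ga z)⁻¹ * dl z := by
    rw [dl_eq]
    group
  have e2 : (ga z : F h 0) ^ (k + 1) * (ga z)⁻¹ = ga z ^ k := by group
  rw [e1, hL.hom.cm_mul_left, hL.hom.cm_inv_left, e2, h2, neg_zero, zero_add,
    hL.hom.cm_D_left _ _ (dl_mem z)] at h1
  exact (sub_eq_zero.mp h1).symm

/-- Some frame takes `ga o` to the class of the letter `c`. -/
theorem frame1 {z o j : Fin h} (hz : (z : ℕ) = 0) (ho : o ≠ z) (hj : j ≠ z) {c : F h 0}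
    (hc : IsLet j c) : ∃ μ ∈ MCGd h, μ (ga z) = ga z ∧ μ (gb z) = gb z ∧
      Abelianization.of (μ (ga o)) = Abelianization.of c := by
  have hs : Equiv.swap o j z = z := Equiv.swap_apply_of_ne_of_ne ho.symm hj.symm
  obtain ⟨φ, hφ, h1, h2, h3⟩ := perm_exists' hz (Equiv.swap o j) hs
  obtain ⟨w, -, h4, h5⟩ := h3 o ho
  rw [Equiv.swap_apply_left] at h4 h5
  have h6 : Abelianization.of (φ (ga o)) = Abelianization.of (ga j) := by
    rw [h4, map_mul, map_mul, map_inv, mul_inv_cancel_comm]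
  have h7 : Abelianization.of (φ (gb o)) = Abelianization.of (gb j) := by
    rw [h5, map_mul, map_mul, map_inv, mul_inv_cancel_comm]
  have h8 : Abelianization.of (φ (dl o)) = 1 := by
    rw [of_aut φ (y := 1) (by rw [of_dl, map_one]), map_one, map_one]
  rcases hc with rfl | rfl | rfl | rfl
  · exact ⟨φ, hφ, h1, h2, h6⟩
  · refine ⟨φ * kk o, (MCGd h).mul_mem hφ (kk_bdry o), ?_, ?_, ?_⟩
    · rw [MulAut.mul_apply, kk_a' ho.symm, h1]
    · rw [MulAut.mul_apply, kk_b' ho.symm, h2]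
    · rw [MulAut.mul_apply, kk_a, map_mul, map_mul, h8, one_mul, map_inv, map_inv, map_inv, h6]
  · refine ⟨φ * rr o, (MCGd h).mul_mem hφ (rr_bdry o), ?_, ?_, ?_⟩
    · rw [MulAut.mul_apply, rr_a' ho.symm, h1]
    · rw [MulAut.mul_apply, rr_b' ho.symm, h2]
    · rw [MulAut.mul_apply, rr_a]
      simp only [map_mul, map_inv]
      rw [mul_inv_cancel_comm, h7]
  · refine ⟨φ * (rr o)⁻¹, (MCGd h).mul_mem hφ ((MCGd h).inv_mem (rr_bdry o)), ?_, ?_, ?_⟩
    · rw [MulAut.mul_apply, rri_a' ho.symm, h1]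
    · rw [MulAut.mul_apply, rri_b' ho.symm, h2]
    · rw [MulAut.mul_apply, rri_a, map_inv, map_inv, map_inv, h7]

/-- (J3), one letter -/
theorem Kil.tr_let (hL : Kil L) (hz : (z : ℕ) = 0) (ho : (o : ℕ) = z + 1) (k : ℤ) {j : Fin h}
    (hj : j ≠ z) {c : F h 0} (hc : IsLet j c) :
    L ((ga z ^ k * c) * dl z * (ga z ^ k * c)⁻¹) = L (ga z ^ k * dl z * (ga z ^ k)⁻¹) := by
  have hoz : o ≠ z := by
    rintro rfl
    omega
  obtain ⟨μ, hμ, ha, hb, h1⟩ := frame1 hz hoz hj hc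
  rw [← hL.tr_mu hz ho k hμ ha hb]
  apply hL.hom.cj_of _ (dl_mem z)
  rw [map_mul, map_mul, h1]

/-- (J3) -/
theorem Kil.tr_z (hL : Kil L) (hz : (z : ℕ) = 0) (ho : (o : ℕ) = z + 1) (k : ℤ) {u : F h 0}
    (hu : u ∈ PW.away (n := 0) z) :
    L ((ga z ^ k * u) * dl z * (ga z ^ k * u)⁻¹) = L (ga z ^ k * dl z * (ga z ^ k)⁻¹) := by
  have step : ∀ (x c : F h 0) (j : Fin h), j ≠ z → IsLet j c →
      (∀ M : F h 0 → A, Kil M → M ((ga z ^ k * x) * dl z * (ga z ^ k * x)⁻¹) =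
        M (ga z ^ k * dl z * (ga z ^ k)⁻¹)) →
      ∀ M : F h 0 → A, Kil M → M ((ga z ^ k * (x * c)) * dl z * (ga z ^ k * (x * c))⁻¹) =
        M (ga z ^ k * dl z * (ga z ^ k)⁻¹) := by
    intro x c j hj hc ih M hM
    obtain ⟨P, hP, h1, ⟨c', h2, h3, h4⟩, -⟩ := push_let (pos_of_ne hz hj) hc
    have h5 : P (dl z) = c' * dl z * c'⁻¹ := by
      rw [aut_dl, h3, h4]
      unfold dl cm
      group
    have h6 : ∀ y, Abelianization.of (P y) = Abelianization.of y := fun y => (cls_iff.mp (h1 y)).symm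
    have h7 : M (P ((ga z ^ k * x) * dl z * (ga z ^ k * x)⁻¹)) =
        M (P (ga z ^ k * dl z * (ga z ^ k)⁻¹)) := ih _ (hM.aut hP)
    have e1 : P ((ga z ^ k * x) * dl z * (ga z ^ k * x)⁻¹) =
        (P (ga z ^ k * x) * c') * dl z * (P (ga z ^ k * x) * c')⁻¹ := by
      rw [map_mul, map_mul, map_inv, h5]
      group
    have e2 : P (ga z ^ k * dl z * (ga z ^ k)⁻¹) =
        (P (ga z ^ k) * c') * dl z * (P (ga z ^ k) * c')⁻¹ := by
      rw [map_mul, map_mul, map_inv, h5]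
      group
    have h8 : Abelianization.of c' = Abelianization.of c := (cls_iff.mp h2).symm
    rw [e1, e2, hM.hom.cj_of (w := P (ga z ^ k * x) * c') (w' := ga z ^ k * (x * c)) (by
      rw [map_mul, h6, h8, ← map_mul, mul_assoc]) (dl_mem z),
      hM.hom.cj_of (w := P (ga z ^ k) * c') (w' := ga z ^ k * c) (by
      rw [map_mul, h6, h8, ← map_mul]) (dl_mem z)] at h7
    rw [h7, hM.tr_let hz ho k hj hc]
  have main : ∀ M : F h 0 → A, Kil M → M ((ga z ^ k * u) * dl z * (ga z ^ k * u)⁻¹) =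
      M (ga z ^ k * dl z * (ga z ^ k)⁻¹) := by
    unfold PW.away at hu
    induction hu using Subgroup.closure_induction_right with
    | one =>
      intro M _
      rw [mul_one]
    | mul_right x hx y hy ih =>
      rcases hy with ⟨j, hj, hy⟩ | ⟨j, _⟩
      · refine step x y j hj ?_ ih
        rcases hy with rfl | rfl
        · exact Or.inl rfl
        · exact Or.inr (Or.inr (Or.inl rfl))
      · exact j.elim0
    | mul_inv_cancel x hx y hy ih =>
      rcases hy with ⟨j, hj, hy⟩ | ⟨j, _⟩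
      · refine step x y⁻¹ j hj ?_ ih
        rcases hy with rfl | rfl
        · exact Or.inr (Or.inl rfl)
        · exact Or.inr (Or.inr (Or.inr rfl))
      · exact j.elim0
  exact main L hL

end

/-- A frame which moves the handle `z` to the handle `i`. -/
theorem frame_perm (z i : Fin h) : ∃ φ ∈ MCGd h, ∃ w ∈ DD h 0,
    φ (ga z) = w * ga i * w⁻¹ ∧ φ (gb z) = w * gb i * w⁻¹ ∧
    ∀ u ∈ PW.away (n := 0) i, ∃ u' ∈ PW.away (n := 0) z,
      Abelianization.of (φ u') = Abelianization.of u := by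
  obtain ⟨φ, hφ, h1⟩ := perm_exists (Equiv.swap z i)
  obtain ⟨w, hw, h2, h3⟩ := h1 z
  rw [Equiv.swap_apply_left] at h2 h3
  refine ⟨φ, hφ, w, Dn_le h hw, h2, h3, ?_⟩
  intro u hu
  let π : F h 0 →* F h 0 := FreeGroup.lift fun y => match y with
    | Gen.a j => ga (Equiv.swap z i j)
    | Gen.b j => gb (Equiv.swap z i j)
    | Gen.c j => gc j
  have πa : ∀ j, π (ga j) = ga (Equiv.swap z i j) := by
    intro j
    simp [π, ga]
  have πb : ∀ j, π (gb j) = gb (Equiv.swap z i j) := by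
    intro j
    simp [π, gb]
  refine ⟨π u, ?_, ?_⟩
  · have : PW.away (n := 0) i ≤ (PW.away (n := 0) z).comap π := by
      conv_lhs => unfold PW.away
      rw [Subgroup.closure_le]
      rintro x (⟨j, hj, rfl | rfl⟩ | ⟨j, _⟩)
      · show π (ga j) ∈ PW.away (n := 0) z
        rw [πa]
        apply away_a
        intro h4
        apply hj
        rw [Equiv.swap_apply_eq_iff, Equiv.swap_apply_left] at h4
        exact h4
      · show π (gb j) ∈ PW.away (n := 0) z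
        rw [πb]
        apply away_b
        intro h4
        apply hj
        rw [Equiv.swap_apply_eq_iff, Equiv.swap_apply_left] at h4
        exact h4
      · exact j.elim0
    exact this hu
  · have e : (Abelianization.of.comp φ.toMonoidHom).comp π = Abelianization.of := by
      apply hom_ext
      · intro j
        obtain ⟨w', -, h4, -⟩ := h1 (Equiv.swap z i j)
        rw [MonoidHom.comp_apply, πa]
        show Abelianization.of (φ (ga (Equiv.swap z i j))) = _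
        rw [h4, map_mul, map_mul, map_inv, mul_inv_cancel_comm, Equiv.swap_apply_self]
      · intro j
        obtain ⟨w', -, -, h4⟩ := h1 (Equiv.swap z i j)
        rw [MonoidHom.comp_apply, πb]
        show Abelianization.of (φ (gb (Equiv.swap z i j))) = _
        rw [h4, map_mul, map_mul, map_inv, mul_inv_cancel_comm, Equiv.swap_apply_self]
      · intro j
        exact j.elim0
    exact DFunLike.congr_fun e u

/-- (J3), any handle -/
theorem Kil.tr {L : F h 0 → A} (hL : Kil L) (hh : 2 ≤ h) (i : Fin h) (k : ℤ) {u : F h 0}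
    (hu : u ∈ PW.away (n := 0) i) :
    L ((ga i ^ k * u) * dl i * (ga i ^ k * u)⁻¹) = L (ga i ^ k * dl i * (ga i ^ k)⁻¹) := by
  obtain ⟨φ, hφ, w, hw, h1, h2, h3⟩ := frame_perm (⟨0, by omega⟩ : Fin h) i
  obtain ⟨u', hu', h4⟩ := h3 u hu
  have h5 := (hL.aut hφ).tr_z (z := ⟨0, by omega⟩) (o := ⟨1, by omega⟩) rfl rfl k hu'
  have h6 : φ (dl (⟨0, by omega⟩ : Fin h)) = w * dl i * w⁻¹ := by
    rw [aut_dl, h1, h2]
    unfold dl cm
    group
  have hw1 : Abelianization.of w = 1 := by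
    have : (1 : F h 0)⁻¹ * w ∈ DD h 0 := by rwa [inv_one, one_mul]
    rw [← cls_iff.mp this, map_one]
  have e1 : ∀ x : F h 0, φ (x * dl (⟨0, by omega⟩ : Fin h) * x⁻¹) =
      (φ x * w) * dl i * (φ x * w)⁻¹ := by
    intro x
    rw [map_mul, map_mul, map_inv, h6]
    group
  have h7 : ∀ x : F h 0, Abelianization.of (φ x * w) = Abelianization.of (φ x) := by
    intro x
    rw [map_mul, hw1, mul_one]
  have h8 : Abelianization.of (φ (ga (⟨0, by omega⟩ : Fin h))) = Abelianization.of (ga i) := by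
    rw [h1, map_mul, map_mul, map_inv, mul_inv_cancel_comm]
  simp only [e1] at h5
  rw [hL.hom.cj_of (w' := ga i ^ k * u) (by
      rw [h7, map_mul, map_mul, map_zpow, map_zpow, h8, h4, map_mul, map_zpow]) (dl_mem i),
    hL.hom.cj_of (w := φ (ga (⟨0, by omega⟩ : Fin h) ^ k) * w) (w' := ga i ^ k) (by
      rw [h7, map_zpow, map_zpow, h8, map_zpow]) (dl_mem i)] at h5
  exact h5

end Pool.Agent.PWM
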