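import Pool.Agent.PWM.J2
import Pool.Agent.PWM.Euclid

/-!
# Theorem J, part 3 (paper, section 4: J4, J5, J6)

`z` is the first handle, `o` the second one, `ek L k = L (a^k dl z a^(-k))`, `eb o` = exponent of `gb o`.
* `Kil.ek_aut`: `ek (L ∘ ψ) k = ek L k` if `ψ ∈ MCGd h` fixes `ga z` (by `Kil.R`).
* `Kil.star` (J4 (*)): `(L ∘ Lp) ((a^k u) dl z (a^k u)⁻¹) = ek L k` (`Kil.tr_z` for `L ∘ Lp`, `ek_aut`).
  `Lp (a^k u) ≡ a^(k + eb u) u` mod `DD` (closure induction, `Lp_cls_*`), `Lp (dl z) = dl z * cm (ga o) γ`.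
* `Kil.star_mu`: `Kil.star` for `L ∘ μ`.
* `ek_zero` (J5, J6): see the paper; the frames are `μ = rr o` (`ga o ↦ a b a⁻¹`), `e2 o 1` (`ga o ↦ a b`),
  `(rr o)⁻¹` (`ga o ↦ b⁻¹`).
-/

namespace Pool.Agent.PWM

open Pool.Agent.PW

variable {h : ℕ} {A : Type*} [AddCommGroup A]

/-- the exponent of `gb o` -/
def eb (o : Fin h) : F h 0 →* Multiplicative ℤ :=
  FreeGroup.lift fun x => if x = Gen.b o then Multiplicative.ofAdd 1 else 1

/-- `e_k` -/
def ek (L : F h 0 → A) (z : Fin h) (k : ℤ) : A := L (ga z ^ k * dl z * (ga z ^ k)⁻¹)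

theorem j3_eb_a (o j : Fin h) : eb o (ga j) = 1 := by
  simp [eb, ga]

theorem j3_eb_b (o : Fin h) : eb o (gb o) = Multiplicative.ofAdd 1 := by
  simp [eb, gb]

theorem j3_eb_b' {o j : Fin h} (hj : j ≠ o) : eb o (gb j) = 1 := by
  simp [eb, gb, hj]

section

variable {L : F h 0 → A} {z o : Fin h}

theorem Kil.ek_aut (hL : Kil L) (k : ℤ) {ψ : MulAut (F h 0)} (hψ : ψ ∈ MCGd h)
    (ha : ψ (ga z) = ga z) : ek (fun x => L (ψ x)) z k = ek L z k := by
  have hu0 : (ga z : F h 0) ∈ Subgroup.closure {(ga z : F h 0), gb z} :=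
    Subgroup.subset_closure (Set.mem_insert _ _)
  have hu : (ga z : F h 0) ^ k ∈ Subgroup.closure {(ga z : F h 0), gb z} :=
    Subgroup.zpow_mem _ hu0 k
  have h1 := (hL.aut hψ).R z hu
  have h2 := hL.R z hu
  have h3 : ψ (bdry h 0) = bdry h 0 := hψ
  refine h1.symm.trans (Eq.trans ?_ h2)
  simp only [map_mul, map_inv, map_zpow, ha, h3]

/-- the effect of `Lp` on the classes -/
theorem Lp_cls (hzo : (z : ℕ) < o) (k : ℤ) {u : F h 0} (hu : u ∈ PW.away (n := 0) z) :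
    (ga z ^ (k + (eb o u).toAdd) * u)⁻¹ * Lp z o hzo (ga z ^ k * u) ∈ DD h 0 := by
  have hoz : o ≠ z := by
    rintro rfl
    omega
  have key : PW.away (n := 0) z ≤ MonoidHom.eqLocus
      ((Abelianization.of (G := F h 0)).comp (Lp z o hzo).toMonoidHom)
      (((zpowersHom (Abelianization (F h 0))) (Abelianization.of (ga z))).comp (eb o) *
        Abelianization.of) := by
    unfold PW.away
    rw [Subgroup.closure_le]
    rintro x (⟨j, hj, rfl | rfl⟩ | ⟨j, rfl⟩)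
    · show Abelianization.of (Lp z o hzo (ga j)) = (Abelianization.of (ga z)) ^
        (eb o (ga j)).toAdd * Abelianization.of (ga j)
      rw [j3_eb_a, toAdd_one, zpow_zero, one_mul]
      by_cases hjo : j = o
      · subst hjo
        exact (cls_iff.1 (Lp_cls_ao hzo)).symm
      · rw [Lp_a' hzo hj hjo]
    · show Abelianization.of (Lp z o hzo (gb j)) = (Abelianization.of (ga z)) ^
        (eb o (gb j)).toAdd * Abelianization.of (gb j)
      by_cases hjo : j = o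
      · subst hjo
        rw [j3_eb_b, toAdd_ofAdd, zpow_one, ← (cls_iff.1 (Lp_cls_bo hzo)), map_mul, mul_comm]
      · rw [Lp_b' hzo hj hjo, j3_eb_b' hjo, toAdd_one, zpow_zero, one_mul]
    · exact j.elim0
  have h1 : Abelianization.of (Lp z o hzo u) = (Abelianization.of (ga z)) ^
      (eb o u).toAdd * Abelianization.of u := key hu
  rw [cls_iff, map_mul, map_mul (Lp z o hzo), map_mul Abelianization.of, h1, map_zpow, map_zpow,
    Lp_az, map_zpow, zpow_add, mul_assoc]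

theorem j3_Lp_mem (hzo : (z : ℕ) < o) : Lp (n := 0) z o hzo ∈ MCGd h := Lp_bdry hzo

/-- (J4), (*) -/
theorem Kil.star (hL : Kil L) (hz : (z : ℕ) = 0) (ho : (o : ℕ) = z + 1) (k : ℤ) {u : F h 0}
    (hu : u ∈ PW.away (n := 0) z) :
    L ((ga z ^ k * u) * cm (gg z)⁻¹ (ga o) * (ga z ^ k * u)⁻¹) =
      ek L z k - ek L z (k - (eb o u).toAdd) := by
  have hzo : (z : ℕ) < o := by omega
  have hm := j3_Lp_mem hzo
  have h1 := (hL.aut hm).tr_z hz ho (k - (eb o u).toAdd) hu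
  have h2 : L (Lp z o hzo (ga z ^ (k - (eb o u).toAdd) * dl z * (ga z ^ (k - (eb o u).toAdd))⁻¹)) =
      ek L z (k - (eb o u).toAdd) := hL.ek_aut _ hm (Lp_az hzo)
  have h1' : L (Lp z o hzo ((ga z ^ (k - (eb o u).toAdd) * u) * dl z *
      (ga z ^ (k - (eb o u).toAdd) * u)⁻¹)) = ek L z (k - (eb o u).toAdd) := h1.trans h2
  rw [map_mul, map_mul, map_inv, Lp_dz hzo ho] at h1'
  have h3 := hL.hom.cj_mul (Lp z o hzo (ga z ^ (k - (eb o u).toAdd) * u)) (dl_mem z)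
    (cm_mem (ga o) (gg z)⁻¹)
  rw [h3] at h1'
  have h4 := Lp_cls hzo (k - (eb o u).toAdd) hu
  rw [sub_add_cancel] at h4
  rw [← hL.hom.cj_eq h4 (dl_mem z), ← hL.hom.cj_eq h4 (cm_mem _ _)] at h1'
  have h5 := hL.tr_z hz ho k hu
  have h6 := hL.hom.cm_swap (ga z ^ k * u) (gg z)⁻¹ (ga o)
  rw [h5, h6] at h1'
  have h7 : ek L z k + -L ((ga z ^ k * u) * cm (gg z)⁻¹ (ga o) * (ga z ^ k * u)⁻¹) =
      ek L z (k - (eb o u).toAdd) := h1'
  rw [← h7]
  abel

/-- (J4), (*) in a frame -/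
theorem Kil.star_mu (hL : Kil L) (hz : (z : ℕ) = 0) (ho : (o : ℕ) = z + 1) (k : ℤ) {u : F h 0}
    (hu : u ∈ PW.away (n := 0) z) {μ : MulAut (F h 0)} (hμ : μ ∈ MCGd h) (ha : μ (ga z) = ga z)
    (hb : μ (gb z) = gb z) :
    L ((ga z ^ k * μ u) * cm (gg z)⁻¹ (μ (ga o)) * (ga z ^ k * μ u)⁻¹) =
      ek L z k - ek L z (k - (eb o u).toAdd) := by
  have h1 := (hL.aut hμ).star hz ho k hu
  rw [hL.ek_aut _ hμ ha, hL.ek_aut _ hμ ha] at h1
  rw [← h1]
  have h2 : μ (gg z) = gg z := by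
    unfold gg
    rw [map_mul, map_mul, map_inv, ha, hb]
  have h3 : μ (cm (gg z)⁻¹ (ga o)) = cm (gg z)⁻¹ (μ (ga o)) := by
    have := map_cm μ.toMonoidHom (gg z)⁻¹ (ga o)
    rw [MulEquiv.coe_toMonoidHom] at this
    rw [this, map_inv, h2]
  simp only [map_mul, map_inv, map_zpow, ha, h3]

theorem j3_ek_z (hL : Kil L) : ek L z 0 = 0 := by
  have h1 := hL.kil 1 (Subgroup.one_mem _) z
  unfold ek
  rw [zpow_zero, one_mul, inv_one, mul_one]
  exact h1

theorem j3_of_gg (z : Fin h) : Abelianization.of (gg (n := 0) z) = Abelianization.of (ga z) := by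
  unfold gg
  rw [map_mul, map_mul, map_inv, mul_inv_cancel_comm]

/-- (J5) -/
theorem Kil.ek_one (hL : Kil L) (hz : (z : ℕ) = 0) (ho : (o : ℕ) = z + 1) : ek L z 1 = 0 := by
  have hoz : o ≠ z := by
    rintro rfl
    omega
  have hbo : gb o ∈ PW.away (n := 0) z := away_b hoz
  have h1 := hL.star hz ho 1 hbo
  rw [j3_eb_b, toAdd_ofAdd, sub_self, j3_ek_z hL, sub_zero] at h1
  have hr : rr o ∈ MCGd h := rr_bdry o
  have he : e2 (n := 0) o 1 ∈ MCGd h := e2_bdry o 1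
  have h2 := hL.ga_let hz ho 1 hr (rr_a' hoz.symm) (rr_b' hoz.symm)
  have h3 := hL.ga_let hz ho 1 he (e2_a' hoz.symm 1) (e2_b o z 1)
  rw [rr_a] at h2
  rw [e2_a, zpow_one (gb o)] at h3
  have e : ga o * gb o = (ga o * gb o * (ga o)⁻¹) * ga (n := 0) o := by group
  rw [e, hL.hom.cm_mul_right, h2, zero_add] at h3
  rw [← h1, ← h3]
  apply hL.hom.cj_eq _ (cm_mem _ _)
  rw [cls_iff]
  apply Additive.ofMul.injective
  simp only [map_mul, map_inv, map_zpow, ofMul_mul, ofMul_inv, ofMul_zpow]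
  abel

/-- (J6), the recursion -/
theorem Kil.ek_rec (hL : Kil L) (hz : (z : ℕ) = 0) (ho : (o : ℕ) = z + 1) (k : ℤ) :
    ek L z k + ek L z k = ek L z (k + 1) + ek L z (k - 1) := by
  have hoz : o ≠ z := by
    rintro rfl
    omega
  have hh : 2 ≤ h := by
    have := o.isLt
    omega
  have hbo : gb o ∈ PW.away (n := 0) z := away_b hoz
  have hao : ga o ∈ PW.away (n := 0) z := away_a hoz
  have hr : rr o ∈ MCGd h := rr_bdry o
  have hri : (rr o)⁻¹ ∈ MCGd h := rri_bdry o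
  -- (i)
  have h1 := hL.star_mu hz ho k (Subgroup.inv_mem _ hbo) hr (rr_a' hoz.symm) (rr_b' hoz.symm)
  rw [map_inv (eb o), j3_eb_b, toAdd_inv, toAdd_ofAdd, sub_neg_eq_add, map_inv, rr_b, inv_inv,
    rr_a] at h1
  have e : ga o * gb o * (ga o)⁻¹ = dl o * gb (n := 0) o := by
    unfold dl cm
    group
  rw [e, hL.hom.cm_dmul_right _ _ _ (dl_mem o)] at h1
  -- (iii)
  have hza : ∀ m : ℤ, ga z ^ m ∈ PW.away (n := 0) o :=
    fun m => Subgroup.zpow_mem _ (away_a hoz.symm) m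
  have h3 : L ((ga z ^ k * ga o * (gg z)⁻¹) * dl o * (ga z ^ k * ga o * (gg z)⁻¹)⁻¹) =
      L (ga o ^ (1 : ℤ) * dl o * (ga o ^ (1 : ℤ))⁻¹) := by
    rw [← hL.tr hh o 1 (hza (k - 1))]
    apply hL.hom.cj_eq _ (dl_mem o)
    rw [cls_iff]
    apply Additive.ofMul.injective
    simp only [map_mul, map_inv, map_zpow, ofMul_mul, ofMul_inv, ofMul_zpow, j3_of_gg]
    rw [sub_smul]
    abel
  have h4 : L ((ga z ^ k * ga o) * dl o * (ga z ^ k * ga o)⁻¹) =
      L (ga o ^ (1 : ℤ) * dl o * (ga o ^ (1 : ℤ))⁻¹) := by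
    rw [← hL.tr hh o 1 (hza k)]
    apply hL.hom.cj_eq _ (dl_mem o)
    rw [cls_iff]
    apply Additive.ofMul.injective
    simp only [map_mul, map_inv, map_zpow, ofMul_mul, ofMul_inv, ofMul_zpow]
    abel
  rw [h3, h4, sub_self, zero_add] at h1
  -- (ii)
  have h5 := hL.star_mu hz ho k (Subgroup.mul_mem _ hbo (Subgroup.inv_mem _ hao)) hri
    (rri_a' hoz.symm) (rri_b' hoz.symm)
  rw [map_mul (eb o), map_inv (eb o), j3_eb_b, j3_eb_a, inv_one, mul_one, toAdd_ofAdd, map_mul,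
    map_inv, rri_b, rri_a, inv_inv] at h5
  have h6 := hL.hom.cm_inv_right (ga z ^ k * (gb o * ga o * (gb o)⁻¹ * gb o)) (gg z)⁻¹ (gb o)
  rw [h6] at h5
  have h7 : L ((ga z ^ k * (gb o * ga o * (gb o)⁻¹ * gb o)) * (gb o)⁻¹ *
      cm (gg z)⁻¹ (gb o) * ((ga z ^ k * (gb o * ga o * (gb o)⁻¹ * gb o)) * (gb o)⁻¹)⁻¹) =
      L ((ga z ^ k * ga o) * cm (gg z)⁻¹ (gb o) * (ga z ^ k * ga o)⁻¹) := by
    apply hL.hom.cj_eq _ (cm_mem _ _)
    rw [cls_iff]
    apply Additive.ofMul.injective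
    simp only [map_mul, map_inv, map_zpow, ofMul_mul, ofMul_inv, ofMul_zpow]
    abel
  rw [h7, h1] at h5
  have h8 : ek L z k + ek L z k = (ek L z k - ek L z (k - 1)) + (ek L z k + ek L z (k - 1)) := by
    abel
  rw [h8, ← h5]
  abel

/-- (J6) -/
theorem Kil.ek_zero (hL : Kil L) (hz : (z : ℕ) = 0) (ho : (o : ℕ) = z + 1) (k : ℤ) :
    ek L z k = 0 := by
  have h0 : ek L z 0 = 0 := j3_ek_z hL
  have h1 := hL.ek_one hz ho
  have hp : ∀ m : ℕ, ek L z (m : ℤ) = 0 ∧ ek L z ((m : ℤ) + 1) = 0 := by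
    intro m
    induction m with
    | zero => exact ⟨h0, by simpa using h1⟩
    | succ m ih =>
      refine ⟨by push_cast; exact ih.2, ?_⟩
      have h2 := hL.ek_rec hz ho ((m : ℤ) + 1)
      rw [ih.2, add_sub_cancel_right, ih.1, add_zero, add_zero] at h2
      push_cast
      exact h2.symm
  have hn : ∀ m : ℕ, ek L z (-(m : ℤ)) = 0 ∧ ek L z (-(m : ℤ) + 1) = 0 := by
    intro m
    induction m with
    | zero => exact ⟨by simpa using h0, by simpa using h1⟩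
    | succ m ih =>
      have h2 := hL.ek_rec hz ho (-(m : ℤ))
      rw [ih.1, ih.2, zero_add, zero_add] at h2
      refine ⟨?_, ?_⟩
      · have e : -((m + 1 : ℕ) : ℤ) = -(m : ℤ) - 1 := by push_cast; ring
        rw [e]
        exact h2.symm
      · have e : -((m + 1 : ℕ) : ℤ) + 1 = -(m : ℤ) := by push_cast; ring
        rw [e]
        exact ih.1
  rcases Int.eq_nat_or_neg k with ⟨m, rfl | rfl⟩
  · exact (hp m).1
  · exact (hn m).1

end

end Pool.Agent.PWM
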