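import Pool.Agent.PWM.J4

/-!
# Theorem N', part 1 (paper, section 5: beginning, N1, N2, N3)

`Adm θ L`: in every frame exactly one handle has a nonzero value, and it is `θ`.
* `Adm.of_not`: if no frame has nonzero values at the handles 0 and 1, then by permutations no frame has two
  nonzero values; by `J` some frame has one; `L bdry` is the sum of the values in every frame, call it `θ`.
* `Adm.flat` (N1): `J` for `d ↦ L (blk (h-1) h 0 1 d)` (an automorphism in `MCGd (h-1)` extends to `MCGd h`, fixes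
  `dl z`, so the value at the handle 1 is `0`).
* `frame2`: `perm_exists'` and `rr`, `kk` of the single handles.
* `Adm.n2`: in the frame `P(z,k) P(z,j)` (pushes of the handle `z` around `gb j`, `gb k`) the values at `z`, `j`, `k` are
  `F(b_j b_k)`, `F(b_k) - F(b_j b_k)`, `θ - F(b_k)`, all the others are `0` (`F u = L (u dl z u⁻¹)`, depends on the class
  of `u` only).  If `F(b_k) = 0` the last one is `θ`, so `F(b_j b_k) = 0`.  Use `Pb` for `j`, `k` in the order `j < k` and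
  in the order `k < j`; then all letters by `frame2`.
* `Adm.n3`: `F(c) = 0` gives `F(c d') = 0` (`n2`); in the frame `μ = Lp` on the two handles `μ (gb k) ≡ gb k * ga j`,
  so `F(gb k) = 0`.  For two letters of the same handle go through a third handle (`3 ≤ h`).
-/

namespace Pool.Agent.PWM

open Pool.Agent.PW

variable {h : ℕ} {A : Type*} [AddCommGroup A]

/-- (ADM) -/
structure Adm (θ : A) (L : F h 0 → A) : Prop where
  hom : DHom L
  ne : θ ≠ 0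
  one : ∀ φ ∈ MCGd h, ∃ i, L (φ (dl i)) = θ ∧ ∀ j, j ≠ i → L (φ (dl j)) = 0

theorem Adm.aut {θ : A} {L : F h 0 → A} (hA : Adm θ L) {φ : MulAut (F h 0)} (hφ : φ ∈ MCGd h) :
    Adm θ fun x => L (φ x) :=
  ⟨hA.hom.aut φ, hA.ne, fun ψ hψ => hA.one (φ * ψ) ((MCGd h).mul_mem hφ hψ)⟩

theorem Adm.other {θ : A} {L : F h 0 → A} (hA : Adm θ L) {i j : Fin h} (hi : L (dl i) = θ)
    (hj : j ≠ i) : L (dl j) = 0 := by
  obtain ⟨i0, h1, h2⟩ := hA.one 1 (MCGd h).one_mem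
  by_cases h3 : i = i0
  · subst h3
    exact h2 j hj
  · have h4 : L (dl i) = 0 := h2 i h3
    exact absurd (hi.symm.trans h4) hA.ne

theorem Adm.of_ne {θ : A} {L : F h 0 → A} (hA : Adm θ L) {i : Fin h} (hi : L (dl i) ≠ 0) :
    L (dl i) = θ := by
  obtain ⟨i0, h1, h2⟩ := hA.one 1 (MCGd h).one_mem
  by_cases h3 : i = i0
  · subst h3
    exact h1
  · exact absurd (h2 i h3) hi

/-- a permutation with two prescribed values -/
theorem n1_perm {α : Type*} [DecidableEq α] {a a' b b' : α} (h1 : a ≠ a') (h2 : b ≠ b') :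
    ∃ s : Equiv.Perm α, s a = b ∧ s a' = b' ∧ ∀ x, x ≠ a → x ≠ a' → x ≠ b → x ≠ b' → s x = x := by
  have e1 : Equiv.swap a b a = b := Equiv.swap_apply_left a b
  have e2 : Equiv.swap a b a' ≠ b := by
    intro h3
    exact h1 ((Equiv.injective _ (h3.trans e1.symm)).symm)
  refine ⟨Equiv.swap (Equiv.swap a b a') b' * Equiv.swap a b, ?_, ?_, ?_⟩
  · rw [Equiv.Perm.mul_apply, e1]
    exact Equiv.swap_apply_of_ne_of_ne (Ne.symm e2) h2
  · rw [Equiv.Perm.mul_apply]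
    exact Equiv.swap_apply_left _ _
  · intro x hx1 hx2 hx3 hx4
    have e3 : Equiv.swap a b x = x := Equiv.swap_apply_of_ne_of_ne hx1 hx3
    have e4 : x ≠ Equiv.swap a b a' := by
      intro h3
      exact hx2 (Equiv.injective _ (e3.trans h3))
    rw [Equiv.Perm.mul_apply, e3]
    exact Equiv.swap_apply_of_ne_of_ne e4 hx4

/-- additivity on lists -/
theorem n1_list {L : F h 0 → A} (hL : DHom L) (l : List (F h 0)) (hl : ∀ x ∈ l, x ∈ DD h 0) :
    l.prod ∈ DD h 0 ∧ L l.prod = (l.map L).sum := by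
  induction l with
  | nil =>
    simp only [List.prod_nil, List.map_nil, List.sum_nil]
    exact ⟨Subgroup.one_mem _, hL.map_one⟩
  | cons x l ih =>
    have h1 : x ∈ DD h 0 := hl x (by simp)
    obtain ⟨h2, h3⟩ := ih fun y hy => hl y (by simp [hy])
    rw [List.prod_cons, List.map_cons, List.sum_cons]
    exact ⟨Subgroup.mul_mem _ h1 h2, by rw [hL _ h1 _ h2, h3]⟩

/-- the value on the boundary -/
theorem n1_bdry {L : F h 0 → A} (hL : DHom L) : L (bdry h 0) = ∑ i : Fin h, L (dl i) := by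
  have e : bdry h 0 = (List.ofFn fun i : Fin h => (dl i : F h 0)).prod := by
    unfold bdry dl cm
    simp
  rw [e, (n1_list hL _ _).2]
  · rw [List.map_ofFn, List.sum_ofFn]
    rfl
  · intro x hx
    rw [List.mem_ofFn] at hx
    obtain ⟨i, rfl⟩ := hx
    exact dl_mem i

/-- conjugation by an element of the normal closure does not matter -/
theorem n1_cj {L : F h 0 → A} (hL : DHom L) {φ ψ : MulAut (F h 0)} {i j : Fin h} {w : F h 0}
    (hw : w ∈ DD h 0) (ha : ψ (ga i) = w * ga j * w⁻¹) (hb : ψ (gb i) = w * gb j * w⁻¹) :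
    L (φ (ψ (dl i))) = L (φ (dl j)) := by
  have e : ψ (dl i) = w * dl j * w⁻¹ := by
    rw [aut_dl, ha, hb]
    unfold dl cm
    group
  rw [e, map_mul, map_mul, map_inv]
  exact hL.cj_D (map_aut_mem φ hw) (map_aut_mem φ (dl_mem j))

theorem Adm.of_not {L : F h 0 → A} (hL : DHom L) {z o : Fin h} (hz : (z : ℕ) = 0)
    (ho : (o : ℕ) = 1) {d : F h 0} (hd : d ∈ DD h 0) (hne : L d ≠ 0)
    (hnot : ¬ ∃ φ ∈ MCGd h, L (φ (dl z)) ≠ 0 ∧ L (φ (dl o)) ≠ 0) : ∃ θ, Adm θ L := by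
  have hh : 2 ≤ h := by
    have := o.isLt
    omega
  have hzo : z ≠ o := by
    rintro rfl
    omega
  -- at most one nonzero value in every frame
  have h1 : ∀ φ ∈ MCGd h, ∀ i j, i ≠ j → L (φ (dl i)) ≠ 0 → L (φ (dl j)) = 0 := by
    intro φ hφ i j hij hi
    by_contra hj
    obtain ⟨s, hs1, hs2, -⟩ := n1_perm hzo hij
    obtain ⟨ψ, hψ, h2⟩ := perm_exists s
    apply hnot
    refine ⟨φ * ψ, (MCGd h).mul_mem hφ hψ, ?_, ?_⟩
    · obtain ⟨w, hw, ha, hb⟩ := h2 z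
      rw [hs1] at ha hb
      rw [MulAut.mul_apply, n1_cj hL (Dn_le h hw) ha hb]
      exact hi
    · obtain ⟨w, hw, ha, hb⟩ := h2 o
      rw [hs2] at ha hb
      rw [MulAut.mul_apply, n1_cj hL (Dn_le h hw) ha hb]
      exact hj
  -- the sum of the values
  have h2 : ∀ φ ∈ MCGd h, ∀ i, L (φ (dl i)) ≠ 0 → L (bdry h 0) = L (φ (dl i)) := by
    intro φ hφ i hi
    have h3 : φ (bdry h 0) = bdry h 0 := hφ
    have h4 : L (φ (bdry h 0)) = ∑ i : Fin h, L (φ (dl i)) := n1_bdry (hL.aut φ)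
    rw [h3] at h4
    rw [h4]
    exact Finset.sum_eq_single i (fun j _ hj => h1 φ hφ i j (Ne.symm hj) hi)
      (fun hi' => absurd (Finset.mem_univ i) hi')
  obtain ⟨φ0, hφ0, h3⟩ : ∃ φ ∈ MCGd h, L (φ (dl z)) ≠ 0 := by
    by_contra hcon
    push Not at hcon
    exact hne (J hL hh hz hcon d hd)
  have hθ : L (bdry h 0) ≠ 0 := by
    rw [h2 φ0 hφ0 z h3]
    exact h3
  refine ⟨L (bdry h 0), hL, hθ, fun φ hφ => ?_⟩
  obtain ⟨i, hi⟩ : ∃ i, L (φ (dl i)) ≠ 0 := by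
    by_contra hcon
    push Not at hcon
    apply hθ
    have h3' : φ (bdry h 0) = bdry h 0 := hφ
    have h4 : L (φ (bdry h 0)) = ∑ i : Fin h, L (φ (dl i)) := n1_bdry (hL.aut φ)
    rw [h3'] at h4
    rw [h4]
    exact Finset.sum_eq_zero fun i _ => hcon i
  exact ⟨i, (h2 φ hφ i hi).symm, fun j hj => h1 φ hφ i j (Ne.symm hj) hi⟩

/-- Every admissible `L` has index `0` in some frame. -/
theorem Adm.exists_zero {θ : A} {L : F h 0 → A} (hA : Adm θ L) {z : Fin h} (_hz : (z : ℕ) = 0) :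
    ∃ φ ∈ MCGd h, L (φ (dl z)) = θ := by
  obtain ⟨i0, h1, -⟩ := hA.one 1 (MCGd h).one_mem
  obtain ⟨φ, hφ, h2⟩ := perm_exists (Equiv.swap z i0)
  obtain ⟨w, hw, ha, hb⟩ := h2 z
  rw [Equiv.swap_apply_left] at ha hb
  refine ⟨φ, hφ, ?_⟩
  have h3 := n1_cj (φ := 1) hA.hom (Dn_le h hw) ha hb
  rw [MulAut.one_apply, MulAut.one_apply] at h3
  rw [h3]
  exact h1

/-! ### Frames -/

theorem n1_Fge {i z : Fin h} (hz : (z : ℕ) = 0) (hi : i ≠ z) : 1 ≤ (i : ℕ) := by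
  by_contra hcon
  apply hi
  apply Fin.ext
  omega

theorem n1_let_mem {i z : Fin h} (hz : (z : ℕ) = 0) (hi : i ≠ z) {c : F h 0} (hc : IsLet i c) :
    c ∈ Fge h 0 1 := by
  have h1 := n1_Fge hz hi
  rcases hc with rfl | rfl | rfl | rfl
  · exact Fge_a h1
  · exact Subgroup.inv_mem _ (Fge_a h1)
  · exact Fge_b h1
  · exact Subgroup.inv_mem _ (Fge_b h1)

theorem n1_cj_D1 {x c : F h 0} (hc : c ∈ Fge h 0 1) (hx : x ∈ D1 h) : c * x * c⁻¹ ∈ D1 h := by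
  have h1 : cm c x ∈ D1 h := Subgroup.commutator_mem_commutator hc (Subgroup.commutator_le_self _ hx)
  have e : c * x * c⁻¹ = cm c x * x := by
    unfold cm
    group
  rw [e]
  exact Subgroup.mul_mem _ h1 hx

/-- rotations of the handle `i` -/
structure N1Rot (i : Fin h) (ν : MulAut (F h 0)) : Prop where
  mem : ν ∈ MCGd h
  fix : ∀ l, l ≠ i → ν (ga l) = ga l ∧ ν (gb l) = gb l
  D1 : ∀ x ∈ D1 h, ν x ∈ D1 h

theorem N1Rot.one (i : Fin h) : N1Rot i (1 : MulAut (F h 0)) :=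
  ⟨(MCGd h).one_mem, fun _ _ => ⟨rfl, rfl⟩, fun _ hx => hx⟩

theorem N1Rot.mul {i : Fin h} {ν ν' : MulAut (F h 0)} (h1 : N1Rot i ν) (h2 : N1Rot i ν') :
    N1Rot i (ν * ν') := by
  refine ⟨(MCGd h).mul_mem h1.mem h2.mem, fun l hl => ?_, fun x hx => h1.D1 _ (h2.D1 x hx)⟩
  rw [MulAut.mul_apply, MulAut.mul_apply, (h2.fix l hl).1, (h2.fix l hl).2]
  exact h1.fix l hl

theorem n1_D1 {ν : MulAut (F h 0)} (hν : ∀ i : Fin h, 1 ≤ (i : ℕ) → ν (ga i) ∈ Fge h 0 1 ∧ ν (gb i) ∈ Fge h 0 1) :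
    ∀ x ∈ D1 h, ν x ∈ D1 h := by
  have h1 : (Fge h 0 1).map ν.toMonoidHom ≤ Fge h 0 1 := by
    rw [Subgroup.map_le_iff_le_comap]
    unfold Fge
    rw [Subgroup.closure_le]
    rintro x (⟨i, hi, rfl | rfl⟩ | ⟨j, -⟩)
    · exact (hν i hi).1
    · exact (hν i hi).2
    · exact j.elim0
  intro x hx
  have h2 : (D1 h).map ν.toMonoidHom ≤ D1 h := by
    unfold D1
    rw [Subgroup.map_commutator]
    exact Subgroup.commutator_mono h1 h1
  exact h2 ⟨x, hx, rfl⟩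

theorem n1_rr {z i : Fin h} (hz : (z : ℕ) = 0) (hi : i ≠ z) : N1Rot i (rr i : MulAut (F h 0)) := by
  refine ⟨rr_bdry i, fun l hl => ⟨rr_a' hl, rr_b' hl⟩, n1_D1 fun l hl => ?_⟩
  have h1 := n1_Fge hz hi
  by_cases hli : l = i
  · subst hli
    rw [rr_a, rr_b]
    exact ⟨Subgroup.mul_mem _ (Subgroup.mul_mem _ (Fge_a h1) (Fge_b h1))
      (Subgroup.inv_mem _ (Fge_a h1)), Subgroup.inv_mem _ (Fge_a h1)⟩
  · rw [rr_a' hli, rr_b' hli]
    exact ⟨Fge_a hl, Fge_b hl⟩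

/-- `y` is the image of `x` under a rotation, modulo `D1` -/
def N1R (i : Fin h) (x y : F h 0) : Prop := ∃ ν, N1Rot i ν ∧ y⁻¹ * ν x ∈ D1 h

theorem N1R.refl (i : Fin h) (x : F h 0) : N1R i x x :=
  ⟨1, N1Rot.one i, by rw [MulAut.one_apply, inv_mul_cancel]; exact Subgroup.one_mem _⟩

theorem N1R.trans {i : Fin h} {x y w : F h 0} (h1 : N1R i x y) (h2 : N1R i y w) : N1R i x w := by
  obtain ⟨ν, hν, h3⟩ := h1
  obtain ⟨ν', hν', h4⟩ := h2
  refine ⟨ν' * ν, hν'.mul hν, ?_⟩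
  have e : w⁻¹ * (ν' * ν) x = (w⁻¹ * ν' y) * ν' (y⁻¹ * ν x) := by
    rw [MulAut.mul_apply, map_mul, map_inv]
    group
  rw [e]
  exact Subgroup.mul_mem _ h4 (hν'.D1 _ h3)

theorem N1R.inv {i : Fin h} {x y : F h 0} (h1 : N1R i x y) (hy : y ∈ Fge h 0 1) :
    N1R i x⁻¹ y⁻¹ := by
  obtain ⟨ν, hν, h3⟩ := h1
  refine ⟨ν, hν, ?_⟩
  have e : y⁻¹⁻¹ * ν x⁻¹ = (y * (y⁻¹ * ν x) * y⁻¹)⁻¹ := by
    rw [map_inv]
    group
  rw [e]
  exact Subgroup.inv_mem _ (n1_cj_D1 hy h3)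

theorem n1_rot {z i : Fin h} (hz : (z : ℕ) = 0) (hi : i ≠ z) {x y : F h 0} (hx : IsLet i x)
    (hy : IsLet i y) : N1R i x y := by
  have h1 := n1_Fge hz hi
  have hab : N1R i (ga i : F h 0) (gb i) := by
    refine ⟨rr i, n1_rr hz hi, ?_⟩
    have e : (gb i)⁻¹ * rr i (ga i) = cm ((gb i)⁻¹ : F h 0) (ga i) := by
      rw [rr_a]
      unfold cm
      group
    rw [e]
    exact Subgroup.commutator_mem_commutator (Subgroup.inv_mem _ (Fge_b h1)) (Fge_a h1)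
  have hba : N1R i (gb i : F h 0) (ga i)⁻¹ := by
    refine ⟨rr i, n1_rr hz hi, ?_⟩
    rw [rr_b, inv_inv, mul_inv_cancel]
    exact Subgroup.one_mem _
  have hab' : N1R i (ga i : F h 0)⁻¹ (gb i)⁻¹ := hab.inv (Fge_b h1)
  have hba' : N1R i (gb i : F h 0)⁻¹ (ga i) := by
    have h2 := hba.inv (Subgroup.inv_mem _ (Fge_a h1))
    rwa [inv_inv] at h2
  have hto : N1R i x (ga i) := by
    rcases hx with rfl | rfl | rfl | rfl
    · exact N1R.refl i _
    · exact hab'.trans hba'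
    · exact hba.trans (hab'.trans hba')
    · exact hba'
  refine hto.trans ?_
  rcases hy with rfl | rfl | rfl | rfl
  · exact N1R.refl i _
  · exact hab.trans hba
  · exact hab
  · exact hab.trans (hba.trans hab')

/-- a letter of the handle `j'` is moved to the corresponding letter of `j` -/
theorem n1_move {φ : MulAut (F h 0)} {j j' : Fin h} {w c : F h 0}
    (ha : φ (ga j') = w * ga j * w⁻¹) (hb : φ (gb j') = w * gb j * w⁻¹) (hc : IsLet j' c) :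
    ∃ c', IsLet j c' ∧ φ c = w * c' * w⁻¹ := by
  rcases hc with rfl | rfl | rfl | rfl
  · exact ⟨ga j, Or.inl rfl, ha⟩
  · refine ⟨(ga j)⁻¹, Or.inr (Or.inl rfl), ?_⟩
    rw [map_inv, ha]
    group
  · exact ⟨gb j, Or.inr (Or.inr (Or.inl rfl)), hb⟩
  · refine ⟨(gb j)⁻¹, Or.inr (Or.inr (Or.inr rfl)), ?_⟩
    rw [map_inv, hb]
    group

theorem n1_fix_let {ν : MulAut (F h 0)} {i k : Fin h} (hν : N1Rot i ν) (hk : k ≠ i) {d : F h 0}
    (hd : IsLet k d) : ν d = d := by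
  rcases hd with rfl | rfl | rfl | rfl
  · exact (hν.fix k hk).1
  · rw [map_inv, (hν.fix k hk).1]
  · exact (hν.fix k hk).2
  · rw [map_inv, (hν.fix k hk).2]

/-- absorbing a conjugation -/
theorem n1_absorb {c x u : F h 0} (hc : c ∈ Fge h 0 1) (hu : u ∈ D1 h) (hx : c⁻¹ * x ∈ D1 h) :
    c⁻¹ * (u * x * u⁻¹) ∈ D1 h := by
  have e : c⁻¹ * (u * x * u⁻¹) = (c⁻¹ * u * c⁻¹⁻¹) * (c⁻¹ * x) * u⁻¹ := by group
  rw [e]
  exact Subgroup.mul_mem _ (Subgroup.mul_mem _ (n1_cj_D1 (Subgroup.inv_mem _ hc) hu) hx)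
    (Subgroup.inv_mem _ hu)

/-- Letters of two handles can be moved to letters of two other handles. -/
theorem frame2 {z j k j' k' : Fin h} (hz : (z : ℕ) = 0) (hj : j ≠ z) (hk : k ≠ z) (hjk : j ≠ k)
    (hj' : j' ≠ z) (hk' : k' ≠ z) (hjk' : j' ≠ k') {c d c' d' : F h 0} (hc : IsLet j c)
    (hd : IsLet k d) (hc' : IsLet j' c') (hd' : IsLet k' d') :
    ∃ μ ∈ MCGd h, μ (ga z) = ga z ∧ μ (gb z) = gb z ∧ c⁻¹ * μ c' ∈ D1 h ∧ d⁻¹ * μ d' ∈ D1 h := by
  obtain ⟨s, hs1, hs2, hs3⟩ := n1_perm hjk' hjk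
  have hsz : s z = z := hs3 z (Ne.symm hj') (Ne.symm hk') (Ne.symm hj) (Ne.symm hk)
  obtain ⟨φ, hφ, hφa, hφb, h1⟩ := perm_exists' hz s hsz
  obtain ⟨w, hw, ha, hb⟩ := h1 j' hj'
  obtain ⟨v, hv, ha', hb'⟩ := h1 k' hk'
  rw [hs1] at ha hb
  rw [hs2] at ha' hb'
  obtain ⟨c'', hc'', e1⟩ := n1_move ha hb hc'
  obtain ⟨d'', hd'', e2⟩ := n1_move ha' hb' hd'
  obtain ⟨ν, hν, hν1⟩ := n1_rot hz hj hc'' hc
  obtain ⟨ν', hν', hν1'⟩ := n1_rot hz hk hd'' hd
  refine ⟨ν * ν' * φ, (MCGd h).mul_mem ((MCGd h).mul_mem hν.mem hν'.mem) hφ, ?_, ?_, ?_, ?_⟩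
  · rw [MulAut.mul_apply, MulAut.mul_apply, hφa, (hν'.fix z (Ne.symm hk)).1,
      (hν.fix z (Ne.symm hj)).1]
  · rw [MulAut.mul_apply, MulAut.mul_apply, hφb, (hν'.fix z (Ne.symm hk)).2,
      (hν.fix z (Ne.symm hj)).2]
  · have e5 : (ν * ν' * φ) c' = ν (ν' w) * ν c'' * (ν (ν' w))⁻¹ := by
      simp only [MulAut.mul_apply, e1, map_mul, map_inv, n1_fix_let hν' hjk hc'']
    rw [e5]
    exact n1_absorb (n1_let_mem hz hj hc) (hν.D1 _ (hν'.D1 _ hw)) hν1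
  · have e3 : ν d = d := n1_fix_let hν (Ne.symm hjk) hd
    have e5 : (ν * ν' * φ) d' = ν (ν' v) * ν (ν' d'') * (ν (ν' v))⁻¹ := by
      simp only [MulAut.mul_apply, e2, map_mul, map_inv]
    rw [e5]
    refine n1_absorb (n1_let_mem hz hk hd) (hν.D1 _ (hν'.D1 _ hv)) ?_
    have e4 : d⁻¹ * ν (ν' d'') = ν (d⁻¹ * ν' d'') := by
      rw [map_mul, map_inv, e3]
    rw [e4]
    exact hν.D1 _ hν1'

theorem n1_cls {L : F h 0 → A} (hL : DHom L) {x y d : F h 0}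
    (hxy : Abelianization.of x = Abelianization.of y) (hd : d ∈ DD h 0) :
    L (x * d * x⁻¹) = L (y * d * y⁻¹) := hL.cj_eq (cls_iff.mpr hxy) hd

theorem n1_of_mem {x y : F h 0} (hxy : x⁻¹ * y ∈ D1 h) :
    Abelianization.of x = Abelianization.of y := cls_iff.mp (comm_le _ hxy)

theorem n1_grp {G : Type*} [Group G] (u v d : G) :
    u * (v * d * v⁻¹) * u⁻¹ = (u * v) * d * (u * v)⁻¹ := by group

theorem n1_aut_dl {z : Fin h} {μ : MulAut (F h 0)} (ha : μ (ga z) = ga z) (hb : μ (gb z) = gb z) :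
    μ (dl z) = dl z := by
  rw [aut_dl, ha, hb]
  rfl

section

variable {θ : A} {L : F h 0 → A} {z : Fin h}

/-- (N1) -/
theorem Adm.flat (hA : Adm θ L) (hh : 3 ≤ h) (hz : (z : ℕ) = 0) (h0 : L (dl z) = θ) {d : F h 0}
    (hd : d ∈ D1 h) : L d = 0 := by
  have hm : 1 + (h - 1) = h := by omega
  have hm' : 1 + (h - 1) ≤ h := by omega
  have h1 : d ∈ ⁅Bk h 0 1 (h - 1), Bk h 0 1 (h - 1)⁆ := by
    rw [Bk_eq_Fge hm]
    exact hd
  obtain ⟨x, hx, rfl⟩ := (mem_blk_DD hm').mp h1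
  have hL' : DHom fun x : F (h - 1) 0 => L (blk (h - 1) h 0 1 hm' x) := hA.hom.comp _
  refine J (z := ⟨0, by omega⟩) hL' (by omega) rfl (fun ψ hψ => ?_) x hx
  obtain ⟨Ψ, h2, h3, h4, h5, h6⟩ := st_Blk (g := h) (n := 0) hm' ψ hψ
  show L (blk (h - 1) h 0 1 hm' (ψ (dl ⟨0, by omega⟩))) = 0
  rw [← h4, blk_dl]
  have h7 := h5 z (Or.inl (by omega))
  refine (hA.aut (φ := Ψ) h3).other (i := z) ?_ ?_
  · show L (Ψ (dl z)) = θ
    rw [n1_aut_dl h7.1 h7.2]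
    exact h0
  · intro h8
    have h9 := congrArg Fin.val h8
    simp only at h9
    omega

/-- (N2) for the letters `gb` -/
theorem n1_n2b (hA : Adm θ L) (hz : (z : ℕ) = 0) (h0 : L (dl z) = θ) {j k : Fin h} (hj : j ≠ z)
    (hk : k ≠ z) (hjk : j ≠ k) (hF : L (gb k * dl z * (gb k)⁻¹) = 0) :
    L ((gb j * gb k) * dl z * (gb j * gb k)⁻¹) = 0 := by
  have hzj : (z : ℕ) < j := by have := n1_Fge hz hj; omega
  have hzk : (z : ℕ) < k := by have := n1_Fge hz hk; omega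
  have hD := dl_mem (n := 0) z
  have hmid : mid h 0 z k ∈ DD h 0 := by
    unfold mid
    unfold seg
    apply Subgroup.list_prod_mem
    intro x hx
    rw [List.mem_map] at hx
    obtain ⟨l, -, rfl⟩ := hx
    unfold hd
    split_ifs
    · exact cm_mem _ _
    · exact Subgroup.one_mem _
  have hpx : px z k ∈ DD h 0 := cj_mem' hD _
  have hpy : py z k ∈ DD h 0 := cj_mem hpx _
  have v1 : L (px z k) = θ := by
    have h1 := hA.hom.cj_D (Subgroup.inv_mem _ hmid) hD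
    rw [inv_inv] at h1
    unfold px
    rw [h1]
    exact h0
  have v2 : L (py z k) = 0 := by
    have e : py z k = (gb k * (mid h 0 z k)⁻¹) * dl z * (gb k * (mid h 0 z k)⁻¹)⁻¹ := by
      unfold py px
      group
    rw [e, ← hF]
    refine hA.hom.cj_eq ?_ hD
    have e2 : (gb k * (mid h 0 z k)⁻¹)⁻¹ * gb k = mid h 0 z k := by group
    rw [e2]
    exact hmid
  have h1 : Adm θ fun x => L (Pb z k hzk (Pb z j hzj x)) :=
    hA.aut (φ := Pb z k hzk * Pb z j hzj) ((MCGd h).mul_mem (Pb_bdry hzk) (Pb_bdry hzj))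
  have hk0 : L (dl k) = 0 := hA.other h0 hk
  have v3 : L (Pb z k hzk (Pb z j hzj (dl k))) = θ := by
    have e : Pb z j hzj (dl k : F h 0) = dl k := by
      rw [aut_dl, Pb_a' hzj hk (Ne.symm hjk), Pb_b' hzj hk (Ne.symm hjk)]
      rfl
    rw [e, Pb_dj, hA.hom _ (Subgroup.mul_mem _ (Subgroup.inv_mem _ hpy) hpx) _ (dl_mem k),
      hA.hom _ (Subgroup.inv_mem _ hpy) _ hpx, hA.hom.map_inv hpy, v1, v2, hk0]
    abel
  have v4 : L (Pb z k hzk (Pb z j hzj (dl z))) = 0 := h1.other v3 (Ne.symm hk)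
  rw [← v4, Pb_di]
  unfold pY
  rw [map_mul, map_mul, map_inv, Pb_di]
  unfold pY
  rw [n1_grp]
  refine n1_cls hA.hom ?_ hD
  have e2 : Abelianization.of (Pb z k hzk (tw z j) : F h 0) = Abelianization.of (tw z j) :=
    (cls_iff.mp (Pb_cls hzk (tw z j))).symm
  rw [map_mul, map_mul, e2, of_tw, of_tw]

/-- (N2) -/
theorem Adm.n2 (hA : Adm θ L) (hz : (z : ℕ) = 0) (h0 : L (dl z) = θ) {j k : Fin h} (hj : j ≠ z)
    (hk : k ≠ z) (hjk : j ≠ k) {c d : F h 0} (hc : IsLet j c) (hd : IsLet k d)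
    (hF : L (d * dl z * d⁻¹) = 0) : L ((c * d) * dl z * (c * d)⁻¹) = 0 := by
  have hD := dl_mem (n := 0) z
  obtain ⟨μ, hμ, ha, hb, h1, h2⟩ := frame2 hz hj hk hjk hj hk hjk hc hd
    (c' := gb j) (d' := gb k) (Or.inr (Or.inr (Or.inl rfl))) (Or.inr (Or.inr (Or.inl rfl)))
  have hA' := hA.aut hμ
  have e0 := n1_aut_dl ha hb
  have h3 : L (μ (dl z)) = θ := by rw [e0]; exact h0
  have h4 : L (μ (gb k * dl z * (gb k)⁻¹)) = 0 := by
    rw [map_mul, map_mul, map_inv, e0, ← hF]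
    exact n1_cls hA.hom (n1_of_mem h2).symm hD
  have h5 := n1_n2b hA' hz h3 hj hk hjk h4
  have h6 : L (μ ((gb j * gb k) * dl z * (gb j * gb k)⁻¹)) = 0 := h5
  rw [← h6, map_mul, map_mul, map_inv, e0]
  refine n1_cls hA.hom ?_ hD
  rw [map_mul, map_mul, map_mul, n1_of_mem h1, n1_of_mem h2]

/-- (N3), one pair of letters -/
theorem n1_n3a (hA : Adm θ L) (hz : (z : ℕ) = 0) (h0 : L (dl z) = θ) {j k : Fin h} (hj : j ≠ z)
    (hk : k ≠ z) (hjk : j ≠ k) (hF : L (ga j * dl z * (ga j)⁻¹) = 0) :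
    L (gb k * dl z * (gb k)⁻¹) = 0 := by
  have hD := dl_mem (n := 0) z
  have h1 : L ((gb k * ga j) * dl z * (gb k * ga j)⁻¹) = 0 :=
    hA.n2 hz h0 hk hj (Ne.symm hjk) (Or.inr (Or.inr (Or.inl rfl))) (Or.inl rfl) hF
  -- the frame
  obtain ⟨μ, hμ, ha, hb, h2, h3⟩ : ∃ μ ∈ MCGd h, μ (ga z) = ga z ∧ μ (gb z) = gb z ∧
      Abelianization.of (μ (ga j)) = Abelianization.of (ga j : F h 0) ∧
      Abelianization.of (μ (gb k)) = Abelianization.of (gb k * ga j : F h 0) := by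
    rcases lt_or_gt_of_ne (fun e => hjk (Fin.ext e) : (j : ℕ) ≠ k) with hlt | hlt
    · refine ⟨Lp j k hlt, Lp_bdry hlt, Lp_a' hlt (Ne.symm hj) (Ne.symm hk),
        Lp_b' hlt (Ne.symm hj) (Ne.symm hk), ?_, ?_⟩
      · rw [Lp_az]
      · exact (cls_iff.mp (Lp_cls_bo hlt)).symm
    · refine ⟨Lp k j hlt, Lp_bdry hlt, Lp_a' hlt (Ne.symm hk) (Ne.symm hj),
        Lp_b' hlt (Ne.symm hk) (Ne.symm hj), ?_, ?_⟩
      · exact (cls_iff.mp (Lp_cls_ao hlt)).symm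
      · exact (cls_iff.mp (Lp_cls_bz hlt)).symm
  have hA' := hA.aut hμ
  have e0 := n1_aut_dl ha hb
  have h4 : L (μ (dl z)) = θ := by rw [e0]; exact h0
  have h5 : L (μ (gb k * dl z * (gb k)⁻¹)) = 0 := by
    rw [map_mul, map_mul, map_inv, e0, ← h1]
    exact n1_cls hA.hom h3 hD
  have h6 : L (μ (((ga j)⁻¹ * gb k) * dl z * ((ga j)⁻¹ * gb k)⁻¹)) = 0 :=
    hA'.n2 hz h4 hj hk hjk (Or.inr (Or.inl rfl)) (Or.inr (Or.inr (Or.inl rfl))) h5
  rw [← h6, map_mul, map_mul, map_inv, e0]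
  refine n1_cls hA.hom ?_ hD
  rw [map_mul, map_mul, map_inv, map_inv, h2, h3, map_mul, mul_comm (Abelianization.of (gb k)),
    inv_mul_cancel_left]

/-- (N3), different handles -/
theorem n1_n3b (hA : Adm θ L) (hz : (z : ℕ) = 0) (h0 : L (dl z) = θ) {j k : Fin h}
    (hj : j ≠ z) (hk : k ≠ z) (hjk : j ≠ k) {c d : F h 0} (hc : IsLet j c) (hd : IsLet k d)
    (hF : L (c * dl z * c⁻¹) = 0) : L (d * dl z * d⁻¹) = 0 := by
  have hD := dl_mem (n := 0) z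
  obtain ⟨μ, hμ, ha, hb, h1, h2⟩ := frame2 hz hj hk hjk hj hk hjk hc hd
    (c' := ga j) (d' := gb k) (Or.inl rfl) (Or.inr (Or.inr (Or.inl rfl)))
  have hA' := hA.aut hμ
  have e0 := n1_aut_dl ha hb
  have h3 : L (μ (dl z)) = θ := by rw [e0]; exact h0
  have h4 : L (μ (ga j * dl z * (ga j)⁻¹)) = 0 := by
    rw [map_mul, map_mul, map_inv, e0, ← hF]
    exact n1_cls hA.hom (n1_of_mem h1).symm hD
  have h5 : L (μ (gb k * dl z * (gb k)⁻¹)) = 0 := n1_n3a hA' hz h3 hj hk hjk h4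
  rw [← h5, map_mul, map_mul, map_inv, e0]
  exact n1_cls hA.hom (n1_of_mem h2) hD

/-- (N3) -/
theorem Adm.n3 (hA : Adm θ L) (hh : 3 ≤ h) (hz : (z : ℕ) = 0) (h0 : L (dl z) = θ) {j k : Fin h}
    (hj : j ≠ z) (hk : k ≠ z) {c d : F h 0} (hc : IsLet j c) (hd : IsLet k d)
    (hF : L (c * dl z * c⁻¹) = 0) : L (d * dl z * d⁻¹) = 0 := by
  by_cases hjk : j = k
  · subst hjk
    obtain ⟨m, hm, hmj⟩ : ∃ m : Fin h, m ≠ z ∧ m ≠ j := by
      by_cases h1 : (j : ℕ) = 1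
      · refine ⟨⟨2, by omega⟩, ?_, ?_⟩
        · intro h2
          have h3 := congrArg Fin.val h2
          simp only at h3
          omega
        · intro h2
          have h3 := congrArg Fin.val h2
          simp only at h3
          omega
      · refine ⟨⟨1, by omega⟩, ?_, ?_⟩
        · intro h2
          have h3 := congrArg Fin.val h2
          simp only at h3
          omega
        · intro h2
          have h3 := congrArg Fin.val h2
          simp only at h3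
          omega
    have h1 : L (ga m * dl z * (ga m)⁻¹) = 0 :=
      n1_n3b hA hz h0 hj hm (Ne.symm hmj) hc (Or.inl rfl) hF
    exact n1_n3b hA hz h0 hm hj hmj (Or.inl rfl) hd h1
  · exact n1_n3b hA hz h0 hj hk hjk hc hd hF

end

end Pool.Agent.PWM
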