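import Pool.Agent.PWM.N1

/-!
# Theorem N', part 2 (paper, section 5: N4)

`z`, `o`, `t` are the handles 0, 1, 2; `F u = L (u dl z u⁻¹)`.
* `Adm.swp`: if `L` has index 0 and `F (gb o) = 0` then `L' = L ∘ Pb z o ∘ Sw z o` has index 0 as well, and (values of `L'` on
  conjugates of `dl z` and `dl o`, with `s = Sw z o`):
  `L' (q dl z q⁻¹) = L (s q . dl o) + F (s q) - F (s q * gb o)`, `L' (q dl o q⁻¹) = F (s q * gb o)`.
* `Adm.swp_zero`: `L' (gb o dl z (gb o)⁻¹) = 0` (by `Adm.flat`, `n2` the value of `L'` at `gb t` is `0`, then `n3` for `L'`).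
* `Adm.val_b0`: `L (s0 dl i s0⁻¹) = - F s0` for `s0 = gb z` or `(gb z)⁻¹`, `i = o` (from `n3` and `flat` for `L'`) and `i = t`
  (the same in the frame `Sw o t`).
* `Adm.two_b0`: a frame with the values `L (s0 dl o s0⁻¹)`, `L (s0 dl t s0⁻¹)` at two different handles: a permutation
  `(T_z, T_o, T_t) ↦ (T_o, T_t, T_z)` (up to conjugation by `Dn`) followed on the right by `Pb z t * Pb o t` or its inverse.
* `Adm.z_zero` (Z): so `L (s0 dl o s0⁻¹) = 0`.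
* `Adm.n4`: (Z) for `L'` and `s0 = (gb z)⁻¹` says `0 = F (1) = θ`: contradiction, so `F (gb o) ≠ 0`.  `F (gb o) = θ` because
  it is the value of `L ∘ Pb z o` at `z`.  Any letter by `n3`.
-/

namespace Pool.Agent.PWM

open Pool.Agent.PW

variable {h : ℕ} {A : Type*} [AddCommGroup A] {θ : A} {L : F h 0 → A} {z o t : Fin h}

/-- the functional `L'` -/
def Lq (L : F h 0 → A) (z o : Fin h) (ho : (o : ℕ) = z + 1) (x : F h 0) : A :=
  L (Pb z o (by omega) (Sw z o ho x))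

/-- the automorphism behind `Lq` -/
def n2_phi (z o : Fin h) (ho : (o : ℕ) = z + 1) : MulAut (F h 0) :=
  Pb z o (by omega) * Sw z o ho

theorem n2_phi_mem (ho : (o : ℕ) = z + 1) : n2_phi z o ho ∈ MCGd h :=
  (MCGd h).mul_mem (Pb_bdry (n := 0) (by omega)) (Sw_bdry ho)

/-- `y = Y` for neighbours -/
theorem n2_pY (ho : (o : ℕ) = z + 1) : pY (n := 0) z o = gb o * dl z * (gb o)⁻¹ := by
  unfold pY
  rw [tw_one ho]

theorem n2_px (ho : (o : ℕ) = z + 1) : px (n := 0) z o = dl z := by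
  unfold px
  rw [mid_one ho]
  group

theorem n2_py (ho : (o : ℕ) = z + 1) : py (n := 0) z o = gb o * dl z * (gb o)⁻¹ := by
  unfold py
  rw [n2_px ho]

theorem n2_Pdo (ho : (o : ℕ) = z + 1) (hlt : (z : ℕ) < o) :
    Pb (n := 0) z o hlt (dl o) = (gb o * dl z * (gb o)⁻¹)⁻¹ * dl z * dl o := by
  rw [Pb_dj, n2_py ho, n2_px ho]

theorem n2_Pdz (ho : (o : ℕ) = z + 1) (hlt : (z : ℕ) < o) :
    Pb (n := 0) z o hlt (dl z) = gb o * dl z * (gb o)⁻¹ := by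
  rw [Pb_di, n2_pY ho]

/-- `[x] = [y]` is transported by `Pb` -/
theorem n2_cls {x y : F h 0} (hlt : (z : ℕ) < o) (hxy : x⁻¹ * y ∈ DD h 0) :
    x⁻¹ * Pb z o hlt y ∈ DD h 0 := by
  have h1 := Pb_cls (n := 0) hlt y
  have e : x⁻¹ * Pb z o hlt y = (x⁻¹ * y) * (y⁻¹ * Pb z o hlt y) := by group
  rw [e]
  exact Subgroup.mul_mem _ hxy h1

/-- conjugates of the values -/
theorem n2_val (hL : DHom L) (s : F h 0) :
    L (s * ((gb o * dl z * (gb o)⁻¹)⁻¹ * dl z * dl o) * s⁻¹) =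
      L (s * dl o * s⁻¹) + L (s * dl z * s⁻¹) - L ((s * gb o) * dl z * (s * gb o)⁻¹) := by
  have hY : gb o * dl z * (gb o)⁻¹ ∈ DD h 0 := cj_mem (dl_mem z) _
  have e : s * (gb o * dl z * (gb o)⁻¹) * s⁻¹ = (s * gb o) * dl z * (s * gb o)⁻¹ := by group
  rw [hL.cj_mul s (Subgroup.mul_mem _ (Subgroup.inv_mem _ hY) (dl_mem z)) (dl_mem o),
    hL.cj_mul s (Subgroup.inv_mem _ hY) (dl_mem z), hL.cj_inv s hY, e]
  abel

theorem Adm.swp (hA : Adm θ L) (ho : (o : ℕ) = z + 1)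
    (h0 : L (dl z) = θ) (hF : L (gb o * dl z * (gb o)⁻¹) = 0) :
    Adm θ (Lq L z o ho) ∧ Lq L z o ho (dl z) = θ := by
  refine ⟨hA.aut (n2_phi_mem ho), ?_⟩
  have hlt : (z : ℕ) < o := by omega
  have hoz : o ≠ z := ne_of_succ ho
  have e : Lq L z o ho (dl z) = L (Pb z o hlt (Sw z o ho (dl z))) := rfl
  rw [e, Sw_dli, map_mul, map_mul, map_inv,
    hA.hom.cj_D (map_aut_mem _ (dl_mem z)) (map_aut_mem _ (dl_mem o)), n2_Pdo ho hlt]
  have h1 := n2_val hA.hom (z := z) (o := o) (1 : F h 0)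
  have e1 : (1 : F h 0) * ((gb o * dl z * (gb o)⁻¹)⁻¹ * dl z * dl o) * 1⁻¹ =
      (gb o * dl z * (gb o)⁻¹)⁻¹ * dl z * dl o := by group
  have e2 : (1 : F h 0) * dl o * 1⁻¹ = dl o := by group
  have e3 : (1 : F h 0) * dl z * 1⁻¹ = dl z := by group
  have e4 : ((1 : F h 0) * gb o) * dl z * (1 * gb o)⁻¹ = gb o * dl z * (gb o)⁻¹ := by group
  rw [e1, e2, e3, e4, hF, h0, hA.other h0 hoz] at h1
  rw [h1]
  abel

theorem Lq_dz (hL : DHom L) (ho : (o : ℕ) = z + 1) (q : F h 0) :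
    Lq L z o ho (q * dl z * q⁻¹) =
      L (Sw z o ho q * dl o * (Sw z o ho q)⁻¹) + L (Sw z o ho q * dl z * (Sw z o ho q)⁻¹) -
        L ((Sw z o ho q * gb o) * dl z * (Sw z o ho q * gb o)⁻¹) := by
  have hlt : (z : ℕ) < o := by omega
  have e : Lq L z o ho (q * dl z * q⁻¹) = L (Pb z o hlt (Sw z o ho (q * dl z * q⁻¹))) := rfl
  rw [e, map_mul (Sw z o ho), map_mul (Sw z o ho), map_inv (Sw z o ho), Sw_dli]
  generalize Sw z o ho q = s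
  have e1 : s * (dl z * dl o * (dl z)⁻¹) * s⁻¹ = (s * dl z) * dl o * (s * dl z)⁻¹ := by group
  rw [e1, map_mul, map_mul, map_inv, n2_Pdo ho hlt]
  have hd : (gb o * dl z * (gb o)⁻¹)⁻¹ * dl z * dl o ∈ DD h 0 :=
    Subgroup.mul_mem _ (Subgroup.mul_mem _ (Subgroup.inv_mem _ (cj_mem (dl_mem z) _))
      (dl_mem z)) (dl_mem o)
  have hc : s⁻¹ * Pb z o hlt (s * dl z) ∈ DD h 0 := by
    apply n2_cls hlt
    have : s⁻¹ * (s * dl z) = dl z := by group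
    rw [this]
    exact dl_mem z
  rw [← hL.cj_eq hc hd, n2_val hL s]

theorem Lq_do (hL : DHom L) (ho : (o : ℕ) = z + 1) (q : F h 0) :
    Lq L z o ho (q * dl o * q⁻¹) =
      L ((Sw z o ho q * gb o) * dl z * (Sw z o ho q * gb o)⁻¹) := by
  have hlt : (z : ℕ) < o := by omega
  have e : Lq L z o ho (q * dl o * q⁻¹) = L (Pb z o hlt (Sw z o ho (q * dl o * q⁻¹))) := rfl
  rw [e, map_mul (Sw z o ho), map_mul (Sw z o ho), map_inv (Sw z o ho), Sw_dlj]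
  generalize Sw z o ho q = s
  rw [map_mul, map_mul, map_inv, n2_Pdz ho hlt]
  have hc : s⁻¹ * Pb z o hlt s ∈ DD h 0 := Pb_cls hlt s
  rw [← hL.cj_eq hc (cj_mem (dl_mem z) (gb o))]
  congr 1
  group

/-- the handle after `o` -/
theorem n2_third (hh : 3 ≤ h) (hz : (z : ℕ) = 0) (ho : (o : ℕ) = z + 1) :
    ∃ t : Fin h, (t : ℕ) = o + 1 :=
  ⟨⟨o + 1, by omega⟩, rfl⟩

theorem Adm.swp_zero (hA : Adm θ L) (hh : 3 ≤ h) (hz : (z : ℕ) = 0) (ho : (o : ℕ) = z + 1)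
    (h0 : L (dl z) = θ) (hF : L (gb o * dl z * (gb o)⁻¹) = 0) {j : Fin h} (hj : j ≠ z) {c : F h 0}
    (hc : IsLet j c) : Lq L z o ho (c * dl z * c⁻¹) = 0 := by
  obtain ⟨t, ht⟩ := n2_third hh hz ho
  have hoz : o ≠ z := ne_of_succ ho
  have hto : t ≠ o := ne_of_succ ht
  have htz : t ≠ z := by
    rintro rfl
    omega
  obtain ⟨hA', h0'⟩ := hA.swp ho h0 hF
  have lo : IsLet o (gb o : F h 0) := Or.inr (Or.inr (Or.inl rfl))
  have lt : IsLet t (gb t : F h 0) := Or.inr (Or.inr (Or.inl rfl))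
  have v1 : L (gb t * dl z * (gb t)⁻¹) = 0 := hA.n3 hh hz h0 hoz htz lo lt hF
  have v2 : L ((gb t * gb o) * dl z * (gb t * gb o)⁻¹) = 0 :=
    hA.n2 hz h0 htz hoz hto lt lo hF
  have v3 : L (gb t * dl o * (gb t)⁻¹) = 0 := by
    apply hA.flat hh hz h0
    apply mem_comm_of_mem
    · have h1 : gb t ∈ Fge h 0 1 := Fge_b (by omega)
      have h2 : dl o ∈ Fge h 0 1 := by
        have h3 : ga o ∈ Fge h 0 1 := Fge_a (by omega)
        have h4 : gb o ∈ Fge h 0 1 := Fge_b (by omega)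
        unfold dl cm
        exact Subgroup.mul_mem _ (Subgroup.mul_mem _ (Subgroup.mul_mem _ h3 h4)
          (Subgroup.inv_mem _ h3)) (Subgroup.inv_mem _ h4)
      exact Subgroup.mul_mem _ (Subgroup.mul_mem _ h1 h2) (Subgroup.inv_mem _ h1)
    · exact cj_mem (dl_mem o) _
  have v4 : Lq L z o ho (gb t * dl z * (gb t)⁻¹) = 0 := by
    rw [Lq_dz hA.hom ho, Sw_b' ho htz hto, v1, v2, v3]
    abel
  exact hA'.n3 hh hz h0' htz hj lt hc v4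

/-- the value at a conjugate of `dl o` by an element of the handles after the first one -/
theorem Adm.n2_flat (hA : Adm θ L) (hh : 3 ≤ h) (hz : (z : ℕ) = 0) (h0 : L (dl z) = θ)
    {o : Fin h} (ho : o ≠ z) {q : F h 0} (hq : q ∈ Fge h 0 1) : L (q * dl o * q⁻¹) = 0 := by
  have hpos := pos_of_ne hz ho
  apply hA.flat hh hz h0
  apply mem_comm_of_mem
  · have h2 : dl o ∈ Fge h 0 1 := by
      have h3 : ga o ∈ Fge h 0 1 := Fge_a (by omega)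
      have h4 : gb o ∈ Fge h 0 1 := Fge_b (by omega)
      unfold dl cm
      exact Subgroup.mul_mem _ (Subgroup.mul_mem _ (Subgroup.mul_mem _ h3 h4)
        (Subgroup.inv_mem _ h3)) (Subgroup.inv_mem _ h4)
    exact Subgroup.mul_mem _ (Subgroup.mul_mem _ hq h2) (Subgroup.inv_mem _ hq)
  · exact cj_mem (dl_mem o) _

theorem Adm.val_o (hA : Adm θ L) (hh : 3 ≤ h) (hz : (z : ℕ) = 0) (ho : (o : ℕ) = z + 1)
    (h0 : L (dl z) = θ) (hF : L (gb o * dl z * (gb o)⁻¹) = 0) {s : F h 0}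
    (hs : s = gb z ∨ s = (gb z)⁻¹) : L (s * dl o * s⁻¹) = -L (s * dl z * s⁻¹) := by
  have hoz : o ≠ z := ne_of_succ ho
  obtain ⟨hA', h0'⟩ := hA.swp ho h0 hF
  obtain ⟨q, hq, hqs, hqF⟩ : ∃ q : F h 0, IsLet o q ∧ Sw z o ho q = s ∧ q ∈ Fge h 0 1 := by
    rcases hs with rfl | rfl
    · exact ⟨gb o, Or.inr (Or.inr (Or.inl rfl)), Sw_bj ho, Fge_b (by omega)⟩
    · refine ⟨(gb o)⁻¹, Or.inr (Or.inr (Or.inr rfl)), ?_, Subgroup.inv_mem _ (Fge_b (by omega))⟩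
      rw [map_inv, Sw_bj ho]
  have v1 := hA.swp_zero hh hz ho h0 hF hoz hq
  have v2 := hA'.n2_flat hh hz h0' hoz hqF
  rw [Lq_do hA.hom ho, hqs] at v2
  rw [Lq_dz hA.hom ho, hqs, v2, sub_zero] at v1
  exact eq_neg_of_add_eq_zero_left v1

theorem Adm.val_b0 (hA : Adm θ L) (hh : 3 ≤ h) (hz : (z : ℕ) = 0) (ho : (o : ℕ) = z + 1)
    (ht : (t : ℕ) = o + 1) (h0 : L (dl z) = θ) (hF : L (gb o * dl z * (gb o)⁻¹) = 0) {s : F h 0}
    (hs : s = gb z ∨ s = (gb z)⁻¹) :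
    L (s * dl o * s⁻¹) = -L (s * dl z * s⁻¹) ∧ L (s * dl t * s⁻¹) = -L (s * dl z * s⁻¹) := by
  refine ⟨hA.val_o hh hz ho h0 hF hs, ?_⟩
  have hoz : o ≠ z := ne_of_succ ho
  have hto : t ≠ o := ne_of_succ ht
  have htz : t ≠ z := by
    rintro rfl
    omega
  have hσ : Sw o t ht ∈ MCGd h := Sw_bdry ht
  have hA'' : Adm θ fun x => L (Sw o t ht x) := hA.aut hσ
  have sz : Sw (n := 0) o t ht (dl z) = dl z := by
    rw [aut_dl, Sw_a' ht hoz.symm htz.symm, Sw_b' ht hoz.symm htz.symm]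
    rfl
  have ss : Sw o t ht s = s := by
    rcases hs with rfl | rfl
    · exact Sw_b' ht hoz.symm htz.symm
    · rw [map_inv, Sw_b' ht hoz.symm htz.symm]
  have lo : IsLet o (gb o : F h 0) := Or.inr (Or.inr (Or.inl rfl))
  have lt : IsLet t (gb t : F h 0) := Or.inr (Or.inr (Or.inl rfl))
  have v1 : L (gb t * dl z * (gb t)⁻¹) = 0 := hA.n3 hh hz h0 hoz htz lo lt hF
  have h0'' : (fun x => L (Sw o t ht x)) (dl z) = θ := by
    show L (Sw o t ht (dl z)) = θ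
    rw [sz, h0]
  have hF'' : (fun x => L (Sw o t ht x)) (gb o * dl z * (gb o)⁻¹) = 0 := by
    show L (Sw o t ht (gb o * dl z * (gb o)⁻¹)) = 0
    rw [map_mul, map_mul, map_inv, sz, Sw_bi ht, ← v1]
    symm
    apply hA.hom.cj_eq _ (dl_mem z)
    have e : (gb t : F h 0)⁻¹ * (dl o * gb t * (dl o)⁻¹) =
        ((gb t)⁻¹ * dl o * (gb t)⁻¹⁻¹) * (dl o)⁻¹ := by
      group
    rw [e]
    exact Subgroup.mul_mem _ (cj_mem (dl_mem o) _) (Subgroup.inv_mem _ (dl_mem o))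
  have v2 : L (Sw o t ht (s * dl o * s⁻¹)) = -L (Sw o t ht (s * dl z * s⁻¹)) :=
    hA''.val_o hh hz ho h0'' hF'' hs
  rw [map_mul, map_mul, map_inv, ss, Sw_dli, map_mul, map_mul, map_inv, ss, sz] at v2
  have e1 : s * (dl o * dl t * (dl o)⁻¹) * s⁻¹ = (s * dl o) * dl t * (s * dl o)⁻¹ := by group
  have hc : s⁻¹ * (s * dl o) ∈ DD h 0 := by
    have : s⁻¹ * (s * dl o) = dl o := by group
    rw [this]
    exact dl_mem o
  rw [e1, ← hA.hom.cj_eq hc (dl_mem t)] at v2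
  exact v2

/-- two pushes around the same class -/
theorem Adm.n2_two (hA : Adm θ L) {π Q : MulAut (F h 0)} (hπ : π ∈ MCGd h) (hQ : Q ∈ MCGd h)
    {i j : Fin h} (hij : i ≠ j) {i' j' : Fin h} {c s u v wi wj : F h 0}
    (hwi : wi ∈ DD h 0) (hwj : wj ∈ DD h 0)
    (hpi : π (dl i) = wi * dl i' * wi⁻¹) (hpj : π (dl j) = wj * dl j' * wj⁻¹)
    (hs : s⁻¹ * π c ∈ DD h 0) (hu : c⁻¹ * u ∈ DD h 0) (hv : c⁻¹ * v ∈ DD h 0)
    (hQi : Q (dl i) = u * dl i * u⁻¹) (hQj : Q (dl j) = v * dl j * v⁻¹) :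
    ¬ (L (s * dl i' * s⁻¹) ≠ 0 ∧ L (s * dl j' * s⁻¹) ≠ 0) := by
  have key : ∀ {k k' : Fin h} {w x : F h 0}, w ∈ DD h 0 → π (dl k) = w * dl k' * w⁻¹ →
      c⁻¹ * x ∈ DD h 0 → Q (dl k) = x * dl k * x⁻¹ →
      L ((π * Q) (dl k)) = L (s * dl k' * s⁻¹) := by
    intro k k' w x hw hp hx hq
    rw [MulAut.mul_apply, hq, map_mul, map_mul, map_inv, hp]
    have e : π x * (w * dl k' * w⁻¹) * (π x)⁻¹ = (π x * w) * dl k' * (π x * w)⁻¹ := by group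
    rw [e]
    symm
    apply hA.hom.cj_eq _ (dl_mem k')
    have e2 : s⁻¹ * (π x * w) = (s⁻¹ * π c) * π (c⁻¹ * x) * w := by
      rw [map_mul, map_inv]
      group
    rw [e2]
    exact Subgroup.mul_mem _ (Subgroup.mul_mem _ hs (map_aut_mem _ hx)) hw
  have k1 := key hwi hpi hu hQi
  have k2 := key hwj hpj hv hQj
  rintro ⟨h1, h2⟩
  obtain ⟨m, hm1, hm2⟩ := hA.one (π * Q) ((MCGd h).mul_mem hπ hQ)
  rcases eq_or_ne i m with rfl | hne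
  · exact h2 (k2 ▸ hm2 j hij.symm)
  · exact h1 (k1 ▸ hm2 i hne)

/-- the inverse of a push -/
theorem n2_inv {Q : MulAut (F h 0)} (hcls : ∀ x, x⁻¹ * Q x ∈ DD h 0) {i : Fin h} {c u : F h 0}
    (hu : c⁻¹ * u ∈ DD h 0) (hQi : Q (dl i) = u * dl i * u⁻¹) :
    ∃ u', c⁻¹⁻¹ * u' ∈ DD h 0 ∧ Q⁻¹ (dl i) = u' * dl i * u'⁻¹ := by
  refine ⟨(Q⁻¹ u)⁻¹, ?_, ?_⟩
  · have h1 := hcls (Q⁻¹ u)
    rw [MulAut.apply_inv_self] at h1
    have h2 : (Q⁻¹ u)⁻¹ * c ∈ DD h 0 := by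
      have e : (Q⁻¹ u)⁻¹ * c = ((Q⁻¹ u)⁻¹ * u) * (c⁻¹ * u)⁻¹ := by group
      rw [e]
      exact Subgroup.mul_mem _ h1 (Subgroup.inv_mem _ hu)
    have e : c⁻¹⁻¹ * (Q⁻¹ u)⁻¹ = c * ((Q⁻¹ u)⁻¹ * c) * c⁻¹ := by group
    rw [e]
    exact cj_mem h2 c
  · have h1 : Q⁻¹ (Q (dl i)) = dl i := MulAut.inv_apply_self _ _ _
    rw [hQi, map_mul, map_mul, map_inv] at h1
    have e : (Q⁻¹ u)⁻¹ * (Q⁻¹ u * Q⁻¹ (dl i) * (Q⁻¹ u)⁻¹) * (Q⁻¹ u)⁻¹⁻¹ = Q⁻¹ (dl i) := by group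
    rw [← e, h1]

theorem Adm.two_b0 (hA : Adm θ L) (hz : (z : ℕ) = 0) (ho : (o : ℕ) = z + 1)
    (ht : (t : ℕ) = o + 1) {s : F h 0} (hs : s = gb z ∨ s = (gb z)⁻¹) :
    ¬ (L (s * dl o * s⁻¹) ≠ 0 ∧ L (s * dl t * s⁻¹) ≠ 0) := by
  have hoz : o ≠ z := ne_of_succ ho
  have hto : t ≠ o := ne_of_succ ht
  have htz : t ≠ z := by
    rintro rfl
    omega
  have hzt : (z : ℕ) < t := by omega
  have hot : (o : ℕ) < t := by omega
  -- the permutation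
  obtain ⟨π, hπ, hp⟩ := perm_exists (Equiv.swap z o * Equiv.swap o t)
  have s1 : (Equiv.swap z o * Equiv.swap o t) z = o := by
    rw [Equiv.Perm.mul_apply, Equiv.swap_apply_of_ne_of_ne hoz.symm htz.symm,
      Equiv.swap_apply_left]
  have s2 : (Equiv.swap z o * Equiv.swap o t) o = t := by
    rw [Equiv.Perm.mul_apply, Equiv.swap_apply_left, Equiv.swap_apply_of_ne_of_ne htz hto]
  have s3 : (Equiv.swap z o * Equiv.swap o t) t = z := by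
    rw [Equiv.Perm.mul_apply, Equiv.swap_apply_right, Equiv.swap_apply_right]
  obtain ⟨wz, hwz, haz, hbz⟩ := hp z
  obtain ⟨wo, hwo, hao, hbo⟩ := hp o
  obtain ⟨wt, hwt, hat, hbt⟩ := hp t
  rw [s1] at haz hbz
  rw [s2] at hao hbo
  rw [s3] at hat hbt
  have pz : π (dl z) = wz * dl o * wz⁻¹ := by
    rw [aut_dl, haz, hbz]
    unfold dl cm
    group
  have po : π (dl o) = wo * dl t * wo⁻¹ := by
    rw [aut_dl, hao, hbo]
    unfold dl cm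
    group
  have pt : (gb z)⁻¹ * π (gb t) ∈ DD h 0 := by
    rw [hbt]
    have e : (gb z)⁻¹ * (wt * gb z * wt⁻¹) = ((gb z)⁻¹ * wt * (gb z)⁻¹⁻¹) * wt⁻¹ := by group
    rw [e]
    exact Subgroup.mul_mem _ (cj_mem (Dn_le h hwt) _) (Subgroup.inv_mem _ (Dn_le h hwt))
  -- the pushes
  have twc : ∀ l : Fin h, (gb t)⁻¹ * tw (n := 0) l t ∈ DD h 0 := fun l =>
    cls_iff.mpr (of_tw l t).symm
  set Q : MulAut (F h 0) := Pb z t hzt * Pb o t hot with hQdef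
  have hQ : Q ∈ MCGd h := (MCGd h).mul_mem (Pb_bdry hzt) (Pb_bdry hot)
  have hcls : ∀ x, x⁻¹ * Q x ∈ DD h 0 := by
    intro x
    rw [hQdef, MulAut.mul_apply]
    exact n2_cls hzt (Pb_cls hot x)
  have qz : Q (dl z) = tw z t * dl z * (tw z t)⁻¹ := by
    rw [hQdef, MulAut.mul_apply]
    have e : Pb o t hot (dl z : F h 0) = dl z := by
      rw [aut_dl, Pb_a' hot hoz.symm htz.symm, Pb_b' hot hoz.symm htz.symm]
      rfl
    rw [e, Pb_di]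
    rfl
  have qo : Q (dl o) = Pb z t hzt (tw o t) * dl o * (Pb z t hzt (tw o t))⁻¹ := by
    rw [hQdef, MulAut.mul_apply, Pb_di]
    unfold pY
    rw [map_mul, map_mul, map_inv]
    have e : Pb z t hzt (dl o : F h 0) = dl o := by
      rw [aut_dl, Pb_a' hzt hoz hto.symm, Pb_b' hzt hoz hto.symm]
      rfl
    rw [e]
  have c1 : (gb t)⁻¹ * tw (n := 0) z t ∈ DD h 0 := twc z
  have c2 : (gb t)⁻¹ * Pb z t hzt (tw o t : F h 0) ∈ DD h 0 := n2_cls hzt (twc o)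
  rcases hs with rfl | rfl
  · exact hA.n2_two hπ hQ hoz.symm (Dn_le h hwz) (Dn_le h hwo) pz po pt c1 c2 qz qo
  · obtain ⟨u', hu', qz'⟩ := n2_inv hcls c1 qz
    obtain ⟨v', hv', qo'⟩ := n2_inv hcls c2 qo
    refine hA.n2_two hπ ((MCGd h).inv_mem hQ) hoz.symm (Dn_le h hwz) (Dn_le h hwo) pz po
      (c := (gb t)⁻¹) ?_ hu' hv' qz' qo'
    rw [map_inv]
    have e : (gb z)⁻¹⁻¹ * (π (gb t))⁻¹ =
        gb z * ((gb z)⁻¹ * π (gb t))⁻¹ * (gb z)⁻¹ := by group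
    rw [e]
    exact cj_mem (Subgroup.inv_mem _ pt) _

/-- (Z) -/
theorem Adm.z_zero (hA : Adm θ L) (hh : 3 ≤ h) (hz : (z : ℕ) = 0) (ho : (o : ℕ) = z + 1)
    (h0 : L (dl z) = θ) (hF : L (gb o * dl z * (gb o)⁻¹) = 0) {s : F h 0}
    (hs : s = gb z ∨ s = (gb z)⁻¹) : L (s * dl o * s⁻¹) = 0 := by
  obtain ⟨t, ht⟩ := n2_third hh hz ho
  obtain ⟨v1, v2⟩ := hA.val_b0 hh hz ho ht h0 hF hs
  by_contra hne
  apply hA.two_b0 hz ho ht hs
  refine ⟨hne, ?_⟩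
  rw [v2, ← v1]
  exact hne

/-- (N4) -/
theorem Adm.n4 (hA : Adm θ L) (hh : 3 ≤ h) (hz : (z : ℕ) = 0) (h0 : L (dl z) = θ) {j : Fin h}
    (hj : j ≠ z) {c : F h 0} (hc : IsLet j c) : L (c * dl z * c⁻¹) = θ := by
  obtain ⟨o, ho⟩ : ∃ o : Fin h, (o : ℕ) = z + 1 := ⟨⟨z + 1, by omega⟩, rfl⟩
  have hoz : o ≠ z := ne_of_succ ho
  have lo : IsLet o (gb o : F h 0) := Or.inr (Or.inr (Or.inl rfl))
  have hne : L (gb o * dl z * (gb o)⁻¹) ≠ 0 := by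
    intro hF
    obtain ⟨hA', h0'⟩ := hA.swp ho h0 hF
    have hF' := hA.swp_zero hh hz ho h0 hF hoz lo
    have v := hA'.z_zero hh hz ho h0' hF' (s := (gb z)⁻¹) (Or.inr rfl)
    rw [Lq_do hA.hom ho, map_inv, Sw_bi ho] at v
    apply hA.ne
    rw [← h0, ← v]
    have e1 : dl z = (1 : F h 0) * dl z * 1⁻¹ := by group
    have hc1 : (1 : F h 0)⁻¹ * ((dl z * gb o * (dl z)⁻¹)⁻¹ * gb o) ∈ DD h 0 := by
      have e2 : (1 : F h 0)⁻¹ * ((dl z * gb o * (dl z)⁻¹)⁻¹ * gb o) =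
          dl z * ((gb o)⁻¹ * (dl z)⁻¹ * (gb o)⁻¹⁻¹) := by group
      rw [e2]
      exact Subgroup.mul_mem _ (dl_mem z) (cj_mem (Subgroup.inv_mem _ (dl_mem z)) _)
    have e3 := hA.hom.cj_eq hc1 (dl_mem z)
    rw [← e1] at e3
    exact e3
  have hcne : L (c * dl z * c⁻¹) ≠ 0 := fun hcF => hne (hA.n3 hh hz h0 hj hoz hc lo hcF)
  obtain ⟨P, hP, -, ⟨c', hc', ha, hb⟩, -⟩ := push_let (pos_of_ne hz hj) hc
  have hdl : P (dl z) = c' * dl z * c'⁻¹ := by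
    rw [aut_dl, ha, hb]
    unfold dl cm
    group
  have e1 : L (P (dl z)) = L (c * dl z * c⁻¹) := by
    rw [hdl]
    exact (hA.hom.cj_eq hc' (dl_mem z)).symm
  have h3 : (fun x => L (P x)) (dl z) ≠ 0 := by
    show L (P (dl z)) ≠ 0
    rw [e1]
    exact hcne
  have h4 : L (P (dl z)) = θ := (hA.aut hP).of_ne h3
  rw [← e1, h4]

end Pool.Agent.PWM
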