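import Pool.Agent.PWM.N2

/-!
# Theorem N', part 3 (paper, section 5: N5, FLAT+)

* `Adm.n5_let`: the first handle `z`, one letter `c` of another handle.  Index 0: `n4`.  Otherwise `L (dl z) = 0`; if
  `L (c dl z c⁻¹) ≠ 0`, the frame `P` (`push_let`) has index 0, `n4` for `L ∘ P` and `c⁻¹` gives `L (dl z) = θ`.
* `Adm.n5_z`: induction on the word `u` (`push_let`), for all `L` at once.
* `Adm.n5`: any handle (`perm_exists`).
* `Adm.flatp`: (1) `u` in the handle `z`: `L ∘ μ` (block extensions `μ` of `MCGd (h-1)` on the handles `≥ 1`), `n5` for the handle 1: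
  `L (u (μ (dl o)) u⁻¹) = L (μ (dl o)) = 0`; `J` for `d ↦ L (u (blk d) u⁻¹)`.  (2) any `q ≡ u v` (`split_mod`): `v d v⁻¹ ∈ D1`.
-/

namespace Pool.Agent.PWM

open Pool.Agent.PW

variable {h : ℕ} {A : Type*} [AddCommGroup A] {θ : A} {L : F h 0 → A}

private theorem n3_let_inv {j : Fin h} {c : F h 0} (hc : IsLet j c) : IsLet j c⁻¹ := by
  rcases hc with rfl | rfl | rfl | rfl
  · exact Or.inr (Or.inl rfl)
  · exact Or.inl (inv_inv _)
  · exact Or.inr (Or.inr (Or.inr rfl))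
  · exact Or.inr (Or.inr (Or.inl (inv_inv _)))

private theorem n3_lt {z j : Fin h} (hz : (z : ℕ) = 0) (hj : j ≠ z) : (z : ℕ) < j := by
  rcases Nat.eq_zero_or_pos (j : ℕ) with h0 | h0
  · exact absurd (Fin.ext (by omega)) hj
  · omega

private theorem n3_push_dl {z : Fin h} {P : MulAut (F h 0)} {c : F h 0}
    (h1 : P (ga z) = c * ga z * c⁻¹) (h2 : P (gb z) = c * gb z * c⁻¹) :
    P (dl z) = c * dl z * c⁻¹ := by
  rw [aut_dl, h1, h2]
  unfold dl cm
  group

/-- the frame of a push, with values of `L` -/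
private theorem n3_push_val (hL : DHom L) {z : Fin h} {P : MulAut (F h 0)} {c c' : F h 0}
    (hcl : ∀ x, x⁻¹ * P x ∈ DD h 0) (hc' : c⁻¹ * c' ∈ DD h 0)
    (h1 : P (ga z) = c' * ga z * c'⁻¹) (h2 : P (gb z) = c' * gb z * c'⁻¹) (u : F h 0) :
    L (P (u * dl z * u⁻¹)) = L ((u * c) * dl z * (u * c)⁻¹) := by
  have e : P (u * dl z * u⁻¹) = (P u * c') * dl z * (P u * c')⁻¹ := by
    rw [map_mul, map_mul, map_inv, n3_push_dl h1 h2]
    group
  rw [e]
  symm
  apply hL.cj_eq _ (dl_mem z)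
  have h3 := hcl u
  rw [cls_iff] at h3 hc' ⊢
  rw [map_mul, map_mul, h3, hc']

/-- (N5), first handle, one letter -/
theorem Adm.n5_let (hA : Adm θ L) (hh : 3 ≤ h) {z : Fin h} (hz : (z : ℕ) = 0) {j : Fin h}
    (hj : j ≠ z) {c : F h 0} (hc : IsLet j c) : L (c * dl z * c⁻¹) = L (dl z) := by
  by_cases h0 : L (dl z) = 0
  · by_contra hne
    rw [h0] at hne
    obtain ⟨P, hP, hcl, ⟨c', hc', h1, h2⟩, -⟩ := push_let (n3_lt hz hj) hc
    have hv := n3_push_val hA.hom hcl hc' h1 h2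
    have hPA := hA.aut hP
    have h3 : L (P (dl z)) = L (c * dl z * c⁻¹) := by
      have := hv 1
      rwa [one_mul, inv_one, mul_one, one_mul] at this
    have h4 : L (P (dl z)) = θ := hPA.of_ne (i := z) (by rw [h3]; exact hne)
    have h5 := hPA.n4 hh hz h4 hj (n3_let_inv hc)
    have h6 := hv c⁻¹
    rw [h6, inv_mul_cancel, one_mul, inv_one, mul_one, h0] at h5
    exact hA.ne h5.symm
  · have h1 := hA.of_ne h0
    rw [h1]
    exact hA.n4 hh hz h1 hj hc

/-- (N5), first handle -/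
theorem Adm.n5_z (hA : Adm θ L) (hh : 3 ≤ h) {z : Fin h} (hz : (z : ℕ) = 0) {u : F h 0}
    (hu : u ∈ away (n := 0) z) : L (u * dl z * u⁻¹) = L (dl z) := by
  have key : ∀ x : F h 0, (∀ L : F h 0 → A, Adm θ L → L (x * dl z * x⁻¹) = L (dl z)) →
      ∀ j : Fin h, j ≠ z → ∀ c : F h 0, IsLet j c →
      ∀ L : F h 0 → A, Adm θ L → L ((x * c) * dl z * (x * c)⁻¹) = L (dl z) := by
    intro x ih j hj c hc L hA
    obtain ⟨P, hP, hcl, ⟨c', hc', h1, h2⟩, -⟩ := push_let (n3_lt hz hj) hc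
    have hv := n3_push_val hA.hom hcl hc' h1 h2
    have h3 := ih _ (hA.aut hP)
    rw [hv x] at h3
    have h4 := hv 1
    rw [one_mul, inv_one, mul_one, one_mul] at h4
    rw [h3, h4]
    exact hA.n5_let hh hz hj hc
  have main : ∀ L : F h 0 → A, Adm θ L → L (u * dl z * u⁻¹) = L (dl z) := by
    unfold away at hu
    induction hu using Subgroup.closure_induction_right with
    | one =>
      intro L _
      rw [one_mul, inv_one, mul_one]
    | mul_right x y hx hy ih =>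
      rcases hy with ⟨j, hj, rfl | rfl⟩ | ⟨j, rfl⟩
      · exact key x ih j hj _ (Or.inl rfl)
      · exact key x ih j hj _ (Or.inr (Or.inr (Or.inl rfl)))
      · exact j.elim0
    | mul_inv_cancel x y hx hy ih =>
      rcases hy with ⟨j, hj, rfl | rfl⟩ | ⟨j, rfl⟩
      · exact key x ih j hj _ (Or.inr (Or.inl rfl))
      · exact key x ih j hj _ (Or.inr (Or.inr (Or.inr rfl)))
      · exact j.elim0
  exact main L hA

/-- (N5) -/
theorem Adm.n5 (hA : Adm θ L) (hh : 3 ≤ h) (i : Fin h) {u : F h 0}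
    (hu : u ∈ away (n := 0) i) : L (u * dl i * u⁻¹) = L (dl i) := by
  set z : Fin h := ⟨0, by omega⟩ with hz
  obtain ⟨φ, hφ, hw⟩ := perm_exists (Equiv.swap z i)
  have hcls : ∀ l, Abelianization.of (φ (ga l)) = Abelianization.of (ga (Equiv.swap z i l)) ∧
      Abelianization.of (φ (gb l)) = Abelianization.of (gb (Equiv.swap z i l)) := by
    intro l
    obtain ⟨w, -, ha, hb⟩ := hw l
    rw [ha, hb]
    constructor
    · rw [map_mul, map_mul, map_inv, mul_inv_cancel_comm]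
    · rw [map_mul, map_mul, map_inv, mul_inv_cancel_comm]
  have hex : ∃ u' ∈ away (n := 0) z, Abelianization.of (φ u') = Abelianization.of u := by
    unfold away at hu
    induction hu using Subgroup.closure_induction with
    | mem x hx =>
      rcases hx with ⟨j, hj, hx⟩ | ⟨j, rfl⟩
      · have hj' : Equiv.swap z i j ≠ z := by
          intro h1
          apply hj
          have h2 : Equiv.swap z i (Equiv.swap z i j) = Equiv.swap z i z := by rw [h1]
          rwa [Equiv.swap_apply_self, Equiv.swap_apply_left] at h2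
        rcases hx with rfl | rfl
        · refine ⟨_, away_a hj', ?_⟩
          rw [(hcls _).1, Equiv.swap_apply_self]
        · refine ⟨_, away_b hj', ?_⟩
          rw [(hcls _).2, Equiv.swap_apply_self]
      · exact j.elim0
    | one => exact ⟨1, Subgroup.one_mem _, by rw [map_one]⟩
    | mul x y _ _ hx hy =>
      obtain ⟨x', hx1, hx2⟩ := hx
      obtain ⟨y', hy1, hy2⟩ := hy
      exact ⟨x' * y', Subgroup.mul_mem _ hx1 hy1, by rw [map_mul, map_mul, hx2, hy2, map_mul]⟩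
    | inv x _ hx =>
      obtain ⟨x', hx1, hx2⟩ := hx
      exact ⟨x'⁻¹, Subgroup.inv_mem _ hx1, by rw [map_inv, map_inv, hx2, map_inv]⟩
  obtain ⟨u', hu', hcu⟩ := hex
  obtain ⟨w, hwD, ha, hb⟩ := hw z
  rw [Equiv.swap_apply_left] at ha hb
  have hdl : φ (dl z) = w * dl i * w⁻¹ := by
    rw [aut_dl, ha, hb]
    unfold dl cm
    group
  have hwD' : w ∈ DD h 0 := Dn_le h hwD
  have h1 := (hA.aut hφ).n5_z hh (z := z) rfl hu'
  have h2 : φ (u' * dl z * u'⁻¹) = (φ u' * w) * dl i * (φ u' * w)⁻¹ := by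
    rw [map_mul, map_mul, map_inv, hdl]
    group
  rw [h2, hdl, hA.hom.cj_D hwD' (dl_mem i)] at h1
  rw [← h1]
  apply hA.hom.cj_eq _ (dl_mem i)
  have h3 : (1 : F h 0)⁻¹ * w ∈ DD h 0 := by rwa [inv_one, one_mul]
  rw [cls_iff] at h3 ⊢
  rw [map_mul, ← h3, map_one, mul_one, hcu]

private theorem n3_D1_conj {u d : F h 0} (hu : u ∈ Fge h 0 1) (hd : d ∈ D1 h) :
    u * d * u⁻¹ ∈ D1 h := by
  have h1 : d ∈ Fge h 0 1 := Subgroup.commutator_le_self _ hd
  have h2 : cm u d ∈ D1 h := Subgroup.commutator_mem_commutator hu h1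
  have h3 : u * d * u⁻¹ = cm u d * d := by
    unfold cm
    group
  rw [h3]
  exact Subgroup.mul_mem _ h2 hd

private theorem n3_away_le {z : Fin h} (hz : (z : ℕ) = 0) : away (n := 0) z ≤ Fge h 0 1 := by
  unfold away Fge
  apply Subgroup.closure_mono
  rintro x (⟨j, hj, hx⟩ | ⟨j, rfl⟩)
  · have := n3_lt hz hj
    exact Or.inl ⟨j, by omega, hx⟩
  · exact j.elim0

private theorem n3_flat_one (hA : Adm θ L) (hh : 3 ≤ h) {z : Fin h} (hz : (z : ℕ) = 0)
    (h0 : L (dl z) = θ) {u : F h 0} (hu : u ∈ Subgroup.closure {(ga z : F h 0), gb z})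
    {d : F h 0} (hd : d ∈ D1 h) : L (u * d * u⁻¹) = 0 := by
  have hm : 1 + (h - 1) ≤ h := by omega
  have hd' : d ∈ ⁅Bk h 0 1 (h - 1), Bk h 0 1 (h - 1)⁆ := by
    rw [Bk_eq_Fge (by omega : 1 + (h - 1) = h)]
    exact hd
  obtain ⟨x, hx, rfl⟩ := (mem_blk_DD hm).mp hd'
  have hL1 : DHom fun x : F (h - 1) 0 => L (u * blk (h - 1) h 0 1 hm x * u⁻¹) :=
    (hA.hom.cj u).comp (blk (h - 1) h 0 1 hm)
  refine J (z := (⟨0, by omega⟩ : Fin (h - 1))) hL1 (by omega) rfl ?_ x hx
  intro ψ hψ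
  obtain ⟨μ, -, h3, h4, h5, -⟩ := st_Blk (n := 0) hm ψ hψ
  have hza : μ (ga z) = ga z := (h5 z (Or.inl (by omega))).1
  have hzb : μ (gb z) = gb z := (h5 z (Or.inl (by omega))).2
  have hμu : μ u = u := by
    have hle : Subgroup.closure {(ga z : F h 0), gb z} ≤
        μ.toMonoidHom.eqLocus (MonoidHom.id _) := by
      rw [Subgroup.closure_le]
      rintro y (rfl | hy)
      · exact hza
      · rw [Set.mem_singleton_iff] at hy
        subst hy
        exact hzb
    exact hle hu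
  set o : Fin h := ⟨1 + 0, by omega⟩ with ho
  have hoz : o ≠ z := by
    intro e
    have := congrArg Fin.val e
    rw [ho] at this
    simp only at this
    omega
  have hblk : blk (h - 1) h 0 1 hm (dl ⟨0, by omega⟩) = dl o := blk_dl _
  have hu' : u ∈ away (n := 0) o := by
    have hle : Subgroup.closure {(ga z : F h 0), gb z} ≤ away (n := 0) o := by
      rw [Subgroup.closure_le]
      rintro y (rfl | hy)
      · exact away_a (Ne.symm hoz)
      · rw [Set.mem_singleton_iff] at hy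
        subst hy
        exact away_b (Ne.symm hoz)
    exact hle hu
  have hAμ := hA.aut h3
  have h6 := hAμ.n5 hh o hu'
  have h7 : L (μ (dl z)) = θ := by
    rw [aut_dl, hza, hzb]
    exact h0
  have h8 : L (μ (dl o)) = 0 := hAμ.other h7 hoz
  rw [← h4, hblk]
  have h9 : μ (u * dl o * u⁻¹) = u * μ (dl o) * u⁻¹ := by
    rw [map_mul, map_mul, map_inv, hμu]
  rw [← h9, h6, h8]

/-- (FLAT+) -/
theorem Adm.flatp (hA : Adm θ L) (hh : 3 ≤ h) {z : Fin h} (hz : (z : ℕ) = 0) (h0 : L (dl z) = θ)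
    (q : F h 0) {d : F h 0} (hd : d ∈ D1 h) : L (q * d * q⁻¹) = 0 := by
  obtain ⟨t, ht, u, hu, h1⟩ := split_mod z q
  have hdD : d ∈ DD h 0 := comm_le _ hd
  rw [← hA.hom.cj_eq h1 hdD]
  have e : (t * u) * d * (t * u)⁻¹ = t * (u * d * u⁻¹) * t⁻¹ := by group
  rw [e]
  exact n3_flat_one hA hh hz h0 ht (n3_D1_conj (n3_away_le hz hu) hd)

end Pool.Agent.PWM
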