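import Pool.Agent.PWM.N3

/-!
# Theorem N', part 4 (paper, section 5: N6, N7)

`f x = L (cm (gg z)⁻¹ x)` for `x ∈ Fge h 0 1`; index 0.
* `Adm.f_cls`: `f x` depends only on the class of `x` mod `D1` (`x' = d x`: `DHom.cm_dmul_right` and `Adm.flatp`).
* `Adm.n6`: the frame `Sw z o * Ll z o * Lp o t`: value at `t`: `f (ga t)`; value at `z`: `- f (gb o)`, because
  `Sw z o (dl z * cm (gb z) (ga o)⁻¹) = (dl z dl o (dl z)⁻¹) * cm (dl z gb o (dl z)⁻¹) (ga z)⁻¹` and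
  `cm (ga z)⁻¹ (dl z gb o (dl z)⁻¹) = cm (gg z)⁻¹ (gb o) * cm (gb o) (dl z)` (word identity), `L (cm (gb o) (dl z)) = θ - θ`.
* `Adm.n6'`: any letters of two different handles (`frame2`).
* `Adm.n7_b`: if `f (gb o) ≠ 0`: for every other handle `j ≥ 2`: `f (gb j) = 0` and `f (gb j * gb o) = 0` (`n6'` in the frame
  `μ = rr o * Lp o j * (rr o)⁻¹`: `μ (gb o) ≡ gb o`, `μ (gb j) ≡ gb j * gb o`), so `L (gb o . cm (gg z)⁻¹ (gb j)) = - f (gb o) ≠ 0`.
  For `P = Pb z o`: `L ∘ P` has index 0 (`n4`) and `f^{L ∘ P} (gb j) = L (cm (gb o γ (gb o)⁻¹) (gb j)) =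
  L (gb o . cm γ (gb j))` (`flatp`) `≠ 0` for two different `j` (`4 ≤ h`): contradicts `n6'`.
* `Adm.n7`: all letters (`frame2`); `Adm.n7a`: the same for `L ∘ kk z`, `kk z (gg z)⁻¹ = ga z`.
-/

namespace Pool.Agent.PWM

open Pool.Agent.PW

variable {h : ℕ} {A : Type*} [AddCommGroup A] {θ : A} {L : F h 0 → A} {z : Fin h}

theorem n4_D1_le (h : ℕ) : D1 h ≤ DD h 0 := comm_le _

theorem Adm.f_cls (hA : Adm θ L) (hh : 3 ≤ h) (hz : (z : ℕ) = 0) (h0 : L (dl z) = θ) (w y : F h 0)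
    {x x' : F h 0} (hx : x⁻¹ * x' ∈ D1 h) :
    L (w * cm y x' * w⁻¹) = L (w * cm y x * w⁻¹) := by
  obtain ⟨e, he, rfl⟩ : ∃ e, e ∈ D1 h ∧ x' = x * e := ⟨x⁻¹ * x', hx, by group⟩
  rw [hA.hom.cm_mul_right, hA.hom.cm_D_right (w * x) y (n4_D1_le h he),
    hA.flatp hh hz h0 _ he, hA.flatp hh hz h0 _ he, sub_zero, add_zero]

/-- The same without a conjugation. -/
theorem Adm.f_cls' (hA : Adm θ L) (hh : 3 ≤ h) (hz : (z : ℕ) = 0) (h0 : L (dl z) = θ) (y : F h 0)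
    {x x' : F h 0} (hx : x⁻¹ * x' ∈ D1 h) : L (cm y x') = L (cm y x) := by
  have h1 := hA.f_cls hh hz h0 1 y hx
  simpa using h1

/-- Two different handles cannot both have a nonzero value. -/
theorem Adm.not_two (hA : Adm θ L) {φ : MulAut (F h 0)} (hφ : φ ∈ MCGd h) {i j : Fin h}
    (hij : i ≠ j) : ¬ (L (φ (dl i)) ≠ 0 ∧ L (φ (dl j)) ≠ 0) := by
  rintro ⟨h1, h2⟩
  obtain ⟨k, -, h3⟩ := hA.one φ hφ
  by_cases hi : i = k
  · subst hi
    exact h2 (h3 j (Ne.symm hij))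
  · exact h1 (h3 i hi)

/-- (N6) -/
theorem Adm.n6 (hA : Adm θ L) (hh : 3 ≤ h) (hz : (z : ℕ) = 0) (h0 : L (dl z) = θ) {o t : Fin h}
    (ho : (o : ℕ) = z + 1) (ht : (t : ℕ) = o + 1) :
    ¬ (L (cm (gg z)⁻¹ (gb o)) ≠ 0 ∧ L (cm (gg z)⁻¹ (ga t)) ≠ 0) := by
  have hoz : o ≠ z := swp_ne ho
  have hto : t ≠ o := swp_ne ht
  have htz : t ≠ z := by
    rintro rfl
    omega
  have hot : (o : ℕ) < t := by omega
  have hφ : (Sw z o ho * Ll z o ho * Lp o t hot : MulAut (F h 0)) ∈ MCGd h :=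
    (MCGd h).mul_mem ((MCGd h).mul_mem (Sw_bdry ho) (Ll_bdry ho)) (Lp_bdry hot)
  have hLo : L (dl o) = 0 := hA.other h0 hoz
  have hLt : L (dl t) = 0 := hA.other h0 htz
  -- the value at the handle `t`
  have et : (Sw z o ho * Ll z o ho * Lp o t hot : MulAut (F h 0)) (dl t) =
      cm (gg z)⁻¹ (ga t) * dl t := by
    have e1 : Lp (n := 0) o t hot (dl t) = cm (gg o)⁻¹ (ga t) * dl t := Lp_do hot ht
    have e2 : Ll (n := 0) z o ho (cm (gg o)⁻¹ (ga t) * dl t) = cm (gg o)⁻¹ (ga t) * dl t := by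
      have a1 : Ll (n := 0) z o ho (ga t) = ga t := Ll_a' ho htz hto
      have a2 : Ll (n := 0) z o ho (gb t) = gb t := Ll_b' ho htz hto
      unfold dl cm
      simp only [map_mul, map_inv, Ll_gg, a1, a2]
    have e3 : Sw (n := 0) z o ho (gg o) = gg z := by
      unfold gg
      rw [map_mul, map_mul, map_inv, Sw_aj, Sw_bj]
    have e4 : Sw (n := 0) z o ho (cm (gg o)⁻¹ (ga t) * dl t) = cm (gg z)⁻¹ (ga t) * dl t := by
      have a1 : Sw (n := 0) z o ho (ga t) = ga t := Sw_a' ho htz hto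
      have a2 : Sw (n := 0) z o ho (gb t) = gb t := Sw_b' ho htz hto
      unfold dl cm
      simp only [map_mul, map_inv, e3, a1, a2]
    rw [MulAut.mul_apply, MulAut.mul_apply, e1, e2, e4]
  have vt : L ((Sw z o ho * Ll z o ho * Lp o t hot : MulAut (F h 0)) (dl t)) =
      L (cm (gg z)⁻¹ (ga t)) := by
    rw [et, hA.hom _ (cm_mem _ _) _ (dl_mem t), hLt, add_zero]
  -- the value at the handle `z`
  have ez : (Sw z o ho * Ll z o ho * Lp o t hot : MulAut (F h 0)) (dl z) =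
      (dl z * dl o * (dl z)⁻¹) * (cm (gg z)⁻¹ (gb o) * cm (gb o) (dl z))⁻¹ := by
    have e1 : Lp (n := 0) o t hot (dl z) = dl z := by
      rw [aut_dl, Lp_a' hot (Ne.symm hoz) (Ne.symm htz), Lp_b' hot (Ne.symm hoz) (Ne.symm htz)]
      rfl
    have e2 : Ll (n := 0) z o ho (dl z) = dl z * cm (gb z) (ga o)⁻¹ := Ll_dz ho
    have e3 : Sw (n := 0) z o ho (dl z * cm (gb z) (ga o)⁻¹) =
        (dl z * dl o * (dl z)⁻¹) * cm (dl z * gb o * (dl z)⁻¹) (ga z)⁻¹ := by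
      rw [map_mul, Sw_dli]
      unfold cm
      simp only [map_mul, map_inv, Sw_aj, Sw_bi]
    rw [MulAut.mul_apply, MulAut.mul_apply, e1, e2, e3]
    congr 1
    rw [dl_eq z]
    unfold cm
    group
  have vz : L ((Sw z o ho * Ll z o ho * Lp o t hot : MulAut (F h 0)) (dl z)) =
      -L (cm (gg z)⁻¹ (gb o)) := by
    have m1 : (cm (gg z)⁻¹ (gb o) : F h 0) ∈ DD h 0 := cm_mem _ _
    have m2 : (cm (gb o) (dl z) : F h 0) ∈ DD h 0 := cm_mem _ _
    have v1 : L (dl z * dl o * (dl z)⁻¹) = 0 := by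
      rw [hA.hom.cj_D (dl_mem z) (dl_mem o), hLo]
    have v2 : L (cm (gb o) (dl z)) = 0 := by
      have h1 := hA.hom.cm_D_right 1 (gb o) (dl_mem z)
      rw [one_mul, one_mul, inv_one, mul_one, one_mul, mul_one] at h1
      rw [h1, hA.n4 hh hz h0 hoz (Or.inr (Or.inr (Or.inl rfl))), h0, sub_self]
    rw [ez, hA.hom _ (cj_mem (dl_mem o) _) _ (Subgroup.inv_mem _ (Subgroup.mul_mem _ m1 m2)), v1,
      hA.hom.map_inv (Subgroup.mul_mem _ m1 m2), hA.hom _ m1 _ m2, v2, add_zero, zero_add]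
  rintro ⟨h1, h2⟩
  apply hA.not_two hφ (Ne.symm htz)
  rw [vz, vt]
  exact ⟨neg_ne_zero.mpr h1, h2⟩

/-- An automorphism which fixes the letters of the handle `z`: values of the new functional. -/
theorem n4_frame {μ : MulAut (F h 0)} (ha : μ (ga z) = ga z) (hb : μ (gb z) = gb z) (x : F h 0) :
    μ (cm (gg z)⁻¹ x) = cm (gg z)⁻¹ (μ x) := by
  unfold gg cm
  simp only [map_mul, map_inv, ha, hb]

theorem n4_frame_dl {μ : MulAut (F h 0)} (ha : μ (ga z) = ga z) (hb : μ (gb z) = gb z) :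
    μ (dl z) = dl z := by
  rw [aut_dl, ha, hb]
  rfl

/-- (N6), any letters -/
theorem Adm.n6' (hA : Adm θ L) (hh : 3 ≤ h) (hz : (z : ℕ) = 0) (h0 : L (dl z) = θ) {j k : Fin h}
    (hj : j ≠ z) (hk : k ≠ z) (hjk : j ≠ k) {c d : F h 0} (hc : IsLet j c) (hd : IsLet k d) :
    ¬ (L (cm (gg z)⁻¹ c) ≠ 0 ∧ L (cm (gg z)⁻¹ d) ≠ 0) := by
  obtain ⟨o, ho⟩ : ∃ o : Fin h, (o : ℕ) = z + 1 := ⟨⟨1, by omega⟩, by simp [hz]⟩
  obtain ⟨t, ht⟩ : ∃ t : Fin h, (t : ℕ) = o + 1 := ⟨⟨2, by omega⟩, by simp [ho, hz]⟩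
  have hoz : o ≠ z := swp_ne ho
  have hto : t ≠ o := swp_ne ht
  have htz : t ≠ z := by
    rintro rfl
    omega
  obtain ⟨μ, hμ, ha, hb, h1, h2⟩ := frame2 hz hj hk hjk hoz htz (Ne.symm hto) hc hd
    (c' := gb o) (d' := ga t) (Or.inr (Or.inr (Or.inl rfl))) (Or.inl rfl)
  have hA' : Adm θ fun x => L (μ x) := hA.aut hμ
  have h0' : (fun x => L (μ x)) (dl z) = θ := by
    show L (μ (dl z)) = θ
    rw [n4_frame_dl ha hb, h0]
  have h3 := hA'.n6 hh hz h0' ho ht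
  rw [n4_frame ha hb, n4_frame ha hb, hA.f_cls' hh hz h0 _ h1, hA.f_cls' hh hz h0 _ h2] at h3
  exact h3

/-- The frame `rr o * Lp o j * (rr o)⁻¹` of the handles after the first one. -/
theorem n4_mu {z o j : Fin h} (hz : (z : ℕ) = 0) (ho : o ≠ z) (hoj : (o : ℕ) < j) :
    ∃ μ ∈ MCGd h, μ (ga z) = ga z ∧ μ (gb z) = gb z ∧ (gb o)⁻¹ * μ (gb o) ∈ D1 h ∧
      (gb j * gb o)⁻¹ * μ (gb j) ∈ D1 h := by
  cases h with
  | zero => exact z.elim0
  | succ h =>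
    have hz0 : z = 0 := Fin.ext (by simpa using hz)
    subst hz0
    have hjz : j ≠ 0 := by
      rintro rfl
      simp at hoj
    obtain ⟨o, rfl⟩ := Fin.exists_succ_eq.mpr ho
    obtain ⟨j, rfl⟩ := Fin.exists_succ_eq.mpr hjz
    have hoj' : (o : ℕ) < j := by
      simpa using hoj
    have hjo : j ≠ o := ne_of_lt' hoj'
    have hm : 1 + h ≤ h + 1 := by omega
    have hν : (rr o * Lp o j hoj' * (rr o)⁻¹ : MulAut (F h 0)) ∈ MCGd h :=
      (MCGd h).mul_mem ((MCGd h).mul_mem (rr_bdry o) (Lp_bdry hoj'))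
        ((MCGd h).inv_mem (rr_bdry o))
    have key : ∀ {x y : F h 0} (φ : MulAut (F h 0)), x⁻¹ * y ∈ DD h 0 → (φ x)⁻¹ * φ y ∈ DD h 0 := by
      intro x y φ hxy
      rw [← map_inv, ← map_mul]
      exact map_aut_mem φ hxy
    have tr : ∀ {x y u : F h 0}, x⁻¹ * y ∈ DD h 0 → y⁻¹ * u ∈ DD h 0 → x⁻¹ * u ∈ DD h 0 := by
      intro x y u h1 h2
      have e : x⁻¹ * u = (x⁻¹ * y) * (y⁻¹ * u) := by group
      rw [e]
      exact Subgroup.mul_mem _ h1 h2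
    -- classes of the images
    have c1 : (gb o)⁻¹ * (rr o * Lp o j hoj' * (rr o)⁻¹ : MulAut (F h 0)) (gb o) ∈ DD h 0 := by
      have e1 : ((rr o)⁻¹ : MulAut (F h 0)) (gb o) = gb o * ga o * (gb o)⁻¹ := rri_b o
      have h1 : (ga o : F h 0)⁻¹ * (gb o * ga o * (gb o)⁻¹) ∈ DD h 0 := by
        have e : (ga o : F h 0)⁻¹ * (gb o * ga o * (gb o)⁻¹) = cm (ga o)⁻¹ (gb o) := by
          unfold cm
          group
        rw [e]
        exact cm_mem _ _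
      have h2 : (ga o : F h 0)⁻¹ * Lp o j hoj' (gb o * ga o * (gb o)⁻¹) ∈ DD h 0 := by
        refine tr (y := Lp o j hoj' (ga o)) ?_ (key _ h1)
        rw [Lp_az]
        simp
      have h3 := key (rr o) h2
      refine tr (y := rr o (ga o)) ?_ ?_
      · rw [rr_a]
        have e : (gb o : F h 0)⁻¹ * (ga o * gb o * (ga o)⁻¹) = cm (gb o)⁻¹ (ga o) := by
          unfold cm
          group
        rw [e]
        exact cm_mem _ _
      · rw [MulAut.mul_apply, MulAut.mul_apply, e1]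
        exact h3
    have c2 : (gb j * gb o)⁻¹ * (rr o * Lp o j hoj' * (rr o)⁻¹ : MulAut (F h 0)) (gb j) ∈
        DD h 0 := by
      have e1 : ((rr o)⁻¹ : MulAut (F h 0)) (gb j) = gb j := rri_b' hjo
      have h2 : (gb j * ga o : F h 0)⁻¹ * Lp o j hoj' (gb j) ∈ DD h 0 := Lp_cls_bo hoj'
      have h3 := key (rr o) h2
      refine tr (y := rr o (gb j * ga o)) ?_ ?_
      · rw [map_mul, rr_a, rr_b' hjo]
        have e : (gb j * gb o : F h 0)⁻¹ * (gb j * (ga o * gb o * (ga o)⁻¹)) =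
            cm (gb o)⁻¹ (ga o) := by
          unfold cm
          group
        rw [e]
        exact cm_mem _ _
      · rw [MulAut.mul_apply, MulAut.mul_apply, e1]
        exact h3
    obtain ⟨Ψ, -, h3, h4, h5, -⟩ := st_Blk (n := 0) hm _ hν
    have hfb : ∀ y : Fin h, blk h (h + 1) 0 1 hm (gb y) = gb y.succ := by
      intro y
      rw [blk_b]
      congr 1
      apply Fin.ext
      show 1 + (y : ℕ) = y + 1
      omega
    have hD : ∀ {x : F h 0}, x ∈ DD h 0 → blk h (h + 1) 0 1 hm x ∈ D1 (h + 1) := by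
      intro x hx
      have h6 : blk h (h + 1) 0 1 hm x ∈ ⁅Bk (h + 1) 0 1 h, Bk (h + 1) 0 1 h⁆ :=
        (mem_blk_DD hm).mpr ⟨x, hx, rfl⟩
      rw [Bk_eq_Fge (by omega : 1 + h = h + 1)] at h6
      exact h6
    refine ⟨Ψ, h3, (h5 0 (Or.inl (by simp))).1, (h5 0 (Or.inl (by simp))).2, ?_, ?_⟩
    · rw [← hfb o, h4, ← map_inv, ← map_mul]
      exact hD c1
    · rw [← hfb o, ← hfb j, h4, ← map_mul, ← map_inv, ← map_mul]
      exact hD c2

/-- (N7), one letter -/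
theorem Adm.n7_b (hA : Adm θ L) (hh : 4 ≤ h) (hz : (z : ℕ) = 0) (h0 : L (dl z) = θ) {o : Fin h}
    (ho : (o : ℕ) = z + 1) : L (cm (gg z)⁻¹ (gb o)) = 0 := by
  by_contra hne
  have hh3 : 3 ≤ h := by omega
  have hoz : o ≠ z := swp_ne ho
  have hzo : (z : ℕ) < o := by omega
  have lb : ∀ l : Fin h, IsLet l (gb l) := fun l => Or.inr (Or.inr (Or.inl rfl))
  have hge : ∀ l : Fin h, l ≠ z → (gb l : F h 0) ∈ Fge h 0 1 := by
    intro l hl
    have h1 : (l : ℕ) ≠ z := fun e => hl (Fin.ext e)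
    exact Fge_b (by omega)
  -- the values of the pushed functional
  have hP : Pb z o hzo ∈ MCGd h := Pb_bdry hzo
  have hA' : Adm θ fun x => L (Pb z o hzo x) := hA.aut hP
  have h0' : (fun x => L (Pb z o hzo x)) (dl z) = θ := by
    show L (Pb z o hzo (dl z)) = θ
    rw [Pb_di]
    unfold pY
    rw [tw_one ho]
    exact hA.n4 hh3 hz h0 hoz (lb o)
  have val : ∀ l : Fin h, l ≠ z → l ≠ o → (o : ℕ) < l →
      L (Pb z o hzo (cm (gg z)⁻¹ (gb l))) ≠ 0 := by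
    intro l hlz hlo hol
    have f1 : L (cm (gg z)⁻¹ (gb l)) = 0 := by
      by_contra h1
      exact hA.n6' hh3 hz h0 hoz hlz (Ne.symm hlo) (lb o) (lb l) ⟨hne, h1⟩
    -- the value at `gb l * gb o`
    have f2 : L (cm (gg z)⁻¹ (gb l * gb o)) = 0 := by
      obtain ⟨μ, hμ, ha, hb, c1, c2⟩ := n4_mu hz hoz hol
      have hB : Adm θ fun x => L (μ x) := hA.aut hμ
      have h1 : (fun x => L (μ x)) (dl z) = θ := by
        show L (μ (dl z)) = θ
        rw [n4_frame_dl ha hb, h0]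
      have h2 := hB.n6' hh3 hz h1 hoz hlz (Ne.symm hlo) (lb o) (lb l)
      rw [n4_frame ha hb, n4_frame ha hb, hA.f_cls' hh3 hz h0 _ c1,
        hA.f_cls' hh3 hz h0 _ c2] at h2
      by_contra h3
      exact h2 ⟨hne, h3⟩
    have f3 : L (cm (gg z)⁻¹ (gb o * gb l)) = 0 := by
      rw [hA.f_cls' hh3 hz h0 (x := gb l * gb o), f2]
      have e : (gb l * gb o)⁻¹ * (gb o * gb l) = cm (gb o : F h 0)⁻¹ (gb l : F h 0)⁻¹ := by
        unfold cm
        group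
      rw [e]
      exact Subgroup.commutator_mem_commutator (Subgroup.inv_mem _ (hge o hoz))
        (Subgroup.inv_mem _ (hge l hlz))
    have f4 := hA.hom.cm_mul_right 1 (gg z)⁻¹ (gb o) (gb l)
    rw [one_mul, one_mul, inv_one, mul_one, mul_one, f3, one_mul] at f4
    have e1 : Pb (n := 0) z o hzo (cm (gg z)⁻¹ (gb l)) =
        gb o * cm (gg z)⁻¹ ((gb o)⁻¹ * gb l * gb o) * (gb o)⁻¹ := by
      have a1 : Pb (n := 0) z o hzo (gb l) = gb l := Pb_b' hzo hlz hlo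
      unfold gg cm
      simp only [map_mul, map_inv, Pb_ai, Pb_bi, a1, tw_one ho]
      group
    rw [e1, hA.f_cls hh3 hz h0 (gb o) (gg z)⁻¹ (x := gb l)]
    · intro h5
      rw [h5, add_zero] at f4
      exact hne f4.symm
    · have e : (gb l)⁻¹ * ((gb o)⁻¹ * gb l * gb o) = cm (gb l : F h 0)⁻¹ (gb o : F h 0)⁻¹ := by
        unfold cm
        group
      rw [e]
      exact Subgroup.commutator_mem_commutator (Subgroup.inv_mem _ (hge l hlz))
        (Subgroup.inv_mem _ (hge o hoz))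
  obtain ⟨t, ht⟩ : ∃ t : Fin h, (t : ℕ) = 2 := ⟨⟨2, by omega⟩, rfl⟩
  obtain ⟨s, hs⟩ : ∃ s : Fin h, (s : ℕ) = 3 := ⟨⟨3, by omega⟩, rfl⟩
  have htz : t ≠ z := by
    rintro rfl
    omega
  have hto : t ≠ o := by
    rintro rfl
    omega
  have hsz : s ≠ z := by
    rintro rfl
    omega
  have hso : s ≠ o := by
    rintro rfl
    omega
  have hts : t ≠ s := by
    rintro rfl
    omega
  exact hA'.n6' hh3 hz h0' htz hsz hts (lb t) (lb s)
    ⟨val t htz hto (by omega), val s hsz hso (by omega)⟩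

/-- (N7) -/
theorem Adm.n7 (hA : Adm θ L) (hh : 4 ≤ h) (hz : (z : ℕ) = 0) (h0 : L (dl z) = θ) {j : Fin h}
    (hj : j ≠ z) {c : F h 0} (hc : IsLet j c) : L (cm (gg z)⁻¹ c) = 0 := by
  have hh3 : 3 ≤ h := by omega
  obtain ⟨o, ho⟩ : ∃ o : Fin h, (o : ℕ) = z + 1 := ⟨⟨1, by omega⟩, by simp [hz]⟩
  obtain ⟨t, ht⟩ : ∃ t : Fin h, (t : ℕ) = o + 1 := ⟨⟨2, by omega⟩, by simp [ho, hz]⟩
  have hoz : o ≠ z := swp_ne ho
  have hto : t ≠ o := swp_ne ht
  have htz : t ≠ z := by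
    rintro rfl
    omega
  obtain ⟨k, hk, hjk⟩ : ∃ k : Fin h, k ≠ z ∧ j ≠ k := by
    by_cases hjo : j = o
    · exact ⟨t, htz, by rw [hjo]; exact Ne.symm hto⟩
    · exact ⟨o, hoz, hjo⟩
  obtain ⟨μ, hμ, ha, hb, h1, -⟩ := frame2 hz hj hk hjk hoz htz (Ne.symm hto) hc
    (d := ga k) (Or.inl rfl) (c' := gb o) (d' := ga t) (Or.inr (Or.inr (Or.inl rfl))) (Or.inl rfl)
  have hA' : Adm θ fun x => L (μ x) := hA.aut hμ
  have h0' : (fun x => L (μ x)) (dl z) = θ := by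
    show L (μ (dl z)) = θ
    rw [n4_frame_dl ha hb, h0]
  have h3 := hA'.n7_b hh hz h0' ho
  rw [n4_frame ha hb, hA.f_cls' hh3 hz h0 _ h1] at h3
  exact h3

/-- (N7) with `ga z` -/
theorem Adm.n7a (hA : Adm θ L) (hh : 4 ≤ h) (hz : (z : ℕ) = 0) (h0 : L (dl z) = θ) {j : Fin h}
    (hj : j ≠ z) {c : F h 0} (hc : IsLet j c) : L (cm (ga z) c) = 0 := by
  have hk : kk z ∈ MCGd h := kk_bdry z
  have hA' : Adm θ fun x => L (kk z x) := hA.aut hk
  have h0' : (fun x => L (kk z x)) (dl z) = θ := by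
    show L (kk z (dl z)) = θ
    rw [kk_dl, h0]
  have h3 := hA'.n7 hh hz h0' hj hc
  have e1 : kk (n := 0) z c = c := by
    rcases hc with rfl | rfl | rfl | rfl
    · exact kk_a' hj
    · rw [map_inv, kk_a' hj]
    · exact kk_b' hj
    · rw [map_inv, kk_b' hj]
  have e2 : kk (n := 0) z (cm (gg z)⁻¹ c) = cm (ga z) c := by
    have e3 : kk (n := 0) z (cm (gg z)⁻¹ c) = cm (kk z (gg z)⁻¹) (kk z c) := map_cm (kk z).toMonoidHom _ _
    rw [e3, kk_gg, e1]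
  rw [e2] at h3
  exact h3

end Pool.Agent.PWM
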