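import Pool.Agent.PWM.Bas

/-!
# Operations on systems (paper, 1.2)
-/

namespace Pool.Agent.PWM

open Pool.Agent.PW

variable {g n : ℕ} {k : Type} [Field k] {V : Type} [AddCommGroup V] [Module k V]

theorem isConj_map {G H : Type*} [Group G] [Group H] (φ : G →* H) {x y : G} (h : IsConj x y) :
    IsConj (φ x) (φ y) := by
  obtain ⟨c, hc⟩ := isConj_iff.mp h
  exact isConj_iff.mpr ⟨φ c, by rw [← hc, map_mul, map_mul, map_inv]⟩

theorem eq_one_of_isConj {G H : Type*} [Group G] [Monoid H] (φ : G →* H) {x y : G}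
    (h : IsConj x y) (hx : φ x = 1) : φ y = 1 := by
  obtain ⟨c, hc⟩ := isConj_iff.mp h
  rw [← hc, map_mul, map_mul, hx, mul_one, ← map_mul, mul_inv_cancel, map_one]

theorem isConj_mem_ρ (S : Sys g n k V) {φ : MulAut (F g n)} (hφ : φ ∈ MCG g n) :
    S.ρ (φ (bdry g n)) = 1 := by
  have h : IsConj (bdry g n) (φ (bdry g n)) := hφ.1.symm
  exact eq_one_of_isConj S.ρ h S.bd

/-- Transport of the finite order along a homomorphism. -/
theorem FinOrd.map_of {G H : Type*} [Group G] [Group H] {ρ : G →* Module.End k V} {v : G → V}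
    {φ : H →* G} {x : H} {y : G} {ρ' : H →* Module.End k V} {v' : H → V} (h : FinOrd ρ v y)
    (h1 : ∀ z, ρ' z = ρ (φ z)) (h2 : ∀ z, v' z = v (φ z)) (hx : φ x = y) :
    FinOrd ρ' v' x := by
  obtain ⟨m, hm, h3, h4⟩ := h
  refine ⟨m, hm, ?_, ?_⟩
  · rw [h1, map_pow, hx, h3]
  · rw [h2, map_pow, hx, h4]

/-- The system moved by a mapping class. -/
def Sys.comp (S : Sys g n k V) {φ : MulAut (F g n)} (hφ : φ ∈ MCG g n) : Sys g n k V where
  ρ := S.ρ.comp φ.toMonoidHom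
  v := fun x => S.v (φ x)
  coc := by
    intro x y
    show S.v (φ (x * y)) = S.v (φ x) + S.ρ (φ x) (S.v (φ y))
    rw [map_mul, S.coc]
  fin := S.fin.subset (by
    rintro _ ⟨x, rfl⟩
    exact ⟨φ x, rfl⟩)
  roots := by
    obtain ⟨N, ζ, hN, h1, h2⟩ := S.roots
    exact ⟨N, ζ, hN, fun x => h1 (φ x), h2⟩
  comm := fun d hd e he => S.comm _ (map_aut_mem φ hd) _ (map_aut_mem φ he)
  bd := isConj_mem_ρ S hφ
  kill := by
    intro ψ hψ i
    have h := S.kill (φ * ψ) ((MCG g n).mul_mem hφ hψ) i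
    exact ⟨h.1.map_of (φ := φ.toMonoidHom) (fun _ => rfl) (fun _ => rfl) rfl,
      h.2.1.map_of (φ := φ.toMonoidHom) (fun _ => rfl) (fun _ => rfl) rfl,
      h.2.2.map_of (φ := φ.toMonoidHom) (fun _ => rfl) (fun _ => rfl) rfl⟩
  orb := by
    obtain ⟨T, hT, h⟩ := S.orb
    refine ⟨T, hT, fun ψ hψ => ?_⟩
    exact h (φ * ψ) ((MCG g n).mul_mem hφ hψ)

theorem Sys.comp_ρ (S : Sys g n k V) {φ : MulAut (F g n)} (hφ : φ ∈ MCG g n) (x : F g n) :
    (S.comp hφ).ρ x = S.ρ (φ x) := rfl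

theorem Sys.comp_v (S : Sys g n k V) {φ : MulAut (F g n)} (hφ : φ ∈ MCG g n) (x : F g n) :
    (S.comp hφ).v x = S.v (φ x) := rfl

theorem Eig.comp {S : Sys g n k V} {l : V →ₗ[k] k} {χ : F g n → k} (h : Eig S l χ)
    {φ : MulAut (F g n)} (hφ : φ ∈ MCG g n) : Eig (S.comp hφ) l (fun x => χ (φ x)) :=
  ⟨h.ne, fun _ hd u => h.eig _ (map_aut_mem φ hd) u⟩

theorem Fx.comp_iff {S : Sys g n k V} {l : V →ₗ[k] k} {χ : F g n → k} {κ : k}
    {φ : MulAut (F g n)} (hφ : φ ∈ MCG g n) (d : F g n) :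
    Fx (S.comp hφ) l (fun x => χ (φ x)) κ d ↔ Fx S l χ κ (φ d) := Iff.rfl

theorem finOrd_addCob {G : Type*} [Group G] {ρ : G →* Module.End k V} {v : G → V} (w : V) {x : G}
    (h : FinOrd ρ v x) : FinOrd ρ (fun x => v x + (ρ x w - w)) x := by
  obtain ⟨m, hm, h1, h2⟩ := h
  refine ⟨m, hm, h1, ?_⟩
  show v (x ^ m) + (ρ (x ^ m) w - w) = 0
  rw [h2, h1, Module.End.one_apply, sub_self, add_zero]

/-- Adding a coboundary. -/
def Sys.addCob (S : Sys g n k V) (w : V) : Sys g n k V where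
  ρ := S.ρ
  v := fun x => S.v x + (S.ρ x w - w)
  coc := by
    intro x y
    show S.v (x * y) + (S.ρ (x * y) w - w) =
      S.v x + (S.ρ x w - w) + S.ρ x (S.v y + (S.ρ y w - w))
    rw [S.coc, map_mul, Module.End.mul_apply, map_add, map_sub]
    abel
  fin := S.fin
  roots := S.roots
  comm := S.comm
  bd := S.bd
  kill := fun ψ hψ i => ⟨finOrd_addCob w (S.kill ψ hψ i).1, finOrd_addCob w (S.kill ψ hψ i).2.1,
    finOrd_addCob w (S.kill ψ hψ i).2.2⟩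
  orb := by
    obtain ⟨T, hT, h⟩ := S.orb
    refine ⟨T, hT, fun ψ hψ => ?_⟩
    obtain ⟨s, hs, u, hu⟩ := h ψ hψ
    refine ⟨s, hs, u + w, fun x => ?_⟩
    show S.v (ψ x) + (S.ρ (ψ x) w - w) = s x + (S.ρ (ψ x) (u + w) - (u + w))
    rw [hu, map_add]
    abel

/-- The operators on the quotient by an invariant subspace. -/
def Sys.qρ (S : Sys g n k V) (W : Submodule k V) (hW : ∀ x, ∀ u ∈ W, S.ρ x u ∈ W) :
    F g n →* Module.End k (V ⧸ W) where
  toFun x := W.mapQ W (S.ρ x) (fun u hu => hW x u hu)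
  map_one' := by
    apply LinearMap.ext
    intro u
    obtain ⟨u, rfl⟩ := W.mkQ_surjective u
    rw [Submodule.mkQ_apply, Submodule.mapQ_apply, map_one, Module.End.one_apply,
      Module.End.one_apply]
  map_mul' := by
    intro x y
    apply LinearMap.ext
    intro u
    obtain ⟨u, rfl⟩ := W.mkQ_surjective u
    rw [Module.End.mul_apply, Submodule.mkQ_apply, Submodule.mapQ_apply, Submodule.mapQ_apply,
      Submodule.mapQ_apply, map_mul, Module.End.mul_apply]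

theorem Sys.qρ_mk (S : Sys g n k V) (W : Submodule k V) (hW : ∀ x, ∀ u ∈ W, S.ρ x u ∈ W)
    (x : F g n) (u : V) : S.qρ W hW x (W.mkQ u) = W.mkQ (S.ρ x u) := rfl

theorem Sys.qρ_one (S : Sys g n k V) (W : Submodule k V) (hW : ∀ x, ∀ u ∈ W, S.ρ x u ∈ W)
    {x : F g n} (hx : S.ρ x = 1) : S.qρ W hW x = 1 := by
  apply LinearMap.ext
  intro u
  obtain ⟨u, rfl⟩ := W.mkQ_surjective u
  rw [S.qρ_mk, hx, Module.End.one_apply, Module.End.one_apply]

/-- The quotient by an invariant subspace. -/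
def Sys.quot (S : Sys g n k V) (W : Submodule k V) (hW : ∀ x, ∀ u ∈ W, S.ρ x u ∈ W) :
    Sys g n k (V ⧸ W) where
  ρ := S.qρ W hW
  v := fun x => W.mkQ (S.v x)
  coc := by
    intro x y
    rw [S.qρ_mk, S.coc, map_add]
  fin := by
    classical
    have : Set.range (S.qρ W hW) ⊆
        (fun T : Module.End k V => if h : ∀ u ∈ W, T u ∈ W then W.mapQ W T h else 0) ''
          Set.range S.ρ := by
      rintro _ ⟨x, rfl⟩
      refine ⟨S.ρ x, ⟨x, rfl⟩, ?_⟩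
      dsimp only
      rw [dif_pos (hW x)]
      rfl
    exact (S.fin.image _).subset this
  roots := by
    obtain ⟨N, ζ, hN, h1, h2⟩ := S.roots
    refine ⟨N, ζ, hN, fun x => ?_, h2⟩
    rw [← map_pow]
    exact S.qρ_one W hW (by rw [map_pow, h1])
  comm := by
    intro d hd e he
    apply LinearMap.ext
    intro u
    obtain ⟨u, rfl⟩ := W.mkQ_surjective u
    rw [Module.End.mul_apply, Module.End.mul_apply, S.qρ_mk, S.qρ_mk, S.qρ_mk, S.qρ_mk,
      ← Module.End.mul_apply, ← Module.End.mul_apply, S.comm d hd e he]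
  bd := S.qρ_one W hW S.bd
  kill := by
    have key : ∀ x, FinOrd S.ρ S.v x → FinOrd (S.qρ W hW) (fun x => W.mkQ (S.v x)) x := by
      rintro x ⟨m, hm, h1, h2⟩
      refine ⟨m, hm, S.qρ_one W hW h1, ?_⟩
      dsimp only
      rw [h2, map_zero]
    intro ψ hψ i
    exact ⟨key _ (S.kill ψ hψ i).1, key _ (S.kill ψ hψ i).2.1, key _ (S.kill ψ hψ i).2.2⟩
  orb := by
    obtain ⟨T, hT, h⟩ := S.orb
    refine ⟨(fun s x => W.mkQ (s x)) '' T, hT.image _, fun ψ hψ => ?_⟩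
    obtain ⟨s, hs, u, hu⟩ := h ψ hψ
    refine ⟨_, ⟨s, hs, rfl⟩, W.mkQ u, fun x => ?_⟩
    dsimp only
    rw [S.qρ_mk, hu, map_add, map_sub]

theorem Sys.quot_v (S : Sys g n k V) (W : Submodule k V) (hW : ∀ x, ∀ u ∈ W, S.ρ x u ∈ W)
    (x : F g n) : (S.quot W hW).v x = W.mkQ (S.v x) := rfl

theorem Sys.quot_ρ (S : Sys g n k V) (W : Submodule k V) (hW : ∀ x, ∀ u ∈ W, S.ρ x u ∈ W)
    (x : F g n) (u : V) : (S.quot W hW).ρ x (W.mkQ u) = W.mkQ (S.ρ x u) := rfl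

/-! ### Groupings -/

section Grp

variable {h n' : ℕ} (G : Grp h n' g n)

/-- The extension of an endomorphism along a grouping. -/
noncomputable def Grp.ext (ψ : F h n' →* F h n') (w : Fin n' → F h n') : F g n →* F g n :=
  FreeGroup.lift fun y => match G.f y with
    | Gen.a i => G.ι (ψ (ga i))
    | Gen.b i => G.ι (ψ (gb i))
    | Gen.c j => G.ι (w j) * FreeGroup.of y * (G.ι (w j))⁻¹

variable {G}

theorem Grp.ext_a (ψ : F h n' →* F h n') (w : Fin n' → F h n') {y : Gen g n} {i : Fin h}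
    (hy : G.f y = Gen.a i) : G.ext ψ w (FreeGroup.of y) = G.ι (ψ (ga i)) := by
  unfold Grp.ext
  rw [FreeGroup.lift_apply_of, hy]

theorem Grp.ext_b (ψ : F h n' →* F h n') (w : Fin n' → F h n') {y : Gen g n} {i : Fin h}
    (hy : G.f y = Gen.b i) : G.ext ψ w (FreeGroup.of y) = G.ι (ψ (gb i)) := by
  unfold Grp.ext
  rw [FreeGroup.lift_apply_of, hy]

theorem Grp.ext_c (ψ : F h n' →* F h n') (w : Fin n' → F h n') {y : Gen g n} {j : Fin n'}
    (hy : G.f y = Gen.c j) :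
    G.ext ψ w (FreeGroup.of y) = G.ι (w j) * FreeGroup.of y * (G.ι (w j))⁻¹ := by
  unfold Grp.ext
  rw [FreeGroup.lift_apply_of, hy]

theorem Grp.ext_ι {ψ : F h n' →* F h n'} {w : Fin n' → F h n'}
    (hw : ∀ j, ψ (gc j) = w j * gc j * (w j)⁻¹) (x : F h n') :
    G.ext ψ w (G.ι x) = G.ι (ψ x) := by
  have : (G.ext ψ w).comp G.ι = G.ι.comp ψ := by
    apply hom_ext
    · intro i
      rw [MonoidHom.comp_apply, MonoidHom.comp_apply, G.ιa]
      exact Grp.ext_a ψ w ((G.fa _ _).mpr rfl)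
    · intro i
      rw [MonoidHom.comp_apply, MonoidHom.comp_apply, G.ιb]
      exact Grp.ext_b ψ w ((G.fb _ _).mpr rfl)
    · intro j
      rw [MonoidHom.comp_apply, MonoidHom.comp_apply]
      have key : Subgroup.closure {x : F g n | ∃ y, G.f y = Gen.c j ∧ x = FreeGroup.of y} ≤
          (G.ext ψ w).eqLocus ((MulAut.conj (G.ι (w j))).toMonoidHom) := by
        rw [Subgroup.closure_le]
        rintro x ⟨y, hy, rfl⟩
        exact Grp.ext_c ψ w hy
      have h1 : G.ext ψ w (G.ι (gc j)) = G.ι (w j) * G.ι (gc j) * (G.ι (w j))⁻¹ := key (G.ιc j)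
      rw [h1, hw, map_mul, map_mul, map_inv]
  exact DFunLike.congr_fun this x

theorem Grp.ext_comp {ψ ψ' : F h n' →* F h n'} {w w' : Fin n' → F h n'}
    (hw : ∀ j, ψ (gc j) = w j * gc j * (w j)⁻¹) (hψ : ψ.comp ψ' = MonoidHom.id _)
    (hww : ∀ j, ψ (w' j) * w j = 1) : (G.ext ψ w).comp (G.ext ψ' w') = MonoidHom.id _ := by
  have hψ' : ∀ x, ψ (ψ' x) = x := fun x => DFunLike.congr_fun hψ x
  apply FreeGroup.ext_hom
  intro y
  rw [MonoidHom.comp_apply, MonoidHom.id_apply]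
  cases hy : G.f y with
  | a i =>
    rw [Grp.ext_a ψ' w' hy, Grp.ext_ι hw, hψ', G.ιa, (G.fa _ _).mp hy]
    rfl
  | b i =>
    rw [Grp.ext_b ψ' w' hy, Grp.ext_ι hw, hψ', G.ιb, (G.fb _ _).mp hy]
    rfl
  | c j =>
    rw [Grp.ext_c ψ' w' hy, map_mul, map_mul, map_inv, Grp.ext_ι hw, Grp.ext_c ψ w hy]
    have e : G.ι (ψ (w' j)) * (G.ι (w j) * FreeGroup.of y * (G.ι (w j))⁻¹) *
        (G.ι (ψ (w' j)))⁻¹ =
        G.ι (ψ (w' j) * w j) * FreeGroup.of y * (G.ι (ψ (w' j) * w j))⁻¹ := by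
      rw [map_mul]
      group
    rw [e, hww, map_one]
    group

/-- Mapping classes extend along a grouping. -/
theorem Grp.extend (G : Grp h n' g n) {ψ : MulAut (F h n')} (hψ : ψ ∈ MCG h n') :
    ∃ Ψ ∈ MCG g n, ∀ x, Ψ (G.ι x) = G.ι (ψ x) := by
  have h1 : ∀ j, ∃ w : F h n', w * gc j * w⁻¹ = ψ (gc j) := fun j => isConj_iff.mp (hψ.2 j).symm
  choose w hw using h1
  have hw' : ∀ j, ψ.toMonoidHom (gc j) = w j * gc j * (w j)⁻¹ := fun j => (hw j).symm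
  have hinv : ∀ x, ψ⁻¹ (ψ x) = x := fun x => by simp
  have hinv' : ∀ x, ψ (ψ⁻¹ x) = x := fun x => by simp
  let w' : Fin n' → F h n' := fun j => (ψ⁻¹ (w j))⁻¹
  have hw2 : ∀ j, (ψ⁻¹).toMonoidHom (gc j) = w' j * gc j * (w' j)⁻¹ := by
    intro j
    show ψ⁻¹ (gc j) = (ψ⁻¹ (w j))⁻¹ * gc j * ((ψ⁻¹ (w j))⁻¹)⁻¹
    have e : (gc j : F h n') = (w j)⁻¹ * ψ (gc j) * w j := by
      rw [← hw j]
      group
    conv_lhs => rw [e]
    rw [map_mul, map_mul, map_inv, hinv, inv_inv]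
  have c1 : (G.ext ψ.toMonoidHom w).comp (G.ext (ψ⁻¹).toMonoidHom w') = MonoidHom.id _ := by
    apply Grp.ext_comp hw'
    · apply MonoidHom.ext
      intro x
      exact hinv' x
    · intro j
      show ψ ((ψ⁻¹ (w j))⁻¹) * w j = 1
      rw [map_inv, hinv', inv_mul_cancel]
  have c2 : (G.ext (ψ⁻¹).toMonoidHom w').comp (G.ext ψ.toMonoidHom w) = MonoidHom.id _ := by
    apply Grp.ext_comp hw2
    · apply MonoidHom.ext
      intro x
      exact hinv x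
    · intro j
      show ψ⁻¹ (w j) * (ψ⁻¹ (w j))⁻¹ = 1
      rw [mul_inv_cancel]
  have hι : ∀ x, mkAut (G.ext ψ.toMonoidHom w) (G.ext (ψ⁻¹).toMonoidHom w') c2 c1 (G.ι x) =
      G.ι (ψ x) := fun x => Grp.ext_ι hw' x
  refine ⟨mkAut (G.ext ψ.toMonoidHom w) (G.ext (ψ⁻¹).toMonoidHom w') c2 c1, ⟨?_, ?_⟩, hι⟩
  · have b1 : IsConj (G.ι (ψ (bdry h n'))) (G.ι (bdry h n')) := isConj_map G.ι hψ.1
    have b2 := isConj_map
      (mkAut (G.ext ψ.toMonoidHom w) (G.ext (ψ⁻¹).toMonoidHom w') c2 c1).toMonoidHom G.bd.symm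
    have b3 : IsConj (mkAut (G.ext ψ.toMonoidHom w) (G.ext (ψ⁻¹).toMonoidHom w') c2 c1
        (bdry g n)) (mkAut (G.ext ψ.toMonoidHom w) (G.ext (ψ⁻¹).toMonoidHom w') c2 c1
        (G.ι (bdry h n'))) := b2
    rw [hι] at b3
    exact b3.trans (b1.trans G.bd)
  · intro j
    cases hy : G.f (Gen.c j) with
    | a i => exact absurd ((G.fa _ _).mp hy) (by simp)
    | b i => exact absurd ((G.fb _ _).mp hy) (by simp)
    | c i =>
      have := Grp.ext_c ψ.toMonoidHom w hy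
      exact (isConj_iff.mpr ⟨G.ι (w i), this.symm⟩).symm

theorem Grp.ι_dl (G : Grp h n' g n) (i : Fin h) : G.ι (dl i) = dl (G.e i) := by
  rw [map_dl, G.ιa, G.ιb]
  rfl

/-- The pull back of a system along a grouping. -/
def Sys.pull (S : Sys g n k V) (G : Grp h n' g n) : Sys h n' k V where
  ρ := S.ρ.comp G.ι
  v := fun x => S.v (G.ι x)
  coc := by
    intro x y
    show S.v (G.ι (x * y)) = S.v (G.ι x) + S.ρ (G.ι x) (S.v (G.ι y))
    rw [map_mul, S.coc]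
  fin := S.fin.subset (by
    rintro _ ⟨x, rfl⟩
    exact ⟨G.ι x, rfl⟩)
  roots := by
    obtain ⟨N, ζ, hN, h1, h2⟩ := S.roots
    exact ⟨N, ζ, hN, fun x => h1 (G.ι x), h2⟩
  comm := fun d hd e he => S.comm _ (map_mem G.ι hd) _ (map_mem G.ι he)
  bd := eq_one_of_isConj S.ρ G.bd.symm S.bd
  kill := by
    intro ψ hψ i
    obtain ⟨Ψ, hΨ, h⟩ := G.extend hψ
    have h1 := S.kill Ψ hΨ (G.e i)
    have ha : G.ι (ψ (ga i)) = Ψ (ga (G.e i)) := by rw [← h, G.ιa]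
    have hb : G.ι (ψ (gb i)) = Ψ (gb (G.e i)) := by rw [← h, G.ιb]
    have hd : G.ι (ψ (dl i)) = Ψ (dl (G.e i)) := by rw [← h, G.ι_dl]
    exact ⟨h1.1.map_of (φ := G.ι) (fun _ => rfl) (fun _ => rfl) ha,
      h1.2.1.map_of (φ := G.ι) (fun _ => rfl) (fun _ => rfl) hb,
      h1.2.2.map_of (φ := G.ι) (fun _ => rfl) (fun _ => rfl) hd⟩
  orb := by
    obtain ⟨T, hT, hh⟩ := S.orb
    refine ⟨(fun s x => s (G.ι x)) '' T, hT.image _, fun ψ hψ => ?_⟩
    obtain ⟨Ψ, hΨ, h⟩ := G.extend hψ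
    obtain ⟨s, hs, u, hu⟩ := hh Ψ hΨ
    refine ⟨_, ⟨s, hs, rfl⟩, u, fun x => ?_⟩
    show S.v (G.ι (ψ x)) = s (G.ι x) + (S.ρ (G.ι (ψ x)) u - u)
    rw [← h, hu]

theorem Sys.pull_ρ (S : Sys g n k V) (G : Grp h n' g n) (x : F h n') :
    (S.pull G).ρ x = S.ρ (G.ι x) := rfl

theorem Sys.pull_v (S : Sys g n k V) (G : Grp h n' g n) (x : F h n') :
    (S.pull G).v x = S.v (G.ι x) := rfl

theorem Eig.pull {S : Sys g n k V} {l : V →ₗ[k] k} {χ : F g n → k} (hl : Eig S l χ)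
    (G : Grp h n' g n) : Eig (S.pull G) l (fun x => χ (G.ι x)) :=
  ⟨hl.ne, fun _ hd u => hl.eig _ (map_mem G.ι hd) u⟩

end Grp

end Pool.Agent.PWM
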